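import Mathlib

set_option autoImplicit false

namespace Pool.Agent.H29.SqFree

/-- Thue-Morse word -/
def tm (n : ℕ) : ℕ := (Nat.digits 2 n).sum % 2

theorem tm_lt (n : ℕ) : tm n < 2 := Nat.mod_lt _ (by norm_num)

theorem tm_even (n : ℕ) : tm (2 * n) = tm n := by
  rcases Nat.eq_zero_or_pos n with rfl | h
  · rfl
  · unfold tm
    rw [show 2 * n = 0 + 2 * n by ring, Nat.digits_add 2 (by norm_num) 0 n (by norm_num)
      (Or.inr h.ne')]
    simp

theorem tm_odd (n : ℕ) : tm (2 * n + 1) + tm n = 1 := by
  unfold tm
  rw [show 2 * n + 1 = 1 + 2 * n by ring, Nat.digits_add 2 (by norm_num) 1 n (by norm_num)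
    (Or.inl one_ne_zero)]
  simp only [List.sum_cons]
  omega

theorem overlap (p : ℕ) : ∀ i, 1 ≤ p → ¬ ∀ j, j ≤ p → tm (i + j) = tm (i + p + j) := by
  induction p using Nat.strong_induction_on with
  | _ p ih =>
    intro i hp h
    obtain ⟨r, rfl | rfl⟩ := Nat.even_or_odd' p
    · refine ih r (by omega) (i / 2) (by omega) fun j hj => ?_
      have h1 := h (2 * j) (by omega)
      obtain ⟨s, rfl | rfl⟩ := Nat.even_or_odd' i
      · rw [show 2 * s + 2 * j = 2 * (s + j) by ring, show 2 * s + 2 * r + 2 * j = 2 * (s + r + j)
          by ring, tm_even, tm_even] at h1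
        rwa [show 2 * s / 2 = s by omega]
      · have h2 := tm_odd (s + j)
        have h3 := tm_odd (s + r + j)
        rw [show 2 * s + 1 + 2 * j = 2 * (s + j) + 1 by ring,
          show 2 * s + 1 + 2 * r + 2 * j = 2 * (s + r + j) + 1 by ring] at h1
        rw [show (2 * s + 1) / 2 = s by omega]
        omega
    · have alt : ∀ m, tm (2 * m) + tm (2 * m + 1) = 1 := fun m => by
        have := tm_odd m
        rw [tm_even]; omega
      have h1 : ∀ j, j < 2 * r + 1 → tm (i + j) + tm (i + j + 1) = 1 := by
        intro j hj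
        obtain ⟨s, hs | hs⟩ := Nat.even_or_odd' (i + j)
        · rw [hs]; exact alt s
        · have h2 := h j (by omega)
          have h3 := h (j + 1) (by omega)
          have h4 := alt (s + r + 1)
          rw [show i + (2 * r + 1) + j = 2 * (s + r + 1) by omega] at h2
          rw [show i + (2 * r + 1) + (j + 1) = 2 * (s + r + 1) + 1 by omega,
            show i + (j + 1) = i + j + 1 by omega] at h3
          omega
      have h2 : ∀ j, j ≤ 2 * r + 1 → (tm (i + j) + j) % 2 = tm i := by
        intro j hj
        induction j with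
        | zero => have := tm_lt i; simp only [Nat.add_zero]; omega
        | succ j ihj =>
          have := ihj (by omega)
          have := h1 j (by omega)
          rw [show i + (j + 1) = i + j + 1 by omega]
          omega
      have h3 := h2 (2 * r + 1) le_rfl
      have h4 := h 0 (by omega)
      have := tm_lt i
      simp only [Nat.add_zero] at h4
      omega

/-- ternary squarefree word -/
def tern (n : ℕ) : ℕ := 1 + tm (n + 1) - tm n

theorem tern_lt (n : ℕ) : tern n < 3 := by
  have := tm_lt (n + 1)
  unfold tern; omega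

theorem tern_sq (i p : ℕ) (hp : 1 ≤ p) : ¬ ∀ j, j < p → tern (i + j) = tern (i + p + j) := by
  intro h
  have h1 : ∀ j, j ≤ p → tm (i + j) + tm (i + p) = tm (i + p + j) + tm i := by
    intro j hj
    induction j with
    | zero => simp only [Nat.add_zero]; omega
    | succ j ihj =>
      have := ihj (by omega)
      have h2 := h j (by omega)
      have := tm_lt (i + j)
      have := tm_lt (i + p + j)
      unfold tern at h2
      rw [show i + (j + 1) = i + j + 1 by omega, show i + p + (j + 1) = i + p + j + 1 by omega]
      omega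
  have h2 := h1 p le_rfl
  have := tm_lt i
  have := tm_lt (i + p)
  have := tm_lt (i + p + p)
  exact overlap p i hp fun j hj => by have := h1 j hj; omega

/-- four-letter squarefree word without factors `aba` -/
def quad (n : ℕ) : ℕ := if n % 3 = 2 then 3 else tern (2 * (n / 3) + n % 3)

theorem quad_lt (n : ℕ) : quad n < 4 := by
  unfold quad
  split_ifs
  · omega
  · have := tern_lt (2 * (n / 3) + n % 3); omega

theorem tern_ne (m : ℕ) : tern m ≠ tern (m + 1) := fun h =>
  tern_sq m 1 le_rfl fun j hj => by obtain rfl : j = 0 := by omega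
                                    exact h

theorem quad_mod {a b : ℕ} (h : quad a = quad b) : a % 3 = 2 ↔ b % 3 = 2 := by
  unfold quad at h
  have := tern_lt (2 * (a / 3) + a % 3)
  have := tern_lt (2 * (b / 3) + b % 3)
  split_ifs at h <;> omega

theorem quad_aba (i : ℕ) : quad i ≠ quad (i + 2) := by
  intro h
  have h1 := quad_mod h
  unfold quad at h
  rw [if_neg (by omega), if_neg (by omega),
    show 2 * ((i + 2) / 3) + (i + 2) % 3 = 2 * (i / 3) + i % 3 + 1 by omega] at h
  exact tern_ne _ h

theorem quad_sq (i p : ℕ) (hp : 1 ≤ p) : ¬ ∀ j, j < p → quad (i + j) = quad (i + p + j) := by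
  intro h
  by_cases h1 : p = 1
  · subst h1
    have h2 := h 0 (by omega)
    have h3 := quad_mod h2
    unfold quad at h2
    rw [if_neg (by omega), if_neg (by omega),
      show 2 * ((i + 1 + 0) / 3) + (i + 1 + 0) % 3 = 2 * ((i + 0) / 3) + (i + 0) % 3 + 1
        by omega] at h2
    exact tern_ne _ h2
  by_cases h2 : p = 2
  · subst h2
    exact quad_aba i (h 0 (by omega))
  have h3 := quad_mod (h 0 (by omega))
  have h4 := quad_mod (h 1 (by omega))
  have h5 := quad_mod (h 2 (by omega))
  refine tern_sq (2 * (i / 3) + i % 3) (2 * (p / 3)) (by omega) fun j hj => ?_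
  have h6 := h (3 * ((2 * (i / 3) + i % 3 + j) / 2) + (2 * (i / 3) + i % 3 + j) % 2 - i) (by omega)
  unfold quad at h6
  rw [if_neg (by omega), if_neg (by omega)] at h6
  convert h6 using 2 <;> omega

end Pool.Agent.H29.SqFree
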