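import Mathlib

/-! An antichain whose pairwise unions cover every set that meets all cores substantially. -/

set_option linter.unusedSectionVars false

namespace Pool.Agent.H29.AI1
open Finset

variable {V ι : Type} [Fintype V] [DecidableEq V] [Fintype ι] [DecidableEq ι]

def ep (b : Bool) : ℤ := if b then 1 else -1

def hat (π : V → ι → Bool) (U : Finset V) (S : Finset ι) : ℤ := ∑ x ∈ U, ∏ k ∈ S, ep (π x k)

def cnt (π : V → ι → Bool) (U : Finset V) (k : ι) (b : Bool) : ℕ :=
  (U.filter (fun x => π x k = b)).card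

lemma parseval (π : V → ι → Bool) (q : ℕ) (hq : ∀ v, (univ.filter (fun x => π x = v)).card ≤ q)
    (U : Finset V) :
    ∑ S : Finset ι, hat π U S ^ 2 ≤ (2 ^ Fintype.card ι * q : ℕ) * (Fintype.card V : ℤ) := by
  have e : ∀ x y : V, ∑ S : Finset ι, (∏ k ∈ S, ep (π x k)) * (∏ k ∈ S, ep (π y k))
      = if π y = π x then 2 ^ Fintype.card ι else 0 := by
    intro x y
    simp only [← prod_mul_distrib]
    rw [← powerset_univ, ← prod_one_add]
    split_ifs with h
    · rw [h]
      have : ∀ k ∈ (univ : Finset ι), 1 + ep (π x k) * ep (π x k) = 2 := by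
        intro k _; cases π x k <;> simp [ep]
      rw [prod_congr rfl this, prod_const, card_univ]
    · obtain ⟨k, hk⟩ := Function.ne_iff.1 h
      apply prod_eq_zero (mem_univ k)
      revert hk
      cases π x k <;> cases π y k <;> simp [ep]
  calc ∑ S : Finset ι, hat π U S ^ 2
      = ∑ S : Finset ι, ∑ x ∈ U, ∑ y ∈ U, (∏ k ∈ S, ep (π x k)) * (∏ k ∈ S, ep (π y k)) := by
        refine sum_congr rfl fun S _ => ?_
        rw [sq, hat, sum_mul_sum]
    _ = ∑ x ∈ U, ∑ y ∈ U, ∑ S : Finset ι, (∏ k ∈ S, ep (π x k)) * (∏ k ∈ S, ep (π y k)) := by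
        rw [sum_comm]
        exact sum_congr rfl fun x _ => sum_comm
    _ = ∑ x ∈ U, ((U.filter (fun y => π y = π x)).card : ℤ) * 2 ^ Fintype.card ι := by
        refine sum_congr rfl fun x _ => ?_
        simp only [e]
        rw [← sum_filter, sum_const, nsmul_eq_mul]
    _ ≤ ∑ _x ∈ U, (q : ℤ) * 2 ^ Fintype.card ι := by
        refine sum_le_sum fun x _ => mul_le_mul_of_nonneg_right ?_ (by positivity)
        exact_mod_cast (card_le_card (filter_subset_filter _ (subset_univ U))).trans (hq _)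
    _ ≤ _ := by
        rw [sum_const, nsmul_eq_mul]
        have : (U.card : ℤ) ≤ Fintype.card V := by exact_mod_cast card_le_univ U
        push_cast
        nlinarith [show (0 : ℤ) ≤ (q : ℤ) * 2 ^ Fintype.card ι by positivity]

lemma few_big (π : V → ι → Bool) (q s K : ℕ)
    (hq : ∀ v, (univ.filter (fun x => π x = v)).card ≤ q)
    (hq2 : 2 ^ Fintype.card ι * q ≤ 2 * Fintype.card V) (hs : 1 ≤ s) (hK : Fintype.card V ≤ K * s)
    (U : Finset V) : (univ.filter (fun S : Finset ι => 2 * (s : ℤ) < |hat π U S|)).card ≤ K ^ 2 := by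
  set B := univ.filter (fun S : Finset ι => 2 * (s : ℤ) < |hat π U S|)
  have h1 : (B.card : ℤ) * (2 * s) ^ 2 ≤ ∑ S ∈ B, hat π U S ^ 2 := by
    rw [← nsmul_eq_mul]
    apply card_nsmul_le_sum
    intro S hS
    have := (mem_filter.1 hS).2
    rw [← sq_abs (hat π U S)]
    exact pow_le_pow_left₀ (by positivity) this.le 2
  have h2 : ∑ S ∈ B, hat π U S ^ 2 ≤ ∑ S : Finset ι, hat π U S ^ 2 :=
    sum_le_sum_of_subset_of_nonneg (subset_univ _) fun _ _ _ => sq_nonneg _
  have h3 := parseval π q hq U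
  have h4 : ((2 ^ Fintype.card ι * q : ℕ) : ℤ) ≤ 2 * Fintype.card V := by exact_mod_cast hq2
  have h5 : (Fintype.card V : ℤ) ≤ K * s := by exact_mod_cast hK
  have h6 : (0 : ℤ) ≤ Fintype.card V := by positivity
  have h7 : (Fintype.card V : ℤ) ^ 2 ≤ (K * s) ^ 2 := pow_le_pow_left₀ h6 h5 2
  have h8 : (1 : ℤ) ≤ s := by exact_mod_cast hs
  have h9 : (B.card : ℤ) * s ^ 2 ≤ (K : ℤ) ^ 2 * s ^ 2 := by
    nlinarith [mul_le_mul_of_nonneg_right h4 h6, sq_nonneg ((K : ℤ) * s)]
  exact_mod_cast le_of_mul_le_mul_right h9 (by positivity)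

lemma cnt_one (π : V → ι → Bool) (U : Finset V) (k : ι) (b : Bool) :
    2 * (cnt π U k b : ℤ) = U.card + ep b * hat π U {k} := by
  simp only [cnt, hat, prod_singleton, card_filter, mul_sum]
  push_cast
  rw [mul_sum, card_eq_sum_ones]
  push_cast
  rw [← sum_add_distrib]
  refine sum_congr rfl fun x _ => ?_
  cases π x k <;> cases b <;> simp [ep]

lemma cnt_two (π : V → ι → Bool) (U : Finset V) (k j : ι) (h : k ≠ j) (b c : Bool) :
    4 * (cnt π (U.filter (fun x => π x k = b)) j c : ℤ)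
      = 2 * cnt π U j c + ep b * hat π U {k} + ep b * ep c * hat π U {k, j} := by
  simp only [cnt, hat, prod_singleton, prod_pair h, filter_filter, card_filter, mul_sum]
  push_cast
  rw [mul_sum, mul_sum, ← sum_add_distrib, ← sum_add_distrib]
  refine sum_congr rfl fun x _ => ?_
  cases π x k <;> cases π x j <;> cases b <;> cases c <;> simp [ep]

lemma cnt_mono (π : V → ι → Bool) {U W : Finset V} (h : U ⊆ W) (k : ι) (b : Bool) :
    cnt π U k b ≤ cnt π W k b := card_le_card (filter_subset_filter _ h)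

lemma cnt_add (π : V → ι → Bool) (U : Finset V) (k : ι) (b : Bool) :
    cnt π U k b + cnt π U k (!b) = U.card := by
  rw [← card_filter_add_card_filter_not (s := U) (fun x => π x k = b), cnt, cnt]
  congr 2
  ext x
  cases b <;> simp

lemma ep_abs (b : Bool) (x t : ℤ) (h : |x| ≤ t) : -t ≤ ep b * x ∧ ep b * x ≤ t := by
  have := abs_le.1 h
  cases b <;> simp [ep] <;> omega

def fam (π : V → ι → Bool) (ty : ι → ℕ) (s : ℕ) : Finset (Finset V) :=
  univ.filter (fun C => ∃ k b, C.card = (ty k + 2) * s ∧ cnt π C k b ≤ 3 * s ∧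
    ∀ j c, ¬ (j = k ∧ c = b) → 3 * s < cnt π C j c)

lemma fam_anti (π : V → ι → Bool) (ty : ι → ℕ) (s : ℕ) :
    ∀ C ∈ fam π ty s, ∀ D ∈ fam π ty s, C ⊆ D → C = D := by
  intro C hC D hD h
  obtain ⟨k, b, c1, c2, c3⟩ := (mem_filter.1 hC).2
  obtain ⟨j, c, d1, d2, d3⟩ := (mem_filter.1 hD).2
  by_cases e : j = k ∧ c = b
  · obtain ⟨rfl, rfl⟩ := e
    exact eq_of_subset_of_card_le h (by omega)
  · have := c3 j c e
    have := cnt_mono π h j c
    omega

lemma cover (π : V → ι → Bool) (ty : ι → ℕ) (q s K : ℕ)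
    (hq : ∀ v, (univ.filter (fun x => π x = v)).card ≤ q)
    (hq2 : 2 ^ Fintype.card ι * q ≤ 2 * Fintype.card V) (hs : 1 ≤ s) (hK : Fintype.card V ≤ K * s)
    (hK1 : 1 ≤ K)
    (hty : ∀ τ < K, 2 * K ^ 2 < (univ.filter (fun k => ty k = τ)).card)
    (U : Finset V) (hU : ∀ j c, 8 * s < cnt π U j c) :
    ∃ C ∈ fam π ty s, ∃ D ∈ fam π ty s, C ≠ D ∧ C ∪ D = U := by
  set τ := U.card / (2 * s) with hτ
  have t1 : 2 * s * τ ≤ U.card := Nat.mul_div_le _ _
  have t2 : U.card < 2 * s * (τ + 1) := Nat.lt_mul_div_succ _ (by omega)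
  have tK : τ < K := by
    have := card_le_univ U
    by_contra h
    have : s * K ≤ s * τ := Nat.mul_le_mul_left _ (by omega)
    have : s * 1 ≤ s * K := Nat.mul_le_mul_left _ hK1
    nlinarith
  set B := univ.filter (fun S : Finset ι => 2 * (s : ℤ) < |hat π U S| ∧ S.card ≤ 2)
  have hB : (B.biUnion id).card ≤ 2 * K ^ 2 := by
    have h1 : (B.biUnion id).card ≤ B.card * 2 :=
      card_biUnion_le_card_mul _ _ _ fun S hS => (mem_filter.1 hS).2.2
    have h2 : B.card ≤ K ^ 2 := le_trans (card_le_card fun S hS =>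
      mem_filter.2 ⟨mem_univ _, (mem_filter.1 hS).2.1⟩) (few_big π q s K hq hq2 hs hK U)
    omega
  obtain ⟨k, hk, hk'⟩ := exists_mem_notMem_of_card_lt_card (lt_of_le_of_lt hB (hty τ tK))
  have kτ : ty k = τ := (mem_filter.1 hk).2
  have small : ∀ S : Finset ι, k ∈ S → S.card ≤ 2 → |hat π U S| ≤ 2 * s := by
    intro S h1 h2
    by_contra h
    exact hk' (mem_biUnion.2 ⟨S, mem_filter.2 ⟨mem_univ _, not_le.1 h, h2⟩, h1⟩)
  have s1 := small {k} (by simp) (by simp)
  have u8 : 8 * s < U.card := lt_of_lt_of_le (hU k true) (card_filter_le _ _)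
  have t3 : 2 ≤ τ := by
    rw [hτ, Nat.le_div_iff_mul_le (by omega)]; omega
  have t4 : s * 2 ≤ s * τ := Nat.mul_le_mul_left _ t3
  have ex : ∀ b, ∃ C ∈ fam π ty s, U.filter (fun x => π x k = !b) ⊆ C ∧ C ⊆ U ∧
      cnt π C k b ≤ 3 * s ∧ 3 * s < cnt π C k (!b) := by
    intro b
    have o := cnt_one π U k (!b)
    obtain ⟨o1, o2⟩ := ep_abs (!b) _ _ s1
    have e1 : ((τ + 2) * s : ℕ) = s * τ + 2 * s := by ring
    have e2 : 2 * s * τ = 2 * (s * τ) := by ring
    have e3 : 2 * s * (τ + 1) = 2 * (s * τ) + 2 * s := by ring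
    obtain ⟨C, c1, c2, c3⟩ := exists_subsuperset_card_eq (n := (τ + 2) * s)
      (filter_subset (fun x => π x k = !b) U) (by change cnt π U k (!b) ≤ _; omega) (by omega)
    have m1 : cnt π U k (!b) ≤ cnt π C k (!b) :=
      card_le_card fun x hx => mem_filter.2 ⟨c1 hx, (mem_filter.1 hx).2⟩
    have m2 := cnt_add π C k b
    have m3 : cnt π C k b ≤ 3 * s := by omega
    have m4 : 3 * s < cnt π C k (!b) := by have := hU k (!b); omega
    refine ⟨C, mem_filter.2 ⟨mem_univ _, k, b, by rw [kτ, c3], m3, fun j c hjc => ?_⟩, c1, c2, m3, m4⟩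
    by_cases e : k = j
    · subst e
      have : c = !b := by cases c <;> cases b <;> simp_all
      rw [this]; exact m4
    · have w := cnt_two π U k j e (!b) c
      have s2 := small {k, j} (by simp) (card_le_two)
      obtain ⟨p1, -⟩ := ep_abs c _ _ s2
      have s3 : |ep c * hat π U {k, j}| ≤ 2 * s := abs_le.2 (ep_abs c _ _ s2)
      obtain ⟨p2, -⟩ := ep_abs (!b) _ _ s3
      rw [← mul_assoc] at p2
      have := cnt_mono π c1 j c
      have := hU j c
      omega
  obtain ⟨C, hC, c1, c2, c3, c4⟩ := ex true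
  obtain ⟨D, hD, d1, d2, d3, d4⟩ := ex false
  refine ⟨C, hC, D, hD, ?_, subset_antisymm (union_subset c2 d2) fun x hx => ?_⟩
  · rintro rfl
    simp only [Bool.not_true, Bool.not_false] at c4 d4
    omega
  · rw [mem_union]
    cases h : π x k
    · exact Or.inl (c1 (mem_filter.2 ⟨hx, by simp [h]⟩))
    · exact Or.inr (d1 (mem_filter.2 ⟨hx, by simp [h]⟩))

lemma core_le (π : V → ι → Bool) (q : ℕ) (hq : ∀ v, (univ.filter (fun x => π x = v)).card ≤ q)
    (k : ι) (b : Bool) : 2 * cnt π univ k b ≤ 2 ^ Fintype.card ι * q := by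
  have h1 : cnt π univ k b ≤ q * (univ.filter (fun v : ι → Bool => v k = b)).card := by
    apply card_le_mul_card_image_of_maps_to (f := π)
    · intro x hx; exact mem_filter.2 ⟨mem_univ _, (mem_filter.1 hx).2⟩
    · intro v _
      exact le_trans (card_le_card (filter_subset_filter _ (subset_univ _))) (hq v)
  have h2 : (univ.filter (fun v : ι → Bool => v k = b)).card
      ≤ (univ.filter (fun v : ι → Bool => ¬ v k = b)).card := by
    apply card_le_card_of_injOn (fun v i => !v i)
    · intro v hv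
      simp only [coe_filter, mem_univ, true_and, Set.mem_ofPred_eq] at hv ⊢
      rw [hv]; cases b <;> simp
    · intro v _ w _ h
      funext i
      simpa using congrFun h i
  have h3 := card_filter_add_card_filter_not (s := univ) (fun v : ι → Bool => v k = b)
  rw [card_univ, Fintype.card_fun, Fintype.card_bool] at h3
  rw [← h3]
  nlinarith [Nat.mul_le_mul_left q h2]

lemma small_le (t : ℕ) (x : ℝ) (hx : 0 < x) (hx1 : x ≤ 1) :
    ((univ.filter (fun S : Finset V => S.card ≤ t)).card : ℝ) * x ^ t ≤ (1 + x) ^ Fintype.card V := by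
  have e := Finset.sum_pow_mul_eq_add_pow x 1 (univ : Finset V)
  simp only [one_pow, mul_one, powerset_univ, card_univ] at e
  rw [add_comm, ← e, ← nsmul_eq_mul]
  refine le_trans (card_nsmul_le_sum _ (fun S => x ^ S.card) _ fun S hS => ?_)
    (sum_le_sum_of_subset_of_nonneg (subset_univ _) fun _ _ _ => by positivity)
  exact pow_le_pow_of_le_one hx.le hx1 (mem_filter.1 hS).2

lemma bad_le (π : V → ι → Bool) (t z : ℕ) (hz : ∀ k b, cnt π univ k b ≤ z) :
    (univ.filter (fun U : Finset V => ∃ j c, cnt π U j c ≤ t)).card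
      ≤ (Fintype.card ι * 2) * (2 ^ z * (univ.filter (fun S : Finset V => S.card ≤ t)).card) := by
  have h1 : univ.filter (fun U : Finset V => ∃ j c, cnt π U j c ≤ t)
      ⊆ (univ : Finset (ι × Bool)).biUnion (fun p => univ.filter (fun U => cnt π U p.1 p.2 ≤ t)) := by
    intro U hU
    obtain ⟨j, c, h⟩ := (mem_filter.1 hU).2
    exact mem_biUnion.2 ⟨(j, c), mem_univ _, mem_filter.2 ⟨mem_univ _, h⟩⟩
  refine (card_le_card h1).trans ((card_biUnion_le_card_mul _ _ _ fun p _ => ?_).trans
    (by rw [card_univ, Fintype.card_prod, Fintype.card_bool]))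
  obtain ⟨j, c⟩ := p
  have h2 : (univ.filter (fun U : Finset V => cnt π U j c ≤ t)).card ≤
      ((univ.filter (fun x => π x j = !c)).powerset ×ˢ
        (univ.filter (fun S : Finset V => S.card ≤ t))).card := by
    apply card_le_card_of_injOn
      (fun U => (U.filter (fun x => π x j = !c), U.filter (fun x => π x j = c)))
    · intro U hU
      simp only [coe_filter, mem_univ, true_and, Set.mem_ofPred_eq] at hU
      simp only [coe_product, Set.mem_prod, mem_coe, mem_powerset, mem_filter, mem_univ, true_and]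
      exact ⟨filter_subset_filter _ (subset_univ _), hU⟩
    · intro U _ W _ h
      simp only [Prod.mk.injEq, Finset.ext_iff, mem_filter] at h
      ext x
      have a := h.1 x
      have b := h.2 x
      revert a b
      cases π x j <;> cases c <;> simp
  rw [card_product, card_powerset] at h2
  exact h2.trans (Nat.mul_le_mul_right _ (Nat.pow_le_pow_right (by norm_num) (hz j (!c))))

lemma exists_pi (n : ℕ) : ∃ π : Fin n → ι → Bool,
    ∀ v, (univ.filter (fun x => π x = v)).card ≤ n / 2 ^ Fintype.card ι + 1 := by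
  have hc : Fintype.card (ι → Bool) = 2 ^ Fintype.card ι := by
    rw [Fintype.card_fun, Fintype.card_bool]
  let e := (Fintype.equivFinOfCardEq hc).symm
  have p : 0 < 2 ^ Fintype.card ι := by positivity
  refine ⟨fun x => e ⟨x.val % 2 ^ Fintype.card ι, Nat.mod_lt _ p⟩, fun v => ?_⟩
  rw [← card_range (n / 2 ^ Fintype.card ι + 1)]
  apply card_le_card_of_injOn (fun x => x.val / 2 ^ Fintype.card ι)
  · intro x _
    simp only [coe_range, Set.mem_Iio]
    exact Nat.lt_succ_of_le (Nat.div_le_div_right x.2.le)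
  · intro x hx y hy h
    simp only [coe_filter, mem_univ, true_and, Set.mem_ofPred_eq] at hx hy
    have := e.injective (hx.trans hy.symm)
    simp only [Fin.mk.injEq] at this
    simp only at h
    apply Fin.ext
    rw [← Nat.div_add_mod x.val (2 ^ Fintype.card ι), ← Nat.div_add_mod y.val (2 ^ Fintype.card ι),
      h, this]

end Pool.Agent.H29.AI1
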