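import Mathlib

set_option linter.unusedSectionVars false

namespace Pool.Agent.H29.BC

open Finset

variable {V : Type} [Fintype V] [DecidableEq V]

/-- eccentricity -/
noncomputable def ecc (G : SimpleGraph V) (v : V) : ℕ := univ.sup (fun u => G.dist v u)

/-- diameter -/
noncomputable def diam (G : SimpleGraph V) : ℕ := univ.sup (fun v => ecc G v)

def Broadcast (G : SimpleGraph V) (f : V → ℕ) : Prop := ∀ v, f v ≤ diam G ∧ f v ≤ ecc G v

def Hears (G : SimpleGraph V) (f : V → ℕ) (u : V) : Prop := ∃ v, 0 < f v ∧ G.dist u v ≤ f v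

def Dominating (G : SimpleGraph V) (f : V → ℕ) : Prop := ∀ u, Hears G f u

def MinDom (G : SimpleGraph V) (f : V → ℕ) : Prop :=
  Broadcast G f ∧ Dominating G f ∧
    ∀ g : V → ℕ, Broadcast G g → (∀ v, g v ≤ f v) → g ≠ f → ¬ Dominating G g

/-- private boundary -/
def PB (G : SimpleGraph V) (f : V → ℕ) (v : V) : Set V :=
  {u | G.dist u v ≤ f v ∧ ¬ Hears G (Function.update f v (f v - 1)) u}

def Irred (G : SimpleGraph V) (f : V → ℕ) : Prop :=
  Broadcast G f ∧ ∀ v, 0 < f v → (PB G f v).Nonempty

noncomputable def Gam (G : SimpleGraph V) : ℕ := sSup {s | ∃ f, MinDom G f ∧ s = ∑ v, f v}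

noncomputable def IR (G : SimpleGraph V) : ℕ := sSup {s | ∃ f, Irred G f ∧ s = ∑ v, f v}

variable {G : SimpleGraph V}

lemma ecc_le_diam (v : V) : ecc G v ≤ diam G := le_sup (f := fun v => ecc G v) (mem_univ v)

lemma dist_le_ecc (v u : V) : G.dist v u ≤ ecc G v := le_sup (f := fun u => G.dist v u) (mem_univ u)

lemma bdd (P : (V → ℕ) → Prop) (h : ∀ f, P f → Broadcast G f) :
    BddAbove {s | ∃ f, P f ∧ s = ∑ v, f v} := by
  refine ⟨∑ v, ecc G v, ?_⟩
  rintro s ⟨f, hf, rfl⟩
  exact sum_le_sum fun v _ => (h f hf v).2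

lemma le_Gam {f : V → ℕ} (h : MinDom G f) : ∑ v, f v ≤ Gam G :=
  le_csSup (bdd _ fun _ h => h.1) ⟨f, h, rfl⟩

lemma le_IR {f : V → ℕ} (h : Irred G f) : ∑ v, f v ≤ IR G :=
  le_csSup (bdd _ fun _ h => h.1) ⟨f, h, rfl⟩

lemma IR_spec (G : SimpleGraph V) : ∃ f, Irred G f ∧ IR G = ∑ v, f v := by
  apply Nat.sSup_mem (s := {s | ∃ f, Irred G f ∧ s = ∑ v, f v}) _ (bdd _ fun _ h => h.1)
  exact ⟨_, fun _ => 0, ⟨fun v => ⟨Nat.zero_le _, Nat.zero_le _⟩, fun v h => absurd h (lt_irrefl 0)⟩,
    rfl⟩

lemma Gam_le {B : ℕ} (h : ∀ f, MinDom G f → ∑ v, f v ≤ B) : Gam G ≤ B := by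
  apply csSup_le'
  rintro s ⟨f, hf, rfl⟩
  exact h f hf

lemma PB_iff {f : V → ℕ} {v u : V} : u ∈ PB G f v ↔ G.dist u v ≤ f v ∧
    (f v ≤ 1 ∨ f v ≤ G.dist u v) ∧ ∀ w, w ≠ v → 0 < f w → f w < G.dist u w := by
  unfold PB Hears
  simp only [Set.mem_ofPred_eq, not_exists, not_and, not_le]
  constructor
  · rintro ⟨h1, h2⟩
    refine ⟨h1, ?_, fun w hw h0 => ?_⟩
    · have := h2 v
      simp only [Function.update_self] at this
      by_cases h : 0 < f v - 1
      · have := this h; omega
      · omega
    · have := h2 w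
      rw [Function.update_of_ne hw] at this
      exact this h0
  · rintro ⟨h1, h2, h3⟩
    refine ⟨h1, fun w => ?_⟩
    by_cases hw : w = v
    · subst hw
      simp only [Function.update_self]
      omega
    · rw [Function.update_of_ne hw]
      exact h3 w hw

lemma MinDom.irred {f : V → ℕ} (h : MinDom G f) : Irred G f := by
  refine ⟨h.1, fun v hv => ?_⟩
  have hle : ∀ w, Function.update f v (f v - 1) w ≤ f w := by
    intro w
    by_cases hw : w = v
    · subst hw; simp
    · rw [Function.update_of_ne hw]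
  have := h.2.2 (Function.update f v (f v - 1))
    (fun w => ⟨(hle w).trans (h.1 w).1, (hle w).trans (h.1 w).2⟩) hle (by
      intro e
      have := congrFun e v
      simp only [Function.update_self] at this
      omega)
  unfold Dominating at this
  push Not at this
  obtain ⟨u, hu⟩ := this
  refine ⟨u, ?_, hu⟩
  obtain ⟨w, h0, hw⟩ := h.2.1 u
  by_cases e : w = v
  · subst e; exact hw
  · exact absurd ⟨w, by rwa [Function.update_of_ne e], by rwa [Function.update_of_ne e]⟩ hu

lemma indep_le_Gam [Nontrivial V] (hc : G.Connected) (I : Finset V)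
    (hI : ∀ a ∈ I, ∀ b ∈ I, ¬ G.Adj a b) : I.card ≤ Gam G := by
  classical
  obtain ⟨J, hJ, hmax⟩ := exists_max_image
    (univ.filter (fun J : Finset V => ∀ a ∈ J, ∀ b ∈ J, ¬ G.Adj a b)) card ⟨I, by simpa using hI⟩
  simp only [mem_filter, mem_univ, true_and] at hJ hmax
  refine (hmax I hI).trans ?_
  have he : ∀ v, 1 ≤ ecc G v := by
    intro v
    obtain ⟨u, hu⟩ := exists_ne v
    exact (hc.pos_dist_of_ne hu.symm).trans_le (dist_le_ecc v u)
  have hm : MinDom G (fun v => if v ∈ J then 1 else 0) := by
    refine ⟨fun v => ?_, fun u => ?_, fun g _ hg hne hd => ?_⟩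
    · have := he v
      have := ecc_le_diam (G := G) v
      beta_reduce
      split_ifs <;> omega
    · by_cases hu : u ∈ J
      · exact ⟨u, by simp [hu], by simp⟩
      · by_contra hn
        have h2 : ∀ w ∈ J, ¬ G.Adj u w := by
          intro w hw hadj
          exact hn ⟨w, by simp [hw], by simp [hw, SimpleGraph.dist_eq_one_iff_adj.2 hadj]⟩
        have := hmax (insert u J) (by
          intro a ha b hb
          rw [mem_insert] at ha hb
          rcases ha with rfl | ha <;> rcases hb with rfl | hb
          · exact G.irrefl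
          · exact h2 b hb
          · exact fun h => h2 a ha h.symm
          · exact hJ a ha b hb)
        rw [card_insert_of_notMem hu] at this
        omega
    · obtain ⟨v, hv⟩ := Function.ne_iff.1 hne
      have h1 := hg v
      beta_reduce at hv h1
      have hvJ : v ∈ J := by
        by_contra h
        simp only [h, if_false] at hv h1
        omega
      simp only [hvJ, if_true] at hv h1
      obtain ⟨w, h0, hw⟩ := hd v
      have h2 := hg w
      beta_reduce at h2
      have hwJ : w ∈ J := by
        by_contra h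
        simp only [h, if_false] at h2
        omega
      simp only [hwJ, if_true] at h2
      have hne' : v ≠ w := by rintro rfl; omega
      have := hc.pos_dist_of_ne hne'
      exact hJ v hvJ w hwJ (SimpleGraph.dist_eq_one_iff_adj.1 (by omega))
  have := le_Gam hm
  simpa using this

lemma geo (hc : G.Connected) (v u : V) (i : ℕ) (hi : i ≤ G.dist v u) :
    ∃ z, G.dist v z = i ∧ G.dist v z + G.dist z u = G.dist v u := by
  obtain ⟨p, hp⟩ := hc.exists_walk_length_eq_dist v u
  have h1 := SimpleGraph.dist_le (p.take i)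
  have h2 := SimpleGraph.dist_le (p.drop i)
  rw [SimpleGraph.Walk.take_length] at h1
  rw [SimpleGraph.Walk.drop_length] at h2
  have h3 := hc.dist_triangle (u := v) (v := p.getVert i) (w := u)
  exact ⟨p.getVert i, by omega, by omega⟩

theorem IR_lt [Nontrivial V] (hc : G.Connected) (hb : G.Colorable 2) : IR G < 2 * Gam G := by
  classical
  obtain ⟨f, hf, hIR⟩ := IR_spec G
  have hu : ∀ v, ∃ u, 0 < f v → u ∈ PB G f v := by
    intro v
    by_cases h : 0 < f v
    · obtain ⟨u, hu⟩ := hf.2 v h
      exact ⟨u, fun _ => hu⟩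
    · exact ⟨v, fun h' => absurd h' h⟩
  choose u hu using hu
  simp only [PB_iff] at hu
  set P := univ.filter (fun v => 0 < f v) with hP
  let S : V → Finset V := fun v => univ.filter (fun z => G.dist v z + G.dist z (u v) = G.dist v (u v))
  have hS : ∀ v, G.dist v (u v) + 1 ≤ (S v).card := by
    intro v
    rw [← card_range (G.dist v (u v) + 1)]
    apply card_le_card_of_surjOn (fun z => G.dist v z)
    intro i hi
    obtain ⟨z, h1, h2⟩ := geo hc v (u v) i (by simpa [Nat.lt_succ_iff] using hi)
    exact ⟨z, by simpa [S] using h2, h1⟩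
  have hdisj : (P : Set V).PairwiseDisjoint S := by
    intro v hv w hw hne
    simp only [hP, coe_filter, mem_univ, true_and, Set.mem_ofPred_eq] at hv hw
    rw [Function.onFun, disjoint_left]
    intro z h1 h2
    simp only [S, mem_filter, mem_univ, true_and] at h1 h2
    obtain ⟨a1, -, a3⟩ := hu v hv
    obtain ⟨b1, -, b3⟩ := hu w hw
    have c1 := a3 w hne.symm hw
    have c2 := b3 v hne hv
    have t1 := hc.dist_triangle (u := w) (v := z) (w := u v)
    have t2 := hc.dist_triangle (u := v) (v := z) (w := u w)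
    rw [SimpleGraph.dist_comm] at a1 b1 c1 c2
    omega
  have hsum : ∑ v ∈ P, (S v).card ≤ Fintype.card V := by
    rw [← card_biUnion hdisj]
    exact card_le_univ _
  have hn : Fintype.card V ≤ 2 * Gam G := by
    obtain ⟨c⟩ := hb
    have h0 := indep_le_Gam hc (univ.filter (fun v => c v = 0)) (by
      intro a ha b hb h
      simp only [mem_filter, mem_univ, true_and] at ha hb
      exact c.valid h (ha.trans hb.symm))
    have h1 := indep_le_Gam hc (univ.filter (fun v => ¬ c v = 0)) (by
      intro a ha b hb h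
      simp only [mem_filter, mem_univ, true_and] at ha hb
      have := c.valid h
      omega)
    have := card_filter_add_card_filter_not (s := (univ : Finset V)) (fun v => c v = 0)
    rw [card_univ] at this
    omega
  have hs : ∑ v, f v = ∑ v ∈ P, f v := by
    symm
    apply sum_subset (subset_univ _)
    intro v _ hv
    simp only [hP, mem_filter, mem_univ, true_and] at hv
    omega
  rw [hIR, hs]
  by_cases hall : ∀ v ∈ P, G.dist (u v) v = 0
  · have h1 : ∑ v ∈ P, f v ≤ P.card := by
      rw [card_eq_sum_ones]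
      refine sum_le_sum fun v hv => ?_
      have h0 : 0 < f v := by simpa [hP] using hv
      have := (hu v h0).2.1
      have := hall v hv
      omega
    have h2 := indep_le_Gam hc P (by
      intro a ha b hb h
      have ha0 : 0 < f a := by simpa [hP] using ha
      have hb0 : 0 < f b := by simpa [hP] using hb
      have e : u a = a := (hc.dist_eq_zero_iff).1 (hall a ha)
      have := (hu a ha0).2.2 b h.ne.symm hb0
      rw [e, SimpleGraph.dist_eq_one_iff_adj.2 h] at this
      omega)
    have h3 := Fintype.one_lt_card (α := V)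
    omega
  · push Not at hall
    obtain ⟨v, hv, hne⟩ := hall
    refine lt_of_lt_of_le ?_ (hsum.trans hn)
    apply sum_lt_sum
    · intro w hw
      have h0 : 0 < f w := by simpa [hP] using hw
      have := (hu w h0).2.1
      have := hS w
      rw [SimpleGraph.dist_comm] at this
      omega
    · refine ⟨v, hv, ?_⟩
      have h0 : 0 < f v := by simpa [hP] using hv
      have := (hu v h0).2.1
      have := hS v
      rw [SimpleGraph.dist_comm] at this
      omega

lemma dist_eq_of {D : V → V → ℕ} (h0 : ∀ u, D u u = 0) (h1 : ∀ u v w, G.Adj v w → D u w ≤ D u v + 1)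
    (h2 : ∀ u v, u ≠ v → ∃ w, G.Adj w v ∧ D u w + 1 = D u v) (u v : V) :
    G.Reachable u v ∧ G.dist u v = D u v := by
  have key : ∀ n, ∀ v, D u v = n → ∃ p : G.Walk u v, p.length = n := by
    intro n
    induction n with
    | zero =>
      intro v hv
      by_cases e : u = v
      · subst e; exact ⟨SimpleGraph.Walk.nil, rfl⟩
      · obtain ⟨w, -, hw⟩ := h2 u v e
        omega
    | succ n ih =>
      intro v hv
      have e : u ≠ v := by rintro rfl; rw [h0] at hv; omega
      obtain ⟨w, ha, hw⟩ := h2 u v e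
      obtain ⟨p, hp⟩ := ih w (by omega)
      exact ⟨p.concat ha, by simp [hp]⟩
  obtain ⟨p, hp⟩ := key _ v rfl
  refine ⟨⟨p⟩, le_antisymm (hp ▸ SimpleGraph.dist_le p) ?_⟩
  obtain ⟨q, hq⟩ := SimpleGraph.Reachable.exists_walk_length_eq_dist (G := G) ⟨p⟩
  rw [← hq]
  have : ∀ (a b : V) (q : G.Walk a b), D u b ≤ D u a + q.length := by
    intro a b q
    induction q with
    | nil => simp
    | cons h q ih =>
      have := h1 u _ _ h
      simp only [SimpleGraph.Walk.length_cons]
      omega
  have := this u v q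
  rw [h0] at this
  omega

end Pool.Agent.H29.BC
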