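import Pool.Agent.H29.BC1

namespace Pool.Agent.H29.BC

open Finset

abbrev W (k m : ℕ) := Fin (k + 1) × Option (Bool × Fin (m + 1))

def adj {k m : ℕ} : W k m → W k m → Prop
  | (i, some h), (j, some h') => (i = j ∧ h.1 ≠ h'.1) ∨ (h = h' ∧ (i.val + 1 = j.val ∨ j.val + 1 = i.val))
  | (i, none), (j, some h) => i = j ∧ h.1 = true
  | (i, some h), (j, none) => i = j ∧ h.1 = true
  | (_, none), (_, none) => False

def GG (k m : ℕ) : SimpleGraph (W k m) where
  Adj := adj
  symm := ⟨by
    rintro ⟨i, _ | h⟩ ⟨j, _ | h'⟩ <;> simp only [adj] <;> grind⟩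
  loopless := ⟨by
    rintro ⟨i, _ | h⟩ <;> simp [adj]⟩

def D {k m : ℕ} : W k m → W k m → ℕ
  | (i, some h), (j, some h') => (i.val - j.val) + (j.val - i.val) +
      (if h = h' then 0 else if h.1 = h'.1 then 2 else 1)
  | (i, none), (j, some h) => (i.val - j.val) + (j.val - i.val) + (if h.1 = true then 1 else 2)
  | (i, some h), (j, none) => (i.val - j.val) + (j.val - i.val) + (if h.1 = true then 1 else 2)
  | (i, none), (j, none) => if i.val = j.val then 0 else (i.val - j.val) + (j.val - i.val) + 2

lemma D_spec {k m : ℕ} (u v : W k m) : (GG k m).Reachable u v ∧ (GG k m).dist u v = D u v := by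
  apply dist_eq_of
  · rintro ⟨i, _ | h⟩ <;> simp [D]
  · rintro ⟨i, _ | h⟩ ⟨j, _ | h'⟩ ⟨l, _ | h''⟩ <;> simp only [GG, adj, D] <;> grind
  · rintro ⟨i, a⟩ ⟨j, _ | h'⟩ hne
    · rcases a with _ | ⟨_ | _, a⟩
      · refine ⟨(j, some (true, 0)), by simp [GG, adj], ?_⟩
        have : i.val ≠ j.val := fun e => hne (by rw [Fin.ext e])
        simp [D, this]
      · exact ⟨(j, some (true, 0)), by simp [GG, adj], by simp [D]⟩
      · exact ⟨(j, some (true, a)), by simp [GG, adj], by simp [D]⟩
    · rcases lt_trichotomy i.val j.val with h | h | h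
      · refine ⟨(⟨j.val - 1, by omega⟩, some h'), ?_, ?_⟩
        · simp only [GG, adj]; right; refine ⟨trivial, Or.inl ?_⟩; omega
        · rcases a with _ | a <;> simp only [D] <;> omega
      · obtain rfl := Fin.ext h
        rcases a with _ | a
        · by_cases e : h'.1 = true
          · exact ⟨(i, none), by simp [GG, adj, e], by simp [D, e]⟩
          · exact ⟨(i, some (true, 0)), by simp [GG, adj, e], by simp [D, e]⟩
        · have hne' : a ≠ h' := fun e => hne (by rw [e])
          by_cases e : a.1 = h'.1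
          · refine ⟨(i, some (!h'.1, 0)), by simp [GG, adj], ?_⟩
            have : a ≠ (!h'.1, 0) := by
              intro e'; rw [e'] at e; simp at e
            simp [D, e, hne', this]
          · exact ⟨(i, some a), by simp [GG, adj, e], by simp [D, e, hne']⟩
      · refine ⟨(⟨j.val + 1, by omega⟩, some h'), ?_, ?_⟩
        · simp [GG, adj]
        · rcases a with _ | a <;> simp only [D] <;> omega

lemma dist_GG {k m : ℕ} (u v : W k m) : (GG k m).dist u v = D u v := (D_spec u v).2

lemma conn (k m : ℕ) : (GG k m).Connected := ⟨fun u v => (D_spec u v).1⟩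

lemma col (k m : ℕ) : (GG k m).Colorable 2 := by
  refine ⟨SimpleGraph.Coloring.mk (fun v => match v with
    | (i, none) => ⟨i.val % 2, by omega⟩
    | (i, some h) => ⟨(i.val + if h.1 = true then 1 else 0) % 2, by omega⟩) ?_⟩
  rintro ⟨i, _ | h⟩ ⟨j, _ | h'⟩ <;> simp only [GG, adj, ne_eq, Fin.mk.injEq] <;> grind

lemma IR_ge (k m : ℕ) : 2 * (m + 1) * k ≤ IR (GG k m) := by
  let f : W k m → ℕ := fun v => if v.1 = 0 ∧ v.2 ≠ none then k else 0
  have hf : Irred (GG k m) f := by
    constructor
    · intro v
      have h : f v ≤ ecc (GG k m) v := by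
        simp only [f]
        split_ifs with h
        · obtain ⟨i, _ | a⟩ := v
          · simp at h
          · have := dist_le_ecc (G := GG k m) (i, some a) (Fin.last k, some a)
            rw [dist_GG] at this
            have e : i = 0 := h.1
            subst e
            simpa [D] using this
        · omega
      exact ⟨h.trans (ecc_le_diam v), h⟩
    · rintro ⟨i, _ | a⟩ h
      · simp [f] at h
      · have e : i = 0 := by
          by_contra e; simp [f, e] at h
        subst e
        refine ⟨(Fin.last k, some a), PB_iff.2 ⟨?_, Or.inr ?_, ?_⟩⟩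
        · simp [dist_GG, D, f]
        · simp [dist_GG, D, f]
        · rintro ⟨j, _ | b⟩ hne h0
          · simp [f] at h0
          · have e : j = 0 := by
              by_contra e; simp [f, e] at h0
            subst e
            have : a ≠ b := fun e => hne (by rw [e])
            simp only [dist_GG, D, f, this, if_false]
            simp
            split_ifs <;> omega
  refine le_trans (le_of_eq ?_) (le_IR hf)
  rw [Fintype.sum_prod_type, Fin.sum_univ_succ]
  simp [f, Fintype.sum_option]

lemma D_le {k m : ℕ} (u v : W k m) : D u v ≤ k + 2 := by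
  obtain ⟨i, _ | h⟩ := u <;> obtain ⟨j, _ | h'⟩ := v <;> simp only [D] <;>
    have := i.isLt <;> have := j.isLt <;> split_ifs <;> omega

lemma kill {k m : ℕ} (j : Fin (k + 1)) (x x' : Fin (m + 1)) (z : W k m) (r : ℕ) (h0 : 0 < r)
    (h1 : D (j, none) z ≤ r) (h2 : r < D (j, some (true, x)) z)
    (h3 : r < D (j, some (false, x')) z) : False := by
  obtain ⟨l, _ | ⟨_ | _, b'⟩⟩ := z <;> simp only [D] at * <;> split_ifs at * <;>
    first | omega | simp_all

lemma arith (i j i' j' s s' t d : ℕ) (hd : d ≤ 1) (hne : d = 0 → i ≠ i') (h0 : 0 < s) (g0 : 0 < s')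
    (t1 : i = j ∧ t = i ∨ i ≤ t ∧ t < j ∨ j ≤ t ∧ t < i)
    (t2 : i' = j' ∧ t = i' ∨ i' ≤ t ∧ t < j' ∨ j' ≤ t ∧ t < i')
    (a1 : j - i + (i - j) ≤ s) (b1 : j' - i' + (i' - j') ≤ s')
    (a4 : s' < j - i' + (i' - j) + d) (b4 : s < j' - i + (i - j') + d) : j = j' ∧ d = 1 := by
  omega

lemma Gam_GG (k m : ℕ) : Gam (GG k m) ≤ (k + 1) * (m + 1) + 4 * (k + 1) * (k + 2) := by
  classical
  apply Gam_le
  intro f hm
  have hf := hm.irred
  have hu : ∀ v, ∃ u, 0 < f v → u ∈ PB (GG k m) f v := by
    intro v
    by_cases h : 0 < f v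
    · obtain ⟨u, hu⟩ := hf.2 v h
      exact ⟨u, fun _ => hu⟩
    · exact ⟨v, fun h' => absurd h' h⟩
  choose u hu using hu
  simp only [PB_iff, dist_GG] at hu
  have hy : ∀ j : Fin (k + 1), ∃ y, 0 < f y ∧ D (j, none) y ≤ f y := by
    intro j
    simpa only [Hears, dist_GG] using hm.2.1 (j, none)
  choose y hy0 hy using hy
  have hle : ∀ v, f v ≤ k + 2 := by
    intro v
    refine (hf.1 v).2.trans ?_
    apply Finset.sup_le
    intro w _
    rw [dist_GG]; exact D_le _ _
  set E1 := univ.image y with hE1
  set E2 := univ.filter (fun v => 0 < f v ∧ (v.2 ≠ (u v).2 ∨ (u v).2 = none)) with hE2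
  set O := univ.filter (fun v => 0 < f v ∧ v ∉ E1 ∧ v.2 = (u v).2 ∧ (u v).2 ≠ none) with hO
  have c1 : E1.card ≤ k + 1 := card_image_le.trans (by simp)
  have c2 : E2.card ≤ 3 * (k + 1) := by
    have : (univ : Finset (Fin (k + 1) × Option Bool)).card = 3 * (k + 1) := by
      simp [mul_comm]
    rw [← this]
    apply card_le_card_of_injOn (fun v => ((u v).1, (u v).2.map Prod.fst)) (by simp)
    intro v hv w hw e
    by_contra hne
    simp only [hE2, coe_filter, mem_univ, true_and, Set.mem_ofPred_eq] at hv hw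
    have a1 := (hu v hv.1).1
    have a2 := (hu w hw.1).2.2 v hne hv.1
    have hv2 := hv.2
    simp only [Prod.mk.injEq] at e
    generalize u v = p at *
    generalize u w = q at *
    obtain ⟨i, _ | a⟩ := v <;> obtain ⟨j, _ | b⟩ := p <;> obtain ⟨l, _ | c⟩ := q <;>
      simp only [D, Option.map_some, Option.map_none, Option.some.injEq, reduceCtorEq, ne_eq] at * <;>
      grind
  let ix : W k m → Fin (m + 1) := fun v => match v.2 with
    | none => 0
    | some h => h.2
  let T : W k m → Finset ℕ := fun v =>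
    if v.1.val = (u v).1.val then {v.1.val} else Ico (min v.1.val (u v).1.val) (max v.1.val (u v).1.val)
  let S : W k m → Finset (ℕ × Fin (m + 1)) := fun v => T v ×ˢ {ix v}
  have hS : ∀ v ∈ O, f v ≤ (S v).card := by
    intro v hv
    simp only [hO, mem_filter, mem_univ, true_and] at hv
    obtain ⟨h0, -, h2, h3⟩ := hv
    have a := (hu v h0).2.1
    simp only [S, T, card_product, card_singleton, mul_one]
    generalize u v = p at *
    obtain ⟨i, _ | a⟩ := v <;> obtain ⟨j, _ | b⟩ := p <;>
      simp only [D, reduceCtorEq, ne_eq, not_true_eq_false, Option.some.injEq] at *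
    subst h2
    split_ifs with h
    · simp at a ⊢; omega
    · simp at a ⊢; omega
  have hd : (O : Set (W k m)).PairwiseDisjoint S := by
    intro v hv w hw hne
    simp only [hO, coe_filter, mem_univ, true_and, Set.mem_ofPred_eq] at hv hw
    obtain ⟨h0, h1, h2, h3⟩ := hv
    obtain ⟨g0, g1, g2, g3⟩ := hw
    rw [Function.onFun, disjoint_left]
    rintro ⟨t, x⟩ s1 s2
    simp only [S, mem_product, mem_singleton] at s1 s2
    obtain ⟨a1, a2, a3⟩ := hu v h0
    obtain ⟨b1, b2, b3⟩ := hu w g0
    have a4 := a3 w hne.symm g0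
    have b4 := b3 v hne h0
    have y0 := hy0 (u v).1
    have y1 := hy (u v).1
    have a5 := a3 (y (u v).1) (fun e => h1 (e ▸ mem_image_of_mem _ (mem_univ _))) y0
    have b5 := b3 (y (u v).1) (fun e => g1 (e ▸ mem_image_of_mem _ (mem_univ _))) y0
    have t1 : (v.1.val = (u v).1.val ∧ t = v.1.val) ∨ (v.1.val ≤ t ∧ t < (u v).1.val) ∨
        ((u v).1.val ≤ t ∧ t < v.1.val) := by
      have := s1.1
      simp only [T] at this
      split_ifs at this with h
      · simp at this; omega
      · simp only [mem_Ico] at this; omega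
    have t2 : (w.1.val = (u w).1.val ∧ t = w.1.val) ∨ (w.1.val ≤ t ∧ t < (u w).1.val) ∨
        ((u w).1.val ≤ t ∧ t < w.1.val) := by
      have := s2.1
      simp only [T] at this
      split_ifs at this with h
      · simp at this; omega
      · simp only [mem_Ico] at this; omega
    have e : ix v = ix w := s1.2.symm.trans s2.2
    clear s1 s2 a3 b3 h1 g1
    generalize y (u v).1 = z at *
    generalize u v = p at *
    generalize u w = q at *
    obtain ⟨i, _ | ⟨a, a'⟩⟩ := v <;> obtain ⟨j, _ | b⟩ := p <;> obtain ⟨i', _ | ⟨c, c'⟩⟩ := w <;>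
      obtain ⟨j', _ | d⟩ := q <;>
      simp only [reduceCtorEq, ne_eq, not_true_eq_false, Option.some.injEq] at h2 h3 g2 g3
    subst h2 g2
    simp only [ix] at e
    subst e
    generalize f (i, some (a, a')) = s at *
    generalize f (i', some (c, a')) = s' at *
    generalize f z = r at *
    by_cases e : a = c
    · subst e
      have := arith i j i' j' s s' t 0 (by omega) (fun _ e => hne (by rw [Fin.ext e])) h0 g0 t1 t2
        (by simpa [D] using a1) (by simpa [D] using b1) (by simpa [D] using a4)
        (by simpa [D] using b4)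
      omega
    · have e' : ¬ c = a := fun h => e h.symm
      have := arith i j i' j' s s' t 1 (by omega) (by omega) h0 g0 t1 t2
        (by simpa [D] using a1) (by simpa [D] using b1) (by simpa [D, e] using a4)
        (by simpa [D, e'] using b4)
      obtain rfl := Fin.ext this.1
      cases a <;> cases c
      · exact e rfl
      · exact kill j a' a' z r y0 y1 b5 a5
      · exact kill j a' a' z r y0 y1 a5 b5
      · exact e rfl
  have c3 : ∑ v ∈ O, (S v).card ≤ (k + 1) * (m + 1) := by
    rw [← card_biUnion hd]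
    have : (range (k + 1) ×ˢ (univ : Finset (Fin (m + 1)))).card = (k + 1) * (m + 1) := by simp
    rw [← this]
    apply card_le_card
    intro x hx
    obtain ⟨v, -, hv⟩ := mem_biUnion.1 hx
    simp only [S, T, mem_product] at hv
    have h1 := v.1.isLt
    have h2 := (u v).1.isLt
    simp only [mem_product, mem_range, mem_univ, and_true]
    have := hv.1
    split_ifs at this with h
    · simp at this; omega
    · simp only [mem_Ico] at this; omega
  have c4 : ∑ v, f v ≤ ∑ v ∈ O, f v + ∑ v ∈ E1 ∪ E2, f v := by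
    have : ∑ v, f v = ∑ v ∈ O ∪ (E1 ∪ E2), f v := by
      symm
      apply sum_subset (subset_univ _)
      intro v _ hv
      simp only [mem_union, hO, hE2, mem_filter, mem_univ, true_and] at hv
      by_contra h0
      have : 0 < f v := by omega
      tauto
    rw [this]
    have := sum_union_inter (s₁ := O) (s₂ := E1 ∪ E2) (f := f)
    omega
  have c5 : ∑ v ∈ E1 ∪ E2, f v ≤ 4 * (k + 1) * (k + 2) := by
    refine (sum_le_card_nsmul _ _ (k + 2) fun v _ => hle v).trans ?_
    rw [smul_eq_mul]
    apply Nat.mul_le_mul_right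
    have := card_union_le E1 E2
    omega
  have c6 := sum_le_sum hS
  omega

end Pool.Agent.H29.BC
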