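import Mathlib

set_option autoImplicit false

namespace Pool.Agent.H29.BD

open Finset

def σ (m : Bool) (t v : ℕ) : ℤˣ := if m ∧ t < v then -1 else 1

theorem sum_σ (N a b : ℕ) (ha : a ≤ N) (hb : b ≤ N) :
    ∑ o : Bool × Fin N, ((σ o.1 o.2 a * σ o.1 o.2 b : ℤˣ) : ℤ) = 2 * (N - |(a : ℤ) - b|) := by
  wlog h : a ≤ b generalizing a b
  · rw [abs_sub_comm, ← this b a hb ha (by omega)]
    simp only [mul_comm]
  rw [Fintype.sum_prod_type, Fintype.sum_bool]
  simp only [σ, true_and, Bool.false_eq_true, false_and, if_false, mul_one, Units.val_one,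
    sum_const, card_univ, Fintype.card_fin]
  rw [Fin.sum_univ_eq_sum_range (fun t => (((if t < a then -1 else 1) *
    (if t < b then -1 else 1) : ℤˣ) : ℤ)) N, sum_congr rfl (g := fun t =>
    1 - 2 * if t ∈ Ico a b then 1 else 0) fun t _ => by
      simp only [mem_Ico]; split_ifs <;> first | rfl | omega]
  rw [sum_sub_distrib, ← mul_sum, sum_ite_mem, inter_eq_right.mpr fun t ht => by
    rw [mem_Ico] at ht; rw [mem_range]; omega, abs_of_nonpos (by omega)]
  simp [Nat.cast_sub h]
  ring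

variable {B : Type} [Fintype B] [DecidableEq B]

def word {N d : ℕ} (ω : B → Fin d → Bool × Fin N) (v : Fin d → Fin N) : B → ℤˣ :=
  fun b => ∏ i, σ (ω b i).1 (ω b i).2 (v i)

theorem collide (N d : ℕ) (hN : 0 < N) : ∃ ω : B → Fin d → Bool × Fin N,
    (#{p : (Fin d → Fin N) × (Fin d → Fin N) | word ω p.1 = word ω p.2} : ℝ) *
      2 ^ Fintype.card B ≤ ∑ k ∈ range (Fintype.card B + 1), ((Fintype.card B).choose k : ℝ) *
      (∑ a : Fin N × Fin N, (1 - |((a.1 : ℕ) : ℝ) - (a.2 : ℕ)| / N) ^ k) ^ d := by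
  have : Nonempty (Fin N) := ⟨⟨0, hN⟩⟩
  have N0 : (0 : ℝ) < N := by exact_mod_cast hN
  refine (exists_le_of_sum_le univ_nonempty (le_of_eq ?_)).imp fun ω h => h.2
  have a1 : ∀ (ω : B → Fin d → Bool × Fin N) v w, (if word ω v = word ω w then (1 : ℝ) else 0) *
      2 ^ Fintype.card B = ∏ b, (1 + ∏ i, (((σ (ω b i).1 (ω b i).2 (v i) *
        σ (ω b i).1 (ω b i).2 (w i) : ℤˣ) : ℤ) : ℝ)) := fun ω v w => by
    have e : ∀ b, ∏ i, (((σ (ω b i).1 (ω b i).2 (v i) * σ (ω b i).1 (ω b i).2 (w i) : ℤˣ) : ℤ) : ℝ) =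
        ((word ω v b * word ω w b : ℤˣ) : ℤ) := fun b => by
      simp only [word, ← prod_mul_distrib]; push_cast; rfl
    simp only [e]
    split_ifs with h
    · rw [h, prod_congr rfl (g := fun _ => 2) fun b _ => by
        rw [Int.units_mul_self]; norm_num]
      simp
    · obtain ⟨b, hb⟩ := Function.ne_iff.mp h
      rw [zero_mul, prod_eq_zero (mem_univ b)]
      rcases Int.units_eq_one_or (word ω v b) with h1 | h1 <;>
        rcases Int.units_eq_one_or (word ω w b) with h2 | h2 <;> simp_all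
  have a2 : ∀ v w : Fin d → Fin N, ∑ ω : B → Fin d → Bool × Fin N,
      (if word ω v = word ω w then (1 : ℝ) else 0) * 2 ^ Fintype.card B =
      ((2 * N) ^ d) ^ Fintype.card B *
        (∏ i, (1 - |((v i : ℕ) : ℝ) - (w i : ℕ)| / N) + 1) ^ Fintype.card B := fun v w => by
    simp only [a1]
    rw [← Fintype.piFinset_univ, ← prod_univ_sum (fun _ => univ) fun (_ : B)
      (η : Fin d → Bool × Fin N) => 1 + ∏ i, (((σ (η i).1 (η i).2 (v i) *
        σ (η i).1 (η i).2 (w i) : ℤˣ) : ℤ) : ℝ), prod_const, card_univ, ← mul_pow]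
    congr 1
    rw [sum_add_distrib, ← Fintype.piFinset_univ, ← prod_univ_sum (fun _ => univ) fun (i : Fin d)
      (o : Bool × Fin N) => (((σ o.1 o.2 (v i) * σ o.1 o.2 (w i) : ℤˣ) : ℤ) : ℝ),
      prod_congr rfl (g := fun i => 2 * N * (1 - |((v i : ℕ) : ℝ) - (w i : ℕ)| / N)) fun i _ => by
        rw [← Int.cast_sum, sum_σ N _ _ (v i).2.le (w i).2.le]
        push_cast; field_simp, prod_mul_distrib]
    simp
    ring
  simp only [card_filter, Nat.cast_sum, sum_mul, Nat.cast_ite, Nat.cast_one, Nat.cast_zero]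
  rw [sum_comm, sum_const, card_univ, nsmul_eq_mul]
  simp only [a2, ← mul_sum, add_pow, one_pow, mul_one]
  congr 1
  · simp
  rw [sum_comm]
  refine sum_congr rfl fun k _ => ?_
  rw [← sum_mul, mul_comm, Fintype.sum_pow]
  congr 1
  refine Fintype.sum_equiv (Equiv.arrowProdEquivProdArrow _ _ _).symm _ _ fun p => ?_
  rw [← prod_pow]
  rfl

theorem tail (N T k : ℕ) (hN : 0 < N) (h : Real.log N * N ≤ T * k) :
    ∑ a : Fin N × Fin N, (1 - |((a.1 : ℕ) : ℝ) - (a.2 : ℕ)| / N) ^ k ≤ N * (2 * T + 1) := by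
  have N0 : (0 : ℝ) < N := by exact_mod_cast hN
  rw [Fintype.sum_prod_type]
  refine (sum_le_card_nsmul univ _ (2 * T + 1 : ℝ) fun a _ => ?_).trans (le_of_eq (by simp [mul_add]))
  refine (sum_le_sum (g := fun b : Fin N => (if (b : ℤ) ∈ Ioo ((a : ℤ) - T) (a + T) then 1 else 0) +
    1 / (N : ℝ)) fun b _ => ?_).trans ?_
  · have a1 : ((a : ℕ) : ℝ) ≤ N := by exact_mod_cast a.2.le
    have a2 : ((b : ℕ) : ℝ) ≤ N := by exact_mod_cast b.2.le
    have a3 : 0 ≤ 1 - |((a : ℕ) : ℝ) - (b : ℕ)| / N := by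
      rw [sub_nonneg, div_le_one N0, abs_le]
      constructor <;> linarith [Nat.cast_nonneg (α := ℝ) a, Nat.cast_nonneg (α := ℝ) b]
    split_ifs with c
    · exact le_add_of_le_of_nonneg (pow_le_one₀ a3 (sub_le_self _ (by positivity))) (by positivity)
    · have : (T : ℤ) ≤ |(a : ℤ) - b| := by rw [mem_Ioo] at c; rw [le_abs]; omega
      have : (T : ℝ) ≤ |((a : ℕ) : ℝ) - (b : ℕ)| := by exact_mod_cast this
      calc _ ≤ Real.exp (-(T / N)) ^ k := by
            refine pow_le_pow_left₀ a3 (le_trans ?_ (Real.one_sub_le_exp_neg _)) k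
            gcongr
        _ ≤ Real.exp (-Real.log N) := by
            rw [← Real.exp_nat_mul, Real.exp_le_exp, mul_neg, neg_le_neg_iff, ← mul_div_assoc,
              le_div_iff₀ N0]
            linarith
        _ = _ := by rw [Real.exp_neg, Real.exp_log N0]; simp
  · rw [sum_add_distrib, sum_boole]
    have : #{b : Fin N | (b : ℤ) ∈ Ioo ((a : ℤ) - T) (a + T)} ≤ 2 * T :=
      (card_le_card_of_injOn (t := Ioo ((a : ℤ) - T) (a + T)) (fun b : Fin N => (b : ℤ))
        (fun b hb => by simpa using hb) fun b _ c _ h => Fin.ext (by simpa using h)).trans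
        (by rw [Int.card_Ioo]; omega)
    have : (#{b : Fin N | (b : ℤ) ∈ Ioo ((a : ℤ) - T) (a + T)} : ℝ) ≤ 2 * T := by
      exact_mod_cast this
    have e : ∑ _b : Fin N, 1 / (N : ℝ) = 1 := by simp [N0.ne']
    linarith

theorem dense (T K g d e : ℕ) (hN : 0 < Fintype.card B)
    (h1 : Real.log (Fintype.card B) * Fintype.card B ≤ T * (K + 1))
    (h2 : (2 * T + 1) * 2 ^ g ≤ Fintype.card B) (h3 : Fintype.card B ≤ g * d)
    (h4 : (Fintype.card B + 1) ^ K + 1 ≤ 2 ^ e) :
    ∃ ω : B → Fin d → Bool × Fin (Fintype.card B),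
      (2 : ℝ) ^ Fintype.card B ≤ 2 ^ e * (univ.image (word ω)).card := by
  obtain ⟨ω, h⟩ := collide (B := B) (Fintype.card B) d hN
  refine ⟨ω, ?_⟩
  generalize Fintype.card B = n at *
  have N0 : (0 : ℝ) < n := by exact_mod_cast hN
  have a1 : ∑ k ∈ range (n + 1), (n.choose k : ℝ) *
      (∑ a : Fin n × Fin n, (1 - |((a.1 : ℕ) : ℝ) - (a.2 : ℕ)| / n) ^ k) ^ d ≤
      (n ^ d) ^ 2 * 2 ^ e := by
    have nn : ∀ _ : ℕ, ∀ a : Fin n × Fin n, 0 ≤ 1 - |((a.1 : ℕ) : ℝ) - (a.2 : ℕ)| / n := fun _ a => by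
      have a1 : ((a.1 : ℕ) : ℝ) ≤ n := by exact_mod_cast a.1.2.le
      have a2 : ((a.2 : ℕ) : ℝ) ≤ n := by exact_mod_cast a.2.2.le
      rw [sub_nonneg, div_le_one N0, abs_le]
      constructor <;> linarith [Nat.cast_nonneg (α := ℝ) a.1, Nat.cast_nonneg (α := ℝ) a.2]
    refine (sum_le_sum (g := fun k => (n ^ d : ℝ) ^ 2 * ((if k ≤ K then (n.choose k : ℝ) else 0) +
      n.choose k / 2 ^ n)) fun k _ => ?_).trans ?_
    · have s0 := sum_nonneg (s := univ) fun a _ => pow_nonneg (nn k a) k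
      split_ifs with c
      · have := pow_le_pow_left₀ s0 ((sum_le_card_nsmul _ _ 1 fun a _ => pow_le_one₀ (nn k a)
          (sub_le_self _ (by positivity))).trans (le_of_eq (b := (n : ℝ) ^ 2) (by simp [sq]))) d
        rw [pow_right_comm] at this
        rw [mul_add, mul_comm]
        exact le_add_of_le_of_nonneg (by gcongr) (by positivity)
      · have b1 := pow_le_pow_left₀ s0 (tail n T k hN (h1.trans (by
          gcongr; exact_mod_cast not_le.mp c))) d
        have b2 : ((2 * T + 1 : ℝ) * 2 ^ g) ^ d ≤ n ^ d :=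
          pow_le_pow_left₀ (by positivity) (by exact_mod_cast h2) d
        have b3 : (2 : ℝ) ^ n ≤ (2 ^ g) ^ d := by
          rw [← pow_mul]; exact pow_le_pow_right₀ (by norm_num) h3
        rw [zero_add, ← mul_div_assoc, le_div_iff₀ (by positivity), mul_comm (_ ^ 2), mul_assoc]
        gcongr
        calc _ ≤ ((n : ℝ) * (2 * T + 1)) ^ d * (2 ^ g) ^ d := by gcongr
          _ = n ^ d * ((2 * T + 1 : ℝ) * 2 ^ g) ^ d := by rw [mul_pow, mul_pow, mul_assoc]
          _ ≤ n ^ d * n ^ d := by gcongr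
          _ = _ := by ring
    · rw [← mul_sum, sum_add_distrib, ← sum_div, ← sum_filter]
      gcongr
      have b1 : ∑ k ∈ range (n + 1), (n.choose k : ℝ) = 2 ^ n := by
        exact_mod_cast Nat.sum_range_choose n
      have b2 : ∑ k ∈ range (n + 1) with k ≤ K, n.choose k ≤ (n + 1) ^ K := by
        rw [add_pow]
        refine (sum_le_sum_of_subset (t := range (K + 1)) fun k hk => by
          simpa [Nat.lt_succ_iff] using (mem_filter.mp hk).2).trans (sum_le_sum fun k hk => ?_)
        have := Nat.choose_pos (Nat.lt_succ_iff.mp (mem_range.mp hk))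
        have := Nat.choose_le_pow n k
        rw [one_pow, mul_one]
        nlinarith
      rw [b1, div_self (by positivity)]
      exact_mod_cast (Nat.add_le_add_right b2 1).trans h4
  have a2 : ((n ^ d : ℝ)) ^ 2 ≤ (univ.image (word ω)).card *
      #{p : (Fin d → Fin n) × (Fin d → Fin n) | word ω p.1 = word ω p.2} := by
    have b1 := card_eq_sum_card_image (word ω) univ
    have b2 := sq_sum_le_card_mul_sum_sq (s := univ.image (word ω))
      (f := fun r => #{v | word ω v = r})
    have b3 : ∑ r ∈ univ.image (word ω), #{v | word ω v = r} ^ 2 =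
        #{p : (Fin d → Fin n) × (Fin d → Fin n) | word ω p.1 = word ω p.2} := by
      rw [card_eq_sum_card_fiberwise (f := fun p => word ω p.1) (t := univ.image (word ω))
        fun p _ => by simp]
      refine sum_congr rfl fun r _ => ?_
      rw [sq, ← card_product]
      congr 1
      ext p
      simp only [mem_product, mem_filter, mem_univ, true_and]
      grind
    rw [← b1, b3] at b2
    simp only [card_univ, Fintype.card_pi, prod_const, Fintype.card_fin] at b2
    exact_mod_cast b2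
  refine le_of_mul_le_mul_left ?_ (by positivity : (0 : ℝ) < (n ^ d) ^ 2)
  calc _ ≤ _ := mul_le_mul_of_nonneg_right a2 (by positivity)
    _ ≤ (univ.image (word ω)).card * ((n ^ d : ℝ) ^ 2 * 2 ^ e) := by
      rw [mul_assoc]; exact mul_le_mul_of_nonneg_left (h.trans a1) (by positivity)
    _ = _ := by ring

theorem grow {G : Type} [CommGroup G] [Fintype G] [DecidableEq G] (R : Finset G) (t : ℕ) :
    ∃ z : Fin t → G, (#{x | ¬ ∃ r ∈ R, ∃ s : Fin t → Bool, x = r * ∏ i, if s i then z i else 1} : ℝ)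
      / Fintype.card G ≤ (1 - R.card / Fintype.card G) ^ 2 ^ t := by
  have G0 : (0 : ℝ) < Fintype.card G := by exact_mod_cast Fintype.card_pos
  induction t with
  | zero =>
    refine ⟨fun _ => 1, le_of_eq ?_⟩
    have : ((Rᶜ).card : ℝ) = Fintype.card G - R.card := by
      rw [card_compl, Nat.cast_sub (card_le_univ R)]
    simp only [univ_eq_empty, prod_empty, mul_one, exists_const, exists_eq_right', pow_zero,
      pow_one]
    rw [show ({x | x ∉ R} : Finset G) = Rᶜ by ext; simp, this]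
    field_simp
  | succ t ih =>
    obtain ⟨z, hz⟩ := ih
    set U : Finset G := {x | ¬ ∃ r ∈ R, ∃ s : Fin t → Bool, x = r * ∏ i, if s i then z i else 1}
      with hU
    obtain ⟨y, -, hy⟩ := exists_le_of_sum_le (s := (univ : Finset G)) univ_nonempty
      (f := fun y => (#{x ∈ U | x / y ∈ U} : ℝ)) (g := fun _ => U.card ^ 2 / Fintype.card G)
      (le_of_eq (by
        simp only [card_filter, Nat.cast_sum, Nat.cast_ite, Nat.cast_one, Nat.cast_zero]
        rw [sum_comm, sum_congr rfl (g := fun _ => (U.card : ℝ)) fun x _ => by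
          rw [Fintype.sum_equiv (Equiv.divLeft x) (fun y => if x / y ∈ U then (1 : ℝ) else 0)
            (fun u => if u ∈ U then 1 else 0) fun _ => rfl]
          simp]
        simp only [sum_const, card_univ, nsmul_eq_mul]
        field_simp))
    refine ⟨Fin.cons y z, le_trans (div_le_div_of_nonneg_right (le_trans ?_ hy) G0.le) ?_⟩
    · refine Nat.cast_le.mpr (card_le_card fun x hx => ?_)
      simp only [hU, mem_filter, mem_univ, true_and] at hx ⊢
      constructor <;> rintro ⟨r, hr, s, h⟩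
      · exact hx ⟨r, hr, Fin.cons false s, by simp [Fin.prod_univ_succ, h]⟩
      · refine hx ⟨r, hr, Fin.cons true s, ?_⟩
        rw [div_eq_iff_eq_mul] at h
        simp [Fin.prod_univ_succ, h, mul_comm, mul_left_comm]
    · rw [pow_succ 2 t, pow_mul, div_div, ← sq, ← div_pow]
      exact pow_le_pow_left₀ (by positivity) hz 2

theorem cover (T K g d e l : ℕ) (hN : 0 < Fintype.card B)
    (h1 : Real.log (Fintype.card B) * Fintype.card B ≤ T * (K + 1))
    (h2 : (2 * T + 1) * 2 ^ g ≤ Fintype.card B) (h3 : Fintype.card B ≤ g * d)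
    (h4 : (Fintype.card B + 1) ^ K + 1 ≤ 2 ^ e) (h5 : Fintype.card B ≤ 2 ^ l) :
    ∃ (M : Fin d ⊕ Fin (e + l) → B → Bool) (t : Fin d ⊕ Fin (e + l) → B → ℕ),
      ∀ S : B → ℤˣ, ∃ v : Fin d ⊕ Fin (e + l) → ℕ, ∀ b, S b = ∏ i, σ (M i b) (t i b) (v i) := by
  obtain ⟨ω, hω⟩ := dense T K g d e hN h1 h2 h3 h4
  obtain ⟨z, hz⟩ := grow (univ.image (word ω)) (e + l)
  refine ⟨Sum.elim (fun i b => (ω b i).1) fun i b => decide (z i b = -1),
    Sum.elim (fun i b => (ω b i).2) 0, fun S => ?_⟩
  have cG : (Fintype.card (B → ℤˣ) : ℝ) = 2 ^ Fintype.card B := by simp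
  rw [cG] at hz
  have a1 : (1 - (univ.image (word ω)).card / 2 ^ Fintype.card B : ℝ) ^ 2 ^ (e + l) <
      1 / 2 ^ Fintype.card B := by
    have b0 : ((univ.image (word ω)).card : ℝ) ≤ 2 ^ Fintype.card B := by
      rw [← cG]; exact_mod_cast card_le_univ _
    have b1 : 1 / 2 ^ e ≤ ((univ.image (word ω)).card / 2 ^ Fintype.card B : ℝ) := by
      rw [div_le_div_iff₀ (by positivity) (by positivity)]; linarith
    have b2 : (Fintype.card B : ℝ) ≤ 2 ^ l := by exact_mod_cast h5
    calc _ ≤ Real.exp (-(1 / 2 ^ e)) ^ 2 ^ (e + l) := by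
          refine pow_le_pow_left₀ ?_ (le_trans ?_ (Real.one_sub_le_exp_neg _)) _
          · rw [sub_nonneg, div_le_one (by positivity)]; exact b0
          · linarith
      _ ≤ Real.exp (-1) ^ Fintype.card B := by
          rw [← Real.exp_nat_mul, ← Real.exp_nat_mul, Real.exp_le_exp]
          push_cast
          rw [pow_add]
          field_simp
          linarith
      _ < (1 / 2) ^ Fintype.card B := pow_lt_pow_left₀ (by
          simpa using Real.exp_neg_one_lt_half) (by positivity) hN.ne'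
      _ = _ := by rw [div_pow, one_pow]
  have a2 := (div_lt_div_iff_of_pos_right (by positivity)).mp (hz.trans_lt a1)
  rw [Nat.cast_lt_one, card_eq_zero, filter_eq_empty_iff] at a2
  obtain ⟨_, hr, s, h⟩ := not_not.mp (a2 (mem_univ S))
  obtain ⟨v, -, rfl⟩ := mem_image.mp hr
  refine ⟨Sum.elim (fun i => v i) fun i => if s i then 1 else 0, fun b => ?_⟩
  rw [h, Fintype.prod_sum_type, Pi.mul_apply, Finset.prod_apply]
  congr 1
  refine prod_congr rfl fun i _ => ?_
  rcases Int.units_eq_one_or (z i b) with k | k <;> cases hs : s i <;> simp [σ, k, hs]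

end Pool.Agent.H29.BD
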