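import Mathlib

namespace Pool.Agent.H29.CircOrd

/-- `a, b, c` are distinct and appear in this order around the circle. -/
def cyc (a b c : ℕ) : Prop := (a < b ∧ b < c) ∨ (b < c ∧ c < a) ∨ (c < a ∧ a < b)

/-- A pattern: a graph on `Fin m`, ordered (linearly or circularly) by the order of `Fin m`. -/
abbrev Pattern : Type := Σ m : ℕ, SimpleGraph (Fin m)

/-- The pattern `H` occurs as an induced, circular-order preserving copy in `G`, whose vertex `v`
sits at position `σ v` of the circle. -/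
def OccursCirc (H : Pattern) {n : ℕ} (G : SimpleGraph (Fin n)) (σ : Equiv.Perm (Fin n)) : Prop :=
  ∃ φ : Fin H.1 → Fin n, Function.Injective φ ∧ (∀ a b, H.2.Adj a b ↔ G.Adj (φ a) (φ b)) ∧
    ∀ a b c : Fin H.1, cyc a b c ↔ cyc (σ (φ a)) (σ (φ b)) (σ (φ c))

/-- The pattern `H` occurs as an induced, linear-order preserving copy in `G`, whose vertex `v`
sits at position `σ v` of the line. -/
def OccursLin (H : Pattern) {n : ℕ} (G : SimpleGraph (Fin n)) (σ : Equiv.Perm (Fin n)) : Prop :=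
  ∃ φ : Fin H.1 → Fin n, Function.Injective φ ∧ (∀ a b, H.2.Adj a b ↔ G.Adj (φ a) (φ b)) ∧
    ∀ a b, a < b ↔ σ (φ a) < σ (φ b)

/-- The class `P` is described by a finite set of forbidden circularly ordered graphs. -/
def CircDescribed (P : ∀ n, SimpleGraph (Fin n) → Prop) : Prop :=
  ∃ F : Set Pattern, F.Finite ∧ ∀ (n : ℕ) (G : SimpleGraph (Fin n)),
    P n G ↔ ∃ σ : Equiv.Perm (Fin n), ∀ H ∈ F, ¬ OccursCirc H G σ

/-- The class `P` is described by a finite set of forbidden linearly ordered graphs. -/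
def LinDescribed (P : ∀ n, SimpleGraph (Fin n) → Prop) : Prop :=
  ∃ F : Set Pattern, F.Finite ∧ ∀ (n : ℕ) (G : SimpleGraph (Fin n)),
    P n G ↔ ∃ σ : Equiv.Perm (Fin n), ∀ H ∈ F, ¬ OccursLin H G σ

/-- `P` is closed under isomorphism and under taking induced subgraphs. -/
def Hereditary (P : ∀ n, SimpleGraph (Fin n) → Prop) : Prop :=
  ∀ (m n : ℕ) (H : SimpleGraph (Fin m)) (G : SimpleGraph (Fin n)), Nonempty (H ↪g G) → P n G → P m H

end Pool.Agent.H29.CircOrd
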