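import Mathlib

set_option autoImplicit false
set_option linter.unusedSectionVars false

namespace Pool.Agent.H29.DimCount

open Finset

theorem pow_le (k x : ℕ) : (x + 1) ^ k ≤ (k.factorial * 2 ^ k) * 2 ^ x := by
  calc (x + 1) ^ k ≤ (x + 1).ascFactorial k := Nat.pow_succ_le_ascFactorial (x + 1) k
    _ = k.factorial * (x + k).choose k := Nat.ascFactorial_eq_factorial_mul_choose x k
    _ ≤ k.factorial * 2 ^ (x + k) := Nat.mul_le_mul_left _ (Nat.choose_le_two_pow _ _)
    _ = (k.factorial * 2 ^ k) * 2 ^ x := by ring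

variable {α β : Type} [Fintype α] [Fintype β] [DecidableEq α] [DecidableEq β]

/-- left degree -/
def dl (S : Finset (α × β)) (a : α) : ℕ := (S.filter (fun p => p.1 = a)).card
/-- right degree -/
def dr (S : Finset (α × β)) (b : β) : ℕ := (S.filter (fun p => p.2 = b)).card

theorem sum_left (S : Finset (α × β)) (f : α → ℤ) :
    ∑ p ∈ S, f p.1 = ∑ a, (dl S a : ℤ) * f a := by
  rw [← Finset.sum_fiberwise_of_maps_to (s := S) (t := univ) (g := fun p => p.1)
    (fun _ _ => mem_univ _)]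
  refine Finset.sum_congr rfl (fun a _ => ?_)
  rw [Finset.sum_congr rfl (g := fun _ => f a)]
  · simp [dl]
  · intro p hp
    rw [(mem_filter.mp hp).2]

theorem sum_right (S : Finset (α × β)) (f : β → ℤ) :
    ∑ p ∈ S, f p.2 = ∑ b, (dr S b : ℤ) * f b := by
  rw [← Finset.sum_fiberwise_of_maps_to (s := S) (t := univ) (g := fun p => p.2)
    (fun _ _ => mem_univ _)]
  refine Finset.sum_congr rfl (fun a _ => ?_)
  rw [Finset.sum_congr rfl (g := fun _ => f a)]
  · simp [dr]
  · intro p hp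
    rw [(mem_filter.mp hp).2]

/-- The set cut out by one linear order is determined by its degree sequences. -/
theorem eq_of_deg (E S : Finset (α × β)) (f : α → ℕ) (g : β → ℕ) (hS : S ⊆ E)
    (h1 : dl S = dl (E.filter (fun p => f p.1 ≤ g p.2)))
    (h2 : dr S = dr (E.filter (fun p => f p.1 ≤ g p.2))) :
    S = E.filter (fun p => f p.1 ≤ g p.2) := by
  set O := E.filter (fun p => f p.1 ≤ g p.2) with hO
  let w : α × β → ℤ := fun p => (2 * (g p.2 : ℤ) + 1) - 2 * (f p.1 : ℤ)
  have hw : ∑ p ∈ S, w p = ∑ p ∈ O, w p := by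
    simp only [w, Finset.sum_sub_distrib]
    rw [sum_left S (fun a => 2 * (f a : ℤ)), sum_left O (fun a => 2 * (f a : ℤ)),
      sum_right S (fun a => 2 * (g a : ℤ) + 1), sum_right O (fun a => 2 * (g a : ℤ) + 1), h1, h2]
  have e1 := Finset.sum_inter_add_sum_sdiff S O w
  have e2 := Finset.sum_inter_add_sum_sdiff O S w
  rw [inter_comm] at e2
  have e3 : ∑ p ∈ S \ O, w p = ∑ p ∈ O \ S, w p := by linarith
  have n1 : ∀ p ∈ S \ O, w p < 0 := by
    intro p hp
    obtain ⟨hp1, hp2⟩ := mem_sdiff.mp hp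
    have : ¬ f p.1 ≤ g p.2 := fun h => hp2 (mem_filter.mpr ⟨hS hp1, h⟩)
    simp only [w]; omega
  have n2 : ∀ p ∈ O \ S, 0 < w p := by
    intro p hp
    obtain ⟨hp1, _⟩ := mem_sdiff.mp hp
    have : f p.1 ≤ g p.2 := (mem_filter.mp hp1).2
    simp only [w]; omega
  have m1 : ∑ p ∈ S \ O, w p ≤ 0 := Finset.sum_nonpos (fun p hp => (n1 p hp).le)
  have m2 : 0 ≤ ∑ p ∈ O \ S, w p := Finset.sum_nonneg (fun p hp => (n2 p hp).le)
  have z1 : S \ O = ∅ := by
    by_contra hne
    have := Finset.sum_neg n1 (nonempty_iff_ne_empty.mpr hne)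
    linarith
  have z2 : O \ S = ∅ := by
    by_contra hne
    have := Finset.sum_pos n2 (nonempty_iff_ne_empty.mpr hne)
    linarith
  exact Subset.antisymm (sdiff_eq_empty_iff_subset.mp z1) (sdiff_eq_empty_iff_subset.mp z2)

theorem count (d : ℕ) (E : Finset (α × β))
    (h : ∀ S ⊆ E, ∃ (f : Fin d → α → ℕ) (g : Fin d → β → ℕ),
      ∀ p ∈ E, p ∈ S ↔ ∀ i, f i p.1 ≤ g i p.2) :
    2 ^ E.card ≤ ((∏ a, (dl E a + 1)) * ∏ b, (dr E b + 1)) ^ d := by
  choose! f g hfg using h
  let T : Finset (Fin d → (α → ℕ) × (β → ℕ)) := Fintype.piFinset (fun _ =>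
    (Fintype.piFinset (fun a => range (dl E a + 1))) ×ˢ
      (Fintype.piFinset (fun b => range (dr E b + 1))))
  let O : Finset (α × β) → Fin d → Finset (α × β) :=
    fun S i => E.filter (fun p => f S i p.1 ≤ g S i p.2)
  let F : Finset (α × β) → (Fin d → (α → ℕ) × (β → ℕ)) :=
    fun S i => (dl (O S i), dr (O S i))
  have hT : T.card = ((∏ a, (dl E a + 1)) * ∏ b, (dr E b + 1)) ^ d := by
    simp [T, Fintype.card_piFinset, card_product]
  rw [← hT, ← card_powerset]
  refine Finset.card_le_card_of_injOn F ?_ ?_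
  · intro S _
    simp only [T, F, mem_coe, mem_product,
      Fintype.mem_piFinset, mem_range]
    intro i
    constructor
    · intro a
      exact Nat.lt_succ_of_le (card_le_card (filter_subset_filter _ (filter_subset _ _)))
    · intro b
      exact Nat.lt_succ_of_le (card_le_card (filter_subset_filter _ (filter_subset _ _)))
  · intro S hS S' hS' hF
    have hS1 : S ⊆ E := mem_powerset.mp hS
    have hS2 : S' ⊆ E := mem_powerset.mp hS'
    have hO : ∀ i, O S i = O S' i := by
      intro i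
      have := congrFun hF i
      simp only [F, Prod.mk.injEq] at this
      exact eq_of_deg E (O S i) (f S' i) (g S' i) (filter_subset _ _) this.1 this.2
    have key : ∀ p ∈ E, ∀ i, (f S i p.1 ≤ g S i p.2 ↔ f S' i p.1 ≤ g S' i p.2) := by
      intro p hp i
      have := congrArg (fun X => p ∈ X) (hO i)
      simpa [O, hp] using this
    ext p
    by_cases hp : p ∈ E
    · rw [hfg S hS1 p hp, hfg S' hS2 p hp]
      exact forall_congr' (key p hp)
    · exact ⟨fun h => absurd (hS1 h) hp, fun h => absurd (hS2 h) hp⟩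

theorem sum_dl (E : Finset (α × β)) : ∑ a, dl E a = E.card := by
  have := sum_left E (fun _ => 1)
  simp only [sum_const, nsmul_eq_mul, mul_one] at this
  exact_mod_cast this.symm

theorem sum_dr (E : Finset (α × β)) : ∑ a, dr E a = E.card := by
  have := sum_right E (fun _ => 1)
  simp only [sum_const, nsmul_eq_mul, mul_one] at this
  exact_mod_cast this.symm

theorem core (d : ℕ) (E : Finset (α × β))
    (h : ∀ S ⊆ E, ∃ (f : Fin d → α → ℕ) (g : Fin d → β → ℕ),
      ∀ p ∈ E, p ∈ S ↔ ∀ i, f i p.1 ≤ g i p.2) :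
    E.card ≤ ((4 * d).factorial * 2 ^ (4 * d)) * (Fintype.card α + Fintype.card β) := by
  have h1 := count d E h
  set K := (4 * d).factorial * 2 ^ (4 * d) with hK
  have h2 : (2 ^ E.card) ^ 4 ≤ (∏ a, (dl E a + 1) ^ (4 * d)) * ∏ b, (dr E b + 1) ^ (4 * d) := by
    rw [Finset.prod_pow, Finset.prod_pow, ← mul_pow, mul_comm 4 d, pow_mul]
    exact Nat.pow_le_pow_left h1 4
  have h3 : ∏ a, (dl E a + 1) ^ (4 * d) ≤ K ^ Fintype.card α * 2 ^ E.card := by
    calc ∏ a, (dl E a + 1) ^ (4 * d) ≤ ∏ a, (K * 2 ^ dl E a) :=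
          Finset.prod_le_prod' (fun a _ => pow_le _ _)
      _ = _ := by
          rw [Finset.prod_mul_distrib, Finset.prod_pow_eq_pow_sum, sum_dl]; simp
  have h4 : ∏ a, (dr E a + 1) ^ (4 * d) ≤ K ^ Fintype.card β * 2 ^ E.card := by
    calc ∏ a, (dr E a + 1) ^ (4 * d) ≤ ∏ a, (K * 2 ^ dr E a) :=
          Finset.prod_le_prod' (fun a _ => pow_le _ _)
      _ = _ := by
          rw [Finset.prod_mul_distrib, Finset.prod_pow_eq_pow_sum, sum_dr]; simp
  have h5 := h2.trans (Nat.mul_le_mul h3 h4)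
  have h6 : K ^ (Fintype.card α + Fintype.card β) ≤ 2 ^ (K * (Fintype.card α + Fintype.card β)) := by
    rw [pow_mul]
    exact Nat.pow_le_pow_left (Nat.lt_two_pow_self).le _
  have h7 : 2 ^ (4 * E.card) ≤ 2 ^ (K * (Fintype.card α + Fintype.card β) + 2 * E.card) := by
    calc 2 ^ (4 * E.card) = (2 ^ E.card) ^ 4 := by rw [← pow_mul, mul_comm]
      _ ≤ _ := h5
      _ = K ^ (Fintype.card α + Fintype.card β) * 2 ^ (2 * E.card) := by ring
      _ ≤ 2 ^ (K * (Fintype.card α + Fintype.card β)) * 2 ^ (2 * E.card) :=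
          Nat.mul_le_mul_right _ h6
      _ = _ := by rw [← pow_add]
  have h8 := (Nat.pow_le_pow_iff_right (by norm_num : 1 < 2)).mp h7
  omega

end Pool.Agent.H29.DimCount
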