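import Mathlib
import Pool.Agent.H29.CircOrdDefs
import Pool.Agent.H29.DimCount

namespace Pool.Agent.H29.CircOrd

open Finset

theorem cnt {I ι : Type} [Fintype I] [DecidableEq I] [DecidableEq ι] (s : ℕ) (D : ι → Finset I)
    (w : ι → I → Bool) (hs : ∀ j, (D j).card ≤ s) (J : Finset ι)
    (hD : ∀ j ∈ J, ∀ j' ∈ J, j ≠ j' → Disjoint (D j) (D j')) :
    (univ.filter fun ω : I → Bool => ∀ j ∈ J, ∃ i ∈ D j, ω i ≠ w j i).card * (2 ^ s) ^ J.card
      ≤ 2 ^ Fintype.card I * (2 ^ s - 1) ^ J.card := by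
  induction J using Finset.induction_on with
  | empty => simp
  | insert j J hj ih =>
    have ih' := ih fun a ha b hb => hD a (Finset.mem_insert_of_mem ha) b (Finset.mem_insert_of_mem hb)
    set B := univ.filter fun ω : I → Bool => ∀ j ∈ J, ∃ i ∈ D j, ω i ≠ w j i with hB
    have e1 : (univ.filter fun ω : I → Bool => ∀ j' ∈ insert j J, ∃ i ∈ D j', ω i ≠ w j' i)
        = B.filter fun ω => ¬ ∀ i ∈ D j, ω i = w j i := by
      ext ω; simp [hB, and_comm]
    have e2 := Finset.card_filter_add_card_filter_not (s := B) (fun ω => ∀ i ∈ D j, ω i = w j i)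
    have e3 : B.card ≤ 2 ^ s * (B.filter fun ω => ∀ i ∈ D j, ω i = w j i).card := by
      refine Finset.card_le_mul_card_image_of_maps_to (f := fun ω => (D j).piecewise (w j) ω)
        (fun ω hω => ?_) _ (fun b _ => ?_)
      · simp only [hB, Finset.mem_filter, Finset.mem_univ, true_and] at hω ⊢
        refine ⟨fun j' hj' => ?_, fun i hi => Finset.piecewise_eq_of_mem _ _ _ hi⟩
        obtain ⟨i, hi, hne⟩ := hω j' hj'
        refine ⟨i, hi, ?_⟩
        rwa [Finset.piecewise_eq_of_notMem]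
        exact Finset.disjoint_left.mp (hD j' (Finset.mem_insert_of_mem hj') j
          (Finset.mem_insert_self _ _) (fun h => hj (h ▸ hj'))) hi
      · have := Finset.card_le_card_of_injOn
          (s := B.filter fun ω => (D j).piecewise (w j) ω = b) (t := (univ : Finset (D j → Bool)))
          (fun ω i => ω i) (fun _ _ => Finset.mem_univ _) (by
            intro ω hω ω' hω' h
            funext i
            by_cases hi : i ∈ D j
            · exact congrFun h ⟨i, hi⟩
            · have h1 := congrFun (Finset.mem_filter.mp hω).2 i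
              have h2 := congrFun (Finset.mem_filter.mp hω').2 i
              rw [Finset.piecewise_eq_of_notMem _ _ _ hi] at h1 h2
              exact h1.trans h2.symm)
        refine this.trans ?_
        simpa using Nat.pow_le_pow_right (by norm_num) (hs j)
    rw [e1, Finset.card_insert_of_notMem hj, pow_succ, pow_succ]
    have hQ := Nat.two_pow_pos s
    generalize 2 ^ s = Q at *
    obtain ⟨R, rfl⟩ : ∃ R, Q = R + 1 := ⟨Q - 1, by omega⟩
    simp only [Nat.add_sub_cancel] at *
    generalize (B.filter fun ω => ¬ ∀ i ∈ D j, ω i = w j i).card = x at *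
    generalize (B.filter fun ω => ∀ i ∈ D j, ω i = w j i).card = y at *
    have h1 : x * (R + 1) ≤ B.card * R := by nlinarith
    calc x * ((R + 1) ^ J.card * (R + 1)) = x * (R + 1) * (R + 1) ^ J.card := by ring
      _ ≤ B.card * R * (R + 1) ^ J.card := Nat.mul_le_mul_right _ h1
      _ = B.card * (R + 1) ^ J.card * R := by ring
      _ ≤ 2 ^ Fintype.card I * R ^ J.card * R := Nat.mul_le_mul_right _ ih'
      _ = _ := by ring

theorem sep {ι : Type} [DecidableEq ι] (M : ℕ) : ∀ (k : ℕ) (s : Finset ι) (V : ι → Finset ℕ),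
    s.card = k → (∀ i ∈ s, k * M ≤ (V i).card) →
    ∃ (π : Fin k → ι) (f : Fin k → Fin M → ℕ), Function.Injective π ∧ (∀ j, π j ∈ s) ∧
      (∀ j a, f j a ∈ V (π j)) ∧ (∀ j, StrictMono (f j)) ∧
      ∀ j j', j < j' → ∀ a b, f j a < f j' b := by
  intro k
  induction k with
  | zero =>
    intro s V _ _
    exact ⟨Fin.elim0, Fin.elim0, fun a => a.elim0, fun a => a.elim0, fun a => a.elim0,
      fun a => a.elim0, fun a => a.elim0⟩
  | succ k ih =>
    intro s V hs hV
    classical
    have hex : ∃ T, ∃ i ∈ s, M ≤ ((V i).filter (· < T)).card := by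
      obtain ⟨i, hi⟩ : s.Nonempty := Finset.card_pos.mp (by omega)
      refine ⟨(V i).sup id + 1, i, hi, ?_⟩
      rw [Finset.filter_true_of_mem (p := (· < (V i).sup id + 1))
        fun x hx => Nat.lt_succ_of_le (Finset.le_sup (f := id) hx)]
      have := hV i hi
      nlinarith
    obtain ⟨i, hi, hiT⟩ := Nat.find_spec hex
    set T := Nat.find hex with hT
    have hle : ∀ i' ∈ s, ((V i').filter (· < T)).card ≤ M := by
      intro i' hi'
      rcases Nat.eq_zero_or_pos T with h0 | h0
      · simp [h0]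
      · have h1 := Nat.find_min hex (show T - 1 < T by omega)
        push Not at h1
        have h2 := h1 i' hi'
        have h3 : (V i').filter (· < T) ⊆ insert (T - 1) ((V i').filter (· < T - 1)) := by
          intro x hx
          simp only [Finset.mem_filter, Finset.mem_insert] at hx ⊢
          by_cases h : x = T - 1
          · exact Or.inl h
          · exact Or.inr ⟨hx.1, by omega⟩
        have := (Finset.card_le_card h3).trans (Finset.card_insert_le _ _)
        omega
    obtain ⟨π, f, h1, h2, h3, h4, h5⟩ := ih (s.erase i) (fun i' => (V i').filter fun x => ¬ x < T)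
      (by rw [Finset.card_erase_of_mem hi, hs]; rfl) (by
        intro i' hi'
        have a1 := hV i' (Finset.mem_of_mem_erase hi')
        have a2 := hle i' (Finset.mem_of_mem_erase hi')
        have a3 := Finset.card_filter_add_card_filter_not (s := V i') (· < T)
        rw [add_mul] at a1
        omega)
    let g := Finset.orderEmbOfCardLe _ hiT
    have hg : ∀ a, g a ∈ (V i).filter (· < T) := Finset.orderEmbOfCardLe_mem _ hiT
    refine ⟨Fin.cons i π, Fin.cons g f, ?_, ?_, ?_, ?_, ?_⟩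
    · rw [Fin.cons_injective_iff]
      refine ⟨?_, h1⟩
      rintro ⟨j, hj⟩
      exact Finset.ne_of_mem_erase (h2 j) hj
    · refine Fin.cases hi fun j => Finset.mem_of_mem_erase (h2 j)
    · refine Fin.cases (fun a => (Finset.mem_filter.mp (hg a)).1)
        fun j a => (Finset.mem_filter.mp (h3 j a)).1
    · exact Fin.cases g.strictMono h4
    · intro j j'
      refine Fin.cases (fun h => absurd h (Fin.not_lt_zero _)) (fun j' => ?_) j'
      refine Fin.cases (fun _ a b => ?_) (fun j h => h5 j j' (Fin.succ_lt_succ_iff.mp h)) j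
      have a1 := (Finset.mem_filter.mp (hg a)).2
      have a2 := (Finset.mem_filter.mp (h3 j' b)).2
      simp only [Fin.cons_zero, Fin.cons_succ]
      omega

theorem bern (a n : ℕ) : a ^ (n + 1) + (n + 1) * a ^ n ≤ (a + 1) ^ (n + 1) := by
  induction n with
  | zero => simp
  | succ n ih =>
    rw [pow_succ (a + 1) (n + 1)]
    refine le_trans ?_ (Nat.mul_le_mul_right _ ih)
    rw [pow_succ a (n + 1), pow_succ a n]
    nlinarith [Nat.zero_le (a ^ n)]

theorem numeric (C Q : ℕ) (hQ : 1 ≤ Q) : ∃ p, 1 ≤ p ∧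
    (C * p) ^ (C * p) * (Q - 1) ^ (p * p) < Q ^ (p * p) := by
  obtain ⟨R, rfl⟩ : ∃ R, Q = R + 1 := ⟨Q - 1, by omega⟩
  have h1 : 2 * R ^ (R + 1) ≤ (R + 1) ^ (R + 1) := by
    refine le_trans ?_ (bern R R)
    rw [pow_succ]; nlinarith [Nat.zero_le (R ^ R)]
  let x := (2 * (C * (R + 1))) ^ C * (C.factorial * 2 ^ C)
  let r := 2 * (x + 1)
  have h2 : (C * ((R + 1) * r)) ^ C < 2 ^ r := by
    have a1 := Pool.Agent.H29.DimCount.pow_le C x
    have a2 : x < 2 ^ x := Nat.lt_two_pow_self
    calc (C * ((R + 1) * r)) ^ C = (2 * (C * (R + 1))) ^ C * (x + 1) ^ C := by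
          rw [← mul_pow]; congr 1; simp only [r]; ring
      _ ≤ (2 * (C * (R + 1))) ^ C * ((C.factorial * 2 ^ C) * 2 ^ x) := Nat.mul_le_mul_left _ a1
      _ = x * 2 ^ x := by simp only [x]; ring
      _ < 2 ^ x * 2 ^ x := Nat.mul_lt_mul_of_pos_right a2 (Nat.two_pow_pos x)
      _ ≤ 2 ^ r := by rw [← pow_add]; exact Nat.pow_le_pow_right (by norm_num) (by omega)
  have hr : 0 < r := by omega
  refine ⟨(R + 1) * r, Nat.mul_pos (by omega) hr, ?_⟩
  rw [Nat.add_sub_cancel]
  have hp : 0 < (R + 1) * r := Nat.mul_pos (by omega) hr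
  have h3 : (C * ((R + 1) * r)) ^ (C * ((R + 1) * r)) < 2 ^ (r * ((R + 1) * r)) := by
    rw [pow_mul _ C, pow_mul 2 r]; exact Nat.pow_lt_pow_left h2 hp.ne'
  have h4 : 2 ^ (r * ((R + 1) * r)) * R ^ ((R + 1) * r * ((R + 1) * r))
      ≤ (R + 1) ^ ((R + 1) * r * ((R + 1) * r)) := by
    rw [mul_assoc (R + 1) r, pow_mul R, pow_mul (R + 1) (R + 1), ← mul_pow]
    exact Nat.pow_le_pow_left h1 _
  rcases Nat.eq_zero_or_pos R with rfl | hR
  · rw [zero_pow (Nat.mul_pos hp hp).ne']; simp
  · exact lt_of_lt_of_le (Nat.mul_lt_mul_of_pos_right h3 (by positivity)) h4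

theorem one_order (k t p N : ℕ) (P : Fin k × Fin t → Fin k × Fin t → Bool) (c : Fin N → Fin k)
    (hc : ∀ i, k * (p * k * t) ≤ (univ.filter fun v => c v = i).card) (σ : Equiv.Perm (Fin N)) :
    ∃ Bad : Finset (Fin N × Fin N → Bool),
      Bad.card * (2 ^ (k * t * (k * t))) ^ (p * p)
        ≤ 2 ^ (N * N) * (2 ^ (k * t * (k * t)) - 1) ^ (p * p) ∧
      ∀ ω ∉ Bad, ∃ e : Fin k × Fin t → Fin N,
        (∀ x y, x.1 < y.1 ∨ (x.1 = y.1 ∧ x.2 < y.2) → σ (e x) < σ (e y)) ∧
        (∀ x y, c (e x) = c (e y) ↔ x.1 = y.1) ∧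
        ∀ x y, x.1 ≠ y.1 → ω (e x, e y) = P x y := by
  classical
  obtain ⟨π, f, h1, -, h3, h4, h5⟩ := sep (p * k * t) k univ
    (fun i => (univ.filter fun v => c v = i).image fun v => (σ v).val) (by simp) (fun i _ => by
      rw [Finset.card_image_of_injective (f := fun v => (σ v).val) _
        (Fin.val_injective.comp σ.injective)]; exact hc i)
  have h6 : ∀ j a, ∃ v, c v = π j ∧ (σ v).val = f j a := fun j a => by
    obtain ⟨v, hv, hv'⟩ := Finset.mem_image.mp (h3 j a)
    exact ⟨v, (Finset.mem_filter.mp hv).2, hv'⟩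
  choose u hu1 hu2 using h6
  have hb : ∀ (l : Fin p × Fin p) (j : Fin k), l.1.val + l.2.val * j.val < p * k := by
    intro l j
    have a1 := l.1.2
    have a2 : l.2.val * j.val ≤ p * j.val := Nat.mul_le_mul_right _ l.2.2.le
    have a3 : p * (j.val + 1) ≤ p * k := Nat.mul_le_mul_left _ j.2
    rw [mul_add] at a3
    omega
  let e : Fin p × Fin p → Fin k × Fin t → Fin N := fun l x =>
    u x.1 (finProdFinEquiv (⟨_, hb l x.1⟩, x.2))
  have hcol : ∀ l l' x y, c (e l x) = c (e l' y) ↔ x.1 = y.1 := fun l l' x y => by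
    simp only [e, hu1]; exact h1.eq_iff
  have hinj : ∀ l l' x y, e l x = e l' y → x = y ∧
      l.1.val + l.2.val * x.1.val = l'.1.val + l'.2.val * x.1.val := by
    rintro l l' ⟨j, a⟩ ⟨j', a'⟩ h
    obtain rfl : j = j' := (hcol l l' _ _).mp (congrArg c h)
    have h7 := congrArg (fun v => (σ v).val) h
    simp only [e, hu2] at h7
    have h8 := finProdFinEquiv.injective ((h4 j).injective h7)
    simp only [Prod.mk.injEq, Fin.mk.injEq] at h8
    exact ⟨by rw [h8.2], h8.1⟩
  let D : Fin p × Fin p → Finset (Fin N × Fin N) := fun l =>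
    (univ.filter fun xy : (Fin k × Fin t) × (Fin k × Fin t) => xy.1.1 ≠ xy.2.1).image
      (Prod.map (e l) (e l))
  let w : Fin p × Fin p → Fin N × Fin N → Bool := fun l =>
    Function.extend (Prod.map (e l) (e l)) (fun xy => P xy.1 xy.2) fun _ => false
  have key := cnt (k * t * (k * t)) D w (fun l => Finset.card_image_le.trans
    ((Finset.card_filter_le _ _).trans (by simp))) univ (by
      intro l _ l' _ hne
      rw [Finset.disjoint_left]
      intro i hi hi'
      obtain ⟨⟨x, y⟩, hxy, rfl⟩ := Finset.mem_image.mp hi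
      obtain ⟨⟨x', y'⟩, -, h⟩ := Finset.mem_image.mp hi'
      obtain ⟨rfl, a1⟩ := hinj _ _ _ _ (congrArg Prod.fst h)
      obtain ⟨rfl, a2⟩ := hinj _ _ _ _ (congrArg Prod.snd h)
      have a3 : x'.1.val ≠ y'.1.val := fun h => (Finset.mem_filter.mp hxy).2 (Fin.ext h)
      have a4 : ((l.2.val : ℤ) - l'.2.val) * ((x'.1.val : ℤ) - y'.1.val) = 0 := by
        zify at a1 a2; linear_combination a2 - a1
      rcases mul_eq_zero.mp a4 with a5 | a5
      · have a6 : l.2.val = l'.2.val := by omega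
        rw [a6] at a1
        exact hne (Prod.ext (Fin.ext (by omega)) (Fin.ext a6))
      · omega)
  simp only [Finset.card_univ, Fintype.card_prod, Fintype.card_fin] at key
  refine ⟨_, key, fun ω hω => ?_⟩
  simp only [Finset.mem_filter, Finset.mem_univ, true_and, not_forall, not_exists, not_and,
    not_not, true_implies] at hω
  obtain ⟨l, hl⟩ := hω
  refine ⟨e l, ?_, hcol l l, fun x y hxy => ?_⟩
  · rintro ⟨j, a⟩ ⟨j', a'⟩ (h | ⟨h, h'⟩)
    · rw [Fin.lt_def]; simp only [e, hu2]; exact h5 j j' h _ _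
    · obtain rfl : j = j' := h
      rw [Fin.lt_def]; simp only [e, hu2]
      apply h4 j
      rw [Fin.lt_def]
      simpa using h'
  · have he : Function.Injective (e l) := fun x y h => (hinj l l x y h).1
    rw [hl (e l x, e l y) (Finset.mem_image.mpr ⟨(x, y), by simpa using hxy, rfl⟩)]
    exact (he.prodMap he).extend_apply _ _ (x, y)

theorem ordering (k t : ℕ) (P : Fin k × Fin t → Fin k × Fin t → Bool)
    (hP : ∀ x y, P x y = P y x) :
    ∃ (N : ℕ) (G : SimpleGraph (Fin N)), G.Colorable k ∧ ∀ σ : Equiv.Perm (Fin N),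
      ∃ e : Fin k × Fin t → Fin N,
        (∀ x y, x.1 < y.1 ∨ (x.1 = y.1 ∧ x.2 < y.2) → σ (e x) < σ (e y)) ∧
        ∀ x y, G.Adj (e x) (e y) ↔ x.1 ≠ y.1 ∧ P x y = true := by
  classical
  obtain ⟨p, hp, hnum⟩ := numeric (k * k * k * t) (2 ^ (k * t * (k * t))) (Nat.two_pow_pos _)
  let c : Fin (k * (k * (p * k * t))) → Fin k := fun v => (finProdFinEquiv.symm v).1
  have hc : ∀ i, k * (p * k * t) ≤ (univ.filter fun v => c v = i).card := by
    intro i
    have := Finset.card_le_card_of_injOn (s := (univ : Finset (Fin (k * (p * k * t)))))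
      (t := univ.filter fun v => c v = i) (fun a => finProdFinEquiv (i, a))
      (fun a _ => by
        simp only [c, Finset.coe_filter, Finset.mem_univ, true_and, Set.mem_ofPred_eq,
          Equiv.symm_apply_apply]) (fun a _ b _ h => (Prod.mk.inj (finProdFinEquiv.injective h)).2)
    simpa using this
  choose Bad h1 h2 using one_order k t p _ P c hc
  obtain ⟨ω, hω⟩ : ∃ ω, ω ∉ univ.biUnion Bad := by
    by_contra hcon
    push Not at hcon
    have a1 : 2 ^ (k * (k * (p * k * t)) * (k * (k * (p * k * t)))) ≤ ∑ σ, (Bad σ).card := by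
      refine le_trans ?_ Finset.card_biUnion_le
      rw [Finset.eq_univ_of_forall hcon]; simp
    have a2 := Finset.sum_le_sum (s := univ) fun σ _ => h1 σ
    rw [← Finset.sum_mul, Finset.sum_const, smul_eq_mul, Finset.card_univ, Fintype.card_perm,
      Fintype.card_fin] at a2
    have a3 := Nat.factorial_le_pow (k * (k * (p * k * t)))
    rw [show k * k * k * t * p = k * (k * (p * k * t)) by ring] at hnum
    have a4 := (Nat.mul_le_mul_right _ a1).trans (a2.trans (Nat.mul_le_mul_right _ a3))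
    rw [mul_left_comm ((k * (k * (p * k * t))) ^ (k * (k * (p * k * t))))] at a4
    exact absurd (Nat.le_of_mul_le_mul_left a4 (Nat.two_pow_pos _)) (not_le.mpr hnum)
  let G : SimpleGraph (Fin (k * (k * (p * k * t)))) :=
    { Adj := fun u v => c u ≠ c v ∧ ω (u, v) = true ∧ ω (v, u) = true
      symm := ⟨fun _ _ h => ⟨h.1.symm, h.2.2, h.2.1⟩⟩
      loopless := ⟨fun _ h => h.1 rfl⟩ }
  refine ⟨_, G, ⟨SimpleGraph.Coloring.mk c fun h => h.1⟩, fun σ => ?_⟩
  obtain ⟨e, a1, a2, a3⟩ := h2 σ ω fun h => hω (Finset.mem_biUnion.mpr ⟨σ, Finset.mem_univ _, h⟩)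
  refine ⟨e, a1, fun x y => ?_⟩
  show (c (e x) ≠ c (e y) ∧ _) ↔ _
  rw [Ne, a2]
  refine and_congr_right fun h => ?_
  rw [a3 x y h, a3 y x (Ne.symm h), hP y x, and_self]

/-- adjacency in the circular clique. -/
def far (L t u v : ℕ) : Prop := (u + t ≤ v ∧ v + t ≤ u + L) ∨ (v + t ≤ u ∧ u + t ≤ v + L)

/-- the circular clique. -/
def K (L t : ℕ) : SimpleGraph (Fin L) where
  Adj u v := far L (t + 1) u v
  symm := ⟨fun _ _ h => h.symm⟩
  loopless := ⟨fun _ h => by unfold far at h; omega⟩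

theorem K_not (k t : ℕ) (hk : 2 ≤ k) : ¬ (K (k * (t + 1) + 1) t).Colorable k := by
  classical
  rintro ⟨C⟩
  obtain ⟨a, -, ha⟩ := Finset.exists_lt_card_fiber_of_mul_lt_card_of_maps_to
    (s := univ) (t := univ) (f := C) (n := t + 1) (fun _ _ => Finset.mem_univ _) (by simp)
  set S := univ.filter fun x => C x = a with hS
  have hne : S.Nonempty := Finset.card_pos.mp (by omega)
  have hind : ∀ u ∈ S, ∀ v ∈ S, ¬ far (k * (t + 1) + 1) (t + 1) u v := fun u hu v hv h =>
    C.valid h ((Finset.mem_filter.mp hu).2.trans (Finset.mem_filter.mp hv).2.symm)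
  have hL : 2 * (t + 1) ≤ k * (t + 1) := Nat.mul_le_mul_right _ hk
  let u0 := S.min' hne
  have h0 : ∀ v ∈ S, u0.val ≤ v.val := fun v hv => S.min'_le v hv
  have := Finset.card_le_card_of_injOn (s := S) (t := range (t + 1))
    (fun v => if v.val - u0.val < t + 1 then v.val - u0.val
      else v.val - u0.val + (t + 1) - (k * (t + 1) + 1)) (fun v hv => by
      have := v.2
      simp only [Finset.coe_range, Set.mem_Iio]
      split_ifs <;> omega) (fun v hv v' hv' h => by
      have a1 := hind u0 (S.min'_mem hne) v hv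
      have a2 := hind u0 (S.min'_mem hne) v' hv'
      have a3 := hind v hv v' hv'
      have a4 := h0 v hv
      have a5 := h0 v' hv'
      have := v.2
      have := v'.2
      unfold far at a1 a2 a3
      simp only at h
      apply Fin.ext
      split_ifs at h <;> omega)
  rw [Finset.card_range] at this
  omega

theorem not_circ (k : ℕ) (hk : 2 ≤ k) : ¬ CircDescribed fun _ G => G.Colorable k := by
  classical
  rintro ⟨F, hF, h⟩
  obtain ⟨t, ht⟩ := (hF.image Sigma.fst).bddAbove
  let q : Fin k × Fin (t + 1) → ℕ := fun x => x.1.val * (t + 1) + x.2.val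
  obtain ⟨N, G, hG, hord⟩ := ordering k (t + 1)
    (fun x y => decide (far (k * (t + 1) + 1) (t + 1) (q x) (q y)))
    (fun x y => decide_eq_decide.mpr or_comm)
  obtain ⟨σ, hσ⟩ := (h N G).mp hG
  obtain ⟨e, he1, he2⟩ := hord σ
  have h1 := (h _ (K (k * (t + 1) + 1) t)).not.mp (K_not k t hk)
  push Not at h1
  obtain ⟨H, hH, φ, hφ, hadj, hcyc⟩ := h1 1
  have hm : H.1 ≤ t := ht ⟨H, hH, rfl⟩
  have hL : 2 * (t + 1) ≤ k * (t + 1) := Nat.mul_le_mul_right _ hk
  obtain ⟨z, hz⟩ : ∃ z, ∀ a, φ a ≠ z := by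
    by_contra hcon
    push Not at hcon
    have := Fintype.card_le_of_surjective φ hcon
    simp only [Fintype.card_fin] at this
    omega
  have hz' : ∀ a, (φ a).val ≠ z.val := fun a h => hz a (Fin.ext h)
  let ρ : Fin H.1 → ℕ := fun a => if z.val < (φ a).val then (φ a).val - z.val - 1
    else (φ a).val + k * (t + 1) - z.val
  have hρ : ∀ a, ρ a < k * (t + 1) := fun a => by
    have := (φ a).2
    have := z.2
    have := hz' a
    simp only [ρ]; split_ifs <;> omega
  let x : Fin H.1 → Fin k × Fin (t + 1) := fun a =>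
    (⟨ρ a / (t + 1), (Nat.div_lt_iff_lt_mul (Nat.succ_pos t)).mpr (hρ a)⟩,
      ⟨ρ a % (t + 1), Nat.mod_lt _ (Nat.succ_pos t)⟩)
  have hq : ∀ a, q (x a) = ρ a := fun a => Nat.div_add_mod' _ _
  have hlt : ∀ a b, ρ a < ρ b → (σ (e (x a))).val < (σ (e (x b))).val := by
    intro a b hab
    apply he1
    rcases (Nat.div_le_div_right (c := t + 1) hab.le).eq_or_lt with h | h
    · refine Or.inr ⟨Fin.ext h, ?_⟩
      have a1 := Nat.div_add_mod' (ρ a) (t + 1)
      have a2 := Nat.div_add_mod' (ρ b) (t + 1)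
      rw [h] at a1
      show ρ a % (t + 1) < ρ b % (t + 1)
      omega
    · exact Or.inl h
  have hρinj : ∀ a b, ρ a = ρ b → a = b := by
    intro a b hab
    apply hφ; apply Fin.ext
    have := (φ a).2
    have := (φ b).2
    have := hz' a
    have := hz' b
    simp only [ρ] at hab
    split_ifs at hab <;> omega
  have hiff : ∀ a b, (σ (e (x a))).val < (σ (e (x b))).val ↔ ρ a < ρ b := by
    intro a b
    refine ⟨fun h => ?_, hlt a b⟩
    rcases lt_trichotomy (ρ a) (ρ b) with h' | h' | h'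
    · exact h'
    · rw [hρinj a b h'] at h; omega
    · have := hlt b a h'; omega
  refine hσ H hH ⟨fun a => e (x a), fun a b hab => ?_, fun a b => ?_, fun a b c => ?_⟩
  · have a1 := hiff a b
    have a2 := hiff b a
    have hab' : e (x a) = e (x b) := hab
    rw [hab'] at a1 a2
    exact hρinj a b (by omega)
  · rw [hadj, he2, decide_eq_true_iff, hq, hq]
    have e1 : (K (k * (t + 1) + 1) t).Adj (φ a) (φ b) ↔
        far (k * (t + 1) + 1) (t + 1) (ρ a) (ρ b) := by
      show far _ _ _ _ ↔ _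
      have := (φ a).2
      have := (φ b).2
      have := z.2
      have := hz' a
      have := hz' b
      simp only [ρ, far]
      split_ifs <;> omega
    rw [e1, iff_and_self]
    intro hf hx
    have hx' : ρ a / (t + 1) = ρ b / (t + 1) := congrArg Fin.val hx
    have a1 := Nat.div_add_mod' (ρ a) (t + 1)
    have a2 := Nat.div_add_mod' (ρ b) (t + 1)
    have a3 := Nat.mod_lt (ρ a) (Nat.add_one_pos t)
    have a4 := Nat.mod_lt (ρ b) (Nat.add_one_pos t)
    rw [hx'] at a1
    unfold far at hf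
    omega
  · rw [hcyc]
    simp only [cyc, hiff, Equiv.Perm.one_apply]
    have := (φ a).2
    have := (φ b).2
    have := (φ c).2
    have := z.2
    have := hz' a
    have := hz' b
    have := hz' c
    simp only [ρ]
    split_ifs <;> omega

theorem circ_one : CircDescribed fun _ G => G.Colorable 1 := by
  refine ⟨{⟨2, ⊤⟩}, Set.finite_singleton _, fun n G => ⟨fun ⟨C⟩ => ⟨1, ?_⟩, ?_⟩⟩
  · rintro H rfl ⟨φ, -, h, -⟩
    exact C.valid ((h 0 1).mp (by simp)) (Subsingleton.elim _ _)
  · rintro ⟨σ, h⟩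
    refine ⟨SimpleGraph.Coloring.mk (fun _ => 0) fun {u v} huv => ?_⟩
    exfalso
    refine h _ rfl ⟨![u, v], ?_, ?_, ?_⟩
    · intro a b hab
      fin_cases a <;> fin_cases b <;> simp_all [huv.ne, huv.ne']
    · intro a b
      fin_cases a <;> fin_cases b <;> simp [huv, huv.symm]
    · intro a b c
      fin_cases a <;> fin_cases b <;> fin_cases c <;> simp [cyc] <;> omega

theorem lin_two : LinDescribed fun _ G => G.Colorable 2 := by
  classical
  refine ⟨{H | ∃ G : SimpleGraph (Fin 3), G.Adj 0 1 ∧ G.Adj 1 2 ∧ H = ⟨3, G⟩}, ?_,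
    fun n G => ⟨fun ⟨C⟩ => ⟨(Tuple.sort C).symm, ?_⟩, ?_⟩⟩
  · exact (Set.finite_range fun G : SimpleGraph (Fin 3) => (⟨3, G⟩ : Pattern)).subset
      fun H ⟨G, _, _, h⟩ => ⟨G, h.symm⟩
  · rintro H ⟨G', h1, h2, rfl⟩ ⟨φ, -, h, h'⟩
    have m : ∀ a b : Fin 3, a < b → C (φ a) ≤ C (φ b) := fun a b hab => by
      have := Tuple.monotone_sort C ((h' a b).mp hab).le
      simpa using this
    have a1 := m 0 1 (by decide)
    have a2 := m 1 2 (by decide)
    have a3 := C.valid ((h 0 1).mp h1)
    have a4 := C.valid ((h 1 2).mp h2)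
    omega
  · rintro ⟨σ, h⟩
    have key : ∀ u v w, G.Adj u v → G.Adj v w → σ u < σ v → σ v < σ w → False := by
      intro u v w h1 h2 h3 h4
      have hm : StrictMono fun a => σ (![u, v, w] a) := by
        refine Fin.strictMono_iff_lt_succ.mpr fun a => ?_
        fin_cases a
        · exact h3
        · exact h4
      refine h ⟨3, G.comap ![u, v, w]⟩ ⟨_, h1, h2, rfl⟩ ⟨![u, v, w], ?_, fun _ _ => Iff.rfl,
        fun a b => hm.lt_iff_lt.symm⟩
      exact Function.Injective.of_comp (f := σ) hm.injective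
    refine ⟨SimpleGraph.Coloring.mk (fun v => if ∃ u, G.Adj u v ∧ σ u < σ v then 1 else 0)
      fun {u v} huv => ?_⟩
    rcases lt_or_gt_of_ne (σ.injective.ne huv.ne) with h1 | h1
    · rw [if_neg fun ⟨x, a1, a2⟩ => key x u v a1 huv a2 h1, if_pos ⟨u, huv, h1⟩]; decide
    · rw [if_pos ⟨v, huv.symm, h1⟩, if_neg fun ⟨x, a1, a2⟩ => key x v u a1 huv.symm a2 h1]; decide

end Pool.Agent.H29.CircOrd
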