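import Mathlib

set_option autoImplicit false

namespace Pool.Agent.H29.CopPot

open Finset

noncomputable def w (z : ℤ) : ℝ := (1 / 3) ^ z.natAbs

noncomputable def Hs : ℕ → ℤ → ℝ
  | 0, a => w a
  | n + 1, a => (Hs n a + Hs n (a - 1)) / 4

theorem w_lip (z : ℤ) : 0 ≤ w z ∧ w z ≤ 3 * w (z - 1) ∧ w (z - 1) ≤ 3 * w z := by
  unfold w
  have h : (0 : ℝ) < (1 / 3) ^ z.natAbs := by positivity
  have h' : (0 : ℝ) < (1 / 3) ^ (z - 1).natAbs := by positivity
  obtain e | e : (z - 1).natAbs = z.natAbs + 1 ∨ z.natAbs = (z - 1).natAbs + 1 := by omega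
  · rw [e, pow_succ]
    refine ⟨h.le, ?_, ?_⟩ <;> linarith
  · rw [e, pow_succ]
    refine ⟨by positivity, ?_, ?_⟩ <;> linarith

theorem Hs_lip (n : ℕ) : ∀ z : ℤ,
    0 ≤ Hs n z ∧ Hs n z ≤ 3 * Hs n (z - 1) ∧ Hs n (z - 1) ≤ 3 * Hs n z := by
  induction n with
  | zero => exact w_lip
  | succ n ih =>
    intro z
    have := ih z
    have := ih (z - 1)
    simp only [Hs]
    refine ⟨?_, ?_, ?_⟩ <;> linarith [this.1]

theorem Hs_eq (n : ℕ) : ∀ a : ℤ,
    Hs n a * 4 ^ n = ∑ j ∈ range (n + 1), (n.choose j : ℝ) * w (a - j) := by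
  induction n with
  | zero => simp [Hs]
  | succ n ih =>
    intro a
    rw [sum_choose_succ_mul (fun i _ => w (a - i)) n, ← ih, Hs, pow_succ]
    have := ih (a - 1)
    simp only [Nat.cast_add, Nat.cast_one, ← sub_sub, sub_right_comm a _ 1, ← this]
    ring

theorem sum_w (n : ℕ) (a : ℤ) : ∑ j ∈ range n, w (a - j) ≤ 2 := by
  let W : ℤ → ℝ := fun z => if z ≤ 0 then w z / 2 else 2 - 3 / 2 * w z
  have h1 : ∀ z, w z ≤ W (z + 1) - W z := fun z => by
    simp only [W, w]
    rcases lt_trichotomy z 0 with h | rfl | h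
    · rw [if_pos (by omega), if_pos h.le, show z.natAbs = (z + 1).natAbs + 1 by omega, pow_succ]
      linarith
    · norm_num
    · rw [if_neg (by omega), if_neg (by omega), show (z + 1).natAbs = z.natAbs + 1 by omega,
        pow_succ]
      linarith
  have h2 : ∀ z, 0 ≤ W z ∧ W z ≤ 2 := fun z => by
    have k1 := (w_lip z).1
    have k2 : w z ≤ 1 := pow_le_one₀ (by norm_num) (by norm_num)
    simp only [W]
    split_ifs <;> constructor <;> linarith
  have h3 : ∑ j ∈ range n, w (a - j) ≤ W (a + 1) - W (a + 1 - n) := by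
    induction n with
    | zero => simp
    | succ n ih =>
      have := h1 (a - n)
      rw [sum_range_succ, show a + 1 - ((n + 1 : ℕ) : ℤ) = a - n by push_cast; ring]
      rw [show a - n + 1 = a + 1 - n by ring] at this
      linarith
  linarith [(h2 (a + 1)).2, (h2 (a + 1 - n)).1]

theorem cb (k : ℕ) : (k.centralBinom : ℝ) ^ 2 * (2 * k + 1) ≤ 16 ^ k := by
  induction k with
  | zero => simp
  | succ k ih =>
    have h : ((k : ℝ) + 1) * (k + 1).centralBinom = 2 * (2 * k + 1) * k.centralBinom := by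
      exact_mod_cast Nat.succ_mul_centralBinom_succ k
    have h0 : (0 : ℝ) < ((k : ℝ) + 1) ^ 2 := by positivity
    refine le_of_mul_le_mul_left ?_ h0
    have h1 : ((k : ℝ) + 1) ^ 2 * (((k + 1).centralBinom : ℝ) ^ 2 * (2 * ((k + 1 : ℕ) : ℝ) + 1)) =
        (k.centralBinom : ℝ) ^ 2 * (2 * k + 1) * (4 * (2 * k + 1) * (2 * k + 3)) := by
      rw [← mul_assoc, ← mul_pow, h]
      push_cast
      ring
    rw [h1]
    have h2 : (0 : ℝ) ≤ k := by positivity
    calc _ ≤ (16 : ℝ) ^ k * (4 * (2 * k + 1) * (2 * k + 3)) := by gcongr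
      _ ≤ 16 ^ k * (16 * (k + 1) ^ 2) := mul_le_mul_of_nonneg_left (by nlinarith) (by positivity)
      _ = _ := by ring

theorem small {ε : ℝ} (hε : 0 < ε) : ∃ N, ∀ n, N ≤ n → ∀ a, Hs n a ≤ ε * (1 / 2) ^ n := by
  obtain ⟨k, hk⟩ := exists_nat_gt (4 / ε ^ 2)
  refine ⟨2 * k, fun n hn => ?_⟩
  induction n, hn using Nat.le_induction with
  | base =>
    intro a
    have h1 : Hs (2 * k) a * 4 ^ (2 * k) ≤ k.centralBinom * 2 := by
      rw [Hs_eq]
      refine (sum_le_sum (g := fun j : ℕ => (k.centralBinom : ℝ) * w (a - j)) fun j _ =>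
        mul_le_mul_of_nonneg_right (by exact_mod_cast Nat.choose_le_centralBinom j k)
          (w_lip _).1).trans ?_
      rw [← mul_sum]
      exact mul_le_mul_of_nonneg_left (sum_w _ _) (by positivity)
    have h2 : (k.centralBinom : ℝ) * 2 ≤ ε * 4 ^ k := by
      refine le_of_sq_le_sq ?_ (by positivity)
      have h3 := cb k
      rw [div_lt_iff₀ (by positivity)] at hk
      rw [mul_pow, mul_pow, ← pow_mul, mul_comm k 2, pow_mul]
      have h4 : (0 : ℝ) ≤ k := by positivity
      have h5 : (0 : ℝ) ≤ (k.centralBinom : ℝ) ^ 2 := by positivity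
      norm_num
      nlinarith [mul_le_mul_of_nonneg_left h3 (sq_nonneg ε), sq_nonneg ε]
    refine le_of_mul_le_mul_right ((h1.trans h2).trans_eq ?_) (by positivity)
    rw [mul_assoc, ← mul_pow, pow_mul]
    norm_num
  | succ n _ ih =>
    intro a
    rw [Hs, pow_succ]
    linarith [ih a, ih (a - 1)]

/-- the potential of a synchronised cop -/
noncomputable def H (a b : ℕ) : ℝ := Hs (a + b) a

theorem H_nonneg (a b : ℕ) : 0 ≤ H a b := (Hs_lip _ _).1

theorem H_l (a b : ℕ) : H (a + 1) b = (Hs (a + b) (a + 1) + H a b) / 4 := by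
  rw [H, Nat.add_right_comm, Hs]
  simp [H]

theorem H_r (a b : ℕ) : H a (b + 1) = (H a b + Hs (a + b) (a - 1)) / 4 := rfl

theorem H_anti {a b a' b' : ℕ} (h : a ≤ a') (h' : b ≤ b') : H a' b' ≤ H a b := by
  have h1 : ∀ a b, H (a + 1) b ≤ H a b := fun a b => by
    have := (Hs_lip (a + b) (a + 1)).2.1
    rw [add_sub_cancel_right, ← H] at this
    linarith [H_l a b]
  have h2 : ∀ a b, H a (b + 1) ≤ H a b := fun a b => by
    have := (Hs_lip (a + b) a).2.2
    rw [← H] at this
    linarith [H_r a b]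
  exact (antitone_nat_of_succ_le (f := fun a => H a b') (fun a => h1 a b') h).trans
    (antitone_nat_of_succ_le (f := fun b => H a b) (h2 a) h')

theorem H_zero : H 0 0 = 1 := by simp [H, Hs, w]

theorem H_avg (a b : ℕ) : H (a - 1) b + H a (b - 1) ≤ 4 * H a b := by
  rcases a with _ | a <;> rcases b with _ | b
  · norm_num [H_zero]
  · have := (Hs_lip (0 + b) (0 : ℕ)).2.1
    have h := H_r 0 b
    rw [← H] at this
    simp only [Nat.zero_sub, Nat.add_sub_cancel]
    generalize Hs (0 + b) _ = x at this h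
    linarith
  · have := (Hs_lip (a + 0) (a + 1)).2.2
    rw [add_sub_cancel_right, ← H] at this
    simp only [Nat.zero_sub, Nat.add_sub_cancel]
    linarith [H_l a 0]
  · simp only [Nat.add_sub_cancel]
    rw [H_l a (b + 1), H.eq_1 (a + 1) b, Nat.add_right_comm, Nat.add_assoc]
    push_cast
    linarith

theorem ham_update {D : ℕ} (u r : Fin D → Fin D) (t c : Fin D) (h : u t ≠ c) :
    hammingDist u (Function.update r t c) = hammingDist u r + if u t = r t then 1 else 0 := by
  simp only [hammingDist, card_filter]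
  rw [← add_sum_erase _ _ (mem_univ t), ← add_sum_erase _ _ (mem_univ t),
    sum_congr rfl fun i hi => by rw [Function.update_of_ne (ne_of_mem_erase hi)]]
  by_cases k : u t = r t
  · have : r t ≠ c := k ▸ h
    simp [this, k, add_comm]
  · simp [h, k]

theorem fresh {D : ℕ} (S : Finset (Fin D)) (h : #S < D) : ∃ c, c ∉ S := by
  by_contra hn
  push Not at hn
  rw [eq_univ_of_forall hn] at h
  simp at h

theorem run {D : ℕ} (S : Finset (Fin D → Fin D)) (h : #S + 1 < D) (r : Fin D → Fin D) :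
    ∃ r', hammingDist r r' = 1 ∧ ∀ u ∈ S, hammingDist u r ≤ hammingDist u r' ∧
      (hammingDist u r ≤ 1 → hammingDist u r' = hammingDist u r + 1) := by
  obtain ⟨t, ht⟩ := fresh ((S.filter fun u => hammingDist u r ≤ 1).biUnion
    fun u => {i | u i ≠ r i}) (by
      refine (card_biUnion_le_card_mul _ _ 1 fun u hu => (mem_filter.mp hu).2).trans_lt ?_
      rw [mul_one]
      exact (card_filter_le _ _).trans_lt (by omega))
  obtain ⟨c, hc⟩ := fresh ((insert r S).image fun u => u t)
    (card_image_le.trans_lt ((card_insert_le _ _).trans_lt h))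
  have hc' : ∀ u ∈ insert r S, u t ≠ c := fun u hu e => hc (mem_image.mpr ⟨u, hu, e⟩)
  refine ⟨Function.update r t c, by simp [ham_update r r t c (hc' r (by simp))], fun u hu => ?_⟩
  rw [ham_update u r t c (hc' u (mem_insert_of_mem hu))]
  refine ⟨Nat.le_add_right _ _, fun k => ?_⟩
  rw [if_pos]
  by_contra k'
  exact ht (mem_biUnion.mpr ⟨u, mem_filter.mpr ⟨hu, k⟩, by simpa using k'⟩)

theorem far {D : ℕ} (S : Finset (Fin D → Fin D)) (h : #S < D) :
    ∃ r, ∀ u ∈ S, hammingDist u r = D := by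
  choose r hr using fun t => fresh (S.image fun u => u t) (card_image_le.trans_lt h)
  refine ⟨r, fun u hu => ?_⟩
  rw [hammingDist, filter_true_of_mem (p := fun i => u i ≠ r i)
    fun t _ e => hr t (mem_image.mpr ⟨u, hu, e⟩)]
  simp

end Pool.Agent.H29.CopPot
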