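import Mathlib
import Pool.Agent.H29.CopPot

set_option autoImplicit false

namespace Pool.Agent.H29.CopPot

open Finset

theorem H_symm (a b : ℕ) : H a b = H b a := by
  have key : ∀ (n : ℕ) (z : ℤ), Hs n (n - z) = Hs n z := fun n => by
    induction n with
    | zero => simp [Hs, w]
    | succ n ih =>
      intro z
      rw [Hs, Hs, ← ih z, ← ih (z - 1), add_comm]
      push_cast
      congr 3 <;> ring
  rw [H, H, ← key, add_comm]
  congr 1
  push_cast
  ring

theorem H_le (a b : ℕ) : H a b ≤ 1 := H_zero ▸ H_anti a.zero_le b.zero_le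

def al (T i d : ℕ) : ℕ := min (max (T - i) d) (T + i)

noncomputable def Psi (T i d j e : ℕ) : ℝ :=
  (1 / 2) ^ (T + i + al T j e) + (1 / 2) ^ (T + j + al T i d)

/-- value of a cop when the robber is to move -/
noncomputable def F (K : ℝ) (T i d j e : ℕ) : ℝ :=
  (if i ≠ 0 ∧ j ≠ 0 ∧ d = 0 ∧ e = 0 then H (T - i) (T - j) else 0) + K * Psi T i d j e

noncomputable def U (T i d j e : ℕ) : ℝ :=
  if i ≠ 0 ∧ j ≠ 0 ∧ d = 1 ∧ e = 0 then H (T - i - 1) (T - j) / 2 else 0

/-- value of a cop when the cops are to move -/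
noncomputable def Val (K : ℝ) (T i d j e : ℕ) : ℝ :=
  (if d = 0 ∧ e = 0 then 1 else 0) + U T i d j e + U T j e i d + K * Psi T i d j e

theorem Psi_symm (T i d j e : ℕ) : Psi T i d j e = Psi T j e i d := add_comm _ _

theorem F_symm (K : ℝ) (T i d j e : ℕ) : F K T i d j e = F K T j e i d := by
  rw [F, F, Psi_symm, H_symm]
  congr 2
  exact propext (by tauto)

theorem Val_symm (K : ℝ) (T i d j e : ℕ) : Val K T i d j e = Val K T j e i d := by
  rw [Val, Val, Psi_symm, add_right_comm _ (U T i d j e)]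
  simp only [and_comm]

theorem U_nonneg (T i d j e : ℕ) : 0 ≤ U T i d j e := by
  have := H_nonneg (T - i - 1) (T - j)
  unfold U
  positivity

theorem Psi_nonneg (T i d j e : ℕ) : 0 ≤ Psi T i d j e := by
  unfold Psi
  positivity

theorem F_nonneg {K : ℝ} (hK : 0 ≤ K) (T i d j e : ℕ) : 0 ≤ F K T i d j e := by
  have := H_nonneg (T - i) (T - j)
  have := Psi_nonneg T i d j e
  unfold F
  positivity

theorem F_le_Val (K : ℝ) (T i d j e : ℕ) : F K T i d j e ≤ Val K T i d j e := by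
  have := H_le (T - i) (T - j)
  have := U_nonneg T i d j e
  have := U_nonneg T j e i d
  unfold F Val
  split_ifs with h h' <;> first | linarith | tauto

theorem F_top {K : ℝ} (hK : 0 ≤ K) {T : ℕ} (hT : T ≠ 0) : 1 ≤ F K T T 0 T 0 := by
  have := mul_nonneg hK (Psi_nonneg T T 0 T 0)
  simpa [F, hT, H_zero]

theorem half_le {a b : ℕ} (h : a ≤ b + 1) : (1 / 2 : ℝ) ^ b ≤ 2 * (1 / 2) ^ a := by
  have := pow_le_pow_of_le_one (a := (1 / 2 : ℝ)) (by norm_num) (by norm_num) h
  rw [pow_succ] at this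
  linarith

theorem move {ε : ℝ} (hε : 0 ≤ ε) {T i i' d d' j e : ℕ}
    (hs : ∀ a b, T - 1 ≤ a + b → H a b ≤ ε * (1 / 2) ^ (a + b)) (hi : i' ≤ T) (hj : j ≤ T)
    (h1 : i ≤ i' + 1) (h2 : i' ≤ i + 1) (h : d ≤ d' + 1 ∨ i = 0 ∨ i' = 0) :
    F (2 * ε) T i' d' j e ≤ 2 * Val (2 * ε) T i d j e := by
  have u1 := U_nonneg T i d j e
  have u2 := U_nonneg T j e i d
  have p1 : Psi T i' d' j e ≤ 2 * Psi T i d j e := by
    rw [Psi, Psi, mul_add]
    exact add_le_add (half_le (by omega)) (half_le (by unfold al; omega))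
  have p2 := mul_le_mul_of_nonneg_left p1 hε
  unfold F Val
  split_ifs with k k' k'
  · linarith [H_le (T - i') (T - j)]
  · obtain ⟨k1, k2, rfl, rfl⟩ := k
    by_cases k3 : i = 0
    · obtain rfl : i' = 1 := by omega
      have := hs (T - 1) (T - j) (by omega)
      simp only [Psi, k3, show al T j 0 = T - j by unfold al; omega,
        show al T 0 d = T - 1 + 1 by unfold al; omega, show al T 1 0 = T - 1 by unfold al; omega,
        show T + 0 + (T - j) = T - 1 + (T - j) + 1 by omega,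
        show T + 1 + (T - j) = T - 1 + (T - j) + 1 + 1 by omega, ← add_assoc, pow_succ] at *
      have : 0 ≤ ε * (1 / 2) ^ (T - 1 + (T - j)) := by positivity
      linarith
    · rw [U, if_pos (by omega)]
      linarith [H_anti (show T - i - 1 ≤ T - i' by omega) (le_refl (T - j))]
  · linarith
  · linarith

theorem Psi_mono {T i d d' j e : ℕ} (h : d ≤ d') : Psi T i d' j e ≤ Psi T i d j e :=
  add_le_add le_rfl (pow_le_pow_of_le_one (by norm_num) (by norm_num) (by unfold al; omega))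

theorem Val_run {K : ℝ} (hK : 0 ≤ K) {T i d d' j e : ℕ} (h : d ≤ d') (h' : d ≤ 1 → d' = d + 1) :
    Val K T i d' j e ≤ (if i ≠ 0 ∧ j ≠ 0 ∧ d = 0 ∧ e = 0 then H (T - i - 1) (T - j) / 2 else 0)
      + K * Psi T i d j e := by
  have := mul_le_mul_of_nonneg_left (Psi_mono (T := T) (i := i) (j := j) (e := e) h) hK
  rw [Val, U, U, if_neg (by omega), if_neg (c := j ≠ 0 ∧ _) (by omega),
    if_congr (Q := i ≠ 0 ∧ j ≠ 0 ∧ d = 0 ∧ e = 0) (by omega) rfl rfl]
  linarith

theorem Val_avg {K : ℝ} (hK : 0 ≤ K) {T i d d' j e e' : ℕ} (h : d ≤ d') (h' : d ≤ 1 → d' = d + 1)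
    (k : e ≤ e') (k' : e ≤ 1 → e' = e + 1) :
    Val K T i d' j e + Val K T i d j e' ≤ 2 * F K T i d j e := by
  have a := Val_run hK (T := T) (i := i) (j := j) (e := e) h h'
  have b := Val_run hK (T := T) (i := j) (j := i) (e := d) k k'
  rw [Val_symm, Psi_symm, H_symm,
    if_congr (Q := i ≠ 0 ∧ j ≠ 0 ∧ d = 0 ∧ e = 0) (by omega) rfl rfl] at b
  have := H_avg (T - i) (T - j)
  unfold F
  split_ifs at * <;> linarith

theorem Val_far {K : ℝ} (hK : 0 ≤ K) {T i j D : ℕ} (hi : i ≤ T) (hj : j ≤ T) (h : 2 * T + 2 ≤ D) :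
    Val K T i D j D ≤ 2 * K * (1 / 4) ^ T := by
  have a : ∀ i j, i ≤ T → j ≤ T → (1 / 2 : ℝ) ^ (T + i + al T j D) ≤ (1 / 4) ^ T := fun i j _ _ =>
    (pow_le_pow_of_le_one (by norm_num) (by norm_num)
      (show 2 * T ≤ _ by unfold al; omega)).trans_eq (by rw [pow_mul]; norm_num)
  have := mul_le_mul_of_nonneg_left (add_le_add (a i j hi hj) (a j i hj hi)) hK
  rw [Val, U, U, if_neg (by omega), if_neg (by omega), if_neg (by omega), Psi]
  linarith

end Pool.Agent.H29.CopPot
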