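import Mathlib

set_option autoImplicit false

namespace Pool.Agent.H29.DC

open Finset

noncomputable def sg (a : ℤ) : ℝ := if 0 < a then 1 else if a < 0 then -1 else 0

theorem sg_sq (a : ℤ) : sg a ^ 2 ≤ 1 := by unfold sg; split_ifs <;> norm_num

theorem sg_abs (a : ℤ) : |sg a| ≤ 1 := by unfold sg; split_ifs <;> norm_num

variable (I : Finset ℤ)

noncomputable def pair (K : ℤ → ℤ → ℝ) (a b : ℤ → ℝ) : ℝ :=
  ∑ u ∈ I, ∑ v ∈ I, if u < v then K u v * a u * b v else 0

noncomputable def lin (K : ℤ → ℤ → ℝ) (x y : ℤ → ℝ) : ℝ :=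
  ∑ v ∈ I, x v * ∑ u ∈ I, K u v * y u * sg (u - v)

noncomputable def quad (K : ℤ → ℤ → ℝ) (x : ℤ → ℝ) : ℝ := ∑ u ∈ I, ∑ v ∈ I, K u v * x u * x v

theorem quad_eq (K : ℤ → ℤ → ℝ) (hK : ∀ u v, K u v = K v u) (x : ℤ → ℝ) :
    quad I K x = 2 * pair I K x x + ∑ v ∈ I, K v v * x v ^ 2 := by
  have h1 : pair I K x x = ∑ u ∈ I, ∑ v ∈ I, if v < u then K u v * x u * x v else 0 := by
    rw [pair, sum_comm]
    refine sum_congr rfl fun u _ => sum_congr rfl fun v _ => ?_
    rw [hK v u]; split_ifs <;> ring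
  have h2 : ∑ v ∈ I, K v v * x v ^ 2 =
      ∑ u ∈ I, ∑ v ∈ I, if u = v then K u v * x u * x v else 0 := by
    refine sum_congr rfl fun u hu => ?_
    rw [sum_ite_eq, if_pos hu]; ring
  rw [two_mul, h2]
  nth_rewrite 1 [h1]
  rw [pair, quad, ← sum_add_distrib, ← sum_add_distrib]
  refine sum_congr rfl fun u _ => ?_
  rw [← sum_add_distrib, ← sum_add_distrib]
  refine sum_congr rfl fun v _ => ?_
  rcases lt_trichotomy u v with h | h | h
  · simp [h, h.ne, h.not_gt]
  · simp [h]
  · simp [h, h.ne', h.not_gt]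

theorem lin_eq (K : ℤ → ℤ → ℝ) (hK : ∀ u v, K u v = K v u) (x y : ℤ → ℝ) :
    lin I K x y = pair I K x y - pair I K y x := by
  rw [lin, pair, pair, sum_comm (f := fun u v => if u < v then K u v * y u * x v else 0),
    ← sum_sub_distrib]
  refine sum_congr rfl fun v _ => ?_
  rw [mul_sum, ← sum_sub_distrib]
  refine sum_congr rfl fun u _ => ?_
  rw [hK v u, sg]
  rcases lt_trichotomy u v with h | h | h
  · simp [h, h.not_gt]; ring
  · simp [h]
  · simp [h, h.not_gt]; ring

theorem cut_eq (K : ℤ → ℤ → ℝ) (hK : ∀ u v, K u v = K v u) (x y : ℤ → ℝ) :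
    pair I K (y + x) (y - x) = pair I K y y + (lin I K x y - quad I K x / 2) +
      (∑ v ∈ I, K v v * x v ^ 2) / 2 := by
  rw [lin_eq I K hK, quad_eq I K hK]
  have : pair I K (y + x) (y - x) =
      pair I K y y + pair I K x y - pair I K y x - pair I K x x := by
    simp only [pair, ← sum_add_distrib, ← sum_sub_distrib]
    refine sum_congr rfl fun u _ => sum_congr rfl fun v _ => ?_
    simp only [Pi.add_apply, Pi.sub_apply]
    split_ifs <;> ring
  rw [this]; ring

noncomputable def ind (g : ℤ → ℤ) (u v : ℤ) : ℝ := if g u = g v then 1 else 0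

theorem absorb (g : ℤ → ℤ) (x : ℤ → ℝ) (E : ℤ → ℝ) :
    ∑ v ∈ I, x v * E (g v) - quad I (ind g) x / 2 ≤ (∑ A ∈ I.image g, E A ^ 2) / 2 := by
  set s : ℤ → ℝ := fun A => ∑ v ∈ I with g v = A, x v with hs
  have h : ∀ F : ℤ → ℝ, ∑ v ∈ I, x v * F (g v) = ∑ A ∈ I.image g, s A * F A := fun F => by
    rw [← sum_fiberwise_of_maps_to (g := g) (t := I.image g) (fun v hv => mem_image_of_mem _ hv)]
    refine sum_congr rfl fun A _ => ?_
    rw [hs, sum_mul]
    refine sum_congr rfl fun v hv => ?_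
    rw [(mem_filter.mp hv).2]
  have h2 : quad I (ind g) x = ∑ A ∈ I.image g, s A * s A := by
    rw [← h s, quad]
    refine sum_congr rfl fun u _ => ?_
    rw [hs, mul_sum, sum_filter]
    refine sum_congr rfl fun v _ => ?_
    simp only [ind, eq_comm]
    split_ifs <;> simp
  rw [h, h2, sum_div, sum_div, ← sum_sub_distrib]
  exact sum_le_sum fun A _ => by nlinarith [sq_nonneg (s A - E A)]

theorem round (Φ : (ℤ → ℝ) → ℝ) (B : ℝ)
    (h : ∀ y v s, 0 ≤ s → s ≤ 1 → (1 - s) * Φ (Function.update y v 0) +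
      s * Φ (Function.update y v 1) ≤ Φ (Function.update y v s) + B)
    (ρ : ℤ → ℝ) (h0 : ∀ v, 0 ≤ ρ v) (h1 : ∀ v, ρ v ≤ 1) (J : Finset ℤ) :
    ∃ y : ℤ → ℝ, (∀ v ∈ J, y v = 0 ∨ y v = 1) ∧ (∀ v, v ∉ J ∨ ρ v = 1 → y v = ρ v) ∧
      Φ y ≤ Φ ρ + B * J.card := by
  induction J using Finset.induction_on with
  | empty => exact ⟨ρ, by simp, by simp, by simp⟩
  | insert a J ha ih =>
    obtain ⟨y, y1, y2, y3⟩ := ih
    have e : y a = ρ a := y2 a (Or.inl ha)
    have key := h y a (ρ a) (h0 a) (h1 a)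
    rw [← e, Function.update_eq_self, e] at key
    obtain ⟨c, hc, hc1, hc2⟩ : ∃ c : ℝ, (c = 0 ∨ c = 1) ∧ (ρ a = 1 → c = 1) ∧
        Φ (Function.update y a c) ≤ Φ y + B := by
      by_cases k : Φ (Function.update y a 1) ≤ Φ y + B
      · exact ⟨1, Or.inr rfl, fun _ => rfl, k⟩
      · refine ⟨0, Or.inl rfl, fun h' => ?_, ?_⟩
        · rw [h'] at key; exact absurd (by linarith) k
        · by_contra k'
          push Not at k k'
          have := h0 a
          have := h1 a
          rcases eq_or_lt_of_le (h0 a) with z | z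
          · rw [← z] at key; linarith
          · nlinarith
    refine ⟨Function.update y a c, fun v hv => ?_, fun v hv => ?_, ?_⟩
    · by_cases k : v = a
      · subst k; simpa using hc
      · rw [Function.update_of_ne k]; exact y1 v ((mem_insert.mp hv).resolve_left k)
    · by_cases k : v = a
      · subst k
        have := hv.resolve_left (by simp)
        rw [Function.update_self, hc1 this, this]
      · rw [Function.update_of_ne k]
        exact y2 v (hv.imp_left fun h h' => h (mem_insert_of_mem h'))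
    · rw [card_insert_of_notMem ha]; push_cast; linarith

theorem sq_round (c y : ℤ → ℝ) (v : ℤ) (s : ℝ) (h1 : s ≤ 1) :
    (1 - s) * (∑ u ∈ I, Function.update y v 0 u * c u) ^ 2 +
      s * (∑ u ∈ I, Function.update y v 1 u * c u) ^ 2 ≤
      (∑ u ∈ I, Function.update y v s u * c u) ^ 2 + c v ^ 2 := by
  have h : ∀ r, ∑ u ∈ I, Function.update y v r u * c u =
      ∑ u ∈ I, Function.update y v 0 u * c u + r * if v ∈ I then c v else 0 := fun r => by
    rw [← sum_ite_eq I v c, mul_sum, ← sum_add_distrib]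
    refine sum_congr rfl fun u _ => ?_
    by_cases k : u = v
    · subst k; simp
    · simp [Function.update_of_ne k, Ne.symm k]
  rw [h 1, h s]
  generalize ∑ u ∈ I, Function.update y v 0 u * c u = α
  split_ifs
  · nlinarith [sq_nonneg (c v), sq_nonneg (s * c v),
      mul_nonneg (sub_nonneg.mpr h1) (sq_nonneg (c v))]
  · nlinarith [sq_nonneg (c v)]

end Pool.Agent.H29.DC
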