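import Pool.Agent.H29.DC1

set_option autoImplicit false

namespace Pool.Agent.H29.DC

open Finset

def st (e : ℤ) (q : ℕ) (A : ℤ) : ℤ := A / q - e * (A % q)

theorem st_iff {e : ℤ} {q : ℕ} (hq : 0 < q) (A a : ℤ) :
    st e q A = a ↔ ∃ i ∈ range q, A = q * a + (e * q + 1) * i := by
  have hq' : (0 : ℤ) < q := by exact_mod_cast hq
  have h0 := Int.emod_nonneg A hq'.ne'
  have h1 := Int.emod_lt_of_pos A hq'
  have h2 := Int.mul_ediv_add_emod A q
  constructor
  · rintro rfl
    refine ⟨(A % q).toNat, mem_range.mpr (by omega), ?_⟩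
    rw [Int.toNat_of_nonneg h0, st]
    linear_combination -h2
  · rintro ⟨i, hi, h⟩
    have hi' : (i : ℤ) < q := by exact_mod_cast mem_range.mp hi
    have := (Int.ediv_emod_unique (a := A) (r := i) (q := a + e * i) hq').mpr
      ⟨by rw [h]; ring, by positivity, hi'⟩
    rw [st, this.1, this.2]; ring

theorem st_self {e : ℤ} {q : ℕ} (A : ℤ) : A = q * st e q A + (e * q + 1) * (A % q) := by
  rw [st]; linear_combination -Int.mul_ediv_add_emod A q

def Good (Q q : ℕ) (g : ℤ → ℤ) : Prop :=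
  (∀ v, 3 * |v - Q * g v| ≤ Q * q) ∧ ∀ A, ∃ F : Finset ℤ, (∀ u, u ∈ F ↔ g u = A) ∧ F.card = Q

theorem good_id (q : ℕ) : Good 1 q id :=
  ⟨fun v => by simp, fun A => ⟨{A}, by simp, by simp⟩⟩

theorem child_inj {e : ℤ} (he : e = 1 ∨ e = -1) {q : ℕ} (hq : 4 ≤ q) (c : ℤ) (i j : ℕ)
    (h : c + (e * q + 1) * i = c + (e * q + 1) * j) : i = j := by
  have : (e * q + 1) ≠ 0 := by rcases he with rfl | rfl <;> omega
  exact_mod_cast mul_left_cancel₀ this (add_left_cancel h)

theorem good_step {e : ℤ} (he : e = 1 ∨ e = -1) {Q q : ℕ} (hq : 4 ≤ q) {g : ℤ → ℤ}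
    (h : Good Q q g) : Good (Q * q) (5 * q) (st e q ∘ g) := by
  have hq' : (4 : ℤ) ≤ q := by exact_mod_cast hq
  refine ⟨fun v => ?_, fun a => ?_⟩
  · have h1 := h.1 v
    obtain ⟨i, hi, h2⟩ := (st_iff (e := e) (by omega : 0 < q) (g v) _).mp rfl
    have hi' : (i : ℤ) + 1 ≤ q := by exact_mod_cast mem_range.mp hi
    have h3 : |(e * q + 1) * (i : ℤ)| ≤ q * q := by
      rw [abs_le]
      rcases he with rfl | rfl <;> constructor <;> nlinarith
    have h4 : v - ((Q * q : ℕ) : ℤ) * (st e q ∘ g) v =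
        (v - Q * g v) + Q * ((e * q + 1) * (i : ℤ)) := by
      simp only [Function.comp]
      push_cast
      linear_combination (Q : ℤ) * h2
    have h5 := abs_add_le (v - Q * g v) (Q * ((e * q + 1) * (i : ℤ)))
    rw [abs_mul, abs_of_nonneg (by positivity : (0 : ℤ) ≤ Q)] at h5
    rw [h4]
    have h6 := mul_le_mul_of_nonneg_left h3 (by positivity : (0 : ℤ) ≤ Q)
    have h7 : (0 : ℤ) ≤ Q * q * (q - 1) := mul_nonneg (by positivity) (by omega)
    push_cast
    nlinarith
  · choose F hF hc using h.2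
    refine ⟨(range q).biUnion fun i => F (q * a + (e * q + 1) * i), fun u => ?_, ?_⟩
    · simp only [mem_biUnion, hF, Function.comp, st_iff (by omega : 0 < q)]
    · rw [card_biUnion]
      · simp [hc, mul_comm]
      · intro i _ j _ hij
        refine disjoint_left.mpr fun u hu hu' => hij ?_
        rw [hF] at hu hu'
        exact child_inj he hq _ _ _ (hu.symm.trans hu')

theorem compat {e : ℤ} (he : e = 1 ∨ e = -1) {Q q : ℕ} (hq : 4 ≤ q) {g : ℤ → ℤ}
    (h : Good Q q g) (u v : ℤ) (h1 : st e q (g u) = st e q (g v)) (h2 : g v < g u) : v < u := by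
  have hq' : (4 : ℤ) ≤ q := by exact_mod_cast hq
  obtain ⟨i, -, hi⟩ := (st_iff (by omega : 0 < q) (g u) _).mp h1
  obtain ⟨j, -, hj⟩ := (st_iff (e := e) (by omega : 0 < q) (g v) _).mp rfl
  have h3 : g u - g v = (e * q + 1) * ((i : ℤ) - j) := by linear_combination hi - hj
  have h4 : (q : ℤ) - 1 ≤ g u - g v := by
    rcases he with rfl | rfl
    · have : (1 : ℤ) ≤ i - j := by by_contra k; nlinarith
      nlinarith
    · have : (1 : ℤ) ≤ j - i := by by_contra k; nlinarith
      nlinarith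
  have a1 := h.1 u
  have a2 := h.1 v
  obtain ⟨F, hF, hc⟩ := h.2 (g u)
  have hQ : (1 : ℤ) ≤ Q := by
    have : 0 < F.card := card_pos.mpr ⟨u, (hF u).mpr rfl⟩
    omega
  have b1 := neg_abs_le (u - Q * g u)
  have b2 := le_abs_self (v - Q * g v)
  nlinarith

noncomputable def co (q : ℕ) (g : ℤ → ℤ) (A u : ℤ) : ℝ :=
  (ind (st 1 q) (g u) A + ind (st (-1) q) (g u) A) * sg (g u - A)

variable (I : Finset ℤ)

noncomputable def err (q : ℕ) (g : ℤ → ℤ) (y : ℤ → ℝ) (A : ℤ) : ℝ := ∑ u ∈ I, y u * co q g A u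

theorem lin_step {Q q : ℕ} (hq : 4 ≤ q) {g : ℤ → ℤ} (h : Good Q q g) (x y : ℤ → ℝ) :
    lin I (ind (st 1 q ∘ g)) x y + lin I (ind (st (-1) q ∘ g)) x y =
      2 * lin I (ind g) x y + ∑ v ∈ I, x v * err I q g y (g v) := by
  have k : ∀ e : ℤ, e = 1 ∨ e = -1 → ∀ u v, ind (st e q ∘ g) u v * sg (u - v) =
      ind g u v * sg (u - v) + ind (st e q) (g u) (g v) * sg (g u - g v) := fun e he u v => by
    simp only [ind, Function.comp]
    by_cases a : g u = g v
    · simp [a, sg]
    by_cases b : st e q (g u) = st e q (g v)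
    · rcases lt_or_gt_of_ne a with c | c
      · have := compat he hq h v u b.symm c
        simp [a, b, sg, c, this, c.not_gt, this.not_gt]
      · have := compat he hq h u v b c
        simp [a, b, sg, c, this]
    · simp [a, b]
  simp only [lin, err, co, mul_sum, ← sum_add_distrib]
  refine sum_congr rfl fun v _ => sum_congr rfl fun u _ => ?_
  linear_combination x v * y u * (k 1 (by simp) u v + k (-1) (by simp) u v)

noncomputable def W : ℕ → ℕ → (ℤ → ℤ) → ℤ → ℤ → ℝ
  | 0, _, g => ind g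
  | d + 1, q, g => ind g + W d (5 * q) (st 1 q ∘ g) + W d (5 * q) (st (-1) q ∘ g)

noncomputable def cost : ℕ → ℕ → (ℤ → ℤ) → (ℤ → ℝ) → ℝ
  | 0, _, _, _ => 0
  | d + 1, q, g, y => 4 ^ (d + 1) * (∑ A ∈ I.image g, err I q g y A ^ 2) / 2 +
      cost d (5 * q) (st 1 q ∘ g) y + cost d (5 * q) (st (-1) q ∘ g) y

theorem W_symm (d : ℕ) : ∀ q g u v, W d q g u v = W d q g v u := by
  induction d with
  | zero => intro q g u v; simp [W, ind, eq_comm]
  | succ d ih => intro q g u v; simp [W, ind, eq_comm, ih _ _ u v]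

theorem W_diag (d : ℕ) : ∀ q g v, W d q g v v = 2 ^ (d + 1) - 1 := by
  induction d with
  | zero => intro q g v; norm_num [W, ind]
  | succ d ih => intro q g v; simp [W, ind, ih]; ring

theorem W_nat (d : ℕ) : ∀ q g u v, ∃ k : ℕ, W d q g u v = k := by
  have h : ∀ g u v, ∃ k : ℕ, ind g u v = k := fun g u v => by
    unfold ind; split_ifs; exacts [⟨1, by simp⟩, ⟨0, by simp⟩]
  induction d with
  | zero => exact fun q => h
  | succ d ih =>
    intro q g u v
    obtain ⟨a, ha⟩ := h g u v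
    obtain ⟨b, hb⟩ := ih (5 * q) (st 1 q ∘ g) u v
    obtain ⟨c, hc⟩ := ih (5 * q) (st (-1) q ∘ g) u v
    exact ⟨a + b + c, by simp [W, ha, hb, hc]⟩

theorem W_top (d : ℕ) : ∀ Q q g, 4 ≤ q → Good Q q g → ∃ Q' g', Q * q ^ d ≤ Q' ∧
    Q' ≤ Q * (5 ^ d * q) ^ d ∧ Good Q' (5 ^ d * q) g' ∧ ∀ u v, ind g' u v ≤ W d q g u v := by
  induction d with
  | zero => exact fun Q q g _ h => ⟨Q, g, by simp, by simp, by simpa using h, fun _ _ => le_rfl⟩
  | succ d ih =>
    intro Q q g hq h
    obtain ⟨Q', g', h1, h2, h3, h4⟩ := ih _ _ _ (by omega) (good_step (Or.inl rfl) hq h)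
    have e : 5 ^ d * (5 * q) = 5 ^ (d + 1) * q := by ring
    rw [e] at h2 h3
    refine ⟨Q', g', le_trans ?_ h1, h2.trans ?_, h3, fun u v => (h4 u v).trans ?_⟩
    · rw [pow_succ', ← mul_assoc]
      gcongr; omega
    · rw [pow_succ' (5 ^ (d + 1) * q), ← mul_assoc]
      gcongr
      exact Nat.le_mul_of_pos_left _ (by positivity)
    · obtain ⟨c, hc⟩ := W_nat d (5 * q) (st (-1) q ∘ g) u v
      have : 0 ≤ ind g u v := by unfold ind; split_ifs <;> norm_num
      simp only [W, Pi.add_apply, hc]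
      have : (0 : ℝ) ≤ c := by positivity
      linarith

theorem exc_le (x y : ℤ → ℝ) (d : ℕ) : ∀ Q q g, 4 ≤ q → Good Q q g →
    lin I (W d q g) x y - quad I (W d q g) x / 2 ≤
      (2 ^ (d + 1) - 1) * lin I (ind g) x y + cost I d q g y := by
  induction d with
  | zero =>
    intro Q q g _ _
    have := absorb I g x 0
    simp only [W, cost]
    simp at this
    linarith
  | succ d ih =>
    intro Q q g hq h
    have h1 := ih _ _ _ (by omega) (good_step (Or.inl rfl) hq h)
    have h2 := ih _ _ _ (by omega) (good_step (Or.inr rfl) hq h)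
    have h3 := lin_step I hq h x y
    have h4 := absorb I g x (fun A => (2 ^ (d + 1) - 1) * err I q g y A)
    have l : ∀ K K' : ℤ → ℤ → ℝ, lin I (K + K') x y = lin I K x y + lin I K' x y := fun K K' => by
      simp only [lin, Pi.add_apply, add_mul, sum_add_distrib, mul_add]
    have l' : ∀ K K' : ℤ → ℤ → ℝ, quad I (K + K') x = quad I K x + quad I K' x := fun K K' => by
      simp only [quad, Pi.add_apply, add_mul, sum_add_distrib]
    have e1 : ∑ v ∈ I, x v * ((2 ^ (d + 1) - 1) * err I q g y (g v)) =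
        (2 ^ (d + 1) - 1) * ∑ v ∈ I, x v * err I q g y (g v) := by
      rw [mul_sum]; exact sum_congr rfl fun _ _ => by ring
    have e2 : ∑ A ∈ I.image g, ((2 ^ (d + 1) - 1) * err I q g y A) ^ 2 ≤
        4 ^ (d + 1) * ∑ A ∈ I.image g, err I q g y A ^ 2 := by
      rw [mul_sum]
      refine sum_le_sum fun A _ => ?_
      rw [mul_pow]
      refine mul_le_mul_of_nonneg_right ?_ (sq_nonneg _)
      have : (1 : ℝ) ≤ 2 ^ (d + 1) := one_le_pow₀ (by norm_num)
      rw [show (4 : ℝ) ^ (d + 1) = (2 ^ (d + 1)) ^ 2 by rw [← pow_mul, mul_comm, pow_mul]; norm_num]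
      nlinarith
    simp only [W, cost, l, l']
    rw [e1] at h4
    rw [pow_succ 2 (d + 1)]
    have := congrArg ((2 ^ (d + 1) - 1 : ℝ) * ·) h3
    beta_reduce at this
    linarith

theorem cost_round (d : ℕ) (p : ℕ) : ∀ q g, 4 ≤ q → 5 ^ d * q ≤ p → ∀ y v s, 0 ≤ s → s ≤ 1 →
    (1 - s) * cost I d q g (Function.update y v 0) + s * cost I d q g (Function.update y v 1) ≤
      cost I d q g (Function.update y v s) + 4 ^ d * (4 * p) := by
  induction d with
  | zero => intro q g _ _ y v s _ _; simp [cost]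
  | succ d ih =>
    intro q g hq hp y v s h0 h1
    have hp' : 5 ^ d * (5 * q) ≤ p := by rw [← mul_assoc, ← pow_succ]; exact hp
    have a1 := ih (5 * q) (st 1 q ∘ g) (by omega) hp' y v s h0 h1
    have a2 := ih (5 * q) (st (-1) q ∘ g) (by omega) hp' y v s h0 h1
    have a3 := sum_le_sum (s := I.image g) fun A _ => sq_round I (co q g A) y v s h1
    have c1 : ∀ e : ℤ, e = 1 ∨ e = -1 → ∑ A ∈ I.image g, ind (st e q) (g v) A ≤ q := fun e he => by
      simp only [ind, sum_boole]
      have : #{A ∈ I.image g | st e q (g v) = st e q A} ≤ q := by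
        refine le_trans (card_le_card (t := (range q).image fun i : ℕ =>
          q * st e q (g v) + (e * q + 1) * i) fun A hA => ?_) (card_image_le.trans (by simp))
        obtain ⟨i, hi, h⟩ := (st_iff (by omega : 0 < q) A _).mp (mem_filter.mp hA).2.symm
        exact mem_image.mpr ⟨i, hi, h.symm⟩
      exact_mod_cast this
    have a4 : ∑ A ∈ I.image g, co q g A v ^ 2 ≤ 4 * p := by
      have : ∀ A, co q g A v ^ 2 ≤ 2 * ind (st 1 q) (g v) A + 2 * ind (st (-1) q) (g v) A :=
        fun A => by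
        have := sg_sq (g v - A)
        simp only [co, ind, mul_pow]
        split_ifs <;> nlinarith
      refine (sum_le_sum fun A _ => this A).trans ?_
      rw [sum_add_distrib, ← mul_sum, ← mul_sum]
      have hq : (q : ℝ) ≤ p := by
        exact_mod_cast le_trans (Nat.le_mul_of_pos_left _ (by positivity)) hp
      linarith [c1 1 (by simp), c1 (-1) (by simp)]
    simp only [sum_add_distrib, ← mul_sum] at a3
    simp only [cost, err]
    have := mul_le_mul_of_nonneg_left (a3.trans (add_le_add_right a4 _))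
      (by positivity : (0 : ℝ) ≤ 4 ^ (d + 1))
    rw [pow_succ] at *
    linarith

theorem err_le {Q q : ℕ} (hq : 4 ≤ q) {g : ℤ → ℤ} (h : Good Q q g) (ρ : ℤ → ℝ) (l : ℝ)
    (hl : ∀ u v, |ρ u - ρ v| ≤ l * |((u - v : ℤ) : ℝ)|) (h0 : ∀ u ∉ I, ρ u = 0) (A : ℤ) :
    |err I q g ρ A| ≤ 4 * Q ^ 2 * q ^ 3 * l := by
  have l0 : 0 ≤ l := by
    have := (abs_nonneg _).trans (hl 1 0)
    simpa using this
  choose F hF hc using h.2
  have hq' : (4 : ℤ) ≤ q := by exact_mod_cast hq
  have i0 := Int.emod_nonneg A (by omega : (q : ℤ) ≠ 0)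
  have i1 := Int.emod_lt_of_pos A (by omega : (0 : ℤ) < q)
  have k : ∀ e : ℤ, e = 1 ∨ e = -1 → ∑ u ∈ I, ρ u * (ind (st e q) (g u) A * sg (g u - A)) =
      ∑ i ∈ range q, e * sg (i - A % q) *
        ∑ u ∈ F (q * st e q A + (e * q + 1) * i), ρ u := fun e he => by
    have : ∀ i ∈ range q, e * sg (i - A % q) * ∑ u ∈ F (q * st e q A + (e * q + 1) * i), ρ u =
        ∑ u ∈ I, if g u = q * st e q A + (e * q + 1) * i then ρ u * sg (g u - A) else 0 :=
      fun i _ => by
      rw [← sum_filter, mul_sum]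
      symm
      refine (sum_congr rfl fun u hu => ?_).trans (sum_subset (fun u hu => (hF _ _).mpr
        (mem_filter.mp hu).2) fun u hu hu' => ?_)
      · have : g u - A = (e * q + 1) * (i - A % q) := by
          linear_combination (mem_filter.mp hu).2 - st_self (e := e) (q := q) A
        rw [this, mul_comm]
        congr 1
        generalize (i : ℤ) - A % q = t
        rcases lt_trichotomy t 0 with a | a | a <;> rcases he with rfl | rfl
        · have : (1 * (q : ℤ) + 1) * t < 0 := by nlinarith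
          simp only [sg, this, this.not_gt, a, a.not_gt]; norm_num
        · have : 0 < (-1 * (q : ℤ) + 1) * t := by nlinarith
          simp only [sg, this, a, a.not_gt]; norm_num
        · simp [a, sg]
        · simp [a, sg]
        · have : 0 < (1 * (q : ℤ) + 1) * t := by nlinarith
          simp only [sg, this, a]; norm_num
        · have : (-1 * (q : ℤ) + 1) * t < 0 := by nlinarith
          simp only [sg, this, this.not_gt, a]; norm_num
      · rw [h0 u fun a => hu' (mem_filter.mpr ⟨a, (hF _ _).mp hu⟩), mul_zero]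
    rw [sum_congr rfl this, sum_comm]
    refine sum_congr rfl fun u _ => ?_
    rw [ind]
    split_ifs with a
    · obtain ⟨i, hi, b⟩ := (st_iff (by omega : 0 < q) _ _).mp a
      rw [sum_eq_single_of_mem i hi fun j _ hj => if_neg fun c =>
        hj (child_inj he hq _ _ _ (c.symm.trans b)), if_pos b, one_mul]
    · rw [sum_eq_zero fun i hi => if_neg fun c => a ((st_iff (by omega : 0 < q) _ _).mpr ⟨i, hi, c⟩)]
      simp
  have z : ∀ e : ℤ, e = 1 ∨ e = -1 → ∀ i ∈ range q,
      |∑ u ∈ F (q * st e q A + (e * q + 1) * i), ρ u - Q * ρ (Q * A)| ≤ 2 * Q ^ 2 * q ^ 2 * l :=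
    fun e he i hi => by
    have hi' : (i : ℤ) < q := by exact_mod_cast mem_range.mp hi
    have : ∑ u ∈ F (q * st e q A + (e * q + 1) * i), ρ u - Q * ρ (Q * A) =
        ∑ u ∈ F (q * st e q A + (e * q + 1) * i), (ρ u - ρ (Q * A)) := by
      rw [sum_sub_distrib, sum_const, hc, nsmul_eq_mul]
    rw [this]
    refine (abs_sum_le_sum_abs _ _).trans ((sum_le_card_nsmul _ _ (2 * Q * q ^ 2 * l)
      fun u hu => (hl _ _).trans ?_).trans (by rw [hc, nsmul_eq_mul]; exact le_of_eq (by ring)))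
    have a1 := h.1 u
    have a2 : u - Q * A = (u - Q * g u) + Q * ((e * q + 1) * (i - A % q)) := by
      linear_combination (Q : ℤ) * ((hF _ _).mp hu - st_self (e := e) (q := q) A)
    have a3 : |(e * q + 1) * (i - A % q)| ≤ (q + 1) * q := by
      rw [abs_mul]
      refine mul_le_mul ?_ ?_ (abs_nonneg _) (by omega) <;> rw [abs_le]
      · rcases he with rfl | rfl <;> omega
      · omega
    have a4 := abs_add_le (u - Q * g u) (Q * ((e * q + 1) * (i - A % q)))
    rw [abs_mul, abs_of_nonneg (by positivity : (0 : ℤ) ≤ Q), ← a2] at a4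
    have a5 := mul_le_mul_of_nonneg_left a3 (by positivity : (0 : ℤ) ≤ Q)
    have a6 : (0 : ℤ) ≤ Q * q * (q - 2) := mul_nonneg (by positivity) (by omega)
    have a7 : |u - Q * A| ≤ 2 * Q * q ^ 2 := by nlinarith [abs_nonneg (u - Q * g u)]
    have a8 : |((u - Q * A : ℤ) : ℝ)| ≤ 2 * Q * q ^ 2 := by exact_mod_cast a7
    rw [mul_comm l]
    exact mul_le_mul_of_nonneg_right a8 l0
  have : err I q g ρ A = ∑ i ∈ range q, sg (i - A % q) *
      ((∑ u ∈ F (q * st 1 q A + (1 * q + 1) * i), ρ u - Q * ρ (Q * A)) -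
       (∑ u ∈ F (q * st (-1) q A + (-1 * q + 1) * i), ρ u - Q * ρ (Q * A))) := by
    simp only [err, co, add_mul, mul_add, sum_add_distrib]
    rw [k 1 (by simp), k (-1) (by simp), ← sum_add_distrib]
    refine sum_congr rfl fun i _ => ?_
    simp only [add_mul]
    push_cast; ring
  rw [this]
  refine (abs_sum_le_sum_abs _ _).trans ((sum_le_card_nsmul _ _ (4 * Q ^ 2 * q ^ 2 * l)
    fun i hi => ?_).trans (by rw [card_range, nsmul_eq_mul]; exact le_of_eq (by ring)))
  rw [abs_mul]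
  refine (mul_le_mul (sg_abs _) ((abs_sub _ _).trans (add_le_add (z 1 (by simp) i hi)
    (z (-1) (by simp) i hi))) (abs_nonneg _) zero_le_one).trans (le_of_eq (by ring))

theorem cost_le (N : ℕ) (ρ : ℤ → ℝ) (l : ℝ)
    (hl : ∀ u v, |ρ u - ρ v| ≤ l * |((u - v : ℤ) : ℝ)|) (h0 : ∀ u ∉ Icc (0 : ℤ) N, ρ u = 0)
    (K p : ℕ) (hN : 3 * K * p ≤ N) (d : ℕ) : ∀ Q q g, 4 ≤ q → Good Q q g → 5 ^ d * q ≤ p →
    Q * p ^ d ≤ K → cost (Icc 0 N) d q g ρ ≤ 4 ^ d * (32 * N * K ^ 3 * p ^ 6 * l ^ 2) := by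
  induction d with
  | zero => intro Q q g _ _ _ _; simp only [cost]; positivity
  | succ d ih =>
    intro Q q g hq h hp hK
    have hp' : 5 ^ d * (5 * q) ≤ p := by rw [← mul_assoc, ← pow_succ]; exact hp
    have hqp : q ≤ p := le_trans (Nat.le_mul_of_pos_left _ (by positivity)) hp
    have hK' : Q * q * p ^ d ≤ K := by
      refine le_trans ?_ hK
      rw [pow_succ', ← mul_assoc]; gcongr
    have a1 := ih _ _ _ (by omega) (good_step (Or.inl rfl) hq h) hp' hK'
    have a2 := ih _ _ _ (by omega) (good_step (Or.inr rfl) hq h) hp' hK'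
    have hQK : Q ≤ K := le_trans (Nat.le_mul_of_pos_right _ (pow_pos (by omega) _)) hK
    have hQ : 0 < Q := by
      obtain ⟨F, hF, hc⟩ := h.2 (g 0)
      exact hc ▸ card_pos.mpr ⟨0, (hF 0).mpr rfl⟩
    have c1 : ((Icc (0 : ℤ) N).image g).card * Q ≤ 2 * N := by
      have : (Icc (0 : ℤ) N).image g ⊆ Icc (-q : ℤ) ((N / Q : ℕ) + q) := fun A hA => by
        obtain ⟨v, hv, rfl⟩ := mem_image.mp hA
        have b1 := h.1 v
        have b2 := neg_abs_le (v - Q * g v)
        have b3 := le_abs_self (v - Q * g v)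
        have b4 : (N : ℤ) < Q * ((N / Q : ℕ) + 1) := by exact_mod_cast Nat.lt_mul_div_succ N hQ
        have b5 : (0 : ℤ) < Q := by exact_mod_cast hQ
        have b6 : (4 : ℤ) ≤ q := by exact_mod_cast hq
        rw [mem_Icc] at hv ⊢
        constructor <;> by_contra k <;> nlinarith
      have b1 := card_le_card this
      rw [Int.card_Icc] at b1
      have b3 := Nat.div_mul_le_self N Q
      generalize N / Q = M at b1 b3
      have b2 : ((Icc (0 : ℤ) N).image g).card ≤ M + 3 * q := by omega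
      have b4 : q * Q ≤ p * K := Nat.mul_le_mul hqp hQK
      nlinarith [Nat.mul_le_mul_right Q b2]
    have c2 : ∑ A ∈ (Icc (0 : ℤ) N).image g, err (Icc 0 N) q g ρ A ^ 2 ≤
        32 * N * K ^ 3 * p ^ 6 * l ^ 2 := by
      refine (sum_le_card_nsmul _ _ ((4 * Q ^ 2 * q ^ 3 * l) ^ 2) fun A _ =>
        sq_le_sq' (abs_le.mp (err_le _ hq h ρ l hl h0 A)).1
          (abs_le.mp (err_le _ hq h ρ l hl h0 A)).2).trans ?_
      have c1' : (((Icc (0 : ℤ) N).image g).card : ℝ) * Q ≤ 2 * N := by exact_mod_cast c1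
      calc _ = 16 * ((((Icc (0 : ℤ) N).image g).card : ℝ) * Q) * Q ^ 3 * q ^ 6 * l ^ 2 := by
            rw [nsmul_eq_mul]; ring
        _ ≤ 16 * (2 * N) * K ^ 3 * p ^ 6 * l ^ 2 := by gcongr
        _ = _ := by ring
    simp only [cost]
    have := mul_le_mul_of_nonneg_left c2 (by positivity : (0 : ℝ) ≤ 4 ^ (d + 1))
    rw [pow_succ] at *
    linarith

end Pool.Agent.H29.DC
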