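import Pool.Agent.H29.DC2

set_option autoImplicit false

namespace Pool.Agent.H29.DC

open Finset

noncomputable def trap (N : ℕ) (v : ℤ) : ℝ := max 0 (min 1 (min (3 * v / N) (3 - 3 * v / N)))

theorem trap_lip (N : ℕ) (u v : ℤ) : |trap N u - trap N v| ≤ 3 / N * |((u - v : ℤ) : ℝ)| := by
  have : 3 / N * |((u - v : ℤ) : ℝ)| = |3 * (u : ℝ) / N - 3 * v / N| := by
    rw [← abs_of_nonneg (by positivity : (0 : ℝ) ≤ 3 / N), ← abs_mul]
    congr 1; push_cast; ring
  rw [this, trap, trap]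
  generalize 3 * (u : ℝ) / N = a
  generalize 3 * (v : ℝ) / N = b
  have := le_abs_self (a - b)
  have := neg_abs_le (a - b)
  rw [abs_le]
  simp only [max_def, min_def]
  split_ifs <;> constructor <;> linarith

theorem trap_zero {N : ℕ} (hN : 0 < N) (u : ℤ) (h : u ∉ Icc (0 : ℤ) N) : trap N u = 0 := by
  have hN' : (0 : ℝ) < N := by exact_mod_cast hN
  refine max_eq_left ((min_le_right _ _).trans ?_)
  rw [mem_Icc, not_and_or] at h
  rcases h with h | h
  · have : (u : ℝ) ≤ 0 := by exact_mod_cast (not_le.mp h).le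
    exact (min_le_left _ _).trans (div_nonpos_of_nonpos_of_nonneg (by linarith) hN'.le)
  · have : (N : ℝ) ≤ u := by exact_mod_cast (not_le.mp h).le
    refine (min_le_right _ _).trans ?_
    rw [sub_nonpos, le_div_iff₀ hN']; linarith

theorem trap_one {N : ℕ} (hN : 0 < N) (u : ℤ) (h1 : N ≤ 3 * u) (h2 : 3 * u ≤ 2 * N) :
    trap N u = 1 := by
  have hN' : (0 : ℝ) < N := by exact_mod_cast hN
  have a1 : (N : ℝ) ≤ 3 * u := by exact_mod_cast h1
  have a2 : (3 * u : ℝ) ≤ 2 * N := by exact_mod_cast h2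
  have b1 : 1 ≤ 3 * (u : ℝ) / N := by rw [le_div_iff₀ hN']; linarith
  have b2 : 3 * (u : ℝ) / N ≤ 2 := by rw [div_le_iff₀ hN']; linarith
  rw [trap, min_eq_left (le_min b1 (by linarith)), max_eq_right zero_le_one]

theorem multi (k q : ℕ) (hk : 2 ≤ k) (hq : 4 ≤ q) : ∃ (I : Finset ℤ) (K : ℤ → ℤ → ℝ) (y : ℤ → ℝ),
    (∀ u v, ∃ c : ℕ, K u v = c) ∧ (∀ v, y v = 0 ∨ y v = 1) ∧
    ((5 ^ (2 * k) * q : ℕ) : ℝ) ^ (3 * k + 3) * q ^ (2 * k) / 24 ≤ pair I K y y ∧
    ∀ x : ℤ → ℝ, (∀ v, x v ^ 2 ≤ 1) → pair I K (y + x) (y - x) ≤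
      pair I K y y + 100 * 4 ^ (2 * k) * ((5 ^ (2 * k) * q : ℕ) : ℝ) ^ (3 * k + 4) := by
  set p := 5 ^ (2 * k) * q with hp
  have hp4 : 4 ≤ p := hq.trans (Nat.le_mul_of_pos_left _ (by positivity))
  set N := p ^ (3 * k + 3) with hN
  have hN0 : 0 < N := by positivity
  have hKN : 16 * (p ^ (2 * k) * p) ≤ N := by
    have : 4 ^ 2 ≤ p ^ (k + 2) := (Nat.pow_le_pow_left hp4 2).trans
      (Nat.pow_le_pow_right (by omega) (by omega))
    rw [hN, show 3 * k + 3 = (k + 2) + (2 * k + 1) by ring, pow_add, ← pow_succ]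
    exact Nat.mul_le_mul_right _ this
  obtain ⟨y, y1, y2, y3⟩ := round (cost (Icc 0 N) (2 * k) q id) _
    (cost_round (Icc 0 N) (2 * k) p q id hq le_rfl) (trap N) (fun v => le_max_left _ _)
    (fun v => max_le zero_le_one (min_le_left _ _)) (Icc 0 N)
  have y0 : ∀ v, y v = 0 ∨ y v = 1 := fun v => by
    by_cases h : v ∈ Icc (0 : ℤ) N
    · exact y1 v h
    · exact Or.inl ((y2 v (Or.inl h)).trans (trap_zero hN0 v h))
  have yn : ∀ v, 0 ≤ y v := fun v => by rcases y0 v with h | h <;> simp [h]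
  have cI : ((Icc (0 : ℤ) N).card : ℝ) = N + 1 := by
    have : (Icc (0 : ℤ) N).card = N + 1 := by rw [Int.card_Icc]; omega
    exact_mod_cast this
  have hN1 : (1 : ℝ) ≤ N := by exact_mod_cast hN0
  refine ⟨Icc 0 N, W (2 * k) q id, y, W_nat _ _ _, y0, ?_, fun x hx => ?_⟩
  · obtain ⟨Q, g, h1, h2, h3, h4⟩ := W_top (2 * k) 1 q id hq (good_id q)
    rw [one_mul] at h1 h2
    rw [← hp] at h2 h3
    have a1 : pair (Icc 0 N) (ind g) y y ≤ pair (Icc 0 N) (W (2 * k) q id) y y :=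
      sum_le_sum fun u _ => sum_le_sum fun v _ => by
        split_ifs
        · exact mul_le_mul_of_nonneg_right (mul_le_mul_of_nonneg_right (h4 u v) (yn u)) (yn v)
        · rfl
    have a2 := quad_eq (Icc 0 N) (ind g) (fun u v => by simp [ind, eq_comm]) y
    have a3 : ∑ v ∈ Icc (0 : ℤ) N, ind g v v * y v ^ 2 ≤ N + 1 := by
      rw [← cI]
      refine (sum_le_card_nsmul _ _ 1 fun v _ => ?_).trans (by simp)
      rcases y0 v with h | h <;> simp [h, ind]
    obtain ⟨D, hD, hD'⟩ : ∃ D : ℕ, Q * p ≤ D ∧ 16 * D ≤ N :=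
      ⟨_, Nat.mul_le_mul_right p h2, hKN⟩
    have hQ : 256 ≤ Q := le_trans ((Nat.pow_le_pow_left hq 4).trans
      (Nat.pow_le_pow_right (by omega) (by omega))) h1
    have hD0 : 256 * 4 ≤ D := (Nat.mul_le_mul hQ hp4).trans hD
    have hD1 : (Q : ℤ) * p ≤ D := by exact_mod_cast hD
    set M := Icc ((N / 3 : ℕ) + 1 + D : ℤ) ((2 * N / 3 : ℕ) - D) with hM
    have a4 : (M.card : ℝ) * Q ≤ quad (Icc 0 N) (ind g) y := by
      have nn : ∀ u v, 0 ≤ ind g u v * y u * y v := fun u v =>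
        mul_nonneg (mul_nonneg (by unfold ind; split_ifs <;> norm_num) (yn u)) (yn v)
      refine le_trans ?_ (sum_le_sum_of_subset_of_nonneg (s := M) (fun u hu => ?_)
        fun u _ _ => sum_nonneg fun v _ => nn u v)
      · rw [← nsmul_eq_mul]
        refine card_nsmul_le_sum _ _ _ fun u hu => ?_
        obtain ⟨F, hF, hc⟩ := h3.2 (g u)
        have near : ∀ v ∈ F, (N : ℤ) ≤ 3 * v ∧ 3 * v ≤ 2 * N := fun v hv => by
          have b1 := h3.1 u
          have b2 := h3.1 v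
          rw [(hF v).mp hv] at b2
          have := neg_abs_le (u - Q * g u)
          have := le_abs_self (u - Q * g u)
          have := neg_abs_le (v - Q * g u)
          have := le_abs_self (v - Q * g u)
          rw [hM, mem_Icc] at hu
          omega
        have one : ∀ v ∈ F, y v = 1 := fun v hv => by
          have := trap_one hN0 v (near v hv).1 (near v hv).2
          rw [y2 v (Or.inr this), this]
        refine le_trans ?_ (sum_le_sum_of_subset_of_nonneg (s := F) (fun v hv => ?_)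
          fun v _ _ => nn u v)
        · rw [sum_congr rfl fun v hv => (by
            rw [one v hv, one u ((hF u).mpr rfl), ind, if_pos ((hF v).mp hv).symm]; norm_num :
            ind g u v * y u * y v = 1)]
          simp [hc]
        · have := near v hv
          rw [mem_Icc]; omega
      · rw [hM, mem_Icc] at hu
        rw [mem_Icc]; omega
    have a5 : (N : ℝ) ≤ 6 * M.card := by
      have : N ≤ 6 * M.card := by rw [hM, Int.card_Icc]; omega
      exact_mod_cast this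
    have a6 : ((q : ℝ)) ^ (2 * k) ≤ Q := by exact_mod_cast h1
    have a7 : (256 : ℝ) ≤ Q := by exact_mod_cast hQ
    have e : ((p : ℕ) : ℝ) ^ (3 * k + 3) = N := by rw [hN]; push_cast; rfl
    rw [e]
    nlinarith [mul_le_mul_of_nonneg_left a6 (by positivity : (0 : ℝ) ≤ N),
      mul_le_mul_of_nonneg_right a5 (by positivity : (0 : ℝ) ≤ Q),
      mul_le_mul_of_nonneg_left a7 (by positivity : (0 : ℝ) ≤ N)]
  · rw [cut_eq _ _ (W_symm _ _ _)]
    have a1 := exc_le (Icc 0 N) x y (2 * k) 1 q id hq (good_id q)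
    have a2 : lin (Icc 0 N) (ind id) x y = 0 :=
      sum_eq_zero fun v _ => mul_eq_zero_of_right _ (sum_eq_zero fun u _ => by
        by_cases h : u = v <;> simp [ind, h, sg])
    have a3 := cost_le N (trap N) (3 / N) (trap_lip N) (trap_zero hN0) (p ^ (2 * k)) p
      (by nlinarith) (2 * k) 1 q id hq (good_id q) le_rfl (by simp)
    have a4 : ∑ v ∈ Icc (0 : ℤ) N, W (2 * k) q id v v * x v ^ 2 ≤ 2 * 4 ^ (2 * k) * (N + 1) := by
      rw [← cI, mul_comm (2 * 4 ^ (2 * k) : ℝ), ← nsmul_eq_mul]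
      refine sum_le_card_nsmul _ _ _ fun v _ => ?_
      rw [W_diag]
      have b1 : (2 : ℝ) ^ (2 * k) ≤ 4 ^ (2 * k) := by gcongr; norm_num
      have b2 : (1 : ℝ) ≤ 2 ^ (2 * k) := one_le_pow₀ (by norm_num)
      rw [pow_succ]
      nlinarith [hx v, sq_nonneg (x v)]
    have e : ((p : ℕ) : ℝ) ^ (3 * k + 3) = N := by rw [hN]; push_cast; rfl
    have e2 : (32 : ℝ) * N * ((p ^ (2 * k) : ℕ) : ℝ) ^ 3 * p ^ 6 * (3 / N) ^ 2 = 288 * N := by
      have : ((p ^ (2 * k) : ℕ) : ℝ) ^ 3 * p ^ 6 = N ^ 2 := by rw [← e]; push_cast; ring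
      rw [mul_assoc (32 * (N : ℝ)), this]
      field_simp
      norm_num
    rw [e2] at a3
    rw [cI] at y3
    rw [a2] at a1
    rw [pow_succ (p : ℝ) (3 * k + 3), e]
    have hp' : (4 : ℝ) ≤ p := by exact_mod_cast hp4
    have f : (0 : ℝ) < 4 ^ (2 * k) := by positivity
    have : 288 * (N : ℝ) + 4 * p * (N + 1) + (N + 1) ≤ 100 * (N * p) := by nlinarith
    nlinarith

end Pool.Agent.H29.DC
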