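import Mathlib

set_option autoImplicit false

namespace Pool.Agent.H29.DC

open Finset

theorem signs {ι : Type} [DecidableEq ι] (G : (ι → ℝ) → ℝ) (β : ι → ℝ) (J : Finset ι)
    (h : ∀ σ, ∀ i ∈ J, 2 * G (Function.update σ i 0) + 2 * β i ≤
      G (Function.update σ i 1) + G (Function.update σ i (-1))) :
    ∃ σ : ι → ℝ, (∀ i, |σ i| ≤ 1) ∧ (∀ i ∉ J, σ i = 0) ∧ G 0 + ∑ i ∈ J, β i ≤ G σ := by
  induction J using Finset.induction_on with
  | empty => exact ⟨0, by simp, by simp, by simp⟩
  | insert a J ha ih =>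
    obtain ⟨σ, h1, h2, h3⟩ := ih fun σ i hi => h σ i (mem_insert_of_mem hi)
    have key := h σ a (mem_insert_self _ _)
    rw [← h2 a ha, Function.update_eq_self] at key
    obtain ⟨c, hc, hc'⟩ : ∃ c : ℝ, |c| ≤ 1 ∧ G σ + β a ≤ G (Function.update σ a c) := by
      by_cases k : G σ + β a ≤ G (Function.update σ a 1)
      · exact ⟨1, by simp, k⟩
      · exact ⟨-1, by simp, by linarith⟩
    refine ⟨Function.update σ a c, fun i => ?_, fun i hi => ?_, by rw [sum_insert ha]; linarith⟩
    · by_cases k : i = a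
      · subst k; simpa using hc
      · rw [Function.update_of_ne k]; exact h1 i
    · rw [mem_insert, not_or] at hi
      rw [Function.update_of_ne hi.1]; exact h2 i hi.2

variable {V : Type} [Fintype V] [DecidableEq V]

theorem frac (w : V → V → ℝ) (hw : ∀ v, w v v = 0) (a : V → ℝ) (h0 : ∀ v, 0 ≤ a v)
    (h1 : ∀ v, a v ≤ 1) : ∃ X : Finset V,
    ∑ u, ∑ v, w u v * (a u * (1 - a v)) ≤ ∑ u ∈ X, ∑ v ∈ Xᶜ, w u v := by
  set F : (V → ℝ) → ℝ := fun a => ∑ u, ∑ v, w u v * (a u * (1 - a v)) with hF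
  have aff : ∀ (y : V → ℝ) z s, F (Function.update y z s) =
      (1 - s) * F (Function.update y z 0) + s * F (Function.update y z 1) := fun y z s => by
    simp only [hF, mul_sum, ← sum_add_distrib]
    refine sum_congr rfl fun u _ => sum_congr rfl fun v _ => ?_
    by_cases a : u = z <;> by_cases b : v = z <;> simp [a, b, hw] <;> ring
  have : ∀ J : Finset V, ∃ y : V → ℝ, (∀ v ∈ J, y v = 0 ∨ y v = 1) ∧ (∀ v ∉ J, y v = a v) ∧
      F a ≤ F y := fun J => by
    induction J using Finset.induction_on with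
    | empty => exact ⟨a, by simp, by simp, le_rfl⟩
    | insert z J hz ih =>
      obtain ⟨y, y1, y2, y3⟩ := ih
      have key := aff y z (y z)
      rw [Function.update_eq_self, y2 z hz] at key
      obtain ⟨c, hc, hc'⟩ : ∃ c : ℝ, (c = 0 ∨ c = 1) ∧ F y ≤ F (Function.update y z c) := by
        rcases le_total (F (Function.update y z 0)) (F (Function.update y z 1)) with k | k
        · exact ⟨1, Or.inr rfl, by nlinarith [h0 z, h1 z]⟩
        · exact ⟨0, Or.inl rfl, by nlinarith [h0 z, h1 z]⟩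
      refine ⟨Function.update y z c, fun v hv => ?_, fun v hv => ?_, y3.trans hc'⟩
      · by_cases k : v = z
        · subst k; simpa using hc
        · rw [Function.update_of_ne k]; exact y1 v ((mem_insert.mp hv).resolve_left k)
      · rw [mem_insert, not_or] at hv
        rw [Function.update_of_ne hv.1]; exact y2 v hv.2
  obtain ⟨y, y1, -, y3⟩ := this univ
  refine ⟨univ.filter (y · = 1), y3.trans (le_of_eq ?_)⟩
  rw [compl_filter, sum_filter]
  refine sum_congr rfl fun u _ => ?_
  rw [sum_filter]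
  rcases y1 u (mem_univ _) with h | h
  · simp [h]
  · rw [if_pos h]
    refine sum_congr rfl fun v _ => ?_
    rcases y1 v (mem_univ _) with h' | h' <;> simp [h, h']

theorem avg {ι : Type} [DecidableEq ι] (J : Finset ι) (w : V → V → ℝ) (hw : ∀ v, w v v = 0)
    (α : V → ℝ) (c : V → ι → ℝ) (h0 : ∀ v, ∑ i ∈ J, |c v i| ≤ α v)
    (h1 : ∀ v, ∑ i ∈ J, |c v i| ≤ 1 - α v) : ∃ X : Finset V,
    ∑ u, ∑ v, w u v * (α u * (1 - α v) - ∑ i ∈ J, c u i * c v i) ≤ ∑ u ∈ X, ∑ v ∈ Xᶜ, w u v := by
  set a : (ι → ℝ) → V → ℝ := fun σ v => α v + ∑ i ∈ J, c v i * σ i with ha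
  have up : ∀ σ, ∀ i ∈ J, ∀ r v, a (Function.update σ i r) v =
      a (Function.update σ i 0) v + c v i * r := fun σ i hi r v => by
    simp only [ha]
    rw [← add_sum_erase _ _ hi, ← add_sum_erase J _ hi, sum_congr rfl (g := fun j => c v j * σ j)
      fun j hj => by rw [Function.update_of_ne (ne_of_mem_erase hj)],
      sum_congr rfl (f := fun j => c v j * Function.update σ i 0 j) (g := fun j => c v j * σ j)
      fun j hj => by rw [Function.update_of_ne (ne_of_mem_erase hj)]]
    simp; ring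
  obtain ⟨σ, s1, -, s3⟩ := signs (fun σ => ∑ u, ∑ v, w u v * (a σ u * (1 - a σ v)))
    (fun i => -∑ u, ∑ v, w u v * (c u i * c v i)) J (fun σ i hi => le_of_eq (by
      simp only [up σ i hi 1, up σ i hi (-1), mul_sum, ← sum_neg_distrib, ← sum_add_distrib]
      exact sum_congr rfl fun u _ => sum_congr rfl fun v _ => by ring))
  have b : ∀ v, |∑ i ∈ J, c v i * σ i| ≤ ∑ i ∈ J, |c v i| := fun v =>
    (abs_sum_le_sum_abs _ _).trans (sum_le_sum fun i _ => by
      rw [abs_mul]; exact mul_le_of_le_one_right (abs_nonneg _) (s1 i))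
  obtain ⟨X, hX⟩ := frac w hw (a σ) (fun v => by linarith [h0 v, (abs_le.mp (b v)).1])
    (fun v => by linarith [h1 v, (abs_le.mp (b v)).2])
  refine ⟨X, le_trans (le_of_eq ?_) (s3.trans hX)⟩
  simp only [ha, Pi.zero_apply, mul_zero, sum_const_zero, add_zero, mul_sub, sum_sub_distrib,
    sum_neg_distrib, mul_sum]
  rw [sub_eq_add_neg]
  congr 2
  rw [sum_comm (s := J)]
  exact sum_congr rfl fun u _ => sum_comm

theorem levels (w : V → V → ℝ) (hw : ∀ u v, 0 ≤ w u v) (lev : V → ℕ)
    (hl : ∀ u v, w u v ≠ 0 → lev u < lev v) (r : ℕ) (hr : ∀ v, lev v < 8 * r ^ 3) (hr0 : 0 < r) :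
    ∃ X : Finset V, (1 / 4 + 1 / (256 * r ^ 2)) * ∑ u, ∑ v, w u v ≤ ∑ u ∈ X, ∑ v ∈ Xᶜ, w u v := by
  set k := 2 * r ^ 2 with hk
  have k0 : 0 < k := by positivity
  have r1 : (1 : ℝ) ≤ r := by exact_mod_cast hr0
  have kR : (k : ℝ) = 2 * r ^ 2 := by rw [hk]; push_cast; rfl
  have kp : (0 : ℝ) < k := by exact_mod_cast k0
  have hb : ∀ v, lev v / k < 4 * r := fun v =>
    (Nat.div_lt_iff_lt_mul k0).mpr (by have := hr v; rw [hk]; nlinarith)
  set m : V → ℝ := fun v => (lev v / k : ℕ) / (32 * r ^ 2) with hm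
  have m0 : ∀ v, 0 ≤ m v := fun v => by positivity
  have m1 : ∀ v, m v ≤ 1 / (8 * r) := fun v => by
    have : ((lev v / k : ℕ) : ℝ) ≤ 4 * r := by exact_mod_cast (hb v).le
    rw [hm, div_le_div_iff₀ (by positivity) (by positivity)]
    nlinarith
  have m2 : 1 / (8 * (r : ℝ)) ≤ 1 / 8 := one_div_le_one_div_of_le (by norm_num) (by linarith)
  set e : V → ℕ → ℝ := fun v j => ((if j = lev v % k then 1 else 0) - 1 / k) / 8 with he
  set c : V → ℕ × ℕ → ℝ := fun v i => if i.1 = lev v / k then e v i.2 else 0 with hc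
  have one : ∀ v, ∑ j ∈ range k, (if j = lev v % k then (1 : ℝ) else 0) = 1 := fun v => by
    rw [sum_ite_eq', if_pos (mem_range.mpr (Nat.mod_lt _ k0))]
  have cb : ∀ v, ∑ i ∈ range (4 * r) ×ˢ range k, |c v i| ≤ 1 / 4 := fun v => by
    rw [sum_product, sum_eq_single_of_mem (lev v / k) (mem_range.mpr (hb v))
      fun b _ h => by simp [hc, h]]
    simp only [hc, if_true]
    refine (sum_le_sum (g := fun j => ((if j = lev v % k then (1 : ℝ) else 0) + 1 / (k : ℝ)) / 8)
      fun j _ => ?_).trans (le_of_eq ?_)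
    · have : (0 : ℝ) < 1 / k := by positivity
      rw [abs_le, he]
      beta_reduce
      split_ifs <;> constructor <;> linarith
    · rw [← sum_div, sum_add_distrib, one, sum_const, card_range, nsmul_eq_mul]
      field_simp; norm_num
  obtain ⟨X, hX⟩ := avg (range (4 * r) ×ˢ range k) w
    (fun v => by by_contra h; exact (hl v v h).false) (fun v => (1 - m v) / 2) c
    (fun v => by linarith [cb v, m1 v]) (fun v => by linarith [cb v, m0 v])
  refine ⟨X, le_trans ?_ hX⟩
  rw [mul_sum]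
  refine sum_le_sum fun u _ => ?_
  rw [mul_sum]
  refine sum_le_sum fun v _ => ?_
  by_cases h : w u v = 0
  · simp [h]
  rw [mul_comm]
  refine mul_le_mul_of_nonneg_left ?_ (hw u v)
  have lt := hl u v h
  have mm : m u * m v ≤ 1 / (64 * r ^ 2) :=
    (mul_le_mul (m1 u) (m1 v) (m0 v) (by positivity)).trans (le_of_eq (by field_simp; norm_num))
  have q1 : 1 / (64 * (r : ℝ) ^ 2) = 4 * (1 / (256 * r ^ 2)) := by field_simp; norm_num
  rcases (Nat.div_le_div_right (c := k) lt.le).eq_or_lt with b | b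
  · have ne : lev u % k ≠ lev v % k := fun a => by
      have := Nat.div_add_mod (lev u) k
      have := Nat.div_add_mod (lev v) k
      rw [b, a] at *
      omega
    have : ∑ i ∈ range (4 * r) ×ˢ range k, c u i * c v i = -(2 * (1 / (256 * r ^ 2))) := by
      rw [sum_product, sum_eq_single_of_mem (lev v / k) (mem_range.mpr (hb v))
        fun b _ h => by simp [hc, h]]
      simp only [hc, b, if_true]
      rw [sum_congr rfl (g := fun j => (1 / (k : ℝ) ^ 2 - (if j = lev u % k then (1 : ℝ) else 0) / k -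
        (if j = lev v % k then (1 : ℝ) else 0) / k) / 64) fun j _ => by
          simp only [he]
          split_ifs with a a'
          · exact absurd (a.symm.trans a') ne
          all_goals ring]
      rw [← sum_div, sum_sub_distrib, sum_sub_distrib, ← sum_div, ← sum_div, ← sum_div, one, one,
        sum_const, card_range, nsmul_eq_mul, kR]
      field_simp; norm_num
    have e2 : m u = m v := by simp only [hm, b]
    rw [this]
    rw [e2] at mm ⊢
    nlinarith
  · have : ∑ i ∈ range (4 * r) ×ˢ range k, c u i * c v i = 0 :=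
      sum_eq_zero fun i _ => by
        simp only [hc]
        split_ifs with a a'
        · omega
        all_goals simp
    have e2 : m u + 8 * (1 / (256 * r ^ 2)) ≤ m v := by
      have : ((lev u / k : ℕ) : ℝ) + 1 ≤ (lev v / k : ℕ) := by exact_mod_cast b
      have q : 8 * (1 / (256 * (r : ℝ) ^ 2)) = 1 / (32 * r ^ 2) := by field_simp; norm_num
      rw [q, hm, ← add_div]
      exact div_le_div_of_nonneg_right this (by positivity)
    rw [this]
    nlinarith

theorem lower (w : V → V → ℝ) (hw : ∀ u v, w u v = 0 ∨ 1 ≤ w u v)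
    (ac : ∀ v, ¬ Relation.TransGen (fun a b => w a b ≠ 0) v v) : ∃ X : Finset V,
    (∑ u, ∑ v, w u v) / 4 + 1 / 128 * (∑ u, ∑ v, w u v) ^ (3 / 5 : ℝ) ≤
      ∑ u ∈ X, ∑ v ∈ Xᶜ, w u v := by
  classical
  have w0 : ∀ u v, 0 ≤ w u v := fun u v => by rcases hw u v with h | h <;> linarith
  have wd : ∀ v, w v v = 0 := fun v => by by_contra h; exact ac v (.single h)
  set f : V → ℕ := fun v => #{u | Relation.TransGen (fun a b => w a b ≠ 0) u v} with hf
  have fl : ∀ u v, w u v ≠ 0 → f u < f v := fun u v h => card_lt_card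
    ⟨fun z hz => by simpa using (mem_filter.mp hz).2.tail h, fun k => ac u (by
      simpa using k (mem_filter.mpr ⟨mem_univ u, Relation.TransGen.single h⟩))⟩
  obtain ⟨M, hM, mx⟩ := exists_max_image (univ.filter fun M : Finset (V × V) =>
    (∀ e ∈ M, w e.1 e.2 ≠ 0) ∧ ∀ e ∈ M, ∀ e' ∈ M, ∀ v, (v = e.1 ∨ v = e.2) →
      (v = e'.1 ∨ v = e'.2) → e = e') card ⟨∅, by simp⟩
  simp only [mem_filter, mem_univ, true_and] at hM mx
  set C := M.image Prod.fst ∪ M.image Prod.snd with hC
  have cov : ∀ u v, w u v ≠ 0 → u ∈ C ∨ v ∈ C := fun u v h => by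
    by_contra k
    simp only [hC, mem_union, mem_image, not_or, not_exists, not_and] at k
    have n : (u, v) ∉ M := fun a => k.1.1 _ a rfl
    have := mx (insert (u, v) M) ⟨by simpa [h] using hM.1, by
      have d : ∀ e ∈ M, ∀ z, z = e.1 ∨ z = e.2 → z = u ∨ z = v → False := fun e he z a b => by
        have := k.1.1 e he
        have := k.1.2 e he
        have := k.2.1 e he
        have := k.2.2 e he
        rcases a with rfl | rfl <;> rcases b with b | b <;> contradiction
      intro e he e' he' z a b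
      rcases mem_insert.mp he with rfl | he <;> rcases mem_insert.mp he' with rfl | he'
      exacts [rfl, (d _ he' z b a).elim, (d _ he z a b).elim, hM.2 e he e' he' z a b]⟩
    rw [card_insert_of_notMem n] at this
    omega
  have cC : C.card ≤ 2 * M.card := (card_union_le _ _).trans (by
    have := card_image_le (s := M) (f := Prod.fst)
    have := card_image_le (s := M) (f := Prod.snd)
    omega)
  set T := ∑ u, ∑ v, w u v with hT
  have T0 : 0 ≤ T := sum_nonneg fun u _ => sum_nonneg fun v _ => w0 u v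
  rcases T0.eq_or_lt with z | z
  · exact ⟨∅, by simp [← z]⟩
  have t1 : 1 ≤ M.card := by
    by_contra k
    have : C = ∅ := card_eq_zero.mp (by omega)
    refine z.ne' (sum_eq_zero fun u _ => sum_eq_zero fun v _ => ?_)
    by_contra h
    simpa [this] using cov u v h
  have ex : ∃ r, 4 * M.card < 8 * r ^ 3 := ⟨M.card, by nlinarith [Nat.le_self_pow three_ne_zero M.card]⟩
  have r1 := Nat.find_spec ex
  have r0 : 0 < Nat.find ex := by by_contra k; rw [Nat.eq_zero_of_not_pos k] at r1; omega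
  have r2 := Nat.find_min ex (m := Nat.find ex - 1) (by omega)
  obtain ⟨r, hr⟩ : ∃ r, Nat.find ex = r + 1 := ⟨_, (Nat.succ_pred_eq_of_pos r0).symm⟩
  rw [hr] at r1 r2
  have r3 : (r + 1) ^ 3 ≤ 8 * M.card := by
    rw [Nat.add_sub_cancel] at r2
    rcases Nat.eq_zero_or_pos r with h | h
    · subst h; omega
    · have : (r + 1) ^ 3 ≤ (2 * r) ^ 3 := Nat.pow_le_pow_left (by omega) 3
      rw [mul_pow] at this
      omega
  obtain ⟨X, hX⟩ := levels w w0 (fun v => #{c ∈ C | f c ≤ f v} + #{c ∈ C | f c < f v})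
    (fun u v h => by
      have l := fl u v h
      have a1 : #{c ∈ C | f c ≤ f u} ≤ #{c ∈ C | f c < f v} :=
        card_le_card (monotone_filter_right _ fun c _ hc => lt_of_le_of_lt hc l)
      have a2 : ∀ z, {c ∈ C | f c < f z} ⊆ {c ∈ C | f c ≤ f z} := fun z =>
        monotone_filter_right _ fun c _ hc => le_of_lt hc
      have a3 : ∀ z ∈ C, #{c ∈ C | f c < f z} < #{c ∈ C | f c ≤ f z} := fun z hz =>
        card_lt_card ⟨a2 z, fun k => by simpa using k (mem_filter.mpr ⟨hz, le_rfl⟩)⟩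
      have := card_le_card (a2 u)
      have := card_le_card (a2 v)
      rcases cov u v h with k | k <;> have := a3 _ k <;> omega) (r + 1)
    (fun v => by
      have := card_filter_le C fun c => f c ≤ f v
      have := card_filter_le C fun c => f c < f v
      omega) (by omega)
  have cb : ∀ v, ∑ e ∈ M, |((if v = e.1 then 1 else 0) - if v = e.2 then 1 else 0 : ℝ) / 2| ≤
      1 / 2 := fun v => by
    by_cases k : ∃ e ∈ M, v = e.1 ∨ v = e.2
    · obtain ⟨e, he, h⟩ := k
      rw [sum_eq_single_of_mem e he fun e' he' ne => by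
        have := fun a => ne (hM.2 e' he' e he v a h)
        simp only [imp_false, not_or] at this
        simp [this.1, this.2]]
      split_ifs <;> norm_num [abs_of_nonneg, abs_div]
    · push Not at k
      rw [sum_eq_zero fun e he => by simp [(k e he).1, (k e he).2]]
      norm_num
  obtain ⟨Y, hY⟩ := avg M w wd (fun _ => 1 / 2)
    (fun v e => ((if v = e.1 then 1 else 0) - if v = e.2 then 1 else 0) / 2) cb
    (fun v => by linarith [cb v])
  have hY' : T / 4 + M.card / 4 ≤ ∑ u ∈ Y, ∑ v ∈ Yᶜ, w u v := by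
    refine le_trans ?_ hY
    simp only [mul_sub, sum_sub_distrib, mul_sum]
    have a1 : ∑ u, ∑ v, ∑ e ∈ M, w u v *
        (((if u = e.1 then 1 else 0) - if u = e.2 then 1 else 0) / 2 *
        (((if v = e.1 then 1 else 0) - if v = e.2 then 1 else 0) / 2)) ≤ -(M.card / 4) := by
      rw [sum_congr rfl fun u _ => sum_comm, sum_comm]
      refine (sum_le_card_nsmul _ _ (-(1 / 4)) fun e he => ?_).trans
        (le_of_eq (by rw [nsmul_eq_mul]; ring))
      have : 1 ≤ w e.1 e.2 := (hw _ _).resolve_left (hM.1 e he)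
      simp only [sub_div, mul_sub, sub_mul, ite_div, mul_ite, ite_mul, sum_sub_distrib, zero_div,
        mul_zero, zero_mul, sum_ite_eq', mem_univ, if_true, wd]
      linarith [w0 e.2 e.1]
    have a2 : ∑ u, ∑ v, w u v * (1 / 2 * 1) - ∑ u, ∑ v, w u v * (1 / 2 * (1 / 2)) = T / 4 := by
      simp only [← sum_mul, ← hT]; ring
    linarith
  rw [← hT] at hX
  have key : 1 / 128 * T ^ (3 / 5 : ℝ) ≤ max ((M.card : ℝ) / 4) (T / (256 * ((r + 1 : ℕ) : ℝ) ^ 2)) := by
    set G := max ((M.card : ℝ) / 4) (T / (256 * ((r + 1 : ℕ) : ℝ) ^ 2)) with hG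
    have R : (0 : ℝ) < (r + 1 : ℕ) := by positivity
    have g1 : ((r + 1 : ℕ) : ℝ) ^ 3 / 32 ≤ G := by
      have : ((r + 1 : ℕ) : ℝ) ^ 3 ≤ 8 * M.card := by exact_mod_cast r3
      exact le_max_of_le_left (by linarith)
    have g2 : T / (256 * ((r + 1 : ℕ) : ℝ) ^ 2) ≤ G := le_max_right _ _
    have g0 : 0 ≤ G := le_trans (by positivity) g1
    refine le_of_pow_le_pow_left₀ (n := 5) (by norm_num) g0 ?_
    rw [mul_pow, ← Real.rpow_natCast (T ^ (3 / 5 : ℝ)), ← Real.rpow_mul T0]
    calc _ = (1 / 128) ^ 5 * T ^ 3 := by norm_num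
      _ ≤ (1 / 32) ^ 2 * (1 / 256) ^ 3 * T ^ 3 := by gcongr; norm_num
      _ = (((r + 1 : ℕ) : ℝ) ^ 3 / 32) ^ 2 * (T / (256 * ((r + 1 : ℕ) : ℝ) ^ 2)) ^ 3 := by
        field_simp
      _ ≤ G ^ 2 * G ^ 3 := by gcongr
      _ = _ := by ring
  rcases le_max_iff.mp key with k | k
  · exact ⟨Y, by linarith⟩
  · refine ⟨X, le_trans ?_ hX⟩
    rw [add_mul, one_div_mul_eq_div, one_div_mul_eq_div (256 * _)]
    linarith

end Pool.Agent.H29.DC
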