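import Pool.Agent.H29.DC3
import Pool.Agent.H29.DC4

set_option autoImplicit false

namespace Pool.Agent.H29.DC

open Finset

theorem transfer (I : Finset ℤ) (K : ℤ → ℤ → ℝ) (y : ℤ → ℝ) (hy : ∀ v, y v = 0 ∨ y v = 1) (B : ℝ)
    (h : ∀ x : ℤ → ℝ, (∀ v, x v ^ 2 ≤ 1) → pair I K (y + x) (y - x) ≤ pair I K y y + B)
    (X : Finset I) : ∑ u ∈ X, ∑ v ∈ Xᶜ, (if u.1 < v.1 then K u v * y u * y v else 0) ≤
      pair I K y y / 4 + B / 4 := by
  set x : ℤ → ℝ := fun v => if v ∈ X.image Subtype.val then y v else -y v with hx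
  have := h x fun v => by
    simp only [hx]
    rcases hy v with h | h <;> split_ifs <;> simp [h]
  have e : pair I K (y + x) (y - x) =
      4 * ∑ u ∈ X, ∑ v ∈ Xᶜ, (if u.1 < v.1 then K u v * y u * y v else 0) := by
    have m : ∀ v : I, v.1 ∈ X.image Subtype.val ↔ v ∈ X := fun v =>
      Subtype.val_injective.mem_finset_image
    rw [pair, ← sum_coe_sort, mul_sum, ← sum_subset (subset_univ X) fun u _ hu =>
      sum_eq_zero fun v _ => by simp only [hx, Pi.add_apply, m, hu]; simp]
    refine sum_congr rfl fun u hu => ?_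
    rw [← sum_coe_sort, mul_sum, ← sum_subset (subset_univ Xᶜ) fun v _ hv => by
      simp only [hx, Pi.sub_apply, m, not_not.mp (mem_compl.not.mp hv)]; simp]
    refine sum_congr rfl fun v hv => ?_
    simp only [hx, Pi.add_apply, Pi.sub_apply, m, hu, mem_compl.mp hv, if_true, if_false]
    split_ifs <;> ring
  linarith

theorem tot_eq (I : Finset ℤ) (K : ℤ → ℤ → ℝ) (y : ℤ → ℝ) :
    ∑ u : I, ∑ v : I, (if u.1 < v.1 then K u v * y u * y v else 0) = pair I K y y := by
  rw [pair, ← sum_coe_sort I]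
  exact sum_congr rfl fun u _ => sum_coe_sort I fun v => if u.1 < v then K u v * y u * y v else 0

theorem acyc (I : Finset ℤ) (K : ℤ → ℤ → ℝ) (y : ℤ → ℝ) (v : I) : ¬ Relation.TransGen
    (fun a b : I => (if a.1 < b.1 then K a b * y a * y b else 0) ≠ 0) v v := fun h => by
  have : ∀ a b : I, Relation.TransGen
      (fun a b : I => (if a.1 < b.1 then K a b * y a * y b else 0) ≠ 0) a b → a.1 < b.1 :=
    fun a b h => by
    induction h with
    | single h => by_contra k; exact h (if_neg k)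
    | tail _ h ih => exact ih.trans (by by_contra k; exact h (if_neg k))
  exact (this v v h).false

theorem big (a b α c C κ : ℝ) (h : b < a * α) (hα : 0 < α) (hc : 0 < c) (hκ : 0 < κ) (m : ℕ)
    (hm : 0 < m) : ∃ q : ℕ, 4 ≤ q ∧ ∀ T, c * ((m * q : ℕ) : ℝ) ^ a ≤ T →
      C * ((m * q : ℕ) : ℝ) ^ b < κ * T ^ α := by
  have t := (tendsto_rpow_atTop (sub_pos.mpr h)).comp (tendsto_natCast_atTop_atTop.comp
    (Filter.tendsto_id.const_mul_atTop' hm))
  obtain ⟨q, h1, h2⟩ := ((Filter.eventually_ge_atTop 4).and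
    (t.eventually_gt_atTop (C / (κ * c ^ α)))).exists
  refine ⟨q, h1, fun T hT => ?_⟩
  have p0 : (0 : ℝ) < (m * q : ℕ) := by have : 0 < q := by omega
                                        positivity
  simp only [Function.comp, id] at h2
  rw [div_lt_iff₀ (by positivity), Real.rpow_sub p0, div_mul_eq_mul_div,
    lt_div_iff₀ (by positivity)] at h2
  refine h2.trans_le ?_
  have := Real.rpow_le_rpow (by positivity) hT hα.le
  rw [Real.mul_rpow hc.le (by positivity), ← Real.rpow_mul p0.le] at this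
  nlinarith

end Pool.Agent.H29.DC
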