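import Pool.Agent.H29.DC5

set_option autoImplicit false

namespace Pool.Agent.H29.DC

open Finset

theorem sg_sum (k t : ℕ) (ht : t < k) : ∑ j ∈ range k, sg ((j : ℤ) - t) = k - 1 - 2 * t := by
  induction k with
  | zero => omega
  | succ k ih =>
    rw [sum_range_succ]
    rcases (Nat.lt_succ_iff.mp ht).eq_or_lt with rfl | h
    · rw [sum_congr rfl (g := fun _ => -1) fun j hj => by
        have : (j : ℤ) < t := by exact_mod_cast mem_range.mp hj
        simp [sg, this, this.not_gt]]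
      simp [sg]; ring
    · have : (t : ℤ) < k := by exact_mod_cast h
      rw [ih h]; simp [sg, this]; ring

theorem window (I : Finset ℤ) (s : ℤ) (k : ℕ) (h : ∀ t ∈ range k, s + t ∈ I) (f : ℤ → ℝ) :
    ∑ v ∈ I, (if s ≤ v ∧ v < s + k then 1 else 0) * f v = ∑ t ∈ range k, f (s + t) := by
  simp only [ite_mul, one_mul, zero_mul, ← sum_filter]
  symm
  refine sum_bij (fun t _ => s + t) (fun t ht => ?_) (fun a _ b _ h => by omega)
    (fun v hv => ?_) fun _ _ => rfl
  · have := mem_range.mp ht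
    exact mem_filter.mpr ⟨h t ht, by omega, by omega⟩
  · have := (mem_filter.mp hv).2
    exact ⟨(v - s).toNat, mem_range.mpr (by omega), by omega⟩

theorem shift (R J : Finset ℤ) (t : ℤ) (h : ∀ a ∈ J, a + t ∈ R) (f : ℤ → ℝ)
    (hf : ∀ a ∉ J, f a = 0) : ∑ s ∈ R, f (s - t) = ∑ a ∈ J, f a := by
  rw [← sum_subset (s₁ := J.image (· + t)) (image_subset_iff.mpr h) fun s _ hs =>
    hf _ fun k => hs (mem_image.mpr ⟨_, k, by ring⟩),
    sum_image fun a _ b _ h => add_right_cancel h]
  simp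

theorem weighted (ν k D : ℕ) (h : 3 * D + 2 * k ≤ ν) : ∃ (K : ℤ → ℤ → ℝ) (L : ℝ),
    (∀ u v, 0 ≤ K u v) ∧ k * D ^ 3 ≤ L ∧ pair (Ico 0 ν) K 1 1 = L * (k * k - k) / 2 ∧
    ∀ x : ℤ → ℝ, (∀ v, x v ^ 2 ≤ 1) → pair (Ico 0 ν) K (1 + x) (1 - x) ≤
      pair (Ico 0 ν) K 1 1 + (ν * k ^ 5 + L * k) / 2 := by
  set g : ℤ → ℝ := fun a => max 0 (min a (3 * D - a)) with hg
  have g0 : ∀ a, 0 ≤ g a := fun a => le_max_left _ _
  have gz : ∀ a ∉ Icc (0 : ℤ) (3 * D), g a = 0 := fun a ha => by
    refine max_eq_left ?_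
    rw [mem_Icc, not_and_or, not_le, not_le] at ha
    rcases ha with ha | ha
    · exact (min_le_left _ _).trans (by exact_mod_cast ha.le)
    · exact (min_le_right _ _).trans (by rw [sub_nonpos]; exact_mod_cast ha.le)
  have gl : ∀ a b : ℤ, |(a : ℝ) - b| ≤ k → |g a - g b| ≤ k := fun a b hab => by
    rw [abs_le] at hab ⊢
    simp only [hg, max_def, min_def]
    split_ifs <;> constructor <;> linarith [hab.1, hab.2]
  set R := Ico (0 : ℤ) (3 * D + k) with hR
  set l : ℤ → ℝ := fun s => ∑ t ∈ range k, g (s - t) ^ 2 with hl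
  set χ : ℤ → ℤ → ℝ := fun s v => if s ≤ v ∧ v < s + k then 1 else 0 with hχ
  set K : ℤ → ℤ → ℝ := fun u v => ∑ s ∈ R, l s * χ s u * χ s v with hK
  have sy : ∀ u v, K u v = K v u := fun u v => sum_congr rfl fun s _ => by ring
  have win : ∀ s ∈ R, ∀ f : ℤ → ℝ, ∑ v ∈ Ico (0 : ℤ) ν, χ s v * f v =
      ∑ t ∈ range k, f (s + t) := fun s hs => window _ s k fun t ht => by
    rw [hR, mem_Ico] at hs
    have := mem_range.mp ht
    rw [mem_Ico]; omega
  have sh : ∀ t ∈ range k, ∀ φ : ℤ → ℝ, ∑ s ∈ R, g (s - t) ^ 2 * φ (s - t) =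
      ∑ a ∈ Icc (0 : ℤ) (3 * D), g a ^ 2 * φ a := fun t ht φ =>
    shift R _ t (fun a ha => by
      have := mem_range.mp ht
      rw [mem_Icc] at ha; rw [hR, mem_Ico]; omega) (fun a => g a ^ 2 * φ a)
      fun a ha => by simp [gz a ha]
  have l0 : ∀ s, 0 ≤ l s := fun s => sum_nonneg fun _ _ => sq_nonneg _
  have qd : ∀ x : ℤ → ℝ, quad (Ico 0 ν) K x = ∑ s ∈ R, l s * (∑ t ∈ range k, x (s + t)) ^ 2 :=
    fun x => by
    simp only [quad, hK, sum_mul]
    rw [sum_congr rfl fun u _ => sum_comm, sum_comm]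
    refine sum_congr rfl fun s hs => ?_
    rw [← win s hs, sq, sum_mul_sum, mul_sum]
    refine sum_congr rfl fun u _ => ?_
    rw [mul_sum]
    exact sum_congr rfl fun v _ => by ring
  have dg : ∀ x : ℤ → ℝ, ∑ v ∈ Ico (0 : ℤ) ν, K v v * x v ^ 2 =
      ∑ s ∈ R, l s * ∑ t ∈ range k, x (s + t) ^ 2 := fun x => by
    simp only [hK, sum_mul]
    rw [sum_comm]
    refine sum_congr rfl fun s hs => ?_
    rw [← win s hs fun v => x v ^ 2, mul_sum]
    refine sum_congr rfl fun v _ => ?_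
    simp only [hχ]; split_ifs <;> ring
  refine ⟨K, ∑ s ∈ R, l s, fun u v => sum_nonneg fun s _ => ?_, ?_, ?_, fun x hx => ?_⟩
  · have := l0 s
    simp only [hχ]; split_ifs <;> simp [this]
  · rw [hl, sum_comm, ← nsmul_eq_mul]
    nth_rewrite 1 [← card_range k]
    refine card_nsmul_le_sum _ _ _ fun t ht => ?_
    have := sh t ht 1
    simp only [Pi.one_apply, mul_one] at this
    rw [this]
    refine le_trans ?_ (sum_le_sum_of_subset_of_nonneg (s := Ico (D : ℤ) (2 * D))
      (fun a ha => by rw [mem_Ico] at ha; rw [mem_Icc]; omega) fun _ _ _ => sq_nonneg _)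
    refine le_trans (le_of_eq ?_) (card_nsmul_le_sum _ _ ((D : ℝ) ^ 2) fun a ha => ?_)
    · have : (Ico (D : ℤ) (2 * D)).card = D := by rw [Int.card_Ico]; omega
      rw [this, nsmul_eq_mul]; ring
    · rw [mem_Ico] at ha
      have a1 : (D : ℝ) ≤ a := by exact_mod_cast ha.1
      have a2 : (a : ℝ) ≤ 2 * D := by exact_mod_cast ha.2.le
      exact pow_le_pow_left₀ (by positivity) (le_max_of_le_right (le_min a1 (by linarith))) 2
  · have := quad_eq (Ico 0 ν) K sy 1
    rw [qd, dg] at this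
    simp only [Pi.one_apply, one_pow, sum_const, card_range, nsmul_eq_mul, mul_one,
      ← sum_mul] at this
    linarith
  · rw [cut_eq _ _ sy, qd, dg]
    set S : ℤ → ℝ := fun s => ∑ t ∈ range k, x (s + t) with hS
    have a1 : ∑ s ∈ R, l s * ∑ t ∈ range k, x (s + t) ^ 2 ≤ (∑ s ∈ R, l s) * k := by
      rw [sum_mul]
      exact sum_le_sum fun s _ => mul_le_mul_of_nonneg_left
        ((sum_le_card_nsmul _ _ 1 fun t _ => hx _).trans (by simp)) (l0 s)
    have a2 : lin (Ico 0 ν) K x 1 =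
        ∑ t ∈ range k, ∑ s ∈ R, (k - 1 - 2 * t) * (g (s - t) ^ 2 * S s) := by
      have b1 : lin (Ico 0 ν) K x 1 =
          ∑ s ∈ R, l s * ∑ t ∈ range k, (k - 1 - 2 * t) * x (s + t) := by
        simp only [lin, hK, sum_mul, mul_sum, Pi.one_apply, mul_one]
        rw [sum_congr rfl fun u _ => sum_comm, sum_comm]
        refine sum_congr rfl fun s hs => ?_
        have : ∀ v, ∑ u ∈ Ico (0 : ℤ) ν, x v * (l s * χ s u * χ s v * sg (u - v)) =
            χ s v * (l s * x v * ∑ j ∈ range k, sg (s + j - v)) := fun v => by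
          rw [← win s hs fun u => sg (u - v), mul_sum, mul_sum]
          exact sum_congr rfl fun u _ => by ring
        rw [sum_congr rfl fun v _ => this v,
          win s hs fun v => l s * x v * ∑ j ∈ range k, sg (s + j - v)]
        refine sum_congr rfl fun t ht => ?_
        simp only [add_sub_add_left_eq_sub]
        rw [sg_sum k t (mem_range.mp ht)]; ring
      rw [b1]
      simp only [hl, hS, sum_mul, mul_sum]
      rw [sum_comm]
      refine sum_congr rfl fun t ht => ?_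
      rw [sum_comm, sum_comm (s := R)]
      refine sum_congr rfl fun j hj => ?_
      have c1 := sh j hj fun a => (k - 1 - 2 * t) * x (a + j + t)
      have c2 := sh t ht fun a => (k - 1 - 2 * t) * x (a + j + t)
      simp only [sub_add_cancel] at c1
      rw [c1, ← c2]
      refine sum_congr rfl fun s _ => ?_
      rw [show s - t + j + t = s + j by ring]; ring
    have rf : ∀ F : ℝ → ℤ → ℝ, ∑ t ∈ range k, F t t =
        ∑ t ∈ range k, F (k - 1 - t) (k - 1 - t) := fun F => by
      rw [← sum_range_reflect]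
      refine sum_congr rfl fun t ht => ?_
      have := mem_range.mp ht
      rw [Nat.sub_sub, Nat.cast_sub (by omega), Nat.cast_sub (by omega)]
      push_cast
      congr 1 <;> ring
    have a3 := rf fun a b => ∑ s ∈ R, (k - 1 - 2 * a) * (g (s - b) ^ 2 * S s)
    have a4 := rf fun _ b => ∑ s ∈ R, g (s - b) ^ 2 * S s ^ 2
    have a5 : ∑ s ∈ R, l s * S s ^ 2 = ∑ t ∈ range k, ∑ s ∈ R, g (s - t) ^ 2 * S s ^ 2 := by
      simp only [hl, sum_mul]; exact sum_comm
    have a6 : ∑ t ∈ range k, ∑ s ∈ R, ((k - 1 - 2 * t) * (g (s - t) ^ 2 * S s) +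
        (k - 1 - 2 * (k - 1 - t)) * (g (s - (k - 1 - t)) ^ 2 * S s)) ≤ ∑ t ∈ range k, ∑ s ∈ R,
        ((g (s - t) ^ 2 * S s ^ 2 + g (s - (k - 1 - t)) ^ 2 * S s ^ 2) / 2 + k ^ 4) :=
      sum_le_sum fun t ht => sum_le_sum fun s _ => by
        have t1 : (t : ℝ) + 1 ≤ k := by exact_mod_cast mem_range.mp ht
        have t0 : (0 : ℝ) ≤ t := by positivity
        have b1 : |(k - 1 - 2 * t : ℝ)| ≤ k := by rw [abs_le]; constructor <;> linarith
        have b2 := gl (s - t) (s - (k - 1 - t)) (by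
          push_cast; rw [abs_le]; constructor <;> linarith)
        have b3 := g0 (s - t)
        have b4 := g0 (s - (k - 1 - t))
        generalize g (s - t) = p at *
        generalize g (s - (k - 1 - t)) = q at *
        have b5 : |(k - 1 - 2 * t) * (p - q) * S s| ≤ k * k * |S s| := by
          rw [abs_mul, abs_mul]; gcongr
        have b6 := mul_le_mul_of_nonneg_left ((le_abs_self _).trans b5) (add_nonneg b3 b4)
        rw [← sq_abs (S s)]
        nlinarith [sq_nonneg (p * |S s| - k ^ 2), sq_nonneg (q * |S s| - k ^ 2)]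
    have cR : (R.card : ℝ) ≤ ν := by
      have : R.card ≤ ν := by rw [hR, Int.card_Ico]; omega
      exact_mod_cast this
    simp only [sum_add_distrib, ← sum_div, sum_const, card_range, nsmul_eq_mul] at a6
    rw [← a3, ← a4, ← a5, ← a2] at a6
    have := mul_le_mul_of_nonneg_right cR (by positivity : (0 : ℝ) ≤ k ^ 5)
    nlinarith

end Pool.Agent.H29.DC
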