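import Pool.Agent.H29.DC6

set_option autoImplicit false

namespace Pool.Agent.H29.DC

open Finset

theorem transfer2 (I : Finset ℤ) (K : ℤ → ℤ → ℝ) (y : ℤ → ℝ) (hy : ∀ v, y v = 0 ∨ y v = 1)
    (B : ℝ) (h : ∀ x : ℤ → ℝ, (∀ v, x v ^ 2 ≤ 1) → (∀ v, y v = 0 → x v = 0) →
      pair I K (y + x) (y - x) ≤ pair I K y y + B)
    (X : Finset I) : ∑ u ∈ X, ∑ v ∈ Xᶜ, (if u.1 < v.1 then K u v * y u * y v else 0) ≤
      pair I K y y / 4 + B / 4 := by
  set x : ℤ → ℝ := fun v => if v ∈ X.image Subtype.val then y v else -y v with hx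
  have := h x (fun v => by
    simp only [hx]
    rcases hy v with h | h <;> split_ifs <;> simp [h]) fun v hv => by simp [hx, hv]
  have e : pair I K (y + x) (y - x) =
      4 * ∑ u ∈ X, ∑ v ∈ Xᶜ, (if u.1 < v.1 then K u v * y u * y v else 0) := by
    have m : ∀ v : I, v.1 ∈ X.image Subtype.val ↔ v ∈ X := fun v =>
      Subtype.val_injective.mem_finset_image
    rw [pair, ← sum_coe_sort, mul_sum, ← sum_subset (subset_univ X) fun u _ hu =>
      sum_eq_zero fun v _ => by simp only [hx, Pi.add_apply, m, hu]; simp]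
    refine sum_congr rfl fun u hu => ?_
    rw [← sum_coe_sort, mul_sum, ← sum_subset (subset_univ Xᶜ) fun v _ hv => by
      simp only [hx, Pi.sub_apply, m, not_not.mp (mem_compl.not.mp hv)]; simp]
    refine sum_congr rfl fun v hv => ?_
    simp only [hx, Pi.add_apply, Pi.sub_apply, m, hu, mem_compl.mp hv, if_true, if_false]
    split_ifs <;> ring
  linarith

theorem pair_ge (I : Finset ℤ) {Q p : ℕ} {g : ℤ → ℤ} (h : Good Q p g) (y : ℤ → ℝ)
    (y0 : ∀ v, y v = 0 ∨ y v = 1) (A B : ℤ) (h1 : ∀ v, A ≤ v → v ≤ B → v ∈ I ∧ y v = 1) :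
    (B - A + 1 - 2 * Q * p : ℝ) * Q ≤ 2 * pair I (ind g) y y + I.card := by
  have yn : ∀ v, 0 ≤ y v := fun v => by rcases y0 v with h | h <;> simp [h]
  have a2 := quad_eq I (ind g) (fun u v => by simp [ind, eq_comm]) y
  have a3 : ∑ v ∈ I, ind g v v * y v ^ 2 ≤ I.card :=
    (sum_le_card_nsmul _ _ 1 fun v _ => by rcases y0 v with h | h <;> simp [h, ind]).trans
      (by simp)
  obtain ⟨D, hD⟩ : ∃ D : ℤ, D = Q * p := ⟨_, rfl⟩
  have D0 : 0 ≤ D := by rw [hD]; positivity
  set M := Icc (A + D) (B - D) with hM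
  have a4 : (M.card : ℝ) * Q ≤ quad I (ind g) y := by
    have nn : ∀ u v, 0 ≤ ind g u v * y u * y v := fun u v =>
      mul_nonneg (mul_nonneg (by unfold ind; split_ifs <;> norm_num) (yn u)) (yn v)
    refine le_trans ?_ (sum_le_sum_of_subset_of_nonneg (s := M) (fun u hu => ?_)
      fun u _ _ => sum_nonneg fun v _ => nn u v)
    · rw [← nsmul_eq_mul]
      refine card_nsmul_le_sum _ _ _ fun u hu => ?_
      obtain ⟨F, hF, hc⟩ := h.2 (g u)
      have near : ∀ v ∈ F, v ∈ I ∧ y v = 1 := fun v hv => by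
        have b1 := h.1 u
        have b2 := h.1 v
        rw [(hF v).mp hv] at b2
        have := neg_abs_le (u - Q * g u)
        have := le_abs_self (u - Q * g u)
        have := neg_abs_le (v - Q * g u)
        have := le_abs_self (v - Q * g u)
        rw [hM, mem_Icc] at hu
        exact h1 v (by omega) (by omega)
      refine le_trans ?_ (sum_le_sum_of_subset_of_nonneg (s := F) (fun v hv => (near v hv).1)
        fun v _ _ => nn u v)
      rw [sum_congr rfl fun v hv => (by
        rw [(near v hv).2, (near u ((hF u).mpr rfl)).2, ind, if_pos ((hF v).mp hv).symm]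
        norm_num : ind g u v * y u * y v = 1)]
      simp [hc]
    · rw [hM, mem_Icc] at hu
      exact (h1 u (by omega) (by omega)).1
  have a5 : (B - A + 1 - 2 * Q * p : ℝ) ≤ M.card := by
    have : B - A + 1 - 2 * D ≤ M.card := by rw [hM, Int.card_Icc]; omega
    rw [hD, ← mul_assoc] at this
    exact_mod_cast this
  nlinarith [mul_le_mul_of_nonneg_right a5 (by positivity : (0 : ℝ) ≤ Q)]

theorem fiber_sum (I : Finset ℤ) {e : ℤ} (he : e = 1 ∨ e = -1) {q : ℕ} (hq : 4 ≤ q) (φ : ℤ → ℝ)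
    (h0 : ∀ u ∉ I, φ u = 0) (A : ℤ) : ∑ u ∈ I, φ u * ind (st e q) u A =
      ∑ i ∈ range q, φ (q * st e q A + (e * q + 1) * i) := by
  simp only [ind, mul_ite, mul_one, mul_zero, ← sum_filter]
  rw [← sum_image (g := fun i : ℕ => q * st e q A + (e * q + 1) * i)
    fun i _ j _ h => child_inj he hq _ _ _ h]
  refine sum_subset (fun u hu => ?_) fun u hu hu' => h0 u fun k => hu' ?_
  · obtain ⟨i, hi, h⟩ := (st_iff (by omega) _ _).mp (mem_filter.mp hu).2
    exact mem_image.mpr ⟨i, hi, h.symm⟩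
  · obtain ⟨i, hi, h⟩ := mem_image.mp hu
    exact mem_filter.mpr ⟨k, (st_iff (by omega) _ _).mpr ⟨i, hi, h.symm⟩⟩

theorem count (s : Finset ℕ) (f : ℕ → ℤ) (hf : Function.Injective f) (H ρ : ℝ) (h : 0 ≤ ρ) :
    (#{i ∈ s | |(f i : ℝ) - H| ≤ ρ} : ℝ) ≤ 2 * ρ + 1 := by
  have : #{i ∈ s | |(f i : ℝ) - H| ≤ ρ} ≤ (Icc ⌈H - ρ⌉ ⌊H + ρ⌋).card :=
    card_le_card_of_injOn f (fun i hi => by
      have := abs_le.mp (mem_filter.mp hi).2
      simp only [coe_Icc, Set.mem_Icc, Int.ceil_le, Int.le_floor]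
      constructor <;> linarith [this.1, this.2]) hf.injOn
  refine (Nat.cast_le.mpr this).trans ?_
  have a := Int.le_ceil (H - ρ)
  have b := Int.floor_le (H + ρ)
  rw [Int.card_Icc]
  rcases le_total 0 (⌊H + ρ⌋ + 1 - ⌈H - ρ⌉) with k | k
  · have : (((⌊H + ρ⌋ + 1 - ⌈H - ρ⌉).toNat : ℤ) : ℝ) = (⌊H + ρ⌋ + 1 - ⌈H - ρ⌉ : ℤ) := by
      rw [Int.toNat_of_nonneg k]
    push_cast at this
    linarith
  · rw [Int.toNat_eq_zero.mpr k]; simp; linarith

noncomputable def mu (c : ℕ) (h : ℤ → ℝ) (e a : ℤ) : ℝ :=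
  ∑ i ∈ range (2 * c + 1), e * sg (i - c) * if |(i : ℝ) - c| ≤ h (a + e * i) then 1 else 0

theorem mu_le (c : ℕ) (h : ℤ → ℝ) (l : ℝ) (l0 : 0 ≤ l)
    (hl : ∀ u v, |h u - h v| ≤ l * |((u - v : ℤ) : ℝ)|) {e : ℤ} (he : e = 1 ∨ e = -1) (a : ℤ) :
    |mu c h e a| ≤ 2 * (l * c) + 1 := by
  have r : mu c h e a = ∑ i ∈ range (2 * c + 1), -(e * sg (i - c) *
      if |(i : ℝ) - c| ≤ h (a + e * (2 * c - i)) then 1 else 0) := by
    rw [mu, ← sum_range_reflect]
    refine sum_congr rfl fun i hi => ?_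
    have := mem_range.mp hi
    rw [Nat.add_sub_cancel, Nat.cast_sub (by omega), Nat.cast_sub (by omega)]
    push_cast
    rw [show 2 * (c : ℝ) - i - c = -(i - c) by ring, abs_neg]
    have : sg (2 * c - i - c) = -sg (i - c) := by unfold sg; split_ifs <;> first | omega | simp
    rw [this]; ring
  have nr : ∀ j : ℤ, 0 ≤ j → j ≤ 2 * c → |h (a + e * j) - h (a + e * c)| ≤ l * c :=
    fun j j0 j1 => (hl _ _).trans (mul_le_mul_of_nonneg_left (by
      have : |a + e * j - (a + e * c)| ≤ c := by rw [abs_le]; rcases he with rfl | rfl <;> omega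
      exact_mod_cast this) l0)
  have b : |2 * mu c h e a| ≤ ∑ i ∈ range (2 * c + 1),
      ((if |((i - c : ℤ) : ℝ) - h (a + e * c)| ≤ l * c then 1 else 0) +
       if |((c - i : ℤ) : ℝ) - h (a + e * c)| ≤ l * c then 1 else 0) := by
    rw [two_mul]
    nth_rewrite 2 [r]
    rw [mu, ← sum_add_distrib]
    refine (abs_sum_le_sum_abs _ _).trans (sum_le_sum fun i hi => ?_)
    have := mem_range.mp hi
    have n1 := abs_le.mp (nr i (by omega) (by omega))
    have n2 := abs_le.mp (nr (2 * c - i) (by omega) (by omega))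
    have s1 : |e * sg (i - c)| ≤ 1 := by
      rcases he with rfl | rfl <;> simpa using sg_abs _
    have p : (0 : ℝ) ≤ (if |((i - c : ℤ) : ℝ) - h (a + e * c)| ≤ l * c then 1 else 0) +
       if |((c - i : ℤ) : ℝ) - h (a + e * c)| ≤ l * c then 1 else 0 := by positivity
    have p1 : |(|(i : ℝ) - c| - h (a + e * c))| ≤ l * c → (1 : ℝ) ≤
        (if |((i - c : ℤ) : ℝ) - h (a + e * c)| ≤ l * c then 1 else 0) +
        if |((c - i : ℤ) : ℝ) - h (a + e * c)| ≤ l * c then 1 else 0 := fun k => by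
      push_cast
      rcases abs_cases ((i : ℝ) - c) with z | z <;> rw [z.1] at k
      · rw [if_pos k]; split_ifs <;> norm_num
      · rw [neg_sub] at k; rw [if_pos k]; split_ifs <;> norm_num
    by_cases k1 : |(i : ℝ) - c| ≤ h (a + e * i) <;>
      by_cases k2 : |(i : ℝ) - c| ≤ h (a + e * (2 * c - i))
    · simpa [k1, k2] using p
    · refine le_trans (by simpa [k1, k2] using s1) (p1 ?_)
      rw [abs_le]; constructor <;> linarith [n1.1, n1.2, n2.1, n2.2]
    · refine le_trans (by simpa [k1, k2] using s1) (p1 ?_)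
      rw [abs_le]; constructor <;> linarith [n1.1, n1.2, n2.1, n2.2]
    · simpa [k1, k2] using p
  rw [sum_add_distrib, sum_boole, sum_boole, abs_mul, abs_two] at b
  have c1 := count (range (2 * c + 1)) (fun i => i - c) (fun _ _ k => by simpa using k)
    (h (a + e * c)) (l * c) (by positivity)
  have c2 := count (range (2 * c + 1)) (fun i => c - i) (fun _ _ k => by simpa using k)
    (h (a + e * c)) (l * c) (by positivity)
  linarith

theorem err_eq (I : Finset ℤ) (c : ℕ) (hc : 2 ≤ c) (h : ℤ → ℝ)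
    (hl : ∀ u v, |h u - h v| ≤ |((u - v : ℤ) : ℝ)|) (y : ℤ → ℝ)
    (hy : ∀ V, y V = if |((V % (2 * c + 1 : ℕ) : ℤ) : ℝ) - c| ≤ h (V / (2 * c + 1 : ℕ)) then 1 else 0)
    (h0 : ∀ u ∉ I, y u = 0) (V : ℤ) (hV : y V ≠ 0) : err I (2 * c + 1) id y V =
      mu c h 1 (st 1 (2 * c + 1) V) + mu c h (-1) (st (-1) (2 * c + 1) V) := by
  set q := 2 * c + 1 with hq
  have q0 : (5 : ℤ) ≤ q := by omega
  have i0 := Int.emod_nonneg V (by omega : (q : ℤ) ≠ 0)
  have i1 := Int.emod_lt_of_pos V (by omega : (0 : ℤ) < q)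
  have k : ∀ e : ℤ, e = 1 ∨ e = -1 → ∑ u ∈ I, y u * sg (u - V) * ind (st e q) u V =
      ∑ i ∈ range q, e * sg (i - V % q) *
        if |(i : ℝ) - c| ≤ h (st e q V + e * i) then 1 else 0 := fun e he => by
    rw [fiber_sum I he (by omega) (fun u => y u * sg (u - V)) fun u hu => by simp [h0 u hu]]
    refine sum_congr rfl fun i hi => ?_
    have hi' : (i : ℤ) < q := by exact_mod_cast mem_range.mp hi
    have d := (Int.ediv_emod_unique (a := q * st e q V + (e * q + 1) * i) (r := i)
      (q := st e q V + e * i) (by omega : (0 : ℤ) < q)).mpr ⟨by ring, by positivity, hi'⟩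
    have : q * st e q V + (e * q + 1) * i - V = (e * q + 1) * (i - V % q) := by
      linear_combination -st_self (e := e) (q := q) V
    rw [hy, d.1, d.2, this, mul_comm]
    congr 1
    generalize (i : ℤ) - V % q = t
    rcases lt_trichotomy t 0 with a | a | a <;> rcases he with rfl | rfl
    · have : (1 * (q : ℤ) + 1) * t < 0 := by nlinarith
      simp only [sg, this, this.not_gt, a, a.not_gt]; norm_num
    · have : 0 < (-1 * (q : ℤ) + 1) * t := by nlinarith
      simp only [sg, this, a, a.not_gt]; norm_num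
    · simp [a, sg]
    · simp [a, sg]
    · have : 0 < (1 * (q : ℤ) + 1) * t := by nlinarith
      simp only [sg, this, a]; norm_num
    · have : (-1 * (q : ℤ) + 1) * t < 0 := by nlinarith
      simp only [sg, this, this.not_gt, a]; norm_num
  have e1 : err I q id y V = ∑ u ∈ I, y u * sg (u - V) * ind (st 1 q) u V +
      ∑ u ∈ I, y u * sg (u - V) * ind (st (-1) q) u V := by
    rw [err, ← sum_add_distrib]
    exact sum_congr rfl fun u _ => by simp only [co, id]; ring
  rw [e1, k 1 (by simp), k (-1) (by simp), mu, mu, ← sum_add_distrib, ← sum_add_distrib]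
  refine sum_congr rfl fun i _ => ?_
  have v1 : |((V % q : ℤ) : ℝ) - c| ≤ h (V / q) := by
    by_contra k; exact hV (by rw [hy, if_neg k])
  by_cases z : sg (i - V % q) = sg (i - c)
  · rw [z]
  have one : ∀ e : ℤ, e = 1 ∨ e = -1 → |(i : ℝ) - c| ≤ h (st e q V + e * i) := fun e he => by
    have a1 := (abs_le.mp (hl (st e q V + e * i) (V / q))).1
    have a2 : |(i : ℤ) - c| + |st e q V + e * i - V / q| ≤ |V % q - c| := by
      rw [st]
      generalize V % q = j at *
      have : j ≤ i ∧ (i : ℤ) ≤ c ∨ (c : ℤ) ≤ i ∧ i ≤ j := by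
        unfold sg at z
        split_ifs at z <;> first | omega | exact absurd rfl z
      rcases he with rfl | rfl <;> simp only [Int.abs_eq_natAbs] <;> omega
    have a3 : |(i : ℝ) - c| + |((st e q V + e * i - V / q : ℤ) : ℝ)| ≤ |((V % q : ℤ) : ℝ) - c| := by
      exact_mod_cast a2
    linarith
  rw [if_pos (one 1 (by simp)), if_pos (one (-1) (by simp))]
  push_cast; ring

theorem simple (s : ℕ) (hs : 400 ≤ s) : ∃ (I : Finset ℤ) (K : ℤ → ℤ → ℝ) (y : ℤ → ℝ),
    (∀ u v, u < v → K u v = 0 ∨ K u v = 1) ∧ (∀ v, y v = 0 ∨ y v = 1) ∧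
    (1 / 4 * (s : ℝ) ^ 7 ≤ pair I K y y ∧ pair I K y y ≤ 36 * (s : ℝ) ^ 7) ∧
    ∀ x : ℤ → ℝ, (∀ v, x v ^ 2 ≤ 1) → (∀ v, y v = 0 → x v = 0) →
      pair I K (y + x) (y - x) ≤ pair I K y y + 252 * (s : ℝ) ^ 5 := by
  obtain ⟨c, hc⟩ : ∃ c, c = s ^ 2 := ⟨_, rfl⟩
  obtain ⟨M, hM⟩ : ∃ M, M = s ^ 3 := ⟨_, rfl⟩
  have sR : (400 : ℝ) ≤ s := by exact_mod_cast hs
  have cR : (c : ℝ) = s ^ 2 := by exact_mod_cast hc
  have MR : (M : ℝ) = s ^ 3 := by exact_mod_cast hM
  have c2 : 400 ≤ c := by nlinarith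
  have cM : 400 * c ≤ M := by nlinarith
  have M0 : 0 < M := by omega
  set q := 2 * c + 1 with hq
  have q0 : (0 : ℤ) < q := by omega
  set h : ℤ → ℝ := fun u => (c + 1) * trap M u - 1 with hh
  have hl : ∀ u v, |h u - h v| ≤ 4 / s * |((u - v : ℤ) : ℝ)| := fun u v => by
    have : h u - h v = (c + 1) * (trap M u - trap M v) := by simp only [hh]; ring
    rw [this, abs_mul, abs_of_nonneg (by positivity : (0 : ℝ) ≤ c + 1)]
    refine (mul_le_mul_of_nonneg_left (trap_lip M u v) (by positivity)).trans ?_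
    rw [← mul_assoc]
    refine mul_le_mul_of_nonneg_right ?_ (abs_nonneg _)
    rw [cR, MR, ← mul_div_assoc, div_le_div_iff₀ (by positivity) (by positivity)]
    nlinarith [mul_pos (by linarith : (0 : ℝ) < s) (by nlinarith : (0 : ℝ) < s ^ 2 - 3)]
  set y : ℤ → ℝ := fun V => if |((V % q : ℤ) : ℝ) - c| ≤ h (V / q) then 1 else 0 with hy
  have y0 : ∀ v, y v = 0 ∨ y v = 1 := fun v => by simp only [hy]; split_ifs <;> simp
  set I := Ico (0 : ℤ) (q * (M + 1)) with hI
  have yI : ∀ u ∉ I, y u = 0 := fun u hu => if_neg fun k => hu (by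
    have : u / q ∈ Icc (0 : ℤ) M := by
      by_contra n
      simp only [hh, trap_zero M0 _ n] at k
      linarith [abs_nonneg (((u % q : ℤ) : ℝ) - c)]
    rw [mem_Icc] at this
    have := Int.mul_ediv_add_emod u q
    have := Int.emod_nonneg u q0.ne'
    have := Int.emod_lt_of_pos u q0
    rw [hI, mem_Ico]
    constructor <;> nlinarith)
  have cI : (I.card : ℝ) = q * (M + 1) := by
    have : (I.card : ℤ) = q * (M + 1) := by
      rw [hI, Int.card_Ico, sub_zero, Int.toNat_of_nonneg (by positivity)]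
    exact_mod_cast this
  have qR : (q : ℝ) = 2 * s ^ 2 + 1 := by rw [hq]; push_cast; rw [cR]
  have a8 : (q : ℝ) * (M + 1) ≤ 6 * s ^ 5 := by
    rw [qR, MR]
    have : (1 : ℝ) ≤ s ^ 2 := by nlinarith
    have : (1 : ℝ) ≤ s ^ 3 := by nlinarith
    calc _ ≤ (3 * (s : ℝ) ^ 2) * (2 * s ^ 3) := by gcongr <;> linarith
      _ = _ := by ring
  refine ⟨I, ind (st 1 q) + ind (st (-1) q), y, fun u v huv => ?_, y0, ⟨?_, ?_⟩,
    fun x hx hx' => ?_⟩
  · simp only [ind, Pi.add_apply]
    split_ifs with a b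
    · have d1 := Int.mul_ediv_add_emod u q
      have d2 := Int.mul_ediv_add_emod v q
      simp only [st] at a b
      have e1 : u / q = v / q := by omega
      have e2 : u % q = v % q := by omega
      rw [e1, e2] at d1
      omega
    all_goals simp
  · have a1 := pair_ge I (good_step (Or.inl rfl) (by omega : 4 ≤ q) (good_id q)) y y0
      (q * ((M / 3 : ℕ) + 1)) (q * (2 * M / 3 : ℕ)) fun v h1 h2 => by
        have b1 := Int.le_ediv_of_mul_le q0 ((mul_comm _ _).trans_le h1)
        have b2 := Int.ediv_le_of_le_mul q0 (h2.trans_eq (mul_comm _ _))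
        have b3 : y v = 1 := if_pos (by
          simp only [hh, trap_one M0 (v / q) (by omega) (by omega)]
          have := Int.emod_nonneg v q0.ne'
          have := Int.emod_lt_of_pos v q0
          have : |v % q - c| ≤ c := by rw [abs_le]; omega
          have : |((v % q : ℤ) : ℝ) - c| ≤ c := by exact_mod_cast this
          linarith)
        exact ⟨by by_contra n; rw [yI v n] at b3; norm_num at b3, b3⟩
    have a2 : pair I (ind (st 1 q ∘ id)) y y ≤ pair I (ind (st 1 q) + ind (st (-1) q)) y y :=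
      sum_le_sum fun u _ => sum_le_sum fun v _ => by
        simp only [ind, Pi.add_apply, Function.comp, id]
        rcases y0 u with a | a <;> rcases y0 v with b | b <;> split_ifs <;> simp [a, b]
    have a3 : (M : ℝ) + 4 * (10 * q + 1 + (M / 3 : ℕ)) ≤ 4 * (2 * M / 3 : ℕ) := by
      have : M + 4 * (10 * q + 1 + M / 3) ≤ 4 * (2 * M / 3) := by omega
      exact_mod_cast this
    rw [cI] at a1
    simp only [Int.cast_mul, Int.cast_add, Int.cast_natCast, Nat.cast_mul, one_mul, Int.cast_one,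
      Nat.cast_ofNat] at a1
    have qp : (16 : ℝ) ≤ q := by nlinarith
    have Mp : (1 : ℝ) ≤ M := by exact_mod_cast M0
    have a4 := mul_le_mul_of_nonneg_left a3 (by positivity : (0 : ℝ) ≤ q * q)
    have a5 : 4 * (s : ℝ) ^ 7 ≤ q * q * M := by
      rw [qR, MR]; nlinarith [pow_pos (by linarith : (0 : ℝ) < s) 5, pow_pos (by linarith : (0 : ℝ) < s) 3]
    nlinarith [mul_nonneg (sub_nonneg.mpr qp) (by positivity : (0 : ℝ) ≤ q * M),
      mul_nonneg (sub_nonneg.mpr Mp) (by positivity : (0 : ℝ) ≤ q)]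
  · have b : ∀ e : ℤ, e = 1 ∨ e = -1 → ∀ u, ∑ v ∈ I, y v * ind (st e q) v u ≤ q := fun e he u => by
      rw [fiber_sum I he (by omega) y yI]
      exact (sum_le_card_nsmul _ _ 1 fun i _ => by
        rcases y0 (q * st e q u + (e * q + 1) * i) with h | h <;> simp [h]).trans (by simp)
    refine (sum_le_card_nsmul _ _ (2 * q : ℝ) fun u _ => le_trans (sum_le_sum
      (g := fun v => y v * ind (st 1 q) v u + y v * ind (st (-1) q) v u) fun v _ => ?_) ?_).trans ?_
    · simp only [ind, Pi.add_apply, eq_comm]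
      rcases y0 u with a | a <;> rcases y0 v with b | b <;> split_ifs <;> simp [a, b]
    · rw [sum_add_distrib]; linarith [b 1 (by simp) u, b (-1) (by simp) u]
    · rw [nsmul_eq_mul, cI]
      calc _ ≤ (6 * (s : ℝ) ^ 5) * (6 * s ^ 2) :=
            mul_le_mul a8 (by nlinarith) (by positivity) (by positivity)
        _ = _ := by ring
  · rw [cut_eq _ _ fun u v => by simp [ind, eq_comm]]
    have a1 := lin_step I (by omega : 4 ≤ q) (good_id q) x y
    have a2 : lin I (ind id) x y = 0 :=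
      sum_eq_zero fun v _ => mul_eq_zero_of_right _ (sum_eq_zero fun u _ => by
        by_cases h : u = v <;> simp [ind, h, sg])
    have a3 : ∑ v ∈ I, x v * err I q id y (id v) =
        ∑ v ∈ I, x v * mu c h 1 (st 1 q v) + ∑ v ∈ I, x v * mu c h (-1) (st (-1) q v) := by
      rw [← sum_add_distrib]
      refine sum_congr rfl fun v _ => ?_
      by_cases k : y v = 0
      · simp [hx' v k]
      · rw [id, err_eq I c (by omega) h (fun u v => (hl u v).trans (mul_le_of_le_one_left
          (abs_nonneg _) (by rw [div_le_one (by positivity)]; linarith))) y (fun _ => rfl) yI v k]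
        ring
    have a4 : ∀ e : ℤ, e = 1 ∨ e = -1 →
        ∑ A ∈ I.image (st e q), mu c h e A ^ 2 ≤ 243 * (s : ℝ) ^ 5 := fun e he => by
      have b1 : ∀ A, mu c h e A ^ 2 ≤ (9 * s) ^ 2 := fun A => by
        have := mu_le c h (4 / s) (by positivity) hl he A
        have e : 4 / (s : ℝ) * c = 4 * s := by rw [cR]; field_simp
        rw [e] at this
        exact sq_le_sq' (by linarith [(abs_le.mp this).1]) (by linarith [(abs_le.mp this).2])
      have b2 : (I.image (st e q)).card ≤ 3 * M := by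
        have : I.image (st e q) ⊆ Icc (-q : ℤ) (M + q) := fun A hA => by
          obtain ⟨v, hv, rfl⟩ := mem_image.mp hA
          rw [hI, mem_Ico] at hv
          have := Int.ediv_nonneg hv.1 q0.le
          have := Int.ediv_lt_of_lt_mul q0 (by rw [mul_comm]; exact hv.2)
          have := Int.emod_nonneg v q0.ne'
          have := Int.emod_lt_of_pos v q0
          rw [mem_Icc, st]
          rcases he with rfl | rfl <;> omega
        have := card_le_card this
        rw [Int.card_Icc] at this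
        omega
      have b3 : ((I.image (st e q)).card : ℝ) ≤ 3 * s ^ 3 := by rw [← MR]; exact_mod_cast b2
      refine (sum_le_card_nsmul _ _ _ fun A _ => b1 A).trans ?_
      rw [nsmul_eq_mul]
      nlinarith [mul_le_mul_of_nonneg_right b3 (sq_nonneg (9 * (s : ℝ)))]
    have a5 := absorb I (st 1 q) x (mu c h 1)
    have a6 := absorb I (st (-1) q) x (mu c h (-1))
    have a7 : ∑ v ∈ I, (ind (st 1 q) + ind (st (-1) q)) v v * x v ^ 2 ≤ 2 * (q * (M + 1)) := by
      rw [← cI, mul_comm (2 : ℝ), ← nsmul_eq_mul]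
      exact sum_le_card_nsmul _ _ _ fun v _ => by
        simp only [ind, Pi.add_apply, if_true]; linarith [hx v]
    have l : lin I (ind (st 1 q) + ind (st (-1) q)) x y =
        lin I (ind (st 1 q ∘ id)) x y + lin I (ind (st (-1) q ∘ id)) x y := by
      simp only [lin, Pi.add_apply, add_mul, sum_add_distrib, mul_add, Function.comp_id]
    have l' : quad I (ind (st 1 q) + ind (st (-1) q)) x =
        quad I (ind (st 1 q)) x + quad I (ind (st (-1) q)) x := by
      simp only [quad, Pi.add_apply, add_mul, sum_add_distrib]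
    have := a4 1 (by simp)
    have := a4 (-1) (by simp)
    have : (0 : ℝ) ≤ s ^ 5 := by positivity
    linarith

end Pool.Agent.H29.DC
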