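import Pool.Agent.H29.DC7

set_option autoImplicit false

namespace Pool.Agent.H29.DC

open Finset

def P (S : Set ℝ) (T e : ℝ) : Prop :=
  ∃ (V : Type) (_ : Fintype V) (_ : DecidableEq V) (w : V → V → ℝ) (f : V → ℤ),
    (∀ u v, w u v ∈ S) ∧ (∀ u v, w u v ≠ 0 → f u < f v) ∧ ∑ u, ∑ v, w u v = T ∧
    ∀ X : V → Bool, (∑ u, ∑ v, if X u ∧ ¬ X v then w u v else 0) ≤ T / 4 + e

variable {S : Set ℝ}

theorem P.mono {T e e' : ℝ} (h : P S T e) (h' : e ≤ e') : P S T e' := by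
  obtain ⟨V, i1, i2, w, f, a, b, c, d⟩ := h
  exact ⟨V, i1, i2, w, f, a, b, c, fun X => (d X).trans (by linarith)⟩

theorem P.add (h0 : 0 ∈ S) {T e T' e' : ℝ} (h : P S T e) (h' : P S T' e') :
    P S (T + T') (e + e') := by
  obtain ⟨V, _, _, w, f, a, b, c, d⟩ := h
  obtain ⟨V', _, _, w', f', a', b', c', d'⟩ := h'
  refine ⟨V ⊕ V', inferInstance, inferInstance,
    Sum.elim (fun u => Sum.elim (w u) 0) (fun u => Sum.elim 0 (w' u)), Sum.elim f f',
    ?_, ?_, by simp [c, c'], fun X => ?_⟩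
  · rintro (u | u) (v | v) <;> simp [a, a', h0]
  · rintro (u | u) (v | v) <;> simp
    exacts [b u v, b' u v]
  · have := d (X ∘ Sum.inl)
    have := d' (X ∘ Sum.inr)
    simp only [Fintype.sum_sum_type, Sum.elim_inl, Sum.elim_inr, Pi.zero_apply, ite_self,
      sum_const_zero, add_zero, zero_add, Function.comp] at *
    linarith

theorem P.arc (h0 : 0 ∈ S) {r : ℝ} (h : r ∈ S) (hr : 0 ≤ r) : P S r r :=
  ⟨Bool, inferInstance, inferInstance, fun u v => if ¬ u ∧ v then r else 0,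
    fun u => if u then 1 else 0, fun u v => by beta_reduce; split_ifs <;> assumption,
    by rintro (_ | _) (_ | _) <;> simp, by simp, fun X => by
      simp only [Fintype.sum_bool]
      cases X true <;> cases X false <;> simp <;> linarith⟩

theorem P.smul (h0 : 0 ∈ S) {T e : ℝ} (h : P S T e) (n : ℕ) : P S (n * T) (n * e) := by
  induction n with
  | zero => simpa using P.arc h0 h0 le_rfl
  | succ n ih => simpa [add_mul] using ih.add h0 h

theorem P.all (h0 : 0 ∈ S) (h1 : 1 ∈ S) (α c C₁ C₂ : ℝ) (a d b q₀ : ℕ) (hα : 0 < α) (hc : 0 < c)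
    (hC₁ : 1 ≤ C₁) (hC₂ : 0 ≤ C₂) (hq : 1 ≤ q₀) (had : 1 ≤ a + d) (he : b + d ≤ α * (a + d))
    (h : ∀ q : ℕ, q₀ ≤ q → ∃ T : ℕ, c * q ^ a ≤ T ∧ T ≤ C₁ * q ^ (a + d) ∧ P S T (C₂ * q ^ b)) :
    ∃ C, 0 ≤ C ∧ ∀ m : ℕ, P S m (C * (m : ℝ) ^ α) := by
  have t1 : (1 / 2 : ℝ) ^ α < 1 := Real.rpow_lt_one (by norm_num) (by norm_num) hα
  set C₃ := 2 * C₁ * 2 ^ (a + d) * C₂ / c with hC₃
  set C := max (2 * C₁ * q₀ ^ (a + d)) (C₃ / (1 - (1 / 2) ^ α)) with hC
  have C0 : 0 ≤ C := le_max_of_le_left (by positivity)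
  refine ⟨C, C0, fun m => ?_⟩
  induction m using Nat.strong_induction_on with
  | _ m ih =>
  by_cases hm : (m : ℝ) < 2 * C₁ * q₀ ^ (a + d)
  · have := (P.arc h0 h1 zero_le_one).smul h0 m
    rw [mul_one] at this
    refine this.mono ?_
    rcases Nat.eq_zero_or_pos m with rfl | k
    · simp; positivity
    · have : (1 : ℝ) ≤ (m : ℝ) ^ α := Real.one_le_rpow (by exact_mod_cast k) hα.le
      nlinarith [le_max_left (2 * C₁ * q₀ ^ (a + d)) (C₃ / (1 - (1 / 2) ^ α))]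
  have ex : ∃ n : ℕ, (m : ℝ) < 2 * C₁ * (q₀ + n + 1 : ℕ) ^ (a + d) := ⟨m, by
    have : ((q₀ + m + 1 : ℕ) : ℝ) ≤ (q₀ + m + 1 : ℕ) ^ (a + d) := by
      exact_mod_cast Nat.le_self_pow (by omega) _
    have : (m : ℝ) < (q₀ + m + 1 : ℕ) := by exact_mod_cast (by omega)
    nlinarith⟩
  classical
  obtain ⟨q, q1, q2, q3⟩ : ∃ q : ℕ, q₀ ≤ q ∧ 2 * C₁ * q ^ (a + d) ≤ m ∧
      (m : ℝ) < 2 * C₁ * (q + 1 : ℕ) ^ (a + d) := by
    refine ⟨q₀ + Nat.find ex, by omega, ?_, Nat.find_spec ex⟩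
    rcases Nat.eq_zero_or_pos (Nat.find ex) with k | k
    · rw [k]; exact not_lt.mp hm
    · have := Nat.find_min ex (m := Nat.find ex - 1) (by omega)
      rw [show q₀ + (Nat.find ex - 1) + 1 = q₀ + Nat.find ex by omega] at this
      exact not_lt.mp this
  obtain ⟨T, T1, T2, T3⟩ := h q q1
  have qR : (1 : ℝ) ≤ q := by exact_mod_cast hq.trans q1
  have T0 : (0 : ℝ) < T := lt_of_lt_of_le (by positivity) T1
  have T0' : 0 < T := by exact_mod_cast T0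
  have r1 := Nat.mod_lt m T0'
  have T4 : 2 * (T : ℝ) ≤ m := by linarith
  have T5 : 2 * T ≤ m := by exact_mod_cast T4
  have := (T3.smul h0 (m / T)).add h0 (ih (m % T) (by omega))
  rw [show ((m / T : ℕ) : ℝ) * T + (m % T : ℕ) = m by exact_mod_cast Nat.div_add_mod' m T] at this
  refine this.mono ?_
  have b1 : ((m % T : ℕ) : ℝ) ^ α ≤ (1 / 2) ^ α * (m : ℝ) ^ α := by
    rw [← Real.mul_rpow (by norm_num) (by positivity)]
    refine Real.rpow_le_rpow (by positivity) ?_ hα.le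
    have : ((m % T : ℕ) : ℝ) ≤ T := by exact_mod_cast r1.le
    linarith
  have b2 : (q : ℝ) ^ (b + d) ≤ (m : ℝ) ^ α := by
    rw [← Real.rpow_natCast]
    refine (Real.rpow_le_rpow_of_exponent_le qR (z := ((a + d : ℕ) : ℝ) * α)
      (by push_cast; linarith)).trans ?_
    rw [Real.rpow_mul (by positivity), Real.rpow_natCast]
    exact Real.rpow_le_rpow (by positivity) (by nlinarith [pow_pos (by linarith : (0 : ℝ) < q) (a + d)])
      hα.le
  have b3 : ((m / T : ℕ) : ℝ) * (C₂ * q ^ b) ≤ C₃ * q ^ (b + d) := by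
    have e1 : ((m / T : ℕ) : ℝ) * T ≤ m := by exact_mod_cast Nat.div_mul_le_self m T
    have e2 : ((q + 1 : ℕ) : ℝ) ^ (a + d) ≤ (2 * q) ^ (a + d) := by
      gcongr; push_cast; linarith
    have e3 : ((m / T : ℕ) : ℝ) * (c * q ^ a) ≤ 2 * C₁ * (2 * q) ^ (a + d) :=
      ((mul_le_mul_of_nonneg_left T1 (by positivity)).trans e1).trans (q3.le.trans (by gcongr))
    rw [hC₃, div_mul_eq_mul_div, le_div_iff₀ hc]
    refine le_of_mul_le_mul_right ?_ (by positivity : (0 : ℝ) < q ^ a)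
    calc _ = ((m / T : ℕ) : ℝ) * (c * q ^ a) * (C₂ * q ^ b) := by ring
      _ ≤ 2 * C₁ * (2 * q) ^ (a + d) * (C₂ * q ^ b) := by gcongr
      _ = _ := by ring
  have b4 : C₃ ≤ C * (1 - (1 / 2) ^ α) := (div_le_iff₀ (by linarith)).mp (le_max_right _ _)
  have : 0 ≤ C₃ := by positivity
  have m0 : 0 ≤ (m : ℝ) ^ α := by positivity
  nlinarith [mul_le_mul_of_nonneg_left b1 C0, mul_le_mul_of_nonneg_left b2 this,
    mul_le_mul_of_nonneg_right b4 m0]

theorem cut_bool {V : Type} [Fintype V] [DecidableEq V] (w : V → V → ℝ) (X : Finset V) :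
    ∑ u ∈ X, ∑ v ∈ Xᶜ, w u v = ∑ u, ∑ v, if decide (u ∈ X) ∧ ¬ decide (v ∈ X) then w u v else 0 := by
  rw [← sum_subset (subset_univ X) fun u _ hu => by simp [hu]]
  refine sum_congr rfl fun u hu => ?_
  rw [← sum_subset (subset_univ Xᶜ) fun v _ hv => by simp [mem_compl.not.mp hv |> not_not.mp]]
  exact sum_congr rfl fun v hv => by simp [hu, mem_compl.mp hv]

theorem P.of (I : Finset ℤ) (K : ℤ → ℤ → ℝ) (y : ℤ → ℝ) (hy : ∀ v, y v = 0 ∨ y v = 1) (B : ℝ)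
    (h0 : 0 ∈ S) (hK : ∀ u v, u < v → K u v ∈ S) (hS : ∀ r ∈ S, ∃ n : ℕ, r = n)
    (h : ∀ x : ℤ → ℝ, (∀ v, x v ^ 2 ≤ 1) → (∀ v, y v = 0 → x v = 0) →
      pair I K (y + x) (y - x) ≤ pair I K y y + B) :
    ∃ T : ℕ, pair I K y y = T ∧ P S T (B / 4) := by
  have m : ∀ u v : ℤ, (if u < v then K u v * y u * y v else 0) ∈ S := fun u v => by
    split_ifs with k
    · rcases hy u with a | a <;> rcases hy v with b | b <;> simp [a, b, h0, hK u v k]
    · exact h0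
  obtain ⟨T, hT⟩ : ∃ T : ℕ, pair I K y y = T := by
    choose n hn using fun u v => hS _ (m u v)
    exact ⟨∑ u ∈ I, ∑ v ∈ I, n u v, by simp only [pair, hn]; push_cast; rfl⟩
  refine ⟨T, hT, I, inferInstance, inferInstance,
    fun u v => if u.1 < v.1 then K u v * y u * y v else 0, Subtype.val, fun u v => m u v,
    fun u v k => by by_contra k'; exact k (if_neg k'), (tot_eq I K y).trans hT, fun X => ?_⟩
  have := transfer2 I K y hy B h (univ.filter (X ·))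
  rw [cut_bool, hT] at this
  simpa using this

theorem P.acyc {V : Type} (w : V → V → ℝ) (f : V → ℤ) (h : ∀ u v, w u v ≠ 0 → f u < f v) (v : V) :
    ¬ Relation.TransGen (fun a b => w a b ≠ 0) v v := fun k => by
  have : ∀ a b, Relation.TransGen (fun a b => w a b ≠ 0) a b → f a < f b := fun a b h' => by
    induction h' with
    | single k => exact h _ _ k
    | tail _ k ih => exact ih.trans (h _ _ k)
  exact (this v v k).false

theorem P.low {T e : ℝ} (h : P S T e) (hS : ∀ r ∈ S, r = 0 ∨ 1 ≤ r) :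
    1 / 128 * T ^ (3 / 5 : ℝ) ≤ e := by
  obtain ⟨V, _, _, w, f, a, b, c, d⟩ := h
  obtain ⟨X, hX⟩ := lower w (fun u v => hS _ (a u v)) (P.acyc w f b)
  have := d fun v => decide (v ∈ X)
  rw [cut_bool, c] at hX
  linarith

theorem all_simple : ∃ C, 0 ≤ C ∧ ∀ m : ℕ, P {0, 1} m (C * (m : ℝ) ^ (5 / 7 : ℝ)) :=
  P.all (by simp) (by simp) _ (1 / 4) 36 63 7 0 5 400 (by norm_num) (by norm_num) (by norm_num)
    (by norm_num) (by norm_num) (by norm_num) (by norm_num) fun s hs => by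
    obtain ⟨I, K, y, hK, hy, hT, hc⟩ := simple s hs
    obtain ⟨T, e, h⟩ := P.of (S := {0, 1}) I K y hy _ (by simp) hK
      (by rintro _ (rfl | rfl); exacts [⟨0, by simp⟩, ⟨1, by simp⟩]) hc
    exact ⟨T, e ▸ hT.1, e ▸ hT.2, h.mono (by linarith)⟩

theorem all_multi (α : ℝ) (hα : 3 / 5 < α) :
    ∃ C, 0 ≤ C ∧ ∀ m : ℕ, P {r | ∃ n : ℕ, r = n} m (C * (m : ℝ) ^ α) := by
  obtain ⟨k, hk⟩ := exists_nat_gt (max 2 (8 / (5 * α - 3)))
  rw [max_lt_iff, div_lt_iff₀ (by linarith)] at hk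
  have hk2 : 2 ≤ k := by exact_mod_cast hk.1.le
  set C₂ : ℝ := 25 * 4 ^ (2 * k) * (5 ^ (2 * k)) ^ (3 * k + 4) with hC
  have C1 : 1 ≤ 128 * C₂ := by
    have : (1 : ℝ) ≤ 4 ^ (2 * k) * (5 ^ (2 * k)) ^ (3 * k + 4) := one_le_mul_of_one_le_of_one_le
      (one_le_pow₀ (by norm_num)) (one_le_pow₀ (one_le_pow₀ (by norm_num)))
    rw [hC]; linarith
  refine P.all (S := {r | ∃ n : ℕ, r = n}) ⟨0, by simp⟩ ⟨1, by simp⟩ α (1 / 24) ((128 * C₂) ^ 2) C₂ (5 * k + 3) 4 (3 * k + 4) 4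
    (by linarith) (by norm_num) (one_le_pow₀ C1) (by positivity) (by norm_num) (by omega)
    (by push_cast; nlinarith) fun q hq => ?_
  obtain ⟨I, K, y, hK, hy, hT, hc⟩ := multi k q hk2 hq
  obtain ⟨T, e, h⟩ := P.of (S := {r | ∃ n : ℕ, r = n}) I K y hy _ ⟨0, by simp⟩
    (fun u v _ => hK u v) (fun _ h => h) fun x a _ => hc x a
  have h' : P {r | ∃ n : ℕ, r = n} T (C₂ * q ^ (3 * k + 4)) :=
    h.mono (le_of_eq (by rw [hC]; push_cast; ring))
  have qR : (1 : ℝ) ≤ q := by exact_mod_cast (by omega : 1 ≤ q)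
  refine ⟨T, le_trans ?_ (e ▸ hT), ?_, h'⟩
  · have : (q : ℝ) ≤ (5 ^ (2 * k) * q : ℕ) := by
      exact_mod_cast Nat.le_mul_of_pos_left _ (by positivity)
    calc _ = (q : ℝ) ^ (3 * k + 3) * q ^ (2 * k) / 24 := by ring
      _ ≤ _ := by gcongr
  · have l := h'.low (by
      rintro _ ⟨n, rfl⟩
      rcases n with _ | n
      · simp
      · exact Or.inr (by simp))
    have l2 : ((T : ℝ) ^ (3 / 5 : ℝ)) ^ 5 ≤ (128 * C₂ * q ^ (3 * k + 4)) ^ 5 :=
      pow_le_pow_left₀ (by positivity) (by linarith) 5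
    rw [← Real.rpow_natCast, ← Real.rpow_mul (by positivity)] at l2
    refine le_of_pow_le_pow_left₀ (n := 3) (by norm_num) (by positivity) ?_
    calc (T : ℝ) ^ 3 ≤ _ := by convert l2 using 1; norm_num
      _ = (128 * C₂) ^ 5 * q ^ (15 * k + 20) := by ring
      _ ≤ (128 * C₂) ^ 6 * q ^ (15 * k + 21) := by gcongr <;> omega
      _ = _ := by ring

end Pool.Agent.H29.DC
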