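import Mathlib

set_option autoImplicit false

namespace Pool.Agent.H29.DDecomp

open Classical in
/-- largest size of a union of `k` pairwise disjoint antichains -/
noncomputable def dk (P : Type) [PartialOrder P] (k : ℕ) : ℕ :=
  sSup {m | ∃ A : Fin k → Finset P, (∀ i, IsAntichain (· ≤ ·) (A i : Set P)) ∧
    (∀ i j, i ≠ j → Disjoint (A i) (A j)) ∧ m = (Finset.univ.biUnion A).card}

/-- largest size of a chain -/
noncomputable def height (P : Type) [PartialOrder P] : ℕ :=
  sSup {m | ∃ C : Finset P, IsChain (· ≤ ·) (C : Set P) ∧ m = C.card}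

open Classical in
/-- d-decomposable; the antichains are indexed `0, …, h - 1` -/
def Decomposable (P : Type) [PartialOrder P] : Prop :=
  ∃ A : ℕ → Finset P, (∀ i, i < height P → IsAntichain (· ≤ ·) (A i : Set P)) ∧
    (∀ i j, i < height P → j < height P → i ≠ j → Disjoint (A i) (A j)) ∧
    (∀ x, ∃ i, i < height P ∧ x ∈ A i) ∧
    ∀ k, 1 ≤ k → k ≤ height P → ((Finset.range k).biUnion A).card = dk P k

/-- contains an induced copy of `P₆`; `(false, i)` is `x_{i+1}` and `(true, i)` is `y_{i+1}` -/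
def ContainsP6 (P : Type) [PartialOrder P] : Prop :=
  ∃ f : Bool × Fin 3 → P, Function.Injective f ∧
    ∀ u v, f u < f v ↔ (u.1 = false ∧ v.1 = true ∧ (u.2 = 1 ∨ v.2 = 1))

/-- strict relations of the example -/
def R (a b : Fin 8) : Bool :=
  decide ((a, b) ∈ [((0 : Fin 8), (4 : Fin 8)), (0, 5), (0, 6), (1, 6), (1, 7), (2, 7), (3, 7)])

/-- the example -/
def Ex : Type := Fin 8

instance : Fintype Ex := inferInstanceAs (Fintype (Fin 8))

instance : PartialOrder Ex where
  le x y := x = y ∨ R x y = true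
  lt x y := R x y = true
  le_refl := fun _ => Or.inl rfl
  le_trans := by
    change ∀ a b c : Fin 8, (a = b ∨ R a b = true) → (b = c ∨ R b c = true) → (a = c ∨ R a c = true)
    decide +kernel
  le_antisymm := by
    change ∀ a b : Fin 8, (a = b ∨ R a b = true) → (b = a ∨ R b a = true) → a = b
    decide +kernel
  lt_iff_le_not_ge := by
    change ∀ a b : Fin 8, R a b = true ↔ ((a = b ∨ R a b = true) ∧ ¬ (b = a ∨ R b a = true))
    decide +kernel

theorem noP6 : ¬ ContainsP6 Ex := by
  rintro ⟨f, hf, h⟩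
  have key : ∀ a b : Fin 8, R a b = true →
      (∀ c d : Fin 8, R c b = true → R d b = true → c = d ∨ c = a ∨ d = a) ∨
      (∀ c d : Fin 8, R a c = true → R a d = true → c = d ∨ c = b ∨ d = b) := by
    decide +kernel
  rcases key (f (false, 1)) (f (true, 1)) ((h _ _).2 (by simp)) with h1 | h1
  · rcases h1 (f (false, 0)) (f (false, 2)) ((h _ _).2 (by simp)) ((h _ _).2 (by simp)) with
      h2 | h2 | h2 <;> exact absurd (hf h2) (by decide)
  · rcases h1 (f (true, 0)) (f (true, 2)) ((h _ _).2 (by simp)) ((h _ _).2 (by simp)) with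
      h2 | h2 | h2 <;> exact absurd (hf h2) (by decide)

theorem height_eq : height Ex = 2 := by
  have key : ∀ C : Finset (Fin 8), (∀ a ∈ C, ∀ b ∈ C, a = b ∨ R a b = true ∨ R b a = true) →
      C.card ≤ 2 := by decide +kernel
  apply IsGreatest.csSup_eq
  constructor
  · refine ⟨({0, 4} : Finset (Fin 8)), ?_, rfl⟩
    have : ∀ a ∈ ({0, 4} : Finset (Fin 8)), ∀ b ∈ ({0, 4} : Finset (Fin 8)),
      (a = b ∨ R a b = true) ∨ (b = a ∨ R b a = true) := by decide
    exact fun a ha b hb _ => this a ha b hb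
  · rintro m ⟨C, hC, rfl⟩
    refine key C fun a ha b hb => ?_
    rcases hC.total ha hb with (h | h) | (h | h)
    · exact Or.inl h
    · exact Or.inr (Or.inl h)
    · exact Or.inl h.symm
    · exact Or.inr (Or.inr h)

theorem d1 : 5 ≤ dk Ex 1 := by
  refine le_csSup ⟨Fintype.card Ex, ?_⟩ ⟨fun _ => ({2, 3, 4, 5, 6} : Finset (Fin 8)), ?_, ?_, ?_⟩
  · rintro m ⟨A, _, _, rfl⟩
    exact Finset.card_le_univ _
  · have : ∀ a ∈ ({2, 3, 4, 5, 6} : Finset (Fin 8)), ∀ b ∈ ({2, 3, 4, 5, 6} : Finset (Fin 8)),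
      a ≠ b → ¬ (a = b ∨ R a b = true) := by decide
    exact fun _ a ha b hb hab => this a ha b hb hab
  · intro i j hij
    exact absurd (Subsingleton.elim i j) hij
  · simp only [Finset.univ_unique, Finset.singleton_biUnion]
    rfl

theorem notDec : ¬ Decomposable Ex := by
  rintro ⟨A, h1, _, h3, h4⟩
  rw [height_eq] at h1 h3 h4
  have h5 := h4 1 le_rfl (by norm_num)
  have h6 := d1
  simp only [Finset.range_one, Finset.singleton_biUnion] at h5
  have key : ∀ C : Finset (Fin 8), (∀ a ∈ C, ∀ b ∈ C, R a b = false) →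
      (∀ a ∉ C, ∀ b ∉ C, R a b = false) → C.card ≤ 4 := by decide +kernel
  have irr : ∀ a b : Fin 8, R a b = true → a ≠ b := by decide
  have : (A 0).card ≤ 4 := by
    refine key (A 0) (fun a ha b hb => ?_) (fun a ha b hb => ?_)
    · by_contra hc
      rw [Bool.not_eq_false] at hc
      exact h1 0 (by norm_num) ha hb (irr a b hc) (Or.inr hc)
    · by_contra hc
      rw [Bool.not_eq_false] at hc
      have m : ∀ x : Ex, x ∉ A 0 → x ∈ A 1 := by
        intro x hx
        obtain ⟨i, hi, hxi⟩ := h3 x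
        interval_cases i
        · exact absurd hxi hx
        · exact hxi
      exact h1 1 (by norm_num) (m a ha) (m b hb) (irr a b hc) (Or.inr hc)
  omega

end Pool.Agent.H29.DDecomp
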