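import Mathlib

/-! Analytic core: a three-term recurrence with complex coefficients near `(1,-1,1)` grows more
slowly than the recurrence of absolute values. -/

namespace Pool.Agent.H29.DM1

lemma cyc (a b c : ℂ) (l : ℝ) (hl : 0 ≤ l) :
    ‖c - l * b‖ ^ 2 + ‖b - l * a‖ ^ 2 + ‖a - l * c‖ ^ 2
      ≤ (1 + l + l ^ 2) * (‖a‖ ^ 2 + ‖b‖ ^ 2 + ‖c‖ ^ 2) := by
  simp only [Complex.sq_norm, Complex.normSq_apply, Complex.sub_re, Complex.sub_im, Complex.mul_re,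
    Complex.mul_im, Complex.ofReal_re, Complex.ofReal_im]
  nlinarith [mul_nonneg hl (sq_nonneg (a.re + b.re + c.re)),
    mul_nonneg hl (sq_nonneg (a.im + b.im + c.im))]

lemma near (z w : ℂ) (hw : ‖w‖ = 1) (h : ‖z - w‖ ≤ 1 / 100) :
    99 / 100 ≤ ‖z‖ ∧ ‖z‖ ≤ 101 / 100 := by
  have h1 := norm_sub_norm_le z w
  have h2 := norm_sub_norm_le w z
  rw [norm_sub_rev w z] at h2
  constructor <;> linarith

lemma sqadd (y e : ℂ) (l r : ℝ) (hl : 0 ≤ l) (hr : 0 ≤ r) (hy : ‖y‖ ≤ 102 / 100 * r)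
    (he : ‖e‖ ≤ 7 / 100 * l * r) (hl' : l ≤ 1 / 1000) :
    ‖y + e‖ ^ 2 ≤ ‖y‖ ^ 2 + 15 / 100 * l * r ^ 2 := by
  have h1 := norm_add_le y e
  have h0 := norm_nonneg y
  have h2 : ‖y + e‖ ≤ ‖y‖ + 7 / 100 * l * r := by linarith
  have h3 : ‖y + e‖ ^ 2 ≤ (‖y‖ + 7 / 100 * l * r) ^ 2 := by
    apply pow_le_pow_left₀ (norm_nonneg _) h2
  have h4 : 0 ≤ l * r := mul_nonneg hl hr
  have h5 : ‖y‖ * (l * r) ≤ 102 / 100 * r * (l * r) := mul_le_mul_of_nonneg_right hy h4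
  have h6 : l * (l * r ^ 2) ≤ 1 / 1000 * (l * r ^ 2) :=
    mul_le_mul_of_nonneg_right hl' (mul_nonneg hl (sq_nonneg r))
  nlinarith [mul_nonneg hl (sq_nonneg r)]

lemma block (z1 z2 z3 a b c a' b' c' : ℂ) (l k1 k2 k3 : ℝ) (hl : 0 ≤ l) (hl' : l ≤ 1 / 1000)
    (hz1 : ‖z1 - 1‖ ≤ 1 / 100) (hz2 : ‖z2 - (-1)‖ ≤ 1 / 100) (hz3 : ‖z3 - 1‖ ≤ 1 / 100)
    (h3 : 1 ≤ k3) (h32 : k3 ≤ k2) (h21 : k2 ≤ k1) (h1 : k1 ≤ 25 / 24)
    (hc : c' = k1 * (z3 * c + l * z2 * b + l ^ 2 * z1 * a))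
    (hb : b' = k2 * (z3 * b + l * z2 * a + l ^ 2 * z1 * c'))
    (ha : a' = k3 * (z3 * a + l * z2 * c' + l ^ 2 * z1 * b')) :
    ‖c'‖ ^ 2 + ‖b'‖ ^ 2 + ‖a'‖ ^ 2
      ≤ (k1 * ‖z3‖) ^ 2 * (1 + 3 / 2 * l) * (‖c‖ ^ 2 + ‖b‖ ^ 2 + ‖a‖ ^ 2) := by
  obtain ⟨n1, n1'⟩ := near z1 1 (by simp) hz1
  obtain ⟨n2, n2'⟩ := near z2 (-1) (by simp) hz2
  obtain ⟨n3, n3'⟩ := near z3 1 (by simp) hz3
  set N := ‖c‖ ^ 2 + ‖b‖ ^ 2 + ‖a‖ ^ 2 with hN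
  have hN0 : 0 ≤ N := by positivity
  set r := Real.sqrt N with hr
  have hr0 : 0 ≤ r := Real.sqrt_nonneg _
  have hr2 : r ^ 2 = N := Real.sq_sqrt hN0
  have ar : ‖a‖ ≤ r := Real.le_sqrt_of_sq_le (by nlinarith [sq_nonneg ‖b‖, sq_nonneg ‖c‖])
  have br : ‖b‖ ≤ r := Real.le_sqrt_of_sq_le (by nlinarith [sq_nonneg ‖a‖, sq_nonneg ‖c‖])
  have cr : ‖c‖ ≤ r := Real.le_sqrt_of_sq_le (by nlinarith [sq_nonneg ‖b‖, sq_nonneg ‖a‖])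
  have hlr : 0 ≤ l * r := mul_nonneg hl hr0
  have hlr' : l * r ≤ 1 / 1000 * r := mul_le_mul_of_nonneg_right hl' hr0
  -- generic product bounds
  have P : ∀ (z u : ℂ) (s t : ℝ), ‖z‖ ≤ s → ‖u‖ ≤ t → ‖z * u‖ ≤ s * t := fun z u s t h h' => by
    rw [norm_mul]; exact mul_le_mul h h' (norm_nonneg _) ((norm_nonneg _).trans h)
  have nl : ‖(l : ℂ)‖ ≤ l := by rw [Complex.norm_real, Real.norm_eq_abs, abs_of_nonneg hl]
  have nl2 : ‖(l : ℂ) ^ 2‖ ≤ 1 / 1000 * l := by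
    rw [norm_pow, Complex.norm_real, Real.norm_eq_abs, abs_of_nonneg hl]; nlinarith
  have nk : ∀ k : ℝ, 1 ≤ k → ‖(k : ℂ)‖ = k := fun k hk => by
    rw [Complex.norm_real, Real.norm_eq_abs, abs_of_nonneg (by linarith)]
  have T : ∀ (u v w : ℂ) (k : ℝ), 1 ≤ k → k ≤ 25 / 24 → ‖u‖ ≤ r → ‖v‖ ≤ r → ‖w‖ ≤ 2 * r →
      ‖(k : ℂ) * (z3 * u + l * z2 * v + l ^ 2 * z1 * w)‖ ≤ 2 * r := by
    intro u v w k hk hk' hu hv hw
    have e1 := P z3 u _ _ n3' hu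
    have e2 := P (l * z2) v _ _ (P _ _ _ _ nl n2') hv
    have e3 := P (l ^ 2 * z1) w _ _ (P _ _ _ _ nl2 n1') hw
    have e4 := norm_add₃_le (a := z3 * u) (b := l * z2 * v) (c := l ^ 2 * z1 * w)
    have e5 : ‖z3 * u + l * z2 * v + l ^ 2 * z1 * w‖ ≤ 11 / 10 * r := by nlinarith
    have e6 := P (k : ℂ) _ (25 / 24) _ (by rw [nk k hk]; exact hk') e5
    linarith
  have c'r : ‖c'‖ ≤ 2 * r := by
    rw [hc]; exact T c b a k1 (by linarith) h1 cr br (by linarith)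
  have b'r : ‖b'‖ ≤ 2 * r := by
    rw [hb]; exact T b a c' k2 (by linarith) (by linarith) br ar c'r
  have z23 : ‖z2 + z3‖ ≤ 2 / 100 := by
    have : z2 + z3 = (z2 - (-1)) + (z3 - 1) := by ring
    rw [this]; linarith [norm_add_le (z2 - (-1)) (z3 - 1)]
  have Y : ∀ u v : ℂ, ‖u‖ ≤ r → ‖v‖ ≤ r → ‖z3 * (u - l * v)‖ ≤ 102 / 100 * r := by
    intro u v hu hv
    have e1 := P (l : ℂ) v _ _ nl hv
    have e2 : ‖u - l * v‖ ≤ 1001 / 1000 * r := by linarith [norm_sub_le u (l * v)]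
    have e3 := P z3 _ _ _ n3' e2
    linarith
  have E : ∀ v w : ℂ, ‖v‖ ≤ r → ‖w‖ ≤ 2 * r →
      ‖l * (z2 + z3) * v + l ^ 2 * z1 * w‖ ≤ 7 / 100 * l * r := by
    intro v w hv hw
    have e1 := P (l * (z2 + z3)) v _ _ (P _ _ _ _ nl z23) hv
    have e3 := P (l ^ 2 * z1) w _ _ (P _ _ _ _ nl2 n1') hw
    have e4 := norm_add_le (l * (z2 + z3) * v) (l ^ 2 * z1 * w)
    nlinarith
  have E3 : ‖l * (z2 * c' + z3 * c) + l ^ 2 * z1 * b'‖ ≤ 7 / 100 * l * r := by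
    have q : z2 * c' + z3 * c = z3 * c * (k1 * (z2 - (-1)) - ((k1 - 1 : ℝ) : ℂ))
        + k1 * z2 * (l * z2 * b + l ^ 2 * z1 * a) := by
      rw [hc]; push_cast; ring
    have nk1 : ‖(k1 : ℂ)‖ ≤ 25 / 24 := by rw [nk k1 (by linarith)]; exact h1
    have f1 : ‖(k1 : ℂ) * (z2 - (-1)) - ((k1 - 1 : ℝ) : ℂ)‖ ≤ 53 / 1000 := by
      have g1 := P _ _ _ _ nk1 hz2
      have g2 : ‖((k1 - 1 : ℝ) : ℂ)‖ ≤ 1 / 24 := by
        rw [Complex.norm_real, Real.norm_eq_abs, abs_of_nonneg (by linarith)]; linarith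
      linarith [norm_sub_le ((k1 : ℂ) * (z2 - (-1))) ((k1 - 1 : ℝ) : ℂ)]
    have f2 := P _ _ _ _ (P _ _ _ _ n3' cr) f1
    have e2 := P (l * z2) b _ _ (P _ _ _ _ nl n2') br
    have e3 := P (l ^ 2 * z1) a _ _ (P _ _ _ _ nl2 n1') ar
    have f3 : ‖l * z2 * b + l ^ 2 * z1 * a‖ ≤ 2 / 1000 * r := by
      nlinarith [norm_add_le (l * z2 * b) (l ^ 2 * z1 * a)]
    have f4 := P _ _ _ _ (P _ _ _ _ nk1 n2') f3
    have f5 : ‖z2 * c' + z3 * c‖ ≤ 6 / 100 * r := by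
      rw [q]
      linarith [norm_add_le (z3 * c * (k1 * (z2 - (-1)) - ((k1 - 1 : ℝ) : ℂ)))
        (k1 * z2 * (l * z2 * b + l ^ 2 * z1 * a))]
    have f6 := P _ _ _ _ nl f5
    have f7 := P (l ^ 2 * z1) b' _ _ (P _ _ _ _ nl2 n1') b'r
    nlinarith [norm_add_le (l * (z2 * c' + z3 * c)) (l ^ 2 * z1 * b')]
  have s1 := sqadd _ _ l r hl hr0 (Y c b cr br) (E b a br (by linarith)) hl'
  have s2 := sqadd _ _ l r hl hr0 (Y b a br ar) (E a c' ar c'r) hl'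
  have s3 := sqadd _ _ l r hl hr0 (Y a c ar cr) E3 hl'
  have q1 : c' = k1 * (z3 * (c - l * b) + (l * (z2 + z3) * b + l ^ 2 * z1 * a)) := by
    rw [hc]; ring
  have q2 : b' = k2 * (z3 * (b - l * a) + (l * (z2 + z3) * a + l ^ 2 * z1 * c')) := by
    rw [hb]; ring
  have q3 : a' = k3 * (z3 * (a - l * c) + (l * (z2 * c' + z3 * c) + l ^ 2 * z1 * b')) := by
    rw [ha]; ring
  have K : ∀ (k : ℝ) (x : ℂ), 1 ≤ k → k ≤ k1 → ‖(k : ℂ) * x‖ ^ 2 ≤ k1 ^ 2 * ‖x‖ ^ 2 := by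
    intro k x hk hk'
    rw [norm_mul, nk k hk, mul_pow]
    exact mul_le_mul_of_nonneg_right (pow_le_pow_left₀ (by linarith) hk' 2) (sq_nonneg _)
  have t1 := K k1 _ (by linarith) le_rfl |>.trans (mul_le_mul_of_nonneg_left s1 (sq_nonneg k1))
  have t2 := K k2 _ (by linarith) h21 |>.trans (mul_le_mul_of_nonneg_left s2 (sq_nonneg k1))
  have t3 := K k3 _ h3 (by linarith) |>.trans (mul_le_mul_of_nonneg_left s3 (sq_nonneg k1))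
  rw [← q1] at t1
  rw [← q2] at t2
  rw [← q3] at t3
  have cy := cyc a b c l hl
  simp only [norm_mul z3, mul_pow] at t1 t2 t3
  have hN' : ‖a‖ ^ 2 + ‖b‖ ^ 2 + ‖c‖ ^ 2 = N := by rw [hN]; ring
  rw [hN'] at cy
  rw [hr2] at t1 t2 t3
  have z3s : 98 / 100 ≤ ‖z3‖ ^ 2 := by nlinarith
  have u1 : ‖z3‖ ^ 2 * (‖c - l * b‖ ^ 2 + ‖b - l * a‖ ^ 2 + ‖a - l * c‖ ^ 2)
      ≤ ‖z3‖ ^ 2 * ((1 + l + l ^ 2) * N) := mul_le_mul_of_nonneg_left cy (sq_nonneg _)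
  have hlN : 0 ≤ l * N := mul_nonneg hl hN0
  have u2 : 98 / 100 * (l * N) ≤ ‖z3‖ ^ 2 * (l * N) := mul_le_mul_of_nonneg_right z3s hlN
  have u3 : l * (‖z3‖ ^ 2 * (l * N)) ≤ 1 / 1000 * (‖z3‖ ^ 2 * (l * N)) :=
    mul_le_mul_of_nonneg_right hl' (mul_nonneg (sq_nonneg _) hlN)
  have u4 : ‖z3‖ ^ 2 * (‖c - l * b‖ ^ 2 + ‖b - l * a‖ ^ 2 + ‖a - l * c‖ ^ 2) + 45 / 100 * l * N
      ≤ ‖z3‖ ^ 2 * (1 + 3 / 2 * l) * N := by nlinarith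
  have u5 := mul_le_mul_of_nonneg_left u4 (sq_nonneg k1)
  rw [mul_pow]
  nlinarith

lemma blockAbs (y1 y2 y3 a b c a' b' c' l k1 k2 k3 : ℝ) (hl : 0 ≤ l)
    (hy1 : 0 ≤ y1) (hy2 : 99 / 100 ≤ y2) (hy3 : 99 / 100 ≤ y3) (hy3' : y3 ≤ 101 / 100)
    (h3 : 1 ≤ k3) (h32 : k3 ≤ k2) (h21 : k2 ≤ k1) (a0 : 0 ≤ a) (b0 : 0 ≤ b) (c0 : 0 ≤ c)
    (hc : c' = k1 * (y3 * c + l * y2 * b + l ^ 2 * y1 * a))
    (hb : b' = k2 * (y3 * b + l * y2 * a + l ^ 2 * y1 * c'))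
    (ha : a' = k3 * (y3 * a + l * y2 * c' + l ^ 2 * y1 * b')) :
    k3 * y3 * (1 + 98 / 100 * l) * (c + b + a) ≤ c' + b' + a' := by
  have y20 : 0 ≤ y2 := by linarith
  have y30 : 0 ≤ y3 := by linarith
  have k30 : 0 ≤ k3 := by linarith
  have M : ∀ k u v w : ℝ, k3 ≤ k → 0 ≤ u → 0 ≤ v → 0 ≤ w →
      k3 * (y3 * u + l * y2 * v) ≤ k * (y3 * u + l * y2 * v + l ^ 2 * y1 * w) := by
    intro k u v w hk hu hv hw
    have p1 : 0 ≤ y3 * u + l * y2 * v := by positivity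
    have p2 : 0 ≤ l ^ 2 * y1 * w := by positivity
    nlinarith
  have c1 : k3 * (y3 * c + l * y2 * b) ≤ c' := by rw [hc]; exact M k1 c b a (by linarith) c0 b0 a0
  have c2 : y3 * c ≤ c' := by
    have p1 : 0 ≤ y3 * c := by positivity
    have p2 : 0 ≤ l * y2 * b := by positivity
    nlinarith
  have c'0 : 0 ≤ c' := le_trans (by positivity) c2
  have b1 : k3 * (y3 * b + l * y2 * a) ≤ b' := by rw [hb]; exact M k2 b a c' h32 b0 a0 c'0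
  have b'0 : 0 ≤ b' := le_trans (by positivity) b1
  have a1 : k3 * (y3 * a + l * y2 * c') ≤ a' := by rw [ha]; exact M k3 a c' b' le_rfl a0 c'0 b'0
  have d1 : 98 / 100 * y3 * b ≤ y2 * b := mul_le_mul_of_nonneg_right (by linarith) b0
  have d2 : 98 / 100 * y3 * a ≤ y2 * a := mul_le_mul_of_nonneg_right (by linarith) a0
  have d3 : 98 / 100 * y3 * c ≤ y2 * c' := by
    have : 0 ≤ y3 * c := by positivity
    nlinarith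
  have d4 : k3 * l * (98 / 100 * y3 * (c + b + a)) ≤ k3 * l * (y2 * b + y2 * a + y2 * c') :=
    mul_le_mul_of_nonneg_left (by linarith) (by positivity)
  nlinarith

end Pool.Agent.H29.DM1
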