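import Mathlib
import Pool.Agent.H29.DM1

namespace Pool.Agent.H29.DM2
open Pool.Agent.H29.DM1

lemma core (z1 z2 z3 : ℂ) (G : ℕ → ℂ) (Q κ : ℕ → ℝ) (l : ℝ) (d0 T : ℕ) (hl : 0 < l)
    (hl' : l ≤ 1 / 1000)
    (hz1 : ‖z1 - 1‖ ≤ 1 / 100) (hz2 : ‖z2 - (-1)‖ ≤ 1 / 100) (hz3 : ‖z3 - 1‖ ≤ 1 / 100)
    (hκ : ∀ d, d0 ≤ d → d ≤ d0 + 3 * T + 5 →
      1 ≤ κ d ∧ κ d ≤ 25 / 24 ∧ κ (d + 1) ≤ κ d ∧ κ d ≤ (1 + l / 50) * κ (d + 2))
    (hG : ∀ d, d ≤ d0 + 3 * T + 2 →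
      G (d + 3) = κ (d + 3) * (z3 * G d + l * z2 * G (d + 1) + l ^ 2 * z1 * G (d + 2)))
    (hQ : ∀ d, d ≤ d0 + 3 * T + 2 →
      Q (d + 3) = κ (d + 3) * (‖z3‖ * Q d + l * ‖z2‖ * Q (d + 1) + l ^ 2 * ‖z1‖ * Q (d + 2)))
    (hle : ∀ d, d ≤ d0 + 3 * T + 5 → ‖G d‖ ≤ Q d) (i : ℕ) (hi : i < 3) :
    ‖G (d0 + 3 * T + 3 + i)‖ ^ 2 * (1 + l / 4) ^ T * l ^ 4 ≤ 16 * Q (d0 + 3 * T + 3 + i) ^ 2 := by
  obtain ⟨n1, n1'⟩ := near z1 1 (by simp) hz1
  obtain ⟨n2, n2'⟩ := near z2 (-1) (by simp) hz2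
  obtain ⟨n3, n3'⟩ := near z3 1 (by simp) hz3
  have Q0 : ∀ d, d ≤ d0 + 3 * T + 5 → 0 ≤ Q d := fun d hd => (norm_nonneg _).trans (hle d hd)
  have step : ∀ e, d0 ≤ e → e ≤ d0 + 3 * T →
      ‖G (e + 3)‖ ^ 2 + ‖G (e + 4)‖ ^ 2 + ‖G (e + 5)‖ ^ 2
        ≤ (κ (e + 3) * ‖z3‖) ^ 2 * (1 + 3 / 2 * l) * (‖G e‖ ^ 2 + ‖G (e + 1)‖ ^ 2 + ‖G (e + 2)‖ ^ 2)
      ∧ κ (e + 5) * ‖z3‖ * (1 + 98 / 100 * l) * (Q e + Q (e + 1) + Q (e + 2))
        ≤ Q (e + 3) + Q (e + 4) + Q (e + 5) := by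
    intro e he he'
    obtain ⟨a1, a2, a3, -⟩ := hκ (e + 3) (by omega) (by omega)
    obtain ⟨-, -, b3, -⟩ := hκ (e + 4) (by omega) (by omega)
    obtain ⟨c1, -, -, -⟩ := hκ (e + 5) (by omega) (by omega)
    constructor
    · exact block z1 z2 z3 _ _ _ _ _ _ l _ _ _ hl.le hl' hz1 hz2 hz3 c1 b3 a3 a2
        (hG e (by omega)) (hG (e + 1) (by omega)) (hG (e + 2) (by omega))
    · exact blockAbs ‖z1‖ ‖z2‖ ‖z3‖ _ _ _ _ _ _ l _ _ _ hl.le (norm_nonneg _) n2 n3 n3' c1 b3 a3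
        (Q0 _ (by omega)) (Q0 _ (by omega)) (Q0 _ (by omega))
        (hQ e (by omega)) (hQ (e + 1) (by omega)) (hQ (e + 2) (by omega))
  have inv : ∀ t, t ≤ T →
      (‖G (d0 + 3 * t)‖ ^ 2 + ‖G (d0 + 3 * t + 1)‖ ^ 2 + ‖G (d0 + 3 * t + 2)‖ ^ 2) * (1 + l / 4) ^ t
        ≤ (Q (d0 + 3 * t) + Q (d0 + 3 * t + 1) + Q (d0 + 3 * t + 2)) ^ 2 := by
    intro t
    induction t with
    | zero =>
      intro _
      have h0 := hle (d0 + 3 * 0) (by omega)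
      have h1 := hle (d0 + 3 * 0 + 1) (by omega)
      have h2 := hle (d0 + 3 * 0 + 2) (by omega)
      have g0 := pow_le_pow_left₀ (norm_nonneg _) h0 2
      have g1 := pow_le_pow_left₀ (norm_nonneg _) h1 2
      have g2 := pow_le_pow_left₀ (norm_nonneg _) h2 2
      have q0 := Q0 (d0 + 3 * 0) (by omega)
      have q1 := Q0 (d0 + 3 * 0 + 1) (by omega)
      have q2 := Q0 (d0 + 3 * 0 + 2) (by omega)
      nlinarith [mul_nonneg q0 q1, mul_nonneg q0 q2, mul_nonneg q1 q2]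
    | succ t ih =>
      intro ht
      have ih := ih (by omega)
      obtain ⟨s1, s2⟩ := step (d0 + 3 * t) (by omega) (by omega)
      obtain ⟨a1, a2, -, a4⟩ := hκ (d0 + 3 * t + 3) (by omega) (by omega)
      obtain ⟨c1, -, -, -⟩ := hκ (d0 + 3 * t + 5) (by omega) (by omega)
      have e0 : d0 + 3 * (t + 1) = d0 + 3 * t + 3 := by ring
      rw [e0, show d0 + 3 * t + 3 + 1 = d0 + 3 * t + 4 from rfl,
        show d0 + 3 * t + 3 + 2 = d0 + 3 * t + 5 from rfl]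
      rw [show d0 + 3 * t + 3 + 2 = d0 + 3 * t + 5 from rfl] at a4
      set N := ‖G (d0 + 3 * t)‖ ^ 2 + ‖G (d0 + 3 * t + 1)‖ ^ 2 + ‖G (d0 + 3 * t + 2)‖ ^ 2
      set S := Q (d0 + 3 * t) + Q (d0 + 3 * t + 1) + Q (d0 + 3 * t + 2)
      set N' := ‖G (d0 + 3 * t + 3)‖ ^ 2 + ‖G (d0 + 3 * t + 4)‖ ^ 2 + ‖G (d0 + 3 * t + 5)‖ ^ 2
      set S' := Q (d0 + 3 * t + 3) + Q (d0 + 3 * t + 4) + Q (d0 + 3 * t + 5)
      set k1 := κ (d0 + 3 * t + 3)
      set k3 := κ (d0 + 3 * t + 5)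
      have S0 : 0 ≤ S := by
        have q0 := Q0 (d0 + 3 * t) (by omega)
        have q1 := Q0 (d0 + 3 * t + 1) (by omega)
        have q2 := Q0 (d0 + 3 * t + 2) (by omega)
        simp only [S]; linarith
      have s3 : (k3 * ‖z3‖ * (1 + 98 / 100 * l) * S) ^ 2 ≤ S' ^ 2 :=
        pow_le_pow_left₀ (by positivity) s2 2
      have f1 : (k1 * ‖z3‖) ^ 2 ≤ ((1 + l / 50) * k3 * ‖z3‖) ^ 2 :=
        pow_le_pow_left₀ (by positivity) (mul_le_mul_of_nonneg_right a4 (norm_nonneg _)) 2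
      have f2 : (1 + l / 50) ^ 2 * (1 + 3 / 2 * l) * (1 + l / 4) ≤ (1 + 98 / 100 * l) ^ 2 := by
        have l2 : l ^ 2 ≤ 1 / 1000 * l := by nlinarith
        have l3 : l ^ 3 ≤ 1 / 1000 * l := by nlinarith
        have l4 : l ^ 4 ≤ 1 / 1000 * l := by nlinarith
        nlinarith
      have hp : 0 ≤ (1 + l / 4) ^ t := by positivity
      calc N' * (1 + l / 4) ^ (t + 1)
          ≤ ((k1 * ‖z3‖) ^ 2 * (1 + 3 / 2 * l) * N) * (1 + l / 4) ^ (t + 1) :=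
            mul_le_mul_of_nonneg_right s1 (by positivity)
        _ = (k1 * ‖z3‖) ^ 2 * ((1 + 3 / 2 * l) * (1 + l / 4)) * (N * (1 + l / 4) ^ t) := by ring
        _ ≤ ((1 + l / 50) * k3 * ‖z3‖) ^ 2 * ((1 + 3 / 2 * l) * (1 + l / 4)) * S ^ 2 := by
            apply mul_le_mul (mul_le_mul_of_nonneg_right f1 (by positivity)) ih
              (by positivity) (by positivity)
        _ = (k3 * ‖z3‖ * S) ^ 2 * ((1 + l / 50) ^ 2 * (1 + 3 / 2 * l) * (1 + l / 4)) := by ring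
        _ ≤ (k3 * ‖z3‖ * S) ^ 2 * (1 + 98 / 100 * l) ^ 2 :=
            mul_le_mul_of_nonneg_left f2 (by positivity)
        _ = (k3 * ‖z3‖ * (1 + 98 / 100 * l) * S) ^ 2 := by ring
        _ ≤ S' ^ 2 := s3
  have fin := inv T le_rfl
  obtain ⟨s1, -⟩ := step (d0 + 3 * T) (by omega) le_rfl
  obtain ⟨a1, a2, -, -⟩ := hκ (d0 + 3 * T + 3) (by omega) (by omega)
  set e := d0 + 3 * T with he
  -- lower bounds for single terms
  have low : ∀ d, d0 ≤ d → d ≤ e + 2 →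
      99 / 100 * l ^ 2 * (Q d + Q (d + 1) + Q (d + 2)) ≤ Q (d + 3) ∧ 99 / 100 * Q d ≤ Q (d + 3) := by
    intro d hd hd'
    obtain ⟨b1, -, -, -⟩ := hκ (d + 3) (by omega) (by omega)
    have q0 := Q0 d (by omega)
    have q1 := Q0 (d + 1) (by omega)
    have q2 := Q0 (d + 2) (by omega)
    have r := hQ d (by omega)
    have l1 : l ^ 2 ≤ l := by nlinarith
    have l2 : l ^ 2 ≤ 1 := by nlinarith
    have u0 : 99 / 100 * Q d ≤ ‖z3‖ * Q d := mul_le_mul_of_nonneg_right n3 q0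
    have u0' : l ^ 2 * Q d ≤ 1 * Q d := mul_le_mul_of_nonneg_right l2 q0
    have u1 : 99 / 100 * l ^ 2 * Q (d + 1) ≤ l * ‖z2‖ * Q (d + 1) :=
      mul_le_mul_of_nonneg_right (by nlinarith) q1
    have u2 : 99 / 100 * l ^ 2 * Q (d + 2) ≤ l ^ 2 * ‖z1‖ * Q (d + 2) :=
      mul_le_mul_of_nonneg_right (by nlinarith [sq_nonneg l]) q2
    have p0 : 0 ≤ l ^ 2 * Q (d + 1) := by positivity
    have p1 : 0 ≤ l ^ 2 * Q (d + 2) := by positivity
    have p : 0 ≤ ‖z3‖ * Q d + l * ‖z2‖ * Q (d + 1) + l ^ 2 * ‖z1‖ * Q (d + 2) := by positivity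
    have u3 : ‖z3‖ * Q d + l * ‖z2‖ * Q (d + 1) + l ^ 2 * ‖z1‖ * Q (d + 2) ≤ Q (d + 3) := by
      rw [r]; nlinarith
    constructor <;> nlinarith
  set S := Q e + Q (e + 1) + Q (e + 2) with hS
  have q0 := Q0 e (by omega)
  have q1 := Q0 (e + 1) (by omega)
  have q2 := Q0 (e + 2) (by omega)
  have S0 : 0 ≤ S := by linarith
  have hQi : l ^ 2 * S ≤ 2 * Q (e + 3 + i) := by
    obtain ⟨x0, y0⟩ := low e (by omega) (by omega)
    obtain ⟨x1, y1⟩ := low (e + 1) (by omega) (by omega)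
    obtain ⟨x2, y2⟩ := low (e + 2) (by omega) (by omega)
    have l2 : 0 ≤ l ^ 2 := by positivity
    have w1 : 9 / 10 * S ≤ Q (e + 1) + Q (e + 1 + 1) + Q (e + 1 + 2) := by
      simp only [add_assoc] at *; norm_num at *; linarith
    have w2 : 9 / 10 * S ≤ Q (e + 2) + Q (e + 2 + 1) + Q (e + 2 + 2) := by
      simp only [add_assoc] at *; norm_num at *; linarith
    have v1 := mul_le_mul_of_nonneg_left w1 l2
    have v2 := mul_le_mul_of_nonneg_left w2 l2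
    have p := mul_nonneg l2 S0
    interval_cases i
    · simp only [add_zero]; nlinarith
    · rw [show e + 3 + 1 = e + 1 + 3 by ring]; nlinarith
    · rw [show e + 3 + 2 = e + 2 + 3 by ring]; nlinarith
  set N := ‖G e‖ ^ 2 + ‖G (e + 1)‖ ^ 2 + ‖G (e + 2)‖ ^ 2
  have N0 : 0 ≤ N := by positivity
  have hGi : ‖G (e + 3 + i)‖ ^ 2 ≤ 4 * N := by
    have k : (κ (e + 3) * ‖z3‖) ^ 2 * (1 + 3 / 2 * l) ≤ 4 := by
      have : κ (e + 3) * ‖z3‖ ≤ 11 / 10 := by nlinarith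
      have h2 := pow_le_pow_left₀ (by positivity) this 2
      nlinarith [sq_nonneg (κ (e + 3) * ‖z3‖)]
    have k2 := mul_le_mul_of_nonneg_right k N0
    have g3 := sq_nonneg ‖G (e + 3)‖
    have g4 := sq_nonneg ‖G (e + 4)‖
    have g5 := sq_nonneg ‖G (e + 5)‖
    interval_cases i
    · simp only [add_zero]; linarith
    · rw [show e + 3 + 1 = e + 4 by ring]; linarith
    · rw [show e + 3 + 2 = e + 5 by ring]; linarith
  have hsq : (l ^ 2 * S) ^ 2 ≤ (2 * Q (e + 3 + i)) ^ 2 := pow_le_pow_left₀ (by positivity) hQi 2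
  calc ‖G (e + 3 + i)‖ ^ 2 * (1 + l / 4) ^ T * l ^ 4 ≤ (4 * N) * (1 + l / 4) ^ T * l ^ 4 := by
        gcongr
    _ = 4 * (N * (1 + l / 4) ^ T) * l ^ 4 := by ring
    _ ≤ 4 * S ^ 2 * l ^ 4 := by gcongr
    _ = 4 * (l ^ 2 * S) ^ 2 := by ring
    _ ≤ 4 * (2 * Q (e + 3 + i)) ^ 2 := by linarith
    _ = 16 * Q (e + 3 + i) ^ 2 := by ring

/-- weight at the vertex with `d` half-steps remaining -/
noncomputable def w (n d : ℕ) : ℝ := 1 / (4 * (d : ℝ) * ((n : ℝ) - d))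

lemma kap (m : ℝ) (hm : 250 ≤ m) (d : ℝ) (h1 : 2 / 5 * m ^ 3 ≤ d) (h2 : d + 2 ≤ m ^ 3 / 2) :
    1 ≤ (m ^ 3) ^ 2 * (1 / (4 * d * (m ^ 3 - d))) ∧
    (m ^ 3) ^ 2 * (1 / (4 * d * (m ^ 3 - d))) ≤ 25 / 24 ∧
    (m ^ 3) ^ 2 * (1 / (4 * (d + 1) * (m ^ 3 - (d + 1)))) ≤ (m ^ 3) ^ 2 * (1 / (4 * d * (m ^ 3 - d))) ∧
    (m ^ 3) ^ 2 * (1 / (4 * d * (m ^ 3 - d))) ≤
      (1 + (1 / m ^ 2) / 50) * ((m ^ 3) ^ 2 * (1 / (4 * (d + 2) * (m ^ 3 - (d + 2))))) := by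
  have m0 : 0 < m := by linarith
  have hn : 0 < m ^ 3 := by positivity
  have hmm : 100 * m ^ 2 ≤ d := by
    have : 250 * m ^ 2 ≤ m * m ^ 2 := mul_le_mul_of_nonneg_right hm (by positivity)
    nlinarith
  generalize m ^ 3 = n at *
  have d0 : 0 < d := by linarith
  have p0 : 0 < 4 * d * (n - d) := by apply mul_pos <;> linarith
  have p1 : 0 < 4 * (d + 1) * (n - (d + 1)) := by apply mul_pos <;> linarith
  have p2 : 0 < 4 * (d + 2) * (n - (d + 2)) := by apply mul_pos <;> linarith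
  refine ⟨?_, ?_, ?_, ?_⟩
  · rw [mul_one_div, le_div_iff₀ p0]; nlinarith [sq_nonneg (n - 2 * d)]
  · rw [mul_one_div, div_le_iff₀ p0]
    nlinarith [mul_nonneg (sub_nonneg.2 h1) (show 0 ≤ 3 / 5 * n - d by linarith)]
  · apply mul_le_mul_of_nonneg_left _ (sq_nonneg n)
    apply one_div_le_one_div_of_le p0
    nlinarith
  · rw [mul_left_comm]
    apply mul_le_mul_of_nonneg_left _ (sq_nonneg n)
    rw [mul_one_div, div_le_div_iff₀ p0 p2]
    have m2 : 0 < m ^ 2 := by positivity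
    have e1 : 2 ≤ 1 / m ^ 2 / 50 * d := by
      rw [div_div, div_mul_eq_mul_div, le_div_iff₀ (by positivity)]; linarith
    have e2 : 2 * (4 * (n - d)) ≤ (1 / m ^ 2 / 50 * d) * (4 * (n - d)) :=
      mul_le_mul_of_nonneg_right e1 (by linarith)
    nlinarith

lemma main (z1 z2 z3 : ℂ) (j : ℕ) (hj : 1 ≤ j) (n : ℕ) (hn : n = (250 * j) ^ 3)
    (F : ℕ → ℂ) (P : ℕ → ℝ)
    (hz1 : ‖z1 - 1‖ ≤ 1 / 100) (hz2 : ‖z2 - (-1)‖ ≤ 1 / 100) (hz3 : ‖z3 - 1‖ ≤ 1 / 100)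
    (hF : ∀ d, d + 3 < n → F (d + 3) = w n (d + 3) * (z1 * F (d + 2) + z2 * F (d + 1) + z3 * F d))
    (hP : ∀ d, d + 3 < n →
      P (d + 3) = w n (d + 3) * (‖z1‖ * P (d + 2) + ‖z2‖ * P (d + 1) + ‖z3‖ * P d))
    (hle : ∀ d, d < n → ‖F d‖ ≤ P d) (h0 : 0 < P 0) (d : ℕ) (hd : d + 3 = n) :
    ‖z1 * F (d + 2) + z2 * F (d + 1) + z3 * F d‖
        ≤ (4 * (250 * (j : ℝ)) ^ 4 / 2 ^ j) * (‖z1‖ * P (d + 2) + ‖z2‖ * P (d + 1) + ‖z3‖ * P d)
      ∧ 0 < ‖z1‖ * P (d + 2) + ‖z2‖ * P (d + 1) + ‖z3‖ * P d := by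
  obtain ⟨n1, n1'⟩ := near z1 1 (by simp) hz1
  obtain ⟨n2, n2'⟩ := near z2 (-1) (by simp) hz2
  obtain ⟨n3, n3'⟩ := near z3 1 (by simp) hz3
  have P0 : ∀ d, d < n → 0 ≤ P d := fun d hd => (norm_nonneg _).trans (hle d hd)
  have wpos : ∀ e, e + 3 < n → 0 < w n (e + 3) := by
    intro e he
    have : ((e + 3 : ℕ) : ℝ) < n := by exact_mod_cast he
    unfold w
    have h2 : (0 : ℝ) < ((e + 3 : ℕ) : ℝ) := by positivity
    apply one_div_pos.2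
    apply mul_pos <;> linarith
  have pos : ∀ e, e + 3 ≤ n → 0 < P e + P (e + 1) + P (e + 2) := by
    intro e
    induction e with
    | zero => intro h; linarith [P0 (0 + 1) (by omega), P0 (0 + 2) (by omega)]
    | succ e ih =>
      intro h
      have ih := ih (by omega)
      have q0 := P0 e (by omega)
      have q1 := P0 (e + 1) (by omega)
      have q2 := P0 (e + 2) (by omega)
      have r := hP e (by omega)
      have hw := wpos e (by omega)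
      have : 0 < ‖z1‖ * P (e + 2) + ‖z2‖ * P (e + 1) + ‖z3‖ * P e := by nlinarith
      have : 0 < P (e + 3) := by rw [r]; positivity
      rw [show e + 1 + 1 = e + 2 from rfl, show e + 1 + 2 = e + 3 from rfl]
      linarith
  set m : ℝ := 250 * (j : ℝ) with hm
  have hj' : (1 : ℝ) ≤ j := by exact_mod_cast hj
  have m250 : 250 ≤ m := by linarith
  have m0 : 0 < m := by linarith
  have hnm : (n : ℝ) = m ^ 3 := by rw [hn, hm]; push_cast; ring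
  set θ : ℝ := 4 * m ^ 4 / 2 ^ j with hθ
  have θ0 : 0 ≤ θ := by positivity
  set M : ℕ := (250 * j) ^ 2 with hM
  have hMm : (M : ℝ) = m ^ 2 := by rw [hM, hm]; push_cast; ring
  have hnM : n = 250 * (j * M) := by rw [hn, hM]; ring
  have jM : 62500 ≤ j * M := by
    have : 250 ^ 2 ≤ M := Nat.pow_le_pow_left (by omega) 2
    nlinarith
  have l0 : 0 < 1 / m ^ 2 := by positivity
  have l1 : 1 / m ^ 2 ≤ 1 / 1000 := by
    apply one_div_le_one_div_of_le (by norm_num); nlinarith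
  have key := core z1 z2 z3 (fun d => F d * ((m ^ 2 : ℝ) : ℂ) ^ d) (fun d => P d * (m ^ 2) ^ d)
    (fun d => (m ^ 3) ^ 2 * w n d) (1 / m ^ 2) (100 * (j * M)) (8 * (j * M)) l0 l1 hz1 hz2 hz3
    (by
      intro d h1 h2
      have hjM : ((j * M : ℕ) : ℝ) = m ^ 3 / 250 := by
        push_cast; rw [hMm, hm]; ring
      have a1 : 2 / 5 * m ^ 3 ≤ (d : ℝ) := by
        have : ((100 * (j * M) : ℕ) : ℝ) ≤ d := by exact_mod_cast h1
        rw [Nat.cast_mul, hjM] at this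
        push_cast at this
        linarith
      have a2 : (d : ℝ) + 2 ≤ m ^ 3 / 2 := by
        have h3 : d + 2 ≤ 125 * (j * M) := by omega
        have : ((d + 2 : ℕ) : ℝ) ≤ ((125 * (j * M) : ℕ) : ℝ) := by exact_mod_cast h3
        rw [Nat.cast_mul, hjM] at this
        push_cast at this
        linarith
      have := kap m m250 d a1 a2
      simp only [w, hnm]
      push_cast
      exact this)
    (by
      intro d hd
      rw [hF d (by omega)]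
      have : (m : ℂ) ≠ 0 := by exact_mod_cast m0.ne'
      push_cast
      field_simp
      ring)
    (by
      intro d hd
      rw [hP d (by omega)]
      field_simp
      ring)
    (by
      intro d hd
      rw [norm_mul, norm_pow, Complex.norm_real, Real.norm_eq_abs, abs_of_nonneg (by positivity)]
      exact mul_le_mul_of_nonneg_right (hle d (by omega)) (by positivity))
  have grow : (4 : ℝ) ^ j ≤ (1 + 1 / m ^ 2 / 4) ^ (8 * (j * M)) := by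
    have b := one_add_mul_le_pow (a := 1 / m ^ 2 / 4) (by linarith) (4 * M)
    have e : (1 : ℝ) + ((4 * M : ℕ) : ℝ) * (1 / m ^ 2 / 4) = 2 := by
      push_cast; rw [hMm]; field_simp; ring
    rw [e] at b
    calc (4 : ℝ) ^ j = (2 : ℝ) ^ (2 * j) := by rw [pow_mul]; norm_num
      _ ≤ ((1 + 1 / m ^ 2 / 4) ^ (4 * M)) ^ (2 * j) := pow_le_pow_left₀ (by norm_num) b _
      _ = _ := by rw [← pow_mul]; congr 1; ring
  set e := 100 * (j * M) + 3 * (8 * (j * M)) + 3 with he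
  have base : ∀ i, i < 3 → ‖F (e + i)‖ ≤ θ * P (e + i) := by
    intro i hi
    have k := key i hi
    beta_reduce at k
    rw [norm_mul, norm_pow, Complex.norm_real, Real.norm_eq_abs, abs_of_nonneg (by positivity)] at k
    have c0 : 0 < (m ^ 2) ^ (e + i) := by positivity
    generalize (m ^ 2) ^ (e + i) = c at k c0
    have q := P0 (e + i) (by omega)
    refine (pow_le_pow_iff_left₀ (norm_nonneg _) (by positivity) two_ne_zero).1 ?_
    have k2 : (‖F (e + i)‖ * c) ^ 2 * 4 ^ j * (1 / m ^ 2) ^ 4 ≤ 16 * (P (e + i) * c) ^ 2 := by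
      refine le_trans ?_ k
      gcongr
    have e4 : (4 : ℝ) ^ j = (2 ^ j) ^ 2 := by rw [← pow_mul, mul_comm, pow_mul]; norm_num
    rw [e4] at k2
    rw [hθ]
    have t0 : (0 : ℝ) < 2 ^ j := by positivity
    generalize (2 : ℝ) ^ j = t at k2 t0
    have k3 : ‖F (e + i)‖ ^ 2 = ((‖F (e + i)‖ * c) ^ 2 * t ^ 2 * (1 / m ^ 2) ^ 4)
        * (m ^ 8 / (t ^ 2 * c ^ 2)) := by field_simp
    have k4 : (4 * m ^ 4 / t * P (e + i)) ^ 2 = (16 * (P (e + i) * c) ^ 2)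
        * (m ^ 8 / (t ^ 2 * c ^ 2)) := by field_simp; ring
    rw [k3, k4]
    exact mul_le_mul_of_nonneg_right k2 (by positivity)
  have comb : ∀ u, ‖F u‖ ≤ θ * P u → ‖F (u + 1)‖ ≤ θ * P (u + 1) → ‖F (u + 2)‖ ≤ θ * P (u + 2) →
      ‖z1 * F (u + 2) + z2 * F (u + 1) + z3 * F u‖
        ≤ θ * (‖z1‖ * P (u + 2) + ‖z2‖ * P (u + 1) + ‖z3‖ * P u) := by
    intro u a0 a1 a2
    have := norm_add₃_le (a := z1 * F (u + 2)) (b := z2 * F (u + 1)) (c := z3 * F u)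
    simp only [norm_mul] at this
    have b0 := mul_le_mul_of_nonneg_left a0 (norm_nonneg z3)
    have b1 := mul_le_mul_of_nonneg_left a1 (norm_nonneg z2)
    have b2 := mul_le_mul_of_nonneg_left a2 (norm_nonneg z1)
    linarith
  have prop : ∀ u, e + u + 3 ≤ n → ‖F (e + u)‖ ≤ θ * P (e + u) ∧
      ‖F (e + u + 1)‖ ≤ θ * P (e + u + 1) ∧ ‖F (e + u + 2)‖ ≤ θ * P (e + u + 2) := by
    intro u
    induction u with
    | zero => intro _; exact ⟨base 0 (by norm_num), base 1 (by norm_num), base 2 (by norm_num)⟩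
    | succ u ih =>
      intro h
      obtain ⟨a0, a1, a2⟩ := ih (by omega)
      refine ⟨a1, a2, ?_⟩
      rw [show e + (u + 1) + 2 = e + u + 3 by ring, hF _ (by omega), hP _ (by omega), norm_mul,
        Complex.norm_real, Real.norm_eq_abs, abs_of_pos (wpos _ (by omega)), mul_left_comm]
      exact mul_le_mul_of_nonneg_left (comb _ a0 a1 a2) (wpos _ (by omega)).le
  obtain ⟨u, rfl⟩ : ∃ u, d = e + u := ⟨d - e, by omega⟩
  obtain ⟨a0, a1, a2⟩ := prop u (by omega)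
  refine ⟨comb _ a0 a1 a2, ?_⟩
  have := pos (e + u) (by omega)
  have q0 := P0 (e + u) (by omega)
  have q1 := P0 (e + u + 1) (by omega)
  have q2 := P0 (e + u + 2) (by omega)
  nlinarith

end Pool.Agent.H29.DM2
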