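import Mathlib

/-! Sets with at least eight elements and at most 41 differences have at most five free elements. -/

namespace Pool.Agent.H29.DV1
open Finset

def D {ι : Type} [Fintype ι] (x : ι → ℤ) : Finset ℤ := univ.image (fun p : ι × ι => x p.1 - x p.2)

def Pres {ι : Type} (x : ι → ℤ) (y : ι → ℚ) : Prop :=
  ∀ i j i' j', x i - x j = x i' - x j' → y i - y j = y i' - y j'

def cm : List ℕ → ℕ → ℕ
  | [], _ => 0
  | a :: l, m => if m.testBit a then cm l m else cm l (m ||| 2 ^ a) + 1

lemma cm_le : ∀ (l : List ℕ) (m : ℕ), cm l m ≤ (l.toFinset.filter (fun a => m.testBit a = false)).card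
  | [], _ => Nat.zero_le _
  | a :: l, m => by
    rw [cm, List.toFinset_cons]
    split_ifs with h
    · exact (cm_le l m).trans (card_le_card (filter_subset_filter _ (subset_insert _ _)))
    · refine (Nat.succ_le_succ (cm_le l _)).trans (card_lt_card ⟨fun b hb => ?_, fun hh => ?_⟩)
      · simp only [mem_filter, Nat.testBit_or, Bool.or_eq_false_iff, mem_insert] at hb ⊢
        exact ⟨Or.inr hb.1, hb.2.1⟩
      · have := hh (mem_filter.2 ⟨mem_insert_self a _, by simpa using h⟩)
        simp at this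

def cntL (l : List ℕ) : ℕ := cm l 0

lemma cntL_le (l : List ℕ) : cntL l ≤ l.toFinset.card := (cm_le l 0).trans (card_filter_le _ _)

def gg : Fin 6 → ℕ := ![0, 6, 23, 48, 95, 104]

def dl (vs : List ℕ) : List ℕ := vs.flatMap (fun a => vs.map (fun b => a + 700 - b))

def mk : List ℕ → ℕ → ℕ
  | [], m => m
  | a :: l, m => if m.testBit a then mk l m else mk l (m ||| 2 ^ a)

lemma cm_append : ∀ (l l' : List ℕ) (m : ℕ), cm (l ++ l') m = cm l m + cm l' (mk l m)
  | [], _, _ => by simp [cm, mk]
  | a :: l, l', m => by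
    rw [List.cons_append, cm, cm, mk]
    split_ifs with h
    · exact cm_append l l' m
    · rw [cm_append l l']; ring

lemma cnt_le {ι : Type} [Fintype ι] (x : ι → ℤ) (y : ι → ℚ) (hp : Pres x y) (vs : List ℕ)
    (h : ∀ a ∈ vs, a ≤ 700 ∧ ∃ i, y i + 208 = a) : (dl vs).toFinset.card ≤ (D x).card := by
  classical
  let g : ℤ → ℕ := fun d => if h : ∃ p : ι × ι, x p.1 - x p.2 = d then
    ⌊y h.choose.1 - y h.choose.2 + 700⌋₊ else 0
  refine le_trans (card_le_card ?_) (card_image_le (f := g))
  intro m hm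
  simp only [dl, List.mem_toFinset, List.mem_flatMap, List.mem_map] at hm
  obtain ⟨a, ha, b, hb, rfl⟩ := hm
  obtain ⟨-, i, hi⟩ := h a ha
  obtain ⟨hb', j, hj⟩ := h b hb
  have ex : ∃ p : ι × ι, x p.1 - x p.2 = x i - x j := ⟨(i, j), rfl⟩
  refine mem_image.2 ⟨x i - x j, mem_image.2 ⟨(i, j), mem_univ _, rfl⟩, ?_⟩
  simp only [g, dif_pos ex]
  rw [hp _ _ _ _ ex.choose_spec]
  have : y i - y j + 700 = ((a + 700 - b : ℕ) : ℚ) := by
    rw [Nat.cast_sub (by omega)]; push_cast; linarith
  rw [this, Nat.floor_natCast]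

def base : List ℕ := [208, 220, 254, 304, 398, 416]

def T : List (Fin 6 × Fin 6 × Option (Fin 6)) :=
  (List.finRange 6).flatMap fun i => (List.finRange 6).flatMap fun j =>
    (if i < j then [(i, j, none)] else []) ++
      ((List.finRange 6).filter (fun l => i ≤ j ∧ l ≠ i ∧ l ≠ j)).map fun l => (i, j, some l)

def evN : Fin 6 × Fin 6 × Option (Fin 6) → ℕ
  | (i, j, none) => gg i + gg j + 208
  | (i, j, some l) => 2 * gg i + 2 * gg j + 208 - 2 * gg l

def ev (w : Fin 6 → ℚ) : Fin 6 × Fin 6 × Option (Fin 6) → ℚ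
  | (i, j, none) => (w i + w j) / 2
  | (i, j, some l) => w i + w j - w l

def TV : List ℕ :=
  [196, 162, 112, 18, 0, 214, 174, 124, 30, 12, 231, 242, 158, 64, 46, 256, 292, 258, 114, 96,
    303, 386, 352, 302, 190, 312, 404, 370, 320, 226, 232, 186, 136, 42, 24, 237, 266, 170, 76,
    58, 262, 316, 270, 126, 108, 309, 410, 364, 314, 202, 318, 428, 382, 332, 238, 300, 288, 204,
    110, 92, 279, 350, 338, 160, 142, 326, 444, 432, 348, 236, 335, 462, 450, 366, 272, 400, 388,
    354, 210, 192, 351, 494, 482, 448, 286, 360, 512, 500, 466, 322, 588, 576, 542, 492, 380,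
    407, 606, 594, 560, 510, 624, 612, 578, 528, 434]

lemma TV_eq : T.map evN = TV := by decide +kernel

def ex (a b : ℕ) : List ℕ :=
  [a + 700 - b, b + 700 - a, a + 700 - 208, 208 + 700 - a, b + 700 - 208, 208 + 700 - b,
    a + 700 - 220, 220 + 700 - a, b + 700 - 220, 220 + 700 - b, a + 700 - 254, 254 + 700 - a,
    b + 700 - 254, 254 + 700 - b, a + 700 - 304, 304 + 700 - a, b + 700 - 304, 304 + 700 - b,
    a + 700 - 398, 398 + 700 - a, b + 700 - 398, 398 + 700 - b, a + 700 - 416, 416 + 700 - a,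
    b + 700 - 416, 416 + 700 - b]

lemma mem_dl {vs : List ℕ} {u v : ℕ} (hu : u ∈ vs) (hv : v ∈ vs) : u + 700 - v ∈ dl vs :=
  List.mem_flatMap.2 ⟨u, hu, List.mem_map.2 ⟨v, hv, rfl⟩⟩

def M0 : ℕ := 0x100104004000400010000000100014010000000044004000410010010400040044000000010050001000000010000400040041001000000000000000000000000000000000000000000000000000000000000000000000000000000000000000000000000000000000000000000000000000

lemma M0_eq : mk (dl base) 0 = M0 ∧ cm (dl base) 0 = 31 := by decide +kernel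

def ck (a : ℕ) : Bool := TV.all fun b => Nat.ble b a || Nat.ble 12 (cm (ex a b) M0)

lemma ck1 : (TV.take 25).all ck = true := by decide +kernel

lemma ck2 : ((TV.drop 25).take 25).all ck = true := by decide +kernel

lemma ck3 : (((TV.drop 25).drop 25).take 25).all ck = true := by decide +kernel

lemma ck4 : (((TV.drop 25).drop 25).drop 25).all ck = true := by decide +kernel

lemma chk0 : TV.all ck = true := by
  rw [← List.take_append_drop 25 TV, ← List.take_append_drop 25 (TV.drop 25),
    ← List.take_append_drop 25 ((TV.drop 25).drop 25)]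
  simp only [List.all_append, ck1, ck2, ck3, ck4, Bool.and_self]

lemma chk1 (a : ℕ) (ha : a ∈ T.map evN) (b : ℕ) (hb : b ∈ T.map evN) (h : a < b) :
    43 ≤ (dl (a :: b :: base)).toFinset.card := by
  rw [TV_eq] at ha hb
  have c := List.all_eq_true.1 (List.all_eq_true.1 chk0 a ha) b hb
  simp only [Bool.or_eq_true, Nat.ble_eq] at c
  have c := c.resolve_left (by omega)
  have d := cm_append (dl base) (ex a b) 0
  rw [M0_eq.1, M0_eq.2] at d
  have d2 : 43 ≤ cntL (dl base ++ ex a b) := by
    unfold cntL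
    rw [d]
    exact Nat.add_le_add_left c 31
  refine le_trans d2 ((cntL_le (dl base ++ ex a b)).trans (card_le_card ?_))
  intro m hm
  simp only [List.mem_toFinset, List.mem_append] at hm ⊢
  rcases hm with hm | hm
  · simp only [dl, List.mem_flatMap, List.mem_map] at hm ⊢
    obtain ⟨u, hu, v, hv, e⟩ := hm
    exact ⟨u, by simp [hu], v, by simp [hv], e⟩
  · simp only [ex, List.mem_cons, List.not_mem_nil, or_false] at hm
    rcases hm with hm | hm | hm | hm | hm | hm | hm | hm | hm | hm | hm | hm | hm |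
      hm | hm | hm | hm | hm | hm | hm | hm | hm | hm | hm | hm | hm
    all_goals
      rw [hm]
      exact mem_dl (by simp [base]) (by simp [base])

lemma chk2 : (T.map evN).Nodup := by decide +kernel

lemma chk3 : ∀ t ∈ T, evN t ≤ 700 ∧ ev (fun s => 2 * (gg s : ℚ)) t + 208 = evN t := by
  decide +kernel

lemma chk4 : 43 ≤ cntL (dl (658 :: base)) := by decide +kernel

lemma memT1 : ∀ i j : Fin 6, i < j → (i, j, none) ∈ T := by decide +kernel

lemma memT2 : ∀ i j l : Fin 6, i ≤ j → l ≠ i → l ≠ j → (i, j, some l) ∈ T := by decide +kernel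

lemma base_ok {ι : Type} (y : ι → ℚ) (e : Fin 6 → ι) (hy : ∀ s, y (e s) = 2 * (gg s : ℚ)) :
    ∀ a ∈ base, a ≤ 700 ∧ ∃ i, y i + 208 = a := by
  intro a ha
  simp only [base, List.mem_cons, List.not_mem_nil, or_false] at ha
  rcases ha with rfl | rfl | rfl | rfl | rfl | rfl
  · exact ⟨by norm_num, e 0, by rw [hy]; decide +kernel⟩
  · exact ⟨by norm_num, e 1, by rw [hy]; decide +kernel⟩
  · exact ⟨by norm_num, e 2, by rw [hy]; decide +kernel⟩
  · exact ⟨by norm_num, e 3, by rw [hy]; decide +kernel⟩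
  · exact ⟨by norm_num, e 4, by rw [hy]; decide +kernel⟩
  · exact ⟨by norm_num, e 5, by rw [hy]; decide +kernel⟩

lemma alt {ι : Type} [Fintype ι] (x : ι → ℤ) (hx : Function.Injective x) (y : ι → ℚ) (hp : Pres x y)
    (e : Fin 6 → ι) (he : Function.Injective e) (hy : ∀ s, y (e s) = 2 * (gg s : ℚ)) (p : ι)
    (hpe : ∀ s, p ≠ e s) :
    43 ≤ (D x).card ∨ ∃ t ∈ T, ∀ w, Pres x w → w p = ev (fun s => w (e s)) t := by
  by_cases h1 : ∃ i j l, i ≤ j ∧ x p + x (e l) = x (e i) + x (e j)
  · obtain ⟨i, j, l, hij, h⟩ := h1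
    refine Or.inr ⟨(i, j, some l), memT2 i j l hij ?_ ?_, fun w hw => ?_⟩
    · rintro rfl; exact hpe j (hx (by linarith))
    · rintro rfl; exact hpe i (hx (by linarith))
    · have := hw p (e i) (e j) (e l) (by linarith)
      simp only [ev]; linarith
  by_cases h2 : ∃ i j, i ≤ j ∧ 2 * x p = x (e i) + x (e j)
  · obtain ⟨i, j, hij, h⟩ := h2
    refine Or.inr ⟨(i, j, none), memT1 i j (lt_of_le_of_ne hij ?_), fun w hw => ?_⟩
    · rintro rfl; exact hpe i (hx (by linarith))
    · have := hw p (e i) (e j) p (by linarith)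
      simp only [ev]; linarith
  left
  have f1 : ∀ i j l, x p + x (e l) ≠ x (e i) + x (e j) := by
    intro i j l h
    rcases le_total i j with hij | hij
    · exact h1 ⟨i, j, l, hij, h⟩
    · exact h1 ⟨j, i, l, hij, by linarith⟩
  have f2 : ∀ i j, 2 * x p ≠ x (e i) + x (e j) := by
    intro i j h
    rcases le_total i j with hij | hij
    · exact h2 ⟨i, j, hij, h⟩
    · exact h2 ⟨j, i, hij, by linarith⟩
  have inj : ∀ i j, x (e i) = x (e j) → i = j := fun i j h => he (hx h)
  let z : Option (Fin 6) → ℤ := fun o => o.elim (x p) (fun s => x (e s))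
  let y' : Option (Fin 6) → ℚ := fun o => o.elim 450 (fun s => y (e s))
  have hz : Pres z y' := by
    rintro (_ | i) (_ | j) (_ | i') (_ | j') h <;> simp only [z, y', Option.elim] at h ⊢
    · exact (f2 j' j' (by linarith)).elim
    · exact (f2 i' i' (by linarith)).elim
    · rw [inj i' j' (by linarith)]; ring
    · exact (f2 j j (by linarith)).elim
    · rw [inj j j' (by linarith)]
    · exact (f2 j i' (by linarith)).elim
    · exact (f1 j i' j' (by linarith)).elim
    · exact (f2 i i (by linarith)).elim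
    · exact (f2 i j' (by linarith)).elim
    · rw [inj i i' (by linarith)]
    · exact (f1 i j' i' (by linarith)).elim
    · rw [inj i j (by linarith)]; ring
    · exact (f1 i j' j (by linarith)).elim
    · exact (f1 j i' i (by linarith)).elim
    · exact hp _ _ _ _ h
  have c := cnt_le z y' hz (658 :: base) (by
    intro a ha
    rcases List.mem_cons.1 ha with rfl | ha
    · exact ⟨by norm_num, none, by simp only [y', Option.elim]; norm_num⟩
    · exact base_ok y' some hy a ha)
  refine chk4.trans ((cntL_le _).trans (c.trans (card_le_card ?_)))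
  intro d hd
  obtain ⟨⟨a, b⟩, -, rfl⟩ := mem_image.1 hd
  refine mem_image.2 ⟨(a.elim p e, b.elim p e), mem_univ _, ?_⟩
  cases a <;> cases b <;> rfl

lemma geo {ι : Type} [Fintype ι] (x : ι → ℤ) (hx : Function.Injective x) (y : ι → ℚ) (hp : Pres x y)
    (e : Fin 6 → ι) (he : Function.Injective e) (hy : ∀ s, y (e s) = 2 * (gg s : ℚ))
    (hc : 8 ≤ Fintype.card ι) : 43 ≤ (D x).card := by
  classical
  have h1 : 1 < (univ \ univ.image e).card := by
    have := le_card_sdiff (univ.image e) (univ : Finset ι)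
    have h2 : (univ.image e).card ≤ 6 := card_image_le.trans (by simp)
    rw [card_univ] at this
    omega
  obtain ⟨p, hp', q, hq', hpq⟩ := one_lt_card.1 h1
  have ne : ∀ r ∈ univ \ univ.image e, ∀ s, r ≠ e s := by
    rintro r hr s rfl
    exact (mem_sdiff.1 hr).2 (mem_image_of_mem _ (mem_univ _))
  rcases alt x hx y hp e he hy p (ne p hp') with h | ⟨t, ht, h⟩
  · exact h
  rcases alt x hx y hp e he hy q (ne q hq') with h' | ⟨t', ht', h'⟩
  · exact h'
  have tt : evN t ≠ evN t' := by
    intro hh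
    have := List.inj_on_of_nodup_map chk2 ht ht' hh
    subst this
    have px : Pres x (fun i => (x i : ℚ)) := fun i j i' j' h => by
      simp only; exact_mod_cast h
    have := (h _ px).trans (h' _ px).symm
    exact hpq (hx (by exact_mod_cast this))
  have vp : evN t ≤ 700 ∧ ∃ i, y i + 208 = evN t :=
    ⟨(chk3 t ht).1, p, by rw [h y hp, ← (chk3 t ht).2]; simp only [hy]⟩
  have vq : evN t' ≤ 700 ∧ ∃ i, y i + 208 = evN t' :=
    ⟨(chk3 t' ht').1, q, by rw [h' y hp, ← (chk3 t' ht').2]; simp only [hy]⟩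
  have key : ∀ a ∈ T.map evN, ∀ b ∈ T.map evN, a < b → (a ≤ 700 ∧ ∃ i, y i + 208 = a) →
      (b ≤ 700 ∧ ∃ i, y i + 208 = b) → 43 ≤ (D x).card := by
    intro a ha b hb hab va vb
    refine (chk1 a ha b hb hab).trans (cnt_le x y hp _ ?_)
    intro m hm
    rcases List.mem_cons.1 hm with rfl | hm
    · exact va
    rcases List.mem_cons.1 hm with rfl | hm
    · exact vb
    · exact base_ok y e hy m hm
  rcases lt_or_gt_of_ne tt with hh | hh
  · exact key _ (List.mem_map_of_mem ht) _ (List.mem_map_of_mem ht') hh vp vq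
  · exact key _ (List.mem_map_of_mem ht') _ (List.mem_map_of_mem ht) hh vq vp

lemma det {k : ℕ} (x : Fin k → ℤ) (hx : Function.Injective x) (hk : 8 ≤ k) (hD : (D x).card ≤ 41) :
    ∃ I : Finset (Fin k), I.card ≤ 5 ∧ ∀ y, Pres x y → (∀ a ∈ I, y a = 0) → y = 0 := by
  classical
  obtain ⟨I, hI, hmin⟩ := exists_min_image
    (univ.filter (fun I : Finset (Fin k) => ∀ y, Pres x y → (∀ a ∈ I, y a = 0) → y = 0)) card
    ⟨univ, mem_filter.2 ⟨mem_univ _, fun y _ h => funext fun a => h a (mem_univ _)⟩⟩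
  have hI := (mem_filter.1 hI).2
  refine ⟨I, ?_, hI⟩
  by_contra h6
  have ex : ∀ a ∈ I, ∃ Y : Fin k → ℚ, Pres x Y ∧ Y a = 1 ∧ ∀ b ∈ I, b ≠ a → Y b = 0 := by
    intro a ha
    have : ¬ ∀ y, Pres x y → (∀ b ∈ I.erase a, y b = 0) → y = 0 := by
      intro h
      have := hmin _ (mem_filter.2 ⟨mem_univ _, h⟩)
      rw [card_erase_of_mem ha] at this
      omega
    push Not at this
    obtain ⟨y, h1, h2, h3⟩ := this
    have ya : y a ≠ 0 := by
      intro h
      refine h3 (hI y h1 fun b hb => ?_)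
      by_cases e : b = a
      · rw [e, h]
      · exact h2 b (mem_erase.2 ⟨e, hb⟩)
    refine ⟨fun i => y i / y a, fun i j i' j' h => ?_, div_self ya, fun b hb e => ?_⟩
    · simp only [← sub_div, h1 i j i' j' h]
    · simp only [h2 b (mem_erase.2 ⟨e, hb⟩), zero_div]
  choose! Y hY using ex
  obtain ⟨J, hJ, hJc⟩ := exists_subset_card_eq (s := I) (n := 6) (by omega)
  let e : Fin 6 → Fin k := J.orderEmbOfFin hJc
  have he : Function.Injective e := (J.orderEmbOfFin hJc).injective
  have eI : ∀ s, e s ∈ I := fun s => hJ (J.orderEmbOfFin_mem hJc s)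
  have := geo x hx (fun i => ∑ s : Fin 6, 2 * (gg s : ℚ) * Y (e s) i)
    (fun i j i' j' h => by
      simp only [← sum_sub_distrib, ← mul_sub]
      exact sum_congr rfl fun s _ => by rw [(hY _ (eI s)).1 i j i' j' h]) e he
    (fun s => by
      rw [sum_eq_single s, (hY _ (eI s)).2.1, mul_one]
      · intro b _ hb
        rw [(hY _ (eI b)).2.2 _ (eI s) (fun h => hb (he h).symm), mul_zero]
      · simp) (by simpa using hk)
  omega

lemma tuples (k : ℕ) (hk : 8 ≤ k) : ∃ C : ℕ, ∀ n, 1 ≤ n →
    ((Fintype.piFinset fun _ : Fin k => range n).filter (fun x : Fin k → ℕ => Function.Injective x ∧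
      (D (fun i => (x i : ℤ))).card ≤ 41)).card ≤ C * n ^ 5 := by
  classical
  have ex : ∀ x : Fin k → ℕ, ∃ I : Finset (Fin k), (Function.Injective x ∧
      (D (fun i => (x i : ℤ))).card ≤ 41) → I.card ≤ 5 ∧
      ∀ y, Pres (fun i => (x i : ℤ)) y → (∀ a ∈ I, y a = 0) → y = 0 := by
    intro x
    by_cases h : Function.Injective x ∧ (D (fun i => (x i : ℤ))).card ≤ 41
    · obtain ⟨I, hI⟩ := det (fun i => (x i : ℤ)) (fun i j e => h.1 (Int.ofNat_inj.1 e)) hk h.2
      exact ⟨I, fun _ => hI⟩
    · exact ⟨∅, fun h' => (h h').elim⟩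
  choose I hI using ex
  let R : (Fin k → ℕ) → Finset (Fin k × Fin k × Fin k × Fin k) := fun x =>
    univ.filter (fun q => (x q.1 : ℤ) - x q.2.1 = x q.2.2.1 - x q.2.2.2)
  refine ⟨Fintype.card (Finset (Fin k × Fin k × Fin k × Fin k) × Finset (Fin k)), fun n hn => ?_⟩
  rw [mul_comm, ← card_univ]
  apply card_le_mul_card_image_of_maps_to (f := fun x => (R x, I x)) (fun _ _ => mem_univ _)
  rintro ⟨R0, I0⟩ -
  rcases (filter (fun x => (R x, I x) = (R0, I0)) ((Fintype.piFinset fun _ : Fin k => range n).filter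
    (fun x : Fin k → ℕ => Function.Injective x ∧
      (D (fun i => (x i : ℤ))).card ≤ 41))).eq_empty_or_nonempty
    with h | ⟨x0, h0⟩
  · rw [h]; simp
  simp only [mem_filter, Prod.mk.injEq] at h0
  have c5 : I0.card ≤ 5 := h0.2.2 ▸ (hI x0 h0.1.2).1
  refine le_trans ?_ (Nat.pow_le_pow_right hn c5)
  have : n ^ I0.card = (Fintype.piFinset fun _ : I0 => range n).card := by
    rw [Fintype.card_piFinset]; simp
  rw [this]
  apply card_le_card_of_injOn (fun x (a : I0) => x a)
  · intro x hx
    simp only [coe_filter, mem_filter, Set.mem_ofPred_eq, Fintype.mem_piFinset] at hx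
    simp only [mem_coe, Fintype.mem_piFinset]
    exact fun a => hx.1.1 a
  · intro x hx x' hx' h
    simp only [coe_filter, mem_filter, Set.mem_ofPred_eq, Prod.mk.injEq] at hx hx'
    have hR : R x = R x' := hx.2.1.trans hx'.2.1.symm
    have := (hI x hx.1.2).2 (fun i => (x i : ℚ) - x' i) (fun i j i' j' hh => by
      have m : (i, j, i', j') ∈ R x := mem_filter.2 ⟨mem_univ _, hh⟩
      rw [hR] at m
      have m := (mem_filter.1 m).2
      simp only at hh
      have m1 : (x i : ℚ) - x j = x i' - x j' := by exact_mod_cast hh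
      have m2 : (x' i : ℚ) - x' j = x' i' - x' j' := by exact_mod_cast m
      linarith) (fun a ha => by
      rw [hx.2.2] at ha
      have := congrFun h ⟨a, ha⟩
      simp only at this
      rw [this, sub_self])
    funext i
    have := congrFun this i
    simp only [Pi.zero_apply, sub_eq_zero] at this
    exact_mod_cast this

end Pool.Agent.H29.DV1
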