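import Mathlib

set_option autoImplicit false

namespace Pool.Agent.H29.DivDim

/-- the `t`-dimension of a set of positive integers under divisibility -/
noncomputable def dimDiv (t : ℕ) (S : Set ℕ) : ℕ :=
  sInf {d | 1 ≤ d ∧ ∃ f : S → Fin d → Fin t, Function.Injective f ∧
    ∀ x y : S, x.1 ∣ y.1 ↔ f x ≤ f y}

/-- the positive integers in `(α n, n]` -/
def Itv (α : ℝ) (n : ℕ) : Set ℕ := {m | 0 < m ∧ α * n < m ∧ m ≤ n}

end Pool.Agent.H29.DivDim
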