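import Mathlib
import Pool.Agent.H29.DivDimDefs

set_option autoImplicit false

namespace Pool.Agent.H29.DivDim

theorem mem_of_index {t : ℕ} {S : Set ℕ} {I : Type} [Fintype I] [Nonempty I] (f : S → I → Fin t)
    (h : ∀ x y : S, x.1 ∣ y.1 ↔ f x ≤ f y) : Fintype.card I ∈ {d | 1 ≤ d ∧
      ∃ f : S → Fin d → Fin t, Function.Injective f ∧ ∀ x y : S, x.1 ∣ y.1 ↔ f x ≤ f y} := by
  have h1 : ∀ x y : S, x.1 ∣ y.1 ↔ f x ∘ (Fintype.equivFin I).symm ≤
      f y ∘ (Fintype.equivFin I).symm := fun x y => (h x y).trans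
    ⟨fun e i => e _, fun e i => by simpa using e (Fintype.equivFin I i)⟩
  exact ⟨Fintype.card_pos, fun x => f x ∘ (Fintype.equivFin I).symm, fun x y e =>
    Subtype.ext (Nat.dvd_antisymm ((h1 x y).mpr e.le) ((h1 y x).mpr e.ge)), h1⟩

theorem bit_diff {B x y : ℕ} (hx : x < 2 ^ B) (hy : y < 2 ^ B) (h : x ≠ y) :
    ∃ i : Fin B, x.testBit i ≠ y.testBit i := by
  by_contra hc
  push Not at hc
  refine h (Nat.eq_of_testBit_eq fun i => ?_)
  by_cases hi : i < B
  · exact hc ⟨i, hi⟩
  · have p : 2 ^ B ≤ 2 ^ i := Nat.pow_le_pow_right (by norm_num) (by omega)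
    rw [Nat.testBit_lt_two_pow (by omega), Nat.testBit_lt_two_pow (by omega)]

/-- component label -/
noncomputable def comp (K m : ℕ) : ℕ :=
  sInf {x | ∀ p, K < p → x.factorization p = m.factorization p}

theorem comp_le (K m : ℕ) : comp K m ≤ m := Nat.sInf_le fun _ _ => rfl

theorem comp_eq {K a b : ℕ} :
    comp K a = comp K b ↔ ∀ p, K < p → a.factorization p = b.factorization p := by
  constructor
  · intro h p hp
    have h1 := Nat.sInf_mem (s := {x | ∀ p, K < p → x.factorization p = a.factorization p})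
      ⟨a, fun _ _ => rfl⟩ p hp
    have h2 := Nat.sInf_mem (s := {x | ∀ p, K < p → x.factorization p = b.factorization p})
      ⟨b, fun _ _ => rfl⟩ p hp
    unfold comp at h
    rw [← h1, ← h2, h]
  · intro h
    unfold comp
    congr 1
    ext x
    exact forall₂_congr fun p hp => by rw [h p hp]

theorem upper (t K n D B : ℕ) (ht : 2 ≤ t) (S : Set ℕ) (h0 : ∀ m ∈ S, 0 < m ∧ m ≤ n)
    (hK : ∀ a ∈ S, ∀ q, a * q ∈ S → q ≤ K) (hD : n < t ^ D) (hB : D * t < 2 ^ B)
    (hB' : Nat.log 2 n < 2 ^ B) (B0 : 0 < B) :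
    D + 2 * B + (2 * (K + 1) * B) ^ (K + 1) ∈ {d | 1 ≤ d ∧
      ∃ f : S → Fin d → Fin t, Function.Injective f ∧ ∀ x y : S, x.1 ∣ y.1 ↔ f x ≤ f y} := by
  classical
  let ind : Prop → Fin t := fun p => if p then ⟨1, by omega⟩ else ⟨0, by omega⟩
  have hind : ∀ p q : Prop, ind p ≤ ind q ↔ (p → q) := by
    intro p q
    simp only [ind]
    split_ifs <;> simp_all [Fin.le_def]
  let dg : ℕ → Fin D → Fin t := fun m =>
    if h : comp K m < t ^ D then finFunctionFinEquiv.symm ⟨comp K m, h⟩ else fun _ => ⟨0, by omega⟩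
  have hdg : ∀ a ∈ S, ∀ b ∈ S, dg a = dg b → comp K a = comp K b := by
    intro a ha b hb e
    have h1 := (comp_le K a).trans (h0 a ha).2
    have h2 := (comp_le K b).trans (h0 b hb).2
    simp only [dg, dif_pos (show comp K a < t ^ D by omega),
      dif_pos (show comp K b < t ^ D by omega)] at e
    simpa using e
  let sg : ℕ → ℕ := fun m => ∑ i, (dg m i).val
  have hsg : ∀ m, sg m < 2 ^ B := fun m => by
    have := Finset.sum_le_card_nsmul Finset.univ (fun i => (dg m i).val) t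
      fun i _ => (dg m i).2.le
    simp only [Finset.card_univ, Fintype.card_fin, smul_eq_mul] at this
    exact lt_of_le_of_lt this hB
  have hv : ∀ m ∈ S, ∀ p, m.factorization p < 2 ^ B := by
    intro m hm p
    refine lt_of_le_of_lt ?_ hB'
    by_cases hp : p.Prime
    · refine Nat.le_log_of_pow_le (by norm_num) ?_
      exact (Nat.pow_le_pow_left hp.two_le _).trans
        ((Nat.le_of_dvd (h0 m hm).1 (Nat.ordProj_dvd m p)).trans (h0 m hm).2)
    · simp [Nat.factorization_eq_zero_of_not_prime _ hp]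
  have hc : ∀ a ∈ S, ∀ b ∈ S, a ∣ b → comp K a = comp K b := by
    rintro a ha _ hb ⟨q, rfl⟩
    have h1 := hK a ha q hb
    have h2 : q ≠ 0 := by
      rintro rfl
      simpa using (h0 _ hb).1
    refine comp_eq.mpr fun p hp => ?_
    rw [Nat.factorization_mul (h0 a ha).1.ne' h2, Finsupp.add_apply,
      Nat.factorization_eq_zero_of_lt (show q < p by omega), add_zero]
  haveI : Nonempty (Fin D ⊕ (Fin B × Bool) ⊕ (Fin (K + 1) → Fin (K + 1) × Fin B × Bool)) :=
    ⟨Sum.inr (Sum.inl (⟨0, B0⟩, true))⟩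
  have := mem_of_index (S := S) (t := t)
    (I := Fin D ⊕ (Fin B × Bool) ⊕ (Fin (K + 1) → Fin (K + 1) × Fin B × Bool))
    (fun m => Sum.elim (dg m) (Sum.elim (fun z => ind ((sg m).testBit z.1 = z.2))
      fun τ => ind (∃ x ∈ S, x ∣ m.1 ∧
        ∀ q, (x.factorization (τ q).1).testBit (τ q).2.1 = (τ q).2.2))) (by
    intro a b
    constructor
    · intro h
      have h1 : dg a = dg b := by simp only [dg, hc a a.2 b b.2 h]
      rintro (i | z | τ)
      · simp [h1]
      · simp [sg, h1]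
      · exact (hind _ _).mpr fun ⟨x, x1, x2, x3⟩ => ⟨x, x1, x2.trans h, x3⟩
    · intro h
      have h1 : sg a = sg b := by
        by_contra hne
        obtain ⟨i, hi⟩ := bit_diff (hsg a) (hsg b) hne
        exact hi ((hind _ _).mp (h (Sum.inr (Sum.inl (i, (sg a).testBit i)))) rfl).symm
      have h2 : dg a = dg b := by
        have := (Finset.sum_eq_sum_iff_of_le (s := Finset.univ) (f := fun i => (dg a i).val)
          (g := fun i => (dg b i).val) (fun i _ => h (Sum.inl i))).mp h1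
        exact funext fun i => Fin.ext (this i (Finset.mem_univ i))
      have h3 := hdg a a.2 b b.2 h2
      by_contra hn
      have h4 : ∀ q : Fin (K + 1), ∃ z : Fin (K + 1) × Fin B, ∀ x ∈ S, x * q = b →
          (a.1.factorization z.1).testBit z.2 ≠ (x.factorization z.1).testBit z.2 := by
        intro q
        by_cases hq : ∃ x ∈ S, x * q = b
        · obtain ⟨x, hx, e⟩ := hq
          have h5 : a.1 ≠ x := fun e' => hn ⟨q, by rw [e', e]⟩
          have h6 := comp_eq.mp (h3.trans (hc x hx b b.2 ⟨q, e.symm⟩).symm)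
          obtain ⟨p, hp⟩ : ∃ p, a.1.factorization p ≠ x.factorization p := by
            by_contra hc'
            push Not at hc'
            exact h5 (Nat.eq_of_factorization_eq (h0 a a.2).1.ne' (h0 x hx).1.ne' hc')
          obtain ⟨i, hi⟩ := bit_diff (hv a a.2 p) (hv x hx p) hp
          refine ⟨(⟨p, ?_⟩, i), fun y _ e' => ?_⟩
          · by_contra hc'
            exact hp (h6 p (by omega))
          · have q0 : 0 < q.val := Nat.pos_of_ne_zero fun e0 => by
              have := (h0 b b.2).1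
              rw [← e, e0] at this
              simp at this
            rw [Nat.eq_of_mul_eq_mul_right q0 (e'.trans e.symm)]
            exact hi
        · exact ⟨(0, ⟨0, B0⟩), fun x hx e => absurd ⟨x, hx, e⟩ hq⟩
      choose z hz using h4
      obtain ⟨x, x1, ⟨q, x2⟩, x3⟩ := (hind _ _).mp (h (Sum.inr (Sum.inr fun q =>
        ((z q).1, (z q).2, (a.1.factorization (z q).1).testBit (z q).2))))
        ⟨a, a.2, dvd_rfl, fun _ => rfl⟩
      have h5 := hK x x1 q (x2 ▸ b.2)
      exact hz ⟨q, by omega⟩ x x1 x2.symm (x3 ⟨q, by omega⟩).symm)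
  convert this using 1
  simp only [Fintype.card_sum, Fintype.card_fin, Fintype.card_prod, Fintype.card_bool,
    Fintype.card_fun]
  ring

theorem lower {t : ℕ} {S : Set ℕ} {d : ℕ} (h : d ∈ {d | 1 ≤ d ∧
      ∃ f : S → Fin d → Fin t, Function.Injective f ∧ ∀ x y : S, x.1 ∣ y.1 ↔ f x ≤ f y}) :
    S.ncard ≤ t ^ dimDiv t S := by
  obtain ⟨_, f, hf, _⟩ := Nat.sInf_mem ⟨d, h⟩
  have := Nat.card_le_card_of_injective f hf
  simpa [dimDiv] using this

theorem card_itv {α : ℝ} (h0 : 0 < α) (h1 : α < 1) (n : ℕ) :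
    (1 - α) * n ≤ (Itv α n).ncard := by
  have e : Itv α n = Finset.Ioc ⌊α * n⌋₊ n := by
    ext m
    simp only [Itv, Set.mem_ofPred_eq, Finset.coe_Ioc, Set.mem_Ioc,
      Nat.floor_lt (show 0 ≤ α * n by positivity)]
    refine ⟨fun h => h.2, fun h => ⟨?_, h⟩⟩
    have : (0 : ℝ) < m := lt_of_le_of_lt (by positivity) h.1
    exact_mod_cast this
  have h2 : (⌊α * n⌋₊ : ℝ) ≤ α * n := Nat.floor_le (by positivity)
  have h3 : ⌊α * n⌋₊ ≤ n := by
    have : α * n ≤ n := by nlinarith [Nat.cast_nonneg (α := ℝ) n]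
    exact_mod_cast h2.trans this
  rw [e, Set.ncard_coe_finset, Nat.card_Ioc, Nat.cast_sub h3]
  linarith

theorem ratio {α : ℝ} (h0 : 0 < α) (n : ℕ) : ∀ a ∈ Itv α n, ∀ q, a * q ∈ Itv α n → q ≤ ⌊1 / α⌋₊ := by
  intro a ha q hq
  refine Nat.le_floor ?_
  rw [le_div_iff₀ h0]
  have h1 : (0 : ℝ) < a := by exact_mod_cast ha.1
  have h2 : (a : ℝ) * q ≤ n := by exact_mod_cast hq.2.2
  have h3 := ha.2.1
  nlinarith

theorem logle (b n : ℕ) (hb : 1 < b) (hn : n ≠ 0) :
    (Nat.log b n : ℝ) * Real.log b ≤ Real.log n := by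
  rw [← Real.log_pow]
  refine Real.log_le_log (by positivity) ?_
  exact_mod_cast Nat.pow_log_le_self b hn

end Pool.Agent.H29.DivDim
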