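import Mathlib

set_option autoImplicit false
open Finset

namespace Pool.Agent.H29.Dom

section blocks
variable {ι X : Type} [Fintype ι] [Fintype X] [DecidableEq ι] [DecidableEq X]

def slice (D : Finset (ι × X)) (i : ι) : Finset X := univ.filter (fun x => (i, x) ∈ D)

omit [Fintype ι] in
@[simp] lemma mem_slice (D : Finset (ι × X)) (i : ι) (x : X) : x ∈ slice D i ↔ (i, x) ∈ D := by
  simp [slice]

def sliceEquiv : Finset (ι × X) ≃ (ι → Finset X) where
  toFun := slice
  invFun f := univ.filter (fun p => p.2 ∈ f p.1)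
  left_inv D := by ext ⟨i, x⟩; simp
  right_inv f := by ext i x; simp

lemma card_eq_sum_slice (D : Finset (ι × X)) : D.card = ∑ i, (slice D i).card := by
  rw [card_eq_sum_card_fiberwise (f := Prod.fst) (t := univ) (by simp)]
  refine sum_congr rfl fun i _ => ?_
  apply card_bij (fun p _ => p.2)
  · rintro ⟨j, x⟩ h
    simp only [mem_filter] at h
    obtain ⟨h1, rfl⟩ := h
    simpa using h1
  · rintro ⟨j, x⟩ h ⟨j', x'⟩ h' hx
    simp only [mem_filter] at h h' hx
    obtain ⟨-, rfl⟩ := h
    obtain ⟨-, rfl⟩ := h'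
    simp [hx]
  · intro x hx
    exact ⟨(i, x), by simpa using hx, rfl⟩

lemma sum_blocks (h : ι → Finset X → ℝ) :
    ∑ D : Finset (ι × X), ∏ i, h i (slice D i) = ∏ i, ∑ E, h i E := by
  rw [Finset.prod_univ_sum, Fintype.piFinset_univ]
  exact Fintype.sum_equiv sliceEquiv _ _ (fun D => rfl)

omit [DecidableEq X] in
lemma sum_pow_card (t : ℝ) : ∑ E : Finset X, t ^ E.card = (1 + t) ^ Fintype.card X := by
  have := Finset.prod_one_add (s := (univ : Finset X)) (f := fun _ => t)
  simp only [prod_const, card_univ, powerset_univ] at this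
  exact this.symm

lemma sum_ne (t : ℝ) (E0 : Finset X) :
    ∑ E : Finset X, (if E ≠ E0 then t ^ E.card else 0) = (1 + t) ^ Fintype.card X - t ^ E0.card := by
  rw [← sum_pow_card, ← Finset.add_sum_erase univ (fun E : Finset X => t ^ E.card) (mem_univ E0),
    add_sub_cancel_left, ← Finset.sum_filter]
  congr 1
  ext E; simp

end blocks

section graph
variable {ι L : Type} [Fintype ι] [Fintype L] [DecidableEq ι] [DecidableEq L]

abbrev V (ι L : Type) : Type := (ι × L) ⊕ ((ι × ι) × (Bool × L))

def att (b : (ι × ι) × (Bool × L)) : ι × L := (if b.2.1 then b.1.1 else b.1.2, b.2.2)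

def adj : V ι L → V ι L → Prop
  | .inl a, .inl b => a ≠ b
  | .inr a, .inr b => a.1 = b.1 ∧ a.2 ≠ b.2
  | .inl a, .inr b => a = att b
  | .inr b, .inl a => a = att b

def G (ι L : Type) : SimpleGraph (V ι L) where
  Adj := adj
  symm := ⟨by
    rintro (a | a) (b | b) h
    · exact Ne.symm h
    · exact h
    · exact h
    · exact ⟨h.1.symm, h.2.symm⟩⟩
  loopless := ⟨by
    rintro (a | a) h
    · exact h rfl
    · exact h.2 rfl⟩

def on (D : Finset (V ι L)) : Finset ι := univ.filter (fun i => slice D.toLeft i = univ)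

def Cl (D : Finset (V ι L)) : Prop :=
  ∀ p : ι × ι, (p.1 ∈ on D ∧ p.2 ∈ on D) ∨ slice D.toRight p ≠ ∅

def Dm (D : Finset (V ι L)) : Prop := ∀ v, v ∈ D ∨ ∃ u ∈ D, (G ι L).Adj v u

lemma mem_on (D : Finset (V ι L)) (i : ι) : i ∈ on D ↔ ∀ m, Sum.inl (i, m) ∈ D := by
  simp [on, Finset.eq_univ_iff_forall]

lemma cl_of_dm {D : Finset (V ι L)} (h : Dm D) : Cl D := by
  intro p
  by_cases he : slice D.toRight p = ∅
  · left
    have hno : ∀ y, Sum.inr (p, y) ∉ D := by
      intro y hy
      have : y ∈ slice D.toRight p := by simpa using hy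
      rw [he] at this
      simp at this
    have key : ∀ y : Bool × L, Sum.inl (att (p, y)) ∈ D := by
      intro y
      rcases h (Sum.inr (p, y)) with h1 | ⟨u, hu, hadj⟩
      · exact absurd h1 (hno y)
      · rcases u with a | ⟨q, z⟩
        · have : a = att (p, y) := hadj
          rwa [← this]
        · have : p = q := hadj.1
          subst this
          exact absurd hu (hno z)
    constructor
    · rw [mem_on]; intro m; simpa [att] using key (true, m)
    · rw [mem_on]; intro m; simpa [att] using key (false, m)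
  · exact Or.inr he

lemma dm_of_cl [Nonempty L] {D : Finset (V ι L)} (h : Cl D) (hne : (on D).card ≠ 0) : Dm D := by
  obtain ⟨i, hi⟩ := card_ne_zero.1 hne
  rw [mem_on] at hi
  obtain ⟨m⟩ := ‹Nonempty L›
  rintro (a | ⟨p, y⟩)
  · by_cases ha : a = (i, m)
    · left; rw [ha]; exact hi m
    · right; exact ⟨_, hi m, ha⟩
  · rcases h p with ⟨h1, h2⟩ | h1
    · right
      rw [mem_on] at h1 h2
      refine ⟨Sum.inl (att (p, y)), ?_, rfl⟩
      obtain ⟨b, m'⟩ := y
      cases b
      · simpa [att] using h2 m'
      · simpa [att] using h1 m'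
    · obtain ⟨z, hz⟩ := nonempty_iff_ne_empty.2 h1
      have hz' : Sum.inr (p, z) ∈ D := by simpa using hz
      by_cases hy : y = z
      · left; rw [hy]; exact hz'
      · right; exact ⟨_, hz', rfl, hy⟩

open Classical in
lemma fiber (t : ℝ) (K : Finset ι) :
    ∑ D : Finset (V ι L), (if on D = K ∧ Cl D then t ^ D.card else 0) =
      (t ^ Fintype.card L) ^ K.card *
        ((1 + t) ^ Fintype.card L - t ^ Fintype.card L) ^ (Fintype.card ι - K.card) *
      (((1 + t) ^ (2 * Fintype.card L)) ^ (K.card * K.card) *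
        ((1 + t) ^ (2 * Fintype.card L) - 1) ^
          (Fintype.card ι * Fintype.card ι - K.card * K.card)) := by
  let h1 : ι → Finset L → ℝ := fun i E => if (E = univ ↔ i ∈ K) then t ^ E.card else 0
  let h2 : ι × ι → Finset (Bool × L) → ℝ :=
    fun p E => if (p.1 ∈ K ∧ p.2 ∈ K) ∨ E ≠ ∅ then t ^ E.card else 0
  have e1 : ∀ D : Finset (V ι L), (if on D = K ∧ Cl D then t ^ D.card else 0) =
      (∏ i, h1 i (slice D.toLeft i)) * ∏ p, h2 p (slice D.toRight p) := by
    intro D
    by_cases hK : on D = K
    · have a1 : ∏ i, h1 i (slice D.toLeft i) = t ^ D.toLeft.card := by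
        rw [card_eq_sum_slice, ← prod_pow_eq_pow_sum]
        refine prod_congr rfl fun i _ => if_pos ?_
        rw [← hK]; simp [on]
      by_cases hc : Cl D
      · have a2 : ∏ p, h2 p (slice D.toRight p) = t ^ D.toRight.card := by
          rw [card_eq_sum_slice, ← prod_pow_eq_pow_sum]
          refine prod_congr rfl fun p _ => if_pos ?_
          rw [← hK]; exact hc p
        rw [if_pos ⟨hK, hc⟩, a1, a2, ← pow_add, card_toLeft_add_card_toRight]
      · rw [if_neg (fun h => hc h.2)]
        simp only [Cl, not_forall] at hc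
        obtain ⟨p, hp⟩ := hc
        rw [prod_eq_zero (mem_univ p) (if_neg (by rwa [← hK])), mul_zero]
    · rw [if_neg (fun h => hK h.1)]
      have : ∃ i, ¬ (slice D.toLeft i = univ ↔ i ∈ K) := by
        by_contra hh
        push Not at hh
        apply hK
        ext i
        rw [← hh i]; simp [on]
      obtain ⟨i, hi⟩ := this
      rw [prod_eq_zero (mem_univ i) (if_neg hi), zero_mul]
  simp only [e1]
  rw [Fintype.sum_equiv Finset.sumEquiv.toEquiv
    (fun D : Finset (V ι L) => (∏ i, h1 i (slice D.toLeft i)) * ∏ p, h2 p (slice D.toRight p))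
    (fun q => (∏ i, h1 i (slice q.1 i)) * ∏ p, h2 p (slice q.2 p)) (fun D => rfl),
    Fintype.sum_prod_type]
  dsimp only
  rw [← Fintype.sum_mul_sum, sum_blocks, sum_blocks]
  have b1 : ∀ i, ∑ E, h1 i E = if i ∈ K then t ^ Fintype.card L
      else (1 + t) ^ Fintype.card L - t ^ Fintype.card L := by
    intro i
    by_cases hi : i ∈ K
    · simp [h1, hi]
    · rw [if_neg hi, ← card_univ (α := L), card_univ, ← card_univ (α := L)]
      have := sum_ne t (univ : Finset L)
      rw [card_univ] at this ⊢
      rw [← this]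
      refine sum_congr rfl fun E _ => ?_
      simp [h1, hi]
  have b2 : ∀ p, ∑ E, h2 p E = if p ∈ K ×ˢ K then (1 + t) ^ (2 * Fintype.card L)
      else (1 + t) ^ (2 * Fintype.card L) - 1 := by
    intro p
    have hc : Fintype.card (Bool × L) = 2 * Fintype.card L := by simp
    by_cases hp : p ∈ K ×ˢ K
    · rw [if_pos hp, ← hc, ← sum_pow_card]
      refine sum_congr rfl fun E _ => if_pos (Or.inl (mem_product.1 hp))
    · have := sum_ne t (∅ : Finset (Bool × L))
      rw [if_neg hp, ← hc]
      rw [card_empty, pow_zero] at this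
      rw [← this]
      refine sum_congr rfl fun E _ => ?_
      have hp' : ¬ (p.1 ∈ K ∧ p.2 ∈ K) := fun h => hp (mem_product.2 h)
      simp [h2, hp']
  simp only [b1, b2]
  rw [prod_ite, prod_ite]
  simp only [prod_const, filter_mem_eq_inter, univ_inter, card_product]
  have c1 : (univ.filter fun i => i ∉ K).card = Fintype.card ι - K.card := by
    rw [← card_compl]; congr 1; ext; simp
  have c2 : (univ.filter fun p : ι × ι => p ∉ K ×ˢ K).card =
      Fintype.card ι * Fintype.card ι - K.card * K.card := by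
    rw [← card_product, ← Fintype.card_prod, ← card_compl]; congr 1; ext; simp
  rw [c1, c2]

open Classical in
/-- Weighted count of the clause-satisfying sets, sorted by the number of full blocks. -/
lemma W_formula (f : ℕ → ℝ) (t : ℝ) :
    ∑ D : Finset (V ι L), (if Cl D then f (on D).card * t ^ D.card else 0) =
      ∑ k ∈ range (Fintype.card ι + 1), ((Fintype.card ι).choose k : ℝ) * (f k *
      ((t ^ Fintype.card L) ^ k *
        ((1 + t) ^ Fintype.card L - t ^ Fintype.card L) ^ (Fintype.card ι - k) *
      (((1 + t) ^ (2 * Fintype.card L)) ^ (k * k) *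
        ((1 + t) ^ (2 * Fintype.card L) - 1) ^
          (Fintype.card ι * Fintype.card ι - k * k)))) := by
  have e : ∀ D : Finset (V ι L), (if Cl D then f (on D).card * t ^ D.card else 0) =
      ∑ K : Finset ι, f K.card * (if on D = K ∧ Cl D then t ^ D.card else 0) := by
    intro D
    rw [sum_eq_single (on D)]
    · by_cases hc : Cl D <;> simp [hc]
    · intro K _ hK
      rw [if_neg (fun h => hK h.1.symm), mul_zero]
    · simp
  simp only [e]
  rw [sum_comm]
  simp only [← mul_sum, fiber]
  have := Finset.sum_powerset_apply_card (x := (univ : Finset ι)) (fun k => f k *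
      ((t ^ Fintype.card L) ^ k *
        ((1 + t) ^ Fintype.card L - t ^ Fintype.card L) ^ (Fintype.card ι - k) *
      (((1 + t) ^ (2 * Fintype.card L)) ^ (k * k) *
        ((1 + t) ^ (2 * Fintype.card L) - 1) ^
          (Fintype.card ι * Fintype.card ι - k * k))))
  simpa [powerset_univ, card_univ, nsmul_eq_mul] using this

end graph

end Pool.Agent.H29.Dom
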