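import Pool.Agent.H29.Dom1

set_option autoImplicit false
open Finset

namespace Pool.Agent.H29.Dom

/-- Fixed-point evaluation of a range of the terms `C(N,k) w^k r^(k*k)`; `e = 0` rounds down,
`e = 1` rounds up. -/
def go (N S wn wd rn rd e lo hi : ℕ) : ℕ → ℕ → ℕ → ℕ → ℕ → ℕ
  | 0, _, _, _, acc => acc
  | f + 1, k, t, r, acc =>
    if t + r + acc + k = 0 then
      go N S wn wd rn rd e lo hi f (k + 1) (t * (N - k) * wn * r / ((k + 1) * wd * S) + e)
        (r * rn * rn / (rd * rd) + e) (if lo ≤ k ∧ k < hi then acc + t else acc)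
    else
      go N S wn wd rn rd e lo hi f (k + 1) (t * (N - k) * wn * r / ((k + 1) * wd * S) + e)
        (r * rn * rn / (rd * rd) + e) (if lo ≤ k ∧ k < hi then acc + t else acc)

noncomputable def T (N : ℕ) (w r : ℝ) (k : ℕ) : ℝ := (N.choose k : ℝ) * w ^ k * r ^ (k * k)

lemma T_succ (N : ℕ) (w r : ℝ) (k : ℕ) :
    T N w r (k + 1) = T N w r k * ((N - k : ℕ) : ℝ) * w * r ^ (2 * k + 1) / (k + 1) := by
  have h : ((N.choose (k + 1) : ℕ) : ℝ) * (k + 1) = N.choose k * ((N - k : ℕ) : ℝ) := by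
    exact_mod_cast Nat.choose_succ_right_eq N k
  have hk : (k : ℝ) + 1 ≠ 0 := by positivity
  rw [eq_div_iff hk]
  unfold T
  have : (k + 1) * (k + 1) = k * k + (2 * k + 1) := by ring
  rw [this, pow_add, pow_succ w]
  linear_combination (w ^ k * w * (r ^ (k * k) * r ^ (2 * k + 1))) * h

noncomputable def ind (lo hi k : ℕ) : ℝ := if lo ≤ k ∧ k < hi then 1 else 0

lemma div_lt_up (a b : ℕ) (hb : 0 < b) : (a : ℝ) / b ≤ ((a / b + 1 : ℕ) : ℝ) := by
  have : (0 : ℝ) < b := by exact_mod_cast hb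
  rw [div_le_iff₀ this]
  have h : a ≤ (a / b + 1) * b := by
    have := Nat.lt_div_mul_add (a := a) hb
    rw [add_mul, one_mul]; exact this.le
  exact_mod_cast h

lemma go_up (N S wn wd rn rd lo hi : ℕ) (hS : 0 < S) (hwd : 0 < wd) (hrd : 0 < rd) :
    ∀ (f k t r acc : ℕ), T N (wn / wd) (rn / rd) k * S ≤ t →
      ((rn : ℝ) / rd) ^ (2 * k + 1) * S ≤ r →
      acc + (∑ j ∈ range f, ind lo hi (k + j) * T N (wn / wd) (rn / rd) (k + j)) * S ≤
        (go N S wn wd rn rd 1 lo hi f k t r acc : ℝ) := by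
  intro f
  induction f with
  | zero => intro k t r acc _ _; simp [go]
  | succ f ih =>
    intro k t r acc ht hr
    have hS' : (0 : ℝ) < S := by exact_mod_cast hS
    have hwd' : (0 : ℝ) < wd := by exact_mod_cast hwd
    have hrd' : (0 : ℝ) < rd := by exact_mod_cast hrd
    have hT : 0 ≤ T N (wn / wd) (rn / rd) k := by unfold T; positivity
    rw [go, ite_self]
    refine le_trans ?_ (ih (k + 1) _ _ _ ?_ ?_)
    · rw [sum_range_succ', add_mul]
      have e : ∑ j ∈ range f, ind lo hi (k + (j + 1)) * T N (wn / wd) (rn / rd) (k + (j + 1)) =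
          ∑ j ∈ range f, ind lo hi (k + 1 + j) * T N (wn / wd) (rn / rd) (k + 1 + j) :=
        sum_congr rfl fun j _ => by rw [show k + (j + 1) = k + 1 + j by ring]
      rw [e, add_zero]
      have : (acc : ℝ) + ind lo hi k * T N (wn / wd) (rn / rd) k * S ≤
          ((if lo ≤ k ∧ k < hi then acc + t else acc : ℕ) : ℝ) := by
        unfold ind
        split_ifs
        · push_cast; linarith
        · simp
      linarith
    · refine le_trans ?_ (div_lt_up _ _ (by positivity))
      rw [T_succ]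
      push_cast
      have : T N (wn / wd) (rn / rd) k * ((N - k : ℕ) : ℝ) * (wn / wd) * (rn / rd) ^ (2 * k + 1)
          / (k + 1) * S = (T N (wn / wd) (rn / rd) k * S) * ((N - k : ℕ) : ℝ) * wn *
            (((rn : ℝ) / rd) ^ (2 * k + 1) * S) / ((k + 1) * wd * S) := by
        field_simp
      rw [this]
      gcongr
    · refine le_trans ?_ (div_lt_up _ _ (by positivity))
      push_cast
      have : ((rn : ℝ) / rd) ^ (2 * (k + 1) + 1) * S =
          (((rn : ℝ) / rd) ^ (2 * k + 1) * S) * rn * rn / (rd * rd) := by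
        have : 2 * (k + 1) + 1 = 2 * k + 1 + 2 := by ring
        rw [this, pow_add]
        field_simp
      rw [this]
      gcongr

lemma go_down (N S wn wd rn rd lo hi : ℕ) (hS : 0 < S) (hwd : 0 < wd) (hrd : 0 < rd) :
    ∀ (f k t r acc : ℕ), (t : ℝ) ≤ T N (wn / wd) (rn / rd) k * S →
      (r : ℝ) ≤ ((rn : ℝ) / rd) ^ (2 * k + 1) * S →
      (go N S wn wd rn rd 0 lo hi f k t r acc : ℝ) ≤
        acc + (∑ j ∈ range f, ind lo hi (k + j) * T N (wn / wd) (rn / rd) (k + j)) * S := by
  intro f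
  induction f with
  | zero => intro k t r acc _ _; simp [go]
  | succ f ih =>
    intro k t r acc ht hr
    have hS' : (0 : ℝ) < S := by exact_mod_cast hS
    have hwd' : (0 : ℝ) < wd := by exact_mod_cast hwd
    have hrd' : (0 : ℝ) < rd := by exact_mod_cast hrd
    have hT : 0 ≤ T N (wn / wd) (rn / rd) k := by unfold T; positivity
    rw [go, ite_self]
    refine le_trans (ih (k + 1) _ _ _ ?_ ?_) ?_
    · rw [add_zero]
      refine le_trans Nat.cast_div_le ?_
      rw [T_succ]
      push_cast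
      have : T N (wn / wd) (rn / rd) k * ((N - k : ℕ) : ℝ) * (wn / wd) * (rn / rd) ^ (2 * k + 1)
          / (k + 1) * S = (T N (wn / wd) (rn / rd) k * S) * ((N - k : ℕ) : ℝ) * wn *
            (((rn : ℝ) / rd) ^ (2 * k + 1) * S) / ((k + 1) * wd * S) := by
        field_simp
      rw [this]
      gcongr
    · rw [add_zero]
      refine le_trans Nat.cast_div_le ?_
      push_cast
      have : ((rn : ℝ) / rd) ^ (2 * (k + 1) + 1) * S =
          (((rn : ℝ) / rd) ^ (2 * k + 1) * S) * rn * rn / (rd * rd) := by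
        have : 2 * (k + 1) + 1 = 2 * k + 1 + 2 := by ring
        rw [this, pow_add]
        field_simp
      rw [this]
      gcongr
    · rw [sum_range_succ', add_mul]
      have e : ∑ j ∈ range f, ind lo hi (k + (j + 1)) * T N (wn / wd) (rn / rd) (k + (j + 1)) =
          ∑ j ∈ range f, ind lo hi (k + 1 + j) * T N (wn / wd) (rn / rd) (k + 1 + j) :=
        sum_congr rfl fun j _ => by rw [show k + (j + 1) = k + 1 + j by ring]
      rw [e, add_zero]
      have : ((if lo ≤ k ∧ k < hi then acc + t else acc : ℕ) : ℝ) ≤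
          (acc : ℝ) + ind lo hi k * T N (wn / wd) (rn / rd) k * S := by
        unfold ind
        split_ifs
        · push_cast; linarith
        · simp
      linarith

/-- The full run. -/
def run (N S wn wd rn rd e lo hi : ℕ) : ℕ :=
  go N S wn wd rn rd e lo hi (N + 1) 0 S (S * rn / rd + e) 0

noncomputable def Sg (N : ℕ) (w r : ℝ) (lo hi : ℕ) : ℝ :=
  ∑ j ∈ range (N + 1), ind lo hi j * T N w r j

lemma run_up (N S wn wd rn rd lo hi : ℕ) (hS : 0 < S) (hwd : 0 < wd) (hrd : 0 < rd) :
    Sg N (wn / wd) (rn / rd) lo hi * S ≤ run N S wn wd rn rd 1 lo hi := by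
  have := go_up N S wn wd rn rd lo hi hS hwd hrd (N + 1) 0 S (S * rn / rd + 1) 0
    (by simp [T]) (by
      refine le_trans (le_of_eq ?_) (div_lt_up _ _ hrd)
      push_cast; ring)
  simpa [Sg, run] using this

lemma run_down (N S wn wd rn rd lo hi : ℕ) (hS : 0 < S) (hwd : 0 < wd) (hrd : 0 < rd) :
    (run N S wn wd rn rd 0 lo hi : ℝ) ≤ Sg N (wn / wd) (rn / rd) lo hi * S := by
  have := go_down N S wn wd rn rd lo hi hS hwd hrd (N + 1) 0 S (S * rn / rd + 0) 0
    (by simp [T]) (by
      rw [add_zero]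
      refine le_trans Nat.cast_div_le (le_of_eq ?_)
      push_cast; ring)
  simpa [Sg, run] using this

section
variable {ι L : Type} [Fintype ι] [Fintype L] [DecidableEq ι] [DecidableEq L]

open Classical in
noncomputable def W (ι L : Type) [Fintype ι] [Fintype L] [DecidableEq ι] [DecidableEq L]
    (lo hi : ℕ) (t : ℝ) : ℝ :=
  ∑ D : Finset (V ι L), (if Cl D then ind lo hi (on D).card * t ^ D.card else 0)

lemma W_eq (lo hi : ℕ) (t B A : ℝ) (hB : B = (1 + t) ^ Fintype.card L - t ^ Fintype.card L)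
    (hA : A = (1 + t) ^ (2 * Fintype.card L)) (hB0 : B ≠ 0) (hA0 : A - 1 ≠ 0) :
    W ι L lo hi t = B ^ Fintype.card ι * (A - 1) ^ (Fintype.card ι * Fintype.card ι) *
      Sg (Fintype.card ι) (t ^ Fintype.card L / B) (A / (A - 1)) lo hi := by
  unfold W Sg
  rw [W_formula, mul_sum, ← hB, ← hA]
  refine sum_congr rfl fun k hk => ?_
  have hk' : k ≤ Fintype.card ι := Nat.lt_succ_iff.1 (mem_range.1 hk)
  have h1 : B ^ Fintype.card ι = B ^ (Fintype.card ι - k) * B ^ k := by
    rw [← pow_add, Nat.sub_add_cancel hk']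
  have h2 : (A - 1) ^ (Fintype.card ι * Fintype.card ι) =
      (A - 1) ^ (Fintype.card ι * Fintype.card ι - k * k) * (A - 1) ^ (k * k) := by
    rw [← pow_add, Nat.sub_add_cancel (Nat.mul_le_mul hk' hk')]
  rw [h1, h2]
  unfold T
  rw [div_pow, div_pow]
  field_simp

end

end Pool.Agent.H29.Dom
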