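import Pool.Agent.H29.Dom2

set_option autoImplicit false
open Finset

namespace Pool.Agent.H29.Dom

section
variable {ι L : Type} [Fintype ι] [Fintype L] [DecidableEq ι] [DecidableEq L]

open Classical in
noncomputable def dd (ι L : Type) [Fintype ι] [Fintype L] [DecidableEq ι] [DecidableEq L]
    (i : ℕ) : ℕ := (univ.filter fun D : Finset (V ι L) => D.card = i ∧ Dm D).card

open Classical in
lemma cnt_eq (a b : ℕ) : ∑ i ∈ Ico a b, (dd ι L i : ℝ) =
    ∑ D : Finset (V ι L), if Dm D ∧ a ≤ D.card ∧ D.card < b then (1 : ℝ) else 0 := by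
  unfold dd
  simp only [card_filter, Nat.cast_sum, Nat.cast_ite, Nat.cast_one, Nat.cast_zero]
  rw [sum_comm]
  refine sum_congr rfl fun D _ => ?_
  by_cases h : Dm D
  · simp [h]
  · simp [h]

lemma ind_nonneg (lo hi k : ℕ) : 0 ≤ ind lo hi k := by unfold ind; split_ifs <;> norm_num

lemma cnt_lower [Nonempty L] (lo hi a b : ℕ) (hlo : 1 ≤ lo) (s t : ℝ) (hs : 0 < s) (hs1 : s ≤ 1)
    (ht : 1 ≤ t) :
    W ι L lo hi 1 - W ι L lo hi s / s ^ a - W ι L lo hi t / t ^ b ≤ ∑ i ∈ Ico a b, (dd ι L i : ℝ) := by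
  classical
  rw [cnt_eq]
  unfold W
  rw [sum_div, sum_div, ← sum_sub_distrib, ← sum_sub_distrib]
  refine sum_le_sum fun D _ => ?_
  have ht0 : 0 < t := by linarith
  have p1 : 0 ≤ s ^ D.card / s ^ a := by positivity
  have p2 : 0 ≤ t ^ D.card / t ^ b := by positivity
  by_cases hc : Cl D
  · simp only [if_pos hc]
    unfold ind
    by_cases hi' : lo ≤ (on D).card ∧ (on D).card < hi
    · simp only [if_pos hi', one_mul, one_pow]
      have hd : Dm D := dm_of_cl hc (by omega)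
      split_ifs with h
      · linarith
      · by_cases h1 : D.card < a
        · have : 1 ≤ s ^ D.card / s ^ a := by
            rw [le_div_iff₀ (by positivity), one_mul]
            exact pow_le_pow_of_le_one hs.le hs1 h1.le
          linarith
        · have h2 : b ≤ D.card := by
            by_contra h2
            exact h ⟨hd, by omega, by omega⟩
          have : 1 ≤ t ^ D.card / t ^ b := by
            rw [le_div_iff₀ (by positivity), one_mul]
            exact pow_le_pow_right₀ ht h2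
          linarith
    · simp only [if_neg hi', zero_mul, zero_div, sub_zero]
      split_ifs <;> norm_num
  · simp only [if_neg hc, zero_div, sub_zero]
    split_ifs <;> norm_num

lemma cnt_upper (k0 b c : ℕ) (s t : ℝ) (hs : 0 < s) (hs1 : s ≤ 1) (ht : 1 ≤ t) :
    ∑ i ∈ Ico b c, (dd ι L i : ℝ) ≤
      W ι L k0 (Fintype.card ι + 1) t / t ^ b + W ι L 0 k0 s / s ^ c := by
  classical
  rw [cnt_eq]
  unfold W
  rw [sum_div, sum_div, ← sum_add_distrib]
  refine sum_le_sum fun D _ => ?_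
  have ht0 : 0 < t := by linarith
  have q1 := ind_nonneg k0 (Fintype.card ι + 1) (on D).card
  have q2 := ind_nonneg 0 k0 (on D).card
  by_cases h : Dm D ∧ b ≤ D.card ∧ D.card < c
  · rw [if_pos h]
    have hc : Cl D := cl_of_dm h.1
    simp only [if_pos hc]
    have hk : (on D).card ≤ Fintype.card ι := card_le_univ _
    by_cases h1 : k0 ≤ (on D).card
    · have e : ind k0 (Fintype.card ι + 1) (on D).card = 1 := if_pos ⟨h1, by omega⟩
      have : 1 ≤ t ^ D.card / t ^ b := by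
        rw [le_div_iff₀ (by positivity), one_mul]
        exact pow_le_pow_right₀ ht h.2.1
      have p : 0 ≤ ind 0 k0 (on D).card * s ^ D.card / s ^ c := by positivity
      rw [e, one_mul]
      linarith
    · have e : ind 0 k0 (on D).card = 1 := if_pos ⟨by omega, by omega⟩
      have : 1 ≤ s ^ D.card / s ^ c := by
        rw [le_div_iff₀ (by positivity), one_mul]
        exact pow_le_pow_of_le_one hs.le hs1 h.2.2.le
      have p : 0 ≤ ind k0 (Fintype.card ι + 1) (on D).card * t ^ D.card / t ^ b := by positivity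
      rw [e, one_mul]
      linarith
  · rw [if_neg h]
    split_ifs <;> positivity

end

/-- A sequence whose average on a middle window is below its averages on both outer windows
is not unimodal. -/
lemma not_unimodal (d : ℕ → ℕ) (a b c e : ℕ) (hbc : b < c)
    (h1 : (∑ i ∈ Ico b c, (d i : ℝ)) * ((b - a : ℕ) : ℝ) < (∑ i ∈ Ico a b, (d i : ℝ)) * ((c - b : ℕ) : ℝ))
    (h2 : (∑ i ∈ Ico b c, (d i : ℝ)) * ((e - c : ℕ) : ℝ) < (∑ i ∈ Ico c e, (d i : ℝ)) * ((c - b : ℕ) : ℝ)) :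
    ¬ ∃ k : ℕ, (∀ i j : ℕ, i ≤ j → j ≤ k → d i ≤ d j) ∧ (∀ i j : ℕ, k ≤ i → i ≤ j → d j ≤ d i) := by
  rintro ⟨k, hk1, hk2⟩
  obtain ⟨j, hj, hmin⟩ := exists_min_image (Ico b c) d (nonempty_Ico.2 hbc)
  have hJ : ((c - b : ℕ) : ℝ) * d j ≤ ∑ i ∈ Ico b c, (d i : ℝ) := by
    have := card_nsmul_le_sum (Ico b c) (fun i => (d i : ℝ)) (d j)
      (fun i hi => by exact_mod_cast hmin i hi)
    simpa using this
  rw [mem_Ico] at hj
  have n1 : (0 : ℝ) ≤ ((b - a : ℕ) : ℝ) := by positivity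
  have n2 : (0 : ℝ) ≤ ((e - c : ℕ) : ℝ) := by positivity
  have n3 : (0 : ℝ) ≤ ((c - b : ℕ) : ℝ) := by positivity
  rcases le_total j k with h | h
  · have : ∑ i ∈ Ico a b, (d i : ℝ) ≤ ((b - a : ℕ) : ℝ) * d j := by
      have := sum_le_card_nsmul (Ico a b) (fun i => (d i : ℝ)) (d j) (fun i hi => by
        rw [mem_Ico] at hi
        exact_mod_cast hk1 i j (by omega) h)
      simpa using this
    nlinarith [mul_le_mul_of_nonneg_right this n3, mul_le_mul_of_nonneg_right hJ n1]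
  · have : ∑ i ∈ Ico c e, (d i : ℝ) ≤ ((e - c : ℕ) : ℝ) * d j := by
      have := sum_le_card_nsmul (Ico c e) (fun i => (d i : ℝ)) (d j) (fun i hi => by
        rw [mem_Ico] at hi
        exact_mod_cast hk2 j i h (by omega))
      simpa using this
    nlinarith [mul_le_mul_of_nonneg_right this n3, mul_le_mul_of_nonneg_right hJ n2]

/-- Numerical bound for a tilted sum, for blocks of size five. -/
lemma tail_bound (N S p q lo hi x U qn qd u m : ℕ) (hS : 0 < S) (hp : 0 < p) (hq : 0 < q)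
    (hqd : 0 < qd) (Bn An : ℕ) (hB : Bn + p ^ 5 = (p + q) ^ 5) (hA : An + q ^ 10 = (p + q) ^ 10)
    (hB0 : 0 < Bn) (hA0 : 0 < An)
    (hU : run N S (p ^ 5) Bn ((p + q) ^ 10) An 1 lo hi ≤ U)
    (h1 : An ^ N * qd ≤ qn * (1023 * p ^ 5 * q ^ 5) ^ N)
    (h2 : U * (Bn * qn) ^ N * q ^ x ≤ m * u * ((31 * q ^ 5 * qd) ^ N * p ^ x)) :
    W (Fin N) (Fin 5) lo hi (p / q) / (p / q) ^ (5 * (N * N) + x) ≤
      m * (31 ^ N * 1023 ^ (N * N) * u / S) := by
  have hS' : (0 : ℝ) < S := by exact_mod_cast hS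
  have hp' : (0 : ℝ) < p := by exact_mod_cast hp
  have hq' : (0 : ℝ) < q := by exact_mod_cast hq
  have hqd' : (0 : ℝ) < qd := by exact_mod_cast hqd
  have hB0' : (0 : ℝ) < Bn := by exact_mod_cast hB0
  have hA0' : (0 : ℝ) < An := by exact_mod_cast hA0
  have hB' : (Bn : ℝ) + p ^ 5 = (p + q) ^ 5 := by exact_mod_cast hB
  have hA' : (An : ℝ) + q ^ 10 = (p + q) ^ 10 := by exact_mod_cast hA
  have eA : ((p : ℝ) + q) ^ 10 / q ^ 10 - 1 = An / q ^ 10 := by
    rw [← hA']; field_simp; ring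
  rw [W_eq lo hi (p / q) (Bn / q ^ 5) ((p + q) ^ 10 / q ^ 10)
    (by simp only [Fintype.card_fin]
        rw [show (Bn : ℝ) = (p + q) ^ 5 - p ^ 5 by linarith]; field_simp; ring)
    (by simp only [Fintype.card_fin]
        rw [show (1 : ℝ) + p / q = (p + q) / q by field_simp; ring, div_pow]) (by positivity)
    (by rw [eA]; positivity), eA]
  simp only [Fintype.card_fin]
  have e1 : ((p : ℝ) / q) ^ 5 / (Bn / q ^ 5) = ((p ^ 5 : ℕ) : ℝ) / Bn := by
    push_cast; field_simp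
  have e2 : ((p : ℝ) + q) ^ 10 / q ^ 10 / (An / q ^ 10) = (((p + q) ^ 10 : ℕ) : ℝ) / An := by
    push_cast; field_simp
  rw [e1, e2]
  have hs := run_up N S (p ^ 5) Bn ((p + q) ^ 10) An lo hi hS hB0 hA0
  have hU' : (run N S (p ^ 5) Bn ((p + q) ^ 10) An 1 lo hi : ℝ) ≤ U := by exact_mod_cast hU
  set σ := Sg N (((p ^ 5 : ℕ) : ℝ) / Bn) ((((p + q) ^ 10 : ℕ) : ℝ) / An) lo hi
  have hσ : σ ≤ U / S := by rw [le_div_iff₀ hS']; linarith
  have h1' : ((An : ℝ) / (1023 * p ^ 5 * q ^ 5)) ^ N ≤ qn / qd := by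
    rw [div_pow, div_le_div_iff₀ (by positivity) hqd']
    exact_mod_cast h1
  have h2' : (U : ℝ) * (Bn * qn) ^ N * q ^ x ≤ m * u * ((31 * q ^ 5 * qd) ^ N * p ^ x) := by
    exact_mod_cast h2
  have e3 : ((An : ℝ) / q ^ 10) ^ (N * N) =
      1023 ^ (N * N) * (p / q) ^ (5 * (N * N)) * (((An : ℝ) / (1023 * p ^ 5 * q ^ 5)) ^ N) ^ N := by
    rw [← pow_mul, pow_mul ((p : ℝ) / q) 5, ← mul_pow, ← mul_pow]
    congr 1
    field_simp
  have h3 : (((An : ℝ) / (1023 * p ^ 5 * q ^ 5)) ^ N) ^ N ≤ ((qn : ℝ) / qd) ^ N := by gcongr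
  rw [e3, pow_add, div_le_iff₀ (by positivity)]
  calc ((Bn : ℝ) / q ^ 5) ^ N * (1023 ^ (N * N) * (p / q) ^ (5 * (N * N)) *
        (((An : ℝ) / (1023 * p ^ 5 * q ^ 5)) ^ N) ^ N) * σ
      ≤ ((Bn : ℝ) / q ^ 5) ^ N * (1023 ^ (N * N) * (p / q) ^ (5 * (N * N)) *
        ((qn : ℝ) / qd) ^ N) * (U / S) := by
        by_cases h0 : 0 ≤ σ
        · gcongr
        · exact le_trans (mul_nonpos_of_nonneg_of_nonpos (by positivity) (by linarith))
            (by positivity)
    _ = (1023 ^ (N * N) * (p / q) ^ (5 * (N * N)) / S / ((q ^ 5 * qd) ^ N * q ^ x)) *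
        ((U : ℝ) * (Bn * qn) ^ N * q ^ x) := by
        simp only [div_pow, mul_pow]; field_simp
    _ ≤ (1023 ^ (N * N) * (p / q) ^ (5 * (N * N)) / S / ((q ^ 5 * qd) ^ N * q ^ x)) *
        (m * u * ((31 * q ^ 5 * qd) ^ N * p ^ x)) := by gcongr
    _ = _ := by
        simp only [div_pow, mul_pow]; field_simp

lemma total_bound (N S lo hi u m : ℕ) (hS : 0 < S)
    (h : m * u ≤ run N S 1 31 1024 1023 0 lo hi) :
    m * (31 ^ N * 1023 ^ (N * N) * u / S) ≤ W (Fin N) (Fin 5) lo hi 1 := by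
  have hS' : (0 : ℝ) < S := by exact_mod_cast hS
  rw [W_eq lo hi 1 31 1024 (by simp only [Fintype.card_fin]; norm_num)
    (by simp only [Fintype.card_fin]; norm_num) (by norm_num) (by norm_num)]
  simp only [Fintype.card_fin]
  have hs := run_down N S 1 31 1024 1023 lo hi hS (by norm_num) (by norm_num)
  have h' : (m : ℝ) * u ≤ (run N S 1 31 1024 1023 0 lo hi : ℝ) := by exact_mod_cast h
  have e1 : (1 : ℝ) ^ 5 / 31 = ((1 : ℕ) : ℝ) / ((31 : ℕ) : ℝ) := by norm_num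
  have e2 : (1024 : ℝ) / (1024 - 1) = ((1024 : ℕ) : ℝ) / ((1023 : ℕ) : ℝ) := by norm_num
  rw [e1, e2, show (1024 : ℝ) - 1 = 1023 by norm_num]
  set σ := Sg N (((1 : ℕ) : ℝ) / ((31 : ℕ) : ℝ)) (((1024 : ℕ) : ℝ) / ((1023 : ℕ) : ℝ)) lo hi
  have : (m : ℝ) * u / S ≤ σ := by rw [div_le_iff₀ hS']; linarith
  calc (m : ℝ) * (31 ^ N * 1023 ^ (N * N) * u / S) = 31 ^ N * 1023 ^ (N * N) * (m * u / S) := by ring
    _ ≤ _ := by gcongr

end Pool.Agent.H29.Dom
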