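import Pool.Agent.H29.Dom1

set_option autoImplicit false
open Finset

namespace Pool.Agent.H29.Dom

section
variable {ι L : Type} [Fintype ι] [Fintype L] [DecidableEq ι] [DecidableEq L]

def adj2 : V ι L ⊕ Fin 3 → V ι L ⊕ Fin 3 → Prop
  | .inl a, .inl b => adj a b
  | .inr x, .inr y => x ≠ 0 ∧ y ≠ 0 ∧ x ≠ y
  | .inl a, .inr x => x = 0 ∧ a.isLeft = true
  | .inr x, .inl a => x = 0 ∧ a.isLeft = true

def G2 (ι L : Type) : SimpleGraph (V ι L ⊕ Fin 3) where
  Adj := adj2
  symm := ⟨by
    rintro (a | a) (b | b) h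
    · exact (G ι L).adj_symm h
    · exact h
    · exact h
    · exact ⟨h.2.1, h.1, h.2.2.symm⟩⟩
  loopless := ⟨by
    rintro (a | a) h
    · exact (G ι L).irrefl h
    · exact h.2.2 rfl⟩

def Dm2 (D : Finset (V ι L ⊕ Fin 3)) : Prop := ∀ v, v ∈ D ∨ ∃ u ∈ D, (G2 ι L).Adj v u

lemma cl_iff (D : Finset (V ι L)) :
    Cl D ↔ ∀ b, Sum.inr b ∈ D ∨ ∃ u ∈ D, (G ι L).Adj (Sum.inr b) u := by
  constructor
  · rintro h ⟨p, y⟩
    rcases h p with ⟨h1, h2⟩ | h1
    · right
      rw [mem_on] at h1 h2
      refine ⟨Sum.inl (att (p, y)), ?_, rfl⟩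
      obtain ⟨b, m'⟩ := y
      cases b
      · simpa [att] using h2 m'
      · simpa [att] using h1 m'
    · obtain ⟨z, hz⟩ := nonempty_iff_ne_empty.2 h1
      have hz' : Sum.inr (p, z) ∈ D := by simpa using hz
      by_cases hy : y = z
      · left; rw [hy]; exact hz'
      · right; exact ⟨_, hz', rfl, hy⟩
  · intro h p
    by_cases he : slice D.toRight p = ∅
    · left
      have hno : ∀ y, Sum.inr (p, y) ∉ D := by
        intro y hy
        have : y ∈ slice D.toRight p := by simpa using hy
        rw [he] at this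
        simp at this
      have key : ∀ y : Bool × L, Sum.inl (att (p, y)) ∈ D := by
        intro y
        rcases h (p, y) with h1 | ⟨u, hu, hadj⟩
        · exact absurd h1 (hno y)
        · rcases u with a | ⟨q, z⟩
          · have : a = att (p, y) := hadj
            rwa [← this]
          · have : p = q := hadj.1
            subst this
            exact absurd hu (hno z)
      constructor
      · rw [mem_on]; intro m; simpa [att] using key (true, m)
      · rw [mem_on]; intro m; simpa [att] using key (false, m)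
    · exact Or.inr he

lemma dm2_iff (D : Finset (V ι L ⊕ Fin 3)) : Dm2 D ↔ Cl D.toLeft ∧
    (0 ∈ D.toRight ∨ D.toLeft.toLeft ≠ ∅) ∧ (1 ∈ D.toRight ∨ 2 ∈ D.toRight) := by
  rw [cl_iff]
  constructor
  · intro h
    refine ⟨fun b => ?_, ?_, ?_⟩
    · rcases h (.inl (.inr b)) with h1 | ⟨u, hu, hadj⟩
      · left; simpa using h1
      · right
        rcases u with u | x
        · exact ⟨u, by simpa using hu, hadj⟩
        · exact absurd hadj.2 (by simp)
    · rcases h (.inr 0) with h1 | ⟨u, hu, hadj⟩
      · left; simpa using h1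
      · right
        rcases u with (u | u) | x
        · exact nonempty_iff_ne_empty.1 ⟨u, by simpa using hu⟩
        · exact absurd hadj.2 (by simp)
        · exact absurd rfl hadj.1
    · rcases h (.inr 1) with h1 | ⟨u, hu, hadj⟩
      · left; simpa using h1
      · right
        rcases u with u | x
        · exact absurd hadj.1 (by simp)
        · have h2 : x = 2 := by
            obtain ⟨-, h3, h4⟩ := hadj
            omega
          subst h2
          simpa using hu
  · rintro ⟨h1, h2, h3⟩ ((a | b) | x)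
    · rcases h2 with h2 | h2
      · right; exact ⟨.inr 0, by simpa using h2, rfl, rfl⟩
      · obtain ⟨c, hc⟩ := nonempty_iff_ne_empty.2 h2
        have hc' : Sum.inl (Sum.inl c) ∈ D := by simpa using hc
        by_cases hac : a = c
        · left; rw [hac]; exact hc'
        · right; exact ⟨_, hc', hac⟩
    · rcases h1 b with h | ⟨u, hu, hadj⟩
      · left; simpa using h
      · right; exact ⟨.inl u, by simpa using hu, hadj⟩
    · by_cases hx : x = 0
      · subst hx
        rcases h2 with h2 | h2
        · left; simpa using h2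
        · obtain ⟨c, hc⟩ := nonempty_iff_ne_empty.2 h2
          right; exact ⟨.inl (.inl c), by simpa using hc, rfl, rfl⟩
      · rcases h3 with h3 | h3
        · by_cases h1 : x = 1
          · left; subst h1; simpa using h3
          · right; exact ⟨.inr 1, by simpa using h3, hx, by simp, h1⟩
        · by_cases h1 : x = 2
          · left; subst h1; simpa using h3
          · right; exact ⟨.inr 2, by simpa using h3, hx, by simp, h1⟩

open Classical in
lemma fiber0 [Nonempty L] (t : ℝ) :
    ∑ D : Finset (V ι L), (if Cl D ∧ D.toLeft = ∅ then t ^ D.card else 0) =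
      ((1 + t) ^ (2 * Fintype.card L) - 1) ^ (Fintype.card ι * Fintype.card ι) := by
  let h2 : ι × ι → Finset (Bool × L) → ℝ := fun _ E => if E ≠ ∅ then t ^ E.card else 0
  have e1 : ∀ D : Finset (V ι L), (if Cl D ∧ D.toLeft = ∅ then t ^ D.card else 0) =
      (if D.toLeft = ∅ then 1 else 0) * ∏ p, h2 p (slice D.toRight p) := by
    intro D
    by_cases h0 : D.toLeft = ∅
    · have hon : ∀ i, i ∉ on D := by
        intro i hi
        obtain ⟨m⟩ := ‹Nonempty L›
        have : (i, m) ∈ D.toLeft := by simpa using (mem_on D i).1 hi m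
        rw [h0] at this
        simp at this
      rw [if_pos h0, one_mul]
      by_cases hc : Cl D
      · rw [if_pos ⟨hc, h0⟩, ← card_toLeft_add_card_toRight, h0, card_empty, zero_add,
          card_eq_sum_slice, ← prod_pow_eq_pow_sum]
        exact prod_congr rfl fun p _ => (if_pos ((hc p).resolve_left fun h => hon _ h.1)).symm
      · rw [if_neg (fun h => hc h.1)]
        simp only [Cl, not_forall] at hc
        obtain ⟨p, hp⟩ := hc
        rw [prod_eq_zero (mem_univ p) (if_neg (fun h => hp (Or.inr h)))]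
    · simp [h0]
  simp only [e1]
  let g : Finset (ι × L) → ℝ := fun x => if x = ∅ then 1 else 0
  rw [Fintype.sum_equiv Finset.sumEquiv.toEquiv
    (fun D : Finset (V ι L) => (if D.toLeft = ∅ then (1 : ℝ) else 0) *
      ∏ p, h2 p (slice D.toRight p))
    (fun q => g q.1 * ∏ p, h2 p (slice q.2 p)) (fun D => rfl),
    Fintype.sum_prod_type]
  dsimp only
  rw [← Fintype.sum_mul_sum, sum_blocks]
  have := sum_ne t (∅ : Finset (Bool × L))
  simp only [h2, this]
  simp [g]

open Classical in
lemma gen2 [Nonempty L] (t : ℝ) :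
    ∑ D : Finset (V ι L ⊕ Fin 3), (if Dm2 D then t ^ D.card else 0) +
      (2 * t + t ^ 2) *
        ((1 + t) ^ (2 * Fintype.card L) - 1) ^ (Fintype.card ι * Fintype.card ι) =
      (1 + t) * (2 * t + t ^ 2) * ∑ D : Finset (V ι L), (if Cl D then 1 * t ^ D.card else 0) := by
  rw [← fiber0, Fintype.sum_equiv Finset.sumEquiv.toEquiv
    (fun D : Finset (V ι L ⊕ Fin 3) => if Dm2 D then t ^ D.card else 0)
    (fun q => if Cl q.1 ∧ (0 ∈ q.2 ∨ q.1.toLeft ≠ ∅) ∧ (1 ∈ q.2 ∨ 2 ∈ q.2)
      then t ^ q.1.card * t ^ q.2.card else 0)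
    (fun D => by
      simp only [dm2_iff]
      rw [← pow_add, ← card_toLeft_add_card_toRight (u := D)]
      rfl),
    Fintype.sum_prod_type, mul_sum, mul_sum, ← sum_add_distrib]
  refine sum_congr rfl fun D _ => ?_
  have hu : (univ : Finset (Finset (Fin 3))) =
      {∅, {0}, {1}, {2}, {0, 1}, {0, 2}, {1, 2}, {0, 1, 2}} := by decide
  rw [hu, sum_insert (by decide), sum_insert (by decide), sum_insert (by decide),
    sum_insert (by decide), sum_insert (by decide), sum_insert (by decide),
    sum_insert (by decide), sum_singleton]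
  have c1 : ({0, 1} : Finset (Fin 3)).card = 2 := by decide
  have c2 : ({0, 2} : Finset (Fin 3)).card = 2 := by decide
  have c3 : ({1, 2} : Finset (Fin 3)).card = 2 := by decide
  have c4 : ({0, 1, 2} : Finset (Fin 3)).card = 3 := by decide
  by_cases hc : Cl D <;> by_cases h0 : D.toLeft = ∅ <;> simp [hc, h0, c1, c2, c3, c4] <;> ring

end

lemma digit (b : ℕ) (hb : 0 < b) : ∀ (j M : ℕ) (c : ℕ → ℕ), (∀ i, c i < b) → j < M →
    (∑ i ∈ range M, c i * b ^ i) / b ^ j % b = c j := by
  intro j
  induction j with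
  | zero =>
    intro M c hc hM
    obtain ⟨M, rfl⟩ := Nat.exists_eq_succ_of_ne_zero hM.ne'
    rw [sum_range_succ']
    simp only [pow_succ, ← mul_assoc, ← sum_mul, pow_zero, mul_one, Nat.div_one]
    rw [Nat.mul_add_mod_of_lt (hc 0)]
  | succ j ih =>
    intro M c hc hM
    obtain ⟨M, rfl⟩ := Nat.exists_eq_succ_of_ne_zero (by omega : M ≠ 0)
    rw [sum_range_succ']
    simp only [pow_succ, ← mul_assoc, ← sum_mul, pow_zero, mul_one]
    rw [mul_comm (b ^ j), ← Nat.div_div_eq_div_mul, add_comm, Nat.add_mul_div_right _ _ hb,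
      Nat.div_eq_of_lt (hc 0), zero_add]
    exact ih M (fun i => c (i + 1)) (fun i => hc _) (by omega)

lemma one_add_pow (b i : ℕ) : ∃ r, (1 + b) ^ i = 1 + b * (i + b * r) := by
  induction i with
  | zero => exact ⟨0, by simp⟩
  | succ i ih =>
    obtain ⟨r, hr⟩ := ih
    exact ⟨r + i + b * r, by rw [pow_succ, hr]; ring⟩

lemma moments (b M : ℕ) (c : ℕ → ℕ) (h0 : ∑ i ∈ range M, c i < b)
    (h1 : ∑ i ∈ range M, i * c i < b) :
    (∑ i ∈ range M, c i * (1 + b) ^ i) % b = ∑ i ∈ range M, c i ∧
    (∑ i ∈ range M, c i * (1 + b) ^ i) / b % b = ∑ i ∈ range M, i * c i := by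
  choose r hr using one_add_pow b
  have e : ∑ i ∈ range M, c i * (1 + b) ^ i = ∑ i ∈ range M, c i +
      b * (∑ i ∈ range M, i * c i + b * ∑ i ∈ range M, c i * r i) := by
    simp only [hr, mul_add, mul_sum, ← sum_add_distrib]
    exact sum_congr rfl fun i _ => by ring
  rw [e]
  refine ⟨by rw [Nat.add_mul_mod_self_left, Nat.mod_eq_of_lt h0], ?_⟩
  rw [Nat.add_mul_div_left _ _ (by omega), Nat.div_eq_of_lt h0, zero_add,
    Nat.add_mul_mod_self_left, Nat.mod_eq_of_lt h1]

end Pool.Agent.H29.Dom
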