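import Mathlib

namespace Pool.Agent.H29.EulerMult

open Finset Polynomial

variable {V K : Type} [DecidableEq V] [DecidableEq K]

/-- in-degree inside `S`. -/
def ind (D : V → V → Prop) [DecidableRel D] (S : Finset V) (u : V) : ℕ :=
  (S.filter fun w => D w u).card

/-- recursive form of the descent generating function. -/
noncomputable def A (D : V → V → Prop) [DecidableRel D] (t : ℤ[X]) : ℕ → Finset V → ℤ[X]
  | 0, _ => 1
  | k + 1, S => ∑ u ∈ S, t ^ ind D S u * A D t k (S.erase u)

/-- descents of a sequence. -/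
def desSeq (D : V → V → Prop) [DecidableRel D] {k : ℕ} (f : Fin k → V) : ℕ :=
  ∑ i : Fin k, ∑ j : Fin k, if i < j ∧ D (f j) (f i) then 1 else 0

theorem link [Fintype V] (D : V → V → Prop) [DecidableRel D] (hD : ∀ u, ¬ D u u) (t : ℤ[X]) :
    ∀ (k : ℕ) (S : Finset V), S.card = k →
      ∑ f : Fin k → V, (if Function.Injective f ∧ univ.image f = S then t ^ desSeq D f else 0)
        = A D t k S := by
  intro k
  induction k with
  | zero =>
    intro S hS
    rw [Finset.card_eq_zero] at hS
    subst hS
    simp [A, desSeq, Function.injective_of_subsingleton]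
  | succ k ih =>
    intro S hS
    rw [← (Fin.consEquiv (fun _ : Fin (k + 1) => V)).sum_comp, Fintype.sum_prod_type, A]
    rw [← Finset.sum_subset (Finset.subset_univ S)]
    · refine Finset.sum_congr rfl fun u hu => ?_
      rw [← ih (S.erase u) (by rw [Finset.card_erase_of_mem hu, hS]; rfl), Finset.mul_sum]
      refine Finset.sum_congr rfl fun g _ => ?_
      have himg : univ.image (Fin.cons u g : Fin (k + 1) → V) = insert u (univ.image g) := by
        ext x; simp [Fin.exists_fin_succ, eq_comm]
      have hiff : (Function.Injective (Fin.cons u g : Fin (k + 1) → V) ∧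
          univ.image (Fin.cons u g : Fin (k + 1) → V) = S) ↔
          (Function.Injective g ∧ univ.image g = S.erase u) := by
        rw [Fin.cons_injective_iff, himg]
        constructor
        · rintro ⟨⟨h1, h2⟩, h3⟩
          refine ⟨h2, ?_⟩
          rw [← h3, Finset.erase_insert]
          simpa using h1
        · rintro ⟨h2, h3⟩
          refine ⟨⟨?_, h2⟩, by rw [h3, Finset.insert_erase hu]⟩
          rintro ⟨i, hi⟩
          have : u ∈ univ.image g := by simp; exact ⟨i, hi⟩
          rw [h3] at this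
          simp at this
      show (if Function.Injective (Fin.cons u g : Fin (k + 1) → V) ∧
          univ.image (Fin.cons u g : Fin (k + 1) → V) = S then
          t ^ desSeq D (Fin.cons u g : Fin (k + 1) → V) else 0) = _
      by_cases h : Function.Injective g ∧ univ.image g = S.erase u
      · rw [if_pos (hiff.mpr h), if_pos h, ← pow_add]
        congr 1
        have h1 : ind D S u = ∑ j : Fin k, if D (g j) u then 1 else 0 := by
          have : ind D S u = ((S.erase u).filter fun w => D w u).card := by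
            unfold ind
            congr 1
            ext w
            simp only [Finset.mem_filter, Finset.mem_erase]
            constructor
            · rintro ⟨h1, h2⟩
              exact ⟨⟨fun h => hD u (h ▸ h2), h1⟩, h2⟩
            · rintro ⟨⟨_, h1⟩, h2⟩; exact ⟨h1, h2⟩
          rw [this, ← h.2, Finset.filter_image, Finset.card_image_of_injective _ h.1,
            Finset.card_filter]
        rw [h1]
        simp only [desSeq, Fin.sum_univ_succ, Fin.cons_zero, Fin.cons_succ, lt_self_iff_false,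
          false_and, if_false, zero_add, Fin.succ_pos, true_and, Fin.not_lt_zero,
          Fin.succ_lt_succ_iff]
      · rw [if_neg (fun h' => h (hiff.mp h')), if_neg h, mul_zero]
    · intro u _ hu
      refine Finset.sum_eq_zero fun g _ => ?_
      rw [if_neg]
      rintro ⟨_, h⟩
      apply hu
      rw [← h]
      exact Finset.mem_image.mpr ⟨0, Finset.mem_univ _, rfl⟩

theorem link_perm {n : ℕ} (D : Fin n → Fin n → Prop) [DecidableRel D] (hD : ∀ u, ¬ D u u)
    (t : ℤ[X]) :
    ∑ σ : Equiv.Perm (Fin n),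
      t ^ (univ.filter fun p : Fin n × Fin n => D p.1 p.2 ∧ σ p.2 < σ p.1).card
        = A D t n univ := by
  rw [← link D hD t n univ (by simp), ← Finset.sum_filter]
  refine Finset.sum_bij (fun σ _ => (σ.symm : Fin n → Fin n)) ?_ ?_ ?_ ?_
  · intro σ _
    simp only [Finset.mem_filter, Finset.mem_univ, true_and]
    exact ⟨σ.symm.injective, Finset.image_univ_of_surjective σ.symm.surjective⟩
  · intro σ _ τ _ h
    have : σ.symm = τ.symm := Equiv.ext (congrFun h)
    exact Equiv.symm_bijective.1 this
  · intro f hf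
    simp only [Finset.mem_filter, Finset.mem_univ, true_and] at hf
    refine ⟨(Equiv.ofBijective f (Finite.injective_iff_bijective.mp hf.1)).symm,
      Finset.mem_univ _, rfl⟩
  · intro σ _
    congr 1
    unfold desSeq
    rw [Finset.card_filter, Fintype.sum_prod_type, Finset.sum_comm, ← σ.symm.sum_comp]
    refine Finset.sum_congr rfl fun i _ => ?_
    rw [← σ.symm.sum_comp]
    refine Finset.sum_congr rfl fun j _ => ?_
    simp [and_comm]

/-- size of part `i` inside `S`. -/
def sz (c : V → K) (S : Finset V) (i : K) : ℕ := (S.filter fun v => c v = i).card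

/-- number of odd parts inside `S`. -/
def rr [Fintype K] (c : V → K) (S : Finset V) : ℕ := (univ.filter fun i => Odd (sz c S i)).card

theorem sz_erase (c : V → K) {S : Finset V} {u : V} (hu : u ∈ S) (i : K) :
    sz c S i = sz c (S.erase u) i + if c u = i then 1 else 0 := by
  unfold sz
  conv_lhs => rw [← Finset.insert_erase hu, Finset.filter_insert]
  split_ifs with h
  · rw [Finset.card_insert_of_notMem (by simp)]
  · rfl

theorem ind_erase (D : V → V → Prop) [DecidableRel D] {S : Finset V} {u : V} (hu : u ∈ S)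
    (v : V) : ind D S v = ind D (S.erase u) v + if D u v then 1 else 0 := by
  unfold ind
  conv_lhs => rw [← Finset.insert_erase hu, Finset.filter_insert]
  split_ifs with h
  · rw [Finset.card_insert_of_notMem (by simp)]
  · rfl

theorem rr_erase [Fintype K] (c : V → K) {S : Finset V} {u : V} (hu : u ∈ S) :
    rr c (S.erase u) + (if Odd (sz c S (c u)) then 1 else 0)
      = rr c S + if Odd (sz c S (c u)) then 0 else 1 := by
  unfold rr
  rw [Finset.card_filter, Finset.card_filter, ← Finset.add_sum_erase _ _ (Finset.mem_univ (c u)),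
    ← Finset.add_sum_erase _ _ (Finset.mem_univ (c u))]
  have h1 : ∑ i ∈ univ.erase (c u), (if Odd (sz c (S.erase u) i) then 1 else 0)
      = ∑ i ∈ univ.erase (c u), (if Odd (sz c S i) then 1 else 0) := by
    refine Finset.sum_congr rfl fun i hi => ?_
    rw [sz_erase c hu i, if_neg (Finset.ne_of_mem_erase hi).symm, add_zero]
  rw [h1]
  have h2 := sz_erase c hu (c u)
  rw [if_pos rfl] at h2
  rw [h2]
  by_cases h : Odd (sz c (S.erase u) (c u))
  · have : ¬ Odd (sz c (S.erase u) (c u) + 1) := by rw [Nat.odd_add_one]; exact not_not.mpr h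
    simp only [h, this, if_true, if_false]; omega
  · have : Odd (sz c (S.erase u) (c u) + 1) := by rw [Nat.odd_add_one]; exact h
    simp only [h, this, if_true, if_false]; omega

theorem rr_mod [Fintype K] (c : V → K) (S : Finset V) : rr c S % 2 = S.card % 2 := by
  induction S using Finset.induction_on with
  | empty => simp [rr, sz]
  | insert u S hu ih =>
    have h := rr_erase c (Finset.mem_insert_self u S)
    rw [Finset.erase_insert hu] at h
    rw [Finset.card_insert_of_notMem hu]
    split_ifs at h <;> omega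

theorem odd_count (c : V → K) (S : Finset V) :
    (S.filter fun v => Odd (sz c S (c v))).card % 2 = S.card % 2 := by
  classical
  have h1 := Finset.card_filter_add_card_filter_not (s := S) (fun v => Odd (sz c S (c v)))
  have h2 : Even (S.filter fun v => ¬ Odd (sz c S (c v))).card := by
    rw [Finset.card_eq_sum_card_fiberwise (f := c) (t := S.image c)
      (fun v hv => Finset.mem_image_of_mem c (Finset.mem_filter.mp hv).1)]
    refine Finset.even_sum _ fun i _ => ?_
    by_cases h : Odd (sz c S i)
    · have : ((S.filter fun v => ¬ Odd (sz c S (c v))).filter fun v => c v = i) = ∅ := by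
        ext v
        simp only [Finset.mem_filter, Finset.notMem_empty, iff_false]
        rintro ⟨⟨_, h2⟩, rfl⟩
        exact h2 h
      rw [this]; simp
    · have : ((S.filter fun v => ¬ Odd (sz c S (c v))).filter fun v => c v = i)
          = S.filter fun v => c v = i := by
        ext v
        simp only [Finset.mem_filter]
        constructor
        · rintro ⟨⟨h1, _⟩, h3⟩; exact ⟨h1, h3⟩
        · rintro ⟨h1, rfl⟩; exact ⟨⟨h1, h⟩, rfl⟩
      rw [this]
      exact Nat.not_odd_iff_even.mp h
  obtain ⟨k, hk⟩ := h2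
  omega

/-- `P` vanishes to order `a` with coefficient `β` there. -/
def Lead (P : ℤ[X]) (a : ℕ) (β : ℤ) : Prop := (∀ k < a, P.coeff k = 0) ∧ P.coeff a = β

theorem lead_iff {P : ℤ[X]} {a : ℕ} {β : ℤ} :
    Lead P a β ↔ ∃ Q : ℤ[X], P = X ^ a * Q ∧ Q.coeff 0 = β := by
  constructor
  · rintro ⟨h1, h2⟩
    obtain ⟨Q, rfl⟩ := X_pow_dvd_iff.mpr h1
    refine ⟨Q, rfl, ?_⟩
    rw [← h2, coeff_X_pow_mul']; simp
  · rintro ⟨Q, rfl, h⟩
    refine ⟨X_pow_dvd_iff.mp ⟨Q, rfl⟩, ?_⟩
    rw [coeff_X_pow_mul']; simpa using h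

theorem Lead.mul {P : ℤ[X]} {a : ℕ} {β : ℤ} (h : Lead P a β) (R : ℤ[X]) :
    Lead (R * P) a (R.coeff 0 * β) := by
  obtain ⟨Q, rfl, hQ⟩ := lead_iff.mp h
  exact lead_iff.mpr ⟨R * Q, by ring, by rw [mul_coeff_zero, hQ]⟩

theorem Lead.X_mul {P : ℤ[X]} {a : ℕ} {β : ℤ} (h : Lead P a β) : Lead (X * P) (a + 1) β := by
  obtain ⟨Q, rfl, hQ⟩ := lead_iff.mp h
  exact lead_iff.mpr ⟨Q, by ring, hQ⟩

theorem Lead.lower {P : ℤ[X]} {a : ℕ} {β : ℤ} (h : Lead P a β) {b : ℕ} (hb : b < a) :
    Lead P b 0 := ⟨fun k hk => h.1 k (hk.trans hb), h.1 b hb⟩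

theorem Lead.sum {ι : Type} {s : Finset ι} {P : ι → ℤ[X]} {a : ℕ} {β : ι → ℤ}
    (h : ∀ i ∈ s, Lead (P i) a (β i)) : Lead (∑ i ∈ s, P i) a (∑ i ∈ s, β i) := by
  refine ⟨fun k hk => ?_, ?_⟩
  · rw [finsetSum_coeff]; exact Finset.sum_eq_zero fun i hi => (h i hi).1 k hk
  · rw [finsetSum_coeff]; exact Finset.sum_congr rfl fun i hi => (h i hi).2

theorem swap_sum {M : Type} [AddCommMonoid M] (S : Finset V) (f : V → V → M) :
    ∑ u ∈ S, ∑ v ∈ S.erase u, f u v = ∑ u ∈ S, ∑ v ∈ S.erase u, f v u := by
  refine Finset.sum_comm' fun x y => ?_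
  simp only [Finset.mem_erase]
  constructor
  · rintro ⟨h1, h2, h3⟩; exact ⟨⟨Ne.symm h2, h1⟩, h3⟩
  · rintro ⟨⟨h1, h2⟩, h3⟩; exact ⟨h2, Ne.symm h1, h3⟩

/-- arcs from the rest of `S` into the pair `u, v`. -/
def ee (D : V → V → Prop) [DecidableRel D] (S : Finset V) (u v : V) : ℕ :=
  ind D ((S.erase u).erase v) u + ind D ((S.erase u).erase v) v

theorem ee_comm (D : V → V → Prop) [DecidableRel D] (S : Finset V) (u v : V) :
    ee D S u v = ee D S v u := by
  unfold ee; rw [Finset.erase_right_comm, add_comm]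

theorem two_step (D : V → V → Prop) [DecidableRel D] (hD : ∀ u, ¬ D u u) (t : ℤ[X]) (k : ℕ)
    (S : Finset V) :
    2 * A D t (k + 2) S = ∑ u ∈ S, ∑ v ∈ S.erase u, t ^ ee D S u v *
      ((t ^ (if D v u then 1 else 0) + t ^ (if D u v then 1 else 0)) *
        A D t k ((S.erase u).erase v)) := by
  have h1 : A D t (k + 2) S = ∑ u ∈ S, ∑ v ∈ S.erase u, t ^ ee D S u v *
      (t ^ (if D v u then 1 else 0) * A D t k ((S.erase u).erase v)) := by
    rw [A]
    refine Finset.sum_congr rfl fun u hu => ?_
    rw [A, Finset.mul_sum]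
    refine Finset.sum_congr rfl fun v hv => ?_
    rw [ind_erase D hu u, if_neg (hD u), ind_erase D hv u, ind_erase D hv v, if_neg (hD v), ee]
    ring
  have h2 : A D t (k + 2) S = ∑ u ∈ S, ∑ v ∈ S.erase u, t ^ ee D S u v *
      (t ^ (if D u v then 1 else 0) * A D t k ((S.erase u).erase v)) := by
    rw [h1, swap_sum]
    refine Finset.sum_congr rfl fun u _ => Finset.sum_congr rfl fun v _ => ?_
    rw [ee_comm, Finset.erase_right_comm]
  rw [two_mul]
  nth_rewrite 1 [h1]
  rw [h2, ← Finset.sum_add_distrib]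
  refine Finset.sum_congr rfl fun u _ => ?_
  rw [← Finset.sum_add_distrib]
  refine Finset.sum_congr rfl fun v _ => ?_
  ring

/-- the shifted variable. -/
noncomputable def T : ℤ[X] := X + C (-1)

/-- weight of a pair. -/
def gg (c : V → K) (S : Finset V) (u v : V) : ℤ :=
  if c u = c v then 2 else if Odd (sz c S (c u)) ∧ Odd (sz c S (c v)) then 1 else 0

/-- the critical coefficient. -/
noncomputable def bb [Fintype K] (D : V → V → Prop) [DecidableRel D] (c : V → K) (S : Finset V) :
    ℤ := (A D T S.card S).coeff (rr c S / 2)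

/-- the contribution of a pair. -/
noncomputable def ph [Fintype K] (D : V → V → Prop) [DecidableRel D] (c : V → K) (S : Finset V)
    (u v : V) : ℤ := (-1) ^ ee D S u v * gg c S u v * bb D c ((S.erase u).erase v)

theorem T_pow_coeff (e : ℕ) : (T ^ e).coeff 0 = (-1) ^ e := by
  rw [coeff_zero_eq_eval_zero]; simp [T]

theorem rr_pair [Fintype K] (c : V → K) {S : Finset V} {u v : V} (hu : u ∈ S)
    (hv : v ∈ S.erase u) :
    (c u = c v → rr c ((S.erase u).erase v) = rr c S) ∧
    (c u ≠ c v → (Odd (sz c S (c u)) ∧ Odd (sz c S (c v))) →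
      rr c ((S.erase u).erase v) + 2 = rr c S) ∧
    (c u ≠ c v → ¬ (Odd (sz c S (c u)) ∧ Odd (sz c S (c v))) →
      rr c S ≤ rr c ((S.erase u).erase v)) := by
  have h1 := rr_erase c hu
  have h2 := rr_erase c hv
  have h3 := sz_erase c hu (c v)
  refine ⟨fun h => ?_, fun h ho => ?_, fun h ho => ?_⟩
  · rw [if_pos h] at h3
    rw [h, h3] at h1
    by_cases h4 : Odd (sz c (S.erase u) (c v))
    · have : ¬ Odd (sz c (S.erase u) (c v) + 1) := by rw [Nat.odd_add_one]; exact not_not.mpr h4
      simp only [h4, this, if_true, if_false] at h1 h2; omega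
    · have : Odd (sz c (S.erase u) (c v) + 1) := by rw [Nat.odd_add_one]; exact h4
      simp only [h4, this, if_true, if_false] at h1 h2; omega
  · rw [if_neg h, add_zero] at h3
    rw [← h3] at h2
    simp only [ho.1, ho.2, if_true] at h1 h2; omega
  · rw [if_neg h, add_zero] at h3
    rw [← h3] at h2
    split_ifs at h1 h2 with h4 h5 h5
    · exact absurd ⟨h4, h5⟩ ho
    all_goals omega

theorem gg_key (s s1 s2 : K → ℕ) (x y u v : K)
    (e1 : ∀ i, s i = s1 i + (if y = i then 1 else 0) + (if x = i then 1 else 0))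
    (e2 : ∀ i, s i = s2 i + (if v = i then 1 else 0) + (if u = i then 1 else 0)) :
    ((if x = y then 2 else if Odd (s x) ∧ Odd (s y) then 1 else 0 : ℤ) *
      (if u = v then 2 else if Odd (s1 u) ∧ Odd (s1 v) then 1 else 0 : ℤ) =
    (if u = v then 2 else if Odd (s u) ∧ Odd (s v) then 1 else 0 : ℤ) *
      (if x = y then 2 else if Odd (s2 x) ∧ Odd (s2 y) then 1 else 0 : ℤ)) ∧
    ((if x = y then 2 else if Odd (s x) ∧ Odd (s y) then 1 else 0 : ℤ) *
      (if u = v then 2 else if Odd (s1 u) ∧ Odd (s1 v) then 1 else 0 : ℤ) = 0 ∨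
      x = y ∨ u = v ∨ (x ≠ u ∧ x ≠ v ∧ y ≠ u ∧ y ≠ v)) := by
  have a1 := e1 u
  have a2 := e1 v
  have a3 := e2 x
  have a4 := e2 y
  clear e1 e2
  simp only [Nat.odd_iff]
  by_cases h1 : x = y
  · subst h1
    refine ⟨?_, Or.inr (Or.inl rfl)⟩
    simp only [if_true]
    have b1 : s u % 2 = s1 u % 2 := by split_ifs at a1 <;> omega
    have b2 : s v % 2 = s1 v % 2 := by split_ifs at a2 <;> omega
    rw [b1, b2, mul_comm]
  by_cases h2 : u = v
  · subst h2
    refine ⟨?_, Or.inr (Or.inr (Or.inl rfl))⟩
    simp only [if_true]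
    have b1 : s x % 2 = s2 x % 2 := by split_ifs at a3 <;> omega
    have b2 : s y % 2 = s2 y % 2 := by split_ifs at a4 <;> omega
    rw [b1, b2, mul_comm]
  simp only [if_neg h1, if_neg h2]
  by_cases h3 : x ≠ u ∧ x ≠ v ∧ y ≠ u ∧ y ≠ v
  · refine ⟨?_, Or.inr (Or.inr (Or.inr h3))⟩
    obtain ⟨c1, c2, c3, c4⟩ := h3
    simp only [if_neg c1, if_neg c2, if_neg c3, if_neg c4, if_neg c1.symm, if_neg c2.symm,
      if_neg c3.symm, if_neg c4.symm, add_zero] at a1 a2 a3 a4
    rw [← a1, ← a2, ← a3, ← a4, mul_comm]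
  · have h4 : x = u ∨ x = v ∨ y = u ∨ y = v := by tauto
    have h1' : ¬ y = x := fun h => h1 h.symm
    have h2' : ¬ v = u := fun h => h2 h.symm
    have z1 : ¬ ((s x % 2 = 1 ∧ s y % 2 = 1) ∧ (s1 u % 2 = 1 ∧ s1 v % 2 = 1)) := by
      rcases h4 with rfl | rfl | rfl | rfl <;>
        simp only [if_true, if_neg h1, if_neg h1'] at a1 a2 <;> omega
    have z2 : ¬ ((s u % 2 = 1 ∧ s v % 2 = 1) ∧ (s2 x % 2 = 1 ∧ s2 y % 2 = 1)) := by
      rcases h4 with rfl | rfl | rfl | rfl <;>
        simp only [if_true, if_neg h2, if_neg h2'] at a3 a4 <;> omega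
    have w : ∀ P Q : Prop, ∀ [Decidable P] [Decidable Q], ¬ (P ∧ Q) →
        (if P then 1 else 0 : ℤ) * (if Q then 1 else 0 : ℤ) = 0 := by
      intro P Q _ _ h
      by_cases hP : P <;> by_cases hQ : Q <;> simp_all
    rw [w _ _ z1, w _ _ z2]
    exact ⟨rfl, Or.inl rfl⟩

section main

variable [Fintype K] (D : V → V → Prop) [DecidableRel D] (c : V → K)
  (h1 : ∀ u v, D u v → c u ≠ c v) (h2 : ∀ u v, c u ≠ c v → (D u v ↔ ¬ D v u))
include h1 h2

theorem step_lead (S : Finset V) (k : ℕ) (hS : S.card = k + 2)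
    (ih : ∀ S' : Finset V, S'.card = k → Lead (A D T S'.card S') (rr c S' / 2) (bb D c S')) :
    Lead (2 * A D T S.card S) (rr c S / 2) (∑ u ∈ S, ∑ v ∈ S.erase u, ph D c S u v) := by
  rw [hS, two_step D (fun u h => h1 u u h rfl)]
  refine Lead.sum fun u hu => Lead.sum fun v hv => ?_
  have hcard : ((S.erase u).erase v).card = k := by
    rw [Finset.card_erase_of_mem hv, Finset.card_erase_of_mem hu, hS]; rfl
  have hL := ih _ hcard
  rw [hcard] at hL
  unfold ph
  rw [mul_assoc, ← T_pow_coeff]
  apply Lead.mul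
  obtain ⟨r1, r2, r3⟩ := rr_pair c hu hv
  by_cases h : c u = c v
  · rw [if_neg (fun h' => h1 _ _ h' h.symm), if_neg (fun h' => h1 _ _ h' h), gg, if_pos h,
      ← r1 h]
    have := hL.mul (T ^ 0 + T ^ 0)
    convert this using 2
    simp
  · have hX : T ^ (if D v u then 1 else 0) + T ^ (if D u v then 1 else 0) = X := by
      by_cases h' : D v u
      · rw [if_pos h', if_neg (fun h'' => (h2 u v h).mp h'' h')]; simp [T]
      · rw [if_neg h', if_pos ((h2 u v h).mpr h')]; simp [T]
    rw [hX, gg, if_neg h]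
    by_cases ho : Odd (sz c S (c u)) ∧ Odd (sz c S (c v))
    · rw [if_pos ho, one_mul, ← r2 h ho, Nat.add_div_right _ (by norm_num)]
      exact hL.X_mul
    · rw [if_neg ho, zero_mul]
      refine hL.X_mul.lower ?_
      have := r3 h ho
      omega

theorem low (k : ℕ) : ∀ S : Finset V, S.card = k →
    Lead (A D T S.card S) (rr c S / 2) (bb D c S) := by
  induction k using Nat.strong_induction_on with
  | _ k ih =>
    intro S hS
    refine ⟨?_, rfl⟩
    have hle : rr c S ≤ S.card := by
      unfold rr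
      refine le_trans (Finset.card_le_card (t := S.image c) ?_) Finset.card_image_le
      intro i hi
      have := (Finset.mem_filter.mp hi).2.pos
      obtain ⟨v, hv⟩ := Finset.card_pos.mp this
      exact Finset.mem_image.mpr ⟨v, (Finset.mem_filter.mp hv).1, (Finset.mem_filter.mp hv).2⟩
    rcases lt_or_ge k 2 with hk | hk
    · intro j hj; omega
    · obtain ⟨k', rfl⟩ := Nat.exists_eq_add_of_le' hk
      have := (step_lead D c h1 h2 S k' hS (ih k' (by omega))).1
      intro j hj
      have h3 := this j hj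
      rw [two_mul, coeff_add] at h3
      omega

theorem rec_bb (S : Finset V) (hS : 2 ≤ S.card) :
    2 * bb D c S = ∑ u ∈ S, ∑ v ∈ S.erase u, ph D c S u v := by
  obtain ⟨k, hk⟩ := Nat.exists_eq_add_of_le' hS
  have := (step_lead D c h1 h2 S k hk (low D c h1 h2 k)).2
  rw [← this, two_mul, two_mul, coeff_add]; rfl

theorem arc_sum (a b : V) :
    (if D a b then 1 else 0) + (if D b a then 1 else 0) = if c a = c b then 0 else 1 := by
  by_cases h : c a = c b
  · rw [if_neg (fun h' => h1 _ _ h' h.symm), if_neg (fun h' => h1 _ _ h' h), if_pos h]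
  · rw [if_neg h]
    by_cases h' : D b a
    · rw [if_pos h', if_neg (fun h'' => (h2 a b h).mp h'' h')]
    · rw [if_neg h', if_pos ((h2 a b h).mpr h')]

theorem comm_pair {S : Finset V} {x y u v : V} (hx : x ∈ S) (hy : y ∈ S.erase x)
    (hu : u ∈ (S.erase x).erase y) (hv : v ∈ ((S.erase x).erase y).erase u) :
    (-1) ^ ee D S x y * gg c S x y * ph D c ((S.erase x).erase y) u v =
    (-1) ^ ee D S u v * gg c S u v * ph D c ((S.erase u).erase v) x y := by
  have hu' : u ∈ S := by simp_all
  have hv' : v ∈ S.erase u := by simp_all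
  have hx' : x ∈ (S.erase u).erase v := by
    simp only [Finset.mem_erase] at *; tauto
  have hy' : y ∈ ((S.erase u).erase v).erase x := by
    simp only [Finset.mem_erase] at *; tauto
  have hT : (((S.erase u).erase v).erase x).erase y = (((S.erase x).erase y).erase u).erase v := by
    ext w; simp only [Finset.mem_erase]; tauto
  obtain ⟨k1, k2⟩ := gg_key (sz c S) (sz c ((S.erase x).erase y)) (sz c ((S.erase u).erase v))
    (c x) (c y) (c u) (c v) (fun i => by rw [sz_erase c hx i, sz_erase c hy i])
    (fun i => by rw [sz_erase c hu' i, sz_erase c hv' i])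
  change gg c S x y * gg c ((S.erase x).erase y) u v
    = gg c S u v * gg c ((S.erase u).erase v) x y at k1
  change gg c S x y * gg c ((S.erase x).erase y) u v = 0 ∨ _ at k2
  unfold ph
  rw [hT]
  rcases k2 with k2 | k2
  · have k3 := k1 ▸ k2
    linear_combination ((-1) ^ ee D S x y * (-1) ^ ee D ((S.erase x).erase y) u v *
      bb D c ((((S.erase x).erase y).erase u).erase v)) * k2 -
      ((-1) ^ ee D S u v * (-1) ^ ee D ((S.erase u).erase v) x y *
      bb D c ((((S.erase x).erase y).erase u).erase v)) * k3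
  · have hpar : (ee D S x y + ee D ((S.erase x).erase y) u v) % 2
        = (ee D S u v + ee D ((S.erase u).erase v) x y) % 2 := by
      unfold ee
      rw [ind_erase D hu x, ind_erase D hv x, ind_erase D hu y, ind_erase D hv y,
        ind_erase D hx' u, ind_erase D hy' u, ind_erase D hx' v, ind_erase D hy' v, hT]
      have p1 := arc_sum D c h1 h2 x u
      have p2 := arc_sum D c h1 h2 x v
      have p3 := arc_sum D c h1 h2 y u
      have p4 := arc_sum D c h1 h2 y v
      have p5 : ((if c x = c u then 0 else 1) + (if c x = c v then 0 else 1) +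
          (if c y = c u then 0 else 1) + (if c y = c v then 0 else 1)) % 2 = 0 := by
        rcases k2 with k | k | ⟨k3, k4, k5, k6⟩
        · rw [k]; omega
        · rw [k]; omega
        · simp [k3, k4, k5, k6]
      omega
    have hs : (-1 : ℤ) ^ ee D S x y * (-1) ^ ee D ((S.erase x).erase y) u v
        = (-1) ^ ee D S u v * (-1) ^ ee D ((S.erase u).erase v) x y := by
      rw [← pow_add, ← pow_add, neg_one_pow_eq_pow_mod_two, hpar, ← neg_one_pow_eq_pow_mod_two]
    linear_combination (gg c S x y * gg c ((S.erase x).erase y) u v *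
      bb D c ((((S.erase x).erase y).erase u).erase v)) * hs +
      ((-1) ^ ee D S u v * (-1) ^ ee D ((S.erase u).erase v) x y *
      bb D c ((((S.erase x).erase y).erase u).erase v)) * k1

omit h1 h2 in
theorem ph_comm (S : Finset V) (u v : V) : ph D c S u v = ph D c S v u := by
  unfold ph gg
  rw [ee_comm, Finset.erase_right_comm]
  simp only [eq_comm, and_comm]

theorem pinned (m : ℕ) : ∀ S : Finset V, S.card = 2 * m → ∀ u ∈ S,
    bb D c S = m * ∑ v ∈ S.erase u, ph D c S u v := by
  induction m with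
  | zero =>
    intro S hS u hu
    rw [mul_zero, Finset.card_eq_zero] at hS
    subst hS; simp at hu
  | succ m ih =>
    intro S hS u hu
    have hR := rec_bb D c h1 h2 S (by omega)
    rw [← Finset.add_sum_erase _ _ hu] at hR
    have e1 : ∀ x ∈ S.erase u, ∑ y ∈ S.erase x, ph D c S x y
        = ph D c S u x + ∑ y ∈ (S.erase u).erase x, ph D c S x y := by
      intro x hx
      have hux : u ∈ S.erase x :=
        Finset.mem_erase.mpr ⟨(Finset.ne_of_mem_erase hx).symm, hu⟩
      rw [← Finset.add_sum_erase _ _ hux, ph_comm, Finset.erase_right_comm]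
    rw [Finset.sum_congr rfl e1, Finset.sum_add_distrib] at hR
    have e2 : ∑ x ∈ S.erase u, ∑ y ∈ (S.erase u).erase x, ph D c S x y
        = m * ∑ v ∈ S.erase u, ∑ x ∈ (S.erase u).erase v, ∑ y ∈ ((S.erase u).erase v).erase x,
          (-1) ^ ee D S u v * gg c S u v * ph D c ((S.erase u).erase v) x y := by
      have e3 : ∀ x ∈ S.erase u, ∀ y ∈ (S.erase u).erase x, ph D c S x y
          = m * ∑ v ∈ ((S.erase u).erase x).erase y,
            (-1) ^ ee D S u v * gg c S u v * ph D c ((S.erase u).erase v) x y := by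
        intro x hx y hy
        have hx' : x ∈ S := Finset.mem_of_mem_erase hx
        have hy' : y ∈ S.erase x := by simp only [Finset.mem_erase] at *; tauto
        have hu' : u ∈ (S.erase x).erase y := by simp only [Finset.mem_erase] at *; tauto
        have hc : ((S.erase x).erase y).card = 2 * m := by
          rw [Finset.card_erase_of_mem hy', Finset.card_erase_of_mem hx', hS]; omega
        have hset : ((S.erase u).erase x).erase y = ((S.erase x).erase y).erase u := by
          ext w; simp only [Finset.mem_erase]; tauto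
        rw [hset]
        conv_lhs => rw [ph, ih _ hc u hu', mul_left_comm, Finset.mul_sum]
        congr 1
        exact Finset.sum_congr rfl fun v hv => comm_pair D c h1 h2 hx' hy' hu' hv
      rw [Finset.sum_congr rfl fun x hx => Finset.sum_congr rfl (e3 x hx)]
      simp only [← Finset.mul_sum]
      congr 1
      have e4 : ∀ x ∈ S.erase u, ∑ y ∈ (S.erase u).erase x, ∑ v ∈ ((S.erase u).erase x).erase y,
          (-1) ^ ee D S u v * gg c S u v * ph D c ((S.erase u).erase v) x y
          = ∑ v ∈ (S.erase u).erase x, ∑ y ∈ ((S.erase u).erase x).erase v,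
          (-1) ^ ee D S u v * gg c S u v * ph D c ((S.erase u).erase v) x y :=
        fun x _ => swap_sum _ _
      rw [Finset.sum_congr rfl e4, swap_sum]
      simp only [Finset.mul_sum]
      refine Finset.sum_congr rfl fun v _ => Finset.sum_congr rfl fun x _ => ?_
      rw [Finset.erase_right_comm (a := x)]
    have e5 : (m : ℤ) * ∑ v ∈ S.erase u, ∑ x ∈ (S.erase u).erase v,
        ∑ y ∈ ((S.erase u).erase v).erase x,
          (-1) ^ ee D S u v * gg c S u v * ph D c ((S.erase u).erase v) x y
        = m * (2 * ∑ v ∈ S.erase u, ph D c S u v) := by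
      rcases Nat.eq_zero_or_pos m with rfl | hm
      · simp
      congr 1
      rw [Finset.mul_sum]
      refine Finset.sum_congr rfl fun v hv => ?_
      simp only [← Finset.mul_sum]
      rw [← rec_bb D c h1 h2 _ (by
        rw [Finset.card_erase_of_mem hv, Finset.card_erase_of_mem hu, hS]; omega), ph]
      ring
    rw [e2, e5] at hR
    push_cast
    linarith

omit h1 h2 in
theorem odd_sum {ι : Type} (s : Finset ι) (P : ι → Prop) [DecidablePred P] (z : ι → ℤ)
    (hz : ∀ i ∈ s, z i % 2 = if P i then 1 else 0) (hs : (s.filter P).card % 2 = 1) :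
    (∑ i ∈ s, z i) % 2 = 1 := by
  rw [Finset.sum_int_mod, Finset.sum_congr rfl hz]
  have : (∑ i ∈ s, if P i then (1 : ℤ) else 0) = ((s.filter P).card : ℤ) := by simp
  rw [this]; omega

omit h1 h2 in
theorem sign_mul_odd (e : ℕ) {z : ℤ} (hz : z % 2 = 1) : ((-1) ^ e * z) % 2 = 1 := by
  rcases neg_one_pow_eq_or ℤ e with h | h <;> rw [h] <;> omega

theorem even_case (m : ℕ) : ∀ S : Finset V, S.card = 2 * m →
    ∃ z : ℤ, z % 2 = 1 ∧ 2 ^ (rr c S / 2) * bb D c S = m.factorial * 2 ^ m * z := by
  induction m with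
  | zero =>
    intro S hS
    rw [mul_zero, Finset.card_eq_zero] at hS
    subst hS
    exact ⟨1, rfl, by simp [rr, sz, bb, A]⟩
  | succ m ih =>
    intro S hS
    obtain ⟨u, hu⟩ : S.Nonempty := Finset.card_pos.mp (by omega)
    have key : ∀ v ∈ S.erase u, ∃ z : ℤ,
        z % 2 = (if c u = c v ∨ (Odd (sz c S (c u)) ∧ Odd (sz c S (c v))) then 1 else 0) ∧
        2 ^ (rr c S / 2) * ph D c S u v = m.factorial * 2 ^ (m + 1) * z := by
      intro v hv
      obtain ⟨z, hz1, hz2⟩ := ih ((S.erase u).erase v) (by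
        rw [Finset.card_erase_of_mem hv, Finset.card_erase_of_mem hu, hS]; omega)
      obtain ⟨r1, r2, -⟩ := rr_pair c hu hv
      by_cases h : c u = c v
      · refine ⟨(-1) ^ ee D S u v * z, by rw [if_pos (Or.inl h)]; exact sign_mul_odd _ hz1, ?_⟩
        rw [ph, gg, if_pos h, ← r1 h]
        linear_combination (2 * (-1) ^ ee D S u v) * hz2
      · by_cases ho : Odd (sz c S (c u)) ∧ Odd (sz c S (c v))
        · refine ⟨(-1) ^ ee D S u v * z, by rw [if_pos (Or.inr ho)]; exact sign_mul_odd _ hz1, ?_⟩
          rw [ph, gg, if_neg h, if_pos ho, ← r2 h ho, Nat.add_div_right _ (by norm_num)]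
          linear_combination (2 * (-1) ^ ee D S u v) * hz2
        · refine ⟨0, by rw [if_neg (by tauto)]; rfl, ?_⟩
          rw [ph, gg, if_neg h, if_neg ho]; simp
    choose! z hz1 hz2 using key
    refine ⟨∑ v ∈ S.erase u, z v, odd_sum _ _ _ hz1 ?_, ?_⟩
    · by_cases ho : Odd (sz c S (c u))
      · have e1 : ((S.erase u).filter fun v =>
            c u = c v ∨ (Odd (sz c S (c u)) ∧ Odd (sz c S (c v))))
            = (S.filter fun v => Odd (sz c S (c v))).erase u := by
          ext v
          simp only [Finset.mem_filter, Finset.mem_erase]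
          constructor
          · rintro ⟨⟨a, b⟩, h | h⟩
            · exact ⟨a, b, h ▸ ho⟩
            · exact ⟨a, b, h.2⟩
          · rintro ⟨a, b, h⟩; exact ⟨⟨a, b⟩, Or.inr ⟨ho, h⟩⟩
        have e2 : u ∈ S.filter fun v => Odd (sz c S (c v)) := Finset.mem_filter.mpr ⟨hu, ho⟩
        have e3 := odd_count c S
        have e4 := Finset.card_pos.mpr ⟨u, e2⟩
        rw [e1, Finset.card_erase_of_mem e2]
        omega
      · have e1 : ((S.erase u).filter fun v =>
            c u = c v ∨ (Odd (sz c S (c u)) ∧ Odd (sz c S (c v))))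
            = (S.erase u).filter fun v => c v = c u := by
          refine Finset.filter_congr fun v _ => ?_
          constructor
          · rintro (h | h)
            · exact h.symm
            · exact absurd h.1 ho
          · intro h; exact Or.inl h.symm
        have e2 := sz_erase c hu (c u)
        rw [if_pos rfl] at e2
        rw [e1]
        rw [Nat.odd_iff, e2] at ho
        unfold sz at ho
        omega
    · rw [pinned D c h1 h2 (m + 1) S hS u hu, mul_left_comm, Finset.mul_sum,
        Finset.sum_congr rfl hz2, ← Finset.mul_sum, Nat.factorial_succ]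
      push_cast; ring

theorem odd_case (m : ℕ) (S : Finset V) (hS : S.card = 2 * m + 1) :
    ∃ z : ℤ, z % 2 = 1 ∧ 2 ^ (rr c S / 2) * bb D c S = m.factorial * 2 ^ m * z := by
  have hr := rr_mod c S
  have hL : Lead (A D T S.card S) (rr c S / 2) (∑ u ∈ S, (-1) ^ ind D S u *
      (if Odd (sz c S (c u)) then bb D c (S.erase u) else 0)) := by
    rw [hS, A]
    refine Lead.sum fun u hu => ?_
    rw [← T_pow_coeff]
    apply Lead.mul
    have hc : (S.erase u).card = 2 * m := by rw [Finset.card_erase_of_mem hu, hS]; rfl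
    have hl := low D c h1 h2 _ _ hc
    rw [hc] at hl
    have := rr_erase c hu
    split_ifs at this ⊢ with h
    · rwa [show rr c S / 2 = rr c (S.erase u) / 2 by omega]
    · exact hl.lower (by omega)
  have key : ∀ u ∈ S, ∃ z : ℤ, z % 2 = (if Odd (sz c S (c u)) then 1 else 0) ∧
      2 ^ (rr c S / 2) * ((-1) ^ ind D S u *
        (if Odd (sz c S (c u)) then bb D c (S.erase u) else 0)) = m.factorial * 2 ^ m * z := by
    intro u hu
    by_cases h : Odd (sz c S (c u))
    · obtain ⟨z, hz1, hz2⟩ := even_case D c h1 h2 m (S.erase u)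
        (by rw [Finset.card_erase_of_mem hu, hS]; rfl)
      have := rr_erase c hu
      simp only [h, if_true] at this ⊢
      refine ⟨(-1) ^ ind D S u * z, sign_mul_odd _ hz1, ?_⟩
      rw [show rr c S / 2 = rr c (S.erase u) / 2 by omega]
      linear_combination ((-1) ^ ind D S u) * hz2
    · exact ⟨0, by simp [h], by simp [h]⟩
  choose! z hz1 hz2 using key
  refine ⟨∑ v ∈ S, z v, odd_sum _ _ _ hz1 (by rw [odd_count]; omega), ?_⟩
  rw [bb, hL.2, Finset.mul_sum, Finset.sum_congr rfl hz2, ← Finset.mul_sum]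

theorem bb_ne_zero (S : Finset V) : bb D c S ≠ 0 := by
  have : ∃ (m : ℕ) (z : ℤ), z % 2 = 1 ∧
      2 ^ (rr c S / 2) * bb D c S = m.factorial * 2 ^ m * z := by
    rcases Nat.even_or_odd' S.card with ⟨m, h | h⟩
    · exact ⟨m, even_case D c h1 h2 m S h⟩
    · exact ⟨m, odd_case D c h1 h2 m S h⟩
  obtain ⟨m, z, hz1, hz2⟩ := this
  intro h0
  rw [h0, mul_zero] at hz2
  have hz : z ≠ 0 := by rintro rfl; simp at hz1
  have hf : (m.factorial : ℤ) ≠ 0 := by exact_mod_cast m.factorial_ne_zero
  exact mul_ne_zero (mul_ne_zero hf (by positivity)) hz hz2.symm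

theorem trailing (S : Finset V) : (A D T S.card S).natTrailingDegree = rr c S / 2 := by
  have hL := low D c h1 h2 _ S rfl
  have hb := bb_ne_zero D c h1 h2 S
  refine le_antisymm (natTrailingDegree_le_of_ne_zero hb) (le_natTrailingDegree ?_ hL.1)
  intro h0
  apply hb
  rw [bb, h0, coeff_zero]

end main

end Pool.Agent.H29.EulerMult
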