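import Mathlib

set_option autoImplicit false

namespace Pool.Agent.H29.Hoffman

variable {E : Type} [AddCommGroup E] [Module ℝ E]

theorem antiex (A : Set E) (p x : E) (h1 : p ∈ convexHull ℝ (insert x A))
    (h2 : x ∈ convexHull ℝ (insert p A)) (hne : x ≠ p) : p ∈ convexHull ℝ A := by
  rcases A.eq_empty_or_nonempty with rfl | hA
  · simp at h1
    exact absurd h1.symm hne
  rw [convexHull_insert hA, mem_convexJoin] at h1 h2
  obtain ⟨x', hx', z, hz, a, a', a0, a1, a2, e1⟩ := h1
  obtain ⟨p', hp', z', hz', b, b', b0, b1, b2, e2⟩ := h2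
  rw [Set.mem_singleton_iff.mp hx'] at e1
  rw [Set.mem_singleton_iff.mp hp'] at e2
  by_cases h : a * b = 1
  · have h3 : a = 1 := by nlinarith
    have h4 : a' = 0 := by linarith
    rw [h3, h4, one_smul, zero_smul, add_zero] at e1
    exact absurd e1 hne
  · have h3 : 0 < 1 - a * b := by
      have : a * b ≤ 1 := by nlinarith
      exact sub_pos.mpr (lt_of_le_of_ne this h)
    have h4 := convex_convexHull ℝ A hz hz' (a := a' / (1 - a * b)) (b := a * b' / (1 - a * b))
      (by positivity) (by positivity) (by field_simp; nlinarith)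
    convert h4 using 1
    have h5 : (1 - a * b) • p = a' • z + (a * b') • z' := by
      rw [sub_smul, one_smul, mul_smul, mul_smul, sub_eq_iff_eq_add, add_assoc, ← smul_add,
        add_comm (b' • z'), e2, add_comm, e1]
    rw [div_eq_inv_mul, div_eq_inv_mul, mul_smul, mul_smul, ← smul_add, ← h5, smul_smul,
      inv_mul_cancel₀ h3.ne', one_smul]

theorem core [DecidableEq E] (S : Set E) (N : ℕ)
    (hfin : ∀ P : Finset E, (S ∩ convexHull ℝ (P : Set E)).Finite)
    (hN : ∀ P : Finset E, ↑P ⊆ S → N < P.card → ∃ x ∈ S, x ∈ convexHull ℝ (P.erase x : Set E))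
    (m : ℕ) : ∀ P : Finset E, ↑P ⊆ S → N < P.card → (S ∩ convexHull ℝ (P : Set E)).ncard = m →
      ∃ y ∈ S, ∀ p ∈ P, y ∈ convexHull ℝ (P.erase p : Set E) := by
  classical
  induction m using Nat.strong_induction_on with
  | _ m ih =>
  intro P hP hc hm
  by_contra hn
  have V : ∀ p ∈ P, p ∉ convexHull ℝ (P.erase p : Set E) := by
    intro p hp h
    refine hn ⟨p, hP hp, fun q _ => ?_⟩
    by_cases e : p = q
    · exact e ▸ h
    · exact subset_convexHull ℝ _ (Finset.mem_erase.mpr ⟨e, hp⟩)
  have ins : ∀ p ∈ P, insert p (P.erase p : Set E) = P := fun p hp => by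
    rw [← Finset.coe_insert, Finset.insert_erase hp]
  have sub : ∀ p, convexHull ℝ (P.erase p : Set E) ⊆ convexHull ℝ (P : Set E) := fun p =>
    convexHull_mono (Finset.erase_subset p P)
  have key : ∀ k, ∀ x ∈ S, x ∈ convexHull ℝ (P : Set E) → x ∉ P →
      (P.filter fun p => x ∉ convexHull ℝ (P.erase p : Set E)).card = k → False := by
    intro k
    induction k using Nat.strong_induction_on with
    | _ k ihk =>
    intro x x1 x2 x3 x4
    obtain ⟨i, i1, i2⟩ : ∃ i ∈ P, x ∉ convexHull ℝ (P.erase i : Set E) := by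
      by_contra h
      push Not at h
      exact hn ⟨x, x1, h⟩
    have x5 : x ∉ P.erase i := fun h => x3 (Finset.mem_of_mem_erase h)
    have s1 : convexHull ℝ ((insert x (P.erase i) : Finset E) : Set E) ⊆
        convexHull ℝ (P : Set E) := by
      refine convexHull_min ?_ (convex_convexHull ℝ _)
      rw [Finset.coe_insert]
      exact Set.insert_subset x2 ((subset_convexHull ℝ _).trans (sub i))
    obtain ⟨y, y1, y2⟩ := ih _ (by
      rw [← hm]
      refine Set.ncard_lt_ncard ⟨Set.inter_subset_inter_right _ s1, fun h => ?_⟩ (hfin P)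
      have := (h ⟨hP i1, subset_convexHull ℝ _ i1⟩).2
      rw [Finset.coe_insert] at this
      exact V i i1 (antiex _ _ _ this (by rwa [ins i i1]) (fun e => x3 (e ▸ i1))))
      (insert x (P.erase i)) (by
        rw [Finset.coe_insert]
        exact Set.insert_subset x1 fun z hz => hP (Finset.mem_of_mem_erase hz))
      (by rw [Finset.card_insert_of_notMem x5, Finset.card_erase_of_mem i1]; omega) rfl
    have y3 : y ∈ convexHull ℝ (P.erase i : Set E) := by
      have := y2 x (Finset.mem_insert_self _ _)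
      rwa [Finset.erase_insert x5] at this
    have y4 : ∀ j ∈ P, j ≠ i → y ∈ convexHull ℝ (insert x (P.erase j : Set E)) := by
      intro j j1 j2
      refine convexHull_mono ?_ (y2 j (Finset.mem_insert_of_mem (Finset.mem_erase.mpr ⟨j2, j1⟩)))
      intro z hz
      simp only [Finset.coe_erase, Finset.coe_insert, Set.mem_sdiff, Set.mem_insert_iff,
        Finset.mem_coe, Set.mem_singleton_iff] at hz ⊢
      tauto
    refine ihk _ ?_ y y1 (sub i y3) (fun hy => ?_) rfl
    · rw [← x4]
      refine Finset.card_lt_card ⟨fun j hj => ?_, fun h => ?_⟩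
      · rw [Finset.mem_filter] at hj ⊢
        refine ⟨hj.1, fun hx => hj.2 ?_⟩
        by_cases e : j = i
        · exact e ▸ y3
        · exact convexHull_min (Set.insert_subset hx (subset_convexHull ℝ _))
            (convex_convexHull ℝ _) (y4 j hj.1 e)
      · exact (Finset.mem_filter.mp (h (Finset.mem_filter.mpr ⟨i1, i2⟩))).2 y3
    · by_cases e : y = i
      · exact V i i1 (e ▸ y3)
      · exact V y hy (antiex _ _ _ (y4 y hy e) (by rwa [ins y hy]) (fun e => x3 (e ▸ hy)))
  obtain ⟨x, x1, x2⟩ := hN P hP hc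
  exact key _ x x1 (sub x x2) (fun h => V x h x2) rfl

theorem helly [DecidableEq E] (S : Set E) (N : ℕ)
    (hfin : ∀ P : Finset E, (S ∩ convexHull ℝ (P : Set E)).Finite)
    (hN : ∀ P : Finset E, ↑P ⊆ S → N < P.card → ∃ x ∈ S, x ∈ convexHull ℝ (P.erase x : Set E))
    (n : ℕ) : ∀ F : Finset (Set E), F.card = n → (∀ C ∈ F, Convex ℝ C) →
      (∀ G ⊆ F, G.card ≤ N → ∃ x ∈ S, ∀ C ∈ G, x ∈ C) → ∃ x ∈ S, ∀ C ∈ F, x ∈ C := by
  classical
  induction n with
  | zero => exact fun F h1 _ h3 => h3 F le_rfl (by omega)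
  | succ n ih =>
    intro F h1 h2 h3
    by_cases hc : F.card ≤ N
    · exact h3 F le_rfl hc
    have h4 : ∀ C : Set E, ∃ x, C ∈ F → x ∈ S ∧ ∀ D ∈ F, D ≠ C → x ∈ D := by
      intro C
      by_cases hC : C ∈ F
      · obtain ⟨x, x1, x2⟩ := ih (F.erase C) (by rw [Finset.card_erase_of_mem hC]; omega)
          (fun D hD => h2 D (Finset.mem_of_mem_erase hD))
          (fun G hG => h3 G (hG.trans (Finset.erase_subset _ _)))
        exact ⟨x, fun _ => ⟨x1, fun D d1 d2 => x2 D (Finset.mem_erase.mpr ⟨d2, d1⟩)⟩⟩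
      · exact ⟨0, fun h => absurd h hC⟩
    choose p hp using h4
    by_cases hi : Set.InjOn p F
    · obtain ⟨y, y1, y2⟩ := core S N hfin hN _ (F.image p) (by
        intro z hz
        obtain ⟨C, hC, rfl⟩ := Finset.mem_image.mp hz
        exact (hp C hC).1) (by rw [Finset.card_image_of_injOn hi]; omega) rfl
      refine ⟨y, y1, fun C hC => convexHull_min ?_ (h2 C hC) (y2 _ (Finset.mem_image_of_mem p hC))⟩
      intro z hz
      obtain ⟨z1, z2⟩ := Finset.mem_erase.mp hz
      obtain ⟨D, hD, rfl⟩ := Finset.mem_image.mp z2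
      exact (hp D hD).2 C hC fun e => z1 (by rw [e])
    · simp only [Set.InjOn, not_forall] at hi
      obtain ⟨C, hC, D, hD, e, hne⟩ := hi
      refine ⟨p C, (hp C hC).1, fun B hB => ?_⟩
      by_cases h : B = C
      · rw [e]
        exact (hp D hD).2 B hB (h ▸ hne)
      · exact (hp C hC).2 B hB h

end Pool.Agent.H29.Hoffman
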