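import Mathlib
import Pool.Agent.H29.Hoffman

set_option autoImplicit false

namespace Pool.Agent.H29.ExpLat

theorem mono_path {V C : Type} [Fintype C] [DecidableEq C] (P : Finset V) (χ : V → V → C) (L : ℕ)
    (h : L ^ Fintype.card C < P.card) : ∃ (c : C) (f : ℕ → V), (∀ t, t ≤ L → f t ∈ P) ∧
      ∀ t, t < L → f t ≠ f (t + 1) ∧ χ (f t) (f (t + 1)) = c := by
  classical
  by_contra hn
  let e : V → ℕ := fun v => if hv : v ∈ P then (P.equivFin ⟨v, hv⟩).val else 0
  have he : ∀ u ∈ P, ∀ v ∈ P, e u = e v → u = v := by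
    intro u hu v hv h
    simp only [e, dif_pos hu, dif_pos hv] at h
    simpa using P.equivFin.injective (Fin.ext h)
  let Q : V → C → ℕ → Prop := fun v c k => ∃ f : ℕ → V, f k = v ∧ (∀ t, t ≤ k → f t ∈ P) ∧
      ∀ t, t < k → f t ≠ f (t + 1) ∧ χ (f t) (f (t + 1)) = c
  have hQ : ∀ v c k, Q v c k → k < L := by
    rintro v c k ⟨f, _, h2, h3⟩
    by_contra hc
    exact hn ⟨c, f, fun t ht => h2 t (by omega), fun t ht => h3 t (by omega)⟩
  let l : V → C → ℕ := fun v c => Nat.findGreatest (Q v c) L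
  have hl : ∀ v ∈ P, ∀ c, Q v c (l v c) := fun v hv c =>
    Nat.findGreatest_spec (m := 0) (Nat.zero_le _) ⟨fun _ => v, rfl, fun _ _ => hv, by simp⟩
  have key : ∀ u ∈ P, ∀ v ∈ P, u ≠ v → l u (χ u v) < l v (χ u v) := by
    intro u hu v hv huv
    obtain ⟨f, h1, h2, h3⟩ := hl u hu (χ u v)
    have h4 : Q v (χ u v) (l u (χ u v) + 1) := by
      refine ⟨fun t => if t ≤ l u (χ u v) then f t else v, by simp, fun t _ => ?_, fun t ht => ?_⟩
      · dsimp only
        split_ifs with a
        · exact h2 t a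
        · exact hv
      · dsimp only
        rw [if_pos (by omega)]
        split_ifs with a
        · exact h3 t (by omega)
        · rw [show t = l u (χ u v) by omega, h1]
          exact ⟨huv, rfl⟩
    exact Nat.le_findGreatest (hQ _ _ _ h4).le h4
  have := Finset.card_le_card_of_injOn (s := P) (t := Fintype.piFinset fun _ : C => Finset.range L)
    l (fun v hv => by
      simp only [Finset.mem_coe, Fintype.mem_piFinset, Finset.mem_range]
      exact fun c => hQ _ _ _ (hl v hv c)) (fun u hu v hv h => by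
      by_contra hne
      have := key u hu v hv hne
      rw [h] at this
      exact lt_irrefl _ this)
  simp only [Fintype.card_piFinset, Finset.card_range, Finset.prod_const, Finset.card_univ] at this
  omega

theorem solve {R : Type} [Fintype R] [DecidableEq R] (A : Matrix R R ℝ) (ε : ℝ)
    (h1 : ∀ i, A i i = 1) (h2 : ∀ i j, i ≠ j → 0 ≤ A i j ∧ A i j ≤ ε) (h0 : 0 ≤ ε)
    (h3 : Fintype.card R * ε < 1 / 2) : ∃ l : R → ℝ, (∀ i, 0 < l i) ∧ ∀ i, ∑ j, A i j * l j = 1 := by
  have hs : ∀ (i : R) (x : R → ℝ) (a : ℝ), 0 ≤ a → (∀ j, |x j| ≤ a) →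
      |∑ j ∈ Finset.univ.erase i, A i j * x j| ≤ Fintype.card R * ε * a := by
    intro i x a ha hx
    refine (Finset.abs_sum_le_sum_abs _ _).trans ?_
    refine (Finset.sum_le_card_nsmul _ _ (ε * a) fun j hj => ?_).trans ?_
    · have := h2 i j (Finset.ne_of_mem_erase hj).symm
      rw [abs_mul, abs_of_nonneg this.1]
      exact mul_le_mul this.2 (hx j) (abs_nonneg _) h0
    · rw [nsmul_eq_mul, mul_assoc]
      exact mul_le_mul_of_nonneg_right (by exact_mod_cast Finset.card_le_univ _) (by positivity)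
  have hd : A.det ≠ 0 := det_ne_zero_of_sum_row_lt_diag fun k => by
    have := hs k (fun _ => 1) 1 (by norm_num) (by simp)
    rw [h1, norm_one, Finset.sum_congr rfl (g := fun j => A k j * 1) (fun j hj => by
      rw [mul_one, Real.norm_of_nonneg (h2 k j (Finset.ne_of_mem_erase hj).symm).1])]
    linarith [le_abs_self (∑ j ∈ Finset.univ.erase k, A k j * 1)]
  obtain ⟨l, hl⟩ := (Matrix.mulVec_surjective_iff_isUnit.mpr
    ((Matrix.isUnit_iff_isUnit_det A).mpr hd.isUnit)) (fun _ => 1)
  have hl' : ∀ i, ∑ j, A i j * l j = 1 := fun i => congrFun hl i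
  refine ⟨l, fun i => ?_, hl'⟩
  have hr : ∀ i, l i + ∑ j ∈ Finset.univ.erase i, A i j * l j = 1 := fun i => by
    rw [← hl' i, ← Finset.add_sum_erase _ _ (Finset.mem_univ i), h1, one_mul]
  obtain ⟨k, _, hk⟩ := Finset.exists_max_image Finset.univ (fun j => |l j|) ⟨i, Finset.mem_univ _⟩
  have a1 := abs_le.mp (hs k l _ (abs_nonneg (l k)) fun j => hk j (Finset.mem_univ _))
  have a2 := abs_le.mp (hs i l _ (abs_nonneg (l k)) fun j => hk j (Finset.mem_univ _))
  have a3 := hr k
  have a4 := hr i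
  have a5 : |l k| ≤ 1 + Fintype.card R * ε * |l k| := abs_le.mpr ⟨by linarith, by linarith⟩
  have a6 := abs_nonneg (l k)
  have a7 : 0 ≤ Fintype.card R * ε := by positivity
  nlinarith

theorem peak (d M : ℕ) (n : ℕ → Fin (d + 1) → ℤ) (ρ : Fin (d + 1) → ℕ) (hρ : ∃ k, ρ k = 0)
    (h : ∀ j i k, j < d → ρ i < ρ k → n (j + 1) i - n j i + 2 * M ≤ n (j + 1) k - n j k) :
    ∃ m : ℕ → ℤ, ∀ k j, ρ k ≤ d → j ≤ d → j ≠ ρ k → m j + n j k + M ≤ m (ρ k) + n (ρ k) k := by
  classical
  obtain ⟨k0, hk0⟩ := hρ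
  have hG : ∀ j, ∃ G : ℤ, (∀ k, ρ k ≤ j → n (j + 1) k - n j k ≤ G) ∧
      ∃ k, ρ k ≤ j ∧ n (j + 1) k - n j k = G := by
    intro j
    obtain ⟨k, k1, k2⟩ := Finset.exists_max_image (Finset.univ.filter fun k => ρ k ≤ j)
      (fun k => n (j + 1) k - n j k) ⟨k0, by simp [hk0]⟩
    exact ⟨_, fun i hi => k2 i (by simpa using hi), k, by simpa using k1, rfl⟩
  choose G G1 G2 using hG
  let m : ℕ → ℤ := fun j => - ∑ s ∈ Finset.range j, (G s + M)
  have hm : ∀ j, m (j + 1) = m j - G j - M := fun j => by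
    simp only [m, Finset.sum_range_succ]; ring
  have dn : ∀ k j, ρ k ≤ j → m (j + 1) + n (j + 1) k + M ≤ m j + n j k := fun k j hj => by
    have := G1 j k hj
    rw [hm]; omega
  have up : ∀ k j, j < d → j < ρ k → m j + n j k + M ≤ m (j + 1) + n (j + 1) k := by
    intro k j h1 h2
    obtain ⟨i, i1, i2⟩ := G2 j
    have := h j i k h1 (by omega)
    rw [hm]; omega
  refine ⟨m, fun k j h1 h2 h3 => ?_⟩
  rcases lt_or_gt_of_ne h3 with h4 | h4
  · have : ∀ s, j + s + 1 ≤ ρ k → m j + n j k + M ≤ m (j + s + 1) + n (j + s + 1) k := by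
      intro s
      induction s with
      | zero => exact fun _ => up k j (by omega) h4
      | succ s ih =>
        intro hs
        have := ih (by omega)
        have := up k (j + s + 1) (by omega) (by omega)
        change _ ≤ m (j + s + 1 + 1) + n (j + s + 1 + 1) k
        omega
    have := this (ρ k - j - 1) (by omega)
    rwa [show j + (ρ k - j - 1) + 1 = ρ k by omega] at this
  · have : ∀ s, m (ρ k + s + 1) + n (ρ k + s + 1) k + M ≤ m (ρ k) + n (ρ k) k := by
      intro s
      induction s with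
      | zero => exact dn k _ le_rfl
      | succ s ih =>
        have := dn k (ρ k + s + 1) (by omega)
        change m (ρ k + s + 1 + 1) + n (ρ k + s + 1 + 1) k + M ≤ _
        omega
    have := this (j - ρ k - 1)
    rwa [show ρ k + (j - ρ k - 1) + 1 = j by omega] at this

end Pool.Agent.H29.ExpLat
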