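import Mathlib

set_option autoImplicit false

namespace Pool.Agent.H29.ExpLat

/-- the exponential lattice -/
def lat (d : ℕ) (α : ℝ) : Set (Fin d → ℝ) := {x | ∀ i, ∃ n : ℕ, x i = α ^ n}

/-- `h` has the Helly property for `S` -/
def HellyBound {d : ℕ} (S : Set (Fin d → ℝ)) (h : ℕ) : Prop :=
  ∀ F : Finset (Set (Fin d → ℝ)), (∀ C ∈ F, Convex ℝ C) →
    (∀ G ⊆ F, G.card ≤ h → ∃ x ∈ S, ∀ C ∈ G, x ∈ C) → ∃ x ∈ S, ∀ C ∈ F, x ∈ C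

end Pool.Agent.H29.ExpLat
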