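import Mathlib
import Pool.Agent.H29.ExpLat
import Pool.Agent.H29.ExpLatDefs

set_option autoImplicit false

namespace Pool.Agent.H29.ExpLat

theorem fin_lat (d : ℕ) {α : ℝ} (hα : 1 < α) (P : Finset (Fin d → ℝ)) :
    (lat d α ∩ convexHull ℝ (P : Set (Fin d → ℝ))).Finite := by
  obtain ⟨B, hB⟩ := P.finite_toSet.bddAbove
  have h1 : convexHull ℝ (P : Set (Fin d → ℝ)) ⊆ Set.Iic B :=
    convexHull_min (fun x hx => hB hx) (convex_Iic B)
  choose K hK using fun i => pow_unbounded_of_one_lt (B i) hα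
  refine ((Set.Finite.pi' (fun i => Set.finite_Iio (K i))).image
    (fun n : Fin d → ℕ => fun i => α ^ n i)).subset ?_
  rintro x ⟨x1, x2⟩
  choose n hn using x1
  refine ⟨n, fun i => ?_, (funext hn).symm⟩
  have := h1 x2 i
  rw [hn i] at this
  exact (pow_lt_pow_iff_right₀ hα).mp (this.trans_lt (hK i))

theorem geom (d M : ℕ) {α : ℝ} (hα : 1 < α) (hM : 2 * (d + 1) < α ^ M) (P : Finset (Fin d → ℝ))
    (hP : ↑P ⊆ lat d α)
    (hc : (2 * M * d + 1) ^ Fintype.card (Fin (d + 1) × Fin (d + 1) → Bool) < P.card) :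
    ∃ x ∈ lat d α, x ∈ convexHull ℝ (P.erase x : Set (Fin d → ℝ)) := by
  classical
  have α0 : 0 < α := by linarith
  have h1 : ∀ p : Fin d → ℝ, ∃ N : Fin (d + 1) → ℤ, N 0 = 0 ∧
      (p ∈ P → ∀ i, p i = α ^ N i.succ ∧ 1 ≤ p i) := by
    intro p
    by_cases hp : p ∈ P
    · choose n hn using hP hp
      exact ⟨Fin.cons 0 fun i => n i, rfl, fun _ i =>
        ⟨by simp [hn i], by rw [hn i]; exact one_le_pow₀ hα.le⟩⟩
    · exact ⟨0, rfl, fun h => absurd h hp⟩
  choose N N0 N1 using h1
  obtain ⟨c, f, f1, f2⟩ := mono_path P (fun u v (z : Fin (d + 1) × Fin (d + 1)) =>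
    decide (N v z.1 - N u z.1 < N v z.2 - N u z.2)) _ hc
  have hc' : ∀ t i k, t < 2 * M * d + 1 → (c (i, k) = true ↔
      N (f (t + 1)) i - N (f t) i < N (f (t + 1)) k - N (f t) k) := fun t i k ht => by
    rw [← (f2 t ht).2, decide_eq_true_iff]
  let ρ : Fin (d + 1) → ℕ := fun k => (Finset.univ.filter fun i => c (i, k) = true).card
  have c0 := fun i k => hc' 0 i k (by omega)
  have r1 : ∀ i k, c (i, k) = true → ρ i < ρ k := fun i k h =>
    Finset.card_lt_card ⟨fun j hj => by
      simp only [Finset.mem_filter, Finset.mem_univ, true_and, c0] at hj h ⊢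
      omega, fun hs => by
      have := hs (Finset.mem_filter.mpr ⟨Finset.mem_univ i, h⟩)
      simp only [Finset.mem_filter, Finset.mem_univ, true_and, c0] at this
      omega⟩
  have r2 : ∀ i k, ρ i < ρ k → c (i, k) = true := fun i k h => by
    by_contra hn
    refine absurd h (not_lt.mpr (Finset.card_le_card fun j hj => ?_))
    simp only [Finset.mem_filter, Finset.mem_univ, true_and, c0] at hj hn ⊢
    omega
  have r3 : ∀ k, ρ k ≤ d := fun k => by
    have : ρ k < (Finset.univ : Finset (Fin (d + 1))).card :=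
      Finset.card_lt_card ⟨Finset.subset_univ _, fun hs => by
        have := hs (Finset.mem_univ k)
        simp only [Finset.mem_filter, Finset.mem_univ, true_and, c0] at this
        omega⟩
    simpa [Nat.lt_succ_iff] using this
  have r4 : ∃ k, ρ k = 0 := by
    obtain ⟨k, _, hk⟩ := Finset.exists_min_image Finset.univ ρ ⟨0, Finset.mem_univ _⟩
    refine ⟨k, Finset.card_eq_zero.mpr (Finset.filter_eq_empty_iff.mpr fun i _ h => ?_)⟩
    exact absurd (r1 i k h) (not_lt.mpr (hk i (Finset.mem_univ _)))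
  have r5 : ∀ i k, ρ i = ρ k → ∀ t, t ≤ 2 * M * d + 1 →
      N (f t) i - N (f t) k = N (f 0) i - N (f 0) k := by
    intro i k h t
    induction t with
    | zero => exact fun _ => rfl
    | succ t ih =>
      intro ht
      have a1 := ih (by omega)
      have a2 := mt (hc' t i k (by omega)).mpr (fun e => (r1 i k e).ne h)
      have a3 := mt (hc' t k i (by omega)).mpr (fun e => (r1 k i e).ne' h)
      omega
  have bd : ∀ j, j ≤ d → 2 * M * j ≤ 2 * M * d := fun j hj => Nat.mul_le_mul_left _ hj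
  obtain ⟨m, hm⟩ := peak d M (fun j => N (f (2 * M * j))) ρ r4 (by
    intro j i k hj h
    have : ∀ s, s ≤ 2 * M → N (f (2 * M * j + s)) i - N (f (2 * M * j)) i + s ≤
        N (f (2 * M * j + s)) k - N (f (2 * M * j)) k := by
      intro s
      induction s with
      | zero => simp
      | succ s ih =>
        intro hs
        have a1 := ih (by omega)
        have a0 := bd (j + 1) hj
        rw [Nat.mul_succ] at a0
        have a2 := (hc' (2 * M * j + s) i k (by omega)).mp (r2 i k h)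
        rw [← add_assoc]
        push_cast
        omega
    have := this (2 * M) le_rfl
    rw [Nat.mul_succ]
    push_cast at this
    exact this)
  let F : Fin (d + 1) → ℕ → ℤ := fun k j => m j + N (f (2 * M * j)) k
  have hR : ∀ r : ↥(Finset.univ.image ρ), ∃ k, ρ k = r.1 := fun r =>
    (Finset.mem_image.mp r.2).imp fun _ h => h.2
  choose rep hrep using hR
  have rd : ∀ r : ↥(Finset.univ.image ρ), r.1 ≤ d := fun r => hrep r ▸ r3 _
  obtain ⟨l, l0, l1⟩ := solve (R := ↥(Finset.univ.image ρ))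
    (fun r s => α ^ (F (rep r) s - F (rep r) r)) (α ^ (-(M : ℤ))) (by simp)
    (fun r s h => ⟨by positivity, zpow_le_zpow_right₀ hα.le (by
      have := hm (rep r) s (r3 _) (rd s) (by rw [hrep]; exact fun e => h (Subtype.ext e.symm))
      rw [hrep] at this
      simp only [F]
      omega)⟩) (by positivity) (by
      have a1 : (Fintype.card ↥(Finset.univ.image ρ) : ℝ) ≤ d + 1 := by
        rw [Fintype.card_coe]
        exact_mod_cast Finset.card_image_le.trans (by simp)
      have a2 : 0 < α ^ M := by positivity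
      rw [zpow_neg, zpow_natCast, ← div_eq_mul_inv, div_lt_iff₀ a2]
      linarith)
  have l2 : ∀ k, ∑ s, (l s * α ^ (m s - F 0 (ρ 0))) * α ^ N (f (2 * M * s)) k =
      α ^ (F k (ρ k) - F 0 (ρ 0)) := by
    intro k
    have a1 := l1 ⟨ρ k, by simp⟩
    have a2 := hrep ⟨ρ k, by simp⟩
    rw [← mul_one (α ^ (F k (ρ k) - F 0 (ρ 0))), ← a1, Finset.mul_sum]
    refine Finset.sum_congr rfl fun s _ => ?_
    rw [mul_assoc, ← mul_assoc (α ^ _), ← zpow_add₀ α0.ne', ← zpow_add₀ α0.ne', mul_comm]
    have a3 := r5 _ _ a2 (2 * M * s) (by have := bd s (rd s); omega)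
    have a4 := r5 _ _ a2 (2 * M * ρ k) (by have := bd _ (r3 k); omega)
    congr 2
    simp only [F] at a3 a4 ⊢
    omega
  have fP : ∀ s : ↥(Finset.univ.image ρ), f (2 * M * s) ∈ P := fun s =>
    f1 _ (by have := bd s (rd s); omega)
  have w1 : ∑ s, l s * α ^ (m s - F 0 (ρ 0)) = 1 := by simpa [N0] using l2 0
  have w0 : ∀ s, 0 ≤ l s * α ^ (m s - F 0 (ρ 0)) := fun s => by have := l0 s; positivity
  have hx : ∑ s, (l s * α ^ (m s - F 0 (ρ 0))) • f (2 * M * s) =
      fun i => α ^ (F i.succ (ρ i.succ) - F 0 (ρ 0)) := by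
    funext i
    rw [← l2, Finset.sum_apply]
    exact Finset.sum_congr rfl fun s _ => by rw [Pi.smul_apply, smul_eq_mul, (N1 _ (fP s) i).1]
  refine ⟨fun i => α ^ (F i.succ (ρ i.succ) - F 0 (ρ 0)), fun i => ?_,
    mem_convexHull_of_exists_fintype _ (fun s : ↥(Finset.univ.image ρ) => f (2 * M * s)) w0 w1 (fun s => ?_) hx⟩
  · have a1 : 1 ≤ α ^ (F i.succ (ρ i.succ) - F 0 (ρ 0)) := by
      rw [← l2, ← w1]
      refine Finset.sum_le_sum fun s _ => le_mul_of_one_le_right (w0 s) ?_
      rw [← (N1 _ (fP s) i).1]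
      exact (N1 _ (fP s) i).2
    rw [one_le_zpow_iff_right₀ hα] at a1
    exact ⟨(F i.succ (ρ i.succ) - F 0 (ρ 0)).toNat, by
      rw [← zpow_natCast, Int.toNat_of_nonneg a1]⟩
  · refine Finset.mem_erase.mpr ⟨fun e => ?_, fP s⟩
    have a1 : ∀ k, N (f (2 * M * s)) k = F k (ρ k) - F 0 (ρ 0) := by
      intro k
      refine Fin.cases (by simp [N0]) (fun i => ?_) k
      have := congrFun e i
      rw [(N1 _ (fP s) i).1] at this
      exact zpow_right_injective₀ α0 hα.ne' this
    have M0 : 0 < M := Nat.pos_of_ne_zero fun e => by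
      rw [e, pow_zero] at hM
      have : (0 : ℝ) ≤ d := Nat.cast_nonneg d
      linarith
    have a2 : ∀ k, ρ k = s := by
      intro k
      by_contra hne
      have b1 := a1 k
      have b2 := a1 (rep s)
      have b3 := hm k s (r3 _) (rd s) (Ne.symm hne)
      rw [hrep] at b2
      simp only [F] at b1 b2
      omega
    refine (f2 0 (by omega)).1 (funext fun i => ?_)
    have b1 := r5 i.succ 0 ((a2 _).trans (a2 _).symm) 1 (by omega)
    rw [N0, N0, sub_zero, sub_zero] at b1
    rw [(N1 _ (f1 0 (by omega)) i).1, (N1 _ (f1 1 (by omega)) i).1, b1]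

end Pool.Agent.H29.ExpLat
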