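import Mathlib
import Pool.Agent.H29.DimCount

set_option autoImplicit false
set_option linter.unusedSectionVars false
set_option warn.classDefReducibility false
set_option linter.style.haveILetI false

namespace Pool.Agent.H29.Expansion

open Finset

theorem card_cut {W : Type} [Fintype W] [DecidableEq W] (w w' : W) (h : w ≠ w') :
    4 * (univ.filter (fun c : W → Bool => c w = true ∧ c w' = false)).card
      = Fintype.card (W → Bool) := by
  let t : W → Finset Bool := fun x => if x = w then {true} else if x = w' then {false} else univ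
  have h1 : univ.filter (fun c : W → Bool => c w = true ∧ c w' = false) = Fintype.piFinset t := by
    ext c
    simp only [mem_filter, mem_univ, true_and, Fintype.mem_piFinset, t]
    constructor
    · rintro ⟨h1, h2⟩ x
      split_ifs with h3 h4
      · simp [h3, h1]
      · simp [h4, h2]
      · simp
    · intro hc
      have a := hc w
      have b := hc w'
      simp only [if_true, mem_singleton] at a
      simp only [h.symm, if_false, if_true, mem_singleton] at b
      exact ⟨a, b⟩
  rw [h1, Fintype.card_piFinset, Fintype.card_fun, Fintype.card_bool]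
  have h2 : ∀ x, (if x = w then 2 else 1) * (if x = w' then 2 else 1) * (t x).card = 2 := by
    intro x
    simp only [t]
    by_cases h3 : x = w
    · simp [h3, h]
    · by_cases h4 : x = w'
      · simp [h4, h.symm]
      · simp [h3, h4]
  have h3 := Finset.prod_congr (s₁ := (univ : Finset W)) rfl (fun x _ => h2 x)
  rw [prod_mul_distrib, prod_mul_distrib] at h3
  simp only [prod_ite_eq', mem_univ, if_true, prod_const, card_univ] at h3
  omega

theorem exists_cut {W : Type} [Fintype W] [DecidableEq W] (E : Finset (W × W))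
    (hE : ∀ p ∈ E, p.1 ≠ p.2) :
    ∃ c : W → Bool, E.card ≤ 4 * (E.filter (fun p => c p.1 = true ∧ c p.2 = false)).card := by
  by_contra hc
  push Not at hc
  have h1 : ∑ c : W → Bool, 4 * (E.filter (fun p => c p.1 = true ∧ c p.2 = false)).card
      < ∑ _c : W → Bool, E.card :=
    Finset.sum_lt_sum_of_nonempty univ_nonempty (fun c _ => hc c)
  have h2 : ∑ c : W → Bool, 4 * (E.filter (fun p => c p.1 = true ∧ c p.2 = false)).card
      = ∑ p ∈ E, 4 * (univ.filter (fun c : W → Bool => c p.1 = true ∧ c p.2 = false)).card := by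
    simp only [← Finset.mul_sum, card_filter]
    rw [Finset.sum_comm]
  rw [h2, Finset.sum_congr rfl (fun p hp => card_cut p.1 p.2 (hE p hp))] at h1
  simp only [sum_const, card_univ, smul_eq_mul] at h1
  rw [mul_comm] at h1
  exact lt_irrefl _ h1

section Poset

variable {V W : Type} (G : SimpleGraph V) (B : W → Set V) (v : W → V)

/-- depth of a vertex in its branch set -/
noncomputable def dep (x : V) : ℕ :=
  sInf {n | ∃ w, ∃ p : G.Walk (v w) x, p.length = n ∧ ∀ z ∈ p.support, z ∈ B w}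

variable {G B v}

theorem dep_le {w : W} {x : V} (p : G.Walk (v w) x) (hp : ∀ z ∈ p.support, z ∈ B w) :
    dep G B v x ≤ p.length := Nat.sInf_le ⟨w, p, rfl, hp⟩

theorem exists_parent (hd : ∀ w w', w ≠ w' → Disjoint (B w) (B w')) {w : W} {x : V}
    (p : G.Walk (v w) x) (hp : ∀ z ∈ p.support, z ∈ B w) (hx : x ≠ v w) :
    ∃ y, G.Adj y x ∧ dep G B v y < dep G B v x ∧
      ∃ q : G.Walk (v w) y, ∀ z ∈ q.support, z ∈ B w := by
  have hne : {n | ∃ w, ∃ p : G.Walk (v w) x, p.length = n ∧ ∀ z ∈ p.support, z ∈ B w}.Nonempty :=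
    ⟨p.length, w, p, rfl, hp⟩
  obtain ⟨w', q, hq, hq'⟩ := Nat.sInf_mem hne
  have hw : w' = w := by
    by_contra hw
    exact Set.disjoint_left.mp (hd w' w hw) (hq' x q.end_mem_support) (hp x p.end_mem_support)
  subst hw
  have hnil : ¬ q.reverse.Nil := SimpleGraph.Walk.not_nil_of_ne hx
  obtain ⟨y, hxy, q', hq2⟩ := SimpleGraph.Walk.not_nil_iff.mp hnil
  have hsup : ∀ z ∈ q'.reverse.support, z ∈ B w' := by
    intro z hz
    apply hq'
    have : z ∈ q.reverse.support := by
      rw [hq2]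
      simp only [SimpleGraph.Walk.support_cons, List.mem_cons]
      right
      simpa using hz
    simpa using this
  refine ⟨y, hxy.symm, ?_, q'.reverse, hsup⟩
  have h1 := dep_le q'.reverse hsup
  have h2 : q.reverse.length = q'.length + 1 := by rw [hq2]; simp
  simp only [SimpleGraph.Walk.length_reverse] at h1 h2
  have h3 : dep G B v x = q.length := hq.symm
  omega

variable (G B v) in
/-- generating arcs of the poset -/
def Arc (c : W → Bool) (S : Set (W × W)) (u u' : W × W → V) (x y : V) : Prop :=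
  (∃ w, c w = true ∧ x ∈ B w ∧ y ∈ B w ∧ G.Adj x y ∧ dep G B v x < dep G B v y) ∨
  (∃ w, c w = false ∧ x ∈ B w ∧ y ∈ B w ∧ G.Adj x y ∧ dep G B v y < dep G B v x) ∨
  (∃ p ∈ S, x = u p ∧ y = u' p)

theorem reach_up (hd : ∀ w w', w ≠ w' → Disjoint (B w) (B w')) (c : W → Bool)
    (S : Set (W × W)) (u u' : W × W → V) {w : W} (hw : c w = true) :
    ∀ (n : ℕ) (x : V), dep G B v x = n → (∃ p : G.Walk (v w) x, ∀ z ∈ p.support, z ∈ B w) →
      Relation.ReflTransGen (Arc G B v c S u u') (v w) x := by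
  intro n
  induction n using Nat.strong_induction_on with
  | _ n ih =>
    rintro x hx ⟨p, hp⟩
    by_cases hxv : x = v w
    · rw [hxv]
    · obtain ⟨y, hyx, hlt, q, hq⟩ := exists_parent hd p hp hxv
      exact (ih _ (hx ▸ hlt) y rfl ⟨q, hq⟩).tail
        (Or.inl ⟨w, hw, hq y q.end_mem_support, hp x p.end_mem_support, hyx, hlt⟩)

theorem reach_down (hd : ∀ w w', w ≠ w' → Disjoint (B w) (B w')) (c : W → Bool)
    (S : Set (W × W)) (u u' : W × W → V) {w : W} (hw : c w = false) :
    ∀ (n : ℕ) (x : V), dep G B v x = n → (∃ p : G.Walk (v w) x, ∀ z ∈ p.support, z ∈ B w) →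
      Relation.ReflTransGen (Arc G B v c S u u') x (v w) := by
  intro n
  induction n using Nat.strong_induction_on with
  | _ n ih =>
    rintro x hx ⟨p, hp⟩
    by_cases hxv : x = v w
    · rw [hxv]
    · obtain ⟨y, hyx, hlt, q, hq⟩ := exists_parent hd p hp hxv
      exact (ih _ (hx ▸ hlt) y rfl ⟨q, hq⟩).head
        (Or.inr (Or.inl ⟨w, hw, hp x p.end_mem_support, hq y q.end_mem_support, hyx.symm, hlt⟩))

theorem reach_inv (hd : ∀ w w', w ≠ w' → Disjoint (B w) (B w')) (c : W → Bool)
    (S : Set (W × W)) (u u' : W × W → V)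
    (hS : ∀ p ∈ S, c p.1 = true ∧ c p.2 = false ∧ u p ∈ B p.1 ∧ u' p ∈ B p.2)
    {w : W} (hw : c w = true) {x y : V} (hx : x ∈ B w)
    (h : Relation.ReflTransGen (Arc G B v c S u u') x y) :
    y ∈ B w ∨ ∃ w', (w, w') ∈ S ∧ y ∈ B w' := by
  have uniq : ∀ {a b : W} {z : V}, z ∈ B a → z ∈ B b → a = b := by
    intro a b z ha hb
    by_contra hab
    exact Set.disjoint_left.mp (hd a b hab) ha hb
  induction h with
  | refl => exact Or.inl hx
  | tail _ hyz ih =>
    rcases ih with ih | ⟨w', hw', ih⟩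
    · rcases hyz with ⟨a, _, h1, h2, _⟩ | ⟨a, ha, h1, _⟩ | ⟨p, hp, h1, h2⟩
      · left; rw [uniq ih h1]; exact h2
      · rw [← uniq ih h1, hw] at ha; cases ha
      · right
        obtain ⟨_, _, h3, h4⟩ := hS p hp
        refine ⟨p.2, ?_, h2 ▸ h4⟩
        rw [uniq ih (h1 ▸ h3)]; exact hp
    · obtain ⟨_, hc', _⟩ := hS _ hw'
      rcases hyz with ⟨a, ha, h1, _⟩ | ⟨a, _, h1, h2, _⟩ | ⟨p, hp, h1, h2⟩
      · rw [← uniq ih h1, hc'] at ha; cases ha
      · right; refine ⟨w', hw', ?_⟩; rw [uniq ih h1]; exact h2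
      · obtain ⟨h5, _, h3, h4⟩ := hS p hp
        have h7 : w' = p.1 := uniq ih (h1 ▸ h3)
        rw [← h7, hc'] at h5; cases h5

open Classical in
variable (G B v) in
/-- potential function -/
noncomputable def pot (c : W → Bool) (r : ℕ) (x : V) : ℕ :=
  if ∃ w, c w = true ∧ x ∈ B w then dep G B v x else 2 * r + 1 - dep G B v x

theorem pot_lt (hd : ∀ w w', w ≠ w' → Disjoint (B w) (B w')) (c : W → Bool)
    (S : Set (W × W)) (u u' : W × W → V) (r : ℕ)
    (hr : ∀ w, ∀ x ∈ B w, dep G B v x ≤ r)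
    (hS : ∀ p ∈ S, c p.1 = true ∧ c p.2 = false ∧ u p ∈ B p.1 ∧ u' p ∈ B p.2)
    {x y : V} (h : Arc G B v c S u u' x y) : pot G B v c r x < pot G B v c r y := by
  have uniq : ∀ {a b : W} {z : V}, z ∈ B a → z ∈ B b → a = b := by
    intro a b z ha hb
    by_contra hab
    exact Set.disjoint_left.mp (hd a b hab) ha hb
  have neg : ∀ {a : W} {z : V}, c a = false → z ∈ B a → ¬ ∃ w, c w = true ∧ z ∈ B w := by
    rintro a z ha hz ⟨w, hw, hz'⟩
    rw [uniq hz hz', hw] at ha; cases ha
  unfold pot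
  rcases h with ⟨a, ha, h1, h2, _, h3⟩ | ⟨a, ha, h1, h2, _, h3⟩ | ⟨p, hp, h1, h2⟩
  · rw [if_pos ⟨a, ha, h1⟩, if_pos ⟨a, ha, h2⟩]; exact h3
  · rw [if_neg (neg ha h1), if_neg (neg ha h2)]
    have := hr a x h1
    omega
  · obtain ⟨h5, h6, h3, h4⟩ := hS p hp
    rw [← h1] at h3; rw [← h2] at h4
    rw [if_pos ⟨_, h5, h3⟩, if_neg (neg h6 h4)]
    have := hr _ x h3
    have := hr _ y h4
    omega

theorem pot_le (c : W → Bool) (r : ℕ) (hr : ∀ w, ∀ x ∈ B w, dep G B v x ≤ r) (x : V) :
    pot G B v c r x < 2 * r + 2 := by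
  unfold pot
  split_ifs with h
  · obtain ⟨w, _, hw⟩ := h
    have := hr w x hw
    omega
  · omega

end Poset

/-- the partial order generated by arcs with a strictly increasing potential -/
def genOrder {V : Type} (A : V → V → Prop) (φ : V → ℕ) (h : ∀ x y, A x y → φ x < φ y) :
    PartialOrder V where
  le := Relation.ReflTransGen A
  le_refl := fun _ => Relation.ReflTransGen.refl
  le_trans := fun _ _ _ => Relation.ReflTransGen.trans
  le_antisymm := by
    have mono : ∀ x y, Relation.ReflTransGen A x y → x = y ∨ φ x < φ y := by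
      intro x y hxy
      induction hxy with
      | refl => exact Or.inl rfl
      | tail _ h2 ih =>
        right
        rcases ih with ih | ih
        · rw [ih]; exact h _ _ h2
        · exact ih.trans (h _ _ h2)
    intro x y h1 h2
    rcases mono x y h1 with h3 | h3
    · exact h3
    · rcases mono y x h2 with h4 | h4
      · exact h4.symm
      · omega

theorem gen_mono {V : Type} (A : V → V → Prop) (φ : V → ℕ) (h : ∀ x y, A x y → φ x < φ y)
    (x y : V) (hxy : Relation.ReflTransGen A x y) : x = y ∨ φ x < φ y := by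
  induction hxy with
  | refl => exact Or.inl rfl
  | tail _ h2 ih =>
    right
    rcases ih with ih | ih
    · rw [ih]; exact h _ _ h2
    · exact ih.trans (h _ _ h2)

theorem gen_cov {V : Type} (A : V → V → Prop) (φ : V → ℕ) (h : ∀ x y, A x y → φ x < φ y)
    (x y : V) (hxy : @CovBy V (genOrder A φ h).toLT x y) : A x y := by
  letI := genOrder A φ h
  have h1 : Relation.ReflTransGen A x y := hxy.le
  rcases h1.cases_tail with h2 | ⟨z, h2, h3⟩
  · exact absurd h2.symm hxy.ne
  · have h4 : x ≤ z := h2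
    have h5 : z ≤ y := Relation.ReflTransGen.single h3
    rcases hxy.eq_or_eq h4 h5 with h6 | h6
    · rw [← h6]; exact h3
    · have := h _ _ h3
      rw [h6] at this
      exact absurd this (lt_irrefl _)

theorem gen_height {V : Type} (A : V → V → Prop) (φ : V → ℕ) (h : ∀ x y, A x y → φ x < φ y)
    (N : ℕ) (hN : ∀ x, φ x < N) (s : Finset V)
    (hs : IsChain (Relation.ReflTransGen A) (s : Set V)) : s.card ≤ N := by
  rw [← card_range N]
  refine Finset.card_le_card_of_injOn φ (fun x _ => by simpa using hN x) ?_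
  intro x hx y hy hxy
  by_contra hne
  rcases hs hx hy hne with h1 | h1
  · rcases gen_mono A φ h _ _ h1 with h2 | h2
    · exact hne h2
    · omega
  · rcases gen_mono A φ h _ _ h1 with h2 | h2
    · exact hne h2.symm
    · omega

theorem main (C : ∀ V : Type, SimpleGraph V → Prop)
    (hmono : ∀ (V W : Type) (G : SimpleGraph V) (H : SimpleGraph W) (f : H →g G),
        Function.Injective f → C V G → C W H)
    (hdim : ∀ h : ℕ, 1 ≤ h → ∃ d : ℕ, ∀ (P : Type) [Fintype P] [PartialOrder P],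
        (∀ s : Finset P, IsChain (· ≤ ·) (s : Set P) → s.card ≤ h) →
        C P (SimpleGraph.fromRel (fun x y : P => x ⋖ y)) →
        ∃ f : Fin d → P → ℕ, (∀ i, Function.Injective (f i)) ∧
          ∀ x y : P, x ≤ y ↔ ∀ i, f i x ≤ f i y) (r : ℕ) :
    ∃ c : ℕ, ∀ (V W : Type) [Fintype V] [Fintype W]
        (G : SimpleGraph V) (H : SimpleGraph W),
      C V G →
      (∃ B : W → Set V, (∀ w w', w ≠ w' → Disjoint (B w) (B w')) ∧
        (∀ w, ∃ v ∈ B w, ∀ u ∈ B w, ∃ p : G.Walk v u,
            p.length ≤ r ∧ ∀ x ∈ p.support, x ∈ B w) ∧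
        (∀ w w', H.Adj w w' → ∃ u ∈ B w, ∃ u' ∈ B w', G.Adj u u')) →
      Nat.card H.edgeSet ≤ c * Fintype.card W := by
  classical
  obtain ⟨d, hd⟩ := hdim (2 * r + 2) (by omega)
  refine ⟨8 * ((4 * d).factorial * 2 ^ (4 * d)), ?_⟩
  rintro V W _ _ G H hG ⟨B, hB, hroot, hadj⟩
  choose v hv hwalk using hroot
  let E0 : Finset (W × W) := univ.filter (fun p => H.Adj p.1 p.2)
  have hE0 : Nat.card H.edgeSet ≤ E0.card := by
    rw [← Nat.card_eq_finsetCard]
    refine Nat.card_le_card_of_surjective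
      (fun p : E0 => (⟨s(p.1.1, p.1.2), (mem_filter.mp p.2).2⟩ : H.edgeSet)) ?_
    rintro ⟨e, he⟩
    induction e using Sym2.ind with
    | _ a b => exact ⟨⟨(a, b), by simpa [E0] using he⟩, rfl⟩
  obtain ⟨c, hc⟩ := exists_cut E0 (fun p hp => by
    have : H.Adj p.1 p.2 := by simpa [E0] using hp
    exact this.ne)
  set E := E0.filter (fun p => c p.1 = true ∧ c p.2 = false) with hE
  have hadj' : ∀ p : W × W, ∃ x y : V, H.Adj p.1 p.2 → x ∈ B p.1 ∧ y ∈ B p.2 ∧ G.Adj x y := by
    intro p
    by_cases hp : H.Adj p.1 p.2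
    · obtain ⟨x, hx, y, hy, hxy⟩ := hadj _ _ hp
      exact ⟨x, y, fun _ => ⟨hx, hy, hxy⟩⟩
    · exact ⟨v p.1, v p.1, fun h => absurd h hp⟩
  choose u u' hu using hadj'
  have hr : ∀ w, ∀ x ∈ B w, dep G B v x ≤ r := by
    intro w x hx
    obtain ⟨p, hp, hp'⟩ := hwalk w x hx
    exact (dep_le p hp').trans hp
  have key := Pool.Agent.H29.DimCount.core d E ?_
  · nlinarith
  · intro S hS
    have hmem : ∀ p ∈ E, H.Adj p.1 p.2 ∧ c p.1 = true ∧ c p.2 = false := by
      intro p hp
      simpa [hE, E0] using hp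
    have hS' : ∀ p ∈ (S : Set (W × W)), c p.1 = true ∧ c p.2 = false ∧ u p ∈ B p.1 ∧
        u' p ∈ B p.2 := by
      intro p hp
      obtain ⟨h1, h2, h3⟩ := hmem p (hS hp)
      exact ⟨h2, h3, (hu p h1).1, (hu p h1).2.1⟩
    have hpot : ∀ x y, Arc G B v c S u u' x y → pot G B v c r x < pot G B v c r y :=
      fun x y h => pot_lt hB c S u u' r hr hS' h
    have harc : ∀ x y, Arc G B v c S u u' x y → G.Adj x y := by
      rintro x y (⟨a, _, _, _, h, _⟩ | ⟨a, _, _, _, h, _⟩ | ⟨p, hp, rfl, rfl⟩)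
      · exact h
      · exact h
      · exact (hu p (hmem p (hS hp)).1).2.2
    letI ord : PartialOrder V := genOrder _ _ hpot
    obtain ⟨f, _, hf⟩ := hd V (fun s hs => gen_height _ _ hpot _ (pot_le c r hr) s hs) (by
      refine hmono V V G _ ⟨id, ?_⟩ (fun _ _ h => h) hG
      intro a b hab
      rw [SimpleGraph.fromRel_adj] at hab
      rcases hab.2 with h | h
      · exact harc _ _ (gen_cov _ _ hpot _ _ h)
      · exact (harc _ _ (gen_cov _ _ hpot _ _ h)).symm)
    refine ⟨fun i a => f i (v a), fun i a => f i (v a), fun p hp => ?_⟩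
    rw [← hf]
    obtain ⟨h1, h2, h3⟩ := hmem p hp
    constructor
    · intro hpS
      obtain ⟨q1, _, hq1⟩ := hwalk _ _ (hu p h1).1
      obtain ⟨q2, _, hq2⟩ := hwalk _ _ (hu p h1).2.1
      have a1 := reach_up (v := v) hB c S u u' h2 _ _ rfl ⟨q1, hq1⟩
      have a2 := reach_down (v := v) hB c S u u' h3 _ _ rfl ⟨q2, hq2⟩
      exact (a1.tail (Or.inr (Or.inr ⟨p, hpS, rfl, rfl⟩))).trans a2
    · intro hle
      rcases reach_inv hB c S u u' hS' h2 (hv p.1) hle with h4 | ⟨w', h4, h5⟩
      · exact absurd (hv p.2) (Set.disjoint_left.mp (hB _ _ h1.ne) h4)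
      · have : w' = p.2 := by
          by_contra hne
          exact Set.disjoint_left.mp (hB _ _ hne) h5 (hv p.2)
        rw [this] at h4
        exact h4

end Pool.Agent.H29.Expansion
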