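import Mathlib

set_option autoImplicit false

namespace Pool.Agent.H29.FDim

/-- linear extensions of a poset -/
def LinExt (P : Type) [PartialOrder P] : Type :=
  {r : P → P → Prop // IsLinearOrder P r ∧ ∀ a b, a ≤ b → r a b}

open Classical in
noncomputable instance (P : Type) [PartialOrder P] [Fintype P] : Fintype (LinExt P) :=
  inferInstanceAs (Fintype {r : P → P → Prop // IsLinearOrder P r ∧ ∀ a b, a ≤ b → r a b})

open Classical in
/-- fractional realizer -/
def IsFracRealizer (P : Type) [PartialOrder P] [Fintype P] (w : LinExt P → ℝ) : Prop :=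
  (∀ L, 0 ≤ w L) ∧ ∀ a b : P, ¬ a ≤ b → ¬ b ≤ a →
    1 ≤ ∑ L ∈ Finset.univ.filter (fun L : LinExt P => L.1 b a), w L

open Classical in
/-- fractional dimension -/
noncomputable def fdim (P : Type) [PartialOrder P] [Fintype P] : ℝ :=
  if ∀ a b : P, a ≤ b ∨ b ≤ a then 1 else
    sInf {s | ∃ w, IsFracRealizer P w ∧ s = ∑ L, w L}

/-- the convex geometry `P(k,n)`; `j : Fin n` stands for `j + 1` -/
def CG (k n : ℕ) : Type :=
  {A : Finset (Fin n) // ∀ i : ℕ, A.card + 1 = k + i → ∀ j : Fin n, j.val + 1 ≤ i - 1 → j ∈ A}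

instance (k n : ℕ) : PartialOrder (CG k n) := Subtype.partialOrder _

open Classical in
noncomputable instance (k n : ℕ) : Fintype (CG k n) := Subtype.fintype _

end Pool.Agent.H29.FDim
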