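import Mathlib
import Pool.Agent.H29.FDimDefs

set_option autoImplicit false

namespace Pool.Agent.H29.FDim

theorem exists_ext {P : Type} [PartialOrder P] (key : P → ℕ) (hk : Monotone key) :
    ∃ L : LinExt P, ∀ a b, key b < key a → L.1 b a := by
  obtain ⟨s, hs, h⟩ := extend_partialOrder (α := P) (· ≤ ·)
  refine ⟨⟨fun a b => key a < key b ∨ (key a = key b ∧ s a b),
    { refl := fun a => Or.inr ⟨rfl, hs.refl a⟩
      trans := ?_
      antisymm := ?_
      total := ?_ }, fun a b hab => ?_⟩, fun a b h => Or.inl h⟩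
  · rintro a b c (h1 | h1) (h2 | h2)
    · exact Or.inl (h1.trans h2)
    · exact Or.inl (h2.1 ▸ h1)
    · exact Or.inl (h1.1 ▸ h2)
    · exact Or.inr ⟨h1.1.trans h2.1, hs.trans _ _ _ h1.2 h2.2⟩
  · rintro a b (h1 | h1) (h2 | h2)
    · omega
    · omega
    · omega
    · exact hs.antisymm _ _ h1.2 h2.2
  · intro a b
    rcases lt_trichotomy (key a) (key b) with h1 | h1 | h1
    · exact Or.inl (Or.inl h1)
    · exact (hs.total a b).imp (fun h => Or.inr ⟨h1, h⟩) (fun h => Or.inr ⟨h1.symm, h⟩)
    · exact Or.inr (Or.inl h1)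
  · rcases (hk hab).lt_or_eq with h1 | h1
    · exact Or.inl h1
    · exact Or.inr ⟨h1, h a b hab⟩

open Classical in
theorem fdim_le {P : Type} [PartialOrder P] [Fintype P] {Ω : Type} [Fintype Ω] (μ : Ω → ℝ)
    (hμ : ∀ c, 0 ≤ μ c) (key : Ω → P → ℕ) (hk : ∀ c, Monotone (key c))
    (hn : ¬ ∀ a b : P, a ≤ b ∨ b ≤ a)
    (h : ∀ a b : P, ¬ a ≤ b → 1 ≤ ∑ c ∈ Finset.univ.filter (fun c => key c b < key c a), μ c) :
    fdim P ≤ ∑ c, μ c := by
  choose L hL using fun c => exists_ext (key c) (hk c)
  rw [fdim, if_neg hn]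
  refine csInf_le ⟨0, ?_⟩ ⟨fun M => ∑ c ∈ Finset.univ.filter (fun c => L c = M), μ c,
    ⟨fun M => Finset.sum_nonneg fun c _ => hμ c, fun a b h1 _ => ?_⟩, ?_⟩
  · rintro s ⟨w, hw, rfl⟩
    exact Finset.sum_nonneg fun M _ => hw.1 M
  · refine le_of_le_of_eq ?_ (Finset.sum_fiberwise_eq_sum_filter _ _ L μ).symm
    refine (h a b h1).trans (Finset.sum_le_sum_of_subset_of_nonneg ?_ fun c _ _ => hμ c)
    intro c hc
    simpa using hL c a b (Finset.mem_filter.mp hc).2
  · exact (Finset.sum_fiberwise _ L μ).symm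

/-- weight -/
noncomputable def wt (p : ℝ) (b : Bool) : ℝ := if b then p else 1 - p

theorem event {n : ℕ} (p : ℝ) (x : Fin n) (T : Finset (Fin n)) (hx : x ∉ T) :
    ∑ c ∈ Finset.univ.filter (fun c : Fin n → Bool => c x = true ∧ ∀ y ∈ T, c y = false),
      ∏ i, wt p (c i) = p * (1 - p) ^ T.card := by
  have h1 : Finset.univ.filter (fun c : Fin n → Bool => c x = true ∧ ∀ y ∈ T, c y = false) =
      Fintype.piFinset (fun i => if i = x then {true} else if i ∈ T then {false}
        else Finset.univ) := by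
    ext c
    simp only [Finset.mem_filter, Finset.mem_univ, true_and, Fintype.mem_piFinset]
    constructor
    · rintro ⟨h1, h2⟩ i
      split_ifs with h3 h4
      · simp [h3, h1]
      · simp [h2 i h4]
      · simp
    · intro h
      refine ⟨by simpa using h x, fun y hy => ?_⟩
      have := h y
      rw [if_neg (by rintro rfl; exact hx hy), if_pos hy] at this
      simpa using this
  rw [h1, ← Finset.prod_univ_sum]
  rw [← Finset.prod_subset (Finset.subset_univ (insert x T))]
  · rw [Finset.prod_insert hx, ← Finset.prod_const]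
    congr 1
    · simp [wt]
    · refine Finset.prod_congr rfl fun y hy => ?_
      rw [if_neg (by rintro rfl; exact hx hy), if_pos hy]
      simp [wt]
  · intro y _ hy
    rw [Finset.mem_insert, not_or] at hy
    rw [if_neg hy.1, if_neg hy.2]
    simp [wt]

theorem few {k n : ℕ} (B : CG k n) (x : Fin n) (hx : x ∉ B.1) :
    (B.1.filter (fun y => x < y)).card ≤ k := by
  by_contra hc
  have h1 := B.2 (B.1.card + 1 - k)
  have h2 := Finset.card_filter_le B.1 (fun y => x < y)
  have h3 : B.1.card ≤ x.val + k := by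
    by_contra h4
    exact hx (h1 (by omega) x (by omega))
  have h4 : (Finset.univ.filter (fun y : Fin n => y.val < B.1.card - k)) ⊆
      B.1.filter (fun y => ¬ x < y) := by
    intro y hy
    have := (Finset.mem_filter.mp hy).2
    exact Finset.mem_filter.mpr ⟨h1 (by omega) y (by omega), by rw [Fin.lt_def]; omega⟩
  have h5 := Finset.card_le_card h4
  have h6 := Finset.card_filter_add_card_filter_not (s := B.1) (fun y => x < y)
  rw [Fin.card_filter_val_lt] at h5
  have := x.2
  omega

theorem main (k n : ℕ) (hk : 1 ≤ k) (hn : k + 2 ≤ n) :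
    fdim (CG k n) ≤ ((k : ℝ) + 1) ^ (k + 1) / (k : ℝ) ^ k := by
  classical
  have k0 : (0 : ℝ) < k := by exact_mod_cast hk
  set p : ℝ := 1 / ((k : ℝ) + 1) with hp
  set f : ℝ := ((k : ℝ) + 1) ^ (k + 1) / (k : ℝ) ^ k with hf
  have p0 : 0 < p := by positivity
  have p1 : 1 - p = k / (k + 1) := by rw [hp]; field_simp; ring
  have p2 : 0 ≤ 1 - p := by rw [p1]; positivity
  have f0 : 0 ≤ f := by positivity
  have w0 : ∀ c : Fin n → Bool, 0 ≤ f * ∏ i, wt p (c i) := fun c =>
    mul_nonneg f0 (Finset.prod_nonneg fun i _ => by unfold wt; split_ifs <;> linarith)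
  have := fdim_le (P := CG k n) (fun c : Fin n → Bool => f * ∏ i, wt p (c i)) w0
    (fun c A => (A.1.filter (fun j => c j = true)).sup (fun j => j.val + 1))
    (fun c A B h => Finset.sup_mono (Finset.filter_subset_filter _ h)) ?_ ?_
  · refine this.trans (le_of_eq ?_)
    rw [← Finset.mul_sum, ← Fintype.piFinset_univ, ← Finset.prod_univ_sum]
    simp [wt]
  · intro h
    have := h ⟨{⟨0, by omega⟩}, fun i hi j hj => by simp at hi; omega⟩
      ⟨{⟨1, by omega⟩}, fun i hi j hj => by simp at hi; omega⟩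
    rcases this with h | h
    · simpa using h (Finset.mem_singleton_self _)
    · simpa using h (Finset.mem_singleton_self _)
  · intro A B hAB
    obtain ⟨x, h1, h2⟩ := Finset.not_subset.mp hAB
    have h3 := event p x (B.1.filter (fun y => x < y)) (by simp)
    have h4 : (1 - p) ^ k ≤ (1 - p) ^ (B.1.filter (fun y => x < y)).card :=
      pow_le_pow_of_le_one p2 (by linarith) (few B x h2)
    have h5 : f * (p * (1 - p) ^ k) = 1 := by
      rw [p1, hf, hp, div_pow]
      field_simp
      ring
    calc (1 : ℝ) = f * (p * (1 - p) ^ k) := h5.symm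
      _ ≤ f * (p * (1 - p) ^ (B.1.filter (fun y => x < y)).card) := by gcongr
      _ = _ := by rw [← h3, Finset.mul_sum]
      _ ≤ _ := by
        refine Finset.sum_le_sum_of_subset_of_nonneg ?_ fun c _ _ => w0 c
        intro c hc
        obtain ⟨h6, h7⟩ := (Finset.mem_filter.mp hc).2
        refine Finset.mem_filter.mpr ⟨Finset.mem_univ _, ?_⟩
        refine lt_of_lt_of_le ?_ (Finset.le_sup (f := fun j : Fin n => j.val + 1)
          (Finset.mem_filter.mpr ⟨h1, h6⟩))
        rw [Finset.sup_lt_iff (by simp)]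
        intro y hy
        obtain ⟨h8, h9⟩ := Finset.mem_filter.mp hy
        have h10 : ¬ x < y := fun h => by
          rw [h7 y (Finset.mem_filter.mpr ⟨h8, h⟩)] at h9
          exact absurd h9 (by simp)
        have h11 : y.val ≠ x.val := fun h => h2 (Fin.ext h ▸ h8)
        rw [Fin.lt_def] at h10
        omega

end Pool.Agent.H29.FDim
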