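import Mathlib

set_option autoImplicit false

namespace Pool.Agent.H29.FFAR

/-- a play of the First-Fit game: coloured edges, latest edge first -/
def Play : List (Sym2 ℕ × ℕ) → Prop
  | [] => True
  | q :: S => Play S ∧ ¬ q.1.IsDiag ∧ (∀ p ∈ S, p.1 ≠ q.1) ∧
      IsLeast {c | 1 ≤ c ∧ ∀ p ∈ S, (∃ v, v ∈ p.1 ∧ v ∈ q.1) → p.2 ≠ c} q.2

/-- the coloured graph contains a rainbow copy of `H` -/
def HasRainbow {V : Type} (H : SimpleGraph V) (S : List (Sym2 ℕ × ℕ)) : Prop :=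
  ∃ (f : V ↪ ℕ) (col : Sym2 V → ℕ), Set.InjOn col H.edgeSet ∧
    ∀ e ∈ H.edgeSet, (e.map f, col e) ∈ S

/-- First-Fit anti-Ramsey number -/
noncomputable def AR {V : Type} (H : SimpleGraph V) : ℕ∞ :=
  sInf {t | ∃ S, Play S ∧ HasRainbow H S ∧ t = S.length}

end Pool.Agent.H29.FFAR
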