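import Mathlib
import Pool.Agent.H29.FFARDefs

set_option autoImplicit false

namespace Pool.Agent.H29.FFAR

variable {V : Type} [Fintype V] [DecidableEq V] (f : V ↪ ℕ)

/-- invariant -/
def Inv (S : List (Sym2 ℕ × ℕ)) (E : Finset (Sym2 V)) : Prop :=
  Play S ∧ (∀ p ∈ S, p.2 ≤ E.card) ∧
    (∀ p ∈ S, (∃ e ∈ E, p.1 = e.map f) ∨ ∃ w ∈ p.1, w ∉ Set.range f) ∧
    ∃ col : Sym2 V → ℕ, Set.InjOn col E ∧ ∀ e ∈ E, (e.map f, col e) ∈ S

/-- all small colours at a vertex -/
def Full (x : ℕ) (S : List (Sym2 ℕ × ℕ)) (r : ℕ) : Prop :=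
  ∀ c, 1 ≤ c → c ≤ r → ∃ p ∈ S, x ∈ p.1 ∧ p.2 = c

omit [DecidableEq V] in
theorem fresh (S : List (Sym2 ℕ × ℕ)) : ∃ w, w ∉ Set.range f ∧ ∀ p ∈ S, w ∉ p.1 := by
  have h1 : (Set.range f ∪ ⋃ p ∈ {p | p ∈ S}, {w | w ∈ p.1}).Finite := by
    refine (Set.finite_range f).union (Set.Finite.biUnion (List.finite_toSet S) fun p _ => ?_)
    induction p.1 using Sym2.ind with
    | _ a b => exact (Set.toFinite {a, b}).subset fun w hw => by simpa using hw
  obtain ⟨w, hw⟩ := h1.exists_notMem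
  exact ⟨w, fun h => hw (Or.inl h), fun p hp h => hw (Or.inr (Set.mem_biUnion hp h))⟩

omit [DecidableEq V] in
theorem fill (v : V) (S : List (Sym2 ℕ × ℕ)) (E : Finset (Sym2 V)) (h : Inv f S E) (m : ℕ)
    (hm : m ≤ E.card) : ∃ S', Inv f S' E ∧ Full (f v) S' m ∧ S'.length ≤ S.length + m := by
  induction m with
  | zero => exact ⟨S, h, fun c h1 h2 => by omega, le_rfl⟩
  | succ m ih =>
    obtain ⟨T, ⟨h1, h2, h3, col, h4, h5⟩, h6, h7⟩ := ih (by omega)
    by_cases hc : ∃ p ∈ T, f v ∈ p.1 ∧ p.2 = m + 1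
    · refine ⟨T, ⟨h1, h2, h3, col, h4, h5⟩, fun c c1 c2 => ?_, by omega⟩
      by_cases h8 : c = m + 1
      · exact h8 ▸ hc
      · exact h6 c c1 (by omega)
    · obtain ⟨w, w1, w2⟩ := fresh f T
      refine ⟨(s(f v, w), m + 1) :: T, ⟨⟨h1, ?_, ?_, ⟨by omega, ?_⟩, ?_⟩, ?_, ?_, col, h4,
        fun e he => List.mem_cons_of_mem _ (h5 e he)⟩, fun c c1 c2 => ?_, by simp; omega⟩
      · exact fun hd => w1 ⟨v, by simpa using hd⟩
      · exact fun p hp he => w2 p hp (by rw [he]; simp)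
      · rintro p hp ⟨u, u1, u2⟩ he
        rcases Sym2.mem_iff.mp u2 with rfl | rfl
        · exact hc ⟨p, hp, u1, he⟩
        · exact w2 p hp u1
      · rintro c ⟨c1, c2⟩
        by_contra hlt
        obtain ⟨p, hp, p1, p2⟩ := h6 c c1 (by simp only at hlt; omega)
        exact c2 p hp ⟨f v, p1, by simp⟩ p2
      · intro p hp
        rcases List.mem_cons.mp hp with rfl | hp
        · exact hm
        · exact h2 p hp
      · intro p hp
        rcases List.mem_cons.mp hp with rfl | hp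
        · exact Or.inr ⟨w, by simp, w1⟩
        · exact h3 p hp
      · by_cases h8 : c = m + 1
        · exact ⟨_, List.mem_cons_self, by simp, h8.symm⟩
        · obtain ⟨p, hp, p1⟩ := h6 c c1 (by omega)
          exact ⟨p, List.mem_cons_of_mem _ hp, p1⟩

omit [Fintype V] in
theorem addOne (v : V) (S : List (Sym2 ℕ × ℕ)) (E : Finset (Sym2 V)) (h : Inv f S E)
    (hf : Full (f v) S E.card) (e : Sym2 V) (he : e ∉ E) (hv : v ∈ e) (hd : ¬ e.IsDiag) :
    Inv f ((e.map f, E.card + 1) :: S) (insert e E) ∧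
      Full (f v) ((e.map f, E.card + 1) :: S) (insert e E).card := by
  obtain ⟨h1, h2, h3, col, h4, h5⟩ := h
  have hv' : f v ∈ e.map f := Sym2.mem_map.mpr ⟨v, hv, rfl⟩
  unfold Inv
  rw [Finset.card_insert_of_notMem he]
  refine ⟨⟨⟨h1, ?_, ?_, ⟨by omega, ?_⟩, ?_⟩, ?_, ?_, Function.update col e (E.card + 1), ?_, ?_⟩,
    fun c c1 c2 => ?_⟩
  · exact fun h => hd ((Sym2.isDiag_map f.injective).mp h)
  · intro p hp hpe
    rcases h3 p hp with ⟨e', he', h⟩ | ⟨w, w1, w2⟩
    · exact he (Sym2.map.injective f.injective (h.symm.trans hpe) ▸ he')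
    · rw [hpe] at w1
      obtain ⟨a, _, rfl⟩ := Sym2.mem_map.mp w1
      exact w2 ⟨a, rfl⟩
  · intro p hp _ h
    have := h2 p hp
    simp only at h
    omega
  · rintro c ⟨c1, c2⟩
    by_contra hlt
    obtain ⟨p, hp, p1, p2⟩ := hf c c1 (by simp only at hlt; omega)
    exact c2 p hp ⟨f v, p1, hv'⟩ p2
  · intro p hp
    rcases List.mem_cons.mp hp with rfl | hp
    · exact le_rfl
    · exact (h2 p hp).trans (Nat.le_succ _)
  · intro p hp
    rcases List.mem_cons.mp hp with rfl | hp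
    · exact Or.inl ⟨e, Finset.mem_insert_self _ _, rfl⟩
    · exact (h3 p hp).imp (fun ⟨a, a1, a2⟩ => ⟨a, Finset.mem_insert_of_mem a1, a2⟩) id
  · have hne : ∀ a ∈ E, a ≠ e := fun a ha h => he (h ▸ ha)
    intro a ha b hb hab
    rcases Finset.mem_insert.mp ha with rfl | ha <;> rcases Finset.mem_insert.mp hb with h | hb
    · exact h.symm
    · rw [Function.update_self, Function.update_of_ne (hne b hb)] at hab
      have := h2 _ (h5 b hb)
      simp only at this
      omega
    · rw [h, Function.update_self, Function.update_of_ne (hne a ha)] at hab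
      have := h2 _ (h5 a ha)
      simp only at this
      omega
    · rw [Function.update_of_ne (hne a ha), Function.update_of_ne (hne b hb)] at hab
      exact h4 ha hb hab
  · intro a ha
    rcases Finset.mem_insert.mp ha with rfl | ha
    · rw [Function.update_self]
      exact List.mem_cons_self
    · rw [Function.update_of_ne (fun h => he (by rw [← h]; exact ha))]
      exact List.mem_cons_of_mem _ (h5 a ha)
  · by_cases h8 : c = E.card + 1
    · exact ⟨_, List.mem_cons_self, hv', h8.symm⟩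
    · obtain ⟨p, hp, p1⟩ := hf c c1 (by omega)
      exact ⟨p, List.mem_cons_of_mem _ hp, p1⟩

omit [Fintype V] in
theorem addStar (v : V) (S : List (Sym2 ℕ × ℕ)) (E : Finset (Sym2 V)) (h : Inv f S E)
    (hf : Full (f v) S E.card) (F : Finset (Sym2 V)) (hF : ∀ e ∈ F, e ∉ E ∧ v ∈ e ∧ ¬ e.IsDiag) :
    ∃ S', Inv f S' (F ∪ E) ∧ Full (f v) S' (F ∪ E).card ∧ S'.length = S.length + F.card := by
  induction F using Finset.induction_on with
  | empty => exact ⟨S, by simpa using h, by simpa using hf, rfl⟩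
  | insert e F he ih =>
    obtain ⟨T, h1, h2, h3⟩ := ih fun a ha => hF a (Finset.mem_insert_of_mem ha)
    have h4 := hF e (Finset.mem_insert_self _ _)
    have := addOne f v T (F ∪ E) h1 h2 e (by simp [he, h4.1]) h4.2.1 h4.2.2
    rw [Finset.insert_union]
    exact ⟨_, this.1, this.2, by rw [Finset.card_insert_of_notMem he]; simp [h3]; omega⟩

theorem main (n : ℕ) : ∀ (C : Finset V) (E : Finset (Sym2 V)), C.card = n →
    (∀ e ∈ E, ¬ e.IsDiag ∧ ∃ v ∈ C, v ∈ e) → ∃ S, Inv f S E ∧ 2 * S.length ≤ (n + 1) * E.card := by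
  induction n with
  | zero =>
    intro C E hC hE
    obtain rfl := Finset.card_eq_zero.mp hC
    obtain rfl : E = ∅ := Finset.eq_empty_of_forall_notMem fun e he => by simpa using (hE e he).2
    exact ⟨[], ⟨trivial, by simp, by simp, fun _ => 0, by simp, by simp⟩, by simp⟩
  | succ n ih =>
    intro C E hC hE
    obtain ⟨v, hv, hmax⟩ := Finset.exists_max_image C (fun u => (E.filter (u ∈ ·)).card)
      (Finset.card_pos.mp (by omega))
    have h1 : E.card ≤ (n + 1) * (E.filter (v ∈ ·)).card := by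
      have : E ⊆ C.biUnion (fun u => E.filter (u ∈ ·)) := fun e he => by
        obtain ⟨u, u1, u2⟩ := (hE e he).2
        exact Finset.mem_biUnion.mpr ⟨u, u1, Finset.mem_filter.mpr ⟨he, u2⟩⟩
      exact (Finset.card_le_card this).trans (hC ▸ Finset.card_biUnion_le_card_mul _ _ _ hmax)
    obtain ⟨S, h2, h3⟩ := ih (C.erase v) (E.filter (fun e => ¬ v ∈ e))
      (by rw [Finset.card_erase_of_mem hv]; omega) (fun e he => by
        obtain ⟨e1, e2⟩ := Finset.mem_filter.mp he
        obtain ⟨u, u1, u2⟩ := (hE e e1).2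
        exact ⟨(hE e e1).1, u, Finset.mem_erase.mpr ⟨fun h => e2 (h ▸ u2), u1⟩, u2⟩)
    obtain ⟨T, h4, h5, h6⟩ := fill f v S _ h2 _ le_rfl
    obtain ⟨U, h7, _, h8⟩ := addStar f v T _ h4 h5 (E.filter (v ∈ ·)) (fun e he => by
      obtain ⟨e1, e2⟩ := Finset.mem_filter.mp he
      exact ⟨by simp [e2], e2, (hE e e1).1⟩)
    rw [Finset.filter_union_filter_not_eq] at h7
    refine ⟨U, h7, ?_⟩
    have h9 := Finset.card_filter_add_card_filter_not (s := E) (fun e => v ∈ e)
    nlinarith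

end Pool.Agent.H29.FFAR
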