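import Mathlib

set_option autoImplicit false

namespace Pool.Agent.H29.GDist

variable {V : Type}

theorem le_of_walk (G : SimpleGraph V) (D : V → V → ℕ) (h0 : ∀ a, D a a = 0)
    (h1 : ∀ a b c, G.Adj b c → D a c ≤ D a b + 1) {a b : V} (p : G.Walk a b) :
    D a b ≤ p.length := by
  have : ∀ {u v : V} (q : G.Walk u v), D a v ≤ D a u + q.length := by
    intro u v q
    induction q with
    | nil => simp
    | cons h q ih =>
      have := h1 a _ _ h
      simp only [SimpleGraph.Walk.length_cons]
      omega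
  simpa [h0] using this p

theorem walk_of_cert (G : SimpleGraph V) (D : V → V → ℕ) (h0 : ∀ a, D a a = 0)
    (h2 : ∀ a b, b ≠ a → ∃ c, G.Adj c b ∧ D a c + 1 = D a b) (a b : V) :
    ∃ p : G.Walk a b, p.length = D a b := by
  induction h : D a b generalizing b with
  | zero =>
    by_cases hb : b = a
    · subst hb; exact ⟨.nil, rfl⟩
    · obtain ⟨c, _, hc⟩ := h2 a b hb
      omega
  | succ n ih =>
    have hb : b ≠ a := by
      rintro rfl
      rw [h0] at h
      omega
    obtain ⟨c, hc, hd⟩ := h2 a b hb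
    obtain ⟨p, hp⟩ := ih c (by omega)
    exact ⟨p.concat hc, by simp [hp]⟩

theorem dist_eq (G : SimpleGraph V) (D : V → V → ℕ) (h0 : ∀ a, D a a = 0)
    (h1 : ∀ a b c, G.Adj b c → D a c ≤ D a b + 1)
    (h2 : ∀ a b, b ≠ a → ∃ c, G.Adj c b ∧ D a c + 1 = D a b) (a b : V) : G.dist a b = D a b := by
  obtain ⟨p, hp⟩ := walk_of_cert G D h0 h2 a b
  apply le_antisymm
  · exact hp ▸ G.dist_le p
  · obtain ⟨q, hq⟩ := p.reachable.exists_walk_length_eq_dist
    exact hq ▸ le_of_walk G D h0 h1 q

theorem preconn (G : SimpleGraph V) (D : V → V → ℕ) (h0 : ∀ a, D a a = 0)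
    (h2 : ∀ a b, b ≠ a → ∃ c, G.Adj c b ∧ D a c + 1 = D a b) : G.Preconnected :=
  fun a b => (walk_of_cert G D h0 h2 a b).choose.reachable

theorem between_of_mem {G : SimpleGraph V} {a b z : V} (p : G.Walk a b)
    (hp : p.length = G.dist a b) (hz : z ∈ p.support) :
    G.dist a z + G.dist z b = G.dist a b := by
  classical
  have h1 := G.dist_le (p.takeUntil z hz)
  have h2 := G.dist_le (p.dropUntil z hz)
  have h3 : (p.takeUntil z hz).length + (p.dropUntil z hz).length = p.length := by
    rw [← SimpleGraph.Walk.length_append, SimpleGraph.Walk.take_spec]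
  have h4 : G.dist a b ≤ G.dist a z + G.dist z b :=
    (p.takeUntil z hz).reachable.dist_triangle_left b
  omega

theorem walk_of_between {G : SimpleGraph V} (hG : G.Preconnected) {a b z : V}
    (h : G.dist a z + G.dist z b = G.dist a b) :
    ∃ p : G.Walk a b, p.length = G.dist a b ∧ z ∈ p.support := by
  obtain ⟨p, hp⟩ := (hG a z).exists_walk_length_eq_dist
  obtain ⟨q, hq⟩ := (hG z b).exists_walk_length_eq_dist
  exact ⟨p.append q, by simp [hp, hq, h], by simp⟩

end Pool.Agent.H29.GDist
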