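import Mathlib

set_option autoImplicit false

namespace Pool.Agent.H29.GoodSub

/-- every nonempty chain has a supremum and an infimum -/
def ChainComplete (P : Type) [PartialOrder P] : Prop :=
  ∀ C : Set P, C.Nonempty → IsChain (· ≤ ·) C → (∃ s, IsLUB C s) ∧ (∃ t, IsGLB C t)

/-- every antichain is finite -/
def NoInfAntichain (P : Type) [PartialOrder P] : Prop :=
  ∀ A : Set P, IsAntichain (· ≤ ·) A → A.Finite

/-- `p` is funneled through `q` in the ordered set `S` (induced order) -/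
def Funneled {P : Type} [PartialOrder P] (S : Set P) (p q : P) : Prop :=
  ∀ C : Set P, Maximal (fun D : Set P => D ⊆ S ∧ IsChain (· ≤ ·) D) C → p ∈ C → q ∈ C

/-- `Q` is a good subset of the ordered set `S` -/
def Good {P : Type} [PartialOrder P] (S Q : Set P) : Prop :=
  Q ⊆ S ∧ ∀ p ∈ S, ∃! q, q ∈ Q ∧ Funneled S p q

/-- least number of good-subset retractions leading to a finite set -/
noncomputable def gamma (P : Type) [PartialOrder P] : ℕ∞ :=
  sInf {n : ℕ∞ | ∃ m : ℕ, n = m ∧ ∃ S : ℕ → Set P, S 0 = Set.univ ∧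
    (∀ k, k < m → Good (S k) (S (k + 1))) ∧ (S m).Finite}

theorem comp_of_funneled {P : Type} [PartialOrder P] {S : Set P} {p q w : P}
    (h : Funneled S p q) (hp : p ∈ S) (hw : w ∈ S) (hc : p ≤ w ∨ w ≤ p) : q ≤ w ∨ w ≤ q := by
  obtain ⟨m, hm1, hm2⟩ := zorn_subset_nonempty {D : Set P | D ⊆ S ∧ IsChain (· ≤ ·) D}
    (fun c hc hch _ => ⟨⋃₀ c, ⟨Set.sUnion_subset fun t ht => (hc ht).1, by
      rintro a ⟨s, hs, ha⟩ b ⟨t, ht, hb⟩ hab
      rcases hch.total hs ht with h | h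
      · exact (hc ht).2 (h ha) hb hab
      · exact (hc hs).2 ha (h hb) hab⟩, fun s hs => Set.subset_sUnion_of_mem hs⟩) {p, w}
    ⟨by rintro x (rfl | rfl) <;> assumption, by
      rintro a (rfl | rfl) b (rfl | rfl) hab
      · exact absurd rfl hab
      · exact hc
      · exact hc.symm
      · exact absurd rfl hab⟩
  have hq := h m hm2 (hm1 (by simp))
  have hw' : w ∈ m := hm1 (by simp)
  exact hm2.prop.2.total hq hw'

/-- strict order on codes -/
def L (x y : ℕ × ℕ) : Prop :=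
  (2 ≤ y.2 ∧ 2 ≤ x.2 ∧ x.1 ≤ y.1 ∧ x.2 < y.2) ∨
  (y.2 = 1 ∧ ((2 ≤ x.2 ∧ x.1 ≤ y.1) ∨ (x.2 = 1 ∧ x.1 < y.1))) ∨
  (y.2 = 0 ∧ ((1 ≤ x.2 ∧ x.1 ≤ y.1) ∨ (x.2 = 2 ∧ x.1 = y.1 + 1)))

/-- the example -/
structure Ex (K : ℕ) : Type where
  /-- chain index -/
  i : ℕ
  /-- code -/
  c : ℕ
  h : i ≤ K

theorem Ex.ext' {K : ℕ} {x y : Ex K} (h1 : x.i = y.i) (h2 : x.c = y.c) : x = y := by
  cases x; cases y; simp_all

instance (K : ℕ) : PartialOrder (Ex K) where
  le x y := (x.i = y.i ∧ x.c = y.c) ∨ L (x.i, x.c) (y.i, y.c)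
  le_refl := fun _ => Or.inl ⟨rfl, rfl⟩
  le_trans := by
    intro a b c h1 h2
    simp only [L] at *
    omega
  le_antisymm := by
    intro a b h1 h2
    simp only [L] at *
    apply Ex.ext' <;> omega

theorem le_iff {K : ℕ} (x y : Ex K) : x ≤ y ↔ (x.i = y.i ∧ x.c = y.c) ∨
    (2 ≤ y.c ∧ 2 ≤ x.c ∧ x.i ≤ y.i ∧ x.c < y.c) ∨
    (y.c = 1 ∧ ((2 ≤ x.c ∧ x.i ≤ y.i) ∨ (x.c = 1 ∧ x.i < y.i))) ∨
    (y.c = 0 ∧ ((1 ≤ x.c ∧ x.i ≤ y.i) ∨ (x.c = 2 ∧ x.i = y.i + 1))) := Iff.rfl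

theorem noInf (K : ℕ) : NoInfAntichain (Ex K) := by
  intro A hA
  refine Set.Finite.of_finite_image (f := fun x : Ex K => x.i) ?_ ?_
  · refine (Set.finite_le_nat K).subset ?_
    rintro _ ⟨x, _, rfl⟩
    exact x.h
  · intro x hx y hy hxy
    by_contra hne
    have h1 := hA hx hy hne
    have h2 := hA hy hx (Ne.symm hne)
    simp only [Pi.compl_apply, compl_iff_not, le_iff] at h1 h2
    simp only at hxy
    omega

theorem glb (K : ℕ) (C : Set (Ex K)) (hne : C.Nonempty) (hC : IsChain (· ≤ ·) C) :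
    ∃ t, IsGLB C t := by
  classical
  let f : Ex K → ℕ ×ₗ ℕ := fun x =>
    toLex (if x.c = 0 then (2, 0) else if x.c = 1 then (1, x.i) else (0, x.c))
  obtain ⟨x, hx, hmin⟩ := (wellFounded_lt (α := ℕ ×ₗ ℕ)).has_min (f '' C) (hne.image f)
  obtain ⟨x, hxC, rfl⟩ := hx
  refine ⟨x, IsLeast.isGLB ⟨hxC, fun y hy => ?_⟩⟩
  rcases hC.total hxC hy with h | h
  · exact h
  · have := hmin _ ⟨y, hy, rfl⟩
    rw [le_iff] at h ⊢
    simp only [f, Prod.Lex.toLex_lt_toLex] at this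
    split_ifs at this <;> simp at this <;> omega

theorem lub (K : ℕ) (C : Set (Ex K)) (hne : C.Nonempty) (hC : IsChain (· ≤ ·) C) :
    ∃ t, IsLUB C t := by
  by_cases he : ∃ x ∈ C, x.c = 0
  · obtain ⟨x, hx, h0⟩ := he
    refine ⟨x, IsGreatest.isLUB ⟨hx, fun y hy => ?_⟩⟩
    have := hC.total hx hy
    simp only [le_iff] at this ⊢
    omega
  push Not at he
  have hfin : ((fun x : Ex K => x.i) '' C).Finite := by
    refine (Set.finite_le_nat K).subset ?_
    rintro _ ⟨x, _, rfl⟩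
    exact x.h
  obtain ⟨_, ⟨x, hx, rfl⟩, hmax⟩ := hfin.exists_maximal (hne.image _)
  have hm : ∀ y ∈ C, y.i ≤ x.i := by
    intro y hy
    by_contra hlt
    have := hmax ⟨y, hy, rfl⟩ (show x.i ≤ y.i by omega)
    simp only at this
    omega
  by_cases ht : ∃ z ∈ C, z.i = x.i ∧ z.c = 1
  · obtain ⟨z, hz, h1, h2⟩ := ht
    refine ⟨z, IsGreatest.isLUB ⟨hz, fun y hy => ?_⟩⟩
    have := hm y hy
    have := he y hy
    simp only [le_iff]
    omega
  push Not at ht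
  by_cases hb : ∃ B, ∀ y ∈ C, y.i = x.i → y.c ≤ B
  · obtain ⟨B, hB⟩ := hb
    have hfin2 : ((fun x : Ex K => x.c) '' {y ∈ C | y.i = x.i}).Finite := by
      refine (Set.finite_le_nat B).subset ?_
      rintro _ ⟨y, hy, rfl⟩
      exact hB y hy.1 hy.2
    obtain ⟨_, ⟨z, hz, rfl⟩, hmax2⟩ := hfin2.exists_maximal ⟨_, x, ⟨hx, rfl⟩, rfl⟩
    refine ⟨z, IsGreatest.isLUB ⟨hz.1, fun y hy => ?_⟩⟩
    have h1 := hm y hy
    have h2 := he y hy
    have h3 := hC.total hz.1 hy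
    have h4 := ht y hy
    have h5 := ht z hz.1
    have h6 := he z hz.1
    have h7 := hz.2
    have h8 : y.i = x.i → z.c ≤ y.c → y.c ≤ z.c := fun h => hmax2 ⟨y, ⟨hy, h⟩, rfl⟩
    simp only [le_iff] at h3 ⊢
    omega
  · push Not at hb
    refine ⟨⟨x.i, 1, x.h⟩, fun y hy => ?_, fun u hu => ?_⟩
    · have := hm y hy
      have := he y hy
      have := ht y hy
      rw [le_iff]
      dsimp only
      omega
    · obtain ⟨y, hy, h1, h2⟩ := hb (u.c + 2)
      have := hu hy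
      rw [le_iff] at this ⊢
      dsimp only
      omega

/-- surviving points -/
def Sv (K j : ℕ) : Set (Ex K) := {x | j ≤ x.i ∧ x.i + j ≤ K ∧ x.c ≠ 1}

theorem wit (K j : ℕ) (p q : Ex K) (hp : p ∈ Sv K (j + 1)) (hne : p ≠ q) :
    ∃ w ∈ Sv K j, (p ≤ w ∨ w ≤ p) ∧ ¬ (q ≤ w ∨ w ≤ q) := by
  obtain ⟨h1, h2, h3⟩ := hp
  have hne' : ¬ (p.i = q.i ∧ p.c = q.c) := fun h => hne (Ex.ext' h.1 h.2)
  have a1 : p ∈ Sv K j := ⟨by omega, by omega, h3⟩
  have a2 : (⟨p.i, 0, p.h⟩ : Ex K) ∈ Sv K j := ⟨by simp only; omega, by simp only; omega, by simp⟩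
  have a3 : (⟨p.i, 2, p.h⟩ : Ex K) ∈ Sv K j := ⟨by simp only; omega, by simp only; omega, by simp⟩
  have a4 : (⟨p.i + 1, 2, by omega⟩ : Ex K) ∈ Sv K j :=
    ⟨by simp only; omega, by simp only; omega, by simp⟩
  have a5 : p.c ≠ 0 → (⟨p.i + 1, p.c + 1, by omega⟩ : Ex K) ∈ Sv K j := fun h =>
    ⟨by simp only; omega, by simp only; omega, by simp only; omega⟩
  have a6 : 3 ≤ p.c → (⟨p.i - 1, p.c - 1, by have := p.h; omega⟩ : Ex K) ∈ Sv K j := fun h =>
    ⟨by simp only; omega, by simp only; omega, by simp only; omega⟩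
  by_contra hcon
  push Not at hcon
  have b1 := hcon _ a1 (Or.inl le_rfl)
  rw [le_iff, le_iff] at b1
  by_cases h0 : p.c = 0
  · have b3 := hcon _ a3 (Or.inr (by rw [le_iff]; dsimp only; omega))
    have b4 := hcon _ a4 (Or.inr (by rw [le_iff]; dsimp only; omega))
    rw [le_iff, le_iff] at b3 b4
    dsimp only at b3 b4
    omega
  · have b2 := hcon _ a2 (Or.inl (by rw [le_iff]; dsimp only; omega))
    have b5 := hcon _ (a5 h0) (Or.inl (by rw [le_iff]; dsimp only; omega))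
    rw [le_iff, le_iff] at b2 b5
    dsimp only at b2 b5
    by_cases h2' : p.c = 2
    · omega
    · have b3 := hcon _ a3 (Or.inr (by rw [le_iff]; dsimp only; omega))
      have b6 := hcon _ (a6 (by omega)) (Or.inr (by rw [le_iff]; dsimp only; omega))
      rw [le_iff, le_iff] at b3 b6
      dsimp only at b3 b6
      omega

theorem main (N : ℕ) : (N : ℕ∞) < gamma (Ex (2 * N)) := by
  have key : ∀ m : ℕ, ∀ S : ℕ → Set (Ex (2 * N)), S 0 = Set.univ →
      (∀ k, k < m → Good (S k) (S (k + 1))) → Sv (2 * N) m ⊆ S m := by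
    intro m S h0 hS
    induction m with
    | zero => simp [h0]
    | succ m ih =>
      have ih' := ih (fun k hk => hS k (by omega))
      intro p hp
      have hpm : p ∈ S m := ih' ⟨by have := hp.1; omega, by have := hp.2.1; omega, hp.2.2⟩
      obtain ⟨q, ⟨hq, hf⟩, _⟩ := (hS m (by omega)).2 p hpm
      by_cases hpq : p = q
      · exact hpq ▸ hq
      · obtain ⟨w, hw, hc, hn⟩ := wit _ _ p q hp hpq
        exact absurd (comp_of_funneled hf hpm (ih' hw) hc) hn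
  have : ((N + 1 : ℕ) : ℕ∞) ≤ gamma (Ex (2 * N)) := by
    refine le_sInf ?_
    rintro _ ⟨m, rfl, S, h0, hS, hfin⟩
    by_contra hlt
    have hm : m ≤ N := by
      have : ¬ (N + 1 ≤ m) := fun h => hlt (by exact_mod_cast h)
      omega
    have hsub := key m S h0 hS
    refine Set.infinite_of_injective_forall_mem
      (f := fun n : ℕ => (⟨N, n + 2, by omega⟩ : Ex (2 * N))) ?_ ?_ (hfin.subset hsub)
    · intro a b hab
      simpa using hab
    · intro n
      exact ⟨hm, by simp only; omega, by simp⟩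
  exact lt_of_lt_of_le (by exact_mod_cast Nat.lt_succ_self N) this

end Pool.Agent.H29.GoodSub
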