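import Mathlib

set_option autoImplicit false

namespace Pool.Agent.H29.Jack

open Finset hiding sort
open Equiv Tuple Nat

variable {n : ℕ} {L R : Type} [CommRing R]

def cnt [DecidableEq L] (z : Fin n → L) (a : L) : ℕ := #{p | z p = a}

theorem cnt_perm [DecidableEq L] (z : Fin n → L) (σ : Perm (Fin n)) : cnt (z ∘ σ) = cnt z :=
  funext fun _ => card_equiv σ (by simp)

theorem cnt_cons [DecidableEq L] (b : L) (z : Fin n → L) (a : L) :
    cnt (Fin.cons b z : Fin (n + 1) → L) a = cnt z a + if b = a then 1 else 0 := by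
  simp only [cnt, card_filter, Fin.sum_univ_succ, Fin.cons_zero, Fin.cons_succ, add_comm]

theorem prod_cons [DecidableEq L] [Fintype L] (f : ℕ → ℕ) (g : ℕ → ℕ)
    (h : ∀ k, f (k + 1) = g k * f k) (b : L) (z : Fin n → L) :
    ∏ a, f (cnt (Fin.cons b z : Fin (n + 1) → L) a) = g (cnt z b) * ∏ a, f (cnt z a) := by
  simp only [cnt_cons, ← mul_prod_erase _ _ (mem_univ b), if_true, h, mul_assoc]
  congr 2
  exact prod_congr rfl fun a ha => by rw [if_neg (ne_of_mem_erase ha).symm, add_zero]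

theorem asc {X Y : Type} [DecidableEq X] [Fintype X] [DecidableEq Y] [Fintype Y] (u : Fin n → X) :
    ∑ v : Fin n → Y, ∏ a, (cnt (fun p => (v p, u p)) a)! =
      ∏ k, (Fintype.card Y).ascFactorial (cnt u k) := by
  induction n with
  | zero => simp [cnt]
  | succ n ih =>
    obtain ⟨⟨k, u⟩, rfl⟩ := (Fin.consEquiv fun _ => X).surjective u
    rw [← (Fin.consEquiv fun _ => Y).sum_comp, Fintype.sum_prod_type_right]
    refine Eq.trans ?_ (prod_cons _ _ (fun _ => ascFactorial_succ) k u).symm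
    rw [← ih, mul_sum]
    refine sum_congr rfl fun v _ => ?_
    have : ∀ j, (fun p => (Fin.consEquiv (fun _ => Y) (j, v) p, Fin.consEquiv (fun _ => X) (k, u) p))
        = Fin.cons (j, k) fun p => (v p, u p) := fun j => funext fun p => by
      induction p using Fin.cases <;> rfl
    simp only [this, prod_cons _ _ factorial_succ, ← sum_mul, sum_add_distrib]
    congr 1
    rw [add_comm, cnt, card_eq_sum_card_fiberwise (f := v) (t := univ) (by simp)]
    simp [cnt, filter_filter, and_comm]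

variable [LinearOrder L] [Fintype L]

open Classical in
theorem card_mono (z : Fin n → L) : #{σ : Perm (Fin n) | Monotone (z ∘ σ)} = ∏ a, (cnt z a)! := by
  simp only [cnt, ← Fintype.card_subtype, ← DomMulAct.stabilizer_card]
  rw [Fintype.card_subtype, Fintype.card_subtype]
  refine (card_equiv (Equiv.mulRight (sort z)) fun g => ?_).symm
  simp [← comp_sort_eq_comp_iff_monotone, ← Function.comp_assoc,
    (sort z).surjective.right_cancellable]

open Classical in
theorem sum_mono (g : (Fin n → L) → R) (h : ∀ z (σ : Perm (Fin n)), g (z ∘ σ) = g z) :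
    ∑ z, (∏ a, (cnt z a)! : ℕ) * g z = n ! * ∑ z with Monotone z, g z := by
  simp only [← card_mono, card_filter, cast_sum, sum_mul]
  rw [sum_comm, sum_congr rfl (g := fun _ => ∑ z with Monotone z, g z) fun σ _ => ?_]
  · simp [Fintype.card_perm]
  rw [sum_filter]
  exact Fintype.sum_equiv (σ.symm.arrowCongr (.refl L)) _ _ fun z => by
    change _ = if Monotone (z ∘ σ) then g (z ∘ σ) else 0
    simp [h]

open Classical in
theorem sum_sym (g : Multiset L → R) :
    ∑ z : Fin n → L with Monotone z, g (univ.val.map z) = ∑ s : Sym L n, g s := by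
  refine sum_bij (fun z _ => ⟨univ.val.map z, by simp⟩) (by simp) (fun a ha b hb h => ?_)
    (fun s _ => ?_) fun _ _ => rfl
  · have := congrArg Subtype.val h
    simp only [Fin.univ_val_map, Multiset.coe_eq_coe, mem_filter_univ] at this ha hb
    exact List.ofFn_injective
      (this.eq_of_pairwise' ha.sortedLE_ofFn.pairwise hb.sortedLE_ofFn.pairwise)
  · obtain ⟨s, rfl⟩ := s
    obtain ⟨l, rfl⟩ := Quotient.exists_rep s
    refine ⟨l.get ∘ sort l.get, (mem_filter_univ _).mpr (monotone_sort l.get), Subtype.ext ?_⟩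
    simp only [Fin.univ_val_map]
    exact Multiset.coe_eq_coe.mpr (((sort l.get).ofFn_comp_perm l.get).trans (by simp))

omit [Fintype L] in
theorem rank_lt {U : Fin n → L} {p q : Fin n} (h : p < q) (k : U p ≤ U q) :
    (sort U)⁻¹ p < (sort U)⁻¹ q := by
  obtain ⟨h1, h2⟩ := eq_sort_iff.mp (rfl : sort U = sort U)
  refine lt_of_le_of_ne (not_lt.mp fun e => ?_) ((sort U)⁻¹.injective.ne h.ne)
  have := h2 _ _ e (le_antisymm (h1 e.le) (by simpa))
  simp [h.not_gt] at this

/-- sort the values inside each colour class -/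
noncomputable def fc {Y : Type} [LinearOrder Y] (c : Fin n → Y) (π : Perm (Fin n)) :
    Perm (Fin n) := sort c * (sort (c ∘ π))⁻¹

open Classical in
theorem core {X Y : Type} [LinearOrder X] [Fintype X] [LinearOrder Y] [Fintype Y] (x : X → R) :
    ∑ c : Fin n → Y, ∑ π : Perm (Fin n), ∑ i : Fin n → X with (fc c π)⁻¹ = sort (i ∘ fc c π), ∏ p, x (i p) =
      ∑ u : Fin n → X, (∏ k, (Fintype.card Y).ascFactorial (cnt u k) : ℕ) * ∏ p, x (u p) := by
  have e : ∀ (u : Fin n → X) (v : Fin n → Y), ∏ a, (cnt (fun p => (v p, u p)) a)! =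
      #{σ : Perm (Fin n) | Monotone ((fun p => toLex (v p, u p)) ∘ σ)} := fun u v =>
    (card_mono (L := Y ×ₗ X) _).symm
  simp only [← asc, e, card_filter, cast_sum, sum_mul, cast_ite, cast_one, cast_zero,
    ite_mul, one_mul, zero_mul, sum_filter]
  rw [← Fintype.sum_prod_type', ← Fintype.sum_prod_type', ← Fintype.sum_prod_type',
    ← Fintype.sum_prod_type', ← sum_filter, ← sum_filter]
  have key : ∀ (u : Fin n → X) (v : Fin n → Y) (σ : Perm (Fin n)),
      Monotone ((fun p => toLex (v p, u p)) ∘ σ) →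
      (sort (u ∘ ↑(σ * (sort v)⁻¹)))⁻¹ * sort v =
        sort (v ∘ ↑(((sort (u ∘ ↑(σ * (sort v)⁻¹)))⁻¹ * (σ * (sort v)⁻¹)⁻¹)⁻¹)) := by
    intro u v σ h
    have h1 : Monotone (v ∘ σ) := fun a b k => Prod.Lex.monotone_fst _ _ (h k)
    refine eq_sort_iff.mpr ⟨by convert h1 using 1; ext; simp, fun a b k e => ?_⟩
    simp only [Perm.coe_mul, Function.comp_apply, mul_inv_rev, inv_inv, Perm.coe_inv,
      apply_symm_apply, symm_apply_apply] at e ⊢
    have h2 := comp_sort_eq_comp_iff_monotone.mpr h1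
    refine rank_lt ((eq_sort_iff.mp rfl).2 a b k
      ((congrFun h2 a).symm.trans (e.trans (congrFun h2 b)))) ?_
    simpa [Prod.Lex.toLex_le_toLex, e] using h k.le
  refine sum_nbij' (fun t => ((t.2 ∘ t.1.2, t.1.1 ∘ t.1.2), t.1.2⁻¹ * sort t.1.1))
    (fun t => let π := (sort (t.1.1 ∘ ⇑(t.2 * (sort t.1.2)⁻¹)))⁻¹ * (t.2 * (sort t.1.2)⁻¹)⁻¹
      ((t.1.2 ∘ ⇑π⁻¹, π), t.1.1 ∘ ⇑π⁻¹)) ?_ ?_ ?_ ?_ ?_
  · rintro ⟨⟨c, π⟩, i⟩ h
    simp only [mem_filter_univ] at h ⊢
    intro a b k
    have h1 : Monotone i := by simpa [Function.comp_assoc] using (eq_sort_iff.mp h).1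
    rcases k.eq_or_lt with rfl | k
    · rfl
    simp only [Function.comp_apply, Perm.coe_mul, Perm.coe_inv, apply_symm_apply, Prod.Lex.toLex_le_toLex]
    exact (monotone_sort c k.le).lt_or_eq.imp_right fun e =>
      ⟨e, h1 ((eq_sort_iff.mp rfl).2 a b k e).le⟩
  · rintro ⟨⟨u, v⟩, σ⟩ h
    simp only [mem_filter_univ, fc] at h ⊢
    rw [← key u v σ h]
    simp only [Function.comp_assoc, ← Perm.coe_mul, inv_mul_cancel, Perm.coe_one, Function.comp_id,
      mul_inv_cancel_right]
    simp only [inv_inv, mul_inv_rev, mul_assoc, mul_inv_cancel, mul_one]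
  · rintro ⟨⟨c, π⟩, i⟩ h
    simp only [mem_filter_univ, fc] at h
    have : (i ∘ π) ∘ ↑(π⁻¹ * sort c * (sort (c ∘ π))⁻¹) = i ∘ ↑(sort c * (sort (c ∘ π))⁻¹) := by
      ext
      simp
    simp only [this, ← h]
    simp [Function.comp_assoc, mul_assoc]
  · rintro ⟨⟨u, v⟩, σ⟩ h
    simp only [mem_filter_univ] at h ⊢
    rw [← key u v σ h]
    simp only [Function.comp_assoc, ← Perm.coe_mul, inv_mul_cancel, Perm.coe_one, Function.comp_id]
    simp [mul_assoc]
  · rintro ⟨⟨c, π⟩, i⟩ _
    exact (Equiv.prod_comp π fun p => x (i p)).symm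

end Pool.Agent.H29.Jack
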