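import Mathlib

set_option autoImplicit false

namespace Pool.Agent.H29.KDim

/-- the `k`-dimension -/
noncomputable def dimk (k : ℕ) (P : Type) [PartialOrder P] : ℕ :=
  sInf {n | Nonempty (P ↪o (Fin n → Fin k))}

/-- `k`-irreducible poset -/
def Irred (k : ℕ) (Q : Type) [PartialOrder Q] : Prop :=
  ∀ x : Q, dimk k {y : Q // y ≠ x} < dimk k Q

end Pool.Agent.H29.KDim
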