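import Mathlib
import Pool.Agent.H29.KDimDefs

set_option autoImplicit false

namespace Pool.Agent.H29.KDim

/-- a finite poset on `Fin n` -/
structure FinPoset : Type where
  /-- number of points -/
  n : ℕ
  /-- the order -/
  ord : PartialOrder (Fin n)

/-- isomorphism of finite posets -/
def isoSetoid : Setoid FinPoset where
  r a b := Nonempty (@OrderIso (Fin a.n) (Fin b.n) a.ord.toLE b.ord.toLE)
  iseqv := ⟨fun a => ⟨@OrderIso.refl _ a.ord.toLE⟩,
    fun {a b} ⟨e⟩ => ⟨@OrderIso.symm _ _ a.ord.toLE b.ord.toLE e⟩,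
    fun {a b c} ⟨e⟩ ⟨f⟩ => ⟨@OrderIso.trans _ _ _ a.ord.toLE b.ord.toLE c.ord.toLE e f⟩⟩

/-- number of isomorphism classes of `k`-irreducible posets of `k`-dimension `t` -/
noncomputable def numIrr (k t : ℕ) : ℕ∞ :=
  {c : Quotient isoSetoid | ∃ a : FinPoset, Quotient.mk isoSetoid a = c ∧
    @Irred k (Fin a.n) a.ord ∧ @dimk k (Fin a.n) a.ord = t}.encard

end Pool.Agent.H29.KDim
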