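import Mathlib
import Pool.Agent.H29.KDimDefs

set_option autoImplicit false

namespace Pool.Agent.H29.KDim

theorem emb_mono {k : ℕ} {P : Type} [PartialOrder P] {n m : ℕ} (h : n ≤ m)
    (e : Nonempty (P ↪o (Fin n → Fin (k + 1)))) : Nonempty (P ↪o (Fin m → Fin (k + 1))) := by
  obtain ⟨e⟩ := e
  refine ⟨OrderEmbedding.ofMapLEIff (fun x i => if h : i.val < n then e x ⟨i, h⟩ else 0) ?_⟩
  intro a b
  rw [← e.le_iff_le]
  constructor
  · intro h1 i
    simpa using h1 ⟨i, by omega⟩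
  · intro h1 i
    dsimp only
    split_ifs
    · exact h1 _
    · exact le_rfl

theorem lt_dimk {k : ℕ} {P : Type} [PartialOrder P] {n m : ℕ}
    (e : Nonempty (P ↪o (Fin m → Fin (k + 1)))) (h : ¬ Nonempty (P ↪o (Fin n → Fin (k + 1)))) :
    n < dimk (k + 1) P := by
  by_contra hc
  exact h (emb_mono (not_lt.mp hc)
    (Nat.sInf_mem (s := {n | Nonempty (P ↪o (Fin n → Fin (k + 1)))}) ⟨m, e⟩))

section Gen
variable {G : Type} [PartialOrder G]

theorem emb_of_chains {K : ℕ} {I P : Type} [Fintype I] [PartialOrder P] (c : I → Fin K → G)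
    (hc : ∀ i, Monotone (c i)) (F : P → Set G) (hF : ∀ a, IsLowerSet (F a)) (hm : Monotone F)
    (h : ∀ a b, ¬ a ≤ b → ∃ i t, c i t ∈ F a ∧ c i t ∉ F b) :
    Nonempty (P ↪o (Fin (Fintype.card I) → Fin (K + 1))) := by
  classical
  let e := (Fintype.equivFin I).symm
  refine ⟨OrderEmbedding.ofMapLEIff (fun a i => ⟨(Finset.univ.filter fun t => c (e i) t ∈ F a).card,
    Nat.lt_succ_of_le ((Finset.card_le_univ _).trans (by simp))⟩) fun a b => ⟨fun h1 => ?_,
      fun h1 i => Finset.card_le_card fun t ht => ?_⟩⟩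
  · by_contra h2
    obtain ⟨i, t, h3, h4⟩ := h a b h2
    have h5 : (Finset.univ.filter fun t => c (e (e.symm i)) t ∈ F a).card ≤
      (Finset.univ.filter fun t => c (e (e.symm i)) t ∈ F b).card := h1 (e.symm i)
    rw [e.apply_symm_apply] at h5
    refine absurd h5 (not_le.mpr (Finset.card_lt_card ⟨fun s hs => ?_, fun hs => ?_⟩))
    · simp only [Finset.mem_filter, Finset.mem_univ, true_and] at hs ⊢
      rcases le_total s t with h6 | h6
      · exact hF a (hc i h6) h3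
      · exact absurd (hF b (hc i h6) hs) h4
    · exact h4 (by simpa using hs (Finset.mem_filter.mpr ⟨Finset.mem_univ t, h3⟩))
  · simp only [Finset.mem_filter, Finset.mem_univ, true_and] at ht ⊢
    exact hm h1 ht

/-- the family of principal down-sets and complements of principal up-sets -/
def R (G : Type) [PartialOrder G] : Set (Set G) :=
  {A | (∃ g, A = Set.Iic g) ∨ ∃ g, A = (Set.Ici g)ᶜ}

theorem R_lower {A : Set G} (h : A ∈ R G) : IsLowerSet A := by
  rcases h with ⟨g, rfl⟩ | ⟨g, rfl⟩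
  · exact isLowerSet_Iic g
  · exact (isUpperSet_Ici g).compl

theorem card_le [Fintype G] {K N : ℕ} (e : ↥(R G) ↪o (Fin N → Fin (K + 1))) :
    Fintype.card G ≤ N * K := by
  have h1 : ∀ g : G, ∃ i, e ⟨(Set.Ici g)ᶜ, Or.inr ⟨g, rfl⟩⟩ i < e ⟨Set.Iic g, Or.inl ⟨g, rfl⟩⟩ i := by
    intro g
    by_contra hc
    push Not at hc
    exact (e.le_iff_le.mp hc : Set.Iic g ⊆ (Set.Ici g)ᶜ) le_rfl le_rfl
  choose i hi using h1
  have key : ∀ g h : G, i g = i h → e ⟨(Set.Ici g)ᶜ, Or.inr ⟨g, rfl⟩⟩ (i g) =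
      e ⟨(Set.Ici h)ᶜ, Or.inr ⟨h, rfl⟩⟩ (i h) → h ≤ g := by
    intro g h h1 h2
    by_contra hc
    have h3 : (⟨Set.Iic g, Or.inl ⟨g, rfl⟩⟩ : ↥(R G)) ≤ ⟨(Set.Ici h)ᶜ, Or.inr ⟨h, rfl⟩⟩ :=
      fun x hx hx' => hc (le_trans hx' hx)
    have h4 := e.monotone h3 (i h)
    have h5 := hi g
    rw [h2, h1] at h5
    exact absurd h4 (not_le.mpr h5)
  have := Fintype.card_le_of_injective (fun g : G =>
    ((i g, ⟨(e ⟨(Set.Ici g)ᶜ, Or.inr ⟨g, rfl⟩⟩ (i g)).val, by
      have h1 := hi g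
      have h2 := (e ⟨Set.Iic g, Or.inl ⟨g, rfl⟩⟩ (i g)).2
      rw [Fin.lt_def] at h1
      omega⟩) : Fin N × Fin K)) (by
    intro g h hgh
    simp only [Prod.mk.injEq, Fin.mk.injEq] at hgh
    exact le_antisymm (key h g hgh.1.symm (Fin.ext hgh.2.symm)) (key g h hgh.1 (Fin.ext hgh.2)))
  simpa using this

end Gen

/-- the ground poset -/
def Gr (P : Type) (K : ℕ) : Type := Option ((P × Fin 3) × Fin (K + 1))

instance (P : Type) [Fintype P] (K : ℕ) : Fintype (Gr P K) :=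
  inferInstanceAs (Fintype (Option ((P × Fin 3) × Fin (K + 1))))

/-- its order -/
def le' {P : Type} [PartialOrder P] {K : ℕ} :
    Option ((P × Fin 3) × Fin (K + 1)) → Option ((P × Fin 3) × Fin (K + 1)) → Prop
  | none, none => True
  | some _, none => False
  | none, some y => y.1.2 = 0 ∧ y.2 ≠ 0
  | some x, some y => (x.1.2 = 0 ∧ x.2 = 0 ∧ x.1.1 ≤ y.1.1) ∨ (x.1 = y.1 ∧ x.2 ≤ y.2)

instance (P : Type) [PartialOrder P] (K : ℕ) : PartialOrder (Gr P K) where
  le := le'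
  le_refl := by
    rintro (_ | x)
    · trivial
    · exact Or.inr ⟨rfl, le_rfl⟩
  le_trans := by
    rintro (_ | x) (_ | y) (_ | z) h1 h2 <;> try first | trivial | exact h1.elim | exact h2.elim
    · rcases h2 with h2 | h2
      · exact absurd h2.2.1 h1.2
      · exact ⟨h2.1 ▸ h1.1, fun h => h1.2 (le_antisymm (h ▸ h2.2) (Fin.zero_le _))⟩
    · rcases h1 with h1 | h1 <;> rcases h2 with h2 | h2
      · exact Or.inl ⟨h1.1, h1.2.1, h1.2.2.trans h2.2.2⟩
      · exact Or.inl ⟨h1.1, h1.2.1, h2.1 ▸ h1.2.2⟩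
      · exact Or.inl ⟨h1.1 ▸ h2.1, le_antisymm (h2.2.1 ▸ h1.2) (Fin.zero_le _), h1.1 ▸ h2.2.2⟩
      · exact Or.inr ⟨h1.1.trans h2.1, h1.2.trans h2.2⟩
  le_antisymm := by
    rintro (_ | x) (_ | y) h1 h2 <;> try first | rfl | exact h1.elim | exact h2.elim
    congr 1
    rcases h1 with h1 | h1 <;> rcases h2 with h2 | h2
    · exact Prod.ext (Prod.ext (le_antisymm h1.2.2 h2.2.2) (h1.1.trans h2.1.symm))
        (h1.2.1.trans h2.2.1.symm)
    · exact Prod.ext h2.1.symm (le_antisymm (h1.2.1 ▸ Fin.zero_le _) h2.2)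
    · exact Prod.ext h1.1 (le_antisymm h1.2 (h2.2.1 ▸ Fin.zero_le _))
    · exact Prod.ext h1.1 (le_antisymm h1.2 h2.2)

/-- the copy of `P` -/
def hat {P : Type} (K : ℕ) (x : P) : Gr P K := some ((x, 0), 0)

theorem hat_le {P : Type} [PartialOrder P] (K : ℕ) (x y : P) : hat K x ≤ hat K y ↔ x ≤ y :=
  ⟨fun h => h.elim (fun h => h.2.2) (fun h => (congrArg Prod.fst h.1).le),
    fun h => Or.inl ⟨rfl, rfl, h⟩⟩

theorem crit {P : Type} [PartialOrder P] [Fintype P] (K : ℕ) (x : P) (S : Set (Set (Gr P K)))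
    (hS : S ⊆ R (Gr P K)) (hx : Set.Iic (hat K x) ∉ S) :
    Nonempty (↥S ↪o (Fin (Fintype.card (P × Fin 3)) → Fin (K + 1 + 1))) := by
  classical
  refine emb_of_chains (G := Gr P K)
    (fun i t => if i = (x, 0) ∧ t = 0 then none else some (i, t)) ?_ Subtype.val
    (fun a => R_lower (hS a.2)) (fun _ _ h => h) ?_
  · intro i s t hst
    dsimp only
    split_ifs with h1 h2 h2
    · trivial
    · exact ⟨by rw [h1.1], fun h => h2 ⟨h1.1, h⟩⟩
    · exact absurd ⟨h2.1, le_antisymm (h2.2 ▸ hst) (Fin.zero_le _)⟩ h1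
    · exact Or.inr ⟨rfl, hst⟩
  · intro A B hAB
    obtain ⟨g, h1, h2, h3⟩ : ∃ g, g ∈ A.1 ∧ g ∉ B.1 ∧ g ≠ hat K x := by
      by_contra hc
      push Not at hc
      obtain ⟨g, g1, g2⟩ := Set.not_subset.mp hAB
      obtain rfl := hc g g1 g2
      have hB := R_lower (hS B.2)
      rcases hS A.2 with ⟨g, hg⟩ | ⟨g, hg⟩
      · have h4 := hc g (by rw [hg]; exact le_refl g)
          (fun h => g2 (hB (show hat K x ≤ g by rwa [hg] at g1) h))
        exact hx (by rw [← h4, ← hg]; exact A.2)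
      · have h4 : ∀ a : Fin 3, a ≠ 0 → g ≤ (some ((x, a), 0) : Gr P K) := by
          intro a ha
          by_contra h5
          have h6 := hc (some ((x, a), 0)) (by rw [hg]; exact h5)
            (fun h => g2 (hB (Or.inl ⟨rfl, rfl, le_rfl⟩ : hat K x ≤ some ((x, a), 0)) h))
          exact ha (congrArg (fun z => z.1.2) (Option.some.inj h6))
        have h5 := h4 1 (by decide)
        have h6 := h4 2 (by decide)
        rw [hg] at g1
        apply g1
        rcases g with _ | g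
        · exact absurd h5.1 (by decide : ¬ (1 : Fin 3) = 0)
        · rcases h5 with h5 | h5
          · exact Or.inl h5
          · rcases h6 with h6 | h6
            · exact Or.inl h6
            · exact absurd (congrArg Prod.snd (h5.1.symm.trans h6.1)) (by decide : ¬ (1 : Fin 3) = 2)
    rcases g with _ | ⟨i, t⟩
    · exact ⟨(x, 0), 0, by simpa using h1, by simpa using h2⟩
    · have : ¬ (i = (x, 0) ∧ t = 0) := fun h => h3 (by rw [h.1, h.2]; rfl)
      exact ⟨i, t, by rwa [if_neg this], by rwa [if_neg this]⟩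

theorem main (K : ℕ) (P : Type) [Fintype P] [PartialOrder P] :
    ∃ (Q : Type) (_ : Fintype Q) (_ : PartialOrder Q), Irred (K + 2) Q ∧ Nonempty (P ↪o Q) ∧
      dimk (K + 2) P < dimk (K + 2) Q := by
  classical
  set N := Fintype.card (P × Fin 3) with hN
  have h1 : ¬ Nonempty (↥(R (Gr P K)) ↪o (Fin N → Fin (K + 1 + 1))) := by
    rintro ⟨e⟩
    have := card_le e
    have h2 : Fintype.card (Gr P K) = N * (K + 1) + 1 := by
      change Fintype.card (Option ((P × Fin 3) × Fin (K + 1))) = _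
      rw [Fintype.card_option, Fintype.card_prod, Fintype.card_fin]
    omega
  obtain ⟨S, hS⟩ := exists_minimal_of_wellFoundedLT (fun S : Set (Set (Gr P K)) =>
    S ⊆ R (Gr P K) ∧ ¬ Nonempty (↥S ↪o (Fin N → Fin (K + 1 + 1)))) ⟨_, le_rfl, h1⟩
  have h2 : N < dimk (K + 2) ↥S := lt_dimk (emb_of_chains (G := Gr P K) (K := K + 1)
    (fun i _ => i) (fun _ => monotone_const) Subtype.val (fun a => R_lower (hS.1.1 a.2))
    (fun _ _ h => h) (fun A B h => by
      obtain ⟨g, g1, g2⟩ := Set.not_subset.mp h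
      exact ⟨g, 0, g1, g2⟩)) hS.1.2
  refine ⟨↥S, Fintype.ofFinite _, inferInstance, fun x => lt_of_le_of_lt ?_ h2, ?_,
    lt_of_le_of_lt ?_ h2⟩
  · have h3 : Nonempty (↥(S \ {x.1}) ↪o (Fin N → Fin (K + 1 + 1))) := by
      by_contra hc
      exact (hS.2 ⟨Set.sdiff_subset.trans hS.1.1, hc⟩ Set.sdiff_subset x.2).2 rfl
    obtain ⟨e⟩ := h3
    exact Nat.sInf_le ⟨(OrderEmbedding.ofMapLEIff (fun y : {y : ↥S // y ≠ x} =>
      (⟨y.1.1, y.1.2, fun h => y.2 (Subtype.ext h)⟩ : ↥(S \ {x.1}))) fun _ _ => Iff.rfl).trans e⟩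
  · refine ⟨OrderEmbedding.ofMapLEIff (fun x => ⟨Set.Iic (hat K x), ?_⟩) fun a b => ?_⟩
    · by_contra hc
      exact hS.1.2 (crit K x S hS.1.1 hc)
    · exact Set.Iic_subset_Iic.trans (hat_le K a b)
  · refine Nat.sInf_le (emb_of_chains (G := Gr P K) (K := K + 1) (fun i t => some (i, t))
      (fun i s t h => Or.inr ⟨rfl, h⟩) (fun x => Set.Iic (hat K x)) (fun _ => isLowerSet_Iic _)
      (fun a b h => Set.Iic_subset_Iic.mpr ((hat_le K a b).mpr h)) fun a b h => ?_)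
    exact ⟨(a, 0), 0, le_refl (hat K a), fun h' => h ((hat_le K a b).mp h')⟩

end Pool.Agent.H29.KDim
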