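import Mathlib
import Pool.Agent.H29.KIrred
import Pool.Agent.H29.KCountDefs

set_option autoImplicit false

namespace Pool.Agent.H29.KDim

theorem main2 (K : ℕ) (P : Type) [Fintype P] [PartialOrder P] :
    ∃ (Q : Type) (_ : Fintype Q) (_ : PartialOrder Q), Irred (K + 2) Q ∧ Nonempty (P ↪o Q) ∧
      dimk (K + 2) Q = Fintype.card P * 3 + 1 ∧
      Fintype.card Q ≤ 2 * (Fintype.card P * 3 * (K + 1) + 1) := by
  classical
  set N := Fintype.card (P × Fin 3) with hN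
  have hN' : N = Fintype.card P * 3 := by simp [hN]
  have h0 : Fintype.card (Gr P K) = N * (K + 1) + 1 := by
    change Fintype.card (Option ((P × Fin 3) × Fin (K + 1))) = _
    rw [Fintype.card_option, Fintype.card_prod, Fintype.card_fin]
  have h1 : ¬ Nonempty (↥(R (Gr P K)) ↪o (Fin N → Fin (K + 1 + 1))) := by
    rintro ⟨e⟩
    have := card_le e
    omega
  obtain ⟨S, hS⟩ := exists_minimal_of_wellFoundedLT (fun S : Set (Set (Gr P K)) =>
    S ⊆ R (Gr P K) ∧ ¬ Nonempty (↥S ↪o (Fin N → Fin (K + 1 + 1)))) ⟨_, le_rfl, h1⟩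
  have h4 := emb_of_chains (G := Gr P K) (K := K + 1) (I := Option (P × Fin 3)) (P := ↥S)
    (fun i t => i.map fun j => (j, t)) (by
      rintro (_ | i) s t h
      · trivial
      · exact Or.inr ⟨rfl, h⟩) Subtype.val (fun a => R_lower (hS.1.1 a.2))
    (fun _ _ h => h) (fun A B h => by
      obtain ⟨g, g1, g2⟩ := Set.not_subset.mp h
      rcases g with _ | ⟨i, t⟩
      · exact ⟨none, 0, g1, g2⟩
      · exact ⟨some i, t, g1, g2⟩)
  have h2 : N < dimk (K + 2) ↥S := lt_dimk h4 hS.1.2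
  have h5 : dimk (K + 2) ↥S ≤ N + 1 := by
    rw [Fintype.card_option] at h4
    exact Nat.sInf_le h4
  refine ⟨↥S, Fintype.ofFinite _, inferInstance, fun x => lt_of_le_of_lt ?_ h2, ?_,
    by omega, ?_⟩
  · have h3 : Nonempty (↥(S \ {x.1}) ↪o (Fin N → Fin (K + 1 + 1))) := by
      by_contra hc
      exact (hS.2 ⟨Set.sdiff_subset.trans hS.1.1, hc⟩ Set.sdiff_subset x.2).2 rfl
    obtain ⟨e⟩ := h3
    exact Nat.sInf_le ⟨(OrderEmbedding.ofMapLEIff (fun y : {y : ↥S // y ≠ x} =>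
      (⟨y.1.1, y.1.2, fun h => y.2 (Subtype.ext h)⟩ : ↥(S \ {x.1}))) fun _ _ => Iff.rfl).trans e⟩
  · refine ⟨OrderEmbedding.ofMapLEIff (fun x => ⟨Set.Iic (hat K x), ?_⟩) fun a b => ?_⟩
    · by_contra hc
      exact hS.1.2 (crit K x S hS.1.1 hc)
    · exact Set.Iic_subset_Iic.trans (hat_le K a b)
  · have h6 : S ⊆ Set.range (fun g : Gr P K => Set.Iic g) ∪
        Set.range (fun g : Gr P K => (Set.Ici g)ᶜ) := fun A hA =>
      (hS.1.1 hA).imp (fun ⟨g, h⟩ => ⟨g, h.symm⟩) (fun ⟨g, h⟩ => ⟨g, h.symm⟩)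
    have h7 := (Set.ncard_le_ncard h6).trans (Set.ncard_union_le _ _)
    have h8 : ∀ f : Gr P K → Set (Gr P K), (Set.range f).ncard ≤ N * (K + 1) + 1 := fun f => by
      rw [← Set.image_univ, ← h0]
      exact (Set.ncard_image_le).trans (by simp)
    have h9 := h8 (fun g : Gr P K => Set.Iic g)
    have h10 := h8 (fun g : Gr P K => (Set.Ici g)ᶜ)
    rw [← @Nat.card_eq_fintype_card _ (Fintype.ofFinite _), Nat.card_coe_set_eq, ← hN']
    omega

theorem dimk_congr (k : ℕ) {P Q : Type} [PartialOrder P] [PartialOrder Q] (e : P ≃o Q) :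
    dimk k P = dimk k Q := by
  unfold dimk
  congr 1
  ext n
  exact ⟨fun ⟨f⟩ => ⟨e.symm.toOrderEmbedding.trans f⟩, fun ⟨f⟩ => ⟨e.toOrderEmbedding.trans f⟩⟩

theorem irred_congr (k : ℕ) {P Q : Type} [PartialOrder P] [PartialOrder Q] (e : P ≃o Q)
    (h : Irred k Q) : Irred k P := by
  intro x
  rw [dimk_congr k e, dimk_congr k (Q := {y : Q // y ≠ e x})
    ⟨e.toEquiv.subtypeEquiv fun a => e.injective.ne_iff.symm, fun {a b} => e.le_iff_le⟩]
  exact h _

theorem main3 (K : ℕ) (P : Type) [Fintype P] [PartialOrder P] :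
    ∃ a : FinPoset, @Irred (K + 2) (Fin a.n) a.ord ∧
      @dimk (K + 2) (Fin a.n) a.ord = Fintype.card P * 3 + 1 ∧
      a.n ≤ 2 * (Fintype.card P * 3 * (K + 1) + 1) ∧
      ∃ f : P → Fin a.n, ∀ x y, x ≤ y ↔ a.ord.le (f x) (f y) := by
  obtain ⟨Q, _, _, h1, ⟨f⟩, h2, h3⟩ := main2 K P
  let e := (Fintype.equivFin Q).symm
  let o : PartialOrder (Fin (Fintype.card Q)) := PartialOrder.lift e e.injective
  let i : @OrderIso (Fin (Fintype.card Q)) Q o.toLE _ := ⟨e, Iff.rfl⟩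
  refine ⟨⟨_, o⟩, @irred_congr _ _ _ o _ i h1, (@dimk_congr _ _ _ o _ i).trans h2, h3,
    fun x => e.symm (f x), fun x y => ?_⟩
  change _ ↔ e (e.symm (f x)) ≤ e (e.symm (f y))
  simp

/-- height-two posets -/
def BP {m : ℕ} (_M : Fin m × Fin m → Bool) : Type := Fin m ⊕ Fin m

instance {m : ℕ} (M : Fin m × Fin m → Bool) : Fintype (BP M) :=
  inferInstanceAs (Fintype (Fin m ⊕ Fin m))

instance {m : ℕ} (M : Fin m × Fin m → Bool) : PartialOrder (BP M) where
  le x y := x = y ∨ ∃ a b, x = Sum.inl a ∧ y = Sum.inr b ∧ M (a, b) = true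
  le_refl := fun _ => Or.inl rfl
  le_trans := by
    rintro a b c (rfl | h1) (rfl | h2)
    · exact Or.inl rfl
    · exact Or.inr h2
    · exact Or.inr h1
    · obtain ⟨_, _, _, h3, _⟩ := h1
      obtain ⟨_, _, h4, _⟩ := h2
      exact absurd (h3.symm.trans h4) Sum.inr_ne_inl
  le_antisymm := by
    rintro a b (rfl | h1) (h2 | h2)
    · rfl
    · rfl
    · exact h2.symm
    · obtain ⟨_, _, _, h3, _⟩ := h1
      obtain ⟨_, _, h4, _⟩ := h2
      exact absurd (h3.symm.trans h4) Sum.inr_ne_inl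

theorem BP_le {m : ℕ} (M : Fin m × Fin m → Bool) (a b : Fin m) :
    @LE.le (BP M) _ (Sum.inl a) (Sum.inr b) ↔ M (a, b) = true := by
  refine ⟨?_, fun h => Or.inr ⟨a, b, rfl, rfl, h⟩⟩
  rintro (h | ⟨c, d, h1, h2, h3⟩)
  · exact absurd h Sum.inl_ne_inr
  · rwa [Sum.inl.inj h1, Sum.inr.inj h2]

theorem count (K m : ℕ) : ((2 ^ (m * m) : ℕ) : ℕ∞) ≤
    numIrr (K + 2) (6 * m + 1) * ((12 * m * (K + 1) + 2) ^ (2 * m) : ℕ) := by
  classical
  set q := 12 * m * (K + 1) + 2 with hq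
  set C := {c : Quotient isoSetoid | ∃ a : FinPoset, Quotient.mk isoSetoid a = c ∧
    @Irred (K + 2) (Fin a.n) a.ord ∧ @dimk (K + 2) (Fin a.n) a.ord = 6 * m + 1} with hC
  have key : ∀ M : Fin m × Fin m → Bool, ∃ c : Quotient isoSetoid, c ∈ C ∧ c.out.n ≤ q ∧
      ∃ f : Fin m ⊕ Fin m → Fin c.out.n, ∀ a b,
        M (a, b) = true ↔ c.out.ord.le (f (Sum.inl a)) (f (Sum.inr b)) := by
    intro M
    obtain ⟨a, h1, h2, h3, f, h4⟩ := main3 K (BP M)
    have h5 : Fintype.card (BP M) = m + m := by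
      change Fintype.card (Fin m ⊕ Fin m) = _
      simp
    rw [h5] at h2 h3
    obtain ⟨e⟩ : isoSetoid.r a (Quotient.mk isoSetoid a).out :=
      Quotient.exact (Quotient.out_eq (Quotient.mk isoSetoid a)).symm
    refine ⟨Quotient.mk isoSetoid a, ⟨a, rfl, h1, by omega⟩, ?_, fun x => e (f x), fun x y => ?_⟩
    · have := Fintype.card_congr e.toEquiv
      simp only [Fintype.card_fin] at this
      rw [← this, hq]
      nlinarith
    · rw [← BP_le, h4]
      exact e.map_rel_iff.symm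
  choose c h1 h2 f h3 using key
  have hinj : Function.Injective (fun M : Fin m × Fin m → Bool =>
      ((⟨c M, h1 M⟩, fun x => (f M x).castLE (h2 M)) : ↥C × (Fin m ⊕ Fin m → Fin q))) := by
    intro M M' h
    simp only [Prod.mk.injEq, Subtype.mk.injEq] at h
    funext ⟨a, b⟩
    have h4 := h3 M a b
    have h5 := h3 M' a b
    have h6 : ∀ x, (f M x).val = (f M' x).val := fun x => by
      simpa using congrArg Fin.val (congrFun h.2 x)
    have h7 : ∀ (d d' : Quotient isoSetoid), d = d' → ∀ (x y : Fin d.out.n) (x' y' : Fin d'.out.n),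
        x.val = x'.val → y.val = y'.val → (d.out.ord.le x y ↔ d'.out.ord.le x' y') := by
      rintro d _ rfl x y x' y' e1 e2
      rw [Fin.ext e1, Fin.ext e2]
    exact Bool.eq_iff_iff.mpr (h4.trans ((h7 _ _ h.1 _ _ _ _ (h6 _) (h6 _)).trans h5.symm))
  have := ENat.card_le_card_of_injective hinj
  rw [ENat.card_prod, ENat.card_eq_coe_fintype_card, ENat.card_eq_coe_fintype_card (α := _ → _),
    Fintype.card_fun, Fintype.card_fun, Fintype.card_prod, Fintype.card_sum, Fintype.card_bool,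
    Fintype.card_fin, Fintype.card_fin, ← two_mul] at this
  exact this

theorem pow4 (m : ℕ) (h : 16 ≤ m) : m ^ 4 ≤ 2 ^ m := by
  induction m, h using Nat.le_induction with
  | base => norm_num
  | succ n hn ih =>
    have h1 : (n + 1) ^ 4 ≤ 2 * n ^ 4 := by
      obtain ⟨s, rfl⟩ : ∃ s, n = s + 16 := ⟨n - 16, by omega⟩
      ring_nf
      omega
    rw [pow_succ 2]
    omega

theorem superpoly (K c C t₀ : ℕ) :
    ∃ t, t₀ ≤ t ∧ ((C * t ^ c : ℕ) : ℕ∞) < numIrr (K + 2) t := by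
  obtain ⟨m, hm⟩ : ∃ m, m = 16 + c + C + t₀ + (14 * (K + 1)) ^ 3 := ⟨_, rfl⟩
  refine ⟨6 * m + 1, by omega, ?_⟩
  by_contra hc
  have h1 := (count K m).trans (mul_le_mul_left (not_lt.mp hc) _)
  rw [← Nat.cast_mul, Nat.cast_le] at h1
  obtain ⟨q, hq⟩ : ∃ q, q = 12 * m * (K + 1) + 2 := ⟨_, rfl⟩
  rw [← hq] at h1
  have q0 : 1 ≤ m := by omega
  have q1 : 6 * m + 1 ≤ q := by nlinarith
  have q2 : C < q := by omega
  have q3 : q ≤ 14 * (K + 1) * m := by nlinarith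
  have q7 : 0 < q := by omega
  have q4 : q ^ 3 ≤ 2 ^ m := by
    refine le_trans ?_ (pow4 m (by omega))
    calc q ^ 3 ≤ (14 * (K + 1) * m) ^ 3 := Nat.pow_le_pow_left q3 3
      _ = (14 * (K + 1)) ^ 3 * m ^ 3 := by ring
      _ ≤ m * m ^ 3 := Nat.mul_le_mul_right _ (by omega)
      _ = m ^ 4 := by ring
  have q5 : C * (6 * m + 1) ^ c < q ^ m :=
    calc C * (6 * m + 1) ^ c ≤ C * q ^ c := Nat.mul_le_mul_left _ (Nat.pow_le_pow_left q1 c)
      _ < q * q ^ c := Nat.mul_lt_mul_of_pos_right q2 (by positivity)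
      _ = q ^ (c + 1) := by ring
      _ ≤ q ^ m := Nat.pow_le_pow_right (by omega) (by omega)
  have q6 : C * (6 * m + 1) ^ c * q ^ (2 * m) < 2 ^ (m * m) :=
    calc C * (6 * m + 1) ^ c * q ^ (2 * m) < q ^ m * q ^ (2 * m) :=
          Nat.mul_lt_mul_of_pos_right q5 (by positivity)
      _ = (q ^ 3) ^ m := by ring
      _ ≤ (2 ^ m) ^ m := Nat.pow_le_pow_left q4 m
      _ = 2 ^ (m * m) := by ring
  omega

end Pool.Agent.H29.KDim
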