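import Mathlib

set_option autoImplicit false

namespace Pool.Agent.H29.LPP

/-- the map `t` -/
def tmap {F : Type} [Field F] [Fintype F] (x : F) : F :=
  x + ∑ k ∈ Finset.range (Fintype.card F - 1), x ^ k

/-- `fn n` is the function `f_{n+1}` of `n + 1` variables -/
def fn {F : Type} [Field F] [Fintype F] : (n : ℕ) → (Fin (n + 1) → F) → F
  | 0, x => x 0
  | n + 1, x => tmap (fn n (Fin.init x) ^ (Fintype.card F - 2) +
      x (Fin.last _) ^ (Fintype.card F - 2))

/-- `P` is the reduced form of the function `f` -/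
def IsReducedForm {F : Type} [Field F] [Fintype F] {n : ℕ} (f : (Fin n → F) → F)
    (P : MvPolynomial (Fin n) F) : Prop :=
  (∀ i, P.degreeOf i < Fintype.card F) ∧ ∀ x, MvPolynomial.eval x P = f x

end Pool.Agent.H29.LPP
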