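import Mathlib
import Pool.Agent.H29.LPPDefs

set_option autoImplicit false

namespace Pool.Agent.H29.LPP

instance fact7 : Fact (Nat.Prime 7) := ⟨by norm_num⟩

/-- one step -/
def st (y x : ZMod 7) : ZMod 7 :=
  y ^ 5 + x ^ 5 + ∑ k ∈ Finset.range 6, (y ^ 5 + x ^ 5) ^ k

theorem fn_succ (n : ℕ) (x : Fin (n + 2) → ZMod 7) :
    fn (n + 1) x = st (fn n (Fin.init x)) (x (Fin.last _)) := by
  simp only [fn, tmap, st, ZMod.card]

/-- weighted sum -/
def T (n : ℕ) (w : Fin (n + 1) → ZMod 7 → ZMod 7) (φ : ZMod 7 → ZMod 7) : ZMod 7 :=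
  ∑ x : Fin (n + 1) → ZMod 7, (∏ i, w i (x i)) * φ (fn n x)

theorem T_zero (w : Fin 1 → ZMod 7 → ZMod 7) (φ : ZMod 7 → ZMod 7) :
    T 0 w φ = ∑ y, w 0 y * φ y := by
  unfold T
  refine Fintype.sum_equiv (Equiv.funUnique (Fin 1) (ZMod 7)) _ _ fun x => ?_
  simp [fn]

theorem T_succ (n : ℕ) (w : Fin (n + 2) → ZMod 7 → ZMod 7) (φ : ZMod 7 → ZMod 7) :
    T (n + 1) w φ = T n (Fin.init w) (fun y => ∑ z, w (Fin.last _) z * φ (st y z)) := by
  unfold T
  rw [← (Fin.snocEquiv (fun _ : Fin (n + 2) => ZMod 7)).sum_comp, Fintype.sum_prod_type,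
    Finset.sum_comm]
  refine Finset.sum_congr rfl fun x _ => ?_
  rw [Finset.mul_sum]
  refine Finset.sum_congr rfl fun z _ => ?_
  rw [fn_succ, Fin.prod_univ_castSucc]
  simp only [Fin.snocEquiv_apply, Fin.init, Fin.snoc_castSucc, Fin.snoc_last]
  have : (Fin.init (Fin.snoc (α := fun _ : Fin (n + 2) => ZMod 7) x z)) = x := Fin.init_snoc _ _
  change _ * φ (st (fn n (Fin.init (Fin.snoc (α := fun _ : Fin (n + 2) => ZMod 7) x z))) z) = _
  rw [this]
  ring

theorem bij1 (y : ZMod 7) : Function.Bijective (st y) := by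
  rw [← Finite.injective_iff_bijective]
  revert y
  unfold Function.Injective
  decide +kernel

theorem bij2 (z : ZMod 7) : Function.Bijective (fun y => st y z) := by
  rw [← Finite.injective_iff_bijective]
  revert z
  unfold Function.Injective
  decide +kernel

theorem T_const (n : ℕ) : ∀ (w : Fin (n + 1) → ZMod 7 → ZMod 7) (φ : ZMod 7 → ZMod 7),
    ∑ y, φ y = 0 → (∃ i c, ∀ y, w i y = c) → T n w φ = 0 := by
  induction n with
  | zero =>
    rintro w φ h ⟨i, c, hc⟩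
    obtain rfl : i = 0 := Fin.ext (by omega)
    rw [T_zero]
    simp only [hc, ← Finset.mul_sum, h, mul_zero]
  | succ n ih =>
    rintro w φ h ⟨i, c, hc⟩
    rw [T_succ]
    rcases Fin.eq_castSucc_or_eq_last i with ⟨j, rfl⟩ | rfl
    · refine ih _ _ ?_ ⟨j, c, hc⟩
      rw [Finset.sum_comm]
      refine Finset.sum_eq_zero fun z _ => ?_
      rw [← Finset.mul_sum, (bij2 z).sum_comp φ, h, mul_zero]
    · have : (fun y => ∑ z, w (Fin.last _) z * φ (st y z)) = fun _ => 0 := by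
        ext y
        simp only [hc, ← Finset.mul_sum]
        rw [(bij1 y).sum_comp φ, h, mul_zero]
      rw [this]
      simp [T]

/-- dual weights -/
def wt (m : ℕ) (y : ZMod 7) : ZMod 7 := if m = 0 then (if y = 0 then 1 else 0) else - y ^ (6 - m)

theorem wt_sum (m d : ℕ) (hm : m < 7) (hd : d < 7) :
    ∑ y, wt m y * y ^ d = if m = d then 1 else 0 := by
  interval_cases m <;> interval_cases d <;> decide +kernel

theorem coeff_eq {n : ℕ} (P : MvPolynomial (Fin n) (ZMod 7)) (hP : ∀ i, P.degreeOf i < 7)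
    (m : Fin n →₀ ℕ) (hm : ∀ i, m i < 7) :
    ∑ x : Fin n → ZMod 7, (∏ i, wt (m i) (x i)) * MvPolynomial.eval x P = P.coeff m := by
  simp only [MvPolynomial.eval_eq', Finset.mul_sum]
  rw [Finset.sum_comm]
  have : ∀ d ∈ P.support, ∑ x : Fin n → ZMod 7, (∏ i, wt (m i) (x i)) *
      (P.coeff d * ∏ i, x i ^ d i) = if m = d then P.coeff d else 0 := by
    intro d hd
    have h1 : ∀ i, d i < 7 := fun i =>
      lt_of_le_of_lt (MvPolynomial.monomial_le_degreeOf i hd) (hP i)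
    have h2 : ∑ x : Fin n → ZMod 7, ∏ i, (wt (m i) (x i) * x i ^ d i) =
        ∏ i, ∑ y, wt (m i) y * y ^ d i := by
      rw [Finset.prod_univ_sum, Fintype.piFinset_univ]
    have h3 : ∀ x : Fin n → ZMod 7, (∏ i, wt (m i) (x i)) * (P.coeff d * ∏ i, x i ^ d i) =
        P.coeff d * ∏ i, (wt (m i) (x i) * x i ^ d i) := fun x => by
      rw [Finset.prod_mul_distrib]; ring
    simp only [h3, ← Finset.mul_sum, h2]
    simp only [fun i => wt_sum (m i) (d i) (hm i) (h1 i)]
    split_ifs with h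
    · simp [h]
    · obtain ⟨i, hi⟩ : ∃ i, m i ≠ d i := by
        by_contra hc
        push Not at hc
        exact h (Finsupp.ext hc)
      rw [Finset.prod_eq_zero (Finset.mem_univ i) (if_neg hi), mul_zero]
  rw [Finset.sum_congr rfl this, Finset.sum_ite_eq]
  split_ifs with h
  · rfl
  · exact (MvPolynomial.notMem_support_iff.mp h).symm

theorem stepT (n : ℕ) (φ ψ : ZMod 7 → ZMod 7) (h : ∀ y, ∑ z, wt 5 z * φ (st y z) = ψ y) :
    T (n + 1) (fun _ => wt 5) φ = T n (fun _ => wt 5) ψ := by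
  rw [T_succ, ← funext h]
  rfl

/-- table -/
def tb (l : List (ZMod 7)) (y : ZMod 7) : ZMod 7 := l.getD y.val 0

theorem top_zero : T 9 (fun _ => wt 5) id = 0 := by
  rw [stepT 8 _ (tb [2, 2, 5, 2, 4, 2, 4]) (by decide +kernel),
    stepT 7 _ (tb [0, 2, 4, 1, 2, 5, 0]) (by decide +kernel),
    stepT 6 _ (tb [2, 2, 2, 4, 2, 6, 3]) (by decide +kernel),
    stepT 5 _ (tb [0, 2, 1, 0, 4, 0, 0]) (by decide +kernel),
    stepT 4 _ (tb [2, 2, 1, 1, 6, 0, 2]) (by decide +kernel),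
    stepT 3 _ (tb [0, 3, 4, 2, 2, 3, 0]) (by decide +kernel),
    stepT 2 _ (tb [3, 3, 0, 4, 1, 5, 5]) (by decide +kernel),
    stepT 1 _ (tb [0, 6, 0, 6, 0, 2, 0]) (by decide +kernel),
    stepT 0 _ (tb [6, 6, 2, 0, 1, 1, 5]) (by decide +kernel), T_zero]
  decide +kernel

theorem exists_red {n : ℕ} (f : (Fin n → ZMod 7) → ZMod 7) : ∃ P, IsReducedForm f P := by
  have : f ∈ (MvPolynomial.restrictDegree (Fin n) (ZMod 7) (Fintype.card (ZMod 7) - 1)).map
      (MvPolynomial.evalₗ (ZMod 7) (Fin n)) := by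
    rw [MvPolynomial.map_restrict_dom_evalₗ]; trivial
  obtain ⟨P, h1, h2⟩ := this
  refine ⟨P, fun i => ?_, fun x => by rw [← h2]; rfl⟩
  have h3 := (MvPolynomial.mem_restrictDegree _ _ _).mp h1
  have : P.degreeOf i ≤ Fintype.card (ZMod 7) - 1 :=
    MvPolynomial.degreeOf_le_iff.mpr fun m hm => h3 m hm i
  rw [ZMod.card] at this ⊢
  omega

theorem deg_lt (P : MvPolynomial (Fin 10) (ZMod 7)) (h : IsReducedForm (fn 9) P) :
    P.totalDegree < 50 := by
  have h1 : ∀ i, P.degreeOf i < 7 := fun i => by simpa using h.1 i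
  rw [MvPolynomial.totalDegree, Finset.sup_lt_iff (by norm_num)]
  intro m hm
  have h2 : ∀ i, m i < 7 := fun i =>
    lt_of_le_of_lt (MvPolynomial.monomial_le_degreeOf i hm) (h1 i)
  have h3 : T 9 (fun i => wt (m i)) id ≠ 0 := by
    have := coeff_eq P h1 m h2
    simp only [h.2] at this
    exact fun h0 => MvPolynomial.mem_support_iff.mp hm (this.symm.trans h0)
  have h4 : ∀ i, m i ≤ 5 := by
    intro i
    by_contra hc
    have h5 : m i = 6 := by have := h2 i; omega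
    exact h3 (T_const 9 _ _ (by decide +kernel) ⟨i, -1, fun y => by simp [wt, h5]⟩)
  obtain ⟨j, hj⟩ : ∃ j, m j < 5 := by
    by_contra hc
    push Not at hc
    have : (fun i => wt (m i)) = fun _ => wt 5 := funext fun i => by
      rw [le_antisymm (h4 i) (hc i)]
    rw [this] at h3
    exact h3 top_zero
  rw [Finsupp.sum_fintype _ _ (fun _ => rfl)]
  have := Finset.sum_lt_sum (s := Finset.univ) (fun i _ => h4 i) ⟨j, Finset.mem_univ _, hj⟩
  simpa using this

end Pool.Agent.H29.LPP
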