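import Mathlib

set_option autoImplicit false

namespace Pool.Agent.H29.MFunc

/-- completary multifuncoid -/
def IsCM {U n : Type} (f : Set (n → Set U)) : Prop :=
  (∀ L₀ L₁ : n → Set U, (fun i => L₀ i ∪ L₁ i) ∈ f ↔
    ∃ c : n → Bool, (fun i => if c i = true then L₁ i else L₀ i) ∈ f) ∧
  ∀ L : n → Set U, (∃ i, L i = ∅) → L ∉ f

/-- atom of the poset of completary multifuncoids -/
def IsAtomCM {U n : Type} (a : Set (n → Set U)) : Prop :=
  IsCM a ∧ a ≠ ∅ ∧ ∀ g, IsCM g → g ≠ ∅ → g ⊆ a → g = a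

/-- least upper bound in the poset of completary multifuncoids -/
def IsLubCM {U n : Type} (A : Set (Set (n → Set U))) (f : Set (n → Set U)) : Prop :=
  (∀ a ∈ A, a ⊆ f) ∧ ∀ g, IsCM g → (∀ a ∈ A, a ⊆ g) → f ⊆ g

end Pool.Agent.H29.MFunc
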