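import Mathlib

set_option linter.unusedSectionVars false

namespace Pool.Agent.H29.MN

open Finset

/-- `G` has a `K_t` minor: `t` disjoint connected branch sets, pairwise joined by an edge -/
def HasK {V : Type} (G : SimpleGraph V) (t : ℕ) : Prop :=
  ∃ B : Fin t → Set V, (∀ i, (G.induce (B i)).Connected) ∧ (∀ i j, i ≠ j → Disjoint (B i) (B j)) ∧
    ∀ i j, i ≠ j → ∃ x ∈ B i, ∃ y ∈ B j, G.Adj x y

variable {V : Type} [DecidableEq V]

lemma greedy (bad : V → V → Prop) [DecidableRel bad] (hs : ∀ a b, bad a b → bad b a) (N : Finset V)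
    (D : ℕ) (h : ∀ y ∈ N, (N.filter (bad y)).card ≤ D) :
    ∃ I ⊆ N, N.card ≤ (D + 1) * I.card ∧ ∀ a ∈ I, ∀ b ∈ I, a ≠ b → ¬ bad a b := by
  classical
  obtain ⟨I, hI, hm⟩ := exists_max_image
    (N.powerset.filter (fun I => ∀ a ∈ I, ∀ b ∈ I, a ≠ b → ¬ bad a b)) card ⟨∅, by simp⟩
  simp only [mem_filter, mem_powerset] at hI hm
  refine ⟨I, hI.1, ?_, hI.2⟩
  have : N ⊆ I.biUnion (fun y => insert y (N.filter (bad y))) := by
    intro x hx
    by_contra hn
    simp only [mem_biUnion, mem_insert, mem_filter, not_exists, not_and, not_or] at hn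
    have hxI : x ∉ I := fun h => (hn x h).1 rfl
    have := hm (insert x I) ⟨insert_subset hx hI.1, by
      intro a ha b hb hab
      rw [mem_insert] at ha hb
      rcases ha with rfl | ha <;> rcases hb with rfl | hb
      · exact absurd rfl hab
      · exact fun e => (hn b hb).2 hx (hs _ _ e)
      · exact (hn a ha).2 hx
      · exact hI.2 a ha b hb hab⟩
    rw [card_insert_of_notMem hxI] at this
    omega
  refine (card_le_card this).trans (card_biUnion_le.trans ?_)
  rw [mul_comm]
  apply sum_le_card_nsmul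
  intro y hy
  exact (card_insert_le _ _).trans (by have := h y (hI.1 hy); omega)

structure Mod (G : SimpleGraph V) (S : Finset V) (E : Finset (V × V)) (β : V → Set V) : Prop where
  sym : ∀ a b, (a, b) ∈ E → (b, a) ∈ E
  irr : ∀ a, (a, a) ∉ E
  supp : ∀ a b, (a, b) ∈ E → a ∈ S
  conn : ∀ a ∈ S, (G.induce (β a)).Connected
  disj : ∀ a ∈ S, ∀ b ∈ S, a ≠ b → Disjoint (β a) (β b)
  adj : ∀ a b, (a, b) ∈ E → ∃ x ∈ β a, ∃ y ∈ β b, G.Adj x y

variable {G : SimpleGraph V} {S : Finset V} {E : Finset (V × V)} {β : V → Set V}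

lemma Mod.union (h : Mod G S E β) {a b : V} (hab : (a, b) ∈ E) :
    (G.induce (β a ∪ β b)).Connected := by
  obtain ⟨x, hx, y, hy, e⟩ := h.adj a b hab
  exact SimpleGraph.connected_induce_union (h.conn a (h.supp _ _ hab)).preconnected
    (h.conn b (h.supp _ _ (h.sym _ _ hab))).preconnected hx hy e

lemma Mod.final (h : Mod G S E β) (t : ℕ) (N : Finset V) (hN : N.Nonempty)
    (h2 : N.card ≤ 6 * (t * t + t))
    (hA : ∀ y ∈ N, 3 * (t * t + t) ≤ (N.filter (fun z => (y, z) ∈ E)).card) : HasK G t := by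
  classical
  set K := t * t + t with hK
  let A : V → Finset V := fun y => N.filter (fun z => (y, z) ∈ E)
  let bad : V → V → Prop := fun a b => (A a ∩ A b).card < K
  obtain ⟨Y, hY, hYc, hYr⟩ : ∃ Y ⊆ N, t ≤ Y.card ∧ ∀ a ∈ Y, ∀ b ∈ Y, a ≠ b → ¬ bad a b := by
    by_cases e : ∃ y ∈ N, t ≤ (N.filter (bad y)).card
    · obtain ⟨y, hy, e⟩ := e
      refine ⟨_, filter_subset _ _, e, fun a ha b hb _ hab => ?_⟩
      rw [mem_filter] at ha hb
      have h1 := card_union_add_card_inter (A y) (A a)
      have h2' := card_union_add_card_inter (A y ∪ A a) (A b)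
      have h3 : ((A y ∪ A a) ∩ A b).card ≤ (A y ∩ A b).card + (A a ∩ A b).card := by
        rw [union_inter_distrib_right]; exact card_union_le _ _
      have h4 : (A y ∪ A a ∪ A b).card ≤ N.card := card_le_card (union_subset (union_subset
        (filter_subset _ _) (filter_subset _ _)) (filter_subset _ _))
      have := hA y hy
      have := hA a ha.1
      have := hA b hb.1
      have := ha.2
      have := hb.2
      simp only [bad, A] at *
      omega
    · push Not at e
      obtain ⟨I, h1, h3, h4⟩ := greedy bad (fun a b h => by simpa only [bad, inter_comm] using h) N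
        (t - 1) (fun y hy => by have := e y hy; omega)
      refine ⟨I, h1, ?_, h4⟩
      obtain ⟨y, hy⟩ := hN
      have h5 := (hA y hy).trans (card_le_card (filter_subset _ _))
      have h6 := e y hy
      by_contra h7
      have : (t - 1 + 1) * I.card ≤ t * t := Nat.mul_le_mul (by omega) (by omega)
      omega
  obtain ⟨Y', hY', hc⟩ := exists_subset_card_eq hYc
  let e := (Y'.equivFinOfCardEq hc).symm
  let y : Fin t → V := fun i => (e i).1
  have hy : ∀ i, y i ∈ Y' := fun i => (e i).2
  have yi : Function.Injective y := fun i j h => e.injective (Subtype.ext h)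
  let C : Fin t × Fin t → Finset V := fun p => (A (y p.1) ∩ A (y p.2)) \ Y'
  have hC : ∀ p, t * t ≤ (C p).card := by
    intro p
    have h1 : K ≤ (A (y p.1) ∩ A (y p.2)).card := by
      by_cases e : y p.1 = y p.2
      · rw [← e, inter_self]
        have := hA _ (hY (hY' (hy p.1)))
        simp only [A]; omega
      · exact not_lt.1 (hYr _ (hY' (hy _)) _ (hY' (hy _)) e)
    have := le_card_sdiff Y' (A (y p.1) ∩ A (y p.2))
    simp only [C]; omega
  obtain ⟨z, zi, hz⟩ := (all_card_le_biUnion_card_iff_exists_injective C).1 (by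
    intro s
    rcases s.eq_empty_or_nonempty with rfl | ⟨p, hp⟩
    · simp
    · refine le_trans ?_ ((hC p).trans (card_le_card (subset_biUnion_of_mem C hp)))
      simpa using card_le_univ s)
  simp only [C, A, mem_sdiff, mem_inter, mem_filter] at hz
  have yS : ∀ i, y i ∈ S := fun i => h.supp _ _ (hz (i, i)).1.1.2
  have zS : ∀ p, z p ∈ S := fun p => h.supp _ _ (h.sym _ _ (hz p).1.1.2)
  refine ⟨fun i => ⋃₀ Set.range (fun j => β (y i) ∪ β (z (i, j))), fun i => ?_, fun i j hij => ?_,
    fun i j _ => ?_⟩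
  · apply SimpleGraph.induce_sUnion_connected_of_pairwise_not_disjoint (Set.range_nonempty_iff_nonempty.2 ⟨i⟩)
    · rintro _ _ ⟨a, rfl⟩ ⟨b, rfl⟩
      obtain ⟨x⟩ := (h.conn _ (yS i)).nonempty
      exact ⟨x.1, Or.inl x.2, Or.inl x.2⟩
    · rintro _ ⟨a, rfl⟩
      exact h.union (hz (i, a)).1.1.2
  · rw [Set.disjoint_left]
    rintro x ⟨_, ⟨a, rfl⟩, h1⟩ ⟨_, ⟨b, rfl⟩, h2⟩
    rcases h1 with h1 | h1 <;> rcases h2 with h2 | h2
    · exact Set.disjoint_left.1 (h.disj _ (yS i) _ (yS j) (fun e => hij (yi e))) h1 h2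
    · exact Set.disjoint_left.1 (h.disj _ (yS i) _ (zS _) (fun e => (hz _).2 (e ▸ hy i))) h1 h2
    · exact Set.disjoint_left.1 (h.disj _ (zS _) _ (yS j) (fun e => (hz _).2 (e ▸ hy j))) h1 h2
    · exact Set.disjoint_left.1 (h.disj _ (zS _) _ (zS _)
        (fun e => hij (congrArg Prod.fst (zi e)))) h1 h2
  · obtain ⟨a, ha, b, hb, e⟩ := h.adj _ _ (hz (i, j)).1.2.2
    exact ⟨b, ⟨_, ⟨j, rfl⟩, Or.inr hb⟩, a, ⟨_, ⟨j, rfl⟩, Or.inl ha⟩, e.symm⟩

lemma Mod.contract (h : Mod G S E β) {u v : V} (huv : (u, v) ∈ E) :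
    ∃ E' β', Mod G (S.erase v) E' β' ∧ E'.card ≤ E.card ∧
      E.card ≤ E'.card + 2 * (S.filter (fun w => (u, w) ∈ E ∧ (v, w) ∈ E)).card + 2 := by
  classical
  have hne : u ≠ v := by rintro rfl; exact h.irr _ huv
  have hu := h.supp _ _ huv
  have hv := h.supp _ _ (h.sym _ _ huv)
  let c : V → V := fun w => if w = v then u else w
  let β' : V → Set V := fun w => if w = u then β u ∪ β v else β w
  have sub : ∀ a, β a ⊆ β' (c a) := by
    intro a
    simp only [β', c]
    split_ifs with h1 h2 h3
    · rw [h1]; exact Set.subset_union_right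
    · exact absurd rfl h2
    · rw [h3]; exact Set.subset_union_left
    · exact subset_rfl
  refine ⟨(E.image (Prod.map c c)).filter (fun p => p.1 ≠ p.2), β', ⟨?_, ?_, ?_, ?_, ?_, ?_⟩,
    (card_filter_le _ _).trans card_image_le, ?_⟩
  · intro a b hab
    simp only [mem_filter, mem_image, Prod.exists, Prod.map_apply, Prod.mk.injEq] at hab ⊢
    obtain ⟨⟨x, y, h1, h2, h3⟩, h4⟩ := hab
    exact ⟨⟨y, x, h.sym _ _ h1, h3, h2⟩, h4.symm⟩
  · simp
  · intro a b hab
    simp only [mem_filter, mem_image, Prod.exists, Prod.map_apply, Prod.mk.injEq] at hab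
    obtain ⟨⟨x, y, h1, rfl, h3⟩, h4⟩ := hab
    have := h.supp _ _ h1
    simp only [c, mem_erase]
    split_ifs with e
    · exact ⟨hne, hu⟩
    · exact ⟨e, this⟩
  · intro a ha
    by_cases e : a = u
    · have : β' a = β u ∪ β v := by simp [β', e]
      rw [this]; exact h.union huv
    · have : β' a = β a := by simp [β', e]
      rw [this]; exact h.conn a (mem_of_mem_erase ha)
  · intro a ha b hb hab
    rw [mem_erase] at ha hb
    simp only [β']
    split_ifs with e1 e2 e2
    · exact absurd (e1.trans e2.symm) hab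
    · exact Set.disjoint_union_left.2 ⟨h.disj _ hu _ hb.2 (Ne.symm e2), h.disj _ hv _ hb.2 hb.1.symm⟩
    · exact Set.disjoint_union_right.2 ⟨h.disj _ ha.2 _ hu e1, h.disj _ ha.2 _ hv ha.1⟩
    · exact h.disj _ ha.2 _ hb.2 hab
  · intro a b hab
    simp only [mem_filter, mem_image, Prod.exists, Prod.map_apply, Prod.mk.injEq] at hab
    obtain ⟨⟨x, y, h1, rfl, rfl⟩, -⟩ := hab
    obtain ⟨p, hp, q, hq, e⟩ := h.adj _ _ h1
    exact ⟨p, sub _ hp, q, sub _ hq, e⟩
  · set CN := S.filter (fun w => (u, w) ∈ E ∧ (v, w) ∈ E) with hCN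
    let Bad : Finset (V × V) := insert (u, v) (insert (v, u)
      (CN.image (fun w => (v, w)) ∪ CN.image (fun w => (w, v))))
    have b1 : Bad.card ≤ 2 * CN.card + 2 := by
      have := card_insert_le (u, v) (insert (v, u)
        (CN.image (fun w => (v, w)) ∪ CN.image (fun w => (w, v))))
      have := card_insert_le (v, u) (CN.image (fun w => (v, w)) ∪ CN.image (fun w => (w, v)))
      have := card_union_le (CN.image (fun w => (v, w))) (CN.image (fun w => (w, v)))
      have := card_image_le (s := CN) (f := fun w => (v, w))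
      have := card_image_le (s := CN) (f := fun w => (w, v))
      simp only [Bad]; omega
    have key : ∀ a b, (a, b) ∈ E \ Bad → (a, b) ∈ E ∧ a ≠ b ∧ ¬ (a = u ∧ b = v) ∧ ¬ (a = v ∧ b = u) ∧
        (a = v → (u, b) ∉ E) ∧ (b = v → (a, u) ∉ E) := by
      intro a b hab
      simp only [Bad, hCN, mem_sdiff, mem_insert, mem_union, mem_image, mem_filter, Prod.mk.injEq,
        not_or, not_exists, not_and] at hab
      refine ⟨hab.1, fun e => h.irr a (by simpa [e] using hab.1), fun e => hab.2.1 e.1 e.2,
        fun e => hab.2.2.1 e.1 e.2, fun e1 e2 => ?_, fun e1 e2 => ?_⟩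
      · subst e1
        exact hab.2.2.2.1 b ⟨h.supp _ _ (h.sym _ _ e2), e2, hab.1⟩ rfl rfl
      · subst e1
        exact hab.2.2.2.2 a ⟨h.supp _ _ e2, h.sym _ _ e2, h.sym _ _ hab.1⟩ rfl rfl
    have b2 : (E \ Bad).card ≤ ((E.image (Prod.map c c)).filter (fun p => p.1 ≠ p.2)).card := by
      apply card_le_card_of_injOn (Prod.map c c)
      · rintro ⟨a, b⟩ hab
        have := key a b hab
        simp only [coe_filter, Set.mem_ofPred_eq]
        refine ⟨mem_image_of_mem _ this.1, ?_⟩
        simp only [Prod.map_apply, c]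
        grind
      · rintro ⟨a, b⟩ hab ⟨a', b'⟩ hab' e
        have h1 := key a b hab
        have h2 := key a' b' hab'
        simp only [Prod.map_apply, c, Prod.mk.injEq] at e ⊢
        grind
    have := le_card_sdiff Bad E
    omega

lemma mader (G : SimpleGraph V) (t : ℕ) (ht : 1 ≤ t) : ∀ (n : ℕ) (S : Finset V) (E : Finset (V × V))
    (β : V → Set V), S.card + E.card = n → Mod G S E β → S.Nonempty →
    6 * (t * t + t) * S.card ≤ E.card → HasK G t := by
  intro n
  induction n using Nat.strong_induction_on with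
  | _ n ih =>
    intro S E β hn h hS hE
    set d := 3 * (t * t + t) with hd
    have e6 : 6 * (t * t + t) = 2 * d := by omega
    rw [e6] at hE ih
    have d0 : 0 < d := by omega
    have s0 := hS.card_pos
    obtain ⟨⟨a, b⟩, hab⟩ : E.Nonempty := card_pos.1 (lt_of_lt_of_le (by positivity) hE)
    have hne : a ≠ b := by rintro rfl; exact h.irr _ hab
    have s2 : 2 ≤ S.card := one_lt_card.2 ⟨a, h.supp _ _ hab, b, h.supp _ _ (h.sym _ _ hab), hne⟩
    by_cases c1 : 2 * d * S.card + 2 ≤ E.card
    · have k1 := card_erase_of_mem hab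
      have k2 := pred_card_le_card_erase (s := E.erase (a, b)) (a := (b, a))
      have k3 := card_erase_le (s := E.erase (a, b)) (a := (b, a))
      refine ih _ ?_ S ((E.erase (a, b)).erase (b, a)) β rfl ⟨?_, ?_, ?_, h.conn, h.disj, ?_⟩ hS
        (by omega)
      · omega
      · intro x y hxy
        simp only [mem_erase, ne_eq, Prod.mk.injEq] at hxy ⊢
        exact ⟨by tauto, by tauto, h.sym _ _ hxy.2.2⟩
      · exact fun x hx => h.irr x (mem_of_mem_erase (mem_of_mem_erase hx))
      · exact fun x y hx => h.supp x y (mem_of_mem_erase (mem_of_mem_erase hx))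
      · exact fun x y hx => h.adj x y (mem_of_mem_erase (mem_of_mem_erase hx))
    · obtain ⟨x, hx, hdx⟩ : ∃ x ∈ S, (S.filter (fun y => (x, y) ∈ E)).card ≤ 2 * d := by
        by_contra hn'
        push Not at hn'
        have k1 : E.card = ∑ x ∈ S, (E.filter (fun p => p.1 = x)).card :=
          card_eq_sum_card_fiberwise (f := Prod.fst) (fun p hp => h.supp p.1 p.2 hp)
        have k2 : S.card • (2 * d + 1) ≤ ∑ x ∈ S, (E.filter (fun p => p.1 = x)).card := by
          apply card_nsmul_le_sum
          intro x hx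
          refine (Nat.succ_le_of_lt (hn' x hx)).trans ?_
          apply card_le_card_of_injOn (fun y => (x, y))
          · intro y hy
            simp only [coe_filter, Set.mem_ofPred_eq] at hy ⊢
            exact ⟨hy.2, trivial⟩
          · intro y _ z _ e
            exact (Prod.mk.inj e).2
        rw [smul_eq_mul] at k2
        nlinarith
      have hS' : (S.erase x).Nonempty := card_pos.1 (by rw [card_erase_of_mem hx]; omega)
      have m1 : ∀ v ∈ S, 2 * d * (S.erase v).card + 2 * d = 2 * d * S.card := by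
        intro v hv
        rw [← card_erase_add_one hv]; ring
      rcases (S.filter (fun y => (x, y) ∈ E)).eq_empty_or_nonempty with e | e
      · have := card_erase_of_mem hx
        have := m1 x hx
        refine ih _ ?_ (S.erase x) E β rfl ⟨h.sym, h.irr, ?_,
          fun a ha => h.conn a (mem_of_mem_erase ha),
          fun a ha b hb => h.disj a (mem_of_mem_erase ha) b (mem_of_mem_erase hb), h.adj⟩ hS' (by omega)
        · omega
        · intro p q hpq
          refine mem_erase.2 ⟨?_, h.supp _ _ hpq⟩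
          rintro rfl
          exact filter_eq_empty_iff.1 e (h.supp _ _ (h.sym _ _ hpq)) hpq
      · by_cases c2 : ∃ y, (y, x) ∈ E ∧ (S.filter (fun w => (y, w) ∈ E ∧ (x, w) ∈ E)).card < d
        · obtain ⟨y, h1, h2⟩ := c2
          obtain ⟨E', β', k1, k2, k3⟩ := h.contract h1
          have := card_erase_of_mem hx
          have := m1 x hx
          exact ih _ (by omega) (S.erase x) E' β' rfl k1 hS' (by omega)
        · push Not at c2
          refine h.final t _ e (by omega) (fun y hy => ?_)
          rw [mem_filter] at hy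
          refine (c2 y (h.sym _ _ hy.2)).trans (le_of_eq ?_)
          rw [filter_filter]
          congr 1
          ext w
          simp only [mem_filter]
          tauto

theorem low_deg (G : SimpleGraph V) [DecidableRel G.Adj] {t : ℕ} (h : ¬ HasK G t) (S : Finset V)
    (hS : S.Nonempty) : ∃ v ∈ S, (S.filter (G.Adj v)).card ≤ 6 * (t * t + t) := by
  by_contra hn
  push Not at hn
  apply h
  rcases Nat.eq_zero_or_pos t with rfl | ht
  · exact ⟨Fin.elim0, fun i => i.elim0, fun i => i.elim0, fun i => i.elim0⟩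
  refine mader G t ht _ S ((S ×ˢ S).filter (fun p => G.Adj p.1 p.2)) (fun a => {a}) rfl
    ⟨?_, ?_, ?_, ?_, ?_, ?_⟩ hS ?_
  · intro a b hab
    simp only [mem_filter, mem_product] at hab ⊢
    exact ⟨hab.1.symm, hab.2.symm⟩
  · simp
  · intro a b hab
    simp only [mem_filter, mem_product] at hab
    exact hab.1.1
  · intro a _
    simp
  · intro a _ b _ hab
    simpa using hab
  · intro a b hab
    simp only [mem_filter, mem_product] at hab
    exact ⟨a, rfl, b, rfl, hab.2⟩
  · rw [card_filter, sum_product, mul_comm]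
    apply card_nsmul_le_sum
    intro x hx
    rw [← card_filter]
    exact (hn x hx).le

theorem order (G : SimpleGraph V) [DecidableRel G.Adj] {t : ℕ} (h : ¬ HasK G t) (S : Finset V) :
    ∃ ρ : V → ℕ, Set.InjOn ρ S ∧
      ∀ v ∈ S, (S.filter (fun w => G.Adj v w ∧ ρ v < ρ w)).card ≤ 6 * (t * t + t) := by
  induction S using Finset.strongInduction with
  | H S ih =>
    rcases S.eq_empty_or_nonempty with rfl | hS
    · exact ⟨fun _ => 0, by simp, by simp⟩
    obtain ⟨v, hv, hd⟩ := low_deg G h S hS
    obtain ⟨ρ, h1, h2⟩ := ih (S.erase v) (erase_ssubset hv)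
    refine ⟨fun w => if w = v then 0 else ρ w + 1, ?_, ?_⟩
    · intro a ha b hb e
      beta_reduce at e
      by_cases e1 : a = v <;> by_cases e2 : b = v
      · rw [e1, e2]
      · simp [e1, e2] at e
      · simp [e1, e2] at e
      · simp only [e1, e2, if_false] at e
        exact h1 (by simp [e1, ha]) (by simp [e2, hb]) (by omega)
    · intro w hw
      by_cases e : w = v
      · subst e
        exact (card_le_card (fun x hx => by simp only [mem_filter] at hx ⊢; exact ⟨hx.1, hx.2.1⟩)).trans hd
      · refine le_trans (card_le_card fun x hx => ?_) (h2 w (mem_erase.2 ⟨e, hw⟩))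
        simp only [mem_filter, e, if_false, mem_erase] at hx ⊢
        by_cases e' : x = v
        · simp [e'] at hx
        · simp only [e', if_false] at hx
          exact ⟨⟨e', hx.1⟩, hx.2.1, by omega⟩

end Pool.Agent.H29.MN
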