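import Pool.Agent.H29.MN1

set_option linter.unusedSectionVars false

namespace Pool.Agent.H29.MN

open Finset

variable {V : Type} [DecidableEq V]

lemma hasK_of_family {G : SimpleGraph V} {t : ℕ} (F : Finset (Finset V)) (ht : t ≤ F.card)
    (h1 : ∀ P ∈ F, (G.induce (P : Set V)).Connected) (h2 : ∀ P ∈ F, ∀ Q ∈ F, P ≠ Q → Disjoint P Q)
    (h3 : ∀ P ∈ F, ∀ Q ∈ F, P ≠ Q → ∃ x ∈ P, ∃ y ∈ Q, G.Adj x y) : HasK G t := by
  obtain ⟨F', hF, hc⟩ := exists_subset_card_eq ht
  let e := (F'.equivFinOfCardEq hc).symm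
  have ne : ∀ i j, i ≠ j → (e i).1 ≠ (e j).1 := fun i j h e' => h (e.injective (Subtype.ext e'))
  exact ⟨fun i => ((e i).1 : Set V), fun i => h1 _ (hF (e i).2),
    fun i j h => disjoint_coe.2 (h2 _ (hF (e i).2) _ (hF (e j).2) (ne i j h)),
    fun i j h => h3 _ (hF (e i).2) _ (hF (e j).2) (ne i j h)⟩

lemma pairs (bad : V → V → Prop) [DecidableRel bad] (D : ℕ) (R : Finset V)
    (h : ∀ y ∈ R, (R.filter (bad y)).card ≤ D) :
    ∃ M : Finset (Finset V), (∀ P ∈ M, ∃ u ∈ R, ∃ v ∈ R, P = {u, v} ∧ u ≠ v ∧ ¬ bad u v) ∧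
      (∀ P ∈ M, ∀ Q ∈ M, P ≠ Q → Disjoint P Q) ∧ R.card ≤ 2 * M.card + D + 1 := by
  induction R using Finset.strongInduction with
  | H R ih =>
    by_cases e : R.card ≤ D + 1
    · exact ⟨∅, by simp, by simp, by simpa using e⟩
    obtain ⟨u, hu⟩ : R.Nonempty := card_pos.1 (by omega)
    obtain ⟨v, hv⟩ : (R \ insert u (R.filter (bad u))).Nonempty := by
      apply card_pos.1
      have := le_card_sdiff (insert u (R.filter (bad u))) R
      have := card_insert_le u (R.filter (bad u))
      have := h u hu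
      omega
    simp only [mem_sdiff, mem_insert, mem_filter, not_or, not_and] at hv
    obtain ⟨M, m1, m2, m3⟩ := ih (R \ {u, v}) (sdiff_ssubset (by simp [insert_subset_iff, hu, hv.1])
      (by simp)) (fun y hy => (card_le_card (filter_subset_filter _ sdiff_subset)).trans
        (h y (mem_sdiff.1 hy).1))
    have dj : ∀ Q ∈ M, Disjoint ({u, v} : Finset V) Q := by
      intro Q hQ
      obtain ⟨a, ha, b, hb, rfl, -⟩ := m1 Q hQ
      rw [disjoint_right]
      intro x hx
      simp only [mem_insert, mem_singleton] at hx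
      rcases hx with rfl | rfl
      · exact (mem_sdiff.1 ha).2
      · exact (mem_sdiff.1 hb).2
    have nm : ({u, v} : Finset V) ∉ M := fun hm => by simpa using dj _ hm
    refine ⟨insert {u, v} M, ?_, ?_, ?_⟩
    · intro P hP
      rcases mem_insert.1 hP with rfl | hP
      · exact ⟨u, hu, v, hv.1, rfl, Ne.symm hv.2.1, hv.2.2 hv.1⟩
      · obtain ⟨a, ha, b, hb, e⟩ := m1 P hP
        exact ⟨a, (mem_sdiff.1 ha).1, b, (mem_sdiff.1 hb).1, e⟩
    · intro P hP Q hQ hne
      rcases mem_insert.1 hP with rfl | hP <;> rcases mem_insert.1 hQ with rfl | hQ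
      · exact absurd rfl hne
      · exact dj Q hQ
      · exact (dj P hP).symm
      · exact m2 P hP Q hQ hne
    · rw [card_insert_of_notMem nm]
      have := le_card_sdiff ({u, v} : Finset V) R
      have := card_le_two (a := u) (b := v)
      have := card_sdiff_add_card_inter R ({u, v} : Finset V)
      have := card_le_card (inter_subset_right (s₁ := R) (s₂ := ({u, v} : Finset V)))
      omega

variable [Fintype V]

lemma dense_hasK (G : SimpleGraph V) [DecidableRel G.Adj] (q : ℕ) (hq : 360000 ≤ q)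
    (hn : Fintype.card V = 100 * q)
    (hF : (univ.filter (fun p : V × V => p.1 ≠ p.2 ∧ ¬ G.Adj p.1 p.2)).card ≤ 600 * q) :
    HasK G (51 * q) := by
  classical
  let N : V → Finset V := fun v => univ.filter (fun w => v ≠ w ∧ ¬ G.Adj v w)
  have hs : ∑ v, (N v).card ≤ 600 * q := by
    rw [card_filter, ← univ_product_univ, sum_product] at hF
    simpa only [N, card_filter] using hF
  have low : ∀ D, (D + 1) * (100 * q) ≤
      (D + 1) * (univ.filter (fun v => (N v).card ≤ D)).card + 600 * q := by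
    intro D
    have h1 := card_filter_add_card_filter_not (s := (univ : Finset V)) (fun v => (N v).card ≤ D)
    have h2 : (univ.filter (fun v => ¬ (N v).card ≤ D)).card • (D + 1) ≤
        ∑ v ∈ univ.filter (fun v => ¬ (N v).card ≤ D), (N v).card :=
      card_nsmul_le_sum _ _ _ (fun v hv => by simp only [mem_filter] at hv; omega)
    have h3 := sum_le_sum_of_subset (f := fun v => (N v).card)
      (filter_subset (fun v => ¬ (N v).card ≤ D) univ)
    rw [card_univ, hn] at h1
    rw [← h1, smul_eq_mul] at *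
    nlinarith
  obtain ⟨I, i1, i2, i3⟩ := greedy (fun v w => v ≠ w ∧ ¬ G.Adj v w)
    (fun a b h => ⟨h.1.symm, fun e => h.2 e.symm⟩) (univ.filter (fun v => (N v).card ≤ 12)) 12
    (fun y hy => (card_le_card (filter_subset_filter _ (filter_subset _ _))).trans
      (mem_filter.1 hy).2)
  set L := univ.filter (fun v => (N v).card ≤ 599) with hL
  have IL : I ⊆ L := fun x hx => by
    have := i1 hx
    simp only [hL, mem_filter, mem_univ, true_and] at this ⊢
    omega
  obtain ⟨M, m1, m2, m3⟩ := pairs (fun u v => v ∈ N u ∨ ∃ w ∈ L, w ∈ N u ∧ v ∈ N w)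
    (599 + 599 * 599) (L \ I) (by
      intro y hy
      have hy' : (N y).card ≤ 599 := (mem_filter.1 (mem_sdiff.1 hy).1).2
      have : (L \ I).filter (fun v => v ∈ N y ∨ ∃ w ∈ L, w ∈ N y ∧ v ∈ N w) ⊆
          N y ∪ (N y ∩ L).biUnion N := by
        intro v hv
        simp only [mem_filter, mem_union, mem_biUnion, mem_inter] at hv ⊢
        rcases hv.2 with h | ⟨w, h1, h2, h3⟩
        · exact Or.inl h
        · exact Or.inr ⟨w, ⟨h2, h1⟩, h3⟩
      refine (card_le_card this).trans ((card_union_le _ _).trans (Nat.add_le_add hy' ?_))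
      refine card_biUnion_le.trans ((sum_le_card_nsmul _ _ 599 fun w hw =>
        (mem_filter.1 (mem_inter.1 hw).2).2).trans ?_)
      rw [smul_eq_mul]
      exact Nat.mul_le_mul_right _ ((card_le_card inter_subset_left).trans hy'))
  have mx : ∀ P ∈ M, ∀ x ∈ L, x ∉ P → ∃ y ∈ P, G.Adj x y := by
    intro P hP x hx hxP
    obtain ⟨u, -, v, -, rfl, -, h⟩ := m1 P hP
    simp only [mem_insert, mem_singleton, not_or] at hxP
    by_contra hn'
    simp only [mem_insert, mem_singleton, exists_eq_or_imp, exists_eq_left, not_or] at hn'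
    exact h (Or.inr ⟨x, hx, by simp [N, Ne.symm hxP.1, G.adj_comm, hn'.1], by simp [N, hxP.2, hn'.2]⟩)
  have mI : ∀ P ∈ M, ∀ x ∈ I, x ∉ P := by
    intro P hP x hx hxP
    obtain ⟨u, hu, v, hv, rfl, -⟩ := m1 P hP
    simp only [mem_insert, mem_singleton] at hxP
    rcases hxP with rfl | rfl
    · exact (mem_sdiff.1 hu).2 hx
    · exact (mem_sdiff.1 hv).2 hx
  apply hasK_of_family (I.image (fun x => {x}) ∪ M)
  · rw [card_union_of_disjoint, card_image_of_injective _ singleton_injective]
    · have := low 12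
      have := low 599
      rw [← hL] at this
      have := card_sdiff_add_card_eq_card IL
      omega
    · rw [disjoint_left]
      intro P hP hM
      obtain ⟨x, hx, rfl⟩ := mem_image.1 hP
      exact mI _ hM x hx (by simp)
  · intro P hP
    rcases mem_union.1 hP with hP | hP
    · obtain ⟨x, -, rfl⟩ := mem_image.1 hP
      rw [coe_singleton]
      simp
    · obtain ⟨u, -, v, -, rfl, h1, h2⟩ := m1 P hP
      rw [coe_pair]
      apply SimpleGraph.induce_pair_connected_of_adj
      by_contra h3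
      exact h2 (Or.inl (by simp [N, h1, h3]))
  · intro P hP Q hQ hne
    rcases mem_union.1 hP with hP | hP <;> rcases mem_union.1 hQ with hQ | hQ
    · obtain ⟨x, -, rfl⟩ := mem_image.1 hP
      obtain ⟨y, -, rfl⟩ := mem_image.1 hQ
      simpa using hne
    · obtain ⟨x, hx, rfl⟩ := mem_image.1 hP
      simpa using mI Q hQ x hx
    · obtain ⟨x, hx, rfl⟩ := mem_image.1 hQ
      simpa using mI P hP x hx
    · exact m2 P hP Q hQ hne
  · intro P hP Q hQ hne
    rcases mem_union.1 hP with hP | hP <;> rcases mem_union.1 hQ with hQ | hQ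
    · obtain ⟨x, hx, rfl⟩ := mem_image.1 hP
      obtain ⟨y, hy, rfl⟩ := mem_image.1 hQ
      have hxy : x ≠ y := by simpa using hne
      have := i3 x hx y hy hxy
      exact ⟨x, by simp, y, by simp, by tauto⟩
    · obtain ⟨x, hx, rfl⟩ := mem_image.1 hP
      obtain ⟨y, h1, h2⟩ := mx Q hQ x (IL hx) (mI Q hQ x hx)
      exact ⟨x, by simp, y, h1, h2⟩
    · obtain ⟨x, hx, rfl⟩ := mem_image.1 hQ
      obtain ⟨y, h1, h2⟩ := mx P hP x (IL hx) (mI P hP x hx)
      exact ⟨y, h1, x, by simp, h2.symm⟩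
    · obtain ⟨u, hu, v, -, e, -⟩ := m1 P hP
      have hu' : u ∈ P := by simp [e]
      obtain ⟨y, h1, h2⟩ := mx Q hQ u (mem_sdiff.1 hu).1 (disjoint_left.1 (m2 P hP Q hQ hne) hu')
      exact ⟨u, hu', y, h1, h2⟩

lemma clique_of_hasK {G : SimpleGraph V} {t : ℕ} (h : HasK G t) :
    ∃ S : Finset V, (∀ a ∈ S, ∀ b ∈ S, a ≠ b → G.Adj a b) ∧ 2 * t ≤ Fintype.card V + S.card := by
  classical
  obtain ⟨B, h1, h2, h3⟩ := h
  have ne : ∀ i, ∃ x, x ∈ B i := fun i => let ⟨x⟩ := (h1 i).nonempty; ⟨x.1, x.2⟩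
  choose x hx using ne
  have xi : Function.Injective x := fun i j e => by
    by_contra hij
    exact Set.disjoint_left.1 (h2 i j hij) (hx i) (e ▸ hx j)
  let A : Finset (Fin t) := univ.filter (fun i => B i = {x i})
  refine ⟨A.image x, ?_, ?_⟩
  · intro a ha b hb hab
    obtain ⟨i, hi, rfl⟩ := mem_image.1 ha
    obtain ⟨j, hj, rfl⟩ := mem_image.1 hb
    obtain ⟨p, hp, q, hq, e⟩ := h3 i j (fun e => hab (by rw [e]))
    rw [(mem_filter.1 hi).2] at hp
    rw [(mem_filter.1 hj).2] at hq
    rwa [hp, hq] at e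
  · rw [card_image_of_injective _ xi]
    have s1 : ∑ i, (B i).toFinset.card ≤ Fintype.card V := by
      rw [← card_biUnion]
      · exact card_le_univ _
      · intro i _ j _ hij
        exact Set.disjoint_toFinset.2 (h2 i j hij)
    have s2 : ∑ _i : Fin t, 2 ≤ ∑ i, ((B i).toFinset.card + if B i = {x i} then 1 else 0) := by
      refine sum_le_sum fun i _ => ?_
      split_ifs with e
      · have : 0 < (B i).toFinset.card := card_pos.2 ⟨x i, by simpa using hx i⟩
        omega
      · obtain ⟨y, hy, hne⟩ : ∃ y ∈ B i, y ≠ x i := by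
          by_contra hn
          push Not at hn
          exact e (Set.eq_singleton_iff_unique_mem.2 ⟨hx i, hn⟩)
        exact one_lt_card.2 ⟨y, by simpa using hy, x i, by simpa using hx i, hne⟩
    rw [sum_add_distrib, ← card_filter] at s2
    simp only [sum_const, card_univ, Fintype.card_fin, smul_eq_mul] at s2
    simp only [A]
    omega

lemma HasK.map {W : Type} {U : SimpleGraph W} {φ : V → W} (hφ : Function.Injective φ) {t : ℕ}
    (h : HasK (U.comap φ) t) : HasK U t := by
  obtain ⟨B, h1, h2, h3⟩ := h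
  refine ⟨fun i => φ '' B i, fun i => ?_, fun i j h => (Set.disjoint_image_iff hφ).2 (h2 i j h),
    fun i j h => ?_⟩
  · refine (h1 i).map (⟨fun x => ⟨φ x.1, x.1, x.2, rfl⟩, fun h => h⟩ :
      (U.comap φ).induce (B i) →g U.induce (φ '' B i)) ?_
    rintro ⟨_, x, hx, rfl⟩
    exact ⟨⟨x, hx⟩, rfl⟩
  · obtain ⟨x, hx, y, hy, e⟩ := h3 i j h
    exact ⟨_, ⟨x, hx, rfl⟩, _, ⟨y, hy, rfl⟩, e⟩

lemma card_pi {C : Type} [Fintype C] [DecidableEq C] (A : Finset C) (s : C → Finset V) (x : ℕ)
    (h : ∀ c ∈ A, (s c).card ≤ x) :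
    (Fintype.piFinset s).card * Fintype.card V ^ A.card ≤
      x ^ A.card * Fintype.card V ^ Fintype.card C := by
  rw [Fintype.card_piFinset, ← prod_mul_prod_compl A, ← card_add_card_compl A, pow_add]
  have h1 := prod_le_pow_card A (fun c => (s c).card) x h
  have h2 := prod_le_pow_card Aᶜ (fun c => (s c).card) _ (fun c _ => card_le_univ (s c))
  calc _ ≤ x ^ A.card * Fintype.card V ^ Aᶜ.card * Fintype.card V ^ A.card := by gcongr
    _ = _ := by ring

lemma pin {C ι : Type} [Fintype C] [DecidableEq C] [Fintype ι] (co : ι → C) (val : ι → V)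
    (h : ∀ e e', co e = co e' → val e = val e' → e = e') :
    (univ.filter (fun f : C → V => ∀ e, f (co e) = val e)).card * Fintype.card V ^ Fintype.card ι ≤
      Fintype.card V ^ Fintype.card C := by
  classical
  rcases (univ.filter (fun f : C → V => ∀ e, f (co e) = val e)).eq_empty_or_nonempty with e | ⟨g, hg⟩
  · simp [e]
  simp only [mem_filter, mem_univ, true_and] at hg
  have ci : Function.Injective co := fun e e' h1 => h e e' h1 (by rw [← hg, ← hg, h1])
  have := card_pi (univ.image co) (fun c => if c ∈ univ.image co then {g c} else univ) 1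
    (fun c hc => by simp only [hc, if_true, card_singleton, le_refl])
  rw [card_image_of_injective _ ci, card_univ, one_pow, one_mul] at this
  refine le_trans (Nat.mul_le_mul_right _ (card_le_card fun f hf => ?_)) this
  simp only [mem_filter, mem_univ, true_and] at hf
  rw [Fintype.mem_piFinset]
  intro c
  split_ifs with hc
  · obtain ⟨e, -, rfl⟩ := mem_image.1 hc
    simp [hf, hg]
  · exact mem_univ _

lemma first (ρ : V → ℕ) (hρ : Function.Injective ρ) (k : ℕ) (hk : k ≤ Fintype.card V) :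
    ∃ B : Finset V, B.card = k ∧ ∀ b ∈ B, ∀ w, w ∉ B → ρ b < ρ w := by
  induction k with
  | zero => exact ⟨∅, rfl, by simp⟩
  | succ k ih =>
    obtain ⟨B, h1, h2⟩ := ih (by omega)
    obtain ⟨v, hv, hm⟩ := exists_min_image Bᶜ ρ (card_pos.1 (by rw [card_compl]; omega))
    rw [mem_compl] at hv
    refine ⟨insert v B, by rw [card_insert_of_notMem hv, h1], fun b hb w hw => ?_⟩
    rw [mem_insert, not_or] at hw
    rcases mem_insert.1 hb with rfl | hb
    · exact lt_of_le_of_ne (hm w (mem_compl.2 hw.2)) (fun e => hw.1 (hρ e).symm)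
    · exact h2 b hb w hw.2

end Pool.Agent.H29.MN
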