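import Mathlib

set_option autoImplicit false

namespace Pool.Agent.H29.Mob

/-- no three vertices of `S` lie on a common shortest path -/
def IsGP {V : Type} (G : SimpleGraph V) (S : Set V) : Prop :=
  ∀ (u v : V) (p : G.Walk u v), p.length = G.dist u v →
    ∀ x ∈ S, ∀ y ∈ S, ∀ z ∈ S, x ≠ y → x ≠ z → y ≠ z →
      ¬ (x ∈ p.support ∧ y ∈ p.support ∧ z ∈ p.support)

/-- a legal move from the occupied set `S` to the occupied set `T` -/
def Move {V : Type} (G : SimpleGraph V) (S T : Set V) : Prop :=
  ∃ a ∈ S, ∃ b, b ∉ S ∧ G.Adj a b ∧ T = insert b (S \ {a}) ∧ IsGP G T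

/-- mobile general position set of a finite graph -/
def IsMobile {V : Type} (G : SimpleGraph V) (S : Set V) : Prop :=
  IsGP G S ∧ ∃ L : List (Set V), List.IsChain (Move G) (S :: L) ∧ ∀ v, ∃ T ∈ S :: L, v ∈ T

/-- mobile general position number of a finite graph -/
noncomputable def mob {V : Type} (G : SimpleGraph V) : ℕ :=
  sSup {n | ∃ S : Set V, IsMobile G S ∧ n = S.ncard}

/-- the join with one new vertex `none` -/
def joinOne {V : Type} (G : SimpleGraph V) : SimpleGraph (Option V) where
  Adj a b := match a, b with
    | none, none => False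
    | none, some _ => True
    | some _, none => True
    | some a, some b => G.Adj a b
  symm := ⟨by
    rintro (_ | a) (_ | b) h
    · exact h
    · trivial
    · trivial
    · exact G.adj_symm h⟩
  loopless := ⟨by
    rintro (_ | a) h
    · exact h
    · exact G.irrefl h⟩

end Pool.Agent.H29.Mob
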