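import Mathlib
import Pool.Agent.H29.MobDefs

set_option autoImplicit false

namespace Pool.Agent.H29.Mob

/-- mobile general position set; a finite or infinite sequence of legal moves
(a step without a move pads a finite sequence) -/
def IsMobileInf {V : Type} (G : SimpleGraph V) (S : Set V) : Prop :=
  IsGP G S ∧ ∃ f : ℕ → Set V, f 0 = S ∧ (∀ n, Move G (f n) (f (n + 1)) ∨ f (n + 1) = f n) ∧
    ∀ v, ∃ n, v ∈ f n

/-- mobile general position number -/
noncomputable def mobInf {V : Type} (G : SimpleGraph V) : ℕ∞ :=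
  sSup {n | ∃ S : Set V, IsMobileInf G S ∧ n = S.encard}

/-- the `k`-fold Cartesian product of the two-way infinite path -/
def lattice (k : ℕ) : SimpleGraph (Fin k → ℤ) where
  Adj x y := ∃ i, |x i - y i| = 1 ∧ ∀ j, j ≠ i → x j = y j
  symm := ⟨fun _ _ ⟨i, h1, h2⟩ => ⟨i, by rwa [abs_sub_comm], fun j hj => (h2 j hj).symm⟩⟩
  loopless := ⟨fun _ ⟨i, h1, _⟩ => by simp at h1⟩

end Pool.Agent.H29.Mob
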