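import Mathlib
import Pool.Agent.H29.GDist
import Pool.Agent.H29.MobInfDefs

set_option autoImplicit false

namespace Pool.Agent.H29.Mob

/-- reach a set containing `v` in `m` steps -/
def Rch {V : Type} (r : Set V → Set V → Prop) (v : V) : ℕ → Set V → Prop
  | 0, A => v ∈ A
  | m + 1, A => ∃ B, r A B ∧ Rch r v m B

theorem tour {V : Type} [Countable V] [Nonempty V] (r : Set V → Set V → Prop)
    (hr : ∀ A B, r A B → r B A) (S : Set V)
    (h : ∀ v, ∃ B, Relation.ReflTransGen r S B ∧ v ∈ B) :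
    ∃ f : ℕ → Set V, f 0 = S ∧ (∀ n, r (f n) (f (n + 1)) ∨ f (n + 1) = f n) ∧
      ∀ v, ∃ n, v ∈ f n := by
  classical
  obtain ⟨e, he⟩ := exists_surjective_nat V
  have back : ∀ A, Relation.ReflTransGen r S A → Relation.ReflTransGen r A S := by
    intro A hA
    induction hA with
    | refl => exact .refl
    | tail _ h ih => exact .head (hr _ _ h) ih
  have rch : ∀ v A, Relation.ReflTransGen r S A → ∃ m, Rch r v m A := by
    intro v A hA
    obtain ⟨B, h1, h2⟩ := h v
    have h3 := (back A hA).trans h1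
    clear hA
    induction h3 using Relation.ReflTransGen.head_induction_on with
    | refl => exact ⟨0, h2⟩
    | head hab _ ih =>
      obtain ⟨m, hm⟩ := ih
      exact ⟨m + 1, _, hab, hm⟩
  have nxt : ∀ v (A : Set V), ∃ B, (∃ m, Rch r v m A) → v ∉ A →
      r A B ∧ ∀ m, Rch r v (m + 1) A → ∃ l, l ≤ m ∧ Rch r v l B := by
    intro v A
    by_cases h1 : ∃ m, Rch r v m A
    · by_cases h2 : v ∈ A
      · exact ⟨A, fun _ h => absurd h2 h⟩
      · have h3 := Nat.find_spec h1
        have h4 : ∀ m, Rch r v m A → Nat.find h1 ≤ m := fun m hm => Nat.find_min' h1 hm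
        generalize Nat.find h1 = l at h3 h4
        rcases l with _ | l
        · exact absurd h3 h2
        · obtain ⟨B, h5, h6⟩ := h3
          exact ⟨B, fun _ _ => ⟨h5, fun m hm => ⟨l, by have := h4 _ hm; omega, h6⟩⟩⟩
    · exact ⟨A, fun h => absurd h h1⟩
  choose nx hnx using nxt
  let st : Set V × ℕ → Set V × ℕ := fun s =>
    if e s.2 ∈ s.1 then (s.1, s.2 + 1) else (nx (e s.2) s.1, s.2)
  let s : ℕ → Set V × ℕ := fun n => st^[n] (S, 0)
  have hs : ∀ n, s (n + 1) = st (s n) := fun n => Function.iterate_succ_apply' _ _ _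
  have hR : ∀ n, Relation.ReflTransGen r S (s n).1 := by
    intro n
    induction n with
    | zero => exact .refl
    | succ n ih =>
      rw [hs]
      simp only [st]
      split_ifs with h1
      · exact ih
      · exact ih.tail (hnx _ _ (rch _ _ ih) h1).1
  have hit : ∀ m i, Rch r (e (s i).2) m (s i).1 →
      ∃ j, (s j).2 = (s i).2 ∧ e (s i).2 ∈ (s j).1 := by
    intro m
    induction m using Nat.strong_induction_on with
    | _ m ih =>
      intro i hi
      by_cases h1 : e (s i).2 ∈ (s i).1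
      · exact ⟨i, rfl, h1⟩
      · rcases m with _ | m
        · exact absurd hi h1
        · obtain ⟨l, h2, h3⟩ := (hnx _ _ ⟨_, hi⟩ h1).2 m hi
          have h4 : s (i + 1) = (nx (e (s i).2) (s i).1, (s i).2) := by
            rw [hs]; simp only [st]; rw [if_neg h1]
          have := ih l (by omega) (i + 1) (by rw [h4]; exact h3)
          rwa [h4] at this
  have all : ∀ n, ∃ j, (s j).2 = n ∧ e n ∈ (s j).1 := by
    intro n
    induction n with
    | zero =>
      obtain ⟨m, hm⟩ := rch (e (s 0).2) _ (hR 0)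
      exact hit m 0 hm
    | succ n ih =>
      obtain ⟨j, h1, h2⟩ := ih
      have h4 : (s (j + 1)).2 = n + 1 := by
        rw [hs]; simp only [st]; rw [h1, if_pos h2]
      obtain ⟨m, hm⟩ := rch (e (s (j + 1)).2) _ (hR (j + 1))
      have := hit m (j + 1) hm
      rwa [h4] at this
  refine ⟨fun n => (s n).1, rfl, fun n => ?_, fun v => ?_⟩
  · dsimp only
    rw [hs]
    simp only [st]
    split_ifs with h1
    · exact Or.inr rfl
    · exact Or.inl (hnx _ _ (rch _ _ (hR n)) h1).1
  · obtain ⟨n, rfl⟩ := he v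
    obtain ⟨j, _, h2⟩ := all n
    exact ⟨j, h2⟩

/-- the l1 distance -/
def D {k : ℕ} (a b : Fin k → ℤ) : ℕ := ∑ i, (a i - b i).natAbs

theorem D0 {k : ℕ} (a : Fin k → ℤ) : D a a = 0 := by simp [D]

theorem D1 {k : ℕ} (a b c : Fin k → ℤ) (h : (lattice k).Adj b c) : D a c ≤ D a b + 1 := by
  obtain ⟨i, h1, h2⟩ := h
  unfold D
  rw [← Finset.add_sum_erase _ _ (Finset.mem_univ i),
    ← Finset.add_sum_erase _ (fun i => (a i - b i).natAbs) (Finset.mem_univ i),
    Finset.sum_congr rfl (g := fun i => (a i - b i).natAbs)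
      (fun j hj => by rw [h2 j (Finset.ne_of_mem_erase hj)])]
  rcases abs_eq (by norm_num : (0 : ℤ) ≤ 1) |>.mp h1 with h | h <;> omega

theorem D2 {k : ℕ} (a b : Fin k → ℤ) (h : b ≠ a) :
    ∃ c, (lattice k).Adj c b ∧ D a c + 1 = D a b := by
  obtain ⟨i, hi⟩ := Function.ne_iff.mp h
  refine ⟨Function.update b i (if a i < b i then b i - 1 else b i + 1),
    ⟨i, ?_, fun j hj => Function.update_of_ne hj _ _⟩, ?_⟩
  · rw [Function.update_self]
    split_ifs <;> simp
  · unfold D
    rw [← Finset.add_sum_erase _ _ (Finset.mem_univ i),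
      ← Finset.add_sum_erase _ (fun i => (a i - b i).natAbs) (Finset.mem_univ i),
      Finset.sum_congr rfl (g := fun i => (a i - b i).natAbs)
        (fun j hj => by rw [Function.update_of_ne (Finset.ne_of_mem_erase hj)]),
      Function.update_self]
    split_ifs <;> omega

theorem dist_lat {k : ℕ} (a b : Fin k → ℤ) : (lattice k).dist a b = D a b :=
  GDist.dist_eq _ D D0 D1 D2 a b

theorem pre_lat (k : ℕ) : (lattice k).Preconnected := GDist.preconn _ D D0 D2

theorem geo {V : Type} {G : SimpleGraph V} (hG : G.Preconnected) {u v : V} (p : G.Walk u v)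
    (hp : p.length = G.dist u v) {i j l : ℕ} (h1 : i ≤ j) (h2 : j ≤ l) (h3 : l ≤ p.length) :
    G.dist (p.getVert i) (p.getVert j) + G.dist (p.getVert j) (p.getVert l) =
      G.dist (p.getVert i) (p.getVert l) := by
  have tri : ∀ a b c, G.dist a c ≤ G.dist a b + G.dist b c := fun a b c =>
    (hG a b).dist_triangle_left c
  have key : ∀ a d, a + d ≤ p.length → G.dist (p.getVert a) (p.getVert (a + d)) ≤ d := by
    intro a d
    induction d with
    | zero => simp
    | succ d ih =>
      intro h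
      have h4 := ih (by omega)
      have h5 := tri (p.getVert a) (p.getVert (a + d)) (p.getVert (a + d + 1))
      have h6 := SimpleGraph.dist_eq_one_iff_adj.mpr (p.adj_getVert_succ (i := a + d) (by omega))
      change G.dist _ (p.getVert (a + d + 1)) ≤ _
      omega
  have a1 := key 0 i (by omega)
  have a2 := key i (j - i) (by omega)
  have a3 := key j (l - j) (by omega)
  have a4 := key l (p.length - l) (by omega)
  rw [zero_add, p.getVert_zero] at a1
  rw [show i + (j - i) = j by omega] at a2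
  rw [show j + (l - j) = l by omega] at a3
  rw [show l + (p.length - l) = p.length by omega, p.getVert_length] at a4
  have a5 := tri u (p.getVert i) v
  have a6 := tri (p.getVert i) (p.getVert l) v
  have a7 := tri (p.getVert i) (p.getVert j) (p.getVert l)
  omega

/-- coordinatewise betweenness -/
def Btw {k : ℕ} (x y z : Fin k → ℤ) : Prop :=
  ∀ i, (x i ≤ y i ∧ y i ≤ z i) ∨ (z i ≤ y i ∧ y i ≤ x i)

theorem btw_iff {k : ℕ} (x y z : Fin k → ℤ) : D x y + D y z = D x z ↔ Btw x y z := by
  unfold D Btw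
  rw [← Finset.sum_add_distrib, eq_comm,
    Finset.sum_eq_sum_iff_of_le (fun i _ => by omega)]
  exact forall_congr' fun i => by simp only [Finset.mem_univ, true_imp_iff]; omega

theorem gp_iff {k : ℕ} (S : Set (Fin k → ℤ)) : IsGP (lattice k) S ↔
    ∀ x ∈ S, ∀ y ∈ S, ∀ z ∈ S, x ≠ y → x ≠ z → y ≠ z → ¬ Btw x y z := by
  constructor
  · intro h x hx y hy z hz h1 h2 h3 hb
    rw [← btw_iff, ← dist_lat, ← dist_lat, ← dist_lat] at hb
    obtain ⟨p, p1, p2⟩ := GDist.walk_of_between (pre_lat k) hb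
    exact h x z p p1 x hx y hy z hz h1 h2 h3 ⟨p.start_mem_support, p2, p.end_mem_support⟩
  · rintro h u v p hp x hx y hy z hz h1 h2 h3 ⟨h4, h5, h6⟩
    obtain ⟨i, rfl, hi⟩ := SimpleGraph.Walk.mem_support_iff_exists_getVert.mp h4
    obtain ⟨j, rfl, hj⟩ := SimpleGraph.Walk.mem_support_iff_exists_getVert.mp h5
    obtain ⟨l, rfl, hl⟩ := SimpleGraph.Walk.mem_support_iff_exists_getVert.mp h6
    have g : ∀ a b c, a ≤ b → b ≤ c → c ≤ p.length →
        Btw (p.getVert a) (p.getVert b) (p.getVert c) := fun a b c e1 e2 e3 => by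
      rw [← btw_iff, ← dist_lat, ← dist_lat, ← dist_lat]
      exact geo (pre_lat k) p hp e1 e2 e3
    rcases le_total i j with a | a <;> rcases le_total j l with b | b <;>
      rcases le_total i l with c | c
    · exact h _ hx _ hy _ hz h1 h2 h3 (g _ _ _ a b hl)
    · exact h _ hx _ hy _ hz h1 h2 h3 (g _ _ _ a b hl)
    · exact h _ hx _ hz _ hy h2 h1 h3.symm (g _ _ _ c b hj)
    · exact h _ hz _ hx _ hy h2.symm h3.symm h1 (g _ _ _ c a hj)
    · exact h _ hy _ hx _ hz h1.symm h3 h2 (g _ _ _ a c hl)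
    · exact h _ hy _ hz _ hx h3 h1.symm h2.symm (g _ _ _ b c hi)
    · exact h _ hz _ hy _ hx h3.symm h2.symm h1.symm (g _ _ _ b a hi)
    · exact h _ hz _ hy _ hx h3.symm h2.symm h1.symm (g _ _ _ b a hi)

theorem upper {k : ℕ} (S : Set (Fin (k + 1) → ℤ)) (h : IsGP (lattice (k + 1)) S) :
    S.encard ≤ (2 ^ 2 ^ k : ℕ) := by
  classical
  rw [gp_iff] at h
  let lt : (Fin (k + 1) → ℤ) → (Fin (k + 1) → ℤ) → Prop := fun a b => toLex a < toLex b
  have l0 : ∀ a b, lt a b → a 0 ≤ b 0 := by
    rintro a b ⟨i, h1, h2⟩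
    rcases Fin.eq_zero_or_eq_succ i with rfl | ⟨j, rfl⟩
    · exact le_of_lt h2
    · exact le_of_eq (h1 0 (Fin.succ_pos j))
  let col : (Fin (k + 1) → ℤ) → (Fin (k + 1) → ℤ) → Fin k → Bool := fun a b i =>
    decide (a i.succ ≤ b i.succ)
  let lab : (Fin (k + 1) → ℤ) → (Fin k → Bool) → Bool := fun b c =>
    decide (∃ a ∈ S, lt a b ∧ col a b = c)
  have key : ∀ a ∈ S, ∀ b ∈ S, lt a b → lab a ≠ lab b := by
    intro a ha b hb hab he
    have h1 : lab b (col a b) = true := decide_eq_true ⟨a, ha, hab, rfl⟩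
    rw [← he] at h1
    obtain ⟨x, hx, h2, h3⟩ := of_decide_eq_true h1
    refine h x hx a ha b hb (fun e => h2.ne (congrArg toLex e))
      (fun e => (h2.trans hab).ne (congrArg toLex e)) (fun e => hab.ne (congrArg toLex e)) ?_
    intro i
    rcases Fin.eq_zero_or_eq_succ i with rfl | ⟨j, rfl⟩
    · exact Or.inl ⟨l0 _ _ h2, l0 _ _ hab⟩
    · have := congrFun h3 j
      simp only [col, decide_eq_decide] at this
      omega
  have hinj : Set.InjOn lab S := by
    intro a ha b hb he
    rcases lt_trichotomy (toLex a) (toLex b) with h1 | h1 | h1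
    · exact absurd he (key a ha b hb h1)
    · exact h1
    · exact absurd he.symm (key b hb a ha h1)
  rw [← hinj.encard_image]
  refine (Set.encard_le_card).trans (le_of_eq ?_)
  simp

end Pool.Agent.H29.Mob
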