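import Mathlib
import Pool.Agent.H29.MobInf

set_option autoImplicit false

namespace Pool.Agent.H29.Mob

/-- signs -/
def eps {k : ℕ} (j : Fin (k + 1)) (d : ℕ) : ℤ :=
  Fin.cases 1 (fun i : Fin k => if d.testBit i then 1 else -1) j

theorem eps_cases {k : ℕ} (j : Fin (k + 1)) (d : ℕ) : eps j d = 1 ∨ eps j d = -1 := by
  rcases Fin.eq_zero_or_eq_succ j with rfl | ⟨i, rfl⟩
  · exact Or.inl rfl
  · simp only [eps, Fin.cases_succ]
    split_ifs <;> simp

/-- base positions -/
def base (k : ℕ) (x : Finset ℕ) (j : Fin (k + 1)) : ℤ :=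
  ∑ d ∈ Finset.range (2 ^ k), if d ∈ x then eps j d * (2 * 3 ^ d) else 0

theorem sum_bound (t : ℕ → ℤ) (h : ∀ d, t d ≤ 2 * 3 ^ d) (c : ℕ) :
    ∑ d ∈ Finset.range c, t d ≤ 3 ^ c - 1 := by
  induction c with
  | zero => simp
  | succ c ih =>
    rw [Finset.sum_range_succ, pow_succ]
    have := h c
    omega

theorem sep0 (k : ℕ) (a b : Finset ℕ) (c : ℕ) (hc : c < 2 ^ k) (h1 : c ∈ b) (h2 : c ∉ a)
    (h3 : ∀ d, c < d → (d ∈ a ↔ d ∈ b)) (j : Fin (k + 1)) :
    2 ≤ eps j c * (base k b j - base k a j) := by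
  let t : ℕ → ℤ := fun d => - (eps j c * ((if d ∈ b then eps j d * (2 * 3 ^ d) else 0) -
    (if d ∈ a then eps j d * (2 * 3 ^ d) else 0)))
  have e1 : eps j c * (base k b j - base k a j) = - ∑ d ∈ Finset.range (2 ^ k), t d := by
    unfold base
    rw [← Finset.sum_sub_distrib, Finset.mul_sum, ← Finset.sum_neg_distrib]
    simp only [t, neg_neg]
  have e2 : ∑ d ∈ Finset.range (2 ^ k), t d = ∑ d ∈ Finset.range (c + 1), t d := by
    symm
    refine Finset.sum_subset (Finset.range_subset_range.mpr hc) fun d _ hd => ?_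
    have := h3 d (by simpa using hd)
    simp only [t, this, sub_self, mul_zero, neg_zero]
  have e3 := sum_bound t (fun d => by
    have p : (0 : ℤ) < 3 ^ d := by positivity
    simp only [t]
    rcases eps_cases j c with a1 | a1 <;> rcases eps_cases j d with a2 | a2 <;> rw [a1, a2] <;>
      split_ifs <;> omega) c
  have e4 : t c = - (2 * 3 ^ c) := by
    simp only [t, if_pos h1, if_neg h2]
    rcases eps_cases j c with a1 | a1 <;> rw [a1] <;> ring
  have p : (0 : ℤ) < 3 ^ c := by positivity
  rw [e1, e2, Finset.sum_range_succ, e4]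
  omega

theorem sep (k : ℕ) (w : Finset ℕ → Fin (k + 1) → ℤ) (hw : ∀ x y j, w x j ≤ w y j + 1)
    (a b : Finset ℕ) (ha : a ⊆ Finset.range (2 ^ k)) (hb : b ⊆ Finset.range (2 ^ k)) (h : a ≠ b) :
    ∃ c, c < 2 ^ k ∧
      ((c ∈ b ∧ c ∉ a ∧ ∀ j, 1 ≤ eps j c * ((base k b + w b) j - (base k a + w a) j)) ∨
       (c ∈ a ∧ c ∉ b ∧ ∀ j, 1 ≤ eps j c * ((base k a + w a) j - (base k b + w b) j))) := by
  obtain ⟨c, hc, hmax⟩ := Finset.exists_max_image (symmDiff a b) id
    (Finset.nonempty_iff_ne_empty.mpr (fun h' => h (symmDiff_eq_bot.mp h')))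
  have h3 : ∀ d, c < d → (d ∈ a ↔ d ∈ b) := by
    intro d hd
    by_contra hn
    have := hmax d (by rw [Finset.mem_symmDiff]; tauto)
    simp only [id] at this
    omega
  rcases Finset.mem_symmDiff.mp hc with h1 | h1
  · have h4 := Finset.mem_range.mp (ha h1.1)
    refine ⟨c, h4, Or.inr ⟨h1.1, h1.2, fun j => ?_⟩⟩
    have h5 := sep0 k b a c h4 h1.1 h1.2 (fun d hd => (h3 d hd).symm) j
    have := hw a b j
    have := hw b a j
    simp only [Pi.add_apply]
    rcases eps_cases j c with a1 | a1 <;> rw [a1] at h5 ⊢ <;> omega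
  · have h4 := Finset.mem_range.mp (hb h1.1)
    refine ⟨c, h4, Or.inl ⟨h1.1, h1.2, fun j => ?_⟩⟩
    have h5 := sep0 k a b c h4 h1.1 h1.2 h3 j
    have := hw a b j
    have := hw b a j
    simp only [Pi.add_apply]
    rcases eps_cases j c with a1 | a1 <;> rw [a1] at h5 ⊢ <;> omega

/-- index set -/
def Ix (k : ℕ) : Set (Finset ℕ) := {x | x ⊆ Finset.range (2 ^ k)}

theorem inj (k : ℕ) (w : Finset ℕ → Fin (k + 1) → ℤ) (hw : ∀ x y j, w x j ≤ w y j + 1) :
    Set.InjOn (fun x => base k x + w x) (Ix k) := by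
  intro a ha b hb he
  by_contra h
  obtain ⟨c, _, h1 | h1⟩ := sep k w hw a b ha hb h
  · have := h1.2.2 0
    simp only at he
    rw [he] at this
    simp at this
  · have := h1.2.2 0
    simp only at he
    rw [he] at this
    simp at this

theorem gpc (k : ℕ) (w : Finset ℕ → Fin (k + 1) → ℤ) (hw : ∀ x y j, w x j ≤ w y j + 1) :
    IsGP (lattice (k + 1)) ((fun x => base k x + w x) '' Ix k) := by
  rw [gp_iff]
  rintro _ ⟨x, hx, rfl⟩ _ ⟨y, hy, rfl⟩ _ ⟨z, hz, rfl⟩ h1 _ h3 hb
  obtain ⟨c, c1, c2⟩ := sep k w hw x y hx hy (fun h => h1 (by rw [h]))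
  obtain ⟨d, d1, d2⟩ := sep k w hw y z hy hz (fun h => h3 (by rw [h]))
  have e : (∀ j : Fin (k + 1), eps j c = eps j d) → c = d := by
    intro h
    refine Nat.eq_of_testBit_eq fun i => ?_
    by_cases hi : i < k
    · have := h (Fin.succ ⟨i, hi⟩)
      simp only [eps, Fin.cases_succ] at this
      split_ifs at this <;> simp_all
    · have p : 2 ^ k ≤ 2 ^ i := Nat.pow_le_pow_right (by norm_num) (by omega)
      rw [Nat.testBit_lt_two_pow (by omega), Nat.testBit_lt_two_pow (by omega)]
  have z0 : ∀ n, eps (0 : Fin (k + 1)) n = 1 := fun _ => rfl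
  dsimp only at hb
  rcases c2 with c2 | c2 <;> rcases d2 with d2 | d2
  · obtain rfl := e fun j => by
      have a1 := c2.2.2 j
      have a2 := d2.2.2 j
      have a3 := hb j
      rcases eps_cases j c with b1 | b1 <;> rcases eps_cases j d with b2 | b2 <;>
        rw [b1] at a1 ⊢ <;> rw [b2] at a2 ⊢ <;> omega
    exact d2.2.1 c2.1
  · have a1 := c2.2.2 0
    have a2 := d2.2.2 0
    have a3 := hb 0
    rw [z0] at a1 a2
    omega
  · have a1 := c2.2.2 0
    have a2 := d2.2.2 0
    have a3 := hb 0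
    rw [z0] at a1 a2
    omega
  · obtain rfl := e fun j => by
      have a1 := c2.2.2 j
      have a2 := d2.2.2 j
      have a3 := hb j
      rcases eps_cases j c with b1 | b1 <;> rcases eps_cases j d with b2 | b2 <;>
        rw [b1] at a1 ⊢ <;> rw [b2] at a2 ⊢ <;> omega
    exact c2.2.1 d2.1

/-- moves between general position sets -/
def Mv {V : Type} (G : SimpleGraph V) (A B : Set V) : Prop := Move G A B ∧ IsGP G A

theorem Mv.symm {V : Type} (G : SimpleGraph V) (A B : Set V) (h : Mv G A B) : Mv G B A := by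
  obtain ⟨⟨a, ha, b, hb, hab, rfl, h1⟩, h2⟩ := h
  refine ⟨⟨b, Set.mem_insert _ _, a, ?_, hab.symm, ?_, h2⟩, h1⟩
  · simp [hab.ne]
  · ext x
    simp only [Set.mem_insert_iff, Set.mem_sdiff, Set.mem_singleton_iff]
    constructor
    · intro hx
      by_cases h : x = a
      · exact Or.inl h
      · exact Or.inr ⟨Or.inr ⟨hx, h⟩, fun h' => hb (h' ▸ hx)⟩
    · rintro (rfl | ⟨rfl | h, h'⟩)
      · exact ha
      · exact absurd rfl h'
      · exact h.1

theorem shift (k : ℕ) (s t : Fin (k + 1) → ℤ) (h : (lattice (k + 1)).Adj s t) :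
    Relation.ReflTransGen (Mv (lattice (k + 1))) ((fun x => base k x + s) '' Ix k)
      ((fun x => base k x + t) '' Ix k) := by
  have hw : ∀ (J : Finset (Finset ℕ)) (x y : Finset ℕ) (j : Fin (k + 1)),
      (if x ∈ J then t else s) j ≤ (if y ∈ J then t else s) j + 1 := by
    intro J x y j
    obtain ⟨i, h1, h2⟩ := h
    have h3 := abs_eq (by norm_num : (0 : ℤ) ≤ 1) |>.mp h1
    by_cases hj : j = i
    · subst hj
      split_ifs <;> omega
    · have := h2 j hj
      split_ifs <;> omega
  have key : ∀ J : Finset (Finset ℕ), (∀ x ∈ J, x ∈ Ix k) →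
      Relation.ReflTransGen (Mv (lattice (k + 1))) ((fun x => base k x + s) '' Ix k)
      ((fun x => base k x + if x ∈ J then t else s) '' Ix k) := by
    intro J
    induction J using Finset.induction_on with
    | empty => intro _; simpa using Relation.ReflTransGen.refl
    | insert a J ha ih =>
      intro hJ
      have hI := hJ a (Finset.mem_insert_self _ _)
      have i1 := inj k _ (hw J)
      have i2 := inj k _ (hw (insert a J))
      have ne : ∀ x, x ≠ a → (if x ∈ insert a J then t else s) = if x ∈ J then t else s :=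
        fun x hx => by simp [hx]
      refine (ih fun x hx => hJ x (Finset.mem_insert_of_mem hx)).tail
        ⟨⟨base k a + s, ⟨a, hI, by simp [ha]⟩, base k a + t, ?_, ?_, ?_, gpc k _ (hw _)⟩,
          gpc k _ (hw _)⟩
      · rintro ⟨x, hx, he⟩
        by_cases hxa : x = a
        · subst hxa
          simp only [if_neg ha, add_right_inj] at he
          exact h.ne he
        · exact hxa (i2 hx hI (by simp only [ne x hxa]; simpa using he))
      · obtain ⟨i, h1, h2⟩ := h
        exact ⟨i, by simpa using h1, fun j hj => by simp [h2 j hj]⟩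
      · ext v
        simp only [Set.mem_image, Set.mem_insert_iff, Set.mem_sdiff, Set.mem_singleton_iff]
        constructor
        · rintro ⟨x, hx, rfl⟩
          by_cases hxa : x = a
          · left; simp [hxa]
          · right
            rw [ne x hxa]
            exact ⟨⟨x, hx, rfl⟩, fun he => hxa (i1 hx hI (by simpa [ha] using he))⟩
        · rintro (rfl | ⟨⟨x, hx, rfl⟩, he⟩)
          · exact ⟨a, hI, by simp⟩
          · have hxa : x ≠ a := by
              rintro rfl
              exact he (by simp [ha])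
            exact ⟨x, hx, by rw [ne x hxa]⟩
  have := key (Finset.range (2 ^ k)).powerset fun x hx => Finset.mem_powerset.mp hx
  rwa [Set.image_congr (g := fun x => base k x + t)
    (f := fun x => base k x + if x ∈ (Finset.range (2 ^ k)).powerset then t else s)
    (fun x hx => by rw [if_pos (Finset.mem_powerset.mpr hx)])] at this

theorem main (k : ℕ) : mobInf (lattice (k + 1)) = (2 ^ 2 ^ k : ℕ) := by
  apply le_antisymm
  · refine sSup_le ?_
    rintro _ ⟨S, hS, rfl⟩
    exact upper S hS.1
  · have all : ∀ t, Relation.ReflTransGen (Mv (lattice (k + 1)))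
        ((fun x => base k x + 0) '' Ix k) ((fun x => base k x + t) '' Ix k) := by
      intro t
      obtain ⟨p⟩ := pre_lat (k + 1) 0 t
      generalize (0 : Fin (k + 1) → ℤ) = s at p
      induction p with
      | nil => exact .refl
      | cons h _ ih => exact (shift k _ _ h).trans ih
    obtain ⟨f, h0, h1, h2⟩ := tour _ (Mv.symm (lattice (k + 1))) ((fun x => base k x + 0) '' Ix k)
      fun v => ⟨_, all (v - base k ∅), ∅, Finset.empty_subset _, by simp⟩
    refine le_sSup ⟨_, ⟨gpc k (fun _ => 0) (by simp), f, h0,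
      fun n => (h1 n).imp And.left id, h2⟩, ?_⟩
    rw [(inj k (fun _ => 0) (by simp)).encard_image,
      show Ix k = ((Finset.range (2 ^ k)).powerset : Set (Finset ℕ)) from
        Set.ext fun _ => Finset.mem_powerset.symm,
      Set.encard_coe_eq_coe_finsetCard]
    simp

end Pool.Agent.H29.Mob
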