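import Mathlib
import Pool.Agent.H29.MobDefs

set_option autoImplicit false

namespace Pool.Agent.H29.Mob

theorem chain_of_rtg {α : Type} {r : α → α → Prop} {A B : α} (h : Relation.ReflTransGen r A B)
    (L : List α) (hL : List.IsChain r (B :: L)) :
    ∃ L', List.IsChain r (A :: L') ∧ ∀ T ∈ B :: L, T ∈ A :: L' := by
  induction h using Relation.ReflTransGen.head_induction_on with
  | refl => exact ⟨L, hL, fun _ h => h⟩
  | head hab _ ih =>
    obtain ⟨L', h1, h2⟩ := ih
    exact ⟨_ :: L', List.IsChain.cons_cons hab h1, fun T hT => List.mem_cons_of_mem _ (h2 T hT)⟩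

theorem mobile_of {V : Type} [Finite V] (G : SimpleGraph V) (S : Set V) (hS : IsGP G S)
    (h : ∀ v, ∃ B, v ∈ B ∧ Relation.ReflTransGen (Move G) S B ∧
      Relation.ReflTransGen (Move G) B S) : IsMobile G S := by
  classical
  refine ⟨hS, ?_⟩
  have : ∀ F : Finset V, ∃ L : List (Set V), List.IsChain (Move G) (S :: L) ∧
      ∀ v ∈ F, ∃ T ∈ S :: L, v ∈ T := by
    intro F
    induction F using Finset.induction_on with
    | empty => exact ⟨[], List.IsChain.singleton _, by simp⟩
    | insert v F _ ih =>
      obtain ⟨L, h1, h2⟩ := ih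
      obtain ⟨B, hv, h3, h4⟩ := h v
      obtain ⟨L1, h5, h6⟩ := chain_of_rtg h4 L h1
      obtain ⟨L2, h7, h8⟩ := chain_of_rtg h3 L1 h5
      refine ⟨L2, h7, fun w hw => ?_⟩
      rcases Finset.mem_insert.mp hw with rfl | hw
      · exact ⟨B, h8 B List.mem_cons_self, hv⟩
      · obtain ⟨T, hT, hw⟩ := h2 w hw
        exact ⟨T, h8 T (h6 T hT), hw⟩
  have hF := Fintype.ofFinite V
  obtain ⟨L, h1, h2⟩ := this Finset.univ
  exact ⟨L, h1, fun v => h2 v (Finset.mem_univ _)⟩

theorem dist_le_two {V : Type} (G : SimpleGraph V) (u v : Option V) :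
    (joinOne G).dist u v ≤ 2 := by
  rcases u with _ | u <;> rcases v with _ | v
  · simp
  · exact le_trans ((joinOne G).dist_le (.cons (show (joinOne G).Adj none (some v) from trivial)
      .nil)) (by simp)
  · exact le_trans ((joinOne G).dist_le (.cons (show (joinOne G).Adj (some u) none from trivial)
      .nil)) (by simp)
  · exact (joinOne G).dist_le (.cons (show (joinOne G).Adj (some u) none from trivial)
      (.cons (show (joinOne G).Adj none (some v) from trivial) .nil))

theorem gp_of {V : Type} (G : SimpleGraph V) (S : Set (Option V))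
    (h : ∀ u ∈ S, ∀ m ∈ S, ∀ v ∈ S, u ≠ v → (joinOne G).Adj u m → (joinOne G).Adj m v →
      (joinOne G).Adj u v) : IsGP (joinOne G) S := by
  intro u v p hp x hx y hy z hz h1 h2 h3 ⟨h4, h5, h6⟩
  have hd := dist_le_two G u v
  rcases p with _ | ⟨h7, _ | ⟨h8, _ | ⟨h9, q⟩⟩⟩
  · simp at h4 h5; exact h1 (h4.trans h5.symm)
  · simp at h4 h5 h6
    rcases h4 with rfl | rfl <;> rcases h5 with rfl | rfl <;> rcases h6 with h | h <;> simp_all
  · simp only [SimpleGraph.Walk.length_cons, SimpleGraph.Walk.length_nil] at hp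
    have huv : u ≠ v := by
      rintro rfl
      simp at hp
    have hna : ¬ (joinOne G).Adj u v := by
      intro ha
      have := (joinOne G).dist_le (.cons ha .nil)
      simp only [SimpleGraph.Walk.length_cons, SimpleGraph.Walk.length_nil] at this
      omega
    simp only [SimpleGraph.Walk.support_cons, SimpleGraph.Walk.support_nil, List.mem_cons,
      List.not_mem_nil, or_false] at h4 h5 h6
    refine hna (h u ?_ _ ?_ v ?_ huv h7 h8) <;>
    rcases h4 with rfl | rfl | rfl <;> rcases h5 with rfl | rfl | rfl <;>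
      rcases h6 with rfl | rfl | rfl <;> first | assumption | exact absurd rfl ‹_›
  · simp only [SimpleGraph.Walk.length_cons] at hp
    omega

theorem gp3 {V : Type} (G : SimpleGraph V) (a b y : Option V) (hab : (joinOne G).Adj a b)
    (h : (joinOne G).Adj a y ↔ (joinOne G).Adj b y) : IsGP (joinOne G) {a, b, y} := by
  apply gp_of
  have h1 := hab.symm
  have h2 : (joinOne G).Adj y a ↔ (joinOne G).Adj a y := (joinOne G).adj_comm _ _
  have h3 : (joinOne G).Adj y b ↔ (joinOne G).Adj b y := (joinOne G).adj_comm _ _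
  rintro u (rfl | rfl | rfl) m (rfl | rfl | rfl) v (rfl | rfl | rfl) huv h4 h5 <;>
    first | assumption | exact absurd rfl huv | tauto

theorem move3 {V : Type} (G : SimpleGraph V) (a b c d : V) (h1 : a ≠ c) (h2 : b ≠ c) (h3 : a ≠ d)
    (h4 : b ≠ d) (h : G.Adj c d) (hg : IsGP G {a, b, d}) : Move G {a, b, c} {a, b, d} := by
  refine ⟨c, by simp, d, ?_, h, ?_, hg⟩
  · simp [h3.symm, h4.symm, h.ne.symm]
  · ext x
    simp only [Set.mem_insert_iff, Set.mem_singleton_iff, Set.mem_diff]
    constructor
    · rintro (rfl | rfl | rfl)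
      · exact Or.inr ⟨Or.inl rfl, h1⟩
      · exact Or.inr ⟨Or.inr (Or.inl rfl), h2⟩
      · exact Or.inl rfl
    · tauto

theorem visit {V : Type} (G : SimpleGraph V) (a b c y : V) (hab : G.Adj a b) (hac : G.Adj a c)
    (hbc : G.Adj b c) (hya : a ≠ y) (hyb : b ≠ y) (h : G.Adj a y ↔ G.Adj b y) :
    ∃ B, none ∈ B ∧ Relation.ReflTransGen (Move (joinOne G)) {some a, some b, some c} B ∧
      Relation.ReflTransGen (Move (joinOne G)) B {some a, some b, some c} ∧
    ∃ B, some y ∈ B ∧ Relation.ReflTransGen (Move (joinOne G)) {some a, some b, some c} B ∧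
      Relation.ReflTransGen (Move (joinOne G)) B {some a, some b, some c} := by
  have g0 : IsGP (joinOne G) {some a, some b, none} := gp3 G _ _ _ hab Iff.rfl
  have g1 : IsGP (joinOne G) {some a, some b, some c} :=
    gp3 G _ _ _ hab ⟨fun _ => hbc, fun _ => hac⟩
  have g2 : IsGP (joinOne G) {some a, some b, some y} := gp3 G _ _ _ hab h
  have m1 := move3 (joinOne G) (some a) (some b) (some c) none (by simpa using hac.ne)
    (by simpa using hbc.ne) (by simp) (by simp) trivial g0
  have m2 := move3 (joinOne G) (some a) (some b) none (some c) (by simp) (by simp)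
    (by simpa using hac.ne) (by simpa using hbc.ne) trivial g1
  have m3 := move3 (joinOne G) (some a) (some b) (some y) none (by simpa using hya)
    (by simpa using hyb) (by simp) (by simp) trivial g0
  have m4 := move3 (joinOne G) (some a) (some b) none (some y) (by simp) (by simp)
    (by simpa using hya) (by simpa using hyb) trivial g2
  exact ⟨_, by simp, .single m1, .single m2, _, by simp, .tail (.single m1) m4,
    .tail (.single m3) m2⟩

theorem main {V : Type} [Finite V] (G : SimpleGraph V) (a b c : V) (hab : G.Adj a b)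
    (hac : G.Adj a c) (hbc : G.Adj b c) : 3 ≤ mob (joinOne G) := by
  have hm : IsMobile (joinOne G) {some a, some b, some c} := by
    refine mobile_of _ _ (gp3 G _ _ _ hab ⟨fun _ => hbc, fun _ => hac⟩) ?_
    rintro (_ | y)
    · obtain ⟨B, h1, h2, h3, _⟩ := visit G a b c c hab hac hbc hac.ne hbc.ne
        ⟨fun _ => hbc, fun _ => hac⟩
      exact ⟨B, h1, h2, h3⟩
    · by_cases hy : y = a ∨ y = b ∨ y = c
      · exact ⟨_, by simpa using hy, .refl, .refl⟩
      · push Not at hy
        have e1 : ({some a, some b, some c} : Set (Option V)) = {some a, some c, some b} := by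
          ext; simp only [Set.mem_insert_iff, Set.mem_singleton_iff]; tauto
        have e2 : ({some a, some b, some c} : Set (Option V)) = {some b, some c, some a} := by
          ext; simp only [Set.mem_insert_iff, Set.mem_singleton_iff]; tauto
        have : (G.Adj a y ↔ G.Adj b y) ∨ (G.Adj a y ↔ G.Adj c y) ∨ (G.Adj b y ↔ G.Adj c y) := by
          tauto
        rcases this with h | h | h
        · obtain ⟨_, _, _, _, h⟩ := visit G a b c y hab hac hbc hy.1.symm hy.2.1.symm h
          exact h
        · obtain ⟨_, _, _, _, h⟩ := visit G a c b y hac hab hbc.symm hy.1.symm hy.2.2.symm h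
          rw [e1]
          exact h
        · obtain ⟨_, _, _, _, h⟩ := visit G b c a y hbc hab.symm hac.symm hy.2.1.symm
            hy.2.2.symm h
          rw [e2]
          exact h
  refine le_csSup ⟨Nat.card (Option V), ?_⟩ ⟨_, hm, ?_⟩
  · rintro n ⟨S, _, rfl⟩
    exact Set.ncard_le_card S
  · symm
    rw [Set.ncard_eq_three]
    exact ⟨_, _, _, by simpa using hab.ne, by simpa using hac.ne, by simpa using hbc.ne, rfl⟩

end Pool.Agent.H29.Mob
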