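import Mathlib

set_option autoImplicit false

namespace Pool.Agent.H29.ModRado

open Filter

/-- every set of `m` naturals has a difference in `Q` -/
def Delta (m : ℕ) (Q : ℕ → Prop) : Prop :=
  ∀ S : Finset ℕ, S.card = m → ∃ x ∈ S, ∃ y ∈ S, x < y ∧ Q (y - x)

theorem Delta.lim {ι : Type} (W : Ultrafilter ι) {m : ℕ} {Q : ι → ℕ → Prop}
    (h : ∀ i, Delta m (Q i)) : Delta m (fun n => ∀ᶠ i in W, Q i n) := by
  intro S hS
  have h1 : ∀ᶠ i in W, ∃ p : S × S, p.1.1 < p.2.1 ∧ Q i (p.2.1 - p.1.1) :=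
    Eventually.of_forall (fun i => by
      obtain ⟨x, hx, y, hy, h1, h2⟩ := h i S hS
      exact ⟨(⟨x, hx⟩, ⟨y, hy⟩), h1, h2⟩)
  obtain ⟨p, hp⟩ := Ultrafilter.eventually_exists_iff.mp h1
  refine ⟨p.1.1, p.1.2, p.2.1, p.2.2, hp.exists.choose_spec.1, hp.mono (fun i hi => hi.2)⟩

/-- the difference ultrafilter -/
noncomputable def V : Ultrafilter ℕ :=
  (hyperfilter ℕ).bind (fun i => (hyperfilter ℕ).map (fun j => j - i))

theorem mem_V (Q : ℕ → Prop) :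
    (∀ᶠ n in V, Q n) ↔ ∀ᶠ i in hyperfilter ℕ, ∀ᶠ j in hyperfilter ℕ, Q (j - i) := Iff.rfl

theorem ev_gt (i : ℕ) : ∀ᶠ j in hyperfilter ℕ, i < j :=
  Nat.hyperfilter_le_atTop (eventually_gt_atTop i)

theorem V_pos : ∀ᶠ n in V, 0 < n := by
  rw [mem_V]
  exact Eventually.of_forall (fun i => (ev_gt i).mono (fun j hj => by omega))

theorem Delta.mem {m : ℕ} {Q : ℕ → Prop} (h : Delta m Q) : ∀ᶠ n in V, Q n := by
  by_contra hc
  rw [← Ultrafilter.eventually_not, mem_V] at hc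
  have key : ∀ n, ∃ S : Finset ℕ, S.card = n ∧
      (∀ x ∈ S, ∀ᶠ j in hyperfilter ℕ, ¬ Q (j - x)) ∧
      ∀ x ∈ S, ∀ y ∈ S, x < y → ¬ Q (y - x) := by
    intro n
    induction n with
    | zero => exact ⟨∅, rfl, by simp, by simp⟩
    | succ n ih =>
      obtain ⟨S, h1, h2, h3⟩ := ih
      have a1 : ∀ᶠ j in hyperfilter ℕ, ∀ x ∈ S, ¬ Q (j - x) := (eventually_all_finset S).mpr h2
      have a2 : ∀ᶠ j in hyperfilter ℕ, ∀ x ∈ S, x < j :=
        (eventually_all_finset S).mpr (fun x _ => ev_gt x)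
      obtain ⟨j, hj1, hj2, hj3⟩ := (hc.and (a1.and a2)).exists
      have hjS : j ∉ S := fun h => lt_irrefl _ (hj3 j h)
      refine ⟨insert j S, by rw [Finset.card_insert_of_notMem hjS, h1], ?_, ?_⟩
      · intro x hx
        rcases Finset.mem_insert.mp hx with rfl | hx
        · exact hj1
        · exact h2 x hx
      · intro x hx y hy hxy
        rcases Finset.mem_insert.mp hx with hx | hx <;> rcases Finset.mem_insert.mp hy with hy | hy
        · omega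
        · have := hj3 y hy; omega
        · rw [hy]; exact hj2 x hx
        · exact h3 x hx y hy hxy
  obtain ⟨S, h1, _, h3⟩ := key m
  obtain ⟨x, hx, y, hy, hxy, hQ⟩ := h S h1
  exact h3 x hx y hy hxy hQ

theorem ev_colour {ι : Type} (W : Ultrafilter ι) {K : ℕ} (γ : ι → Fin K) :
    ∃ g, ∀ᶠ i in W, γ i = g :=
  Ultrafilter.eventually_exists_iff.mp (Eventually.of_forall (fun i => ⟨γ i, rfl⟩))

theorem pair {K m : ℕ} (γ : ℕ → Fin K) (R : ℕ → ℕ → Prop) (h : ∀ a, Delta m (R a)) :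
    ∃ a b, 0 < a ∧ γ a = γ b ∧ R a b ∧ R b a := by
  obtain ⟨g, hg⟩ := ev_colour V γ
  obtain ⟨a, ha1, ha2, ha3⟩ := (V_pos.and (hg.and (Delta.lim V h).mem)).exists
  obtain ⟨b, hb1, hb2, hb3⟩ := (hg.and (ha3.and (h a).mem)).exists
  exact ⟨a, b, ha1, ha2.trans hb1.symm, hb3, hb2⟩

theorem pair_lim {K m : ℕ} (γ : ℕ → ℕ → Fin K) (R : ℕ → ℕ → ℕ → Prop)
    (h : ∀ D a, Delta m (R D a)) :
    ∃ D a b, 0 < a ∧ a < D ∧ γ D a = γ D b ∧ R D a b ∧ R D b a := by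
  choose g hg using fun a => ev_colour (hyperfilter ℕ) (fun D => γ D a)
  obtain ⟨a, b, h0, h1, h2, h3⟩ := pair g (fun a n => ∀ᶠ D in hyperfilter ℕ, R D a n)
    (fun a => Delta.lim _ (fun D => h D a))
  obtain ⟨D, d1, d2, d3, d4, d5⟩ := ((ev_gt a).and ((hg a).and ((hg b).and (h2.and h3)))).exists
  exact ⟨D, a, b, h0, d1, by rw [d2, d3, h1], d4, d5⟩

theorem dense_colour {G : Type} [AddCommGroupWithOne G] [Fintype G] {K : ℕ} (c : G → Fin K) :
    ∃ g, Delta (K + 1) (fun n => ∃ u u', c u = g ∧ c u' = g ∧ u' - u = n) := by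
  classical
  have hK : 0 < K := Fin.pos (c 0)
  have : Nonempty (Fin K) := ⟨c 0⟩
  obtain ⟨g, hg⟩ : ∃ g, Fintype.card G ≤ K * (Finset.univ.filter (fun u => c u = g)).card := by
    by_contra hc
    push Not at hc
    have h1 := Finset.sum_lt_sum_of_nonempty (s := (Finset.univ : Finset (Fin K)))
      Finset.univ_nonempty (fun g _ => hc g)
    rw [← Finset.mul_sum, ← Finset.card_eq_sum_card_fiberwise (fun _ _ => Finset.mem_univ _)] at h1
    simp at h1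
  refine ⟨g, fun S hS => ?_⟩
  set A := Finset.univ.filter (fun u => c u = g) with hA
  have hpos : 0 < Fintype.card G := Fintype.card_pos
  have hlt : (Finset.univ : Finset G).card < (S ×ˢ A).card := by
    rw [Finset.card_product, hS, Finset.card_univ]
    have : 0 < A.card := by
      by_contra h0
      have : A.card = 0 := by omega
      rw [this] at hg
      omega
    nlinarith
  obtain ⟨p, hp, q, hq, hne, heq⟩ := Finset.exists_ne_map_eq_of_card_lt_of_maps_to hlt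
    (f := fun p : ℕ × G => (p.1 : G) + p.2) (fun _ _ => Finset.mem_univ _)
  obtain ⟨hp1, hp2⟩ := Finset.mem_product.mp hp
  obtain ⟨hq1, hq2⟩ := Finset.mem_product.mp hq
  have hp3 := (Finset.mem_filter.mp hp2).2
  have hq3 := (Finset.mem_filter.mp hq2).2
  rcases lt_trichotomy p.1 q.1 with h | h | h
  · refine ⟨p.1, hp1, q.1, hq1, h, q.2, p.2, hq3, hp3, ?_⟩
    rw [Nat.cast_sub h.le]
    rw [sub_eq_sub_iff_add_eq_add, add_comm, heq]
  · exfalso
    apply hne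
    simp only [h, add_right_inj] at heq
    exact Prod.ext h heq
  · refine ⟨q.1, hq1, p.1, hp1, h, p.2, q.2, hp3, hq3, ?_⟩
    rw [Nat.cast_sub h.le]
    rw [sub_eq_sub_iff_add_eq_add, add_comm, ← heq]

theorem dvd_of_dvd {r e : ℕ} (he : e ≤ r) (z : ℕ)
    (h : (2 : ZMod (2 ^ r)) ^ e ∣ (z : ZMod (2 ^ r))) : 2 ^ e ∣ z := by
  have h1 := map_dvd (ZMod.castHom (pow_dvd_pow 2 he) (ZMod (2 ^ e))) h
  rw [map_pow, map_natCast, map_ofNat] at h1
  have h2 : (2 : ZMod (2 ^ e)) ^ e = 0 := by exact_mod_cast ZMod.natCast_self (2 ^ e)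
  rw [h2, zero_dvd_iff] at h1
  exact (ZMod.natCast_eq_zero_iff _ _).mp h1

theorem main : ¬ (∀ k : ℕ, ∃ K : ℕ, ∀ r : ℕ, ∀ a : Fin k → ZMod (2 ^ r), ∀ d : ℕ, d ≤ r →
      (∃ I : Finset (Fin k), I.Nonempty ∧ (2 : ZMod (2 ^ r)) ^ d ∣ ∑ i ∈ I, a i) →
      (∀ d' : ℕ, d < d' → d' ≤ r → ∀ I : Finset (Fin k), I.Nonempty →
          ¬ (2 : ZMod (2 ^ r)) ^ d' ∣ ∑ i ∈ I, a i) →
      ∃ c : ZMod (2 ^ r) → Fin K, ∀ x : Fin k → ZMod (2 ^ r),
        (∀ i j, c (x i) = c (x j)) → ∑ i, a i * x i = 0 →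
          ∀ i, (2 : ZMod (2 ^ r)) ^ (r - d) ∣ x i) := by
  intro h
  obtain ⟨K, hK⟩ := h 4
  let n : ℕ → Fin 4 → ℕ := fun D => ![1, 1, 2 ^ (D + 1) - 1, 2 ^ (D + 1) - 1]
  have hn1 : ∀ D i, 0 < n D i := by
    intro D i
    fin_cases i <;> simp [n]
  have hn2 : ∀ D, ∑ i, n D i = 2 ^ (D + 2) := by
    intro D
    have : 2 ≤ 2 ^ (D + 1) := Nat.le_self_pow (by omega) 2
    simp [n, Fin.sum_univ_four, pow_succ] at this ⊢
    omega
  have hc := fun D => hK (2 * D + 2) (fun i => (n D i : ZMod (2 ^ (2 * D + 2)))) (D + 2)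
    (by omega) ⟨Finset.univ, Finset.univ_nonempty, by
      rw [← Nat.cast_sum, hn2]; simp⟩ (by
      intro d' h1 h2 I hI hdvd
      rw [← Nat.cast_sum] at hdvd
      have h3 := dvd_of_dvd h2 _ hdvd
      have h4 : 0 < ∑ i ∈ I, n D i := Finset.sum_pos (fun i _ => hn1 D i) hI
      have h5 : ∑ i ∈ I, n D i ≤ 2 ^ (D + 2) := by
        rw [← hn2]; exact Finset.sum_le_sum_of_subset (Finset.subset_univ _)
      have h6 := Nat.le_of_dvd h4 h3
      have h7 : 2 ^ (D + 2) < 2 ^ d' := Nat.pow_lt_pow_right (by norm_num) h1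
      omega)
  choose c hc using hc
  have hrow := fun (D a : ℕ) => dense_colour (G := ZMod (2 ^ (2 * D + 2)))
    (fun u => c D ((a : ZMod (2 ^ (2 * D + 2))) + 2 ^ (D + 1) * u))
  choose γ hγ using hrow
  obtain ⟨D, a, b, h0, h1, h2, ⟨u, u', hu, hu', huu⟩, ⟨v, v', hv, hv', hvv⟩⟩ :=
    pair_lim γ _ hγ
  have hε : (2 : ZMod (2 ^ (2 * D + 2))) ^ (D + 1) * 2 ^ (D + 1) = 0 := by
    rw [← pow_add, show D + 1 + (D + 1) = 2 * D + 2 by ring]
    exact_mod_cast ZMod.natCast_self (2 ^ (2 * D + 2))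
  have hn3 : ((2 ^ (D + 1) - 1 : ℕ) : ZMod (2 ^ (2 * D + 2))) = 2 ^ (D + 1) - 1 := by
    rw [Nat.cast_sub Nat.one_le_two_pow]; simp
  have := hc D ![a + 2 ^ (D + 1) * u, b + 2 ^ (D + 1) * v, a + 2 ^ (D + 1) * u',
    b + 2 ^ (D + 1) * v'] (by
      have key : ∀ i, c D (![(a : ZMod (2 ^ (2 * D + 2))) + 2 ^ (D + 1) * u, b + 2 ^ (D + 1) * v,
          a + 2 ^ (D + 1) * u', b + 2 ^ (D + 1) * v'] i) = γ D a := by
        intro i
        fin_cases i
        · exact hu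
        · exact hv.trans h2.symm
        · exact hu'
        · exact hv'.trans h2.symm
      intro i j
      rw [key, key]) (by
      simp only [n, Fin.sum_univ_four, Matrix.cons_val_zero, Matrix.cons_val_one,
        Matrix.cons_val, hn3, Nat.cast_one]
      linear_combination (u' + v') * hε - 2 ^ (D + 1) * huu - 2 ^ (D + 1) * hvv) 0
  simp only [Matrix.cons_val_zero] at this
  rw [show 2 * D + 2 - (D + 2) = D by omega] at this
  have h3 : (2 : ZMod (2 ^ (2 * D + 2))) ^ D ∣ 2 ^ (D + 1) * u :=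
    Dvd.dvd.mul_right (pow_dvd_pow 2 (Nat.le_succ D)) u
  have h4 := dvd_of_dvd (by omega) a ((dvd_add_left h3).mp this)
  have h5 := Nat.le_of_dvd h0 h4
  have h6 : D < 2 ^ D := Nat.lt_two_pow_self
  omega

end Pool.Agent.H29.ModRado
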