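import Mathlib

set_option autoImplicit false

namespace Pool.Agent.H29.OptDesign

open Polynomial

/-- power traces of the Laplacian of a multigraph on five vertices -/
def pw (x01 x02 x03 x04 x12 x13 x14 x23 x24 x34 : ℤ) : ℤ × ℤ × ℤ × ℤ :=
  let d0 := x01 + x02 + x03 + x04
  let d1 := x01 + x12 + x13 + x14
  let d2 := x02 + x12 + x23 + x24
  let d3 := x03 + x13 + x23 + x34
  let d4 := x04 + x14 + x24 + x34
  let m00 := d0 * d0 + x01 * x01 + x02 * x02 + x03 * x03 + x04 * x04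
  let m01 := x02 * x12 + x03 * x13 + x04 * x14 - (d0 + d1) * x01
  let m02 := x01 * x12 + x03 * x23 + x04 * x24 - (d0 + d2) * x02
  let m03 := x01 * x13 + x02 * x23 + x04 * x34 - (d0 + d3) * x03
  let m04 := x01 * x14 + x02 * x24 + x03 * x34 - (d0 + d4) * x04
  let m11 := d1 * d1 + x01 * x01 + x12 * x12 + x13 * x13 + x14 * x14
  let m12 := x01 * x02 + x13 * x23 + x14 * x24 - (d1 + d2) * x12
  let m13 := x01 * x03 + x12 * x23 + x14 * x34 - (d1 + d3) * x13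
  let m14 := x01 * x04 + x12 * x24 + x13 * x34 - (d1 + d4) * x14
  let m22 := d2 * d2 + x02 * x02 + x12 * x12 + x23 * x23 + x24 * x24
  let m23 := x02 * x03 + x12 * x13 + x24 * x34 - (d2 + d3) * x23
  let m24 := x02 * x04 + x12 * x14 + x23 * x34 - (d2 + d4) * x24
  let m33 := d3 * d3 + x03 * x03 + x13 * x13 + x23 * x23 + x34 * x34
  let m34 := x03 * x04 + x13 * x14 + x23 * x24 - (d3 + d4) * x34
  let m44 := d4 * d4 + x04 * x04 + x14 * x14 + x24 * x24 + x34 * x34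
  (d0 + d1 + d2 + d3 + d4,
   m00 + m11 + m22 + m33 + m44,
   m00 * d0 + m11 * d1 + m22 * d2 + m33 * d3 + m44 * d4 - 2 * (m01 * x01 + m02 * x02 + m03 * x03 + m04 * x04 + m12 * x12 + m13 * x13 + m14 * x14 + m23 * x23 + m24 * x24 + m34 * x34),
   m00 * m00 + m11 * m11 + m22 * m22 + m33 * m33 + m44 * m44 + 2 * (m01 * m01 + m02 * m02 + m03 * m03 + m04 * m04 + m12 * m12 + m13 * m13 + m14 * m14 + m23 * m23 + m24 * m24 + m34 * m34))

/-- the numerical conditions on the power traces -/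
def okP (p : ℤ × ℤ × ℤ × ℤ) : Bool :=
  let e1 := p.1
  let e2 := p.1 * p.1 - p.2.1
  let e3 := p.1 * p.1 * p.1 - 3 * p.1 * p.2.1 + 2 * p.2.2.1
  let e4 := p.1 * p.1 * p.1 * p.1 - 6 * p.1 * p.1 * p.2.1 + 3 * p.2.1 * p.2.1
    + 8 * p.1 * p.2.2.1 - 6 * p.2.2.2
  decide (0 < e4) && decide (e4 ≤ 24 * 60) && decide (23 * e4 ≤ 60 * e3) &&
    (decide (e1 - 8 ≤ 0) || decide (e2 - 12 * e1 + 48 ≤ 0) ||
      decide (e3 - 12 * e2 + 72 * e1 - 192 ≤ 0) ||
      decide (e4 - 8 * e3 + 48 * e2 - 192 * e1 + 384 ≤ 0))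

/-- some cut has no crossing edge -/
def cut (x01 x02 x03 x04 x12 x13 x14 x23 x24 x34 : ℕ) : Prop :=
  (x01 + x02 + x03 + x04 = 0) ∨
  (x02 + x03 + x04 + x12 + x13 + x14 = 0) ∨
  (x01 + x03 + x04 + x12 + x23 + x24 = 0) ∨
  (x03 + x04 + x13 + x14 + x23 + x24 = 0) ∨
  (x01 + x02 + x04 + x13 + x23 + x34 = 0) ∨
  (x02 + x04 + x12 + x14 + x23 + x34 = 0) ∨
  (x01 + x04 + x12 + x13 + x24 + x34 = 0) ∨
  (x04 + x14 + x24 + x34 = 0) ∨
  (x01 + x02 + x03 + x14 + x24 + x34 = 0) ∨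
  (x02 + x03 + x12 + x13 + x24 + x34 = 0) ∨
  (x01 + x03 + x12 + x14 + x23 + x34 = 0) ∨
  (x03 + x13 + x23 + x34 = 0) ∨
  (x01 + x02 + x13 + x14 + x23 + x24 = 0) ∨
  (x02 + x12 + x23 + x24 = 0) ∨
  (x01 + x12 + x13 + x14 = 0)

instance (x01 x02 x03 x04 x12 x13 x14 x23 x24 x34 : ℕ) : Decidable (cut x01 x02 x03 x04 x12 x13 x14 x23 x24 x34) := by
  unfold cut; infer_instance

/-- the check for one multigraph -/
def ok (x01 x02 x03 x04 x12 x13 x14 x23 x24 x34 : ℕ) : Bool :=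
  okP (pw x01 x02 x03 x04 x12 x13 x14 x23 x24 x34) || decide (cut x01 x02 x03 x04 x12 x13 x14 x23 x24 x34)

/-- bounded loop -/
def allLe (n : ℕ) (f : ℕ → Bool) : Bool := (List.range (n + 1)).all f

theorem allLe_spec {n : ℕ} {f : ℕ → Bool} (h : allLe n f = true) {k : ℕ} (hk : k ≤ n) :
    f k = true := List.all_eq_true.mp h k (List.mem_range.mpr (Nat.lt_succ_of_le hk))

/-- the full enumeration -/
def checkAll : Bool :=
  allLe (6) fun x01 =>
  allLe (6 - x01) fun x02 =>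
  allLe (6 - x01 - x02) fun x03 =>
  allLe (6 - x01 - x02 - x03) fun x04 =>
  allLe (6 - x01 - x02 - x03 - x04) fun x12 =>
  allLe (6 - x01 - x02 - x03 - x04 - x12) fun x13 =>
  allLe (6 - x01 - x02 - x03 - x04 - x12 - x13) fun x14 =>
  allLe (6 - x01 - x02 - x03 - x04 - x12 - x13 - x14) fun x23 =>
  allLe (6 - x01 - x02 - x03 - x04 - x12 - x13 - x14 - x23) fun x24 =>
  allLe (6 - x01 - x02 - x03 - x04 - x12 - x13 - x14 - x23 - x24) fun x34 =>
  ok x01 x02 x03 x04 x12 x13 x14 x23 x24 x34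

theorem checkAll_true : checkAll = true := by decide +kernel

theorem ok_of_le (x01 x02 x03 x04 x12 x13 x14 x23 x24 x34 : ℕ)
    (h : x01 + x02 + x03 + x04 + x12 + x13 + x14 + x23 + x24 + x34 ≤ 6) : ok x01 x02 x03 x04 x12 x13 x14 x23 x24 x34 = true := by
  have h0 := checkAll_true
  unfold checkAll at h0
  replace h0 := allLe_spec h0 (k := x01) (by omega)
  replace h0 := allLe_spec h0 (k := x02) (by omega)
  replace h0 := allLe_spec h0 (k := x03) (by omega)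
  replace h0 := allLe_spec h0 (k := x04) (by omega)
  replace h0 := allLe_spec h0 (k := x12) (by omega)
  replace h0 := allLe_spec h0 (k := x13) (by omega)
  replace h0 := allLe_spec h0 (k := x14) (by omega)
  replace h0 := allLe_spec h0 (k := x23) (by omega)
  replace h0 := allLe_spec h0 (k := x24) (by omega)
  replace h0 := allLe_spec h0 (k := x34) (by omega)
  exact h0

/-- the Laplacian -/
def lap (x01 x02 x03 x04 x12 x13 x14 x23 x24 x34 : ℝ) : Matrix (Fin 5) (Fin 5) ℝ :=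
  !![x01 + x02 + x03 + x04, -x01, -x02, -x03, -x04;
    -x01, x01 + x12 + x13 + x14, -x12, -x13, -x14;
    -x02, -x12, x02 + x12 + x23 + x24, -x23, -x24;
    -x03, -x13, -x23, x03 + x13 + x23 + x34, -x34;
    -x04, -x14, -x24, -x34, x04 + x14 + x24 + x34]

theorem traces (x01 x02 x03 x04 x12 x13 x14 x23 x24 x34 : ℤ) :
    (lap x01 x02 x03 x04 x12 x13 x14 x23 x24 x34).trace = (pw x01 x02 x03 x04 x12 x13 x14 x23 x24 x34).1 ∧
    ((lap x01 x02 x03 x04 x12 x13 x14 x23 x24 x34) ^ 2).trace = (pw x01 x02 x03 x04 x12 x13 x14 x23 x24 x34).2.1 ∧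
    ((lap x01 x02 x03 x04 x12 x13 x14 x23 x24 x34) ^ 3).trace = (pw x01 x02 x03 x04 x12 x13 x14 x23 x24 x34).2.2.1 ∧
    ((lap x01 x02 x03 x04 x12 x13 x14 x23 x24 x34) ^ 4).trace = (pw x01 x02 x03 x04 x12 x13 x14 x23 x24 x34).2.2.2 := by
  refine ⟨?_, ?_, ?_, ?_⟩
  · simp [lap, pw, Matrix.trace, Fin.sum_univ_five]
  · simp [lap, pw, Matrix.trace, Fin.sum_univ_five, pow_succ]
    ring
  · rw [show (3 : ℕ) = 2 + 1 from rfl, pow_add, pow_two, pow_one]
    simp only [Matrix.trace, Matrix.diag, Matrix.mul_apply, Fin.sum_univ_five]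
    simp [lap, pw]
    ring
  · rw [show (4 : ℕ) = 2 + 2 from rfl, pow_add, pow_two]
    simp only [Matrix.trace, Matrix.diag, Matrix.mul_apply, Fin.sum_univ_five]
    simp [lap, pw]
    ring

end Pool.Agent.H29.OptDesign
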