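import Mathlib

set_option autoImplicit false

namespace Pool.Agent.H29.OptDesign

/-- A design in `D(v,b,k)`: its incidence matrix `n_{iB}`, every block having `k` plots. -/
def Design (v b k : ℕ) : Type :=
  {N : Matrix (Fin v) (Fin b) ℕ // ∀ B, ∑ i, N i B = k}

variable {v b k : ℕ}

/-- The replication `r_i`. -/
def rep (d : Design v b k) (i : Fin v) : ℕ := ∑ B, d.1 i B

/-- The concurrence `λ_{ij}`. -/
def conc (d : Design v b k) (i j : Fin v) : ℕ := ∑ B, d.1 i B * d.1 j B

/-- The information matrix `C = R - k⁻¹ N Nᵀ`. -/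
noncomputable def info (d : Design v b k) : Matrix (Fin v) (Fin v) ℝ :=
  Matrix.diagonal (fun i => (rep d i : ℝ)) -
    (k : ℝ)⁻¹ • (d.1.map (Nat.cast : ℕ → ℝ) * (d.1.map (Nat.cast : ℕ → ℝ)).transpose)

/-- The concurrence graph is connected. -/
def Conn (d : Design v b k) : Prop :=
  (SimpleGraph.fromRel (fun i j => conc d i j ≠ 0)).Connected

/-- The non-trivial eigenvalues of `C`, with multiplicity: all eigenvalues except one zero. -/
noncomputable def eig (d : Design v b k) : Multiset ℝ := (info d).charpoly.roots.erase 0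

/-- A-optimal among the connected designs of `D(v,b,k)`. -/
def AOpt (d : Design v b k) : Prop :=
  Conn d ∧ ∀ d' : Design v b k, Conn d' →
    ((eig d).map (fun θ => 1 / θ)).sum ≤ ((eig d').map (fun θ => 1 / θ)).sum

/-- D-optimal among the connected designs of `D(v,b,k)`. -/
def DOpt (d : Design v b k) : Prop :=
  Conn d ∧ ∀ d' : Design v b k, Conn d' → (eig d').prod ≤ (eig d).prod

/-- E-optimal among the connected designs of `D(v,b,k)`. -/
def EOpt (d : Design v b k) : Prop :=
  Conn d ∧ ∀ d' : Design v b k, Conn d' → sInf {θ | θ ∈ eig d'} ≤ sInf {θ | θ ∈ eig d}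

/-- The pairwise variance `(e_i - e_j)ᵀ G (e_i - e_j)` computed with the matrix `G`. -/
def pairVar (G : Matrix (Fin v) (Fin v) ℝ) (i j : Fin v) : ℝ :=
  (Pi.single i 1 - Pi.single j 1 : Fin v → ℝ) ⬝ᵥ G.mulVec (Pi.single i 1 - Pi.single j 1)

end Pool.Agent.H29.OptDesign
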