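import Mathlib
import Pool.Agent.H29.OptDesignDefs
import Pool.Agent.H29.OptDesignCheck

set_option autoImplicit false

namespace Pool.Agent.H29.OptDesign

open Polynomial

theorem trace_pow_eq {n : ℕ} (A : Matrix (Fin n) (Fin n) ℝ) (hA : A.IsHermitian) (k : ℕ) :
    (A ^ k).trace = (A.charpoly.roots.map (fun θ => θ ^ k)).sum := by
  rw [hA.roots_charpoly_eq_eigenvalues, Multiset.map_map]
  conv_lhs => rw [hA.spectral_theorem, ← map_pow, Unitary.conjStarAlgAut_apply,
    Matrix.trace_mul_cycle]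
  simp [Matrix.diagonal_pow, Matrix.trace_diagonal, List.sum_ofFn]

theorem four (A : Matrix (Fin 5) (Fin 5) ℝ) (hA : A.IsHermitian)
    (h1 : A.mulVec (fun _ => 1) = 0) :
    ∃ a b c d : ℝ, A.charpoly.roots.erase 0 = {a, b, c, d} ∧
      ∀ k, 1 ≤ k → (A ^ k).trace = a ^ k + b ^ k + c ^ k + d ^ k := by
  have hdet : A.det = 0 := by
    rw [← Matrix.exists_mulVec_eq_zero_iff]
    exact ⟨_, fun h => by simpa using congrFun h 0, h1⟩
  have h0 : (0 : ℝ) ∈ A.charpoly.roots := by
    rw [mem_roots A.charpoly_monic.ne_zero, IsRoot.def, ← coeff_zero_eq_eval_zero]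
    have := A.det_eq_sign_charpoly_coeff
    rw [hdet] at this
    simpa using this.symm
  have hcard : A.charpoly.roots.card = 5 := by
    rw [hA.roots_charpoly_eq_eigenvalues]; simp
  have h4 : (A.charpoly.roots.erase 0).card = 4 := by
    rw [Multiset.card_erase_of_mem h0, hcard]; rfl
  obtain ⟨a, b, c, d, h⟩ := Multiset.card_eq_four.mp h4
  refine ⟨a, b, c, d, h, fun k hk => ?_⟩
  rw [trace_pow_eq A hA, ← Multiset.cons_erase h0, h]
  simp [zero_pow (by omega : k ≠ 0)]
  ring

theorem conc_comm {v b k : ℕ} (d : Design v b k) (i j : Fin v) : conc d i j = conc d j i := by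
  simp [conc, mul_comm]

theorem row_sum (d : Design 5 6 2) (i : Fin 5) :
    2 * rep d i = conc d i 0 + conc d i 1 + conc d i 2 + conc d i 3 + conc d i 4 := by
  simp only [rep, conc, ← Finset.sum_add_distrib, Finset.mul_sum]
  refine Finset.sum_congr rfl (fun B _ => ?_)
  have := d.2 B
  rw [Fin.sum_univ_five] at this
  rw [← mul_add, ← mul_add, ← mul_add, ← mul_add, this, mul_comm]

theorem info_eq (d : Design 5 6 2) : info d = (1 / 2 : ℝ) •
    lap (conc d 0 1 : ℤ) (conc d 0 2 : ℤ) (conc d 0 3 : ℤ) (conc d 0 4 : ℤ) (conc d 1 2 : ℤ)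
      (conc d 1 3 : ℤ) (conc d 1 4 : ℤ) (conc d 2 3 : ℤ) (conc d 2 4 : ℤ) (conc d 3 4 : ℤ) := by
  have h : ∀ i j, info d i j = (if i = j then (rep d i : ℝ) else 0) - (1 / 2) * conc d i j := by
    intro i j
    simp [info, conc, Matrix.diagonal_apply, Matrix.mul_apply]
  have r : ∀ i, (rep d i : ℝ) =
      (1 / 2) * (conc d i 0 + conc d i 1 + conc d i 2 + conc d i 3 + conc d i 4) := by
    intro i
    have := row_sum d i
    have h2 : (2 * rep d i : ℝ) =
      conc d i 0 + conc d i 1 + conc d i 2 + conc d i 3 + conc d i 4 := by exact_mod_cast this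
    linarith
  have c10 := conc_comm d 1 0
  have c20 := conc_comm d 2 0
  have c30 := conc_comm d 3 0
  have c40 := conc_comm d 4 0
  have c21 := conc_comm d 2 1
  have c31 := conc_comm d 3 1
  have c41 := conc_comm d 4 1
  have c32 := conc_comm d 3 2
  have c42 := conc_comm d 4 2
  have c43 := conc_comm d 4 3
  ext i j
  rw [h, r]
  fin_cases i <;> fin_cases j <;>
    simp [lap, c10, c20, c30, c40, c21, c31, c41, c32, c42, c43] <;> ring

theorem conc_sum (d : Design 5 6 2) : conc d 0 1 + conc d 0 2 + conc d 0 3 + conc d 0 4 +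
    conc d 1 2 + conc d 1 3 + conc d 1 4 + conc d 2 3 + conc d 2 4 + conc d 3 4 ≤ 6 := by
  simp only [conc, ← Finset.sum_add_distrib]
  refine le_trans (Finset.sum_le_sum (g := fun _ => 1) (fun B _ => ?_)) (by simp)
  have := d.2 B
  rw [Fin.sum_univ_five] at this
  generalize d.1 0 B = a at *
  generalize d.1 1 B = b at *
  generalize d.1 2 B = c at *
  generalize d.1 3 B = e at *
  generalize d.1 4 B = f at *
  have ha : a ≤ 2 := by omega
  have hb : b ≤ 2 := by omega
  have hc : c ≤ 2 := by omega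
  have he : e ≤ 2 := by omega
  have hf : f ≤ 2 := by omega
  interval_cases a <;> interval_cases b <;> interval_cases c <;> interval_cases e <;>
    interval_cases f <;> omega

theorem no_cut (d : Design 5 6 2) (hd : Conn d) (s : Fin 5 → Bool) (j : Fin 5)
    (hj : s 0 ≠ s j) : ∃ a b, s a ≠ s b ∧ conc d a b ≠ 0 := by
  by_contra hc
  push Not at hc
  obtain ⟨p⟩ := hd.preconnected 0 j
  apply hj
  clear hj
  generalize (0 : Fin 5) = z at p
  induction p with
  | nil => rfl
  | cons h p ih =>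
    rename_i x y w
    rw [← ih]
    by_contra hne
    rw [SimpleGraph.fromRel_adj] at h
    rcases h.2 with h | h
    · exact h (hc _ _ hne)
    · exact h (hc _ _ (Ne.symm hne))

theorem not_cut (d : Design 5 6 2) (hd : Conn d) :
    ¬ cut (conc d 0 1) (conc d 0 2) (conc d 0 3) (conc d 0 4) (conc d 1 2)
      (conc d 1 3) (conc d 1 4) (conc d 2 3) (conc d 2 4) (conc d 3 4) := by
  have c10 := conc_comm d 1 0
  have c20 := conc_comm d 2 0
  have c30 := conc_comm d 3 0
  have c40 := conc_comm d 4 0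
  have c21 := conc_comm d 2 1
  have c31 := conc_comm d 3 1
  have c41 := conc_comm d 4 1
  have c32 := conc_comm d 3 2
  have c42 := conc_comm d 4 2
  have c43 := conc_comm d 4 3
  have key : ∀ (s : Fin 5 → Bool) (j : Fin 5), s 0 ≠ s j →
      (s 0 ≠ s 1 ∧ conc d 0 1 ≠ 0) ∨ (s 0 ≠ s 2 ∧ conc d 0 2 ≠ 0) ∨
      (s 0 ≠ s 3 ∧ conc d 0 3 ≠ 0) ∨ (s 0 ≠ s 4 ∧ conc d 0 4 ≠ 0) ∨
      (s 1 ≠ s 2 ∧ conc d 1 2 ≠ 0) ∨ (s 1 ≠ s 3 ∧ conc d 1 3 ≠ 0) ∨
      (s 1 ≠ s 4 ∧ conc d 1 4 ≠ 0) ∨ (s 2 ≠ s 3 ∧ conc d 2 3 ≠ 0) ∨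
      (s 2 ≠ s 4 ∧ conc d 2 4 ≠ 0) ∨ (s 3 ≠ s 4 ∧ conc d 3 4 ≠ 0) := by
    intro s j hj
    obtain ⟨a, b, h1, h2⟩ := no_cut d hd s j hj
    have h1' := Ne.symm h1
    fin_cases a <;> fin_cases b <;> simp_all
  unfold cut
  rintro (h | h | h | h | h | h | h | h | h | h | h | h | h | h | h)
  · have := key ![true, false, false, false, false] 1 (by decide)
    simp at this
    omega
  · have := key ![true, true, false, false, false] 2 (by decide)
    simp at this
    omega
  · have := key ![true, false, true, false, false] 1 (by decide)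
    simp at this
    omega
  · have := key ![true, true, true, false, false] 3 (by decide)
    simp at this
    omega
  · have := key ![true, false, false, true, false] 1 (by decide)
    simp at this
    omega
  · have := key ![true, true, false, true, false] 2 (by decide)
    simp at this
    omega
  · have := key ![true, false, true, true, false] 1 (by decide)
    simp at this
    omega
  · have := key ![true, true, true, true, false] 4 (by decide)
    simp at this
    omega
  · have := key ![true, false, false, false, true] 1 (by decide)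
    simp at this
    omega
  · have := key ![true, true, false, false, true] 2 (by decide)
    simp at this
    omega
  · have := key ![true, false, true, false, true] 1 (by decide)
    simp at this
    omega
  · have := key ![true, true, true, false, true] 3 (by decide)
    simp at this
    omega
  · have := key ![true, false, false, true, true] 1 (by decide)
    simp at this
    omega
  · have := key ![true, true, false, true, true] 2 (by decide)
    simp at this
    omega
  · have := key ![true, false, true, true, true] 1 (by decide)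
    simp at this
    omega

theorem eig_data (d : Design 5 6 2) : ∃ a b c e : ℝ, eig d = {a / 2, b / 2, c / 2, e / 2} ∧
    ∃ p : ℤ × ℤ × ℤ × ℤ,
      p = pw (conc d 0 1) (conc d 0 2) (conc d 0 3) (conc d 0 4) (conc d 1 2)
        (conc d 1 3) (conc d 1 4) (conc d 2 3) (conc d 2 4) (conc d 3 4) ∧
      (p.1 : ℝ) = a + b + c + e ∧ (p.2.1 : ℝ) = a ^ 2 + b ^ 2 + c ^ 2 + e ^ 2 ∧
      (p.2.2.1 : ℝ) = a ^ 3 + b ^ 3 + c ^ 3 + e ^ 3 ∧
      (p.2.2.2 : ℝ) = a ^ 4 + b ^ 4 + c ^ 4 + e ^ 4 := by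
  have hH : (info d).IsHermitian := by
    rw [info_eq]
    ext i j
    fin_cases i <;> fin_cases j <;> simp [lap]
  have h1 : (info d).mulVec (fun _ => 1) = 0 := by
    rw [info_eq]
    ext i
    fin_cases i <;> simp [lap, Matrix.mulVec, dotProduct, Fin.sum_univ_five] <;> ring
  obtain ⟨a, b, c, e, h, ht⟩ := four _ hH h1
  obtain ⟨t1, t2, t3, t4⟩ := traces (conc d 0 1) (conc d 0 2) (conc d 0 3) (conc d 0 4)
    (conc d 1 2) (conc d 1 3) (conc d 1 4) (conc d 2 3) (conc d 2 4) (conc d 3 4)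
  have u1 := ht 1 (by norm_num)
  have u2 := ht 2 (by norm_num)
  have u3 := ht 3 (by norm_num)
  have u4 := ht 4 (by norm_num)
  rw [info_eq, _root_.smul_pow, Matrix.trace_smul, smul_eq_mul] at u1 u2 u3 u4
  rw [pow_one, pow_one, t1] at u1
  rw [t2] at u2
  rw [t3] at u3
  rw [t4] at u4
  refine ⟨2 * a, 2 * b, 2 * c, 2 * e, ?_, _, rfl, ?_, ?_, ?_, ?_⟩
  · unfold eig; rw [h]; simp
  · linarith
  · linarith
  · linarith
  · linarith

theorem bounds (d : Design 5 6 2) (hd : Conn d) :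
    (46 / 15 : ℝ) ≤ ((eig d).map (fun θ => 1 / θ)).sum ∧ (eig d).prod ≤ 15 / 4 ∧
      sInf {θ | θ ∈ eig d} ≤ 1 := by
  obtain ⟨a, b, c, e, h, p, hp, h1, h2, h3, h4⟩ := eig_data d
  have hok := ok_of_le _ _ _ _ _ _ _ _ _ _ (conc_sum d)
  unfold ok at hok
  rw [← hp, decide_eq_false (not_cut d hd), Bool.or_false] at hok
  simp only [okP, Bool.and_eq_true, Bool.or_eq_true, decide_eq_true_eq] at hok
  obtain ⟨⟨⟨k1, k2⟩, k3⟩, k4⟩ := hok
  have E2 : ((p.1 * p.1 - p.2.1 : ℤ) : ℝ) = 2 * (a * b + a * c + a * e + b * c + b * e + c * e) := by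
    push_cast; rw [h1, h2]; ring
  have E3 : ((p.1 * p.1 * p.1 - 3 * p.1 * p.2.1 + 2 * p.2.2.1 : ℤ) : ℝ) =
      6 * (a * b * c + a * b * e + a * c * e + b * c * e) := by
    push_cast; rw [h1, h2, h3]; ring
  have E4 : ((p.1 * p.1 * p.1 * p.1 - 6 * p.1 * p.1 * p.2.1 + 3 * p.2.1 * p.2.1
      + 8 * p.1 * p.2.2.1 - 6 * p.2.2.2 : ℤ) : ℝ) = 24 * (a * b * c * e) := by
    push_cast; rw [h1, h2, h3, h4]; ring
  generalize p.1 * p.1 - p.2.1 = q2 at *
  generalize p.1 * p.1 * p.1 - 3 * p.1 * p.2.1 + 2 * p.2.2.1 = q3 at *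
  generalize p.1 * p.1 * p.1 * p.1 - 6 * p.1 * p.1 * p.2.1 + 3 * p.2.1 * p.2.1
      + 8 * p.1 * p.2.2.1 - 6 * p.2.2.2 = q4 at *
  have k1' : (0 : ℝ) < q4 := by exact_mod_cast k1
  have k2' : (q4 : ℝ) ≤ 24 * 60 := by exact_mod_cast k2
  have k3' : (23 * q4 : ℝ) ≤ 60 * q3 := by exact_mod_cast k3
  have hpos : 0 < a * b * c * e := by linarith
  have ha : a ≠ 0 := by rintro rfl; simp at hpos
  have hb : b ≠ 0 := by rintro rfl; simp at hpos
  have hc : c ≠ 0 := by rintro rfl; simp at hpos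
  have he : e ≠ 0 := by rintro rfl; simp at hpos
  rw [h]
  refine ⟨?_, ?_, ?_⟩
  · have : (Multiset.map (fun θ : ℝ => 1 / θ) {a / 2, b / 2, c / 2, e / 2}).sum =
        2 * (a * b * c + a * b * e + a * c * e + b * c * e) / (a * b * c * e) := by
      simp
      field_simp
      ring
    rw [this, le_div_iff₀ hpos]
    linarith
  · have : ({a / 2, b / 2, c / 2, e / 2} : Multiset ℝ).prod = a * b * c * e / 16 := by
      simp; ring
    rw [this]; linarith
  · have hbdd : BddBelow {θ | θ ∈ ({a / 2, b / 2, c / 2, e / 2} : Multiset ℝ)} :=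
      (Multiset.finite_toSet _).bddBelow
    by_contra hlt
    push Not at hlt
    have l1 : 0 < a - 2 := by
      have := csInf_le hbdd (show a / 2 ∈ _ by simp); linarith
    have l2 : 0 < b - 2 := by
      have := csInf_le hbdd (show b / 2 ∈ _ by simp); linarith
    have l3 : 0 < c - 2 := by
      have := csInf_le hbdd (show c / 2 ∈ _ by simp); linarith
    have l4 : 0 < e - 2 := by
      have := csInf_le hbdd (show e / 2 ∈ _ by simp); linarith
    have m12 := mul_pos l1 l2
    have m13 := mul_pos l1 l3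
    have m14 := mul_pos l1 l4
    have m23 := mul_pos l2 l3
    have m24 := mul_pos l2 l4
    have m34 := mul_pos l3 l4
    have n1 := mul_pos m12 l3
    have n2 := mul_pos m12 l4
    have n3 := mul_pos m13 l4
    have n4 := mul_pos m23 l4
    have n5 := mul_pos n1 l4
    rcases k4 with ((k4 | k4) | k4) | k4
    · have : (p.1 : ℝ) - 8 ≤ 0 := by exact_mod_cast k4
      linarith
    · have : (q2 : ℝ) - 12 * p.1 + 48 ≤ 0 := by exact_mod_cast k4
      rw [E2, h1] at this
      nlinarith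
    · have : (q3 : ℝ) - 12 * q2 + 72 * p.1 - 192 ≤ 0 := by exact_mod_cast k4
      rw [E3, E2, h1] at this
      nlinarith
    · have : (q4 : ℝ) - 8 * q3 + 48 * q2 - 192 * p.1 + 384 ≤ 0 := by exact_mod_cast k4
      rw [E4, E3, E2, h1] at this
      nlinarith

/-- The design `K_{2,3}`. -/
def K23 : Design 5 6 2 :=
  ⟨!![1, 1, 1, 0, 0, 0; 0, 0, 0, 1, 1, 1; 1, 0, 0, 1, 0, 0; 0, 1, 0, 0, 1, 0; 0, 0, 1, 0, 0, 1],
    by decide⟩

instance : DecidableRel (SimpleGraph.fromRel (fun i j => conc K23 i j ≠ 0)).Adj := fun i j => by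
  rw [SimpleGraph.fromRel_adj]; infer_instance

theorem K23_conn : Conn K23 := by
  unfold Conn
  decide +kernel

theorem K23_vals : ((eig K23).map (fun θ => 1 / θ)).sum = (46 / 15 : ℝ) ∧
    (eig K23).prod = 15 / 4 ∧ 1 ≤ sInf {θ | θ ∈ eig K23} := by
  obtain ⟨a, b, c, e, h, p, hp, h1, h2, h3, h4⟩ := eig_data K23
  have hp' : p = (12, 42, 168, 738) := by rw [hp]; decide +kernel
  rw [hp'] at h1 h2 h3 h4
  simp only [Int.cast_ofNat] at h1 h2 h3 h4
  have E2 : a * b + a * c + a * e + b * c + b * e + c * e = 51 := by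
    have : 2 * (a * b + a * c + a * e + b * c + b * e + c * e) =
      (a + b + c + e) ^ 2 - (a ^ 2 + b ^ 2 + c ^ 2 + e ^ 2) := by ring
    rw [← h1, ← h2] at this; linarith
  have E3 : a * b * c + a * b * e + a * c * e + b * c * e = 92 := by
    have : 6 * (a * b * c + a * b * e + a * c * e + b * c * e) =
      (a + b + c + e) ^ 3 - 3 * (a + b + c + e) * (a ^ 2 + b ^ 2 + c ^ 2 + e ^ 2) +
        2 * (a ^ 3 + b ^ 3 + c ^ 3 + e ^ 3) := by ring
    rw [← h1, ← h2, ← h3] at this; linarith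
  have E4 : a * b * c * e = 60 := by
    have : 24 * (a * b * c * e) =
      (a + b + c + e) ^ 4 - 6 * (a + b + c + e) ^ 2 * (a ^ 2 + b ^ 2 + c ^ 2 + e ^ 2) +
        3 * (a ^ 2 + b ^ 2 + c ^ 2 + e ^ 2) ^ 2 +
        8 * (a + b + c + e) * (a ^ 3 + b ^ 3 + c ^ 3 + e ^ 3) -
        6 * (a ^ 4 + b ^ 4 + c ^ 4 + e ^ 4) := by ring
    rw [← h1, ← h2, ← h3, ← h4] at this; linarith
  have ha : a ≠ 0 := by rintro rfl; simp at E4
  have hb : b ≠ 0 := by rintro rfl; simp at E4
  have hc : c ≠ 0 := by rintro rfl; simp at E4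
  have he : e ≠ 0 := by rintro rfl; simp at E4
  have root : ∀ t : ℝ, (t - a) * (t - b) * (t - c) * (t - e) = 0 → 2 ≤ t := by
    intro t ht
    have : (t - a) * (t - b) * (t - c) * (t - e) = (t - 2) * (t - 2) * (t - 3) * (t - 5) := by
      have : (t - a) * (t - b) * (t - c) * (t - e) = t ^ 4 - (a + b + c + e) * t ^ 3 +
        (a * b + a * c + a * e + b * c + b * e + c * e) * t ^ 2 -
        (a * b * c + a * b * e + a * c * e + b * c * e) * t + a * b * c * e := by ring
      rw [this, ← h1, E2, E3, E4]; ring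
    rw [this] at ht
    simp only [mul_eq_zero, sub_eq_zero] at ht
    rcases ht with ((ht | ht) | ht) | ht <;> linarith
  rw [h]
  refine ⟨?_, ?_, ?_⟩
  · have : (Multiset.map (fun θ : ℝ => 1 / θ) {a / 2, b / 2, c / 2, e / 2}).sum =
        2 * (a * b * c + a * b * e + a * c * e + b * c * e) / (a * b * c * e) := by
      simp
      field_simp
      ring
    rw [this, E3, E4]; norm_num
  · have : ({a / 2, b / 2, c / 2, e / 2} : Multiset ℝ).prod = a * b * c * e / 16 := by
      simp; ring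
    rw [this, E4]; norm_num
  · refine le_csInf ⟨a / 2, by simp⟩ ?_
    intro t ht
    have r1 := root a (by simp)
    have r2 := root b (by simp)
    have r3 := root c (by simp)
    have r4 := root e (by simp)
    simp at ht
    rcases ht with rfl | rfl | rfl | rfl <;> linarith

theorem K23_info : info K23 = !![3 / 2, 0, -1 / 2, -1 / 2, -1 / 2; 0, 3 / 2, -1 / 2, -1 / 2, -1 / 2;
    -1 / 2, -1 / 2, 1, 0, 0; -1 / 2, -1 / 2, 0, 1, 0; -1 / 2, -1 / 2, 0, 0, 1] := by
  rw [info_eq]
  have c01 : conc K23 0 1 = 0 := by decide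
  have c02 : conc K23 0 2 = 1 := by decide
  have c03 : conc K23 0 3 = 1 := by decide
  have c04 : conc K23 0 4 = 1 := by decide
  have c12 : conc K23 1 2 = 1 := by decide
  have c13 : conc K23 1 3 = 1 := by decide
  have c14 : conc K23 1 4 = 1 := by decide
  have c23 : conc K23 2 3 = 0 := by decide
  have c24 : conc K23 2 4 = 0 := by decide
  have c34 : conc K23 3 4 = 0 := by decide
  rw [c01, c02, c03, c04, c12, c13, c14, c23, c24, c34]
  ext i j
  fin_cases i <;> fin_cases j <;> simp [lap] <;> norm_num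

theorem pairVar_eq {v : ℕ} (C G : Matrix (Fin v) (Fin v) ℝ) (hC : C.IsSymm) (h : C * G * C = C)
    (i j : Fin v) (x : Fin v → ℝ) (hx : C.mulVec x = Pi.single i 1 - Pi.single j 1) :
    pairVar G i j = x i - x j := by
  unfold pairVar
  have : x i - x j = x ⬝ᵥ (Pi.single i 1 - Pi.single j 1) := by simp
  rw [this, ← hx]
  conv_rhs => rw [← h]
  rw [← Matrix.mulVec_mulVec, ← Matrix.mulVec_mulVec, Matrix.dotProduct_mulVec x C,
    ← Matrix.mulVec_transpose, hC.eq]

theorem main : AOpt K23 ∧ DOpt K23 ∧ EOpt K23 ∧ conc K23 0 1 < conc K23 0 2 ∧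
    (∃ G, info K23 * G * info K23 = info K23) ∧
    ∀ G, info K23 * G * info K23 = info K23 → pairVar G 0 1 ≤ pairVar G 0 2 := by
  obtain ⟨v1, v2, v3⟩ := K23_vals
  refine ⟨⟨K23_conn, fun d hd => ?_⟩, ⟨K23_conn, fun d hd => ?_⟩, ⟨K23_conn, fun d hd => ?_⟩,
    by decide, ?_, ?_⟩
  · rw [v1]; exact (bounds d hd).1
  · rw [v2]; exact (bounds d hd).2.1
  · exact (bounds d hd).2.2.trans v3
  · refine ⟨!![0, 0, 0, 0, 0; 0, 4 / 3, 2 / 3, 2 / 3, 2 / 3; 0, 2 / 3, 4 / 3, 1 / 3, 1 / 3;
      0, 2 / 3, 1 / 3, 4 / 3, 1 / 3; 0, 2 / 3, 1 / 3, 1 / 3, 4 / 3], ?_⟩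
    rw [K23_info]
    ext i j
    fin_cases i <;> fin_cases j <;> simp [Matrix.mul_apply, Fin.sum_univ_five] <;> norm_num
  · intro G hG
    have hs : (info K23).IsSymm := by
      rw [K23_info]
      ext i j
      fin_cases i <;> fin_cases j <;> simp
    rw [pairVar_eq _ G hs hG 0 1 ![2 / 3, -2 / 3, 0, 0, 0],
      pairVar_eq _ G hs hG 0 2 ![0, -2 / 3, -4 / 3, -1 / 3, -1 / 3]]
    · simp; norm_num
    · rw [K23_info]
      ext i
      fin_cases i <;> simp [Matrix.mulVec, dotProduct, Fin.sum_univ_five] <;> norm_num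
    · rw [K23_info]
      ext i
      fin_cases i <;> simp [Matrix.mulVec, dotProduct, Fin.sum_univ_five] <;> norm_num

end Pool.Agent.H29.OptDesign
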