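import Mathlib

set_option autoImplicit false

namespace Pool.Agent.H29.OuterMV

/-- some shortest `u,v`-path has no internal vertex in `S` -/
def Visible {V : Type} (G : SimpleGraph V) (S : Set V) (u v : V) : Prop :=
  ∃ p : G.Walk u v, p.length = G.dist u v ∧ ∀ z ∈ p.support, z ≠ u → z ≠ v → z ∉ S

/-- outer mutual-visibility set -/
def IsOuterMV {V : Type} (G : SimpleGraph V) (S : Set V) : Prop :=
  ∀ u ∈ S, ∀ v, Visible G S u v

/-- outer mutual-visibility number -/
noncomputable def muo {V : Type} (G : SimpleGraph V) : ℕ :=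
  sSup {n | ∃ S : Set V, IsOuterMV G S ∧ n = S.ncard}

end Pool.Agent.H29.OuterMV
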