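import Mathlib
import Pool.Agent.H29.GDist
import Pool.Agent.H29.OuterMVDefs

set_option autoImplicit false

namespace Pool.Agent.H29.OuterMV

theorem pot {V : Type} {G : SimpleGraph V} {S : Set V} (hS : IsOuterMV G S) {u w v : V}
    (hu : u ∈ S) (hw : w ∈ S) (huw : w ≠ u) (hvw : w ≠ v) (φ : V → ℤ)
    (hφ : ∀ a b, a ≠ w → b ≠ w → G.Adj a b → φ b ≤ φ a + 1) : φ v ≤ φ u + G.dist u v := by
  obtain ⟨p, hp, h⟩ := hS u hu v
  have hn : w ∉ p.support := fun hw' => h w hw' huw hvw hw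
  rw [← hp]
  clear hp h hu huw hvw
  induction p with
  | nil => simp
  | cons hab q ih =>
    simp only [SimpleGraph.Walk.support_cons, List.mem_cons, not_or] at hn
    have h1 := ih hn.2
    have h2 := hφ _ _ (Ne.symm hn.1) (fun h => hn.2 (h ▸ q.start_mem_support)) hab
    simp only [SimpleGraph.Walk.length_cons]
    push_cast
    omega

theorem leaf_dist {V : Type} {G : SimpleGraph V} (hG : G.Preconnected) {z z' u : V}
    (h : ∀ y, G.Adj z y → y = z') (hu : z ≠ u) : G.dist z' u + 1 ≤ G.dist z u := by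
  obtain ⟨p, hp⟩ := (hG z u).exists_walk_length_eq_dist
  cases p with
  | nil => exact absurd rfl hu
  | cons hab q =>
    obtain rfl := h _ hab
    have := G.dist_le q
    simp only [SimpleGraph.Walk.length_cons] at hp
    omega

theorem leaves {V : Type} {G : SimpleGraph V} (hG : G.Preconnected) (S : Set V)
    (h : ∀ z ∈ S, ∃ z', ∀ y, G.Adj z y → y = z') : IsOuterMV G S := by
  intro u _ v
  obtain ⟨p, hp⟩ := (hG u v).exists_walk_length_eq_dist
  refine ⟨p, hp, fun z hz h1 h2 h3 => ?_⟩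
  obtain ⟨z', hz'⟩ := h z h3
  have h4 := GDist.between_of_mem p hp hz
  have h5 := leaf_dist hG hz' h1
  have h6 := leaf_dist hG hz' h2
  have h7 : G.dist u v ≤ G.dist u z' + G.dist z' v := (hG u z').dist_triangle_left v
  rw [G.dist_comm (u := z') (v := u), G.dist_comm (u := z) (v := u)] at h5
  omega

/-- vertices -/
structure Vx (k : ℕ) : Type where
  /-- spine position -/
  a : ℕ
  /-- height -/
  t : ℕ
  h : (a < 5 * k + 2 ∧ t < 5 * k + 2 ∧ (t = 0 ∨ a % 5 = 0)) ∨ (a = 0 ∧ t = 5 * k + 2)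

theorem Vx.ext' {k : ℕ} {x y : Vx k} (h1 : x.a = y.a) (h2 : x.t = y.t) : x = y := by
  cases x; cases y; simp_all

theorem Vx.ne_iff {k : ℕ} {x y : Vx k} : x ≠ y ↔ ¬ (x.a = y.a ∧ x.t = y.t) :=
  ⟨fun h h' => h (Vx.ext' h'.1 h'.2), fun h h' => h (h' ▸ ⟨rfl, rfl⟩)⟩

instance (k : ℕ) : Finite (Vx k) :=
  Finite.of_injective (β := Fin (5 * k + 3) × Fin (5 * k + 3))
    (fun x => (⟨x.a, by have := x.h; omega⟩, ⟨x.t, by have := x.h; omega⟩)) (by
      intro x y h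
      simp only [Prod.mk.injEq, Fin.mk.injEq] at h
      exact Vx.ext' h.1 h.2)

/-- the graph -/
def Gr (k : ℕ) : SimpleGraph (Vx k) where
  Adj x y := (x.t = 0 ∧ y.t = 0 ∧ (x.a + 1 = y.a ∨ y.a + 1 = x.a)) ∨
    (x.a = y.a ∧ (x.t + 1 = y.t ∨ y.t + 1 = x.t)) ∨
    (x.t = 5 * k + 2 ∧ y.t = 5 * k + 1) ∨ (y.t = 5 * k + 2 ∧ x.t = 5 * k + 1)
  symm := ⟨fun x y h => by omega⟩
  loopless := ⟨fun x h => by omega⟩

theorem adj_iff {k : ℕ} (x y : Vx k) : (Gr k).Adj x y ↔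
    (x.t = 0 ∧ y.t = 0 ∧ (x.a + 1 = y.a ∨ y.a + 1 = x.a)) ∨
    (x.a = y.a ∧ (x.t + 1 = y.t ∨ y.t + 1 = x.t)) ∨
    (x.t = 5 * k + 2 ∧ y.t = 5 * k + 1) ∨ (y.t = 5 * k + 2 ∧ x.t = 5 * k + 1) := Iff.rfl

/-- the deleted vertex -/
def X (k : ℕ) : Vx k := ⟨0, 5 * k + 2, Or.inr ⟨rfl, rfl⟩⟩

/-- short walk -/
def W {k : ℕ} (u v : Vx k) (n : ℕ) : Prop := ∃ p : (Gr k).Walk u v, p.length ≤ n

theorem W.trans {k : ℕ} {u v w : Vx k} {n m : ℕ} (h1 : W u v n) (h2 : W v w m) :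
    W u w (n + m) := by
  obtain ⟨p, hp⟩ := h1
  obtain ⟨q, hq⟩ := h2
  exact ⟨p.append q, by simp; omega⟩

theorem W.symm {k : ℕ} {u v : Vx k} {n : ℕ} (h1 : W u v n) : W v u n := by
  obtain ⟨p, hp⟩ := h1
  exact ⟨p.reverse, by simpa⟩

theorem W.le {k : ℕ} {u v : Vx k} {n : ℕ} (h1 : W u v n) : (Gr k).dist u v ≤ n := by
  obtain ⟨p, hp⟩ := h1
  exact ((Gr k).dist_le p).trans hp

theorem W.adj {k : ℕ} {u v : Vx k} (h : (Gr k).Adj u v) : W u v 1 := ⟨.cons h .nil, by simp⟩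

theorem vert {k : ℕ} (d : ℕ) : ∀ u v : Vx k, u.a = v.a → v.t = u.t + d → W u v d := by
  induction d with
  | zero => intro u v h1 h2; obtain rfl := Vx.ext' h1 h2.symm; exact ⟨.nil, le_rfl⟩
  | succ d ih =>
    intro u v h1 h2
    have hu := u.h
    have hv := v.h
    exact (ih u ⟨u.a, u.t + d, by omega⟩ rfl rfl).trans (W.adj (by rw [adj_iff]; dsimp only; omega))

theorem hor {k : ℕ} (d : ℕ) : ∀ u v : Vx k, u.t = 0 → v.t = 0 → v.a = u.a + d → W u v d := by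
  induction d with
  | zero => intro u v h1 h2 h3; obtain rfl := Vx.ext' h3 (h2.trans h1.symm); exact ⟨.nil, le_rfl⟩
  | succ d ih =>
    intro u v h1 h2 h3
    have hu := u.h
    have hv := v.h
    exact (ih u ⟨u.a + d, 0, by omega⟩ h1 rfl rfl).trans
      (W.adj (by rw [adj_iff]; dsimp only; omega))

theorem low {k : ℕ} (u v : Vx k) (d : ℕ) (h : v.a = u.a + d) : W u v (u.t + d + v.t) := by
  have hu := u.h
  have hv := v.h
  exact (((vert u.t ⟨u.a, 0, by omega⟩ u rfl (by simp)).symm).trans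
    (hor d ⟨u.a, 0, by omega⟩ ⟨v.a, 0, by omega⟩ rfl rfl h)).trans
    (vert v.t ⟨v.a, 0, by omega⟩ v rfl (by simp))

theorem up {k : ℕ} (u : Vx k) (h : u.a % 5 = 0) (h2 : u.t < 5 * k + 2) :
    W u (X k) (5 * k + 2 - u.t) := by
  have hu := u.h
  have := (vert (5 * k + 1 - u.t) u ⟨u.a, 5 * k + 1, by omega⟩ rfl (by dsimp only; omega)).trans
    (W.adj (v := X k) (by rw [adj_iff]; dsimp only [X]; omega))
  rwa [show 5 * k + 1 - u.t + 1 = 5 * k + 2 - u.t by omega] at this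

theorem pre (k : ℕ) : (Gr k).Preconnected := by
  intro u v
  rcases le_total u.a v.a with h | h
  · exact (low u v (v.a - u.a) (by omega)).choose.reachable
  · exact (low v u (u.a - v.a) (by omega)).choose.reachable.symm

theorem pre' (k : ℕ) : ((Gr k).induce {X k}ᶜ).Preconnected := by
  have key : ∀ n, ∀ u : ↥({X k}ᶜ : Set (Vx k)), u.1.a + u.1.t = n →
      ((Gr k).induce {X k}ᶜ).Reachable u ⟨⟨0, 0, by omega⟩, Vx.ne_iff.mpr (by simp [X])⟩ := by
    intro n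
    induction n with
    | zero =>
      intro u h
      rw [show u = ⟨⟨0, 0, by omega⟩, Vx.ne_iff.mpr (by simp [X])⟩ from
        Subtype.ext (Vx.ext' (by dsimp only; omega) (by dsimp only; omega))]
    | succ n ih =>
      intro u h
      have hu := u.1.h
      by_cases ht : u.1.t = 0
      · refine SimpleGraph.Reachable.trans (SimpleGraph.Adj.reachable ?_)
          (ih ⟨⟨u.1.a - 1, 0, by omega⟩, Vx.ne_iff.mpr (by simp [X])⟩ (by dsimp only; omega))
        change (Gr k).Adj u.1 ⟨u.1.a - 1, 0, _⟩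
        rw [adj_iff]; dsimp only; omega
      · refine SimpleGraph.Reachable.trans (SimpleGraph.Adj.reachable ?_)
          (ih ⟨⟨u.1.a, u.1.t - 1, by omega⟩, Vx.ne_iff.mpr (by dsimp only [X]; omega)⟩
            (by dsimp only; omega))
        change (Gr k).Adj u.1 ⟨u.1.a, u.1.t - 1, _⟩
        rw [adj_iff]; dsimp only; omega
  exact fun u v => (key _ u rfl).trans (key _ v rfl).symm

theorem lower (k : ℕ) : k ≤ muo ((Gr k).induce {X k}ᶜ) := by
  let f : Fin k → ↥({X k}ᶜ : Set (Vx k)) := fun i =>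
    ⟨⟨5 * i, 5 * k + 1, by have := i.2; omega⟩, Vx.ne_iff.mpr (by dsimp only [X]; omega)⟩
  have hf : Function.Injective f := by
    intro i j h
    have : 5 * i.val = 5 * j.val := congrArg (fun z => z.1.a) h
    exact Fin.ext (by omega)
  refine le_csSup ⟨Nat.card ↥({X k}ᶜ : Set (Vx k)), ?_⟩ ⟨Set.range f, ?_, ?_⟩
  · rintro n ⟨Z, _, rfl⟩
    exact Set.ncard_le_card Z
  · refine leaves (pre' k) _ ?_
    rintro _ ⟨i, rfl⟩
    refine ⟨⟨⟨5 * i, 5 * k, by have := i.2; omega⟩, Vx.ne_iff.mpr (by dsimp only [X]; omega)⟩, ?_⟩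
    intro y hy
    have h1 := y.1.h
    have h2 := Vx.ne_iff.mp y.2
    change (Gr k).Adj ⟨5 * i, 5 * k + 1, _⟩ y.1 at hy
    rw [adj_iff] at hy
    change ¬ (y.1.a = 0 ∧ y.1.t = 5 * k + 2) at h2
    dsimp only at hy
    exact Subtype.ext (Vx.ext' (by dsimp only; omega) (by dsimp only; omega))
  · rw [Set.ncard_range_of_injective hf]
    simp

section Upper

variable {k : ℕ} {S : Set (Vx k)} (hS : IsOuterMV (Gr k) S)
include hS

theorem spine {u w v : Vx k} (hu : u ∈ S) (hw : w ∈ S) (h1 : u.t = 0) (h2 : w.t = 0)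
    (h3 : v.t = 0) (h4 : u.a < w.a) (h5 : w.a < v.a) : False := by
  have := pot hS hu hw (v := v) (Vx.ne_iff.mpr (by omega)) (Vx.ne_iff.mpr (by omega))
    (fun y => if y.a ≤ w.a then (y.t : ℤ) else 2 * (5 * k + 2) - y.t) (by
      intro a b ha hb hab
      rw [adj_iff] at hab
      rw [Vx.ne_iff] at ha hb
      have := a.h
      have := b.h
      split_ifs <;> omega)
  have h6 := (low u v (v.a - u.a) (by omega)).le
  have := v.h
  split_ifs at * <;> omega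

theorem upB {u w : Vx k} (hu : u ∈ S) (hw : w ∈ S) (h1 : 0 < w.t)
    (h3 : w.t < 5 * k + 2) (h4 : u.a ≠ w.a) (h5 : u.t < 5 * k + 2) (g : ℕ)
    (hg : u.a = w.a + g ∨ w.a = u.a + g) : 2 * (5 * k + 2) ≤ 2 * u.t + 2 * w.t + g + 2 := by
  have hwh := w.h
  obtain ⟨v, hv1, hv2⟩ : ∃ v : Vx k, (Gr k).Adj w v ∧
      ((v.a = w.a ∧ v.t = w.t + 1) ∨ (v.a = 0 ∧ v.t = 5 * k + 2 ∧ w.t = 5 * k + 1)) := by
    by_cases h : w.t = 5 * k + 1
    · exact ⟨X k, by rw [adj_iff]; dsimp only [X]; omega, by dsimp only [X]; omega⟩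
    · exact ⟨⟨w.a, w.t + 1, by omega⟩, by rw [adj_iff]; dsimp only; omega, by dsimp only; omega⟩
  have := pot hS hu hw (v := v) (Vx.ne_iff.mpr (by omega)) hv1.ne
    (fun y => if y.a = w.a ∧ w.t < y.t then 2 * (5 * k + 2) - (y.t : ℤ) else y.t) (by
      intro a b ha hb hab
      rw [adj_iff] at hab
      rw [Vx.ne_iff] at ha hb
      have := a.h
      have := b.h
      split_ifs <;> omega)
  have h6 : (Gr k).dist u v ≤ u.t + g + w.t + 1 := by
    rcases hg with hg | hg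
    · have := (((low w u g hg).symm).trans (W.adj hv1)).le
      omega
    · exact ((low u w g hg).trans (W.adj hv1)).le
  split_ifs at * <;> omega

theorem downPot {u w : Vx k} (hu : u ∈ S) (hw : w ∈ S) (hne : w ≠ u) (h1 : 0 < w.t)
    (h3 : w.t < 5 * k + 2) (v : Vx k) (hv1 : v.a = w.a) (hv2 : v.t + 1 = w.t) :
    (if u.t = 5 * k + 2 then 5 * k + 2 + 5 + (w.t : ℤ) - 1 else
      if u.a = w.a then (if u.t < w.t then (w.t : ℤ) - 1 - u.t else
        2 * (5 * k + 2) + 5 - u.t + w.t - 1) else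
      min (max ((u.a : ℤ) - w.a) (w.a - u.a) + u.t) (2 * (5 * k + 2) + 5 - u.t) + w.t - 1) ≤
      (Gr k).dist u v := by
  have hwh := w.h
  have := pot hS hu hw (v := v) hne (Vx.ne_iff.mpr (by omega))
    (fun u => - (if u.t = 5 * k + 2 then 5 * k + 2 + 5 + (w.t : ℤ) - 1 else
      if u.a = w.a then (if u.t < w.t then (w.t : ℤ) - 1 - u.t else
        2 * (5 * k + 2) + 5 - u.t + w.t - 1) else
      min (max ((u.a : ℤ) - w.a) (w.a - u.a) + u.t) (2 * (5 * k + 2) + 5 - u.t) + w.t - 1)) (by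
      intro a b ha hb hab
      rw [adj_iff] at hab
      rw [Vx.ne_iff] at ha hb
      have := a.h
      have := b.h
      split_ifs <;> omega)
  rw [if_neg (show ¬ v.t = 5 * k + 2 by omega), if_pos hv1, if_pos (show v.t < w.t by omega)]
    at this
  omega

theorem downB {u w : Vx k} (hu : u ∈ S) (hw : w ∈ S) (h1 : 0 < w.t) (h2 : 0 < u.t)
    (h3 : w.t < 5 * k + 2) (h4 : u.a ≠ w.a) (h5 : u.t < 5 * k + 2) (g : ℕ)
    (hg : u.a = w.a + g ∨ w.a = u.a + g) : 2 * u.t + 2 * w.t + g ≤ 2 * (5 * k + 2) + 2 := by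
  have hwh := w.h
  have huh := u.h
  have := downPot hS hu hw (Vx.ne_iff.mpr (by omega)) h1 h3 ⟨w.a, w.t - 1, by omega⟩ rfl
    (by dsimp only; omega)
  have h6 := ((up u (by omega) h5).trans
    (up ⟨w.a, w.t - 1, by omega⟩ (by dsimp only; omega) (by dsimp only; omega)).symm).le
  dsimp only at h6
  split_ifs at this <;> omega

theorem sameLeg {u w : Vx k} (hu : u ∈ S) (hw : w ∈ S) (h1 : 0 < w.t) (h2 : w.t < u.t)
    (h4 : u.a = w.a) (h5 : u.t < 5 * k + 2) : False := by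
  have hwh := w.h
  have huh := u.h
  have := downPot hS hu hw (Vx.ne_iff.mpr (by omega)) h1 (by omega) ⟨w.a, w.t - 1, by omega⟩ rfl
    (by dsimp only; omega)
  have h6 := (vert (u.t - (w.t - 1)) ⟨w.a, w.t - 1, by omega⟩ u h4.symm
    (by dsimp only; omega)).symm.le
  split_ifs at this <;> omega

theorem card_le : S.ncard ≤ 6 := by
  classical
  have hsub : S ⊆ ({X k} ∪ {y ∈ S | y.t = 0}) ∪ {y ∈ S | 0 < y.t ∧ y.t < 5 * k + 2} := by
    intro y hy
    have := y.h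
    by_cases h : y.t = 5 * k + 2
    · exact Or.inl (Or.inl (Vx.ext' (by dsimp only [X]; omega) h))
    · by_cases h' : y.t = 0
      · exact Or.inl (Or.inr ⟨hy, h'⟩)
      · exact Or.inr ⟨hy, by omega⟩
  have h1 : {y ∈ S | y.t = 0}.ncard ≤ 2 := by
    rw [← Set.ncard_image_of_injOn (f := Vx.a) (fun x hx y hy h =>
      Vx.ext' h (hx.2.trans hy.2.symm))]
    by_contra hlt
    have hfin : (Vx.a '' {y ∈ S | y.t = 0}).Finite := Set.toFinite _
    rw [Set.ncard_eq_toFinset_card _ hfin] at hlt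
    let e := hfin.toFinset.orderEmbOfCardLe (k := 3) (by omega)
    have he : ∀ i, ∃ y, (y ∈ S ∧ y.t = 0) ∧ y.a = e i := fun i =>
      hfin.mem_toFinset.mp (Finset.orderEmbOfCardLe_mem _ _ i)
    obtain ⟨u, hu, hu'⟩ := he 0
    obtain ⟨w, hw, hw'⟩ := he 1
    obtain ⟨v, hv, hv'⟩ := he 2
    have e1 : e 0 < e 1 := e.strictMono (by decide)
    have e2 : e 1 < e 2 := e.strictMono (by decide)
    exact spine hS hu.1 hw.1 hu.2 hw.2 hv.2 (by omega) (by omega)
  have h2 : {y ∈ S | 0 < y.t ∧ y.t < 5 * k + 2}.ncard ≤ 3 := by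
    rw [← Set.ncard_image_of_injOn (f := Vx.a) (fun x hx y hy h => by
      rcases lt_trichotomy x.t y.t with h' | h' | h'
      · exact (sameLeg hS hy.1 hx.1 hx.2.1 h' h.symm hy.2.2).elim
      · exact Vx.ext' h h'
      · exact (sameLeg hS hx.1 hy.1 hy.2.1 h' h hx.2.2).elim)]
    by_contra hlt
    have hfin : (Vx.a '' {y ∈ S | 0 < y.t ∧ y.t < 5 * k + 2}).Finite := Set.toFinite _
    rw [Set.ncard_eq_toFinset_card _ hfin] at hlt
    let e := hfin.toFinset.orderEmbOfCardLe (k := 4) (by omega)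
    have he : ∀ i, ∃ y, (y ∈ S ∧ 0 < y.t ∧ y.t < 5 * k + 2) ∧ y.a = e i := fun i =>
      hfin.mem_toFinset.mp (Finset.orderEmbOfCardLe_mem _ _ i)
    obtain ⟨u, hu, hu'⟩ := he 0
    obtain ⟨w, hw, hw'⟩ := he 1
    obtain ⟨v, hv, hv'⟩ := he 2
    obtain ⟨z, hz, hz'⟩ := he 3
    have e1 : e 0 < e 1 := e.strictMono (by decide)
    have e2 : e 1 < e 2 := e.strictMono (by decide)
    have e3 : e 2 < e 3 := e.strictMono (by decide)
    have a1 := upB hS hu.1 hw.1 hw.2.1 hw.2.2 (by omega) hu.2.2 (w.a - u.a) (by omega)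
    have a2 := upB hS hv.1 hz.1 hz.2.1 hz.2.2 (by omega) hv.2.2 (z.a - v.a) (by omega)
    have a3 := downB hS hu.1 hv.1 hv.2.1 hu.2.1 hv.2.2 (by omega) hu.2.2 (v.a - u.a) (by omega)
    have a4 := downB hS hw.1 hz.1 hz.2.1 hw.2.1 hz.2.2 (by omega) hw.2.2 (z.a - w.a) (by omega)
    have := w.h
    have := v.h
    omega
  have h3 := Set.ncard_le_ncard hsub
  have h4 := Set.ncard_union_le ({X k} ∪ {y ∈ S | y.t = 0}) {y ∈ S | 0 < y.t ∧ y.t < 5 * k + 2}
  have h5 := Set.ncard_union_le {X k} {y ∈ S | y.t = 0}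
  rw [Set.ncard_singleton] at h5
  omega

end Upper

theorem upper (k : ℕ) : muo (Gr k) ≤ 6 := by
  refine csSup_le ⟨0, ∅, by simp [IsOuterMV], by simp⟩ ?_
  rintro n ⟨S, hS, rfl⟩
  exact card_le hS

end Pool.Agent.H29.OuterMV
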