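import Mathlib

set_option autoImplicit false

namespace Pool.Agent.H29.Parent

theorem acyclic {V : Type} (G : SimpleGraph V) (rk : V → ℕ) (par : V → V)
    (h : ∀ a b, G.Adj a b → (b = par a ∧ rk b < rk a) ∨ (a = par b ∧ rk a < rk b)) :
    G.IsAcyclic := by
  classical
  intro v c hc
  obtain ⟨x, hx, hmax⟩ := Finset.exists_max_image c.support.toFinset rk
    ⟨v, by simp⟩
  have hx' : x ∈ c.support := by simpa using hx
  have h1 := hc.rotate hx'
  have h2 : ∀ y, y ∈ (c.rotate x hx').support → rk y ≤ rk x := fun y hy =>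
    hmax y (by simpa using hy)
  have h3 := h1.snd_ne_penultimate
  have h4 := (c.rotate x hx').adj_snd h1.not_nil
  have h5 := ((c.rotate x hx').adj_penultimate h1.not_nil).symm
  have h6 := h2 _ ((c.rotate x hx').getVert_mem_support 1)
  have h7 := h2 _ ((c.rotate x hx').getVert_mem_support ((c.rotate x hx').length - 1))
  rcases h _ _ h4 with a | a
  · rcases h _ _ h5 with b | b
    · exact h3 (a.1.trans b.1.symm)
    · exact absurd b.2 (not_lt.mpr h7)
  · exact absurd a.2 (not_lt.mpr h6)

end Pool.Agent.H29.Parent
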