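import Mathlib

set_option autoImplicit false

namespace Pool.Agent.H29.PermCount

theorem card_perm (n : ℕ) (Q : List ℕ → Bool) :
    (Finset.univ.filter (fun σ : Equiv.Perm (Fin n) =>
      Q (List.ofFn fun i => (σ i : ℕ)) = true)).card = (List.range n).permutations'.countP Q := by
  have hnd : (List.range n).permutations'.Nodup :=
    (List.permutations_perm_permutations' _).nodup_iff.mp
      (List.nodup_permutations _ List.nodup_range)
  rw [List.countP_eq_length_filter, ← List.toFinset_card_of_nodup (hnd.filter _)]
  have hr : List.ofFn (fun i : Fin n => (i : ℕ)) = List.range n := by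
    apply List.ext_getElem <;> simp
  refine Finset.card_bij (fun σ _ => List.ofFn fun i => (σ i : ℕ)) ?_ ?_ ?_
  · intro σ hσ
    rw [List.mem_toFinset, List.mem_filter, List.mem_permutations']
    refine ⟨?_, (Finset.mem_filter.mp hσ).2⟩
    rw [← hr]
    exact Equiv.Perm.ofFn_comp_perm σ (fun i : Fin n => (i : ℕ))
  · intro σ _ τ _ h
    ext i
    exact congrFun (List.ofFn_injective h) i
  · intro l hl
    rw [List.mem_toFinset, List.mem_filter, List.mem_permutations'] at hl
    have hlen : l.length = n := by simpa using hl.1.length_eq
    have hnd : l.Nodup := hl.1.nodup_iff.mpr List.nodup_range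
    let f : Fin n → Fin n := fun i => ⟨l[i.1]'(by omega), by
      have := hl.1.subset (List.getElem_mem (show i.1 < l.length by omega))
      simpa using this⟩
    have hf : Function.Injective f := by
      intro i j hij
      simp only [f, Fin.mk.injEq] at hij
      exact Fin.ext ((List.Nodup.getElem_inj_iff hnd).mp hij)
    have he : (List.ofFn fun i => ((Equiv.ofBijective f
        (Finite.injective_iff_bijective.mp hf)) i : ℕ)) = l := by
      apply List.ext_getElem
      · simp [hlen]
      · intro i h1 h2
        simp [f]
    refine ⟨Equiv.ofBijective f (Finite.injective_iff_bijective.mp hf), ?_, he⟩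
    rw [Finset.mem_filter, he]
    exact ⟨Finset.mem_univ _, hl.2⟩

end Pool.Agent.H29.PermCount
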