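import Mathlib

set_option autoImplicit false

namespace Pool.Agent.H29.QCh

/-- Rational chains: finite formal rational combinations of lists of vertices. -/
abbrev Ch (α : Type*) := List α →₀ ℚ

variable {α β : Type*}

/-- The simplicial boundary of one list of vertices: the alternating sum of its faces. -/
noncomputable def dl (l : List α) : Ch α :=
  ∑ i ∈ Finset.range l.length, (-1 : ℚ) ^ i • Finsupp.single (l.eraseIdx i) (1 : ℚ)

/-- The simplicial boundary operator, the linear extension of `dl`. -/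
noncomputable def d : Ch α →ₗ[ℚ] Ch α := Finsupp.linearCombination ℚ dl

noncomputable def sg (l : List α) : Ch α := Finsupp.single l 1

noncomputable def ext {M : Type*} [AddCommGroup M] [Module ℚ M] (φ : List α → M) : Ch α →ₗ[ℚ] M :=
  Finsupp.linearCombination ℚ φ

@[simp] lemma ext_sg {M : Type*} [AddCommGroup M] [Module ℚ M] (φ : List α → M) (l : List α) :
    ext φ (sg l) = φ l := by
  simp [ext, sg]

@[simp] lemma d_sg (l : List α) : d (sg l) = dl l := ext_sg dl l

lemma hom_ext {M : Type*} [AddCommGroup M] [Module ℚ M] {F G : Ch α →ₗ[ℚ] M}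
    (h : ∀ l, F (sg l) = G (sg l)) (c : Ch α) : F c = G c := by
  have : F = G := by
    apply Finsupp.lhom_ext'
    intro l
    apply LinearMap.ext_ring
    simpa [sg] using h l
  rw [this]

noncomputable def cons (a : α) : Ch α →ₗ[ℚ] Ch α := ext fun l => sg (a :: l)

noncomputable def mp (f : α → β) : Ch α →ₗ[ℚ] Ch β := ext fun l => sg (l.map f)

@[simp] lemma cons_sg (a : α) (l : List α) : cons a (sg l) = sg (a :: l) := ext_sg _ _

@[simp] lemma mp_sg (f : α → β) (l : List α) : mp f (sg l) = sg (l.map f) := ext_sg _ _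

@[simp] lemma dl_nil : dl ([] : List α) = 0 := by simp [dl]

lemma dl_cons (a : α) (l : List α) : dl (a :: l) = sg l - cons a (dl l) := by
  unfold dl
  rw [List.length_cons, Finset.sum_range_succ', map_sum, sub_eq_add_neg, add_comm,
    ← Finset.sum_neg_distrib]
  congr 1
  · simp [sg]
  · refine Finset.sum_congr rfl fun i _ => ?_
    rw [map_smul, pow_succ, List.eraseIdx_cons_succ]
    have := cons_sg a (l.eraseIdx i)
    unfold sg at this
    rw [this]
    simp

lemma d_cons (a : α) (c : Ch α) : d (cons a c) = c - cons a (d c) := by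
  have := hom_ext (F := d ∘ₗ cons a) (G := LinearMap.id - cons a ∘ₗ d)
    (fun l => by simp [dl_cons]) c
  simpa using this

lemma d_dl (l : List α) : d (dl l) = 0 := by
  induction l with
  | nil => simp
  | cons a l ih => rw [dl_cons, map_sub, d_cons, ih]; simp

lemma d_d (c : Ch α) : d (d c) = 0 := by
  have := hom_ext (F := (d : Ch α →ₗ[ℚ] Ch α) ∘ₗ d) (G := 0) (fun l => by simp [d_dl]) c
  simpa using this

lemma mp_cons (f : α → β) (a : α) (c : Ch α) : mp f (cons a c) = cons (f a) (mp f c) := by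
  have := hom_ext (F := mp f ∘ₗ cons a) (G := cons (f a) ∘ₗ mp f) (fun l => by simp) c
  simpa using this

lemma mp_dl (f : α → β) (l : List α) : mp f (dl l) = dl (l.map f) := by
  induction l with
  | nil => simp
  | cons a l ih => rw [List.map_cons, dl_cons, dl_cons, map_sub, mp_cons, ih]; simp

lemma d_mp (f : α → β) (c : Ch α) : d (mp f c) = mp f (d c) := by
  have := hom_ext (F := d ∘ₗ mp f) (G := mp f ∘ₗ d) (fun l => by simp [mp_dl]) c
  simpa using this

lemma ext_mp {M : Type*} [AddCommGroup M] [Module ℚ M] (φ : List β → M) (f : α → β) (c : Ch α) :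
    ext φ (mp f c) = ext (fun l => φ (l.map f)) c := by
  have := hom_ext (F := ext φ ∘ₗ mp f) (G := ext (fun l => φ (l.map f))) (fun l => by simp) c
  simpa using this

lemma mp_mp {γ : Type*} (g : β → γ) (f : α → β) (c : Ch α) : mp g (mp f c) = mp (g ∘ f) c := by
  have := hom_ext (F := mp g ∘ₗ mp f) (G := mp (g ∘ f)) (fun l => by simp) c
  simpa using this

lemma mp_id (c : Ch α) : mp id c = c := by
  have := hom_ext (F := mp (id : α → α)) (G := LinearMap.id) (fun l => by simp) c
  simpa using this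

/-- Chains supported on a set of lists. -/
abbrev On (S : Set (List α)) : Submodule ℚ (Ch α) := Finsupp.supported ℚ ℚ S

lemma sg_on {S : Set (List α)} {l : List α} (h : l ∈ S) : sg l ∈ On S :=
  Finsupp.single_mem_supported ℚ 1 h

lemma lin_on {M : Type*} [AddCommGroup M] [Module ℚ M] {S : Set (List α)} (F : Ch α →ₗ[ℚ] M)
    {N : Submodule ℚ M} (h : ∀ l ∈ S, F (sg l) ∈ N) {c : Ch α} (hc : c ∈ On S) : F c ∈ N := by
  have : On S ≤ N.comap F := by
    unfold On
    rw [Finsupp.supported_eq_span_single, Submodule.span_le]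
    rintro _ ⟨l, hl, rfl⟩
    exact h l hl
  exact this hc

lemma lin_eq_on {M : Type*} [AddCommGroup M] [Module ℚ M] {S : Set (List α)} (F G : Ch α →ₗ[ℚ] M)
    (h : ∀ l ∈ S, F (sg l) = G (sg l)) {c : Ch α} (hc : c ∈ On S) : F c = G c := by
  have := lin_on (F - G) (N := ⊥) (fun l hl => by simp [h l hl]) hc
  simpa [sub_eq_zero] using this

lemma on_mono {S T : Set (List α)} (h : S ⊆ T) {c : Ch α} (hc : c ∈ On S) : c ∈ On T :=
  Finsupp.supported_mono h hc

lemma dl_on {S : Set (List α)} {l : List α} (h : ∀ i < l.length, l.eraseIdx i ∈ S) :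
    dl l ∈ On S := by
  unfold dl
  refine Submodule.sum_mem _ fun i hi => Submodule.smul_mem _ _ ?_
  exact sg_on (h i (Finset.mem_range.1 hi))

lemma d_on {S T : Set (List α)} (h : ∀ l ∈ S, ∀ i < l.length, l.eraseIdx i ∈ T) {c : Ch α}
    (hc : c ∈ On S) : d c ∈ On T :=
  lin_on d (fun l hl => by rw [d_sg]; exact dl_on (h l hl)) hc

lemma cons_on {S T : Set (List α)} (a : α) (h : ∀ l ∈ S, a :: l ∈ T) {c : Ch α}
    (hc : c ∈ On S) : cons a c ∈ On T :=
  lin_on _ (fun l hl => by rw [cons_sg]; exact sg_on (h l hl)) hc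

lemma mp_on {S : Set (List α)} {T : Set (List β)} (f : α → β) (h : ∀ l ∈ S, l.map f ∈ T)
    {c : Ch α} (hc : c ∈ On S) : mp f c ∈ On T :=
  lin_on _ (fun l hl => by rw [mp_sg]; exact sg_on (h l hl)) hc

end Pool.Agent.H29.QCh
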