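import Mathlib

set_option autoImplicit false

namespace Pool.Agent.H29.Queens3

/-- two cells attack each other -/
def Attack (x y : Fin 3 → ℤ) : Prop :=
  x ≠ y ∧ ∃ (t : ℤ) (v : Fin 3 → ℤ), t ≠ 0 ∧ v ≠ 0 ∧ (∀ i, v i = -1 ∨ v i = 0 ∨ v i = 1) ∧
    y - x = t • v

/-- solution of the `(n,3)`-queens problem -/
def IsSolution (n : ℕ) (S : Finset (Fin 3 → ℤ)) : Prop :=
  (∀ x ∈ S, ∀ i, 1 ≤ x i ∧ x i ≤ n) ∧ S.card = n ^ 2 ∧ ∀ x ∈ S, ∀ y ∈ S, ¬ Attack x y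

/-- regular solution -/
def IsRegular (n : ℕ) (S : Finset (Fin 3 → ℤ)) : Prop :=
  ∃ a b c : ℤ, ∀ x ∈ S, x 2 ≡ a * x 0 + b * x 1 + c [ZMOD n]

/-- third coordinate -/
def F (i j : ℤ) : ℤ := 11 * ((2 * (i / 11) + 5 * (j / 11)) % 11) + (2 * i + 5 * j) % 11

/-- cell -/
def cell (p : ℤ × ℤ) : Fin 3 → ℤ := ![p.1 + 1, p.2 + 1, F p.1 p.2 + 1]

/-- the solution -/
noncomputable def SolN (N : ℤ) : Finset (Fin 3 → ℤ) :=
  ((Finset.Ico (0 : ℤ) N) ×ˢ (Finset.Ico (0 : ℤ) N)).image cell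

theorem mem_sol (N : ℤ) (x : Fin 3 → ℤ) : x ∈ SolN N ↔
    ∃ p : ℤ × ℤ, ((0 ≤ p.1 ∧ p.1 < N) ∧ 0 ≤ p.2 ∧ p.2 < N) ∧ cell p = x := by
  simp only [SolN, Finset.mem_image, Finset.mem_product, Finset.mem_Ico]

theorem card_sol (N : ℕ) : (SolN N).card = N ^ 2 := by
  rw [SolN, Finset.card_image_of_injective]
  · simp [sq]
  · intro p q h
    have h0 := congrFun h 0
    have h1 := congrFun h 1
    simp [cell] at h0 h1
    exact Prod.ext h0 h1

theorem step (t a b c u v w u' v' w' : ℤ) (ha : a = -1 ∨ a = 0 ∨ a = 1)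
    (hb : b = -1 ∨ b = 0 ∨ b = 1) (hc : c = -1 ∨ c = 0 ∨ c = 1) (h0 : ¬ (a = 0 ∧ b = 0 ∧ c = 0))
    (h1 : u' - u = t * a) (h2 : v' - v = t * b) (h3 : w' - w = t * c)
    (h4 : w % 11 = (2 * u + 5 * v) % 11) (h5 : w' % 11 = (2 * u' + 5 * v') % 11) : t % 11 = 0 := by
  rcases ha with rfl | rfl | rfl <;> rcases hb with rfl | rfl | rfl <;>
    rcases hc with rfl | rfl | rfl <;> omega

theorem Fdiv (i j : ℤ) : F i j / 11 % 11 = (2 * (i / 11) + 5 * (j / 11)) % 11 := by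
  have : ∀ A B : ℤ, (11 * A + B % 11) / 11 = A := fun A B => by omega
  unfold F
  rw [this, Int.emod_emod_of_dvd _ dvd_rfl]

theorem sol (N : ℕ) (hN : N = 121) : IsSolution N (SolN N) := by
  refine ⟨?_, ?_, ?_⟩
  · intro x hx i
    obtain ⟨p, hp, rfl⟩ := (mem_sol _ _).mp hx
    fin_cases i <;> simp [cell, F] <;> omega
  · exact card_sol N
  · rintro x hx y hy ⟨_, t, v, ht, hv, h1, h2⟩
    obtain ⟨⟨i, j⟩, hp, rfl⟩ := (mem_sol _ _).mp hx
    obtain ⟨⟨k, l⟩, hq, rfl⟩ := (mem_sol _ _).mp hy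
    dsimp only at hp hq
    have e0 := congrFun h2 0
    have e1 := congrFun h2 1
    have e2 := congrFun h2 2
    simp [cell] at e0 e1 e2
    have h0 : ¬ (v 0 = 0 ∧ v 1 = 0 ∧ v 2 = 0) := fun h => hv (by
      ext m
      fin_cases m
      · exact h.1
      · exact h.2.1
      · exact h.2.2)
    have s1 := step t _ _ _ i j (F i j) k l (F k l) (h1 0) (h1 1) (h1 2) h0 e0 e1 e2
      (by unfold F; omega) (by unfold F; omega)
    obtain ⟨s, rfl⟩ : ∃ s, t = 11 * s := ⟨t / 11, by omega⟩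
    rw [mul_assoc] at e0 e1 e2
    have s2 := step s _ _ _ (i / 11) (j / 11) (F i j / 11) (k / 11) (l / 11) (F k l / 11)
      (h1 0) (h1 1) (h1 2) h0 (by omega) (by omega) (by omega)
      (Fdiv _ _) (Fdiv _ _)
    have b1 : 0 ≤ F i j ∧ F i j < 121 := by unfold F; omega
    have b2 : 0 ≤ F k l ∧ F k l < 121 := by unfold F; omega
    rcases h1 0 with a | a | a <;> rcases h1 1 with b | b | b <;> rcases h1 2 with c | c | c <;>
      rw [a] at e0 h0 <;> rw [b] at e1 h0 <;> rw [c] at e2 h0 <;> omega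

theorem notReg (N : ℕ) (hN : N = 121) : ¬ IsRegular N (SolN N) := by
  rintro ⟨a, b, c, h⟩
  have m : ∀ i : ℤ, 0 ≤ i → i < 121 → F i 0 + 1 ≡ a * (i + 1) + b * (0 + 1) + c [ZMOD N] :=
    fun i h1 h2 => h (cell (i, 0)) ((mem_sol _ _).mpr ⟨_, by dsimp only; omega, rfl⟩)
  have h4 := m 4 (by norm_num) (by norm_num)
  have h5 := m 5 (by norm_num) (by norm_num)
  have h6 := m 6 (by norm_num) (by norm_num)
  unfold Int.ModEq F at h4 h5 h6
  clear m h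
  subst hN
  push_cast at h4 h5 h6
  omega

end Pool.Agent.H29.Queens3
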