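import Mathlib

set_option autoImplicit false

namespace Pool.Agent.H29.RGF

/-- restricted growth function -/
def IsRGF {n : ℕ} (w : Fin n → ℕ) : Prop :=
  ∀ i, 1 ≤ w i ∧ w i ≤ 1 + (Finset.univ.filter (fun j => j < i)).sup w

/-- avoids the pattern 1221 -/
def Avoids {n : ℕ} (w : Fin n → ℕ) : Prop :=
  ¬ ∃ a b c d, a < b ∧ b < c ∧ c < d ∧ w a = w d ∧ w d < w b ∧ w b = w c

/-- the statistic rb -/
def rb {n : ℕ} (w : Fin n → ℕ) : ℕ :=
  ∑ j, ((Finset.univ.filter (fun i => j < i ∧ w j < w i)).image w).card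

/-- coefficient of `q ^ k` in `RB_n(1221)` -/
noncomputable def coeffRB (n k : ℕ) : ℕ :=
  {w : Fin n → ℕ | IsRGF w ∧ Avoids w ∧ rb w = k}.ncard

end Pool.Agent.H29.RGF
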