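import Mathlib
import Pool.Agent.H29.RGFDefs

set_option autoImplicit false

namespace Pool.Agent.H29.RGF

theorem rgf_iff {n : ℕ} (w : Fin n → ℕ) :
    IsRGF w ↔ ∀ i, 1 ≤ w i ∧ (w i = 1 ∨ ∃ j, j < i ∧ w i ≤ 1 + w j) := by
  refine forall_congr' fun i => and_congr_right fun h1 => ⟨fun h => ?_, fun h => ?_⟩
  · rcases (Finset.univ.filter (fun j => j < i)).eq_empty_or_nonempty with h2 | h2
    · rw [h2] at h
      simp at h
      omega
    · obtain ⟨j, hj, h3⟩ := Finset.exists_mem_eq_sup _ h2 w
      exact Or.inr ⟨j, (Finset.mem_filter.mp hj).2, h3 ▸ h⟩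
  · rcases h with h | ⟨j, hj, h⟩
    · omega
    · have := Finset.le_sup (f := w)
        (Finset.mem_filter.mpr ⟨Finset.mem_univ j, hj⟩ : j ∈ Finset.univ.filter (fun j => j < i))
      omega

theorem first {n : ℕ} {w : Fin n → ℕ} (h : IsRGF w) (x : ℕ) (hx : 1 ≤ x) :
    ∀ i, x ≤ w i → ∃ j, j ≤ i ∧ w j = x := by
  rw [rgf_iff] at h
  intro i
  induction i using WellFoundedLT.induction with
  | _ i ih =>
    intro hi
    by_cases h1 : w i = x
    · exact ⟨i, le_rfl, h1⟩
    · rcases (h i).2 with h2 | ⟨j, hj, h2⟩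
      · omega
      · obtain ⟨l, hl, h3⟩ := ih j hj (by omega)
        exact ⟨l, hl.trans hj.le, h3⟩

theorem noBack {n : ℕ} {w : Fin n → ℕ} (h : IsRGF w) (ha : Avoids w) {b c d : Fin n}
    (h1 : b < c) (h2 : c < d) (h3 : w d < w b) : w b ≠ w c := by
  intro h4
  obtain ⟨a, h5, h6⟩ := first h (w d) (h d).1 b h3.le
  exact ha ⟨a, b, c, d, lt_of_le_of_ne h5 (by rintro rfl; omega), h1, h2, h6, h3, h4⟩

theorem last_eq {n k : ℕ} (hn : 3 * k + 1 ≤ n) {v : Fin (n + 2) → ℕ} (h : IsRGF v)
    (ha : Avoids v) (hk : rb v = k) : v ⟨n, by omega⟩ = v (Fin.last _) := by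
  classical
  by_contra hne
  set b := v (Fin.last _) with hb
  let A : Finset (Fin (n + 2)) := Finset.univ.filter fun j => ∃ i, j < i ∧ v j < v i
  have hA : A.card ≤ k := by
    rw [← hk, rb, Finset.card_eq_sum_ones]
    refine le_trans (Finset.sum_le_sum fun j hj => ?_)
      (Finset.sum_le_sum_of_subset (Finset.subset_univ A))
    obtain ⟨i, hi⟩ := (Finset.mem_filter.mp hj).2
    exact Finset.card_pos.mpr ⟨v i, Finset.mem_image_of_mem _ (by simpa using hi)⟩
  have lt_last : ∀ j, v j ≠ b → j < Fin.last _ := fun j hj =>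
    lt_of_le_of_ne (Fin.le_last j) (by rintro rfl; exact hj rfl)
  have h1 : (Finset.univ.filter fun j => v j < b).card ≤ k :=
    le_trans (Finset.card_le_card fun j hj => Finset.mem_filter.mpr ⟨Finset.mem_univ _,
      Fin.last _, lt_last j (Finset.mem_filter.mp hj).2.ne, (Finset.mem_filter.mp hj).2⟩) hA
  have h0 : v 0 = 1 := by
    rcases ((rgf_iff v).mp h 0).2 with h | ⟨j, hj, _⟩
    · exact h
    · exact absurd hj (Fin.not_lt_zero j)
  have h2 : (Finset.univ.filter fun j => b < v j).card ≤ k := by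
    rw [← Finset.card_image_of_injOn (f := v)]
    · rw [← hk, rb]
      refine le_trans (Finset.card_le_card (Finset.image_subset_image fun j hj => ?_))
        (Finset.single_le_sum (f := fun j => ((Finset.univ.filter
          (fun i => j < i ∧ v j < v i)).image v).card) (fun _ _ => Nat.zero_le _)
          (Finset.mem_univ 0))
      have h3 := (Finset.mem_filter.mp hj).2
      have h4 : 1 ≤ b := (h _).1
      refine Finset.mem_filter.mpr ⟨Finset.mem_univ _, Fin.pos_iff_ne_zero.mpr ?_, by omega⟩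
      rintro rfl
      omega
    · intro x hx y hy hxy
      have h3 := (Finset.mem_filter.mp hx).2
      have h4 := (Finset.mem_filter.mp hy).2
      rcases lt_trichotomy x y with h5 | h5 | h5
      · exact absurd hxy (noBack h ha h5 (lt_last y h4.ne') h3)
      · exact h5
      · exact absurd hxy.symm (noBack h ha h5 (lt_last x h3.ne') h4)
  have lt_pen : ∀ j, v j = b → j ≠ Fin.last _ → j < ⟨n, by omega⟩ := by
    intro j h3 h4
    have h5 : j.val ≠ n + 1 := fun h => h4 (Fin.ext h)
    have h6 : j.val ≠ n := fun h => hne (by rw [← h3]; congr 1; exact Fin.ext h.symm)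
    have := j.2
    exact Fin.lt_def.mpr (by simp only; omega)
  have h3 : ((Finset.univ.filter fun j => v j = b).erase (Fin.last _)).card ≤ k + 1 := by
    rcases lt_or_gt_of_ne hne with h4 | h4
    · refine le_trans (Finset.card_le_one.mpr fun x hx y hy => ?_) (by omega)
      simp only [Finset.mem_erase, Finset.mem_filter, Finset.mem_univ, true_and] at hx hy
      rcases lt_trichotomy x y with h5 | h5 | h5
      · exact absurd (hx.2.trans hy.2.symm)
          (noBack h ha h5 (lt_pen y hy.2 hy.1) (by rw [hx.2]; exact h4))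
      · exact h5
      · exact absurd (hy.2.trans hx.2.symm)
          (noBack h ha h5 (lt_pen x hx.2 hx.1) (by rw [hy.2]; exact h4))
    · refine le_trans (Finset.card_le_card fun x hx => ?_) (hA.trans (Nat.le_succ k))
      simp only [Finset.mem_erase, Finset.mem_filter, Finset.mem_univ, true_and] at hx
      exact Finset.mem_filter.mpr ⟨Finset.mem_univ _, _, lt_pen x hx.2 hx.1,
        by rw [hx.2]; exact h4⟩
  have h4 := Finset.pred_card_le_card_erase (s := Finset.univ.filter fun j => v j = b)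
    (a := Fin.last _)
  have h5 : (Finset.univ : Finset (Fin (n + 2))) ⊆ ((Finset.univ.filter fun j => v j < b) ∪
      (Finset.univ.filter fun j => b < v j)) ∪ (Finset.univ.filter fun j => v j = b) := by
    intro j _
    simp only [Finset.mem_union, Finset.mem_filter, Finset.mem_univ, true_and]
    omega
  have h6 := Finset.card_le_card h5
  have h7 := Finset.card_union_le ((Finset.univ.filter fun j => v j < b) ∪
      (Finset.univ.filter fun j => b < v j)) (Finset.univ.filter fun j => v j = b)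
  have h8 := Finset.card_union_le (Finset.univ.filter fun j => v j < b)
      (Finset.univ.filter fun j => b < v j)
  simp only [Finset.card_univ, Fintype.card_fin] at h6
  omega

/-- clamp -/
def cl {n : ℕ} (i : Fin (n + 2)) : Fin (n + 1) := ⟨min i n, by omega⟩

theorem cl_cast {n : ℕ} (i : Fin (n + 1)) : cl i.castSucc = i :=
  Fin.ext (by simp only [cl, Fin.val_castSucc]; omega)

theorem cl_last {n : ℕ} : cl (Fin.last (n + 1)) = Fin.last n :=
  Fin.ext (by simp only [cl, Fin.val_last]; omega)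

theorem rgf_ext {n : ℕ} (w : Fin (n + 1) → ℕ) : IsRGF (w ∘ cl) ↔ IsRGF w := by
  rw [rgf_iff, rgf_iff]
  constructor
  · intro h i
    have := h i.castSucc
    simp only [Function.comp, cl_cast] at this
    refine ⟨this.1, this.2.imp id ?_⟩
    rintro ⟨j, hj, h2⟩
    refine ⟨cl j, ?_, h2⟩
    rw [Fin.lt_def] at hj ⊢
    simp only [cl, Fin.val_castSucc] at hj ⊢
    omega
  · intro h i
    refine ⟨(h _).1, ((h (cl i)).2).imp id ?_⟩
    rintro ⟨j, hj, h2⟩
    refine ⟨j.castSucc, ?_, by simpa only [Function.comp, cl_cast] using h2⟩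
    rw [Fin.lt_def] at hj ⊢
    simp only [cl, Fin.val_castSucc] at hj ⊢
    omega

theorem av_ext {n : ℕ} (w : Fin (n + 1) → ℕ) : Avoids (w ∘ cl) ↔ Avoids w := by
  refine not_congr ⟨?_, ?_⟩
  · rintro ⟨a, b, c, d, h1, h2, h3, h4, h5, h6⟩
    simp only [Function.comp] at h4 h5 h6
    have h7 : cl c ≠ cl d := by
      intro h
      rw [h6, h] at h5
      exact lt_irrefl _ h5
    have h8 : (cl c).val ≠ (cl d).val := fun h => h7 (Fin.ext h)
    have := d.2
    refine ⟨cl a, cl b, cl c, cl d, ?_, ?_, ?_, h4, h5, h6⟩ <;>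
    · rw [Fin.lt_def] at h1 h2 h3 ⊢
      simp only [cl] at h8 ⊢
      omega
  · rintro ⟨a, b, c, d, h1, h2, h3, h4, h5, h6⟩
    exact ⟨a.castSucc, b.castSucc, c.castSucc, d.castSucc, h1, h2, h3,
      by simpa only [Function.comp, cl_cast] using h4,
      by simpa only [Function.comp, cl_cast] using h5,
      by simpa only [Function.comp, cl_cast] using h6⟩

theorem rb_ext {n : ℕ} (w : Fin (n + 1) → ℕ) : rb (w ∘ cl) = rb w := by
  unfold rb
  rw [Fin.sum_univ_castSucc]
  have h1 : (Finset.univ.filter (fun i => Fin.last (n + 1) < i ∧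
      (w ∘ cl) (Fin.last (n + 1)) < (w ∘ cl) i)) = ∅ :=
    Finset.filter_eq_empty_iff.mpr fun i _ h => absurd h.1 (not_lt.mpr (Fin.le_last i))
  rw [h1]
  simp only [Finset.image_empty, Finset.card_empty, add_zero]
  refine Finset.sum_congr rfl fun j _ => ?_
  congr 1
  ext x
  simp only [Finset.mem_image, Finset.mem_filter, Finset.mem_univ, true_and, Function.comp,
    cl_cast]
  constructor
  · rintro ⟨i, ⟨h1, h2⟩, h3⟩
    refine ⟨cl i, ⟨?_, h2⟩, h3⟩
    have h8 : j.val ≠ (cl i).val := fun h => by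
      rw [Fin.ext h] at h2
      exact lt_irrefl _ h2
    have := j.2
    rw [Fin.lt_def] at h1 ⊢
    simp only [cl, Fin.val_castSucc] at h1 h8 ⊢
    omega
  · rintro ⟨i, ⟨h1, h2⟩, h3⟩
    exact ⟨i.castSucc, ⟨h1, by rwa [cl_cast]⟩, by rwa [cl_cast]⟩

theorem step {n k : ℕ} (hn : 3 * k + 1 ≤ n) : coeffRB (n + 2) k = coeffRB (n + 1) k := by
  unfold coeffRB
  symm
  refine Set.ncard_congr (fun w _ => w ∘ cl) ?_ ?_ ?_
  · intro w hw
    exact ⟨(rgf_ext w).mpr hw.1, (av_ext w).mpr hw.2.1, (rb_ext w).trans hw.2.2⟩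
  · intro w v _ _ h
    funext i
    have := congrFun h i.castSucc
    simpa only [Function.comp, cl_cast] using this
  · intro v hv
    have h1 := last_eq hn hv.1 hv.2.1 hv.2.2
    have h2 : (fun i : Fin (n + 1) => v i.castSucc) ∘ cl = v := by
      funext i
      rcases Fin.eq_castSucc_or_eq_last i with ⟨j, rfl⟩ | rfl
      · simp only [Function.comp, cl_cast]
      · simp only [Function.comp, cl_last]
        exact h1
    refine ⟨fun i => v i.castSucc, ?_, h2⟩
    rw [← h2] at hv
    exact ⟨(rgf_ext _).mp hv.1, (av_ext _).mp hv.2.1, (rb_ext _).symm.trans hv.2.2⟩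

end Pool.Agent.H29.RGF
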