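import Mathlib

namespace Pool.Agent.H29.RV

open Finset

/-- closed axis-parallel rectangle of positive width and height -/
structure Rect where
  x1 : ℝ
  x2 : ℝ
  y1 : ℝ
  y2 : ℝ
  hx : x1 < x2
  hy : y1 < y2

def Rect.set (R : Rect) : Set (ℝ × ℝ) := Set.Icc R.x1 R.x2 ×ˢ Set.Icc R.y1 R.y2

/-- the four sides -/
def Rect.bot (R : Rect) : Set (ℝ × ℝ) := Set.Icc R.x1 R.x2 ×ˢ {R.y1}
def Rect.top (R : Rect) : Set (ℝ × ℝ) := Set.Icc R.x1 R.x2 ×ˢ {R.y2}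
def Rect.left (R : Rect) : Set (ℝ × ℝ) := {R.x1} ×ˢ Set.Icc R.y1 R.y2
def Rect.right (R : Rect) : Set (ℝ × ℝ) := {R.x2} ×ˢ Set.Icc R.y1 R.y2

/-- the corner chosen by `c`: `c.1` for east, `c.2` for north -/
def Rect.corner (R : Rect) (c : Bool × Bool) : ℝ × ℝ :=
  (if c.1 then R.x2 else R.x1, if c.2 then R.y2 else R.y1)

def Disj {V : Type} (R : V → Rect) : Prop := ∀ u v, u ≠ v → Disjoint (R u).set (R v).set

def Free {V : Type} (R : V → Rect) (a b : V) (Q : Rect) : Prop :=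
  ∀ c, c ≠ a → c ≠ b → Disjoint Q.set (R c).set

def BandSee {V : Type} (R : V → Rect) (a b : V) : Prop :=
  ∃ Q : Rect, ((Q.bot ⊆ (R a).set ∧ Q.top ⊆ (R b).set) ∨ (Q.top ⊆ (R a).set ∧ Q.bot ⊆ (R b).set) ∨
    (Q.left ⊆ (R a).set ∧ Q.right ⊆ (R b).set) ∨ (Q.right ⊆ (R a).set ∧ Q.left ⊆ (R b).set)) ∧
    Free R a b Q

def IsRVG {V : Type} (G : SimpleGraph V) : Prop :=
  ∃ R : V → Rect, Disj R ∧ ∀ a b, a ≠ b → (G.Adj a b ↔ BandSee R a b)

def IsOpenRIG {V : Type} (G : SimpleGraph V) : Prop :=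
  ∃ P : V → ℝ × ℝ, Function.Injective P ∧ ∀ a b, a ≠ b → (G.Adj a b ↔
    ∀ c, P c ∉ interior (Set.uIcc (P a).1 (P b).1 ×ˢ Set.uIcc (P a).2 (P b).2))

def EyeSee {V : Type} (R : V → Rect) (e : V → Bool × Bool) (a b : V) : Prop :=
  ∃ (Q : Rect) (c : Bool × Bool), Q.corner c = (R a).corner (e a) ∧
    Q.corner (!c.1, !c.2) ∈ frontier (R b).set ∧ Q.set ∩ (R a).set = {(R a).corner (e a)} ∧
    Q.set ∩ (R b).set ⊆ frontier (R b).set ∧ Free R a b Q

def IsCRVG {V : Type} (G : SimpleGraph V) : Prop :=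
  ∃ (R : V → Rect) (e : V → Bool × Bool), Disj R ∧
    ∀ a b, a ≠ b → (G.Adj a b ↔ EyeSee R e a b ∨ EyeSee R e b a)

lemma mem_set {R : Rect} {p : ℝ × ℝ} :
    p ∈ R.set ↔ R.x1 ≤ p.1 ∧ p.1 ≤ R.x2 ∧ R.y1 ≤ p.2 ∧ p.2 ≤ R.y2 := by
  simp only [Rect.set, Set.mem_prod, Set.mem_Icc, and_assoc]

lemma disj_iff {A B : Rect} : Disjoint A.set B.set ↔
    A.x2 < B.x1 ∨ B.x2 < A.x1 ∨ A.y2 < B.y1 ∨ B.y2 < A.y1 := by
  rw [Set.disjoint_left]
  constructor
  · intro h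
    by_contra hn
    push Not at hn
    obtain ⟨h1, h2, h3, h4⟩ := hn
    refine @h (max A.x1 B.x1, max A.y1 B.y1) ?_ ?_ <;> rw [mem_set] <;>
      simp [A.hx.le, A.hy.le, B.hx.le, B.hy.le, h1, h2, h3, h4]
  · intro h p h1 h2
    rw [mem_set] at h1 h2
    rcases h with h | h | h | h <;> linarith [h1.1, h1.2.1, h1.2.2.1, h1.2.2.2, h2.1, h2.2.1,
      h2.2.2.1, h2.2.2.2]

lemma mem_frontier {R : Rect} {p : ℝ × ℝ} : p ∈ frontier R.set ↔
    p ∈ R.set ∧ (p.1 = R.x1 ∨ p.1 = R.x2 ∨ p.2 = R.y1 ∨ p.2 = R.y2) := by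
  have hc : IsClosed R.set := isClosed_Icc.prod isClosed_Icc
  rw [hc.frontier_eq, Set.mem_sdiff, mem_set, Rect.set, interior_prod_eq, interior_Icc, interior_Icc]
  simp only [Set.mem_prod, Set.mem_Ioo]
  grind

def VS {V : Type} (R : V → Rect) (a b : V) : Prop :=
  ∃ Q : Rect, Q.bot ⊆ (R a).set ∧ Q.top ⊆ (R b).set ∧ Free R a b Q

def Wit {V : Type} (R : V → Rect) (a b : V) (x0 : ℝ) : Prop :=
  (R a).y2 < (R b).y1 ∧ ∃ m, x0 < m ∧ ∀ x, x0 < x → x ≤ m → (R a).x1 ≤ x ∧ x ≤ (R a).x2 ∧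
    (R b).x1 ≤ x ∧ x ≤ (R b).x2 ∧ ∀ c, c ≠ a → c ≠ b → (R c).x1 ≤ x → x ≤ (R c).x2 →
      (R c).y2 < (R a).y2 ∨ (R b).y1 < (R c).y1

def Ch {V : Type} (R : V → Rect) (a b : V) (z : V × Fin 3) : Prop :=
  (z.2 = 0 ∧ z.1 = a ∧ Wit R a b (R z.1).x1) ∨ (z.2 = 1 ∧ z.1 = b ∧ Wit R a b (R z.1).x1) ∨
    (z.2 = 2 ∧ (R a).y2 < (R z.1).y1 ∧ (R z.1).y2 < (R b).y1 ∧ Wit R a b (R z.1).x2)

lemma ch_ex {V : Type} [Fintype V] {R : V → Rect} (hD : Disj R) {a b : V} (hab : a ≠ b)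
    (h : VS R a b) : ∃ z, Ch R a b z := by
  classical
  obtain ⟨Q, h1, h2, h3⟩ := h
  have a1 := mem_set.1 (h1 (a := (Q.x1, Q.y1)) (by simp [Rect.bot, Q.hx.le]))
  have a2 := mem_set.1 (h1 (a := (Q.x2, Q.y1)) (by simp [Rect.bot, Q.hx.le]))
  have b1 := mem_set.1 (h2 (a := (Q.x1, Q.y2)) (by simp [Rect.top, Q.hx.le]))
  have b2 := mem_set.1 (h2 (a := (Q.x2, Q.y2)) (by simp [Rect.top, Q.hx.le]))
  dsimp only at a1 a2 b1 b2
  have qx := Q.hx
  have qy := Q.hy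
  have hy : (R a).y2 < (R b).y1 := by
    have := disj_iff.1 (hD a b hab)
    grind
  let K : Finset (V × Fin 3) := univ.filter (fun z => (z.2 = 0 ∧ z.1 = a) ∨ (z.2 = 1 ∧ z.1 = b) ∨
    (z.2 = 2 ∧ z.1 ≠ a ∧ z.1 ≠ b ∧ (R a).y2 ≤ (R z.1).y2 ∧ (R z.1).y1 ≤ (R b).y1 ∧ (R z.1).x2 < Q.x1))
  let val : V × Fin 3 → ℝ := fun z => if z.2 = 2 then (R z.1).x2 else (R z.1).x1
  obtain ⟨z, hz, hm⟩ := exists_max_image K val ⟨(a, 0), by simp [K]⟩
  have m1 : (R a).x1 ≤ val z := hm (a, 0) (by simp [K])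
  have m2 : (R b).x1 ≤ val z := hm (b, 1) (by simp [K])
  simp only [K, mem_filter, mem_univ, true_and] at hz
  have m3 : val z ≤ Q.x1 := by
    rcases hz with ⟨e1, e2⟩ | ⟨e1, e2⟩ | ⟨e1, e2⟩ <;> simp only [val, e1]
    · rw [e2]; exact a1.1
    · rw [e2]; exact b1.1
    · exact e2.2.2.2.2.le
  have W : Wit R a b (val z) := by
    refine ⟨hy, Q.x2, by linarith, fun x x1 x2 => ⟨by linarith, by linarith [a2.2.1], by linarith,
      by linarith [b2.2.1], fun c c1 c2 c3 c4 => ?_⟩⟩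
    by_contra hn
    push Not at hn
    have := disj_iff.1 (h3 c c1 c2)
    have h5 : (R c).x2 < Q.x1 := by grind
    have : (R c).x2 ≤ val z := hm (c, 2) (by simp [K, c1, c2, hn.1, hn.2, h5])
    linarith
  refine ⟨z, ?_⟩
  rcases hz with ⟨e1, e2⟩ | ⟨e1, e2⟩ | ⟨e1, e2⟩ <;> simp only [val, e1] at W m1 m2
  · exact Or.inl ⟨e1, e2, W⟩
  · exact Or.inr (Or.inl ⟨e1, e2, W⟩)
  · refine Or.inr (Or.inr ⟨e1, ?_, ?_, W⟩)
    · have := disj_iff.1 (hD _ _ e2.1)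
      have := (R z.1).hx
      simp only [if_true] at m1 m2
      grind
    · have := disj_iff.1 (hD _ _ e2.2.1)
      have := (R z.1).hx
      simp only [if_true] at m1 m2
      grind

lemma wit2 {V : Type} {R : V → Rect} {a b a' b' : V} {x0 : ℝ} (h : Wit R a b x0)
    (h' : Wit R a' b' x0) : (R a).y2 < (R b).y1 ∧ (R a').y2 < (R b').y1 ∧
    (∀ c, (c = a' ∨ c = b') → c ≠ a → c ≠ b → (R c).y2 < (R a).y2 ∨ (R b).y1 < (R c).y1) ∧
    (∀ c, (c = a ∨ c = b) → c ≠ a' → c ≠ b' → (R c).y2 < (R a').y2 ∨ (R b').y1 < (R c).y1) := by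
  obtain ⟨h1, m, h2, h3⟩ := h
  obtain ⟨h1', m', h2', h3'⟩ := h'
  obtain ⟨a1, a2, a3, a4, a5⟩ := h3 (min m m') (lt_min h2 h2') (min_le_left _ _)
  obtain ⟨b1, b2, b3, b4, b5⟩ := h3' (min m m') (lt_min h2 h2') (min_le_right _ _)
  refine ⟨h1, h1', ?_, ?_⟩
  · rintro c (rfl | rfl) c1 c2
    · exact a5 _ c1 c2 b1 b2
    · exact a5 _ c1 c2 b3 b4
  · rintro c (rfl | rfl) c1 c2
    · exact b5 _ c1 c2 a1 a2
    · exact b5 _ c1 c2 a3 a4

lemma same_a {V : Type} {R : V → Rect} {a b b' : V} {x0 : ℝ} (h : Wit R a b x0)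
    (h' : Wit R a b' x0) : b = b' := by
  obtain ⟨w1, w2, w3, w4⟩ := wit2 h h'
  have y2 := (R b).hy
  have y4 := (R b').hy
  by_contra hne
  have := w3 b' (Or.inr rfl) (by rintro rfl; linarith) (Ne.symm hne)
  have := w4 b (Or.inr rfl) (by rintro rfl; linarith) hne
  grind

lemma same_b {V : Type} {R : V → Rect} {a a' b : V} {x0 : ℝ} (h : Wit R a b x0)
    (h' : Wit R a' b x0) : a = a' := by
  obtain ⟨w1, w2, w3, w4⟩ := wit2 h h'
  have y2 := (R a).hy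
  have y4 := (R a').hy
  by_contra hne
  have := w3 a' (Or.inl rfl) (Ne.symm hne) (by rintro rfl; linarith)
  have := w4 a (Or.inl rfl) hne (by rintro rfl; linarith)
  grind

lemma ch_uniq {V : Type} {R : V → Rect} {a b a' b' : V} {z : V × Fin 3} (h : Ch R a b z)
    (h' : Ch R a' b' z) : a = a' ∧ b = b' := by
  rcases h with ⟨e1, e2, W⟩ | ⟨e1, e2, W⟩ | ⟨e1, e2, e3, W⟩ <;>
    rcases h' with ⟨f1, f2, W'⟩ | ⟨f1, f2, W'⟩ | ⟨f1, f2, f3, W'⟩ <;>
    try (rw [e1] at f1; exact absurd f1 (by decide))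
  · obtain rfl : a = a' := e2.symm.trans f2
    exact ⟨rfl, same_a W W'⟩
  · obtain rfl : b = b' := e2.symm.trans f2
    exact ⟨same_b W W', rfl⟩
  · obtain rfl : a = a' := by
      obtain ⟨w1, w2, w3, w4⟩ := wit2 W W'
      have y1 := (R a).hy
      have y2 := (R b).hy
      have y3 := (R a').hy
      have y4 := (R b').hy
      have y5 := (R z.1).hy
      by_contra hne
      have := w3 a' (Or.inl rfl) (Ne.symm hne) (by rintro rfl; linarith)
      have := w4 a (Or.inl rfl) hne (by rintro rfl; linarith)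
      grind
    exact ⟨rfl, same_a W W'⟩

open Classical in
lemma vs_card {V : Type} [Fintype V] {R : V → Rect} (hD : Disj R) :
    (univ.filter (fun p : V × V => p.1 ≠ p.2 ∧ VS R p.1 p.2)).card ≤ 3 * Fintype.card V := by
  have : ∀ p : V × V, ∃ z, p.1 ≠ p.2 ∧ VS R p.1 p.2 → Ch R p.1 p.2 z := by
    intro p
    by_cases h : p.1 ≠ p.2 ∧ VS R p.1 p.2
    · obtain ⟨z, hz⟩ := ch_ex hD h.1 h.2
      exact ⟨z, fun _ => hz⟩
    · exact ⟨(p.1, 0), fun h' => absurd h' h⟩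
  choose f hf using this
  have e : (univ : Finset (V × Fin 3)).card = 3 * Fintype.card V := by simp [mul_comm]
  rw [← e]
  apply card_le_card_of_injOn f (by simp)
  intro p hp q hq e
  simp only [coe_filter, mem_univ, true_and, Set.mem_ofPred_eq] at hp hq
  have := ch_uniq (hf p hp) (e ▸ hf q hq)
  exact Prod.ext this.1 this.2

def Rect.sw (R : Rect) : Rect := ⟨R.y1, R.y2, R.x1, R.x2, R.hy, R.hx⟩

lemma sw_disj {A B : Rect} (h : Disjoint A.set B.set) : Disjoint A.sw.set B.sw.set := by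
  rw [disj_iff] at *
  simp only [Rect.sw]
  tauto

open Classical in
theorem rvg_card {V : Type} [Fintype V] {G : SimpleGraph V} (h : IsRVG G) :
    (univ.filter (fun p : V × V => G.Adj p.1 p.2)).card ≤ 12 * Fintype.card V := by
  obtain ⟨R, hD, hR⟩ := h
  have hD' : Disj (fun v => (R v).sw) := fun u v h => sw_disj (hD u v h)
  have h1 := vs_card hD
  have h2 := vs_card hD'
  set A := univ.filter (fun p : V × V => p.1 ≠ p.2 ∧ VS R p.1 p.2) with hA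
  set B := univ.filter (fun p : V × V => p.1 ≠ p.2 ∧ VS (fun v => (R v).sw) p.1 p.2) with hB
  have key : ∀ a b (Q : Rect), Q.left ⊆ (R a).set → Q.right ⊆ (R b).set → Free R a b Q →
      VS (fun v => (R v).sw) a b := by
    intro a b Q q1 q2 q3
    refine ⟨Q.sw, fun p hp => ?_, fun p hp => ?_, fun c c1 c2 => sw_disj (q3 c c1 c2)⟩
    · have := mem_set.1 (q1 (a := p.swap) (by simpa [Rect.left, Rect.bot, Rect.sw, and_comm] using hp))
      rw [mem_set]; simp only [Rect.sw]; tauto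
    · have := mem_set.1 (q2 (a := p.swap) (by simpa [Rect.right, Rect.top, Rect.sw, and_comm] using hp))
      rw [mem_set]; simp only [Rect.sw]; tauto
  have : univ.filter (fun p : V × V => G.Adj p.1 p.2) ⊆
      (A ∪ A.image Prod.swap) ∪ (B ∪ B.image Prod.swap) := by
    rintro ⟨a, b⟩ hp
    simp only [mem_filter, mem_univ, true_and] at hp
    obtain ⟨Q, hQ, hF⟩ := (hR a b hp.ne).1 hp
    have hF' : Free R b a Q := fun c c1 c2 => hF c c2 c1
    simp only [mem_union]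
    rcases hQ with q | q | q | q
    · exact Or.inl (Or.inl (by simp only [hA, mem_filter, mem_univ, true_and]
                               exact ⟨hp.ne, Q, q.1, q.2, hF⟩))
    · refine Or.inl (Or.inr (mem_image.2 ⟨(b, a), ?_, rfl⟩))
      simp only [hA, mem_filter, mem_univ, true_and]
      exact ⟨hp.ne.symm, Q, q.2, q.1, hF'⟩
    · exact Or.inr (Or.inl (by simp only [hB, mem_filter, mem_univ, true_and]
                               exact ⟨hp.ne, key _ _ Q q.1 q.2 hF⟩))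
    · refine Or.inr (Or.inr (mem_image.2 ⟨(b, a), ?_, rfl⟩))
      simp only [hB, mem_filter, mem_univ, true_and]
      exact ⟨hp.ne.symm, key _ _ Q q.2 q.1 hF'⟩
  have c1 := card_le_card this
  have c2 := card_union_le (A ∪ A.image Prod.swap) (B ∪ B.image Prod.swap)
  have c3 := card_union_le A (A.image Prod.swap)
  have c4 := card_union_le B (B.image Prod.swap)
  have c5 := card_image_le (s := A) (f := Prod.swap)
  have c6 := card_image_le (s := B) (f := Prod.swap)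
  omega

end Pool.Agent.H29.RV
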