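import Mathlib

set_option autoImplicit false

namespace Pool.Agent.H29.RankInt

/-- an interval order on `P` -/
def IsIntervalOrder {P : Type} (r : P → P → Prop) : Prop :=
  IsPartialOrder P r ∧
    ¬ ∃ a b c d : P, (r a c ∧ a ≠ c) ∧ (r b d ∧ b ≠ d) ∧ ¬ r b c ∧ ¬ r a d

/-- length of a longest chain with largest element `p` -/
noncomputable def rank {P : Type} (r : P → P → Prop) (p : P) : ℕ :=
  sSup {n | ∃ C : Finset P, IsChain r (C : Set P) ∧ p ∈ C ∧ (∀ x ∈ C, r x p) ∧ n + 1 = C.card}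

/-- rank-preserving interval realizer with `k` interval orders -/
def HasRankRealizer (P : Type) [PartialOrder P] (k : ℕ) : Prop :=
  ∃ r : Fin k → P → P → Prop, (∀ j, IsIntervalOrder (r j)) ∧ (∀ x y, x ≤ y ↔ ∀ j, r j x y) ∧
    ∀ j p, rank (r j) p = rank (· ≤ ·) p

/-- strict relations of the example -/
def R (a b : Fin 5) : Bool :=
  decide ((a, b) ∈ [((0 : Fin 5), (1 : Fin 5)), (0, 2), (1, 2), (3, 4)])

/-- the example -/
def Ex : Type := Fin 5

instance : Fintype Ex := inferInstanceAs (Fintype (Fin 5))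

instance : PartialOrder Ex where
  le x y := x = y ∨ R x y = true
  le_refl := fun _ => Or.inl rfl
  le_trans := by
    change ∀ a b c : Fin 5, (a = b ∨ R a b = true) → (b = c ∨ R b c = true) → (a = c ∨ R a c = true)
    decide +kernel
  le_antisymm := by
    change ∀ a b : Fin 5, (a = b ∨ R a b = true) → (b = a ∨ R b a = true) → a = b
    decide +kernel

theorem rank_e : rank (P := Ex) (· ≤ ·) (4 : Fin 5) ≤ 1 := by
  have key : ∀ C : Finset (Fin 5), (∀ x ∈ C, x = 4 ∨ R x 4 = true) → C.card ≤ 2 := by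
    decide +kernel
  refine csSup_le' ?_
  rintro n ⟨C, _, _, h3, h4⟩
  have := key C h3
  have h5 : C.card ≤ 2 := this
  omega

theorem main (k : ℕ) : ¬ HasRankRealizer Ex k := by
  rintro ⟨r, h1, h2, h3⟩
  have : ∀ j, r j (3 : Fin 5) (2 : Fin 5) := by
    intro j
    by_contra hc
    have hj := (h1 j).1
    have e1 : r j (0 : Fin 5) (1 : Fin 5) := (h2 _ _).1 (Or.inr rfl) j
    have e2 : r j (1 : Fin 5) (2 : Fin 5) := (h2 _ _).1 (Or.inr rfl) j
    have e3 : r j (3 : Fin 5) (4 : Fin 5) := (h2 _ _).1 (Or.inr rfl) j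
    have e4 : r j (1 : Fin 5) (4 : Fin 5) := by
      by_contra hd
      exact (h1 j).2 ⟨(1 : Fin 5), (3 : Fin 5), (2 : Fin 5), (4 : Fin 5),
        ⟨e2, (by decide : (1 : Fin 5) ≠ 2)⟩, ⟨e3, (by decide : (3 : Fin 5) ≠ 4)⟩, hc, hd⟩
    have e5 : r j (0 : Fin 5) (4 : Fin 5) := hj.trans _ _ _ e1 e4
    have e6 : 2 ≤ rank (r j) (4 : Fin 5) := by
      refine le_csSup ⟨Fintype.card Ex, ?_⟩ ⟨({0, 1, 4} : Finset (Fin 5)), ?_, ?_, ?_, rfl⟩
      · rintro n ⟨C, _, _, _, h⟩
        have := Finset.card_le_univ C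
        omega
      · have hh : ∀ a ∈ ({0, 1, 4} : Finset (Fin 5)), a = 0 ∨ a = 1 ∨ a = 4 := by decide
        intro a ha b hb hab
        rcases hh a ha with rfl | rfl | rfl <;> rcases hh b hb with rfl | rfl | rfl <;>
          first | exact absurd rfl hab | exact Or.inl ‹_› | exact Or.inr ‹_›
      · exact (by decide : (4 : Fin 5) ∈ ({0, 1, 4} : Finset (Fin 5)))
      · have hh : ∀ a ∈ ({0, 1, 4} : Finset (Fin 5)), a = 0 ∨ a = 1 ∨ a = 4 := by decide
        intro a ha
        rcases hh a ha with rfl | rfl | rfl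
        · exact e5
        · exact e4
        · exact hj.refl _
    have := h3 j (4 : Fin 5)
    have := rank_e
    omega
  exact absurd ((h2 _ _).2 this) (by decide : ¬ ((3 : Fin 5) = 2 ∨ R 3 2 = true))

end Pool.Agent.H29.RankInt
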