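import Mathlib

/-! A symmetric three-progression basis: `7s+3` integers whose signed two-term sums cover
`[-28 s^2, 28 s^2]`. -/

namespace Pool.Agent.H29.SB1
open Finset

def B (s : ℕ) : Finset ℕ :=
  ((range (2 * s + 1)).image (fun i => 6 * s * s + i) ∪ (range (3 * s + 1)).image (fun j => 2 * s * j))
    ∪ (range (2 * s + 1)).image (fun k => 18 * s * s + 2 * s + (2 * s + 1) * k)

lemma card_B (s : ℕ) : (B s).card ≤ 7 * s + 3 := by
  refine (card_union_le _ _).trans ((Nat.add_le_add ((card_union_le _ _).trans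
    (Nat.add_le_add card_image_le card_image_le)) card_image_le).trans ?_)
  simp only [card_range]; omega

lemma mP (s i : ℕ) (h : i ≤ 2 * s) : 6 * s * s + i ∈ B s :=
  mem_union_left _ (mem_union_left _ (mem_image.2 ⟨i, mem_range.2 (by omega), rfl⟩))

lemma mQ (s j : ℕ) (h : j ≤ 3 * s) : 2 * s * j ∈ B s :=
  mem_union_left _ (mem_union_right _ (mem_image.2 ⟨j, mem_range.2 (by omega), rfl⟩))

lemma mR (s k : ℕ) (h : k ≤ 2 * s) : 18 * s * s + 2 * s + (2 * s + 1) * k ∈ B s :=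
  mem_union_right _ (mem_image.2 ⟨k, mem_range.2 (by omega), rfl⟩)

lemma zero_B (s : ℕ) : 0 ∈ B s := by simpa using mQ s 0 (by omega)

lemma cover (s : ℕ) (hs : 1 ≤ s) (x : ℕ) (hx : x ≤ 28 * s * s) :
    ∃ a ∈ B s, ∃ b ∈ B s, x = a + b ∨ x + b = a := by
  have dm : ∀ y t : ℕ, 0 < t → ∃ q r, r < t ∧ y = t * q + r := fun y t ht =>
    ⟨y / t, y % t, Nat.mod_lt _ ht, (Nat.div_add_mod y t).symm⟩
  by_cases h1 : x < 12 * s * s
  · obtain ⟨q, r, hr, e⟩ := dm x (2 * s) (by omega)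
    have hq : q < 6 * s := by
      by_contra h
      have := Nat.mul_le_mul_left (2 * s) (not_lt.1 h)
      nlinarith
    rcases le_total q (3 * s) with h | h
    · obtain ⟨j, hj⟩ := Nat.exists_eq_add_of_le h
      exact ⟨_, mP s r (by omega), _, mQ s j (by omega), Or.inr (by nlinarith)⟩
    · obtain ⟨j, hj⟩ := Nat.exists_eq_add_of_le h
      exact ⟨_, mP s r (by omega), _, mQ s j (by omega), Or.inl (by nlinarith)⟩
  by_cases h2 : x < 16 * s * s
  · obtain ⟨y, hy⟩ := Nat.exists_eq_add_of_le (not_lt.1 h1)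
    obtain ⟨q, r, hr, e⟩ := dm y (2 * s + 1) (by omega)
    have hq : q < 2 * s := by
      by_contra h
      have := Nat.mul_le_mul_left (2 * s + 1) (not_lt.1 h)
      nlinarith
    obtain ⟨i, hi⟩ := Nat.exists_eq_add_of_le (show r ≤ 2 * s by omega)
    exact ⟨_, mR s q (by omega), _, mP s i (by omega), Or.inr (by nlinarith)⟩
  by_cases h3 : x < 24 * s * s + 2 * s
  · obtain ⟨y, hy⟩ := Nat.exists_eq_add_of_le (not_lt.1 h2)
    obtain ⟨q, r, hr, e⟩ := dm y (2 * s) (by omega)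
    have hq : q ≤ 4 * s := by
      by_contra h
      have := Nat.mul_le_mul_left (2 * s) (show 4 * s + 1 ≤ q by omega)
      nlinarith
    rcases le_total q (s + 1 + r) with h | h
    · obtain ⟨j, hj⟩ := Nat.exists_eq_add_of_le h
      exact ⟨_, mR s r (by omega), _, mQ s j (by omega), Or.inr (by nlinarith)⟩
    · obtain ⟨j, hj⟩ := Nat.exists_eq_add_of_le h
      exact ⟨_, mR s r (by omega), _, mQ s j (by omega), Or.inl (by nlinarith)⟩
  · obtain ⟨y, hy⟩ := Nat.exists_eq_add_of_le (not_lt.1 h3)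
    obtain ⟨q, r, hr, e⟩ := dm y (2 * s + 1) (by omega)
    have hq : q < 2 * s := by
      by_contra h
      have := Nat.mul_le_mul_left (2 * s + 1) (not_lt.1 h)
      nlinarith
    exact ⟨_, mR s q (by omega), _, mP s r (by omega), Or.inl (by nlinarith)⟩

lemma exact_span (n : ℕ) [NeZero n] : ∃ A : Finset (ZMod n),
    (A.card : ℝ) ≤ Real.sqrt (7 / 8 * n) + 10 ∧
    ∀ g : ZMod n, ∃ l : ZMod n → ℤ, ∑ a ∈ A, |l a| = 2 ∧ g = ∑ a ∈ A, l a • a := by
  classical
  obtain ⟨s, hs, h1, h2⟩ : ∃ s : ℕ, 1 ≤ s ∧ n ≤ 56 * s * s ∧ (s : ℝ) ≤ Real.sqrt (n / 56) + 1 := by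
    have p : (0 : ℝ) < n := by exact_mod_cast Nat.pos_of_ne_zero (NeZero.ne n)
    have q : 0 < Real.sqrt (n / 56) := Real.sqrt_pos.2 (by positivity)
    refine ⟨⌈Real.sqrt (n / 56)⌉₊, Nat.ceil_pos.2 q, ?_, (Nat.ceil_lt_add_one q.le).le⟩
    have a := Nat.le_ceil (Real.sqrt (n / 56))
    have b := Real.sq_sqrt (show (0 : ℝ) ≤ n / 56 by positivity)
    have : (n : ℝ) ≤ 56 * ⌈Real.sqrt (n / 56)⌉₊ * ⌈Real.sqrt (n / 56)⌉₊ := by nlinarith
    exact_mod_cast this
  set A := (B s).image (fun a : ℕ => (a : ZMod n)) with hA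
  refine ⟨A, ?_, ?_⟩
  · have a : (A.card : ℝ) ≤ 7 * s + 3 := by exact_mod_cast card_image_le.trans (card_B s)
    have b : Real.sqrt (7 / 8 * n) = 7 * Real.sqrt (n / 56) := by
      rw [show (7 / 8 * n : ℝ) = 7 ^ 2 * (n / 56) by ring, Real.sqrt_mul (by norm_num),
        Real.sqrt_sq (by norm_num)]
    linarith
  have two : ∀ a ∈ A, ∀ b ∈ A, ∀ e f : ℤ, |e| = 1 → |f| = 1 → (a = b → e = f) →
      ∃ l : ZMod n → ℤ, ∑ c ∈ A, |l c| = 2 ∧ e • a + f • b = ∑ c ∈ A, l c • c := by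
    intro a ha b hb e f he hf h
    refine ⟨fun c => (if c = a then e else 0) + (if c = b then f else 0), ?_, ?_⟩
    · have : ∀ c ∈ A, |(if c = a then e else 0) + (if c = b then f else 0)|
          = (if c = a then 1 else 0) + (if c = b then 1 else 0) := by
        intro c _
        by_cases h1 : c = a <;> by_cases h2 : c = b
        · rw [if_pos h1, if_pos h2, if_pos h1, if_pos h2, ← h (h1.symm.trans h2), ← two_mul, abs_mul, he]
          norm_num
        · simp [h1, he, (h1 ▸ h2 : ¬ a = b)]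
        · simp [h2, hf, (h2 ▸ h1 : ¬ b = a)]
        · simp [h1, h2]
      rw [sum_congr rfl this, sum_add_distrib]
      simp [ha, hb]
    · simp [add_smul, sum_add_distrib, ite_smul, ha, hb]
  have mem : ∀ a ∈ B s, (a : ZMod n) ∈ A := fun a ha => mem_image_of_mem _ ha
  have key : ∀ x : ℕ, x ≤ 28 * s * s → ∀ e : ℤ, |e| = 1 →
      ∃ l : ZMod n → ℤ, ∑ c ∈ A, |l c| = 2 ∧ e • (x : ZMod n) = ∑ c ∈ A, l c • c := by
    intro x hx e he
    obtain ⟨a, ha, b, hb, h | h⟩ := cover s hs x hx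
    · obtain ⟨l, h1, h2⟩ := two _ (mem a ha) _ (mem b hb) e e he he (fun _ => rfl)
      exact ⟨l, h1, by rw [← h2, h]; push_cast; rw [smul_add]⟩
    · have h' : (x : ZMod n) = a - b := by rw [← h]; push_cast; ring
      by_cases hab : (a : ZMod n) = b
      · obtain ⟨l, h1, h2⟩ := two _ (mem 0 (zero_B s)) _ (mem 0 (zero_B s)) e e he he (fun _ => rfl)
        exact ⟨l, h1, by rw [← h2, h', hab]; simp⟩
      · obtain ⟨l, h1, h2⟩ := two _ (mem a ha) _ (mem b hb) e (-e) he (by simpa using he)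
          (fun h => (hab h).elim)
        exact ⟨l, h1, by rw [← h2, h', smul_sub, neg_smul, sub_eq_add_neg]⟩
  intro g
  by_cases h : g.val ≤ 28 * s * s
  · simpa using key g.val h 1 (by simp)
  · have e : 56 * s * s = 28 * s * s + 28 * s * s := by ring
    have := key (n - g.val) (by omega) (-1) (by simp)
    rw [Nat.cast_sub (ZMod.val_lt g).le] at this
    simpa using this

lemma eventually_le : ∃ N : ℕ, ∀ n ≥ N, Real.sqrt (7 / 8 * n) + 10 ≤ 47 / 50 * Real.sqrt n := by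
  refine ⟨10 ^ 8, fun n hn => ?_⟩
  have a : Real.sqrt (7 / 8 * n) ≤ 936 / 1000 * Real.sqrt n := by
    rw [Real.sqrt_mul (by norm_num)]
    refine mul_le_mul_of_nonneg_right ?_ (Real.sqrt_nonneg _)
    exact Real.sqrt_le_iff.2 ⟨by norm_num, by norm_num⟩
  have b : (10 : ℝ) ^ 4 ≤ Real.sqrt n := by
    apply Real.le_sqrt_of_sq_le
    have : ((10 ^ 8 : ℕ) : ℝ) ≤ n := by exact_mod_cast hn
    push_cast at this
    linarith
  linarith

end Pool.Agent.H29.SB1
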