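import Mathlib

set_option autoImplicit false

namespace Pool.Agent.H29.Slice

/-- slice rank decomposition; only `a j i`, `b j i` with `i < r j` are used -/
def IsDec {F : Type} [Field F] {d : ℕ} {n : Fin d → ℕ} (T : (∀ j, Fin (n j)) → F) (r : Fin d → ℕ)
    (a : ∀ j, ℕ → Fin (n j) → F)
    (b : ∀ j, ℕ → (∀ j' : {j' : Fin d // j' ≠ j}, Fin (n j'.1)) → F) : Prop :=
  ∀ x, T x = ∑ j, ∑ i ∈ Finset.range (r j), a j i (x j) * b j i (fun j' => x j'.1)

/-- slice rank -/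
noncomputable def sliceRank {F : Type} [Field F] {d : ℕ} {n : Fin d → ℕ}
    (T : (∀ j, Fin (n j)) → F) : ℕ :=
  sInf {l | ∃ r a b, IsDec T r a b ∧ l = ∑ j, r j}

end Pool.Agent.H29.Slice
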