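import Mathlib
import Pool.Agent.H29.SliceDefs

set_option autoImplicit false

namespace Pool.Agent.H29.Slice

open Module

section Basic
variable {F : Type} [Field F] {d : ℕ} {n : Fin d → ℕ}

/-- the multilinear form -/
def Phi (T : (∀ j, Fin (n j)) → F) (w : ∀ j, Fin (n j) → F) : F := ∑ x, T x * ∏ j, w j (x j)

/-- one slot -/
def slot (T : (∀ j, Fin (n j)) → F) (j : Fin d)
    (w : ∀ j' : {j' : Fin d // j' ≠ j}, Fin (n j'.1) → F) : (Fin (n j) → F) →ₗ[F] F where
  toFun v := ∑ x, T x * (v (x j) * ∏ j', w j' (x j'.1))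
  map_add' u v := by simp [add_mul, mul_add, Finset.sum_add_distrib]
  map_smul' c v := by simp [Finset.mul_sum, mul_assoc, mul_left_comm]

theorem Phi_slot (T : (∀ j, Fin (n j)) → F) (w : ∀ j, Fin (n j) → F) (j : Fin d) :
    Phi T w = slot T j (fun j' => w j'.1) (w j) :=
  Finset.sum_congr rfl fun x _ => by
    rw [Fintype.prod_eq_mul_prod_subtype_ne (fun j => w j (x j)) j]

theorem Phi_upd (T : (∀ j, Fin (n j)) → F) (w : ∀ j, Fin (n j) → F) (j : Fin d)
    (v : Fin (n j) → F) : Phi T (Function.update w j v) = slot T j (fun j' => w j'.1) v := by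
  rw [Phi_slot T _ j, Function.update_self]
  congr 2
  funext j'
  exact Function.update_of_ne j'.2 _ _

theorem vanish {T : (∀ j, Fin (n j)) → F} {r a b} (h : IsDec T r a b) (w : ∀ j, Fin (n j) → F)
    (hw : ∀ j i, i < r j → a j i ⬝ᵥ w j = 0) : Phi T w = 0 := by
  unfold Phi
  simp only [h _, Finset.sum_mul]
  rw [Finset.sum_comm]
  refine Finset.sum_eq_zero fun j _ => ?_
  rw [Finset.sum_comm]
  refine Finset.sum_eq_zero fun i hi => ?_
  have h1 := hw j i (Finset.mem_range.mp hi)
  rw [← (Equiv.piSplitAt j fun j => Fin (n j)).symm.sum_comp, Fintype.sum_prod_type,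
    Finset.sum_comm]
  refine Finset.sum_eq_zero fun z _ => ?_
  have h2 : ∀ y : Fin (n j), (fun j' : {j' : Fin d // j' ≠ j} =>
      (Equiv.piSplitAt j fun j => Fin (n j)).symm (y, z) j'.1) = z := fun y =>
    congrArg Prod.snd ((Equiv.piSplitAt j fun j => Fin (n j)).apply_symm_apply (y, z))
  have h3 : ∀ y : Fin (n j), (Equiv.piSplitAt j fun j => Fin (n j)).symm (y, z) j = y := fun y =>
    congrArg Prod.fst ((Equiv.piSplitAt j fun j => Fin (n j)).apply_symm_apply (y, z))
  calc _ = ∑ y, (a j i y * w j y) * (b j i z * ∏ j' : {j' : Fin d // j' ≠ j}, w j'.1 (z j')) := by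
        refine Finset.sum_congr rfl fun y _ => ?_
        rw [Fintype.prod_eq_mul_prod_subtype_ne _ j, h2, h3]
        have h4 : ∀ j' : {j' : Fin d // j' ≠ j},
          (Equiv.piSplitAt j fun j => Fin (n j)).symm (y, z) j'.1 = z j' := congrFun (h2 y)
        simp only [h4]
        ring
    _ = 0 := by rw [← Finset.sum_mul]; exact mul_eq_zero_of_left h1 _

theorem geninv {m : ℕ} (r : ℕ) (a : ℕ → Fin m → F) : ∃ c : ℕ → Fin m → F, ∀ v t, t < r →
    a t ⬝ᵥ (v - ∑ s ∈ Finset.range r, (a s ⬝ᵥ v) • c s) = 0 := by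
  let L : (Fin m → F) →ₗ[F] (Fin r → F) :=
    { toFun := fun v s => a s ⬝ᵥ v
      map_add' := fun u v => by ext; simp
      map_smul' := fun c v => by ext; simp }
  obtain ⟨g, hg⟩ := L.rangeRestrict.exists_rightInverse_of_surjective L.range_rangeRestrict
  obtain ⟨G, hG⟩ := g.exists_extend
  refine ⟨fun s => if h : s < r then G (Pi.single ⟨s, h⟩ 1) else 0, fun v t ht => ?_⟩
  have h1 : ∑ s ∈ Finset.range r, (a s ⬝ᵥ v) •
      (if h : s < r then G (Pi.single ⟨s, h⟩ 1) else 0) = G (L v) := by
    rw [Finset.sum_range, pi_eq_sum_univ' (L v), map_sum]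
    refine Finset.sum_congr rfl fun s _ => ?_
    rw [dif_pos s.2, map_smul]
    rfl
  have h2 : L (G (L v)) = L v := by
    have h3 : G (L v) = g ⟨L v, v, rfl⟩ := LinearMap.congr_fun hG ⟨L v, v, rfl⟩
    rw [h3]
    exact congrArg Subtype.val (LinearMap.congr_fun hg ⟨L v, v, rfl⟩)
  rw [h1, dotProduct_sub, sub_eq_zero]
  exact (congrFun h2 ⟨t, ht⟩).symm

theorem dec_of_vanish (T : (∀ j, Fin (n j)) → F) (r : Fin d → ℕ) (a : ∀ j, ℕ → Fin (n j) → F)
    (h : ∀ w : ∀ j, Fin (n j) → F, (∀ j i, i < r j → a j i ⬝ᵥ w j = 0) → Phi T w = 0) :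
    ∃ b, IsDec T r a b := by
  choose c hc using fun j => geninv (r j) (a j)
  let p : ∀ j, Fin (n j) → Fin (n j) → F := fun j y =>
    Pi.single y 1 - ∑ s ∈ Finset.range (r j), a j s y • c j s
  have hp : ∀ j y i, i < r j → a j i ⬝ᵥ p j y = 0 := fun j y i hi => by
    have := hc j (Pi.single y 1) i hi
    simp only [dotProduct_single, mul_one] at this
    exact this
  have key : ∀ J : Finset (Fin d),
      ∃ b : ∀ j, ℕ → (∀ j' : {j' : Fin d // j' ≠ j}, Fin (n j'.1)) → F, ∀ x,
      T x = Phi T (fun j => if j ∈ J then p j (x j) else Pi.single (x j) 1) +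
        ∑ j ∈ J, ∑ i ∈ Finset.range (r j), a j i (x j) * b j i (fun j' => x j'.1) := by
    intro J
    induction J using Finset.induction_on with
    | empty =>
      refine ⟨fun _ _ _ => 0, fun x => ?_⟩
      simp only [Finset.notMem_empty, if_false, Finset.sum_empty, add_zero, Phi]
      rw [Finset.sum_eq_single x]
      · simp
      · intro z _ hz
        obtain ⟨j, hj⟩ := Function.ne_iff.mp hz
        rw [Finset.prod_eq_zero (Finset.mem_univ j) (Pi.single_eq_of_ne hj _), mul_zero]
      · simp
    | insert j J hj ih =>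
      obtain ⟨b, hb⟩ := ih
      refine ⟨Function.update b j fun s z => slot T j
        (fun j' => if j'.1 ∈ J then p j'.1 (z j') else Pi.single (z j') 1) (c j s), fun x => ?_⟩
      have e1 : ∑ l ∈ J, ∑ i ∈ Finset.range (r l), a l i (x l) * Function.update b j
          (fun s z => slot T j
        (fun j' => if j'.1 ∈ J then p j'.1 (z j') else Pi.single (z j') 1) (c j s)) l i
          (fun j' => x j'.1) =
          ∑ l ∈ J, ∑ i ∈ Finset.range (r l), a l i (x l) * b l i (fun j' => x j'.1) :=
        Finset.sum_congr rfl fun l hl => by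
          rw [Function.update_of_ne (fun h => hj (by rw [← h]; exact hl))]
      have e2 : (fun j' : {j' : Fin d // j' ≠ j} =>
          if j'.1 ∈ insert j J then p j'.1 (x j'.1) else Pi.single (x j'.1) 1) =
          fun j' : {j' : Fin d // j' ≠ j} =>
            if j'.1 ∈ J then p j'.1 (x j'.1) else Pi.single (x j'.1) 1 := by
        funext j'
        simp [j'.2]
      rw [Finset.sum_insert hj, e1, Function.update_self, Phi_slot T _ j, e2,
        if_pos (Finset.mem_insert_self _ _), hb x, Phi_slot T _ j, if_neg hj]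
      simp only [p, map_sub, map_sum, map_smul, smul_eq_mul]
      ring
  obtain ⟨b, hb⟩ := key Finset.univ
  refine ⟨b, fun x => ?_⟩
  rw [hb x, h _ (fun j i hi => by simpa using hp j (x j) i hi), zero_add]

theorem nonvanish {T : (∀ j, Fin (n j)) → F} {r a b} (h : IsDec T r a b)
    (hmin : ∑ j, r j = sliceRank T) (j : Fin d) (u : Fin (n j) → F) (s : ℕ) (hs : s < r j)
    (hu : a j s ⬝ᵥ u ≠ 0) : ∃ w : ∀ j, Fin (n j) → F, Phi T w ≠ 0 ∧ w j = u ∧
      ∀ l, l ≠ j → ∀ i, i < r l → a l i ⬝ᵥ w l = 0 := by
  by_contra hc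
  push Not at hc
  let sw : ℕ → ℕ := fun i => if i = s then r j - 1 else i
  obtain ⟨b', hb'⟩ := dec_of_vanish T (Function.update r j (r j - 1))
    (Function.update a j fun i => a j (sw i) - ((a j (sw i) ⬝ᵥ u) / (a j s ⬝ᵥ u)) • a j s) (by
      intro w hw
      have h1 : ∀ l, l ≠ j → ∀ i, i < r l → a l i ⬝ᵥ w l = 0 := fun l hl i hi => by
        have := hw l i (by rwa [Function.update_of_ne hl])
        rwa [Function.update_of_ne hl] at this
      have h2 : Phi T (Function.update w j u) = 0 := by
        by_contra h3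
        obtain ⟨l, hl, i, hi, h4⟩ := hc _ h3 (Function.update_self _ _ _)
        rw [Function.update_of_ne hl] at h4
        exact h4 (h1 l hl i hi)
      have h3 : Phi T (Function.update w j (w j - ((a j s ⬝ᵥ w j) / (a j s ⬝ᵥ u)) • u)) = 0 := by
        refine vanish h _ fun l i hi => ?_
        by_cases hl : l = j
        · subst hl
          rw [Function.update_self, dotProduct_sub, dotProduct_smul, smul_eq_mul]
          by_cases his : i = s
          · rw [his]; field_simp; ring
          · have h5 := hw l (if i = r l - 1 then s else i) (by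
              rw [Function.update_self]; split_ifs <;> omega)
            have h6 : sw (if i = r l - 1 then s else i) = i := by
              simp only [sw]; split_ifs <;> omega
            rw [Function.update_self, h6, sub_dotProduct, smul_dotProduct, smul_eq_mul] at h5
            rw [← h5]
            field_simp
        · rw [Function.update_of_ne hl]
          exact h1 l hl i hi
      rw [Phi_upd] at h2 h3
      rw [map_sub, map_smul, h2, smul_zero, sub_zero] at h3
      rw [Phi_slot T w j, h3])
  have h1 : sliceRank T ≤ ∑ l, Function.update r j (r j - 1) l := Nat.sInf_le ⟨_, _, b', hb', rfl⟩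
  rw [Finset.sum_update_of_mem (Finset.mem_univ j)] at h1
  rw [← Finset.add_sum_erase _ _ (Finset.mem_univ j), Finset.erase_eq] at hmin
  omega

end Basic

theorem generic {K V ι : Type} [Field K] [Infinite K] [AddCommGroup V] [Module K V]
    [Module.Finite K V] [Finite ι] (c : ℕ) : ∀ Z : ι → Submodule K V,
    (∀ i, finrank K V ≤ finrank K (Z i) + c) →
      ∃ y : Fin c → V, ∀ i, Submodule.span K (Set.range y) ⊔ Z i = ⊤ := by
  induction c with
  | zero =>
    intro Z h
    refine ⟨Fin.elim0, fun i => ?_⟩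
    rw [Submodule.eq_top_of_finrank_eq (le_antisymm (Submodule.finrank_le _) (h i)), sup_top_eq]
  | succ c ih =>
    intro Z h
    obtain ⟨v, hv⟩ := Submodule.exists_forall_notMem_of_forall_ne_top
      (fun i : {i // Z i ≠ ⊤} => Z i.1) (fun i => i.2)
    obtain ⟨y, hy⟩ := ih (fun i => Z i ⊔ Submodule.span K {v}) (fun i => by
      by_cases hi : Z i = ⊤
      · rw [hi, top_sup_eq, finrank_top]
        omega
      · have := h i
        rw [Submodule.finrank_sup_span_singleton (p := Z i) (hv ⟨i, hi⟩)]
        omega)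
    refine ⟨Fin.cons v y, fun i => ?_⟩
    rw [Fin.range_cons, Submodule.span_insert, ← hy i]
    ac_rfl

theorem bound {K : Type} [Field K] [Infinite K] {d : ℕ} {n : Fin d → ℕ}
    (T : (∀ j, Fin (n j)) → K) (k N : ℕ) (r : Fin N → Fin d → ℕ) (hr : ∀ i j, r i j ≤ k)
    (a : Fin N → ∀ j, ℕ → Fin (n j) → K) (h : ∀ i, ∃ b, IsDec T (r i) (a i) b) (j : Fin d)
    (u : Fin N → Fin (n j) → K) (hu : ∀ i i', i' < i → ∀ s, s < r i' j → a i' j s ⬝ᵥ u i = 0)
    (w : Fin N → ∀ j, Fin (n j) → K) (hw : ∀ i, Phi T (w i) ≠ 0 ∧ w i j = u i ∧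
      ∀ l, l ≠ j → ∀ s, s < r i l → a i l s ⬝ᵥ w i l = 0) : N ≤ (k + 1) ^ d := by
  have key : ∀ J : Finset (Fin d), ∃ (y : ∀ l, Fin (k + 1) → Fin (n l) → K)
      (w : Fin N → ∀ j, Fin (n j) → K), ∀ i, (Phi T (w i) ≠ 0 ∧ w i j = u i ∧
      ∀ l, l ≠ j → ∀ s, s < r i l → a i l s ⬝ᵥ w i l = 0) ∧
      ∀ l ∈ J, l ≠ j → w i l ∈ Submodule.span K (Set.range (y l)) := by
    intro J
    induction J using Finset.induction_on with
    | empty => exact ⟨fun _ _ => 0, w, fun i => ⟨hw i, by simp⟩⟩
    | insert m J hm ih =>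
      obtain ⟨y, w, hw⟩ := ih
      by_cases hmj : m = j
      · refine ⟨y, w, fun i => ⟨(hw i).1, fun l hl hlj => (hw i).2 l ?_ hlj⟩⟩
        exact (Finset.mem_insert.mp hl).resolve_left (hmj ▸ hlj)
      let L : Fin N → (Fin (n m) → K) →ₗ[K] (Fin (k + 1) → K) := fun i =>
        { toFun := fun v => Fin.cons (slot T m (fun j' => w i j'.1) v) fun s => a i m s ⬝ᵥ v
          map_add' := fun u v => by
            ext s; refine Fin.cases ?_ (fun s => ?_) s <;> simp
          map_smul' := fun c v => by
            ext s; refine Fin.cases ?_ (fun s => ?_) s <;> simp }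
      obtain ⟨z, hz⟩ := generic (k + 1) (fun i => LinearMap.ker (L i)) (fun i => by
        have h1 := (L i).finrank_range_add_finrank_ker
        have h2 := Submodule.finrank_le (LinearMap.range (L i))
        rw [finrank_fin_fun] at h2
        omega)
      have : ∀ i, ∃ v ∈ Submodule.span K (Set.range z), L i v = L i (w i m) := by
        intro i
        obtain ⟨v, hv, v', hv', e⟩ := Submodule.mem_sup.mp
          (show w i m ∈ Submodule.span K (Set.range z) ⊔ LinearMap.ker (L i) by rw [hz i]; trivial)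
        exact ⟨v, hv, by rw [← e, map_add, LinearMap.mem_ker.mp hv', add_zero]⟩
      choose v hv1 hv2 using this
      refine ⟨Function.update y m z, fun i => Function.update (w i) m (v i),
        fun i => ⟨⟨?_, ?_, fun l hl s hs => ?_⟩, fun l hl hlj => ?_⟩⟩ <;> beta_reduce
      · have h1 : slot T m (fun j' => w i j'.1) (v i) = slot T m (fun j' => w i j'.1) (w i m) :=
          congrFun (hv2 i) 0
        rw [Phi_upd, h1, ← Phi_slot]
        exact (hw i).1.1
      · rw [Function.update_of_ne (Ne.symm hmj)]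
        exact (hw i).1.2.1
      · by_cases hlm : l = m
        · subst hlm
          have h1 : a i l s ⬝ᵥ v i = a i l s ⬝ᵥ w i l :=
            congrFun (hv2 i) (Fin.succ ⟨s, lt_of_lt_of_le hs (hr i l)⟩)
          rw [Function.update_self, h1]
          exact (hw i).1.2.2 l hl s hs
        · rw [Function.update_of_ne hlm]
          exact (hw i).1.2.2 l hl s hs
      · by_cases hlm : l = m
        · subst hlm
          rw [Function.update_self, Function.update_self]
          exact hv1 i
        · rw [Function.update_of_ne hlm, Function.update_of_ne hlm]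
          exact (hw i).2 l ((Finset.mem_insert.mp hl).resolve_left hlm) hlj
  obtain ⟨y, w, hw⟩ := key Finset.univ
  have : ∀ i l, ∃ α : Fin (k + 1) → K, ∀ i', Function.update (w i) j (u i') l =
      ∑ s, α s • Function.update y j (fun _ => u i') l s := by
    intro i l
    by_cases hl : l = j
    · subst hl
      exact ⟨Pi.single 0 1, fun i' => by simp [Pi.single_apply]⟩
    · obtain ⟨α, hα⟩ := (Submodule.mem_span_range_iff_exists_fun K).mp
        ((hw i).2 l (Finset.mem_univ l) hl)
      exact ⟨α, fun i' => by rw [Function.update_of_ne hl, Function.update_of_ne hl, hα]⟩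
  choose α hα using this
  let A : Matrix (Fin N) (Fin d → Fin (k + 1)) K := fun i σ => ∏ l, α i l (σ l)
  let B : Matrix (Fin d → Fin (k + 1)) (Fin N) K := fun σ i' =>
    Phi T fun l => Function.update y j (fun _ => u i') l (σ l)
  have hAB : ∀ i i', (A * B) i i' = Phi T (Function.update (w i) j (u i')) := by
    intro i i'
    simp only [Matrix.mul_apply, A, B, Phi, hα i _ i', Finset.sum_apply, Pi.smul_apply,
      smul_eq_mul, Finset.prod_univ_sum, Fintype.piFinset_univ, Finset.mul_sum,
      Finset.prod_mul_distrib]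
    rw [Finset.sum_comm]
    exact Finset.sum_congr rfl fun _ _ => Finset.sum_congr rfl fun _ _ => by ring
  have hdet : (A * B).det ≠ 0 := by
    rw [Matrix.det_of_lowerTriangular (A * B) (fun i i' hi => by
      rw [hAB]
      refine vanish (h i).choose_spec _ fun l s hs => ?_
      by_cases hl : l = j
      · subst hl
        rw [Function.update_self]
        exact hu i' i hi s hs
      · rw [Function.update_of_ne hl]
        exact (hw i).1.2.2 l hl s hs)]
    refine Finset.prod_ne_zero_iff.mpr fun i _ => ?_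
    rw [hAB, ← (hw i).1.2.1, Function.update_eq_self]
    exact (hw i).1.1
  have h1 := Matrix.rank_of_isUnit _ ((Matrix.isUnit_iff_isUnit_det _).mpr hdet.isUnit)
  have h2 := (Matrix.rank_mul_le_left A B).trans (Matrix.rank_le_card_width A)
  simpa [h1] using h2

end Pool.Agent.H29.Slice
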