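import Mathlib

set_option linter.unusedSectionVars false

namespace Pool.Agent.H29.TD

open Finset

variable {D T : Type} [Fintype D] [Fintype T] [DecidableEq D] [DecidableEq T]

lemma even_card {σ : D → D} (hσ : ∀ x, σ (σ x) = x) (hne : ∀ x, σ x ≠ x) (s : Finset D)
    (h : ∀ x ∈ s, σ x ∈ s) : Even s.card := by
  have : ∑ _x ∈ s, (1 : ZMod 2) = 0 :=
    sum_involution (fun a _ => σ a) (fun _ _ => by decide) (fun a _ _ => hne a) h (fun a _ => hσ a)
  simp only [sum_const, nsmul_eq_mul, mul_one] at this
  exact (ZMod.natCast_eq_zero_iff_even).1 this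

structure Str (G : SimpleGraph D) (π : D → T) (σ : D → D) : Prop where
  inv : ∀ x, σ (σ x) = x
  ne : ∀ x, π (σ x) ≠ π x
  three : ∀ X, (univ.filter (fun x => π x = X)).card = 3
  adj : ∀ u v, G.Adj u v ↔ (u ≠ v ∧ π u = π v) ∨ v = σ u

variable {G : SimpleGraph D} {π : D → T} {σ : D → D}

lemma Str.card_pre (h : Str G π σ) (A : Finset T) :
    (univ.filter (fun x => π x ∈ A)).card = 3 * A.card := by
  rw [card_eq_sum_card_fiberwise (f := π) (t := A) (by intro x hx; simpa using hx)]
  rw [card_eq_sum_ones A, mul_sum]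
  refine sum_congr rfl fun X hX => ?_
  rw [mul_one, ← h.three X]
  congr 1
  ext x
  simp only [mem_filter, mem_univ, true_and]
  exact ⟨fun h => h.2, fun h => ⟨h ▸ hX, h⟩⟩

lemma Str.card_D (h : Str G π σ) : Fintype.card D = 3 * Fintype.card T := by
  simpa using h.card_pre univ

lemma Str.sne (h : Str G π σ) (x : D) : σ x ≠ x := fun e => h.ne x (by rw [e])

lemma Str.surj (h : Str G π σ) (X : T) : ∃ x, π x = X := by
  have : (univ.filter (fun x => π x = X)).Nonempty := card_pos.1 (by rw [h.three]; omega)
  obtain ⟨x, hx⟩ := this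
  exact ⟨x, by simpa using hx⟩

lemma Str.comp_le (h : Str G π σ) (hc : G.Connected) {C : Type} [DecidableEq C] (S : Finset T)
    (κ : T → C) (hκ : ∀ x, π x ∉ S → π (σ x) ∉ S → κ (π x) = κ (π (σ x))) (O : Finset C)
    (hO : ∀ c ∈ O, ∃ X, X ∉ S ∧ κ X = c) : O.card ≤ 2 * S.card + 1 := by
  classical
  let cl : T → T ⊕ C := fun X => if X ∈ S then Sum.inl X else Sum.inr (κ X)
  let R := {a : T ⊕ C // a ∈ univ.image cl}
  let q : D → R := fun x => ⟨cl (π x), mem_image_of_mem _ (mem_univ _)⟩
  let Q : SimpleGraph R := SimpleGraph.fromRel (fun a b => ∃ x, q x = a ∧ q (σ x) = b)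
  have hq : Function.Surjective q := by
    rintro ⟨a, ha⟩
    obtain ⟨X, -, rfl⟩ := mem_image.1 ha
    obtain ⟨x, rfl⟩ := h.surj X
    exact ⟨x, rfl⟩
  have hr : ∀ u v, G.Reachable u v → Q.Reachable (q u) (q v) := by
    rintro u v ⟨p⟩
    induction p with
    | nil => rfl
    | @cons a b c hab _ ih =>
      refine SimpleGraph.Reachable.trans ?_ ih
      by_cases e : q a = q b
      · rw [e]
      · rcases (h.adj a b).1 hab with ⟨-, h2⟩ | h2
        · exact absurd (Subtype.ext (by simp only [q, h2])) e
        · exact SimpleGraph.Adj.reachable ((SimpleGraph.fromRel_adj _ _ _).2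
            ⟨e, Or.inl ⟨a, rfl, by rw [h2]⟩⟩)
  have hQ : Q.Connected := by
    have : Nonempty R := hc.nonempty.map q
    refine ⟨fun a b => ?_⟩
    obtain ⟨u, rfl⟩ := hq a
    obtain ⟨v, rfl⟩ := hq b
    exact hr u v (hc u v)
  have h1 := hQ.card_vert_le_card_edgeSet_add_one
  have h2 : Nat.card Q.edgeSet ≤ 3 * S.card := by
    rw [← h.card_pre S, Nat.card_coe_set_eq]
    refine le_trans (Set.ncard_le_ncard (t := ((univ.filter (fun x => π x ∈ S)).image
      (fun x => s(q x, q (σ x))) : Finset _)) ?_) ?_
    · intro e he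
      induction e using Sym2.ind with
      | _ a b =>
        rw [SimpleGraph.mem_edgeSet, SimpleGraph.fromRel_adj] at he
        have key : ∀ x, q x ≠ q (σ x) → s(q x, q (σ x)) ∈ ((univ.filter (fun x => π x ∈ S)).image
            (fun x => s(q x, q (σ x))) : Finset _) := by
          intro x hx
          by_cases h1 : π x ∈ S
          · exact mem_image_of_mem _ (by simpa using h1)
          · by_cases h2 : π (σ x) ∈ S
            · refine mem_image.2 ⟨σ x, by simpa using h2, ?_⟩
              rw [h.inv, Sym2.eq_swap]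
            · exact absurd (Subtype.ext (by simp [q, cl, h1, h2, hκ x h1 h2])) hx
        obtain ⟨hne, ⟨x, rfl, rfl⟩ | ⟨x, rfl, rfl⟩⟩ := he
        · exact key x hne
        · rw [Sym2.eq_swap]; exact key x hne.symm
    · rw [Set.ncard_coe_finset]; exact card_image_le
  have h3 : S.card + O.card ≤ Nat.card R := by
    have e : Nat.card R = (univ.image cl).card := Nat.card_eq_finsetCard _
    rw [e, ← card_disjSum]
    apply card_le_card
    rintro (X | c) ha
    · simp only [inl_mem_disjSum] at ha
      exact mem_image.2 ⟨X, mem_univ _, by simp [cl, ha]⟩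
    · simp only [inr_mem_disjSum] at ha
      obtain ⟨X, h1, h2⟩ := hO c ha
      exact mem_image.2 ⟨X, mem_univ _, by simp [cl, h1, h2]⟩
  omega

lemma Str.count (h : Str G π σ) (hc : G.Connected) {C : Type} [DecidableEq C] (S : Finset T)
    (κ : T → C) (hκ : ∀ x, π x ∉ S → π (σ x) ∉ S → κ (π x) = κ (π (σ x))) (O : Finset C)
    (hO : ∀ c ∈ O, Odd (univ.filter (fun X => X ∉ S ∧ κ X = c)).card) :
    6 * O.card ≤ Fintype.card T + 6 * S.card + 2 := by
  have h1 := h.comp_le hc S κ hκ O (by
    intro c hc
    obtain ⟨X, hX⟩ := card_pos.1 (hO c hc).pos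
    exact ⟨X, by simpa using hX⟩)
  let F : C → Finset T := fun c => univ.filter (fun X => X ∉ S ∧ κ X = c)
  let E : C → Finset D := fun c => univ.filter (fun x => π x ∈ F c ∧ π (σ x) ∈ S)
  have h2 : ∀ c ∈ O, 4 ≤ (F c).card + (E c).card := by
    intro c hc
    have a1 := card_filter_add_card_filter_not (s := univ.filter (fun x => π x ∈ F c))
      (fun x => π (σ x) ∈ S)
    rw [h.card_pre, filter_filter, filter_filter] at a1
    have a2 : Even (univ.filter (fun x => π x ∈ F c ∧ ¬ π (σ x) ∈ S)).card := by
      apply even_card h.inv h.sne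
      intro x hx
      simp only [F, mem_filter, mem_univ, true_and] at hx ⊢
      rw [h.inv]
      exact ⟨⟨hx.2, (hκ x hx.1.1 hx.2).symm.trans hx.1.2⟩, hx.1.1⟩
    have a3 : Odd (F c).card := hO c hc
    by_cases e : (F c).card = 1
    · obtain ⟨X, hX⟩ := card_eq_one.1 e
      have : univ.filter (fun x => π x ∈ F c ∧ ¬ π (σ x) ∈ S) = ∅ := by
        apply filter_eq_empty_iff.2
        rintro x - ⟨b1, b2⟩
        have b3 : π (σ x) ∈ F c := by
          simp only [F, mem_filter, mem_univ, true_and] at b1 ⊢
          exact ⟨b2, (hκ x b1.1 b2).symm.trans b1.2⟩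
        rw [hX, mem_singleton] at b1 b3
        exact h.ne x (b3.trans b1.symm)
      rw [this, card_empty] at a1
      simp only [E]
      omega
    · simp only [E]
      obtain ⟨k, hk⟩ := a2
      obtain ⟨l, hl⟩ := a3
      omega
  have h3 : ∑ c ∈ O, (F c).card + S.card ≤ Fintype.card T := by
    rw [← card_biUnion]
    · rw [← card_union_of_disjoint]
      · exact card_le_univ _
      · rw [disjoint_left]
        intro X hX
        simp only [F, mem_biUnion, mem_filter] at hX
        obtain ⟨c, -, -, h, -⟩ := hX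
        exact h
    · intro a _ b _ hab
      rw [Function.onFun, disjoint_left]
      intro X h1 h2
      simp only [F, mem_filter] at h1 h2
      exact hab (h1.2.2.symm.trans h2.2.2)
  have h4 : ∑ c ∈ O, (E c).card ≤ 3 * S.card := by
    rw [← card_biUnion, ← h.card_pre]
    · apply card_le_card_of_injOn σ
      · intro x hx
        simp only [E, coe_biUnion, mem_coe, Set.mem_iUnion, mem_filter] at hx
        obtain ⟨c, -, -, -, h⟩ := hx
        simpa using h
      · intro x _ y _ e
        rw [← h.inv x, e, h.inv]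
    · intro a _ b _ hab
      rw [Function.onFun, disjoint_left]
      intro X h1 h2
      simp only [E, F, mem_filter] at h1 h2
      exact hab (h1.2.1.2.2.symm.trans h2.2.1.2.2)
  have h5 := sum_le_sum h2
  rw [sum_add_distrib] at h5
  simp only [sum_const, smul_eq_mul] at h5
  omega

lemma Str.matching (h : Str G π σ) (hc : G.Connected) : ∃ (d : ℕ) (p : T ⊕ Fin d → T ⊕ Fin d),
    6 * d ≤ Fintype.card T + 2 ∧ (∀ a, p (p a) = a) ∧
    ∀ X Y, p (Sum.inl X) = Sum.inl Y → ∃ x, π x = X ∧ π (σ x) = Y := by
  classical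
  set d := 2 * ((Fintype.card T + 2) / 12) with hd
  let H : SimpleGraph (T ⊕ Fin d) :=
    { Adj := fun a b => a ≠ b ∧ ∀ X Y, a = Sum.inl X → b = Sum.inl Y → ∃ x, π x = X ∧ π (σ x) = Y
      symm := ⟨fun a b hab => ⟨hab.1.symm, fun X Y e1 e2 => by
        obtain ⟨x, h1, h2⟩ := hab.2 Y X e2 e1
        exact ⟨σ x, h2, by rw [h.inv, h1]⟩⟩⟩
      loopless := ⟨fun a ha => ha.1 rfl⟩ }
  have hN : Even (Fintype.card T) := by
    have := even_card h.inv h.sne univ (by simp)
    rw [card_univ, h.card_D] at this
    obtain ⟨k, hk⟩ := this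
    exact ⟨Fintype.card T / 2, by omega⟩
  obtain ⟨M, hM⟩ : ∃ M : H.Subgraph, M.IsPerfectMatching := by
    rw [SimpleGraph.tutte]
    intro u hu
    unfold SimpleGraph.IsTutteViolator at hu
    set K := ((⊤ : H.Subgraph).deleteVerts u).coe with hK
    have hpar := K.odd_ncard_oddComponents
    have hcard : Nat.card ((⊤ : H.Subgraph).deleteVerts u).verts + u.ncard
        = Fintype.card T + d := by
      rw [Nat.card_coe_set_eq]
      have := Set.ncard_add_ncard_compl u
      rw [Nat.card_eq_fintype_card, Fintype.card_sum, Fintype.card_fin] at this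
      have e : ((⊤ : H.Subgraph).deleteVerts u).verts = uᶜ := by
        ext x; simp
      rw [e]; omega
    have h2 : u.ncard + 2 ≤ K.oddComponents.ncard := by
      obtain ⟨k, hk⟩ := hN
      rw [Nat.odd_iff, Nat.odd_iff] at hpar
      omega
    have hadj : ∀ a b : ((⊤ : H.Subgraph).deleteVerts u).verts, H.Adj a.1 b.1 → K.Adj a b := by
      intro a b hab
      have ha := a.2
      have hb := b.2
      simp only [SimpleGraph.Subgraph.deleteVerts_verts, SimpleGraph.Subgraph.verts_top] at ha hb
      simp [hK, hab, ha.2, hb.2]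
    by_cases hA : ∃ j, Sum.inr j ∉ u
    · obtain ⟨j, hj⟩ := hA
      have : K.oddComponents.ncard ≤ 1 := by
        rw [Set.ncard_le_one_iff_subsingleton]
        have key : ∀ c : K.ConnectedComponent,
            c = K.connectedComponentMk ⟨Sum.inr j, by simp [hj]⟩ := by
          intro c
          induction c using SimpleGraph.ConnectedComponent.ind with
          | _ a =>
            by_cases e : a = ⟨Sum.inr j, by simp [hj]⟩
            · rw [e]
            · apply SimpleGraph.ConnectedComponent.connectedComponentMk_eq_of_adj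
              apply hadj
              exact ⟨fun e' => e (Subtype.ext e'), fun X Y _ e2 => by simp at e2⟩
        intro a _ b _
        rw [key a, key b]
      omega
    · push Not at hA
      let S : Finset T := univ.filter (fun X => Sum.inl X ∈ u)
      have hS : u.ncard = S.card + d := by
        have : u = ((S.disjSum (univ : Finset (Fin d)) : Finset _) : Set _) := by
          ext (X | j)
          · simp [S]
          · simp [hA j]
        rw [this, Set.ncard_coe_finset, card_disjSum]; simp
      let κ : T → Option K.ConnectedComponent := fun X =>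
        if hX : Sum.inl X ∈ u then none else some (K.connectedComponentMk ⟨Sum.inl X, by simp [hX]⟩)
      have hfin : K.oddComponents.Finite := Set.toFinite _
      have := h.count hc S κ (by
        intro x h1 h2
        simp only [S, mem_filter, mem_univ, true_and] at h1 h2
        simp only [κ, h1, h2, dif_neg, not_false_eq_true, Option.some.injEq]
        apply SimpleGraph.ConnectedComponent.connectedComponentMk_eq_of_adj
        apply hadj
        refine ⟨fun e => h.ne x (Sum.inl.inj e).symm, fun X Y e1 e2 => ⟨x, Sum.inl.inj e1,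
          Sum.inl.inj e2⟩⟩) (hfin.toFinset.image some) (by
        intro c0 hc0
        obtain ⟨c, hc, rfl⟩ := mem_image.1 hc0
        rw [Set.Finite.mem_toFinset] at hc
        have hc' : Odd c.supp.ncard := hc
        have e : (Subtype.val '' c.supp) =
            Sum.inl '' ((univ.filter (fun X => X ∉ S ∧ κ X = some c) : Finset T) : Set T) := by
          ext a
          constructor
          · rintro ⟨⟨b, hb⟩, h1, rfl⟩
            have hb' : b ∉ u := by simpa using hb
            rcases b with X | j
            · refine ⟨X, ?_, rfl⟩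
              simp only [S, κ, coe_filter, mem_filter, mem_univ, true_and, Set.mem_ofPred_eq, hb',
                dif_neg, not_false_eq_true, Option.some.injEq]
              exact h1
            · exact absurd (hA j) hb'
          · rintro ⟨X, h1, rfl⟩
            simp only [S, coe_filter, mem_filter, mem_univ, true_and, Set.mem_ofPred_eq] at h1
            refine ⟨⟨Sum.inl X, by simp [h1.1]⟩, ?_, rfl⟩
            have := h1.2
            simp only [κ, h1.1, dif_neg, not_false_eq_true, Option.some.injEq] at this
            exact this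
        have := congrArg Set.ncard e
        rw [Set.ncard_image_of_injective _ Subtype.val_injective,
          Set.ncard_image_of_injective _ Sum.inl_injective, Set.ncard_coe_finset] at this
        rwa [← this])
      rw [card_image_of_injective _ (Option.some_injective _), ← Set.ncard_eq_toFinset_card] at this
      omega
  rw [SimpleGraph.Subgraph.isPerfectMatching_iff] at hM
  choose p hp hu using hM
  refine ⟨d, p, by omega, fun a => (hu _ _ (hp a).symm).symm, fun X Y e => ?_⟩
  exact (M.adj_sub (hp (Sum.inl X))).2 X Y rfl e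

lemma Str.dom (h : Str G π σ) (hc : G.Connected) : ∃ S : Finset D, (∀ v, ∃ u ∈ S, G.Adj v u) ∧
    18 * S.card ≤ 7 * Fintype.card D + 6 := by
  classical
  obtain ⟨d, p, hd, hp, hm⟩ := h.matching hc
  have hf : ∀ X Y, ∃ x, p (Sum.inl X) = Sum.inl Y → π x = X ∧ π (σ x) = Y := by
    intro X Y
    by_cases e : p (Sum.inl X) = Sum.inl Y
    · obtain ⟨x, hx⟩ := hm X Y e
      exact ⟨x, fun _ => hx⟩
    · obtain ⟨x, -⟩ := h.surj X
      exact ⟨x, fun e' => absurd e' e⟩
  choose f hf using hf
  have h2 : ∀ X, ∃ s : Finset D, s.card = 2 ∧ ∀ x ∈ s, π x = X := by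
    intro X
    obtain ⟨s, hs, h2⟩ := exists_subset_card_eq (s := univ.filter (fun x => π x = X)) (n := 2)
      (by rw [h.three]; omega)
    exact ⟨s, h2, fun x hx => by simpa using hs hx⟩
  choose t ht1 ht2 using h2
  let e := Fintype.equivFin T
  let a : T → T → D := fun X Y => if e X < e Y then f X Y else σ (f Y X)
  have sym : ∀ X Y, p (Sum.inl X) = Sum.inl Y → p (Sum.inl Y) = Sum.inl X := by
    intro X Y h1; rw [← h1, hp]
  have ha1 : ∀ X Y, p (Sum.inl X) = Sum.inl Y → π (a X Y) = X := by
    intro X Y h1
    simp only [a]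
    split_ifs
    · exact (hf X Y h1).1
    · exact (hf Y X (sym X Y h1)).2
  have ha2 : ∀ X Y, p (Sum.inl X) = Sum.inl Y → σ (a X Y) = a Y X := by
    intro X Y h1
    have hne : e X ≠ e Y := by
      intro e'
      have e2 := e.injective e'
      obtain ⟨b1, b2⟩ := hf X Y h1
      exact h.ne _ (b2.trans (e2.symm.trans b1.symm))
    simp only [a]
    split_ifs with c1 c2 c2
    · exact absurd c1 (not_lt.2 c2.le)
    · rfl
    · exact h.inv _
    · exact absurd (le_antisymm (not_lt.1 c2) (not_lt.1 c1)) hne
  let g : T → Finset D := fun X => match p (Sum.inl X) with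
    | Sum.inl Y => {a X Y}
    | Sum.inr _ => t X
  refine ⟨univ.biUnion g, fun v => ?_, ?_⟩
  · rcases hv : p (Sum.inl (π v)) with Y | j
    · by_cases e' : v = a (π v) Y
      · refine ⟨σ v, mem_biUnion.2 ⟨Y, mem_univ _, ?_⟩, (h.adj _ _).2 (Or.inr rfl)⟩
        simp only [g, sym _ _ hv, mem_singleton]
        rw [← ha2 _ _ hv, ← e']
      · refine ⟨a (π v) Y, mem_biUnion.2 ⟨π v, mem_univ _, by simp [g, hv]⟩,
          (h.adj _ _).2 (Or.inl ⟨e', (ha1 _ _ hv).symm⟩)⟩
    · obtain ⟨x, hx, hne⟩ := exists_mem_ne (s := t (π v)) (by rw [ht1]; omega) v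
      exact ⟨x, mem_biUnion.2 ⟨π v, mem_univ _, by simp [g, hv, hx]⟩,
        (h.adj _ _).2 (Or.inl ⟨hne.symm, (ht2 _ _ hx).symm⟩)⟩
  · have c1 : (univ.biUnion g).card ≤ ∑ X, (1 + if (p (Sum.inl X)).isRight then 1 else 0) := by
      refine card_biUnion_le.trans (sum_le_sum fun X _ => ?_)
      rcases hv : p (Sum.inl X) with Y | j
      · simp [g, hv]
      · simp [g, hv, ht1]
    rw [sum_add_distrib, ← card_filter] at c1
    have c2 : (univ.filter (fun X => (p (Sum.inl X)).isRight = true)).card ≤ d := by
      have : ((univ : Finset (Fin d)).image (Sum.inr : Fin d → T ⊕ Fin d)).card ≤ d :=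
        card_image_le.trans (by simp)
      refine le_trans ?_ this
      apply card_le_card_of_injOn (fun X => p (Sum.inl X))
      · intro X hX
        simp only [coe_filter, mem_univ, true_and, Set.mem_ofPred_eq] at hX
        obtain ⟨j, hj⟩ := Sum.isRight_iff.1 hX
        simp [hj]
      · intro X _ Y _ e'
        have := congrArg p e'
        simp only [hp] at this
        exact Sum.inl.inj this
    simp only [sum_const, card_univ, smul_eq_mul, mul_one] at c1
    rw [h.card_D]
    omega

end Pool.Agent.H29.TD
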