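import Pool.Agent.H29.TD1

set_option linter.unusedSectionVars false

namespace Pool.Agent.H29.TD

open Finset

def Cubic {V : Type} (G : SimpleGraph V) : Prop := ∀ v, (G.neighborSet v).ncard = 3

/-- no induced `K_{1,3}` -/
def ClawFree {V : Type} (G : SimpleGraph V) : Prop :=
  ¬ ∃ v a b c, G.Adj v a ∧ G.Adj v b ∧ G.Adj v c ∧ a ≠ b ∧ a ≠ c ∧ b ≠ c ∧
    ¬ G.Adj a b ∧ ¬ G.Adj a c ∧ ¬ G.Adj b c

/-- no induced `K_4 - e` -/
def DiamondFree {V : Type} (G : SimpleGraph V) : Prop :=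
  ¬ ∃ a b c d, a ≠ d ∧ G.Adj a b ∧ G.Adj a c ∧ G.Adj b c ∧ G.Adj b d ∧ G.Adj c d ∧ ¬ G.Adj a d

def InC {V : Type} (G : SimpleGraph V) : Prop :=
  G.Connected ∧ Cubic G ∧ ClawFree G ∧ DiamondFree G

/-- total domination number -/
noncomputable def gamT {V : Type} (G : SimpleGraph V) : ℕ :=
  sInf {k | ∃ S : Finset V, (∀ v, ∃ u ∈ S, G.Adj v u) ∧ S.card = k}

variable {D T : Type} [Fintype D] [Fintype T] [DecidableEq D] [DecidableEq T]
variable {G : SimpleGraph D} {π : D → T} {σ : D → D}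

lemma Str.cubic (h : Str G π σ) : Cubic G := by
  intro v
  have : G.neighborSet v = (insert (σ v) ((univ.filter (fun x => π x = π v)).erase v) : Finset D) := by
    ext u
    simp only [SimpleGraph.mem_neighborSet, h.adj, coe_insert, coe_erase, coe_filter, mem_univ,
      true_and, Set.mem_insert_iff, Set.mem_sdiff, Set.mem_ofPred_eq, Set.mem_singleton_iff]
    grind
  rw [this, Set.ncard_coe_finset, card_insert_of_notMem (by simp [h.ne]),
    card_erase_of_mem (by simp), h.three]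

lemma Str.claw (h : Str G π σ) : ClawFree G := by
  rintro ⟨v, a, b, c, h1, h2, h3, h4, h5, h6, h7, h8, h9⟩
  simp only [h.adj] at *
  grind

lemma Str.tri (h : Str G π σ) {x y z : D} (h1 : G.Adj x y) (h2 : G.Adj x z) (h3 : G.Adj y z) :
    π x = π y := by
  have a := h3.ne
  have b := h2.ne
  have := h.ne x
  have := h.inv x
  simp only [h.adj] at h1 h2 h3
  grind

lemma Str.diamond (h : Str G π σ) : DiamondFree G := by
  rintro ⟨a, b, c, d, h1, h2, h3, h4, h5, h6, h7⟩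
  exact h7 ((h.adj _ _).2 (Or.inl ⟨h1, (h.tri h2 h3 h4).trans (h.tri h5 h4 h6.symm)⟩))

lemma loc (h : InC G) (h5 : 5 ≤ Fintype.card D) (v : D) : ∃ a b c, a ≠ b ∧ a ≠ c ∧ b ≠ c ∧
    (∀ u, G.Adj v u ↔ u = a ∨ u = b ∨ u = c) ∧ G.Adj a b ∧ ¬ G.Adj a c ∧ ¬ G.Adj b c := by
  obtain ⟨hc, h3, hcl, hd⟩ := h
  have N : ∀ v, ∃ a b c, a ≠ b ∧ a ≠ c ∧ b ≠ c ∧ ∀ u, G.Adj v u ↔ u = a ∨ u = b ∨ u = c := by
    intro v
    obtain ⟨a, b, c, h1, h2, h3, h4⟩ := Set.ncard_eq_three.1 (h3 v)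
    exact ⟨a, b, c, h1, h2, h3, fun u => by
      rw [← SimpleGraph.mem_neighborSet, h4]; simp⟩
  have N' : ∀ v a b c u, G.Adj v a → G.Adj v b → G.Adj v c → a ≠ b → a ≠ c → b ≠ c → G.Adj v u →
      u = a ∨ u = b ∨ u = c := by
    intro v a b c u
    obtain ⟨x, y, z, -, -, -, h4⟩ := N v
    simp only [h4]
    grind
  obtain ⟨a, b, c, hab, hac, hbc, hv⟩ := N v
  have ha : G.Adj v a := (hv a).2 (by simp)
  have hb : G.Adj v b := (hv b).2 (by simp)
  have hc' : G.Adj v c := (hv c).2 (by simp)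
  have k4 : ¬ (G.Adj a b ∧ G.Adj a c ∧ G.Adj b c) := by
    rintro ⟨e1, e2, e3⟩
    have cl : ∀ x y, G.Reachable x y → x ∈ ({v, a, b, c} : Finset D) → y ∈ ({v, a, b, c} : Finset D) := by
      rintro x y ⟨p⟩
      induction p with
      | nil => exact id
      | @cons x y z hxy _ ih =>
        intro hx
        apply ih
        simp only [mem_insert, mem_singleton] at hx ⊢
        rcases hx with rfl | rfl | rfl | rfl
        · exact Or.inr ((hv y).1 hxy)
        · have := N' _ _ _ _ _ ha.symm e1 e2 hb.ne hc'.ne hbc hxy; tauto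
        · have := N' _ _ _ _ _ hb.symm e1.symm e3 ha.ne hc'.ne hac hxy; tauto
        · have := N' _ _ _ _ _ hc'.symm e2.symm e3.symm ha.ne hb.ne hab hxy; tauto
    have : (univ : Finset D) ⊆ {v, a, b, c} := fun y _ => cl v y (hc v y) (by simp)
    have h1 := card_le_card this
    have h2 : ({v, a, b, c} : Finset D).card ≤ 4 := card_le_four
    rw [card_univ] at h1
    omega
  have d1 : ∀ x y z, G.Adj v x → G.Adj v y → G.Adj v z → x ≠ z → G.Adj x y → G.Adj y z → G.Adj x z := by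
    intro x y z h1 h2 h3 h4 h5 h6
    by_contra h7
    exact hd ⟨x, v, y, z, h4, h1.symm, h5, h2, h3, h6, h7⟩
  by_cases e1 : G.Adj a b
  · refine ⟨a, b, c, hab, hac, hbc, hv, e1, fun e2 => ?_, fun e2 => ?_⟩
    · exact k4 ⟨e1, e2, d1 b a c hb ha hc' hbc e1.symm e2⟩
    · exact k4 ⟨e1, d1 a b c ha hb hc' hac e1 e2, e2⟩
  · by_cases e2 : G.Adj a c
    · refine ⟨a, c, b, hac, hab, hbc.symm, fun u => by rw [hv]; tauto, e2, e1, fun e3 => ?_⟩
      exact e1 (d1 a c b ha hc' hb hab e2 e3)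
    · by_cases e3 : G.Adj b c
      · exact ⟨b, c, a, hbc, hab.symm, hac.symm, fun u => by rw [hv]; tauto, e3,
          fun e => e1 e.symm, fun e => e2 e.symm⟩
      · exact absurd ⟨v, a, b, c, ha, hb, hc', hab, hac, hbc, e1, e2, e3⟩ hcl

theorem upper (h : InC G) (h5 : 5 ≤ Fintype.card D) : 18 * gamT G ≤ 7 * Fintype.card D + 6 := by
  classical
  choose a b c hab hac hbc hv h1 h2 h3 using loc h h5
  let Tri : D → D → Prop := fun u v => G.Adj u v ∧ ∃ w, G.Adj u w ∧ G.Adj v w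
  have tsym : ∀ u v, Tri u v → Tri v u := fun u v ⟨h1, w, h2, h3⟩ => ⟨h1.symm, w, h3, h2⟩
  have tri : ∀ v u, Tri v u ↔ u = a v ∨ u = b v := by
    intro v u
    constructor
    · rintro ⟨e1, w, e2, e3⟩
      rcases (hv v u).1 e1 with e | e | e
      · exact Or.inl e
      · exact Or.inr e
      · subst e
        rcases (hv v w).1 e2 with e | e | e <;> subst e
        · exact absurd e3.symm (h2 v)
        · exact absurd e3.symm (h3 v)
        · exact absurd e3 G.irrefl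
    · rintro (rfl | rfl)
      · exact ⟨(hv v _).2 (by simp), b v, (hv v _).2 (by simp), h1 v⟩
      · exact ⟨(hv v _).2 (by simp), a v, (hv v _).2 (by simp), (h1 v).symm⟩
  let r : Setoid D :=
    { r := fun u v => u = v ∨ Tri u v
      iseqv := ⟨fun _ => Or.inl rfl, fun h => h.elim (fun e => Or.inl e.symm)
        (fun e => Or.inr (tsym _ _ e)), by
        rintro u v w (rfl | e1) (rfl | e2)
        · exact Or.inl rfl
        · exact Or.inr e2
        · exact Or.inr e1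
        · by_cases e : u = w
          · exact Or.inl e
          · refine Or.inr ⟨?_, v, e1.1, e2.1.symm⟩
            rcases (tri v u).1 (tsym _ _ e1) with rfl | rfl <;> rcases (tri v w).1 e2 with rfl | rfl
            · exact absurd rfl e
            · exact h1 v
            · exact (h1 v).symm
            · exact absurd rfl e⟩ }
  have hπ : ∀ u v, Quotient.mk r u = Quotient.mk r v ↔ u = v ∨ Tri u v := fun u v => Quotient.eq
  have hcv : ∀ v, G.Adj v (c v) := fun v => (hv v _).2 (by simp)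
  have nt : ∀ v, ¬ Tri v (c v) := by
    intro v e
    rcases (tri _ _).1 e with e | e
    · exact hac v e.symm
    · exact hbc v e.symm
  have hS : Str G (Quotient.mk r) c := by
    refine ⟨fun x => ?_, fun x e => ?_, fun X => ?_, fun u v => ?_⟩
    · rcases (hv (c x) x).1 (hcv x).symm with e | e | e
      · exact absurd (tsym _ _ ((tri _ _).2 (Or.inl e))) (nt x)
      · exact absurd (tsym _ _ ((tri _ _).2 (Or.inr e))) (nt x)
      · exact e.symm
    · rcases (hπ _ _).1 e.symm with e | e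
      · exact (hcv x).ne e
      · exact nt x e
    · induction X using Quotient.ind with
      | _ v =>
        rw [card_eq_three]
        refine ⟨v, a v, b v, ((hv v _).2 (by simp)).ne, ((hv v _).2 (by simp)).ne, hab v, ?_⟩
        ext u
        simp only [mem_filter, mem_univ, true_and, mem_insert, mem_singleton]
        rw [eq_comm, hπ, tri, eq_comm]
    · rw [hπ, tri, hv]
      have e1 := ((hv u (a u)).2 (by simp)).ne
      have e2 := ((hv u (b u)).2 (by simp)).ne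
      grind
  obtain ⟨S, hS1, hS2⟩ := hS.dom h.1
  have : gamT G ≤ S.card := Nat.sInf_le ⟨S, hS1, rfl⟩
  omega

def tau : Fin 36 → Fin 36 := ![3, 6, 7, 0, 9, 18, 1, 2, 27, 4, 12, 15, 10, 16, 17, 11, 13, 14, 5, 21, 24, 19, 25, 26, 20, 22, 23, 8, 30, 33, 28, 34, 35, 29, 31, 32]
def n1 : Fin 36 → Fin 36 := ![1, 2, 0, 4, 5, 3, 7, 8, 6, 10, 11, 9, 13, 14, 12, 16, 17, 15, 19, 20, 18, 22, 23, 21, 25, 26, 24, 28, 29, 27, 31, 32, 30, 34, 35, 33]
def n2 : Fin 36 → Fin 36 := ![2, 0, 1, 5, 3, 4, 8, 6, 7, 11, 9, 10, 14, 12, 13, 17, 15, 16, 20, 18, 19, 23, 21, 22, 26, 24, 25, 29, 27, 28, 32, 30, 31, 35, 33, 34]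
def par : Fin 36 → Fin 36 := ![0, 0, 0, 0, 3, 3, 1, 6, 6, 4, 9, 9, 10, 12, 12, 11, 15, 15, 5, 18, 18, 19, 21, 21, 20, 24, 24, 8, 27, 27, 28, 30, 30, 29, 33, 33]
def rk : Fin 36 → ℕ := ![0, 1, 1, 1, 2, 2, 2, 3, 3, 3, 4, 4, 5, 6, 6, 5, 6, 6, 3, 4, 4, 5, 6, 6, 5, 6, 6, 4, 5, 5, 6, 7, 7, 6, 7, 7]

def pp {k : ℕ} (x : ZMod (k + 1) × Fin 36) : ZMod (k + 1) × Fin 12 := (x.1, ⟨x.2.val / 3, by omega⟩)

def ss {k : ℕ} (x : ZMod (k + 1) × Fin 36) : ZMod (k + 1) × Fin 36 :=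
  (if x.2 = 7 then x.1 + 1 else if x.2 = 2 then x.1 - 1 else x.1, tau x.2)

lemma ss_ss {k : ℕ} (x : ZMod (k + 1) × Fin 36) : ss (ss x) = x := by
  obtain ⟨i, j⟩ := x
  have : ∀ j, tau (tau j) = j ∧ (tau j = 7 ↔ j = 2) ∧ (tau j = 2 ↔ j = 7) := by decide
  obtain ⟨h1, h2, h3⟩ := this j
  simp only [ss, h1, h2, h3]
  split_ifs <;> simp_all

lemma pp_ss {k : ℕ} (x : ZMod (k + 1) × Fin 36) : pp (ss x) ≠ pp x := by
  have : ∀ j, (tau j).val / 3 ≠ j.val / 3 := by decide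
  intro e
  have e2 := congrArg (fun y => y.2.val) e
  exact this x.2 e2

def GG (k : ℕ) : SimpleGraph (ZMod (k + 1) × Fin 36) where
  Adj u v := (u ≠ v ∧ pp u = pp v) ∨ v = ss u
  symm := ⟨fun u v h => h.elim (fun h => Or.inl ⟨h.1.symm, h.2.symm⟩)
    (fun h => Or.inr (by rw [h, ss_ss]))⟩
  loopless := ⟨fun u h => h.elim (fun h => h.1 rfl) (fun h => pp_ss u (by rw [← h]))⟩

lemma str (k : ℕ) : Str (GG k) pp ss := by
  refine ⟨ss_ss, pp_ss, ?_, fun _ _ => Iff.rfl⟩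
  rintro ⟨i, a⟩
  have h1 : ∀ a : Fin 12, (univ.filter (fun j : Fin 36 => j.val / 3 = a.val)).card = 3 := by decide
  have : univ.filter (fun x => pp x = (i, a)) =
      {i} ×ˢ univ.filter (fun j : Fin 36 => j.val / 3 = a.val) := by
    ext ⟨i', j⟩
    simp only [pp, mem_filter, mem_univ, true_and, mem_product, mem_singleton, Prod.mk.injEq,
      Fin.ext_iff]
  rw [this, card_product, h1]; simp

lemma conn (k : ℕ) : (GG k).Connected := by
  have h1 : ∀ j : Fin 36, j ≠ 0 → rk (par j) < rk j ∧ ((j ≠ par j ∧ j.val / 3 = (par j).val / 3) ∨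
      (j ≠ 7 ∧ j ≠ 2 ∧ par j = tau j)) := by decide
  have h2 : ∀ n (i : ZMod (k + 1)) (j : Fin 36), rk j = n → (GG k).Reachable (i, j) (i, 0) := by
    intro n
    induction n using Nat.strong_induction_on with
    | _ n ih =>
      intro i j hj
      by_cases e : j = 0
      · rw [e]
      · obtain ⟨a1, a2⟩ := h1 j e
        refine SimpleGraph.Reachable.trans (SimpleGraph.Adj.reachable ?_) (ih _ (hj ▸ a1) i _ rfl)
        rcases a2 with a2 | a2
        · exact Or.inl ⟨by simp [a2.1], by simp [pp, a2.2]⟩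
        · exact Or.inr (by simp [ss, a2.1, a2.2.1, a2.2.2])
  have h3 : ∀ n : ℕ, (GG k).Reachable ((n : ZMod (k + 1)), 0) (0, 0) := by
    intro n
    induction n with
    | zero => simp
    | succ n ih =>
      refine SimpleGraph.Reachable.trans ?_ ih
      have a : (GG k).Adj ((n : ZMod (k + 1)), 7) (((n + 1 : ℕ) : ZMod (k + 1)), 2) :=
        Or.inr (by simp [ss, tau])
      exact ((h2 _ _ _ rfl).symm.trans a.reachable.symm).trans (h2 _ _ _ rfl)
  have h4 : ∀ x, (GG k).Reachable x (0, 0) := by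
    rintro ⟨i, j⟩
    have := h3 i.val
    rw [ZMod.natCast_zmod_val] at this
    exact (h2 _ _ _ rfl).trans this
  exact ⟨fun u v => (h4 u).trans (h4 v).symm⟩

lemma blob {z0 z1 z2 x0 x1 x2 y0 y1 y2 w : ℕ} (_ : z0 ≤ 1) (_ : z1 ≤ 1) (_ : z2 ≤ 1) (_ : x0 ≤ 1)
    (_ : x1 ≤ 1) (_ : x2 ≤ 1) (_ : y0 ≤ 1) (_ : y1 ≤ 1) (_ : y2 ≤ 1) (_ : w ≤ 1)
    (_ : 1 ≤ z1 + z2 + w) (_ : 1 ≤ z2 + z0 + x0) (_ : 1 ≤ z0 + z1 + y0)
    (_ : 1 ≤ x1 + x2 + z1) (_ : 1 ≤ x2 + x0 + y1) (_ : 1 ≤ x0 + x1 + y2)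
    (_ : 1 ≤ y1 + y2 + z2) (_ : 1 ≤ y2 + y0 + x1) (_ : 1 ≤ y0 + y1 + x2) :
    4 ≤ z0 + z1 + z2 + x0 + x1 + x2 + y0 + y1 + y2 + w := by
  interval_cases w <;> interval_cases z0 <;> interval_cases z1 <;> interval_cases z2 <;>
    interval_cases x0 <;> interval_cases y0 <;> omega

lemma sum36 (f : Fin 36 → ℕ) : ∑ j, f j =
      (f 0 + (f 1 + (f 2 + (f 3 + (f 4 + (f 5 + (f 6 + (f 7 + (f 8 + (f 9 + (f 10 + (f 11 + (f
      12 + (f 13 + (f 14 + (f 15 + (f 16 + (f 17 + (f 18 + (f 19 + (f 20 + (f 21 + (f 22 + (f 23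
      + (f 24 + (f 25 + (f 26 + (f 27 + (f 28 + (f 29 + (f 30 + (f 31 + (f 32 + (f 33 + (f 34 +
      (f 35 + 0)))))))))))))))))))))))))))))))))))) := by
  simp only [Fin.sum_univ_succ, Fin.sum_univ_zero]
  rfl

theorem lower (k : ℕ) : 14 * (k + 1) ≤ gamT (GG k) := by
  classical
  obtain ⟨S, hS, hcard⟩ := Nat.sInf_mem (s := {m | ∃ S : Finset (ZMod (k + 1) × Fin 36),
    (∀ v, ∃ u ∈ S, (GG k).Adj v u) ∧ S.card = m}) ⟨_, univ, fun v => ⟨ss v, mem_univ _, Or.inr rfl⟩, rfl⟩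
  unfold gamT
  rw [← hcard]
  let s : ZMod (k + 1) × Fin 36 → ℕ := fun x => if x ∈ S then 1 else 0
  have hs : ∀ x, s x ≤ 1 := fun x => by simp only [s]; split_ifs <;> omega
  have hn : ∀ j j' : Fin 36, j ≠ j' → j.val / 3 = j'.val / 3 → j' = n1 j ∨ j' = n2 j := by decide
  have hc : ∀ i j, 1 ≤ s (i, n1 j) + s (i, n2 j) + s (ss (i, j)) := by
    intro i j
    obtain ⟨⟨i', j'⟩, hu, h | h⟩ := hS (i, j)
    · have e : i = i' := congrArg Prod.fst h.2
      subst e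
      have : s (i, j') = 1 := by simp [s, hu]
      rcases hn j j' (fun e => h.1 (by rw [e])) (congrArg (fun y => y.2.val) h.2) with e | e <;>
        rw [e] at this <;> omega
    · have : s (i', j') = 1 := by simp [s, hu]
      rw [h] at this
      omega
  have key : ∀ i, 14 + s (i, 7) ≤ ∑ j, s (i, j) + s (i - 1, 7) := by
    intro i
    have c0 : 1 ≤ s (i, 1) + s (i, 2) + s (i, 3) := hc i 0
    have c1 : 1 ≤ s (i, 2) + s (i, 0) + s (i, 6) := hc i 1
    have c2 : 1 ≤ s (i, 0) + s (i, 1) + s (i - 1, 7) := hc i 2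
    have c9 : 1 ≤ s (i, 10) + s (i, 11) + s (i, 4) := hc i 9
    have c10 : 1 ≤ s (i, 11) + s (i, 9) + s (i, 12) := hc i 10
    have c11 : 1 ≤ s (i, 9) + s (i, 10) + s (i, 15) := hc i 11
    have c12 : 1 ≤ s (i, 13) + s (i, 14) + s (i, 10) := hc i 12
    have c13 : 1 ≤ s (i, 14) + s (i, 12) + s (i, 16) := hc i 13
    have c14 : 1 ≤ s (i, 12) + s (i, 13) + s (i, 17) := hc i 14
    have c15 : 1 ≤ s (i, 16) + s (i, 17) + s (i, 11) := hc i 15
    have c16 : 1 ≤ s (i, 17) + s (i, 15) + s (i, 13) := hc i 16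
    have c17 : 1 ≤ s (i, 15) + s (i, 16) + s (i, 14) := hc i 17
    have c18 : 1 ≤ s (i, 19) + s (i, 20) + s (i, 5) := hc i 18
    have c19 : 1 ≤ s (i, 20) + s (i, 18) + s (i, 21) := hc i 19
    have c20 : 1 ≤ s (i, 18) + s (i, 19) + s (i, 24) := hc i 20
    have c21 : 1 ≤ s (i, 22) + s (i, 23) + s (i, 19) := hc i 21
    have c22 : 1 ≤ s (i, 23) + s (i, 21) + s (i, 25) := hc i 22
    have c23 : 1 ≤ s (i, 21) + s (i, 22) + s (i, 26) := hc i 23
    have c24 : 1 ≤ s (i, 25) + s (i, 26) + s (i, 20) := hc i 24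
    have c25 : 1 ≤ s (i, 26) + s (i, 24) + s (i, 22) := hc i 25
    have c26 : 1 ≤ s (i, 24) + s (i, 25) + s (i, 23) := hc i 26
    have c27 : 1 ≤ s (i, 28) + s (i, 29) + s (i, 8) := hc i 27
    have c28 : 1 ≤ s (i, 29) + s (i, 27) + s (i, 30) := hc i 28
    have c29 : 1 ≤ s (i, 27) + s (i, 28) + s (i, 33) := hc i 29
    have c30 : 1 ≤ s (i, 31) + s (i, 32) + s (i, 28) := hc i 30
    have c31 : 1 ≤ s (i, 32) + s (i, 30) + s (i, 34) := hc i 31
    have c32 : 1 ≤ s (i, 30) + s (i, 31) + s (i, 35) := hc i 32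
    have c33 : 1 ≤ s (i, 34) + s (i, 35) + s (i, 29) := hc i 33
    have c34 : 1 ≤ s (i, 35) + s (i, 33) + s (i, 31) := hc i 34
    have c35 : 1 ≤ s (i, 33) + s (i, 34) + s (i, 32) := hc i 35
    have b9 := blob (hs _) (hs _) (hs _) (hs _) (hs _) (hs _) (hs _) (hs _) (hs _) (hs _)
      c9 c10 c11 c12 c13 c14 c15 c16 c17
    have b18 := blob (hs _) (hs _) (hs _) (hs _) (hs _) (hs _) (hs _) (hs _) (hs _) (hs _)
      c18 c19 c20 c21 c22 c23 c24 c25 c26
    have b27 := blob (hs _) (hs _) (hs _) (hs _) (hs _) (hs _) (hs _) (hs _) (hs _) (hs _)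
      c27 c28 c29 c30 c31 c32 c33 c34 c35
    have t1 := hs (i, 0)
    have t2 := hs (i, 1)
    have t3 := hs (i, 2)
    have t : 2 ≤ s (i, 0) + s (i, 1) + s (i, 2) + s (i, 3) + s (i, 6) + s (i - 1, 7) := by omega
    rw [sum36]
    omega
  have h1 := sum_le_sum (s := univ) fun i _ => key i
  have e : ∑ i, s (i - 1, 7) = ∑ i, s (i, 7) := Equiv.sum_comp (Equiv.subRight 1) (fun i => s (i, 7))
  rw [sum_add_distrib, sum_add_distrib, e, ← Fintype.sum_prod_type] at h1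
  simp only [sum_const, card_univ, ZMod.card, smul_eq_mul] at h1
  have : ∑ x, s x = S.card := by simp [s]
  omega

end Pool.Agent.H29.TD
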