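import Mathlib

set_option autoImplicit false

namespace Pool.Agent.H29.Token

/-- The token graph of a sequence `L` of placements (in chronological order): tokens are the
positions of `L`, and two different tokens are adjacent when they lie on the same vertex or on
adjacent vertices of `G`. -/
def tokenGraph {V : Type} (G : SimpleGraph V) (L : List V) : SimpleGraph (Fin L.length) where
  Adj i j := i ≠ j ∧ (L[i] = L[j] ∨ G.Adj L[i] L[j])
  symm := ⟨fun _ _ h => ⟨h.1.symm, h.2.elim (fun e => Or.inl e.symm) (fun e => Or.inr e.symm)⟩⟩
  loopless := ⟨fun _ h => h.1 rfl⟩

/-- The colour given to token `i` by the strategy `σ`, which sees the placements made up to and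
including token `i` (its own earlier colours are determined by these). -/
def colourOf {V : Type} (σ : List V → ℕ) (L : List V) (i : Fin L.length) : ℕ :=
  σ (L.take (i + 1))

/-- `σ` colours properly and uses at most `N` colours in every legal play, that is every
sequence of placements after each of which the token graph is `w`-colourable. -/
def Wins {V : Type} (G : SimpleGraph V) (w N : ℕ) (σ : List V → ℕ) : Prop :=
  ∀ L : List V, (∀ k, (tokenGraph G (L.take k)).Colorable w) →
    (∀ i j, (tokenGraph G L).Adj i j → colourOf σ L i ≠ colourOf σ L j) ∧
    (Finset.univ.image (colourOf σ L)).card ≤ N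

/-- The value `f(w,G)` of the game. -/
noncomputable def value {V : Type} (w : ℕ) (G : SimpleGraph V) : ℕ :=
  sInf {N | ∃ σ, Wins G w N σ}

end Pool.Agent.H29.Token
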