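import Mathlib
import Pool.Agent.H29.TokenDefs

set_option autoImplicit false
set_option linter.unusedSectionVars false

namespace Pool.Agent.H29.Token

open Finset

theorem exists_graph (K : ℕ) : ∃ (V : Type) (_ : Fintype V) (G : SimpleGraph V) (ρ : V → ℕ),
    (∀ v, ρ v < K) ∧ ∀ m < K, ∀ R : Set V, ∃ x, ρ x = m ∧ ∀ u, ρ u < m → (G.Adj u x ↔ u ∈ R) := by
  classical
  induction K with
  | zero => exact ⟨Empty, inferInstance, ⊥, fun _ => 0, fun v => v.elim, fun m hm => by omega⟩
  | succ K ih =>
    obtain ⟨V, _, G, ρ, h1, h2⟩ := ih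
    let A : V ⊕ Set V → V ⊕ Set V → Prop := fun a b =>
      match a, b with
      | Sum.inl u, Sum.inl v => G.Adj u v
      | Sum.inl u, Sum.inr R => u ∈ R
      | Sum.inr R, Sum.inl u => u ∈ R
      | Sum.inr _, Sum.inr _ => False
    let G' : SimpleGraph (V ⊕ Set V) :=
      { Adj := A
        symm := ⟨by
          rintro (a | a) (b | b) h
          · exact G.symm.symm _ _ h
          · exact h
          · exact h
          · exact h⟩
        loopless := ⟨by
          rintro (a | a) h
          · exact G.loopless.irrefl _ h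
          · exact h⟩ }
    refine ⟨V ⊕ Set V, inferInstance, G', Sum.elim ρ (fun _ => K), ?_, ?_⟩
    · rintro (a | a)
      · exact (h1 a).trans (Nat.lt_succ_self _)
      · exact Nat.lt_succ_self _
    · intro m hm R
      rcases Nat.lt_succ_iff_lt_or_eq.mp hm with hm | rfl
      · obtain ⟨x, hx, hx'⟩ := h2 m hm (Sum.inl ⁻¹' R)
        refine ⟨Sum.inl x, hx, ?_⟩
        rintro (u | u) hu
        · exact hx' u hu
        · simp at hu; omega
      · refine ⟨Sum.inr (Sum.inl ⁻¹' R), rfl, ?_⟩
        rintro (u | u) hu
        · exact Iff.rfl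
        · simp at hu

variable {V : Type} [DecidableEq V] {G : SimpleGraph V}

theorem wins_trivial [Fintype V] (w : ℕ) : Wins G w (Fintype.card V * w) List.length := by
  intro L hL
  constructor
  · intro i j hij h
    simp only [colourOf, List.length_take] at h
    apply hij.1
    ext
    have := i.2
    have := j.2
    omega
  · have h := hL L.length
    rw [List.take_length] at h
    obtain ⟨c⟩ := h
    refine card_image_le.trans ?_
    have : Fintype.card (Fin L.length) ≤ Fintype.card (V × Fin w) := by
      refine Fintype.card_le_of_injective (fun i => (L[i], c i)) ?_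
      intro i j hij
      simp only [Prod.mk.injEq] at hij
      by_contra hne
      exact c.valid ⟨hne, Or.inl hij.1⟩ hij.2
    simpa using this

variable (G) in
/-- bipartite history with few tokens per vertex -/
def Good (h : ℕ) (L : List V) : Prop :=
  (∀ v, L.count v ≤ h) ∧ ∃ s : V → Bool, ∀ u ∈ L, ∀ v ∈ L, G.Adj u v → s u ≠ s v

theorem Good.take {h : ℕ} {L : List V} (hL : Good G h L) (k : ℕ) : Good G h (L.take k) := by
  obtain ⟨h1, s, h2⟩ := hL
  exact ⟨fun v => ((List.take_sublist k L).count_le v).trans (h1 v), s,
    fun u hu v hv => h2 u (List.mem_of_mem_take hu) v (List.mem_of_mem_take hv)⟩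

theorem count_take_lt (L : List V) (i j : ℕ) (hi : i < L.length) (hij : i < j) :
    (L.take i).count L[i] < (L.take j).count L[i] := by
  have h1 : (L.take (i + 1)).count L[i] ≤ (L.take j).count L[i] :=
    (List.take_sublist_take_left hij).count_le _
  rw [List.take_succ_eq_append_getElem hi, List.count_append] at h1
  simp at h1
  omega

theorem Good.colorable {h w : ℕ} {L : List V} (hL : Good G h L) (hw : 2 * h ≤ w) :
    (tokenGraph G L).Colorable w := by
  obtain ⟨h1, s, h2⟩ := hL
  have hlt : ∀ i : Fin L.length, (L.take i).count L[i] < h := by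
    intro i
    have := count_take_lt L i L.length i.2 i.2
    rw [List.take_length] at this
    exact this.trans_le (h1 _)
  let c : (tokenGraph G L).Coloring (Bool × Fin h) :=
    SimpleGraph.Coloring.mk (fun i => (s L[i], ⟨_, hlt i⟩)) (by
      rintro i j ⟨hne, he | ha⟩ hc
      · simp only [Prod.mk.injEq, Fin.mk.injEq] at hc
        have hne' : (i : ℕ) ≠ j := fun h => hne (Fin.ext h)
        rcases lt_or_gt_of_ne hne' with hlt | hlt
        · have := count_take_lt L i j i.2 hlt
          have h3 := hc.2
          rw [← he] at h3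
          exact absurd h3 this.ne
        · have := count_take_lt L j i j.2 hlt
          have h3 := hc.2
          rw [he] at h3
          exact absurd h3.symm this.ne
      · simp only [Prod.mk.injEq] at hc
        exact h2 _ (List.getElem_mem _) _ (List.getElem_mem _) ha hc.1)
  have := c.colorable
  simp only [Fintype.card_prod, Fintype.card_bool, Fintype.card_fin] at this
  exact this.mono hw

open Classical in
/-- colours on tokens lying on vertices of `R` -/
noncomputable def col (σ : List V → ℕ) (L : List V) (R : Set V) : Finset ℕ :=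
  (univ.filter (fun i : Fin L.length => L[i] ∈ R)).image (colourOf σ L)

theorem mem_col {σ : List V → ℕ} {L : List V} {R : Set V} {c : ℕ} :
    c ∈ col σ L R ↔ ∃ i : Fin L.length, L[i] ∈ R ∧ colourOf σ L i = c := by
  simp [col]

theorem col_mono (σ : List V → ℕ) (L M : List V) {R R' : Set V} (h : R ⊆ R') :
    col σ L R ⊆ col σ (L ++ M) R' := by
  intro c hc
  obtain ⟨i, hi, rfl⟩ := mem_col.mp hc
  refine mem_col.mpr ⟨⟨i, by have := i.2; simp; omega⟩, ?_, ?_⟩
  · apply h
    simpa [List.getElem_append_left i.2] using hi
  · simp only [colourOf]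
    rw [List.take_append_of_le_length (by have := i.2; omega)]

theorem good_append {h m : ℕ} {ρ : V → ℕ} {L M : List V} (hL : Good G h L)
    (h0 : ∀ v ∈ L, ρ v < m) (h1 : ∀ v ∈ M, m ≤ ρ v) (h2 : ∀ u ∈ L, ∀ v ∈ M, ¬ G.Adj u v)
    (h3 : ∀ v, M.count v ≤ h) (s : V → Bool) (h4 : ∀ u ∈ M, ∀ v ∈ M, G.Adj u v → s u ≠ s v) :
    Good G h (L ++ M) := by
  obtain ⟨a1, s0, a2⟩ := hL
  constructor
  · intro v
    rw [List.count_append]
    by_cases hv : v ∈ L
    · have : v ∉ M := fun hM => by have := h0 v hv; have := h1 v hM; omega
      rw [List.count_eq_zero_of_not_mem this]; exact a1 v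
    · rw [List.count_eq_zero_of_not_mem hv, zero_add]; exact h3 v
  · refine ⟨fun v => if ρ v < m then s0 v else s v, ?_⟩
    intro u hu v hv huv
    rcases List.mem_append.mp hu with hu | hu <;> rcases List.mem_append.mp hv with hv | hv
    · simp only [h0 u hu, h0 v hv, if_true]; exact a2 u hu v hv huv
    · exact absurd huv (h2 u hu v hv)
    · exact absurd huv.symm (h2 v hv u hu)
    · simp only [not_lt.mpr (h1 u hu), not_lt.mpr (h1 v hv), if_false]; exact h4 u hu v hv huv

theorem step {h w N K : ℕ} {σ : List V → ℕ} (hσ : Wins G w N σ) (hw : 2 * h ≤ w) (ρ : V → ℕ)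
    (hext : ∀ m < K, ∀ R : Set V, ∃ x, ρ x = m ∧ ∀ u, ρ u < m → (G.Adj u x ↔ u ∈ R)) (j : ℕ) :
    ∀ m, m + (2 ^ j - 1) ≤ K → ∀ L : List V, (∀ v ∈ L, ρ v < m) → Good G h L →
      ∃ (M : List V) (s : V → Bool), (∀ v ∈ M, m ≤ ρ v ∧ ρ v < m + (2 ^ j - 1)) ∧
        (∀ u ∈ L, ∀ v ∈ M, ¬ G.Adj u v) ∧ (∀ v, M.count v ≤ h) ∧
        (∀ u ∈ M, ∀ v ∈ M, G.Adj u v → s u ≠ s v) ∧
        j * h ≤ 2 * (col σ (L ++ M) {v | v ∈ M ∧ s v = true}).card := by
  induction j with
  | zero =>
    intro m _ L _ _
    exact ⟨[], fun _ => true, by simp, by simp, by simp, by simp, by simp⟩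
  | succ j ih =>
    intro m hm L hL hG
    have hpos : 1 ≤ 2 ^ j := Nat.one_le_two_pow
    have ht : 2 ^ (j + 1) - 1 = 2 * (2 ^ j - 1) + 1 := by rw [pow_succ]; omega
    rw [ht] at hm ⊢
    set t := 2 ^ j - 1 with htdef
    obtain ⟨M1, s1, a1, a2, a3, a4, a5⟩ := ih m (by omega) L hL hG
    have hG1 : Good G h (L ++ M1) := good_append hG hL (fun v hv => (a1 v hv).1) a2 a3 s1 a4
    have hL1 : ∀ v ∈ L ++ M1, ρ v < m + t := by
      intro v hv
      rcases List.mem_append.mp hv with hv | hv
      · have := hL v hv; omega
      · exact (a1 v hv).2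
    obtain ⟨M2, s2, b1, b2, b3, b4, b5⟩ := ih (m + t) (by omega) (L ++ M1) hL1 hG1
    have hcount12 : ∀ v, (M1 ++ M2).count v ≤ h := by
      intro v
      rw [List.count_append]
      by_cases hv : v ∈ M1
      · have : v ∉ M2 := fun hM => by have := a1 v hv; have := b1 v hM; omega
        rw [List.count_eq_zero_of_not_mem this]; exact a3 v
      · rw [List.count_eq_zero_of_not_mem hv, zero_add]; exact b3 v
    set C1 := col σ (L ++ M1) {v | v ∈ M1 ∧ s1 v = true} with hC1
    set C2 := col σ (L ++ M1 ++ M2) {v | v ∈ M2 ∧ s2 v = true} with hC2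
    by_cases hcase : (j + 1) * h ≤ 2 * (C1 ∪ C2).card
    · refine ⟨M1 ++ M2, fun v => if ρ v < m + t then s1 v else s2 v, ?_, ?_, hcount12, ?_, ?_⟩
      · intro v hv
        rcases List.mem_append.mp hv with hv | hv
        · have := a1 v hv; omega
        · have := b1 v hv; omega
      · intro u hu v hv
        rcases List.mem_append.mp hv with hv | hv
        · exact a2 u hu v hv
        · exact b2 u (List.mem_append_left _ hu) v hv
      · intro u hu v hv huv
        rcases List.mem_append.mp hu with hu | hu <;> rcases List.mem_append.mp hv with hv | hv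
        · simp only [(a1 u hu).2, (a1 v hv).2, if_true]; exact a4 u hu v hv huv
        · exact absurd huv (b2 u (List.mem_append_right _ hu) v hv)
        · exact absurd huv.symm (b2 v (List.mem_append_right _ hv) u hu)
        · simp only [not_lt.mpr (b1 u hu).1, not_lt.mpr (b1 v hv).1, if_false]
          exact b4 u hu v hv huv
      · refine hcase.trans (Nat.mul_le_mul_left _ (card_le_card (union_subset ?_ ?_)))
        · rw [← List.append_assoc]
          refine col_mono σ _ _ ?_
          rintro v ⟨hv, hs⟩
          exact ⟨List.mem_append_left _ hv, by simp only [(a1 v hv).2, if_true]; exact hs⟩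
        · rw [← List.append_assoc, ← List.append_nil (L ++ M1 ++ M2)]
          refine col_mono σ _ _ ?_
          rintro v ⟨hv, hs⟩
          exact ⟨List.mem_append_right _ hv, by
            simp only [not_lt.mpr (b1 v hv).1, if_false]; exact hs⟩
    · obtain ⟨x, hx, hx'⟩ := hext (m + 2 * t) (by omega) {v | v ∈ M1 ∧ s1 v = true}
      let s : V → Bool := fun v =>
        if ρ v < m + t then !s1 v else if ρ v < m + 2 * t then s2 v else true
      have e1 : ∀ v ∈ M1, s v = !s1 v := fun v hv => by simp only [s, (a1 v hv).2, if_true]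
      have e2 : ∀ v ∈ M2, s v = s2 v := fun v hv => by
        have h5 : ρ v < m + 2 * t := by have := b1 v hv; omega
        simp only [s, not_lt.mpr (b1 v hv).1, h5, if_true, if_false]
      have e3 : s x = true := by
        have h5 : ¬ ρ x < m + t := by omega
        have h6 : ¬ ρ x < m + 2 * t := by omega
        simp only [s, h5, h6, if_false]
      have hmem : ∀ v ∈ M1 ++ M2 ++ List.replicate h x, v ∈ M1 ∨ v ∈ M2 ∨ v = x := by
        intro v hv
        rcases List.mem_append.mp hv with hv | hv
        · rcases List.mem_append.mp hv with hv | hv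
          · exact Or.inl hv
          · exact Or.inr (Or.inl hv)
        · exact Or.inr (Or.inr (List.eq_of_mem_replicate hv))
      have c1 : ∀ v ∈ M1 ++ M2 ++ List.replicate h x, m ≤ ρ v ∧ ρ v < m + (2 * t + 1) := by
        intro v hv
        rcases hmem v hv with hv | hv | rfl
        · have := a1 v hv; omega
        · have := b1 v hv; omega
        · omega
      have c2 : ∀ u ∈ L, ∀ v ∈ M1 ++ M2 ++ List.replicate h x, ¬ G.Adj u v := by
        intro u hu v hv
        rcases hmem v hv with hv | hv | rfl
        · exact a2 u hu v hv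
        · exact b2 u (List.mem_append_left _ hu) v hv
        · intro hadj
          have h5 := hL u hu
          have := a1 u ((hx' u (by omega)).mp hadj).1
          omega
      have c3 : ∀ v, (M1 ++ M2 ++ List.replicate h x).count v ≤ h := by
        intro v
        rw [List.count_append]
        by_cases hv : v = x
        · have : v ∉ M1 ++ M2 := by
            intro hM
            rcases List.mem_append.mp hM with hM | hM
            · have := a1 v hM; rw [hv] at this; omega
            · have := b1 v hM; rw [hv] at this; omega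
          rw [List.count_eq_zero_of_not_mem this, hv]; simp
        · have : v ∉ List.replicate h x := fun hM => hv (List.eq_of_mem_replicate hM)
          rw [List.count_eq_zero_of_not_mem this]; exact hcount12 v
      have hx1 : ∀ u ∈ M1, G.Adj u x → s u ≠ s x := by
        intro u hu hadj
        have h5 := a1 u hu
        have := ((hx' u (by omega)).mp hadj).2
        rw [e1 u hu, e3, this]; simp
      have hx2 : ∀ u ∈ M2, ¬ G.Adj u x := by
        intro u hu hadj
        have h5 := b1 u hu
        have := a1 u ((hx' u (by omega)).mp hadj).1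
        omega
      have c4 : ∀ u ∈ M1 ++ M2 ++ List.replicate h x, ∀ v ∈ M1 ++ M2 ++ List.replicate h x,
          G.Adj u v → s u ≠ s v := by
        intro u hu0 v hv0 huv
        rcases hmem u hu0 with hu | hu | hu <;> rcases hmem v hv0 with hv | hv | hv
        · rw [e1 u hu, e1 v hv]; simpa using a4 u hu v hv huv
        · exact absurd huv (b2 u (List.mem_append_right _ hu) v hv)
        · rw [hv] at huv ⊢; exact hx1 u hu huv
        · exact absurd huv.symm (b2 v (List.mem_append_right _ hv) u hu)
        · rw [e2 u hu, e2 v hv]; exact b4 u hu v hv huv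
        · rw [hv] at huv; exact absurd huv (hx2 u hu)
        · rw [hu] at huv ⊢; exact (hx1 v hv huv.symm).symm
        · rw [hu] at huv; exact absurd huv.symm (hx2 v hv)
        · rw [hu, hv] at huv; exact absurd huv (G.loopless.irrefl _)
      refine ⟨M1 ++ M2 ++ List.replicate h x, s, c1, c2, c3, c4, ?_⟩
      have hG3 : Good G h (L ++ (M1 ++ M2 ++ List.replicate h x)) :=
        good_append hG hL (fun v hv => (c1 v hv).1) c2 c3 s c4
      have hassoc : L ++ (M1 ++ M2 ++ List.replicate h x) =
          (L ++ M1 ++ M2) ++ List.replicate h x := by simp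
      rw [hassoc] at hG3 ⊢
      set L2 := L ++ M1 ++ M2 with hL2
      have hprop := (hσ _ (fun k => (hG3.take k).colorable hw)).1
      set X := col σ (L2 ++ List.replicate h x) {x} with hX
      have hXcard : h ≤ X.card := by
        let e : Fin h → Fin (L2 ++ List.replicate h x).length :=
          fun i => ⟨L2.length + i, by have := i.2; simp⟩
        have he : ∀ i, (L2 ++ List.replicate h x)[e i] = x := by
          intro i
          simp [e]
        have := Finset.card_le_card_of_injOn (s := (univ : Finset (Fin h))) (t := X)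
          (fun i => colourOf σ _ (e i)) (fun i _ => mem_col.mpr ⟨e i, he i, rfl⟩) (by
            intro i _ i' _ hii
            by_contra hne
            refine hprop (e i) (e i') ⟨?_, Or.inl ((he i).trans (he i').symm)⟩ hii
            intro h5
            apply hne
            simp only [e, Fin.mk.injEq] at h5
            ext; omega)
        simpa using this
      have hC1' : C1 ⊆ col σ (L2 ++ List.replicate h x) {v | v ∈ M1 ∧ s1 v = true} := by
        rw [hL2, List.append_assoc (L ++ M1)]
        exact col_mono σ _ _ subset_rfl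
      have hdisj : Disjoint X C1 := by
        rw [Finset.disjoint_left]
        intro c hc hc1
        obtain ⟨i, hi, hic⟩ := mem_col.mp hc
        obtain ⟨i', hi', hic'⟩ := mem_col.mp (hC1' hc1)
        have h5 := a1 _ hi'.1
        have hadj := (hx' _ (by omega)).mpr hi'
        have hi2 : (L2 ++ List.replicate h x)[i] = x := hi
        refine hprop i' i ⟨?_, Or.inr (by rw [hi2]; exact hadj)⟩ (hic'.trans hic.symm)
        rintro rfl
        rw [hi2] at hadj
        exact G.loopless.irrefl _ hadj
      have hsub : C2 ∪ X ⊆ col σ (L2 ++ List.replicate h x)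
          {v | v ∈ M1 ++ M2 ++ List.replicate h x ∧ s v = true} := by
        refine union_subset (col_mono σ _ _ ?_) ?_
        · rintro v ⟨hv, hs⟩
          exact ⟨List.mem_append_left _ (List.mem_append_right _ hv), by rw [e2 v hv]; exact hs⟩
        · intro c hc
          obtain ⟨i, hi, hic⟩ := mem_col.mp hc
          have hi2 : (L2 ++ List.replicate h x)[i] = x := hi
          refine mem_col.mpr ⟨i, ?_, hic⟩
          rw [hi2]
          refine ⟨List.mem_append_right _ (List.mem_replicate.mpr ⟨?_, rfl⟩), e3⟩
          rintro rfl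
          simp at hcase
      have k1 := card_le_card hsub
      have k2 := card_union_add_card_inter C2 X
      have k3 : (C2 ∩ X).card ≤ (C2 \ C1).card := by
        refine card_le_card ?_
        intro c hc
        exact mem_sdiff.mpr ⟨(mem_inter.mp hc).1, Finset.disjoint_left.mp hdisj (mem_inter.mp hc).2⟩
      have k4 := card_sdiff_add_card C2 C1
      rw [union_comm C2 C1] at k4
      rw [add_mul, one_mul] at hcase ⊢
      omega

theorem lower (j : ℕ) : ∃ (V : Type) (_ : Fintype V) (G : SimpleGraph V),
    ∀ w, j * (w / 2) ≤ 2 * value w G := by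
  classical
  obtain ⟨V, _, G, ρ, _, hext⟩ := exists_graph (2 ^ j - 1)
  refine ⟨V, inferInstance, G, fun w => ?_⟩
  obtain ⟨σ, hσ⟩ := Nat.sInf_mem (s := {N | ∃ σ, Wins G w N σ}) ⟨_, _, wins_trivial w⟩
  have hw : 2 * (w / 2) ≤ w := Nat.mul_div_le w 2
  obtain ⟨M, s, _, _, c3, c4, c5⟩ := step hσ hw ρ hext j 0 (by omega) [] (by simp)
    ⟨by simp, fun _ => true, by simp⟩
  have hG : Good G (w / 2) ([] ++ M) := ⟨c3, s, c4⟩
  have h1 := (hσ _ (fun k => (hG.take k).colorable hw)).2
  refine c5.trans (Nat.mul_le_mul_left _ (le_trans (card_le_card ?_) h1))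
  intro c hc
  obtain ⟨i, _, hi⟩ := mem_col.mp hc
  exact mem_image.mpr ⟨i, mem_univ _, hi⟩

end Pool.Agent.H29.Token
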