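import Mathlib

set_option autoImplicit false

namespace Pool.Agent.H29.UltraRetract

open Set

/-- two-colouring along a decreasing map -/
theorem two_colour (π : ℕ → ℕ) (D : Set ℕ) (h : ∀ n ∈ D, π n < n) :
    ∃ χ : ℕ → Bool, ∀ n ∈ D, χ n ≠ χ (π n) := by
  classical
  let χ : ℕ → Bool := fun n => Nat.strongRec (motive := fun _ => Bool)
    (fun n ih => if hn : n ∈ D then !(ih (π n) (h n hn)) else true) n
  refine ⟨χ, fun n hn => ?_⟩
  have : χ n = !(χ (π n)) := by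
    simp only [χ]
    rw [Nat.strongRec_eq]
    simp [hn]
  rw [this]; simp

theorem lemA (U : Ultrafilter ℕ) (hU : ∀ n : ℕ, U ≠ pure n) (W : Set ℕ → Set ℕ)
    (hW : ∀ A ∈ U, W A ∈ U) (hmono : ∀ A ∈ U, ∀ B, A ⊆ B → W A ⊆ W B) :
    {y | ∃ Z, Z ∉ U ∧ ∀ A ∈ U, Z ⊆ A → y ∈ W A} ∈ U := by
  classical
  have hfin : ∀ s : Set ℕ, s.Finite → s ∉ U := by
    intro s hs hsU
    obtain ⟨x, _, hx⟩ := Ultrafilter.eq_pure_of_finite_mem hs hsU
    exact hU x hx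
  by_contra hD
  rw [← Ultrafilter.compl_mem_iff_notMem] at hD
  set D := {y | ∃ Z, Z ∉ U ∧ ∀ A ∈ U, Z ⊆ A → y ∈ W A}ᶜ with hDdef
  have hA : ∀ (y : ℕ) (Z : {Z : Set ℕ // Z ∉ U}), ∃ A ∈ U, Z.1 ⊆ A ∧ Iic y ⊆ A ∧
      (y ∈ D → y ∉ W A) := by
    intro y Z
    by_cases hy : y ∈ D
    · have hy' : ¬ ∃ Z, Z ∉ U ∧ ∀ A ∈ U, Z ⊆ A → y ∈ W A := hy
      push Not at hy'
      obtain ⟨A, h1, h2, h3⟩ := hy' (Z.1 ∪ Iic y) (by
        rw [Ultrafilter.union_mem_iff]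
        exact fun h => h.elim Z.2 (hfin _ (finite_Iic y)))
      exact ⟨A, h1, subset_union_left.trans h2, subset_union_right.trans h2, fun _ => h3⟩
    · exact ⟨univ, Filter.univ_mem, subset_univ _, subset_univ _, fun h => absurd h hy⟩
  choose A hA1 hA2 hA3 hA4 using hA
  let F : ℕ → {Z : Set ℕ // Z ∉ U} := fun n => Nat.rec ⟨∅, Filter.empty_notMem _⟩
    (fun y Z => ⟨Z.1 ∪ (A y Z)ᶜ, by
      rw [Ultrafilter.union_mem_iff]
      exact fun h => h.elim Z.2 (Ultrafilter.compl_notMem_iff.mpr (hA1 y Z))⟩) n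
  have hF : ∀ y, (F (y + 1)).1 = (F y).1 ∪ (A y (F y))ᶜ := fun y => rfl
  have hFm : Monotone (fun y => (F y).1) :=
    monotone_nat_of_le_succ (fun y => by rw [hF]; exact subset_union_left)
  have huniq : ∀ n y y', n ∉ A y (F y) → n ∉ A y' (F y') → y = y' := by
    have key : ∀ n y y', y < y' → n ∉ A y (F y) → n ∈ A y' (F y') := by
      intro n y y' hlt h1
      apply hA2
      apply hFm (Nat.succ_le_of_lt hlt)
      change n ∈ (F (y + 1)).1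
      rw [hF]; exact Or.inr h1
    intro n y y' h1 h2
    rcases lt_trichotomy y y' with h | h | h
    · exact absurd (key n y y' h h1) h2
    · exact h
    · exact absurd (key n y' y h h2) h1
  let π : ℕ → ℕ := fun n => if h : ∃ y, n ∉ A y (F y) then h.choose else 0
  have hπ : ∀ n y, n ∉ A y (F y) → π n = y := by
    intro n y h
    have h' : ∃ y, n ∉ A y (F y) := ⟨y, h⟩
    simp only [π, dif_pos h']
    exact huniq n _ _ h'.choose_spec h
  obtain ⟨χ, hχ⟩ := two_colour π {n | ∃ y, n ∉ A y (F y)} (by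
    rintro n ⟨y, hy⟩
    rw [hπ n y hy]
    by_contra hle
    exact hy (hA3 y _ (not_lt.mp hle)))
  obtain ⟨b, hb⟩ : ∃ b, {n | χ n = b} ∈ U := by
    by_cases h : {n | χ n = true} ∈ U
    · exact ⟨true, h⟩
    · refine ⟨false, ?_⟩
      rw [← Ultrafilter.compl_mem_iff_notMem] at h
      convert h using 1
      ext n; simp
  have h1 : {n | χ n = b} ∩ D ∩ W {n | χ n = b} ∈ U :=
    Filter.inter_mem (Filter.inter_mem hb hD) (hW _ hb)
  obtain ⟨y, ⟨hy1, hy2⟩, hy3⟩ := Ultrafilter.nonempty_of_mem h1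
  apply hA4 y (F y) hy2
  refine hmono _ hb _ ?_ hy3
  intro n hn
  by_contra hnA
  have := hχ n ⟨y, hnA⟩
  rw [hπ n y hnA] at this
  exact this (hn.trans hy1.symm)

theorem lemB (U : Ultrafilter ℕ) (hU : ∀ n : ℕ, U ≠ pure n) (W : Set ℕ → Set ℕ)
    (hW : ∀ A ∈ U, W A ∈ U) (hmono : ∀ A ∈ U, ∀ B, A ⊆ B → W A ⊆ W B) (T : Set ℕ) (hT : T ∉ U) :
    ∃ y Z, Z ∉ U ∧ Disjoint Z T ∧ ∀ A ∈ U, Z ⊆ A → y ∈ W A := by
  have hT' : Tᶜ ∈ U := Ultrafilter.compl_mem_iff_notMem.mpr hT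
  have := lemA U hU (fun A => W (A ∩ Tᶜ)) (fun A hA => hW _ (Filter.inter_mem hA hT'))
    (fun A hA B hAB => hmono _ (Filter.inter_mem hA hT') _ (inter_subset_inter_left _ hAB))
  obtain ⟨y, Z, hZ, h⟩ := Ultrafilter.nonempty_of_mem this
  refine ⟨y, Z \ T, fun h => hZ (Filter.mem_of_superset h sdiff_subset), disjoint_sdiff_left, ?_⟩
  intro A hA hZA
  have hAT : A ∪ T ∈ U := Filter.mem_of_superset hA subset_union_left
  have h1 := h (A ∪ T) hAT (by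
    intro x hx
    by_cases hxT : x ∈ T
    · exact Or.inr hxT
    · exact Or.inl (hZA ⟨hx, hxT⟩))
  refine hmono _ (Filter.inter_mem hAT hT') _ ?_ h1
  rintro x ⟨hx | hx, hx'⟩
  · exact hx
  · exact absurd hx hx'

theorem lemC (U : Ultrafilter ℕ) (hU : ∀ n : ℕ, U ≠ pure n) (W : Set ℕ → Set ℕ)
    (hW : ∀ A ∈ U, W A ∈ U) (hmono : ∀ A ∈ U, ∀ B, A ⊆ B → W A ⊆ W B) :
    ∃ (y : ℕ → ℕ) (Z : ℕ → Set ℕ), (⋃ j, Z j) ∉ U ∧ (∀ i j, i ≠ j → Disjoint (Z i) (Z j)) ∧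
      ∀ j, ∀ A ∈ U, Z j ⊆ A → y j ∈ W A := by
  have h := fun T : {T : Set ℕ // T ∉ U} => lemB U hU W hW hmono T.1 T.2
  choose y Z h1 h2 h3 using h
  let F : ℕ → {T : Set ℕ // T ∉ U} := fun n => Nat.rec ⟨∅, Filter.empty_notMem _⟩
    (fun _ T => ⟨T.1 ∪ Z T, by
      rw [Ultrafilter.union_mem_iff]
      exact fun h => h.elim T.2 (h1 T)⟩) n
  have hF : ∀ j, (F (j + 1)).1 = (F j).1 ∪ Z (F j) := fun y => rfl
  have hFm : Monotone (fun y => (F y).1) :=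
    monotone_nat_of_le_succ (fun y => by rw [hF]; exact subset_union_left)
  have hdis : ∀ i j, i ≠ j → Disjoint (Z (F i)) (Z (F j)) := by
    have key : ∀ i j, i < j → Disjoint (Z (F i)) (Z (F j)) := by
      intro i j hij
      refine Disjoint.mono_left ?_ (h2 (F j)).symm
      refine subset_trans ?_ (hFm (Nat.succ_le_of_lt hij))
      change _ ⊆ (F (i + 1)).1
      rw [hF]; exact subset_union_right
    intro i j hij
    rcases lt_or_gt_of_ne hij with h | h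
    · exact key i j h
    · exact (key j i h).symm
  by_cases hE : (⋃ j, Z (F (2 * j))) ∈ U
  · refine ⟨fun j => y (F (2 * j + 1)), fun j => Z (F (2 * j + 1)), ?_,
      fun i j hij => hdis (2 * i + 1) (2 * j + 1) (by omega), fun j => h3 _⟩
    intro hO
    obtain ⟨x, hx1, hx2⟩ := Ultrafilter.nonempty_of_mem (Filter.inter_mem hE hO)
    obtain ⟨i, hi⟩ := mem_iUnion.mp hx1
    obtain ⟨j, hj⟩ := mem_iUnion.mp hx2
    exact Set.disjoint_left.mp (hdis (2 * i) (2 * j + 1) (by omega)) hi hj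
  · exact ⟨fun j => y (F (2 * j)), fun j => Z (F (2 * j)), hE,
      fun i j hij => hdis (2 * i) (2 * j) (by omega), fun j => h3 _⟩

theorem main (U : Ultrafilter ℕ) (hU : ∀ n : ℕ, U ≠ pure n)
    (f : {s : Set ℕ // s ∈ U} → {s : Set ℕ // s ∈ U}) (hf : Monotone f)
    (hlb : ¬ ∃ y : {s : Set ℕ // s ∈ U}, y ∈ Set.range f ∧
      ∀ c : {s : Set ℕ // s ∈ U},
        (c.1 ≠ Set.univ ∧ ∀ t : {s : Set ℕ // s ∈ U}, c.1 ⊆ t.1 → t.1 = c.1 ∨ t.1 = Set.univ) →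
        y ≤ f c) :
    ∃ g : ↥(Set.range f) → {s : Set ℕ // s ∈ U},
      ∃ h : {s : Set ℕ // s ∈ U} → ↥(Set.range f),
        Monotone g ∧ Monotone h ∧ ∀ x, g (h x) = x := by
  have hc : ∀ n : ℕ, ({n}ᶜ : Set ℕ) ∈ U := by
    intro n
    rw [Ultrafilter.compl_mem_iff_notMem]
    intro h
    obtain ⟨x, _, hx⟩ := Ultrafilter.eq_pure_of_finite_mem (finite_singleton n) h
    exact hU x hx
  let c : ℕ → {s : Set ℕ // s ∈ U} := fun n => ⟨{n}ᶜ, hc n⟩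
  have hle : ∀ (A : {s : Set ℕ // s ∈ U}) (n : ℕ), n ∉ A.1 → f A ≤ f (c n) := by
    intro A n hn
    apply hf
    intro x hx hxn
    exact hn ((mem_singleton_iff.mp hxn) ▸ hx)
  have F0 : ∀ A, {n | ¬ f A ≤ f (c n)} ∈ U := by
    intro A
    by_contra h
    rw [← Ultrafilter.compl_mem_iff_notMem] at h
    apply hlb
    let B : {s : Set ℕ // s ∈ U} := ⟨A.1 ∩ {n | ¬ f A ≤ f (c n)}ᶜ, Filter.inter_mem A.2 h⟩
    refine ⟨f B, ⟨B, rfl⟩, ?_⟩
    rintro d ⟨hd1, hd2⟩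
    obtain ⟨n, hn⟩ := (ne_univ_iff_exists_notMem _).mp hd1
    have hdc : d = c n := by
      rcases hd2 (c n) (fun x hx hxn => hn ((mem_singleton_iff.mp hxn) ▸ hx)) with h1 | h1
      · exact Subtype.ext h1.symm
      · have : n ∈ (c n).1 := h1 ▸ mem_univ n
        exact absurd rfl this
    rw [hdc]
    by_cases hn' : f A ≤ f (c n)
    · exact (hf (show B ≤ A from inter_subset_left)).trans hn'
    · exact hle B n (fun h => h.2 hn')
  let W : Set ℕ → Set ℕ := fun A => {n | ∀ hA : A ∈ U, ¬ f ⟨A, hA⟩ ≤ f (c n)}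
  have hW : ∀ A ∈ U, W A ∈ U := fun A hA =>
    Filter.mem_of_superset (F0 ⟨A, hA⟩) (fun n hn _ => hn)
  have hmono : ∀ A ∈ U, ∀ B, A ⊆ B → W A ⊆ W B := by
    intro A hA B hAB n hn hB h
    exact hn hA ((hf (show (⟨A, hA⟩ : {s : Set ℕ // s ∈ U}) ≤ ⟨B, hB⟩ from hAB)).trans h)
  obtain ⟨y, Z, hY, hdis, hsafe⟩ := lemC U hU W hW hmono
  set Y := ⋃ j, Z j with hYdef
  have hY' : Yᶜ ∈ U := Ultrafilter.compl_mem_iff_notMem.mpr hY
  have hyZ : ∀ j, y j ∈ Z j := by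
    intro j
    by_contra h
    exact hsafe j _ (hc (y j)) (fun x hx hxy => h ((mem_singleton_iff.mp hxy) ▸ hx)) (hc _) le_rfl
  let H : {s : Set ℕ // s ∈ U} → {s : Set ℕ // s ∈ U} := fun A =>
    ⟨{n | (n ∈ A.1 ∨ n ∈ Y) ∧ ∀ j, y j = n → j ∈ A.1}, by
      refine Filter.mem_of_superset (Filter.inter_mem A.2 hY') ?_
      rintro n ⟨h1, h2⟩
      exact ⟨Or.inl h1, fun j hj => absurd (mem_iUnion.mpr ⟨j, hj ▸ hyZ j⟩) h2⟩⟩
  refine ⟨fun X => ⟨{n | ¬ X.1 ≤ f (c (y n)) ∨ (n ∉ Y ∧ ¬ X.1 ≤ f (c n))}, ?_⟩,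
    fun A => ⟨f (H A), H A, rfl⟩, ?_, ?_, ?_⟩
  · obtain ⟨X, A, rfl⟩ := X
    exact Filter.mem_of_superset (Filter.inter_mem hY' (F0 A)) (fun n hn => Or.inr hn)
  · intro X X' hX n hn
    have hX' : X.1 ≤ X'.1 := hX
    rcases hn with hn | hn
    · exact Or.inl (fun h => hn (hX'.trans h))
    · exact Or.inr ⟨hn.1, fun h => hn.2 (hX'.trans h)⟩
  · intro A B hAB
    apply hf
    rintro n ⟨h1, h2⟩
    exact ⟨h1.elim (fun h => Or.inl (hAB h)) Or.inr, fun j hj => hAB (h2 j hj)⟩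
  · intro A
    apply Subtype.ext
    ext n
    constructor
    · intro hn
      by_contra hnA
      rcases hn with hn | hn
      · exact hn (hle _ _ (fun h => hnA (h.2 n rfl)))
      · exact hn.2 (hle _ _ (fun h => h.1.elim hnA hn.1))
    · intro hn
      left
      refine hsafe n (H A).1 (H A).2 ?_ (H A).2
      intro m hm
      refine ⟨Or.inr (mem_iUnion.mpr ⟨n, hm⟩), fun j hj => ?_⟩
      by_cases hjn : j = n
      · exact hjn ▸ hn
      · exact absurd hm (Set.disjoint_left.mp (hdis j n hjn) (hj ▸ hyZ j))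

end Pool.Agent.H29.UltraRetract
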