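import Mathlib

set_option autoImplicit false

namespace Pool.Agent.H29.WalkNR

/-- `c` is a `p`-tuple walk-nonrepetitive `q`-colouring; a walk with `2 l` vertices is
`w 0, …, w (2 l - 1)` -/
def IsWNR {V : Type} (G : SimpleGraph V) (p q : ℕ) (c : V → Finset (Fin q)) : Prop :=
  (∀ v, (c v).card = p) ∧
    ∀ l : ℕ, 1 ≤ l → ∀ w : ℕ → V, (∀ i, i + 1 < 2 * l → G.Adj (w i) (w (i + 1))) →
      (¬ ∀ i, i < l → w i = w (l + i)) →
      ∀ a : ℕ → Fin q, (∀ i, i < 2 * l → a i ∈ c (w i)) → ¬ ∀ i, i < l → a i = a (l + i)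

/-- fractional walk-nonrepetitive chromatic number -/
noncomputable def piW {V : Type} (G : SimpleGraph V) : ℝ :=
  sInf {x : ℝ | ∃ p q : ℕ, 1 ≤ p ∧ p < q ∧ (∃ c, IsWNR G p q c) ∧ x = (q : ℝ) / p}

end Pool.Agent.H29.WalkNR
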