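import Mathlib
import Pool.Agent.H29.WalkNRDefs
import Pool.Agent.H29.SqFree

set_option autoImplicit false

namespace Pool.Agent.H29.WalkNR

theorem ivt (W : ℕ → ℕ) (k : ℕ) (h : ∀ i, i < k → W i + 1 = W (i + 1) ∨ W (i + 1) + 1 = W i)
    (x : ℕ) (hx : (W 0 ≤ x ∧ x ≤ W k) ∨ (W k ≤ x ∧ x ≤ W 0)) : ∃ i, i ≤ k ∧ W i = x := by
  induction k with
  | zero => exact ⟨0, le_rfl, by omega⟩
  | succ k ih =>
    by_cases h1 : W (k + 1) = x
    · exact ⟨k + 1, le_rfl, h1⟩
    · have h2 := h k (by omega)
      obtain ⟨i, hi, h3⟩ := ih (fun i hi => h i (by omega)) (by omega)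
      exact ⟨i, by omega, h3⟩

theorem boring (n : ℕ) (φ : ℕ → ℕ)
    (sq : ∀ i p, 1 ≤ p → i + 2 * p ≤ n → ¬ ∀ j, j < p → φ (i + j) = φ (i + p + j))
    (aba : ∀ i, i + 2 < n → φ i ≠ φ (i + 2)) (l : ℕ) (hl : 1 ≤ l) (W : ℕ → ℕ)
    (hn : ∀ i, W i < n)
    (h : ∀ i, i + 1 < 2 * l → W i + 1 = W (i + 1) ∨ W (i + 1) + 1 = W i)
    (hr : ∀ i, i < l → φ (W i) = φ (W (l + i))) : ∀ i, i < l → W i = W (l + i) := by
  have one : ∀ i, i + 1 < n → φ i ≠ φ (i + 1) := fun i hi he =>
    sq i 1 le_rfl (by omega) fun j hj => by obtain rfl : j = 0 := by omega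
                                            exact he
  have turn : ∀ i, i + 2 < 2 * l → (φ (W i) = φ (W (i + 2)) ↔ W i = W (i + 2)) := by
    intro i hi
    refine ⟨fun he => ?_, fun he => by rw [he]⟩
    have h1 := h i (by omega)
    have h2 : W (i + 1) + 1 = W (i + 2) ∨ W (i + 2) + 1 = W (i + 1) := h (i + 1) (by omega)
    by_contra hne
    have h3 := hn i
    have h4 := hn (i + 2)
    rcases (show W (i + 2) = W i + 2 ∨ W i = W (i + 2) + 2 by omega) with h5 | h5
    · exact aba (W i) (by omega) (h5 ▸ he)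
    · exact aba (W (i + 2)) (by omega) (h5 ▸ he.symm)
  have turn2 : ∀ i, i + 2 < l → (W i = W (i + 2) ↔ W (l + i) = W (l + i + 2)) := by
    intro i hi
    rw [← turn i (by omega), ← turn (l + i) (by omega), hr i (by omega), hr (i + 2) hi]
    rfl
  have iv := ivt W (l - 1) (fun i hi => h i (by omega))
  have hlast : W (l - 1) + 1 = W l ∨ W l + 1 = W (l - 1) := by
    have := h (l - 1) (by omega)
    rwa [show l - 1 + 1 = l by omega] at this
  have dich : (∀ i, i < l → W (l + i) + W 0 = W l + W i) ∨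
      (2 ≤ l ∧ ∀ i, i < l → W (l + i) + W i = W l + W 0) := by
    by_cases h1 : l = 1
    · left
      intro i hi
      obtain rfl : i = 0 := by omega
      rfl
    have e1 : W 0 + 1 = W 1 ∨ W 1 + 1 = W 0 := h 0 (by omega)
    have e2 := h l (by omega)
    by_cases h2 : W (l + 1) + W 0 = W l + W 1
    · left
      have : ∀ i, i + 1 < l → W (l + i) + W 0 = W l + W i ∧
          W (l + i + 1) + W 0 = W l + W (i + 1) := by
        intro i
        induction i with
        | zero => exact fun _ => ⟨rfl, h2⟩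
        | succ i ih =>
          intro hi
          have a1 := ih (by omega)
          have a2 := turn2 i (by omega)
          have a3 := h i (by omega)
          have a4 : W (i + 1) + 1 = W (i + 2) ∨ W (i + 2) + 1 = W (i + 1) := h (i + 1) (by omega)
          have a5 := h (l + i) (by omega)
          have a6 : W (l + i + 1) + 1 = W (l + i + 2) ∨ W (l + i + 2) + 1 = W (l + i + 1) :=
            h (l + i + 1) (by omega)
          change W (l + i + 1) + W 0 = W l + W (i + 1) ∧ W (l + i + 2) + W 0 = W l + W (i + 2)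
          omega
      intro i hi
      rcases i with _ | i
      · rfl
      · exact (this i hi).2
    · right
      refine ⟨by omega, ?_⟩
      have : ∀ i, i + 1 < l → W (l + i) + W i = W l + W 0 ∧
          W (l + i + 1) + W (i + 1) = W l + W 0 := by
        intro i
        induction i with
        | zero => exact fun _ => ⟨rfl, by change W (l + 1) + W 1 = _; omega⟩
        | succ i ih =>
          intro hi
          have a1 := ih (by omega)
          have a2 := turn2 i (by omega)
          have a3 := h i (by omega)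
          have a4 : W (i + 1) + 1 = W (i + 2) ∨ W (i + 2) + 1 = W (i + 1) := h (i + 1) (by omega)
          have a5 := h (l + i) (by omega)
          have a6 : W (l + i + 1) + 1 = W (l + i + 2) ∨ W (l + i + 2) + 1 = W (l + i + 1) :=
            h (l + i + 1) (by omega)
          change W (l + i + 1) + W (i + 1) = W l + W 0 ∧ W (l + i + 2) + W (i + 2) = W l + W 0
          omega
      intro i hi
      rcases i with _ | i
      · rfl
      · exact (this i hi).2
  rcases dich with hd | ⟨h2, hd⟩
  · rcases lt_trichotomy (W 0) (W l) with h1 | h1 | h1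
    · exfalso
      obtain ⟨i0, hi0, e0⟩ := iv (W l - 1) (by omega)
      have b1 := hd i0 (by omega)
      have b2 := hn (l + i0)
      refine sq (W 0) (W l - W 0) (by omega) (by omega) fun j hj => ?_
      obtain ⟨i, hi, e⟩ := iv (W 0 + j) (by omega)
      have b3 := hd i (by omega)
      rw [← e, hr i (by omega)]
      congr 1
      omega
    · intro i hi
      have := hd i hi
      omega
    · exfalso
      obtain ⟨i0, hi0, e0⟩ := iv (W l + 1) (by omega)
      have b1 := hd i0 (by omega)
      have b2 := hn 0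
      refine sq (W (l + i0)) (W 0 - W l) (by omega) (by omega) fun j hj => ?_
      obtain ⟨i, hi, e⟩ := iv (W l + 1 + j) (by omega)
      have b3 := hd i (by omega)
      rw [show W (l + i0) + (W 0 - W l) + j = W i by omega, hr i (by omega)]
      congr 1
      omega
  · exfalso
    have fin : ∀ i, i < l → W i + 1 = W (l + i) ∨ W i + 2 = W (l + i) ∨
        W (l + i) + 1 = W i ∨ W (l + i) + 2 = W i → False := by
      intro i hi hc
      have b1 := hr i hi
      have b2 := hn i
      have b3 := hn (l + i)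
      rcases hc with hc | hc | hc | hc
      · exact one (W i) (by omega) (hc ▸ b1)
      · exact aba (W i) (by omega) (hc ▸ b1)
      · exact one (W (l + i)) (by omega) (hc ▸ b1.symm)
      · exact aba (W (l + i)) (by omega) (hc ▸ b1.symm)
    rcases lt_trichotomy (W 0) (W l) with h1 | h1 | h1
    · obtain ⟨i, hi, e⟩ := iv ((W l + W 0 - 1) / 2) (by omega)
      have b3 := hd i (by omega)
      exact fin i (by omega) (by omega)
    · have b3 := hd 1 (by omega)
      have e1 : W 0 + 1 = W 1 ∨ W 1 + 1 = W 0 := h 0 (by omega)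
      exact fin 1 (by omega) (by omega)
    · obtain ⟨i, hi, e⟩ := iv ((W l + W 0) / 2 + 1) (by omega)
      have b3 := hd i (by omega)
      exact fin i (by omega) (by omega)

theorem wnr_of (n q : ℕ) (φ : ℕ → ℕ) (hq : ∀ i, φ i < q)
    (sq : ∀ i p, 1 ≤ p → i + 2 * p ≤ n → ¬ ∀ j, j < p → φ (i + j) = φ (i + p + j))
    (aba : ∀ i, i + 2 < n → φ i ≠ φ (i + 2)) :
    IsWNR (SimpleGraph.pathGraph n) 1 q (fun v => {⟨φ v, hq v⟩}) := by
  refine ⟨fun v => rfl, fun l hl w hw hb a ha hr => hb fun i hi => Fin.ext ?_⟩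
  refine boring n φ sq aba l hl (fun i => (w i).val) (fun i => (w i).2)
    (fun i hi => SimpleGraph.pathGraph_adj.mp (hw i hi)) (fun i hi => ?_) i hi
  have h1 := Finset.mem_singleton.mp (ha i (by omega))
  have h2 := Finset.mem_singleton.mp (ha (l + i) (by omega))
  have h3 := hr i hi
  rw [h1, h2] at h3
  exact congrArg Fin.val h3

section Low
variable {V : Type} {G : SimpleGraph V} {p q : ℕ} {c : V → Finset (Fin q)}

theorem disj1 (h : IsWNR G p q c) {u v : V} (huv : G.Adj u v) : Disjoint (c u) (c v) := by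
  rw [Finset.disjoint_left]
  intro x h1 h2
  refine h.2 1 le_rfl (fun i => if i = 0 then u else v) (fun i hi => ?_) (fun hb => ?_)
    (fun _ => x) (fun i hi => ?_) (fun _ _ => rfl)
  · obtain rfl : i = 0 := by omega
    simpa using huv
  · exact huv.ne (by simpa using hb 0 (by norm_num))
  · split_ifs <;> assumption

theorem disj2 (hp : 1 ≤ p) (h : IsWNR G p q c) {u v z : V} (huv : G.Adj u v) (hvz : G.Adj v z)
    (hne : u ≠ z) : Disjoint (c u) (c z) := by
  rw [Finset.disjoint_left]
  intro x h1 h2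
  obtain ⟨y, hy⟩ : (c v).Nonempty := Finset.card_pos.mp (by rw [h.1]; omega)
  refine h.2 2 (by norm_num) (fun i => if i = 0 then u else if i = 2 then z else v)
    (fun i hi => ?_) (fun hb => ?_)
    (fun i => if i = 0 ∨ i = 2 then x else y) (fun i hi => ?_) (fun i hi => ?_)
  · have : i < 3 := by omega
    interval_cases i
    · simpa using huv
    · simpa using hvz
    · simpa using hvz.symm
  · exact hne (by simpa using hb 0 (by norm_num))
  · have : i < 4 := by omega
    interval_cases i <;> simpa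
  · interval_cases i <;> simp

theorem three (hp : 1 ≤ p) (h : IsWNR G p q c) {u v z : V} (huv : G.Adj u v) (hvz : G.Adj v z)
    (hne : u ≠ z) : (c u ∪ c v ∪ c z).card = 3 * p := by
  rw [Finset.card_union_of_disjoint (Finset.disjoint_union_left.mpr
    ⟨disj2 hp h huv hvz hne, disj1 h hvz⟩), Finset.card_union_of_disjoint (disj1 h huv),
    h.1, h.1, h.1]
  ring

theorem meet (hp : 1 ≤ p) (hq : q < 4 * p) (h : IsWNR G p q c) {u v z y : V} (huv : G.Adj u v)
    (hvz : G.Adj v z) (hzy : G.Adj z y) (hne : u ≠ z) (hne' : v ≠ y) : ∃ x, x ∈ c u ∧ x ∈ c y := by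
  by_contra hn
  have h1 : Disjoint (c u) (c y) := Finset.disjoint_left.mpr fun x a b => hn ⟨x, a, b⟩
  have h2 := Finset.card_union_of_disjoint (Finset.disjoint_union_left.mpr
    ⟨Finset.disjoint_union_left.mpr ⟨h1, disj2 hp h hvz hzy hne'⟩, disj1 h hzy⟩)
  rw [three hp h huv hvz hne, h.1] at h2
  have h3 := Finset.card_le_univ (c u ∪ c v ∪ c z ∪ c y)
  rw [Fintype.card_fin] at h3
  omega

end Low

theorem low3 {p q : ℕ} (hp : 1 ≤ p) {c : Fin 5 → Finset (Fin q)}
    (h : IsWNR (SimpleGraph.pathGraph 5) p q c) : 3 * p ≤ q := by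
  rw [← three hp h (u := 0) (v := 1) (z := 2) (SimpleGraph.pathGraph_adj.mpr (by decide))
    (SimpleGraph.pathGraph_adj.mpr (by decide)) (by decide)]
  simpa using Finset.card_le_univ (c 0 ∪ c 1 ∪ c 2)

theorem low4 {n p q : ℕ} (hn : 6 ≤ n) (hp : 1 ≤ p) {c : Fin n → Finset (Fin q)}
    (h : IsWNR (SimpleGraph.pathGraph n) p q c) : 4 * p ≤ q := by
  by_contra hq
  let w : ℕ → Fin n := fun i => ⟨i % 6, by omega⟩
  have hw : ∀ i, i < 5 → (SimpleGraph.pathGraph n).Adj (w i) (w (i + 1)) := fun i hi =>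
    SimpleGraph.pathGraph_adj.mpr (by simp only [w]; omega)
  have hm : ∀ i, i < 3 → ∃ x, x ∈ c (w i) ∧ x ∈ c (w (i + 3)) := fun i hi =>
    meet hp (by omega) h (hw i (by omega)) (hw (i + 1) (by omega)) (hw (i + 2) (by omega))
      (by simp only [w, ne_eq, Fin.mk.injEq]; omega) (by simp only [w, ne_eq, Fin.mk.injEq]; omega)
  obtain ⟨x0, a0, b0⟩ := hm 0 (by norm_num)
  obtain ⟨x1, a1, b1⟩ := hm 1 (by norm_num)
  obtain ⟨x2, a2, b2⟩ := hm 2 (by norm_num)
  refine h.2 3 (by norm_num) w (fun i hi => hw i (by omega)) (fun hb => ?_)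
    (fun i => if i % 3 = 0 then x0 else if i % 3 = 1 then x1 else x2) (fun i hi => ?_)
    (fun i hi => ?_)
  · have := hb 0 (by norm_num)
    simp [w] at this
  · have : i < 6 := by omega
    interval_cases i <;> simpa
  · interval_cases i <;> simp

theorem pi_eq {V : Type} (G : SimpleGraph V) (k : ℕ) (hk : 1 < k) (h1 : ∃ c, IsWNR G 1 k c)
    (h2 : ∀ p q, 1 ≤ p → ∀ c, IsWNR G p q c → k * p ≤ q) : piW G = k := by
  apply IsLeast.csInf_eq
  refine ⟨⟨1, k, le_rfl, hk, h1, by simp⟩, ?_⟩
  rintro x ⟨p, q, hp, _, ⟨c, hc⟩, rfl⟩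
  have : (0 : ℝ) < p := by exact_mod_cast hp
  rw [le_div_iff₀ this]
  exact_mod_cast h2 p q hp c hc

end Pool.Agent.H29.WalkNR
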