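import Mathlib

set_option autoImplicit false

namespace Pool.Agent.H29.WeakAtom

/-- nonempty, and any two elements have an upper bound in the set -/
def IsDir {P : Type} [PartialOrder P] (D : Set P) : Prop :=
  D.Nonempty ∧ ∀ a ∈ D, ∀ b ∈ D, ∃ c ∈ D, a ≤ c ∧ b ≤ c

/-- compact element -/
def IsCpt {P : Type} [PartialOrder P] (c : P) : Prop :=
  ∀ (D : Set P) (s : P), IsDir D → IsLUB D s → c ≤ s → ∃ d ∈ D, c ≤ d

/-- algebraic poset -/
def Algebraic (P : Type) [PartialOrder P] : Prop :=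
  (∀ D : Set P, IsDir D → ∃ s, IsLUB D s) ∧
    ∀ x : P, ∃ D : Set P, IsDir D ∧ (∀ c ∈ D, IsCpt c) ∧ IsLUB D x

section Gen
variable {Q : Type} [PartialOrder Q]

/-- directed union -/
def un (D : Set (Order.Ideal Q)) (hD : IsDir D) : Order.Ideal Q where
  carrier := {x | ∃ I ∈ D, x ∈ I}
  lower' := fun _ _ h ⟨I, hI, hx⟩ => ⟨I, hI, I.lower h hx⟩
  nonempty' := by
    obtain ⟨I, hI⟩ := hD.1
    obtain ⟨x, hx⟩ := I.nonempty
    exact ⟨x, I, hI, hx⟩
  directed' := by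
    rintro x ⟨I, hI, hx⟩ y ⟨J, hJ, hy⟩
    obtain ⟨K, hK, h1, h2⟩ := hD.2 I hI J hJ
    obtain ⟨z, hz, h3⟩ := K.directed x (h1 hx) y (h2 hy)
    exact ⟨z, ⟨K, hK, hz⟩, h3⟩

theorem un_lub (D : Set (Order.Ideal Q)) (hD : IsDir D) : IsLUB D (un D hD) :=
  ⟨fun I hI _ hx => ⟨I, hI, hx⟩, fun _ hJ _ ⟨_, hI, hx⟩ => hJ hI hx⟩

theorem alg : Algebraic (Order.Ideal Q) := by
  refine ⟨fun D hD => ⟨_, un_lub D hD⟩, fun I => ⟨Order.Ideal.principal '' (I : Set Q), ?_, ?_, ?_⟩⟩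
  · refine ⟨I.nonempty.image _, ?_⟩
    rintro _ ⟨x, hx, rfl⟩ _ ⟨y, hy, rfl⟩
    obtain ⟨z, hz, h1, h2⟩ := I.directed x hx y hy
    exact ⟨_, ⟨z, hz, rfl⟩, Order.Ideal.principal_le_iff.mpr h1,
      Order.Ideal.principal_le_iff.mpr h2⟩
  · rintro _ ⟨x, _, rfl⟩ D s hD hs hc
    rw [hs.unique (un_lub D hD)] at hc
    obtain ⟨J, hJ, hx⟩ := Order.Ideal.principal_le_iff.mp hc
    exact ⟨J, hJ, Order.Ideal.principal_le_iff.mpr hx⟩
  · constructor
    · rintro _ ⟨x, hx, rfl⟩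
      exact Order.Ideal.principal_le_iff.mpr hx
    · intro J hJ x hx
      exact Order.Ideal.principal_le_iff.mp (hJ ⟨x, hx, rfl⟩)

end Gen

/-- the generating poset -/
structure Q : Type where
  /-- level -/
  n : ℕ
  /-- position -/
  t : ℝ

instance : PartialOrder Q where
  le x y := x = y ∨ (x.n < y.n ∧ x.t < y.t)
  le_refl := fun _ => Or.inl rfl
  le_trans := by
    rintro a b c (rfl | h1) (rfl | h2)
    · exact Or.inl rfl
    · exact Or.inr h2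
    · exact Or.inr h1
    · exact Or.inr ⟨h1.1.trans h2.1, h1.2.trans h2.2⟩
  le_antisymm := by
    rintro a b (rfl | h1) (h2 | h2)
    · rfl
    · rfl
    · exact h2.symm
    · exact absurd (h1.1.trans h2.1) (lt_irrefl _)

/-- the ideal of points left of `r` -/
def I (r : ℝ) : Order.Ideal Q where
  carrier := {x | x.t < r}
  lower' := by
    rintro a b (rfl | h) ha
    · exact ha
    · exact h.2.trans ha
  nonempty' := ⟨⟨0, r - 1⟩, by show r - 1 < r; linarith⟩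
  directed' := by
    intro a ha b hb
    obtain ⟨s, h1, h2⟩ := exists_between (max_lt (show a.t < r from ha) (show b.t < r from hb))
    exact ⟨⟨max a.n b.n + 1, s⟩, h2, Or.inr ⟨by simp only; omega, (max_lt_iff.mp h1).1⟩,
      Or.inr ⟨by simp only; omega, (max_lt_iff.mp h1).2⟩⟩

theorem up {u : Order.Ideal Q} (hu : I 0 ≤ u) {p : Q} (hp : p ∈ u) (k : ℕ) :
    ∃ q ∈ u, k < q.n ∧ p.t < q.t := by
  obtain ⟨q, hq, h1, h2⟩ := u.directed p hp ⟨max k p.n + 1, -1⟩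
    (hu (show (-1 : ℝ) < 0 by norm_num))
  have h3 : max k p.n + 1 ≤ q.n := by
    rcases h2 with rfl | h2
    · exact le_rfl
    · exact h2.1.le
  refine ⟨q, hq, by omega, ?_⟩
  rcases h1 with rfl | h1
  · omega
  · exact h1.2

theorem main : I 0 < I 1 ∧ ∀ u v : Order.Ideal Q, I 0 ≤ u → ¬ u ⋖ v := by
  refine ⟨lt_of_le_of_ne (fun x (hx : x.t < 0) => (show x.t < 1 by linarith)) (fun h => ?_), ?_⟩
  · have : (⟨0, 0⟩ : Q) ∈ I 1 := (show (0 : ℝ) < 1 by norm_num)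
    rw [← h] at this
    exact lt_irrefl (0 : ℝ) this
  · intro u v hu huv
    obtain ⟨p, hp1, hp2⟩ := SetLike.exists_of_lt huv.1
    obtain ⟨q, hq, _, h2⟩ := up (hu.trans huv.1.le) hp1 0
    refine huv.2 (c := I q.t) (lt_of_le_of_ne ?_ ?_) (lt_of_le_of_ne ?_ ?_)
    · intro x hx
      by_contra hc
      obtain ⟨y, hy, h3, h4⟩ := up hu hx p.n
      have h5 : q.t ≤ x.t := not_lt.mp hc
      exact hp2 (u.lower (Or.inr ⟨h3, by linarith⟩ : p ≤ y) hy)
    · intro h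
      exact hp2 (h ▸ h2)
    · intro x (hx : x.t < q.t)
      obtain ⟨y, hy, h3, h4⟩ := up (hu.trans huv.1.le) hq x.n
      exact v.lower (Or.inr ⟨h3, by linarith⟩ : x ≤ y) hy
    · intro h
      rw [← h] at hq
      exact lt_irrefl q.t hq

end Pool.Agent.H29.WeakAtom
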