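import Mathlib

set_option autoImplicit false

namespace Pool.Agent.H29.XInd

open Set
open scoped Pointwise

/-- a finite `G`-poset -/
structure GPos (G : Type) [Group G] where
  P : Type
  [fin : Fintype P]
  [ord : PartialOrder P]
  [act : MulAction G P]
  mono : ∀ (g : G) (a b : P), a ≤ b → g • a ≤ g • b

/-- a finite `G`-simplicial complex -/
structure GCx (G : Type) [Group G] where
  V : Type
  [fin : Fintype V]
  [act : MulAction G V]
  face : Set (Set V)
  ne : ∀ s ∈ face, s.Nonempty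
  down : ∀ s ∈ face, ∀ t, t ⊆ s → t.Nonempty → t ∈ face
  vert : ∀ v, {v} ∈ face
  inv : ∀ (g : G), ∀ s ∈ face, g • s ∈ face

attribute [instance] GPos.fin GPos.ord GPos.act GCx.fin GCx.act

variable {G : Type} [Group G]

/-- the face poset -/
noncomputable def GCx.F (K : GCx G) : GPos G where
  P := K.face
  fin := Fintype.ofFinite _
  act :=
    { smul := fun g s => ⟨g • s.1, K.inv g s.1 s.2⟩
      one_smul := fun s => Subtype.ext (one_smul G s.1)
      mul_smul := fun g h s => Subtype.ext (mul_smul g h s.1) }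
  mono := fun _ _ _ h => smul_set_mono h

/-- the order complex -/
abbrev GPos.Ord (P : GPos G) : GCx G where
  V := P.P
  face := {s | s.Nonempty ∧ IsChain (· ≤ ·) s}
  ne := fun _ h => h.1
  down := fun _ h _ k k' => ⟨k', h.2.mono k⟩
  vert := fun v => ⟨singleton_nonempty v, IsChain.singleton⟩
  inv := fun g _ h => ⟨h.1.smul_set, h.2.image_of_map_rel _ _ _ (P.mono g)⟩

/-- barycentric subdivision -/
noncomputable abbrev GCx.sd (K : GCx G) : GCx G := K.F.Ord

/-- the poset `Q_n G` -/
def Q (G : Type) [Group G] [Fintype G] (n : ℕ) : GPos G where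
  P := G × Fin (n + 1)
  ord :=
    { le := fun a b => a = b ∨ a.2 < b.2
      le_refl := fun _ => .inl rfl
      le_trans := by
        rintro a b c (rfl | h) (rfl | k)
        exacts [.inl rfl, .inr k, .inr h, .inr (h.trans k)]
      le_antisymm := by
        rintro a b (rfl | h) (k | k)
        exacts [rfl, rfl, k.symm, absurd k h.asymm] }
  act :=
    { smul := fun g a => (g * a.1, a.2)
      one_smul := fun a => Prod.ext (one_mul _) rfl
      mul_smul := fun g h a => Prod.ext (mul_assoc ..) rfl }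
  mono := by
    rintro g a b (rfl | h)
    exacts [.inl rfl, .inr h]

/-- the geometric realisation, in barycentric coordinates -/
def GCx.real (K : GCx G) : Set (K.V → ℝ) :=
  {t | (∀ v, 0 ≤ t v) ∧ ∑ v, t v = 1 ∧ Function.support t ∈ K.face}

/-- the action on barycentric coordinates -/
def tr {V : Type} [MulAction G V] (g : G) (t : V → ℝ) : V → ℝ := fun v => t (g⁻¹ • v)

/-- the action on the realisation is free -/
def GCx.Free (K : GCx G) : Prop := ∀ g : G, ∀ t ∈ K.real, tr g t = t → g = 1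

/-- there is a continuous equivariant map between the realisations -/
def GCx.Maps (K L : GCx G) : Prop :=
  ∃ f : (K.V → ℝ) → L.V → ℝ, ContinuousOn f K.real ∧ MapsTo f K.real L.real ∧
    ∀ g : G, ∀ t ∈ K.real, f (tr g t) = tr g (f t)

/-- there is an order-preserving equivariant map -/
def GPos.Maps (P R : GPos G) : Prop :=
  ∃ f : P.P → R.P, Monotone f ∧ ∀ (g : G) (a : P.P), f (g • a) = g • f a

/-- piecewise linear interpolation of a two-sided sequence -/
noncomputable def pl {E : Type} [AddCommGroup E] [Module ℝ E] (e : ℤ → E) (v : ℝ) : E :=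
  (1 - Int.fract v) • e ⌊v⌋ + Int.fract v • e (⌊v⌋ + 1)

theorem pl_cont {E : Type} [NormedAddCommGroup E] [NormedSpace ℝ E] (e : ℤ → E) :
    Continuous (pl e) := by
  have h : ∀ j : ℤ, ContinuousOn (pl e) (Icc j (j + 1)) := fun j => by
    refine ContinuousOn.congr (f := fun v : ℝ => (1 - (v - j)) • e j + (v - j) • e (j + 1))
      (by fun_prop) fun v hv => ?_
    rcases hv.2.eq_or_lt with rfl | k
    · simp [pl]
    · rw [pl, Int.fract, Int.floor_eq_iff.mpr ⟨hv.1, k⟩]
  refine continuous_iff_continuousAt.mpr fun v => ?_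
  refine ((h (⌊v⌋ - 1)).union_of_isClosed (h ⌊v⌋) isClosed_Icc isClosed_Icc).continuousAt ?_
  have := Int.floor_le v
  rw [Int.cast_sub, Int.cast_one, sub_add_cancel, Icc_union_Icc_eq_Icc (by linarith) (by linarith)]
  exact Icc_mem_nhds (by linarith) (Int.lt_floor_add_one v)

variable [Fintype G]

open Classical in
noncomputable def pt (ω g : G) (j : ℤ) : (Q G 1).P → ℝ :=
  Pi.single (g * ω ^ (j / 2), ⟨(j % 2).toNat, by omega⟩) 1

theorem pl_mem (ω g : G) (v : ℝ) : pl (pt ω g) v ∈ (Q G 1).Ord.real := by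
  classical
  have a := Int.fract_nonneg v
  have b := (Int.fract_lt_one v).le
  have s : ∀ j, ∑ x, pt ω g j x = 1 := fun j => by simp [pt]
  have n : ∀ j x, 0 ≤ pt ω g j x := fun j x => by
    simp only [pt, Pi.single_apply]
    positivity
  have k : ∑ x, pl (pt ω g) v x = 1 := by
    simp [pl, Finset.sum_add_distrib, ← Finset.mul_sum, s]
  refine ⟨fun x => add_nonneg (mul_nonneg (by linarith) (n ..)) (mul_nonneg a (n ..)), k, ?_, ?_⟩
  · by_contra h
    simp [Function.support_eq_empty_iff.mp (not_nonempty_iff_eq_empty.mp h)] at k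
  refine IsChain.mono (t := {(g * ω ^ (⌊v⌋ / 2), ⟨(⌊v⌋ % 2).toNat, by omega⟩),
    (g * ω ^ ((⌊v⌋ + 1) / 2), ⟨((⌊v⌋ + 1) % 2).toNat, by omega⟩)}) (fun x hx => ?_) ?_
  · by_contra h
    have h' := not_or.mp h
    exact hx (by simp [pl, pt, Pi.single_eq_of_ne h'.1, Pi.single_eq_of_ne h'.2])
  · refine IsChain.singleton.insert ?_
    rintro _ rfl -
    rcases Int.emod_two_eq_zero_or_one ⌊v⌋ with e | e
    · exact .inl (.inr (Fin.mk_lt_mk.mpr (by omega)))
    · exact .inr (.inr (Fin.mk_lt_mk.mpr (by omega)))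

theorem pl_shift (ω g : G) (k : ℤ) (v : ℝ) :
    pl (pt ω (g * ω ^ k)) v = pl (pt ω g) (v + (2 * k : ℤ)) := by
  have : ∀ j, pt ω (g * ω ^ k) j = pt ω g (j + 2 * k) := fun j => by
    simp only [pt, mul_assoc, ← zpow_add, show k + j / 2 = (j + 2 * k) / 2 by omega,
      show (j + 2 * k) % 2 = j % 2 by omega]
  rw [pl, pl, Int.fract_add_intCast, Int.floor_add_intCast, this, this, add_right_comm]

theorem pl_tr (ω g h : G) (v : ℝ) : pl (pt ω (h * g)) v = tr h (pl (pt ω g) v) := by
  classical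
  have : ∀ j x, pt ω (h * g) j x = pt ω g j (h⁻¹ • x) := fun j x => by
    simp only [pt, Pi.single_apply, inv_smul_eq_iff, mul_assoc]
    rfl
  funext x
  simp [pl, tr, this]

theorem maps_one (K : GCx G) (ω : G) (ψ : K.V → G) (c : K.V → K.V → ℤ)
    (h1 : ∀ (g : G) v, ψ (g • v) = g * ψ v) (h2 : ∀ (g : G) u v, c (g • u) (g • v) = c u v)
    (h3 : ∀ s ∈ K.face, ∀ u ∈ s, ∀ v ∈ s, ψ v = ψ u * ω ^ c u v ∧
      ∀ w ∈ s, c u v + c v w = c u w) : K.Maps (Q G 1).Ord := by
  refine ⟨fun t => ∑ p, t p • pl (pt ω (ψ p)) (2 * ∑ q, t q * c p q), ?_, fun t ht => ?_,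
    fun g t _ => ?_⟩
  · have := fun g => pl_cont (pt ω g)
    fun_prop
  · obtain ⟨r, hr⟩ := K.ne _ ht.2.2
    convert pl_mem ω (ψ r) (2 * ∑ q, t q * c r q) using 1
    rw [← one_smul ℝ (pl (pt ω (ψ r)) _), ← ht.2.1, Finset.sum_smul]
    refine Finset.sum_congr rfl fun p _ => ?_
    by_cases hp : t p = 0
    · simp [hp]
    rw [(h3 _ ht.2.2 p hp r hr).1, pl_shift]
    congr 2
    push_cast
    rw [← mul_add, ← one_mul (c p r : ℝ), ← ht.2.1, Finset.sum_mul, ← Finset.sum_add_distrib]
    congr 1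
    refine Finset.sum_congr rfl fun q _ => ?_
    by_cases hq : t q = 0
    · simp [hq]
    rw [← (h3 _ ht.2.2 p hp r hr).2 q hq]
    push_cast
    ring
  · have e := fun {M : Type} [AddCommMonoid M] (f : K.V → M) =>
      Equiv.sum_comp (MulAction.toPerm g) f
    beta_reduce
    rw [← e]
    funext x
    simp only [← e fun q => tr g t q * _]
    simp [tr, h1, h2, pl_tr]

end Pool.Agent.H29.XInd
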